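import Mathlib
import Pool.Agent.H9.Machine

/-!
Unambiguous alternation: the classes `AUSigma_k`, `AP` (that is `PSPACE`) and `UAP` relative to an
oracle.
-/

set_option autoImplicit false

namespace Pool.Agent.H8u

open Pool.Agent.H9

/-- The quantifier tree of `Alt ex k m φ` is unambiguous: every existential node has at most one
true child and every universal node has at most one false child. -/
def Unamb : Bool → ℕ → ℕ → (List (List Bool) → Prop) → Prop
  | _, 0, _, _ => True
  | ex, k + 1, m, φ =>
      (∀ u v : List Bool, u.length = m → v.length = m →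
        (Alt (!ex) k m (fun us => φ (u :: us)) ↔ ex = true) →
        (Alt (!ex) k m (fun us => φ (v :: us)) ↔ ex = true) → u = v) ∧
      ∀ u : List Bool, u.length = m → Unamb (!ex) k m (fun us => φ (u :: us))

/-- The level `k` of the alternating unambiguous polynomial hierarchy relative to `A`. -/
def AUSigmaP (A : Oracle) (k : ℕ) : Set (Set (List Bool)) :=
  {L | ∃ (q : Polynomial ℕ) (p : Prog), PolyTime A (k + 1) p ∧
    ∀ x : List Bool,
      (x ∈ L ↔ Alt true k (q.eval x.length) (fun us => Accepts A p (x :: us))) ∧
      Unamb true k (q.eval x.length) (fun us => Accepts A p (x :: us))}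

end Pool.Agent.H8u

namespace Pool.Agent.H8v

open Pool.Agent.H9
open Pool.Agent.H8u (Unamb)

/-- The self-delimiting code of a list of strings. -/
def enc (us : List (List Bool)) : List Bool :=
  us.flatMap (fun u => u.flatMap (fun b => [true, b]) ++ [false])

/-- `AP^A`: alternating polynomial time relative to `A` (polynomially many alternating blocks of
polynomial length); this is `PSPACE^A`. -/
def AP (A : Oracle) : Set (Set (List Bool)) :=
  {L | ∃ (t q : Polynomial ℕ) (p : Prog), PolyTime A 2 p ∧ ∀ x : List Bool,
    x ∈ L ↔ Alt true (t.eval x.length) (q.eval x.length) (fun us => Accepts A p [x, enc us])}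

/-- `UAP^A`: unambiguous alternating polynomial time relative to `A`. -/
def UAP (A : Oracle) : Set (Set (List Bool)) :=
  {L | ∃ (t q : Polynomial ℕ) (p : Prog), PolyTime A 2 p ∧ ∀ x : List Bool,
    (x ∈ L ↔ Alt true (t.eval x.length) (q.eval x.length)
      (fun us => Accepts A p [x, enc us])) ∧
    Unamb true (t.eval x.length) (q.eval x.length) (fun us => Accepts A p [x, enc us])}

end Pool.Agent.H8v
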