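import Pool.Agent.H8.Robust
import Pool.Agent.H9.Clos

set_option autoImplicit false

/-!
Destroying an infinite hierarchy: if the census bound is exponential on a polynomially dense set of
lengths, every oracle `G` has an oracle `S` of census at most `s` with `P = NP` relative to the join.
-/

namespace Pool.Agent.H8d

open Pool.Agent.H9
open Pool.Agent.H8 (Census)

/-! ### Frames -/

/-- `p` never changes the stack `i` -/
def Avoids (i : ℕ) : Prog → Prop
  | Prog.skip => True
  | Prog.push j _ => j ≠ i
  | Prog.pop j => j ≠ i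
  | Prog.seq p q => Avoids i p ∧ Avoids i q
  | Prog.cond _ p q r => Avoids i p ∧ Avoids i q ∧ Avoids i r
  | Prog.loop _ p => Avoids i p
  | Prog.ask _ p q => Avoids i p ∧ Avoids i q

theorem step_avoids {A : Oracle} {i : ℕ} (c : Cfg) (h : ∀ p ∈ c.1, Avoids i p) :
    (∀ p ∈ (step A c).1, Avoids i p) ∧ (step A c).2 i = c.2 i := by
  obtain ⟨k, s⟩ := c
  simp only at h
  match k with
  | [] => exact ⟨h, rfl⟩
  | Prog.skip :: k => exact ⟨fun p hp => h p (List.mem_cons_of_mem _ hp), rfl⟩
  | Prog.push j b :: k =>
    refine ⟨fun p hp => h p (List.mem_cons_of_mem _ hp), ?_⟩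
    have h1 : j ≠ i := h _ List.mem_cons_self
    show Function.update s j (b :: s j) i = s i
    rw [Function.update_of_ne h1.symm]
  | Prog.pop j :: k =>
    refine ⟨fun p hp => h p (List.mem_cons_of_mem _ hp), ?_⟩
    have h1 : j ≠ i := h _ List.mem_cons_self
    show Function.update s j (s j).tail i = s i
    rw [Function.update_of_ne h1.symm]
  | Prog.seq p q :: k =>
    refine ⟨?_, rfl⟩
    have h1 : Avoids i p ∧ Avoids i q := h _ List.mem_cons_self
    intro r hr
    have hr' : r ∈ p :: q :: k := hr
    rw [List.mem_cons, List.mem_cons] at hr'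
    rcases hr' with rfl | rfl | hr'
    · exact h1.1
    · exact h1.2
    · exact h r (List.mem_cons_of_mem _ hr')
  | Prog.cond j p q r :: k =>
    have h1 : Avoids i p ∧ Avoids i q ∧ Avoids i r := h _ List.mem_cons_self
    have h2 : ∀ u ∈ k, Avoids i u := fun u hu => h u (List.mem_cons_of_mem _ hu)
    match hs : s j with
    | [] =>
      have e : step A (Prog.cond j p q r :: k, s) = (p :: k, s) := by simp [step, hs]
      rw [e]
      refine ⟨?_, rfl⟩
      intro u hu
      rcases List.mem_cons.mp hu with rfl | hu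
      · exact h1.1
      · exact h2 u hu
    | false :: l =>
      have e : step A (Prog.cond j p q r :: k, s) = (q :: k, s) := by simp [step, hs]
      rw [e]
      refine ⟨?_, rfl⟩
      intro u hu
      rcases List.mem_cons.mp hu with rfl | hu
      · exact h1.2.1
      · exact h2 u hu
    | true :: l =>
      have e : step A (Prog.cond j p q r :: k, s) = (r :: k, s) := by simp [step, hs]
      rw [e]
      refine ⟨?_, rfl⟩
      intro u hu
      rcases List.mem_cons.mp hu with rfl | hu
      · exact h1.2.2
      · exact h2 u hu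
  | Prog.loop j p :: k =>
    have h1 : Avoids i p := h (Prog.loop j p) List.mem_cons_self
    have h2 : ∀ u ∈ k, Avoids i u := fun u hu => h u (List.mem_cons_of_mem _ hu)
    match hs : s j with
    | [] =>
      have e : step A (Prog.loop j p :: k, s) = (k, s) := by simp [step, hs]
      rw [e]
      exact ⟨h2, rfl⟩
    | b :: l =>
      have e : step A (Prog.loop j p :: k, s) = (p :: Prog.loop j p :: k, s) := by
        simp [step, hs]
      rw [e]
      refine ⟨?_, rfl⟩
      intro u hu
      rcases List.mem_cons.mp hu with rfl | hu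
      · exact h1
      · rcases List.mem_cons.mp hu with rfl | hu
        · exact h1
        · exact h2 u hu
  | Prog.ask j p q :: k =>
    have h1 : Avoids i p ∧ Avoids i q := h _ List.mem_cons_self
    have h2 : ∀ u ∈ k, Avoids i u := fun u hu => h u (List.mem_cons_of_mem _ hu)
    by_cases hA : A (s j) = true
    · have e : step A (Prog.ask j p q :: k, s) = (p :: k, s) := by simp [step, hA]
      rw [e]
      refine ⟨?_, rfl⟩
      intro u hu
      rcases List.mem_cons.mp hu with rfl | hu
      · exact h1.1
      · exact h2 u hu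
    · have e : step A (Prog.ask j p q :: k, s) = (q :: k, s) := by simp [step, hA]
      rw [e]
      refine ⟨?_, rfl⟩
      intro u hu
      rcases List.mem_cons.mp hu with rfl | hu
      · exact h1.2
      · exact h2 u hu

theorem iterate_avoids {A : Oracle} {i : ℕ} (n : ℕ) : ∀ c : Cfg, (∀ p ∈ c.1, Avoids i p) →
    ((step A)^[n] c).2 i = c.2 i := by
  induction n with
  | zero => intro c _; rfl
  | succ n ih =>
    intro c h
    obtain ⟨h1, h2⟩ := step_avoids (A := A) c h
    rw [Function.iterate_succ_apply, ih _ h1, h2]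

theorem exec_avoids {A : Oracle} {p : Prog} {s s' : ℕ → List Bool} {N i : ℕ}
    (h : Exec A p s s' N) (hp : Avoids i p) : s' i = s i := by
  obtain ⟨n, -, h⟩ := h
  have h1 := h []
  have h2 := iterate_avoids (A := A) (i := i) n ([p], s) (by simpa using hp)
  rw [h1] at h2
  exact h2

theorem avoids_seqs (i : ℕ) (l : List Prog) : Avoids i (seqs l) ↔ ∀ p ∈ l, Avoids i p := by
  induction l with
  | nil => simp [seqs, Avoids]
  | cons p l ih => simp [seqs, Avoids, ih]

theorem avoids_sq {i : ℕ} (hi : 6 ≤ i) : Avoids i Pool.Agent.H9.sq := by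
  have h2 : (2 : ℕ) ≠ i := by omega
  have h3 : (3 : ℕ) ≠ i := by omega
  have h4 : (4 : ℕ) ≠ i := by omega
  have h5 : (5 : ℕ) ≠ i := by omega
  simp [Pool.Agent.H9.sq, seqs, Avoids, h2, h3, h4, h5]

theorem avoids_sqs {i : ℕ} (hi : 6 ≤ i) (c : ℕ) : Avoids i (sqs c) := by
  induction c with
  | zero => simp [sqs, Avoids]
  | succ c ih => exact ⟨avoids_sq hi, ih⟩

theorem avoids_mkCode {i : ℕ} (hi : 6 ≤ i) (e c : ℕ) : Avoids i (mkCode e c) := by
  have h0 : (0 : ℕ) ≠ i := by omega
  have h1 : (1 : ℕ) ≠ i := by omega
  have h2 : (2 : ℕ) ≠ i := by omega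
  have h3 : Avoids i (seqs (List.replicate e (Prog.push 2 true))) := by
    rw [avoids_seqs]
    intro p hp
    rw [List.eq_of_mem_replicate hp]
    exact h2
  have h4 := avoids_sqs hi c
  unfold mkCode
  rw [avoids_seqs]
  intro p hp
  simp only [List.mem_cons, List.not_mem_nil, or_false] at hp
  rcases hp with rfl | rfl | rfl | rfl | rfl | rfl | rfl | rfl
  · simp [seqs, Avoids, h0, h1, h2]
  · exact h2
  · exact h2
  · exact h4
  · exact h2
  · simp [seqs, Avoids, h1, h2]
  · exact h2
  · exact h3

theorem avoids_moveAll {i a b : ℕ} (ha : a ≠ i) (hb : b ≠ i) : Avoids i (moveAll a b) := by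
  simp [moveAll, Avoids, ha, hb]

/-! ### The counter -/

/-- copy the length of the input to stack `2` while saving the input, reversed, on stack `1` -/
def splitProg : Prog :=
  Prog.loop 0 (Prog.cond 0 Prog.skip
      (seqs [Prog.pop 0, Prog.push 1 false, Prog.push 2 true])
      (seqs [Prog.pop 0, Prog.push 1 true, Prog.push 2 true]))

theorem exec_split (A : Oracle) (s : ℕ → List Bool) (h1 : s 1 = []) (h2 : s 2 = []) :
    ∃ s', Exec A splitProg s s' ((s 0).length * 9 + 1) ∧ s' 0 = [] ∧ s' 1 = (s 0).reverse ∧
      s' 2 = List.replicate (s 0).length true ∧ ∀ i, 3 ≤ i → s' i = s i := by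
  obtain ⟨s1, e1, a0, a1, a2, a3⟩ := exec_loop_inv (A := A) (i := 0) (N := 8)
    (p := Prog.cond 0 Prog.skip
      (seqs [Prog.pop 0, Prog.push 1 false, Prog.push 2 true])
      (seqs [Prog.pop 0, Prog.push 1 true, Prog.push 2 true]))
    (Inv := fun l t => l.reverse ++ t 1 = (s 0).reverse ∧
      (∃ r, t 2 = List.replicate r true ∧ r + l.length = (s 0).length) ∧
      ∀ i, 3 ≤ i → t i = s i) (by
      intro b l t ht hI
      obtain ⟨hI1, ⟨r, hr1, hr2⟩, hI3⟩ := hI
      refine ⟨Function.update (Function.update (Function.update t 0 l) 1 (b :: t 1)) 2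
        (true :: t 2), ?_, ?_, ?_, ⟨r + 1, ?_, ?_⟩, ?_⟩
      · apply exec_cond_cons ht
        have g1 := exec_pop A t 0
        rw [ht, List.tail_cons] at g1
        have g2 := exec_push A (Function.update t 0 l) 1 b
        have g3 := exec_push A (Function.update (Function.update t 0 l) 1 (b :: t 1)) 2 true
        simp only [Function.update_of_ne (show (1 : ℕ) ≠ 0 by norm_num)] at g2
        simp only [Function.update_of_ne (show (2 : ℕ) ≠ 1 by norm_num),
          Function.update_of_ne (show (2 : ℕ) ≠ 0 by norm_num)] at g3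
        have g4 := exec_seqs_cons g1 (exec_seqs_cons g2 (exec_seqs_cons g3 (exec_seqs_nil _ _)))
        cases b
        · simpa using g4
        · simpa using g4
      · simp [Function.update_of_ne]
      · rw [Function.update_of_ne (by norm_num), Function.update_self]
        rw [← hI1]
        simp
      · rw [Function.update_self, hr1, List.replicate_succ]
      · rw [← hr2]
        simp only [List.length_cons]
        omega
      · intro i hi
        rw [Function.update_of_ne (by omega), Function.update_of_ne (by omega),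
          Function.update_of_ne (by omega)]
        exact hI3 i hi) (s 0) s rfl
      ⟨by simp [h1], ⟨0, by simp [h2], by simp⟩, fun _ _ => rfl⟩
  obtain ⟨r, hr1, hr2⟩ := a2
  simp only [List.length_nil, Nat.add_zero] at hr2
  subst hr2
  simp only [List.reverse_nil, List.nil_append] at a1
  exact ⟨s1, e1, a0, a1, hr1, a3⟩

/-- put a unary number of size `(n + 2) ^ 2 ^ c` on stack `6` -/
def cntProg (c : ℕ) : Prog := seqs [splitProg, Prog.push 2 true, Prog.push 2 true, sqs c,
  moveAll 2 6, moveAll 1 0]

/-- time bound of `cntProg` -/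
def cntTime (c n : ℕ) : ℕ :=
  c * (20 * ((n + 2) ^ 2 ^ c + 1) * ((n + 2) ^ 2 ^ c + 1) + 1) + 5 * (n + 2) ^ 2 ^ c + 14 * n + 20

theorem exec_cnt (A : Oracle) (c : ℕ) (s : ℕ → List Bool) (h1 : s 1 = []) (h2 : s 2 = [])
    (h3 : s 3 = []) (h4 : s 4 = []) (h5 : s 5 = []) (h6 : s 6 = []) :
    ∃ s', Exec A (cntProg c) s s' (cntTime c (s 0).length) ∧ s' 0 = s 0 ∧ s' 1 = [] ∧
      s' 2 = [] ∧ s' 3 = [] ∧ s' 4 = [] ∧ s' 5 = [] ∧
      s' 6 = List.replicate (((s 0).length + 2) ^ 2 ^ c) true := by
  obtain ⟨s1, e1, a0, a1, a2, a3⟩ := exec_split A s h1 h2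
  have e2 := exec_push A s1 2 true
  have e3 := exec_push A (Function.update s1 2 (true :: s1 2)) 2 true
  rw [Function.update_self, Function.update_idem] at e3
  set s3 := Function.update s1 2 (true :: true :: s1 2) with hs3
  have c2 : s3 2 = List.replicate ((s 0).length + 2) true := by
    rw [hs3, Function.update_self, a2, List.replicate_succ, List.replicate_succ]
  have c0 : s3 0 = [] := by rw [hs3, Function.update_of_ne (by norm_num), a0]
  have c1 : s3 1 = (s 0).reverse := by rw [hs3, Function.update_of_ne (by norm_num), a1]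
  have c3 : s3 3 = [] := by rw [hs3, Function.update_of_ne (by norm_num), a3 3 le_rfl, h3]
  have c4 : s3 4 = [] := by
    rw [hs3, Function.update_of_ne (by norm_num), a3 4 (by norm_num), h4]
  have c5 : s3 5 = [] := by
    rw [hs3, Function.update_of_ne (by norm_num), a3 5 (by norm_num), h5]
  have c6 : s3 6 = [] := by
    rw [hs3, Function.update_of_ne (by norm_num), a3 6 (by norm_num), h6]
  obtain ⟨s4, e4, d2, d3, d4, d5, d0, d1⟩ := exec_sqs A c s3 ((s 0).length + 2) (by omega)
    c2 c3 c4 c5
  have d6 : s4 6 = [] := by rw [exec_avoids e4 (avoids_sqs le_rfl c), c6]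
  set N := ((s 0).length + 2) ^ 2 ^ c with hN
  obtain ⟨s5, e5, f2, f6, fm⟩ := exec_moveAll A (show (2 : ℕ) ≠ 6 by norm_num) s4
  obtain ⟨s6, e6, g1, g0, gm⟩ := exec_moveAll A (show (1 : ℕ) ≠ 0 by norm_num) s5
  have f1 : s5 1 = (s 0).reverse := by rw [fm 1 (by norm_num) (by norm_num), d1, c1]
  have f0 : s5 0 = [] := by rw [fm 0 (by norm_num) (by norm_num), d0, c0]
  refine ⟨s6, ?_, ?_, g1, ?_, ?_, ?_, ?_, ?_⟩
  · refine (exec_seqs_cons e1 (exec_seqs_cons e2 (exec_seqs_cons e3 (exec_seqs_cons e4
      (exec_seqs_cons e5 (exec_seqs_cons e6 (exec_seqs_nil _ _))))))).mono ?_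
    rw [d2, f1, List.length_replicate, List.length_reverse, cntTime, ← hN]
    omega
  · rw [g0, f1, f0, List.reverse_reverse, List.append_nil]
  · rw [gm 2 (by norm_num) (by norm_num), f2]
  · rw [gm 3 (by norm_num) (by norm_num), fm 3 (by norm_num) (by norm_num), d3]
  · rw [gm 4 (by norm_num) (by norm_num), fm 4 (by norm_num) (by norm_num), d4]
  · rw [gm 5 (by norm_num) (by norm_num), fm 5 (by norm_num) (by norm_num), d5]
  · rw [gm 6 (by norm_num) (by norm_num), f6, d2, d6, List.append_nil, List.reverse_replicate]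

/-! ### The search -/

/-- ask for the word on stack `2` with all numbers of leading zeros below the counter -/
def search : Prog := Prog.seq (Prog.push 2 true) (Prog.loop 6 (seqs [Prog.pop 6,
  Prog.push 2 true, Prog.ask 2 (Prog.push 0 true) Prog.skip, Prog.pop 2, Prog.push 2 false]))

/-- the word with `j` leading zeros -/
def padw (j : ℕ) (v : List Bool) : List Bool := List.replicate j false ++ true :: v

theorem padw_succ (j : ℕ) (v : List Bool) : padw (j + 1) v = false :: padw j v := by
  simp [padw, List.replicate_succ]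

theorem length_padw (j : ℕ) (v : List Bool) : (padw j v).length = j + 1 + v.length := by
  simp [padw]
  omega

theorem padw_inj {j j' : ℕ} {v v' : List Bool} (h : padw j v = padw j' v') : j = j' ∧ v = v' := by
  induction j generalizing j' with
  | zero =>
    cases j' with
    | zero => simpa [padw] using h
    | succ j' => rw [padw_succ] at h; simp [padw] at h
  | succ j ih =>
    cases j' with
    | zero => rw [padw_succ] at h; simp [padw] at h
    | succ j' =>
      rw [padw_succ, padw_succ, List.cons.injEq] at h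
      obtain ⟨h1, h2⟩ := ih h.2
      exact ⟨by omega, h2⟩

theorem exec_search (G S : Oracle) (s : ℕ → List Bool) (M : ℕ) (h0 : s 0 = [])
    (h6 : s 6 = List.replicate M true) :
    ∃ s', Exec (join G S) search s s' (13 * M + 3) ∧
      ((s' 0).head? = some true ↔ ∃ j < M, S (padw j (s 2)) = true) := by
  have e1 := exec_push (join G S) s 2 true
  set s1 := Function.update s 2 (true :: s 2) with hs1
  obtain ⟨s2, e2, a6, r, hr1, hr2, hr3⟩ := exec_loop_inv (A := join G S) (i := 6) (N := 12)
    (p := seqs [Prog.pop 6, Prog.push 2 true, Prog.ask 2 (Prog.push 0 true) Prog.skip,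
      Prog.pop 2, Prog.push 2 false])
    (Inv := fun l t => ∃ r, r + l.length = M ∧ t 2 = padw r (s 2) ∧
      ((t 0 = [] ∨ (t 0).head? = some true) ∧
        ((t 0).head? = some true ↔ ∃ j < r, S (padw j (s 2)) = true))) (by
      rintro b l t ht ⟨r, hr1, hr2, hr3, hr4⟩
      have g1 := exec_pop (join G S) t 6
      rw [ht, List.tail_cons] at g1
      set t1 := Function.update t 6 l with ht1
      have g2 := exec_push (join G S) t1 2 true
      set t2 := Function.update t1 2 (true :: t1 2) with ht2
      have u2 : t2 2 = true :: padw r (s 2) := by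
        rw [ht2, Function.update_self, ht1, Function.update_of_ne (by norm_num), hr2]
      have u0 : t2 0 = t 0 := by
        rw [ht2, Function.update_of_ne (by norm_num), ht1, Function.update_of_ne (by norm_num)]
      have u6 : t2 6 = l := by
        rw [ht2, Function.update_of_ne (by norm_num), ht1, Function.update_self]
      obtain ⟨t3, g3, w2, w6, w0⟩ : ∃ t3, Exec (join G S)
          (Prog.ask 2 (Prog.push 0 true) Prog.skip) t2 t3 2 ∧ t3 2 = t2 2 ∧ t3 6 = t2 6 ∧
          t3 0 = if S (padw r (s 2)) = true then true :: t 0 else t 0 := by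
        by_cases hS : S (padw r (s 2)) = true
        · refine ⟨Function.update t2 0 (true :: t2 0), ?_, ?_, ?_, ?_⟩
          · apply exec_ask (N := 1)
            rw [u2]
            have : join G S (true :: padw r (s 2)) = true := hS
            rw [if_pos this]
            exact exec_push (join G S) t2 0 true
          · rw [Function.update_of_ne (by norm_num)]
          · rw [Function.update_of_ne (by norm_num)]
          · rw [Function.update_self, u0, if_pos hS]
        · refine ⟨t2, ?_, rfl, rfl, ?_⟩
          · apply exec_ask (N := 1)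
            rw [u2]
            have : ¬ join G S (true :: padw r (s 2)) = true := hS
            rw [if_neg this]
            exact exec_skip (join G S) t2
          · rw [if_neg hS, u0]
      have g4 := exec_pop (join G S) t3 2
      rw [w2, u2, List.tail_cons] at g4
      have g5 := exec_push (join G S) (Function.update t3 2 (padw r (s 2))) 2 false
      rw [Function.update_self, Function.update_idem] at g5
      refine ⟨_, (exec_seqs_cons g1 (exec_seqs_cons g2 (exec_seqs_cons g3 (exec_seqs_cons g4
        (exec_seqs_cons g5 (exec_seqs_nil _ _)))))).mono (by omega), ?_, r + 1, ?_, ?_, ?_, ?_⟩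
      · rw [Function.update_of_ne (by norm_num), w6, u6]
      · simp only [List.length_cons] at hr1
        omega
      · rw [Function.update_self, padw_succ]
      · rw [Function.update_of_ne (by norm_num), w0]
        by_cases hS : S (padw r (s 2)) = true
        · rw [if_pos hS]; right; rfl
        · rw [if_neg hS]; exact hr3
      · rw [Function.update_of_ne (by norm_num), w0]
        by_cases hS : S (padw r (s 2)) = true
        · rw [if_pos hS]
          constructor
          · intro _
            exact ⟨r, by omega, hS⟩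
          · intro _
            rfl
        · rw [if_neg hS, hr4]
          constructor
          · rintro ⟨j, hj, h⟩
            exact ⟨j, by omega, h⟩
          · rintro ⟨j, hj, h⟩
            rcases Nat.lt_or_ge j r with hjr | hjr
            · exact ⟨j, hjr, h⟩
            · have : j = r := by omega
              subst this
              exact absurd h hS) (List.replicate M true) s1 (by
      rw [hs1, Function.update_of_ne (by norm_num), h6]) ⟨0, by simp, by
      rw [hs1, Function.update_self]
      rfl, by
      rw [hs1, Function.update_of_ne (by norm_num), h0]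
      left; rfl, by
      rw [hs1, Function.update_of_ne (by norm_num), h0]
      simp⟩
  simp only [List.length_nil, Nat.add_zero] at hr1
  subst hr1
  refine ⟨s2, (e1.seq e2).mono ?_, hr3.2⟩
  rw [List.length_replicate]
  omega

/-! ### The oracle -/

open Classical in
/-- the operator whose fixpoint is the destroying oracle -/
noncomputable def opS (g : ℕ → Prog × Polynomial ℕ × Polynomial ℕ) (s : ℕ → ℕ) (G : Oracle)
    (S : Oracle) : Oracle := fun w =>
  decide (∃ j v, w = padw j v ∧ 2 ^ (v.length + 1) ≤ s w.length ∧ KProp g (join G S) v)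

theorem opS_contr (g : ℕ → Prog × Polynomial ℕ × Polynomial ℕ) (s : ℕ → ℕ) (G : Oracle) :
    Contr (opS g s G) := by
  intro S S' w h
  unfold opS
  apply decide_eq_decide.mpr
  apply exists_congr
  intro j
  apply exists_congr
  intro v
  apply and_congr_right
  intro hw
  apply and_congr_right
  intro _
  apply kprop_local
  intro y hy
  match y with
  | [] => rfl
  | false :: y => rfl
  | true :: y =>
    apply h
    rw [hw, length_padw]
    simp only [List.length_cons] at hy
    nlinarith

/-- the destroying oracle -/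
noncomputable def orS (g : ℕ → Prog × Polynomial ℕ × Polynomial ℕ) (s : ℕ → ℕ) (G : Oracle) :
    Oracle := fixO (opS g s G)

theorem orS_apply (g : ℕ → Prog × Polynomial ℕ × Polynomial ℕ) (s : ℕ → ℕ) (G : Oracle)
    (w : List Bool) : orS g s G w = true ↔
      ∃ j v, w = padw j v ∧ 2 ^ (v.length + 1) ≤ s w.length ∧
        KProp g (join G (orS g s G)) v := by
  have h : opS g s G (orS g s G) = orS g s G := fixO_eq (opS_contr g s G)
  have h2 : opS g s G (orS g s G) w = true ↔
      ∃ j v, w = padw j v ∧ 2 ^ (v.length + 1) ≤ s w.length ∧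
        KProp g (join G (orS g s G)) v := by
    simp only [opS, decide_eq_true_eq]
  rw [h] at h2
  exact h2

theorem orS_pad (g : ℕ → Prog × Polynomial ℕ × Polynomial ℕ) (s : ℕ → ℕ) (G : Oracle)
    (j : ℕ) (v : List Bool) : orS g s G (padw j v) = true ↔
      2 ^ (v.length + 1) ≤ s (j + 1 + v.length) ∧ KProp g (join G (orS g s G)) v := by
  rw [orS_apply]
  constructor
  · rintro ⟨j', v', h1, h2, h3⟩
    obtain ⟨rfl, rfl⟩ := padw_inj h1
    rw [length_padw] at h2
    exact ⟨h2, h3⟩
  · rintro ⟨h1, h2⟩
    exact ⟨j, v, rfl, by rw [length_padw]; exact h1, h2⟩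

theorem orS_census (g : ℕ → Prog × Polynomial ℕ × Polynomial ℕ) (s : ℕ → ℕ) (G : Oracle) :
    Census s (orS g s G) := by
  classical
  intro n
  rcases Nat.lt_or_ge (s n) 2 with hn | hn
  · have : {w : List Bool | w.length = n ∧ orS g s G w = true} = ∅ := by
      ext w
      simp only [Set.mem_ofPred_eq, Set.mem_empty_iff_false, iff_false]
      rintro ⟨h1, h2⟩
      obtain ⟨j, v, -, h3, -⟩ := (orS_apply g s G w).mp h2
      rw [h1] at h3
      have h4 : 2 ^ 1 ≤ 2 ^ (v.length + 1) := Nat.pow_le_pow_right (by norm_num) (by omega)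
      omega
    rw [this]
    simp
  · set L := Nat.log 2 (s n) with hL
    have hL1 : 1 ≤ L := by
      rw [hL]
      exact (Nat.le_log_iff_pow_le (by norm_num) (by omega)).mpr (by simpa using hn)
    have hL2 : 2 ^ L ≤ s n := Nat.pow_log_le_self 2 (by omega)
    have hsub : {w : List Bool | w.length = n ∧ orS g s G w = true} ⊆
        (((words (L - 1)).image (fun v => padw (n - 1 - v.length) v) : Finset (List Bool)) :
          Set (List Bool)) := by
      rintro w ⟨h1, h2⟩
      obtain ⟨j, v, rfl, h3, -⟩ := (orS_apply g s G w).mp h2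
      rw [h1] at h3
      rw [length_padw] at h1
      rw [Finset.mem_coe, Finset.mem_image]
      refine ⟨v, ?_, ?_⟩
      · rw [mem_words]
        have h4 : v.length + 1 ≤ L := (Nat.le_log_iff_pow_le (by norm_num) (by omega)).mpr h3
        omega
      · have : n - 1 - v.length = j := by omega
        rw [this]
    calc _ ≤ _ := Set.ncard_le_ncard hsub (Finset.finite_toSet _)
      _ = ((words (L - 1)).image (fun v => padw (n - 1 - v.length) v)).card :=
          Set.ncard_coe_finset _
      _ ≤ (words (L - 1)).card := Finset.card_image_le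
      _ ≤ 2 ^ (L - 1 + 1) := card_words _
      _ = 2 ^ L := by congr 1; omega
      _ ≤ s n := hL2

/-- the deterministic machine -/
def detProg (e c0 c1 : ℕ) : Prog := seqs [cntProg c1, mkCode e c0, search]

/-- time bound of `detProg` -/
def detTime (e c0 c1 n : ℕ) : ℕ :=
  cntTime c1 n + codeTime e c0 n + 13 * (n + 2) ^ 2 ^ c1 + 10

theorem exec_det (G S : Oracle) (e c0 c1 : ℕ) (x : List Bool) :
    ∃ s', run (join G S) (detProg e c0 c1) [x] (detTime e c0 c1 x.length) = ([], s') ∧
      ((s' 0).head? = some true ↔ ∃ j < (x.length + 2) ^ 2 ^ c1,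
        S (padw j (code e x ((x.length + 2) ^ 2 ^ c0))) = true) := by
  obtain ⟨s1, e1, a0, a1, a2, a3, a4, a5, a6⟩ := exec_cnt (join G S) c1
    (fun i => [x].getD i []) (by simp) (by simp) (by simp) (by simp) (by simp) (by simp)
  have hx0 : (fun i => [x].getD i []) 0 = x := by simp
  simp only [hx0] at e1 a0 a6
  obtain ⟨s2, e2, b2, b0⟩ := exec_mkCode (join G S) e c0 s1 a1 a2 a3 a4 a5
  have b6 : s2 6 = s1 6 := exec_avoids e2 (avoids_mkCode le_rfl e c0)
  rw [a0] at e2 b2
  obtain ⟨s3, e3, d⟩ := exec_search G S s2 ((x.length + 2) ^ 2 ^ c1) b0 (by rw [b6, a6])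
  refine ⟨s3, ?_, ?_⟩
  · have h := (exec_seqs_cons e1 (exec_seqs_cons e2 (exec_seqs_cons e3
      (exec_seqs_nil (join G S) s3))))
    apply run_of_exec
    refine Exec.mono h ?_
    unfold detTime
    omega
  · rw [d, b2]

/-- **Destruction half.** -/
theorem destroy_half {s : ℕ → ℕ}
    (hs : ∃ c : ℕ, ∀ n, c ≤ n → ∃ m, n ≤ m ∧ m ≤ n ^ c ∧ 2 ^ n < s m) (G : Oracle) :
    ∃ S : Oracle, Census s S ∧ SigmaP (join G S) 0 = SigmaP (join G S) 1 := by
  obtain ⟨g, hg⟩ := exists_enum
  obtain ⟨c, hc⟩ := hs
  refine ⟨orS g s G, orS_census g s G, ?_⟩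
  set S := orS g s G with hS
  apply Set.Subset.antisymm (sigmaP_mono _ 0)
  rintro L ⟨q, p, ⟨T, hT⟩, hL⟩
  obtain ⟨e, he⟩ := hg (p, q, T)
  obtain ⟨c0, hc0⟩ := poly_le_pow ((T.comp (Polynomial.X + q) + Polynomial.X + q + 2) ^ 2)
  obtain ⟨c1, hc1⟩ := poly_le_pow ((Polynomial.C (c + e + 3) + 2 * Polynomial.X +
    (Polynomial.X + 2) ^ 2 ^ c0) ^ c)
  have hge1 : (g e).1 = p := by rw [he]
  have hge2 : (g e).2.1 = q := by rw [he]
  have hge3 : (g e).2.2 = T := by rw [he]
  have hhalt : ∀ x u : List Bool, u.length = q.eval x.length →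
      (run (join G S) p [x, u] (T.eval (x.length + q.eval x.length))).1 = [] := by
    intro x u hu
    have := hT [x, u] rfl
    simpa [totalLength, hu] using this
  -- the code is answered correctly
  have hcode : ∀ x : List Bool, (x ∈ L ↔
      KProp g (join G S) (code e x ((x.length + 2) ^ 2 ^ c0))) := by
    intro x
    rw [hL x]
    simp only [Alt]
    constructor
    · rintro ⟨u, hu, hacc⟩
      refine ⟨e, x, _, rfl, ?_, u, ?_, ?_⟩
      · rw [hge2, hge3]
        have := hc0 x.length
        simpa [Polynomial.eval_comp] using this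
      · rw [hge2]; exact hu
      · rw [hge1, hge2, hge3]
        exact (accepts_iff_of_halted (hhalt x u hu)).1 hacc
    · rintro ⟨e', x', N', hcode, _, u, hu, hacc⟩
      obtain ⟨rfl, rfl, rfl⟩ := code_inj hcode
      rw [hge2] at hu
      rw [hge1, hge2, hge3] at hacc
      exact ⟨u, hu, _, hacc⟩
  -- the search finds the answer
  have hsearch : ∀ x : List Bool, (x ∈ L ↔ ∃ j < (x.length + 2) ^ 2 ^ c1,
      S (padw j (code e x ((x.length + 2) ^ 2 ^ c0))) = true) := by
    intro x
    rw [hcode x]
    constructor
    · intro hK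
      set v := code e x ((x.length + 2) ^ 2 ^ c0) with hv
      have hvl : v.length = e + 2 * x.length + (x.length + 2) ^ 2 ^ c0 + 2 := by
        rw [hv, code_length]
      obtain ⟨m, hm1, hm2, hm3⟩ := hc (c + v.length + 1) (by omega)
      have hm4 : m ≤ (x.length + 2) ^ 2 ^ c1 := by
        refine hm2.trans ?_
        have h1 := hc1 x.length
        simp only [Polynomial.eval_add, Polynomial.eval_mul, Polynomial.eval_pow,
          Polynomial.eval_C, Polynomial.eval_X, Polynomial.eval_ofNat] at h1
        refine le_trans (le_of_eq ?_) h1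
        congr 1
        rw [hvl]
        ring
      refine ⟨m - (v.length + 1), by omega, ?_⟩
      rw [hS, orS_pad]
      refine ⟨?_, hK⟩
      have h1 : m - (v.length + 1) + 1 + v.length = m := by omega
      rw [h1]
      calc 2 ^ (v.length + 1) ≤ 2 ^ (c + v.length + 1) :=
            Nat.pow_le_pow_right (by norm_num) (by omega)
        _ ≤ s m := hm3.le
    · rintro ⟨j, -, hj⟩
      rw [hS, orS_pad] at hj
      exact hj.2
  have hhalt2 : ∀ x : List Bool,
      (run (join G S) (detProg e c0 c1) [x] (detTime e c0 c1 x.length)).1 = [] := by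
    intro x
    obtain ⟨s', h1, _⟩ := exec_det G S e c0 c1 x
    rw [h1]
  refine ⟨0, detProg e c0 c1, ?_, ?_⟩
  · refine ⟨Polynomial.C c1 * (20 * ((Polynomial.X + 2) ^ 2 ^ c1 + 1) *
      ((Polynomial.X + 2) ^ 2 ^ c1 + 1) + 1) + 5 * (Polynomial.X + 2) ^ 2 ^ c1 +
      14 * Polynomial.X + 20 +
      (Polynomial.C c0 * (20 * ((Polynomial.X + 2) ^ 2 ^ c0 + 1) *
      ((Polynomial.X + 2) ^ 2 ^ c0 + 1) + 1) + 20 * Polynomial.X + Polynomial.C (2 * e + 30)) +
      13 * (Polynomial.X + 2) ^ 2 ^ c1 + 10, ?_⟩
    intro xs hxs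
    obtain ⟨x, rfl⟩ := List.length_eq_one_iff.1 hxs
    rw [run_of_halted (hhalt2 x)]
    · exact hhalt2 x
    · simp only [totalLength, List.map_cons, List.map_nil, List.sum_cons, List.sum_nil,
        Polynomial.eval_add, Polynomial.eval_mul, Polynomial.eval_X,
        Polynomial.eval_ofNat, Polynomial.eval_C, Polynomial.eval_pow, Polynomial.eval_one,
        add_zero, detTime, cntTime, codeTime]
      omega
  · intro x
    show x ∈ L ↔ Accepts (join G S) (detProg e c0 c1) [x]
    obtain ⟨s', h1, h2⟩ := exec_det G S e c0 c1 x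
    rw [accepts_iff_of_halted (hhalt2 x), hsearch x, ← h2]
    unfold AcceptsIn
    rw [h1]
    simp

end Pool.Agent.H8d
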