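import Mathlib
import Pool.Agent.H9.Clos
import Pool.Agent.H8.AUClass

/-!
Unambiguous alternation, and the closure oracle of the all-levels unambiguity theorem.
-/

set_option autoImplicit false

namespace Pool.Agent.H8u

open Classical
open Pool.Agent.H9

/-- an enumeration of (number of blocks minus one, program, two polynomials) -/
abbrev Enum := ℕ → ℕ × Prog × Polynomial ℕ × Polynomial ℕ

/-- descriptions `(e, x, N)`: machine, input, padding -/
abbrev Cd := ℕ × List Bool × ℕ

/-- number of blocks of the machine of a description -/
def tp (g : Enum) (c : Cd) : ℕ := (g c.1).1 + 1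

/-- length of the certificates -/
noncomputable def ql (g : Enum) (c : Cd) : ℕ := (g c.1).2.2.1.eval c.2.1.length

/-- running time -/
noncomputable def rt (g : Enum) (c : Cd) : ℕ :=
  (g c.1).2.2.2.eval (c.2.1.length + tp g c * ql g c)

/-- the padding suffices -/
def Live (g : Enum) (c : Cd) : Prop :=
  (rt g c + c.2.1.length + tp g c * ql g c + 2) ^ 2 ≤ c.2.2

/-- The slow universal predicate of all levels. -/
def KP (g : Enum) (A : Oracle) (c : Cd) : Prop :=
  Live g c ∧ Alt true (tp g c) (ql g c)
    (fun us => AcceptsIn A (g c.1).2.1 (c.2.1 :: us) (rt g c))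

/-- The word of a description and a list of blocks (last block first). -/
def wrd (c : Cd) (ys : List (List Bool)) : List Bool :=
  List.replicate ys.length true ++ false :: (ys.reverse.flatten ++ code c.1 c.2.1 c.2.2)

/-- the hidden block for a word -/
def hid (Y : List Bool → List Bool) (N : ℕ) (v : List Bool) : List Bool :=
  (Y v ++ List.replicate N false).take N

theorem hid_length (Y : List Bool → List Bool) (N : ℕ) (v : List Bool) :
    (hid Y N v).length = N := by
  simp [hid]

/-- The bit of a (virtual) word; `F` is the truth value of the description. -/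
def bitv (F : Bool) (Y : List Bool → List Bool) (c : Cd) : List (List Bool) → Bool
  | [] => !F
  | y :: ys => decide (y = hid Y c.2.2 (wrd c ys)) && !(bitv F Y c ys)

/-- The operator whose fixpoint is the oracle. -/
noncomputable def opU (g : Enum) (S : Oracle) (Y : List Bool → List Bool) : Oracle → Oracle
  | _, [] => false
  | _, false :: w => S w
  | A, true :: w => decide (∃ (c : Cd) (ys : List (List Bool)), w = wrd c ys ∧
      ys.length = tp g c ∧ (∀ y ∈ ys, y.length = c.2.2) ∧
      bitv (decide (KP g A c)) Y c ys = true)

/-- The oracle. -/
noncomputable def orU (g : Enum) (S : Oracle) (Y : List Bool → List Bool) : Oracle :=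
  fixO (opU g S Y)

/-! ### Unique decoding -/

theorem code_eq_pre (c : Cd) : code c.1 c.2.1 c.2.2 =
    (List.replicate c.1 true ++ false :: c.2.1.flatMap (fun b => [true, b])) ++
      false :: List.replicate c.2.2 true := by
  simp [code]

theorem wrd_inj {c c' : Cd} {ys ys' : List (List Bool)} (hy : ∀ y ∈ ys, y.length = c.2.2)
    (hy' : ∀ y ∈ ys', y.length = c'.2.2) (h : wrd c ys = wrd c' ys') : c = c' ∧ ys = ys' := by
  unfold wrd at h
  obtain ⟨h1, h2⟩ := replicate_append_false_inj h
  -- the padding
  have hN : c.2.2 = c'.2.2 := by
    have h3 := congrArg List.reverse h2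
    rw [code_eq_pre, code_eq_pre] at h3
    simp only [List.reverse_append, List.reverse_cons, List.reverse_replicate,
      List.append_assoc, List.singleton_append] at h3
    exact (replicate_append_false_inj h3).1
  have hlen : ys.reverse.flatten.length = ys'.reverse.flatten.length := by
    have hl : ∀ (l : List (List Bool)) (N : ℕ), (∀ y ∈ l, y.length = N) →
        l.flatten.length = l.length * N := by
      intro l N hl
      rw [List.length_flatten]
      induction l with
      | nil => simp
      | cons a l ih =>
        rw [List.map_cons, List.sum_cons, ih (fun y hy => hl y (List.mem_cons_of_mem _ hy)),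
          hl a List.mem_cons_self, List.length_cons]
        ring
    rw [hl _ c.2.2 (fun y h => hy y (List.mem_reverse.1 h)),
      hl _ c'.2.2 (fun y h => hy' y (List.mem_reverse.1 h)), List.length_reverse,
      List.length_reverse, h1, hN]
  obtain ⟨h4, h5⟩ := List.append_inj h2 hlen
  obtain ⟨h6, h7, h8⟩ := code_inj h5
  refine ⟨Prod.ext h6 (Prod.ext h7 h8), ?_⟩
  -- the blocks
  have key : ∀ (l l' : List (List Bool)) (N : ℕ), l.length = l'.length →
      (∀ y ∈ l, y.length = N) → (∀ y ∈ l', y.length = N) → l.flatten = l'.flatten → l = l' := by
    intro l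
    induction l with
    | nil =>
      intro l' N hl _ _ _
      exact (List.length_eq_zero_iff.1 hl.symm).symm
    | cons a l ih =>
      intro l' N hl h1 h2 h3
      cases l' with
      | nil => simp at hl
      | cons b l' =>
        rw [List.flatten_cons, List.flatten_cons] at h3
        obtain ⟨e1, e2⟩ := List.append_inj h3
          (by rw [h1 a List.mem_cons_self, h2 b List.mem_cons_self])
        rw [e1, ih l' N (by simpa using hl) (fun y hy => h1 y (List.mem_cons_of_mem _ hy))
          (fun y hy => h2 y (List.mem_cons_of_mem _ hy)) e2]
  have h9 := key ys.reverse ys'.reverse c.2.2 (by simpa using h1)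
    (fun y h => hy y (List.mem_reverse.1 h))
    (fun y h => by rw [hN]; exact hy' y (List.mem_reverse.1 h)) h4
  exact List.reverse_injective h9

/-! ### Locality -/

theorem totalLength_cons_of {x : List Bool} {us : List (List Bool)} {k m : ℕ}
    (h : us.map List.length = List.replicate k m) :
    totalLength (x :: us) = x.length + k * m := by
  unfold totalLength
  rw [List.map_cons, List.sum_cons, h, List.sum_replicate, smul_eq_mul]

theorem kp_local {g : Enum} {A A' : Oracle} {c : Cd}
    (h : ∀ v : List Bool, (v.length + 2) ^ 2 ≤ c.2.2 → A v = A' v) : KP g A c ↔ KP g A' c := by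
  unfold KP
  apply and_congr_right
  intro hL
  rw [Alt_eq, Alt_eq]
  apply AltL_congr
  intro us hus
  refine (dtp_acceptsIn (g c.1).2.1 (c.2.1 :: us) _
    (rt g c + c.2.1.length + tp g c * ql g c) ?_).depends ?_
  · rw [totalLength_cons_of hus]
    omega
  · intro v hv
    apply h
    have h1 : v.length + 2 ≤ rt g c + c.2.1.length + tp g c * ql g c + 2 := by
      have : v.length ≤ _ := hv
      omega
    exact (Nat.pow_le_pow_left h1 2).trans hL

theorem wrd_length (c : Cd) (ys : List (List Bool)) :
    (wrd c ys).length = ys.length + 1 + ys.reverse.flatten.length +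
      (c.1 + 2 * c.2.1.length + c.2.2 + 2) := by
  unfold wrd
  rw [List.length_append, List.length_replicate, List.length_cons, List.length_append,
    code_length]
  ring

theorem opU_contr (g : Enum) (S : Oracle) (Y : List Bool → List Bool) : Contr (opU g S Y) := by
  intro A A' w h
  match w with
  | [] => rfl
  | false :: w => rfl
  | true :: w =>
    simp only [opU]
    congr 1
    apply propext
    apply exists_congr; intro c
    apply exists_congr; intro ys
    apply and_congr_right; intro hw
    apply and_congr_right; intro _
    apply and_congr_right; intro _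
    have hK : KP g A c ↔ KP g A' c := by
      apply kp_local
      intro v hv
      apply h
      have h1 := wrd_length c ys
      rw [← hw] at h1
      rw [List.length_cons]
      nlinarith
    have : decide (KP g A c) = decide (KP g A' c) := by
      by_cases hA : KP g A c
      · have hA' := hK.1 hA
        simp [hA, hA']
      · have hA' : ¬ KP g A' c := fun h => hA (hK.2 h)
        simp [hA, hA']
    rw [this]

theorem orU_eq (g : Enum) (S : Oracle) (Y : List Bool → List Bool) :
    opU g S Y (orU g S Y) = orU g S Y := fixO_eq (opU_contr g S Y)

theorem orU_nil (g : Enum) (S : Oracle) (Y : List Bool → List Bool) :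
    orU g S Y [] = false := by
  rw [← orU_eq]; rfl

theorem orU_false (g : Enum) (S : Oracle) (Y : List Bool → List Bool) (w : List Bool) :
    orU g S Y (false :: w) = S w := by
  rw [← orU_eq]; rfl

theorem orU_true (g : Enum) (S : Oracle) (Y : List Bool → List Bool) (w : List Bool) :
    orU g S Y (true :: w) = true ↔ ∃ (c : Cd) (ys : List (List Bool)), w = wrd c ys ∧
      ys.length = tp g c ∧ (∀ y ∈ ys, y.length = c.2.2) ∧
      bitv (decide (KP g (orU g S Y) c)) Y c ys = true := by
  have h : opU g S Y (orU g S Y) (true :: w) = orU g S Y (true :: w) := by rw [orU_eq]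
  rw [← h]
  simp only [opU, decide_eq_true_eq]

theorem orU_wrd (g : Enum) (S : Oracle) (Y : List Bool → List Bool) (c : Cd)
    (ys : List (List Bool)) (h1 : ys.length = tp g c) (h2 : ∀ y ∈ ys, y.length = c.2.2) :
    orU g S Y (true :: wrd c ys) = bitv (decide (KP g (orU g S Y) c)) Y c ys := by
  rw [Bool.eq_iff_iff, orU_true]
  constructor
  · rintro ⟨c', ys', h3, h4, h5, h6⟩
    obtain ⟨rfl, rfl⟩ := wrd_inj h2 h5 h3
    exact h6
  · intro h
    exact ⟨c, ys, rfl, h1, h2, h⟩

/-- the bit of an extension by one block -/
theorem bitv_cons (F : Bool) (Y : List Bool → List Bool) (c : Cd) (y : List Bool)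
    (ys : List (List Bool)) :
    bitv F Y c (y :: ys) = true ↔ y = hid Y c.2.2 (wrd c ys) ∧ bitv F Y c ys = false := by
  simp [bitv]

/-- The alternation over the remaining blocks of the bits of the full words; `true` on the side of
the existential player means that the bit of the current word is false. -/
theorem alt_bitv (F : Bool) (Y : List Bool → List Bool) (c : Cd) :
    ∀ (d : ℕ) (ex : Bool) (ys : List (List Bool)),
      (Alt ex d c.2.2 (fun us => bitv F Y c (us.reverse ++ ys) = (ex ^^ !d.bodd)) ↔
        bitv F Y c ys = !ex) ∧
      Unamb ex d c.2.2 (fun us => bitv F Y c (us.reverse ++ ys) = (ex ^^ !d.bodd)) := by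
  intro d
  induction d with
  | zero =>
    intro ex ys
    refine ⟨?_, trivial⟩
    simp [Alt]
  | succ d ih =>
    intro ex ys
    have hpar : (ex ^^ !(d + 1).bodd) = (!ex ^^ !d.bodd) := by
      rw [Nat.bodd_succ]
      cases ex <;> cases d.bodd <;> rfl
    have hchild : ∀ y : List Bool,
        (Alt (!ex) d c.2.2 (fun us => bitv F Y c ((y :: us).reverse ++ ys) =
          (ex ^^ !(d + 1).bodd)) ↔ bitv F Y c (y :: ys) = ex) ∧
        Unamb (!ex) d c.2.2 (fun us => bitv F Y c ((y :: us).reverse ++ ys) =
          (ex ^^ !(d + 1).bodd)) := by
      intro y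
      have h := ih (!ex) (y :: ys)
      rw [hpar]
      have e : ∀ us : List (List Bool), (y :: us).reverse ++ ys = us.reverse ++ y :: ys := by
        intro us; simp
      simp only [e]
      rw [Bool.not_not] at h
      exact h
    refine ⟨?_, ?_, ?_⟩
    · cases ex with
      | true =>
        simp only [Alt]
        constructor
        · rintro ⟨u, hu, h⟩
          have h1 := ((hchild u).1).1 h
          rw [bitv_cons] at h1
          simpa using h1.2
        · intro h
          refine ⟨hid Y c.2.2 (wrd c ys), hid_length _ _ _, ((hchild _).1).2 ?_⟩
          rw [bitv_cons]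
          exact ⟨rfl, by simpa using h⟩
      | false =>
        simp only [Alt]
        constructor
        · intro h
          by_contra hcon
          have h1 : bitv F Y c ys = false := by simpa using hcon
          have h2 := ((hchild (hid Y c.2.2 (wrd c ys))).1).1 (h _ (hid_length _ _ _))
          have h3 : bitv F Y c (hid Y c.2.2 (wrd c ys) :: ys) = true := by
            rw [bitv_cons]
            exact ⟨rfl, h1⟩
          rw [h3] at h2
          exact absurd h2 (by simp)
        · intro h u hu
          refine ((hchild u).1).2 ?_
          by_contra hcon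
          have h1 : bitv F Y c (u :: ys) = true := by simpa using hcon
          rw [bitv_cons] at h1
          rw [h1.2] at h
          exact absurd h (by simp)
    · intro u v hu hv h1 h2
      rw [(hchild u).1] at h1
      rw [(hchild v).1] at h2
      have h3 : bitv F Y c (u :: ys) = true := by
        cases ex with
        | true => exact h1.2 rfl
        | false =>
          by_contra hcon
          exact absurd (h1.1 (by simpa using hcon)) (by simp)
      have h4 : bitv F Y c (v :: ys) = true := by
        cases ex with
        | true => exact h2.2 rfl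
        | false =>
          by_contra hcon
          exact absurd (h2.1 (by simpa using hcon)) (by simp)
      rw [bitv_cons] at h3 h4
      rw [h3.1, h4.1]
    · intro u _
      exact (hchild u).2

end Pool.Agent.H8u
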