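import Pool.Agent.H9.Classes

set_option autoImplicit false

/-!
The classes relative to `A` are contained in the classes relative to the join of `A` and `B`.
-/

namespace Pool.Agent.H8j

open Pool.Agent.H9

/-- replace every query by a query to the left part of a join -/
def tr : Prog → Prog
  | Prog.skip => Prog.skip
  | Prog.push j b => Prog.push j b
  | Prog.pop j => Prog.pop j
  | Prog.seq p q => Prog.seq (tr p) (tr q)
  | Prog.cond j p q r => Prog.cond j (tr p) (tr q) (tr r)
  | Prog.loop j p => Prog.loop j (tr p)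
  | Prog.ask j p q => Prog.seq (Prog.push j false)
      (Prog.ask j (Prog.seq (Prog.pop j) (tr p)) (Prog.seq (Prog.pop j) (tr q)))

/-- one step is simulated by one or five steps -/
theorem step_tr (A B : Oracle) (k : List Prog) (s : ℕ → List Bool) (hk : k ≠ []) :
    ∃ m, 1 ≤ m ∧ m ≤ 5 ∧ (step (join A B))^[m] (k.map tr, s) =
      ((step A (k, s)).1.map tr, (step A (k, s)).2) := by
  match k with
  | [] => exact absurd rfl hk
  | Prog.skip :: k => exact ⟨1, le_rfl, by norm_num, rfl⟩
  | Prog.push j b :: k => exact ⟨1, le_rfl, by norm_num, rfl⟩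
  | Prog.pop j :: k => exact ⟨1, le_rfl, by norm_num, rfl⟩
  | Prog.seq p q :: k => exact ⟨1, le_rfl, by norm_num, rfl⟩
  | Prog.cond j p q r :: k =>
    refine ⟨1, le_rfl, by norm_num, ?_⟩
    match hs : s j with
    | [] => simp [step, tr, hs]
    | false :: l => simp [step, tr, hs]
    | true :: l => simp [step, tr, hs]
  | Prog.loop j p :: k =>
    refine ⟨1, le_rfl, by norm_num, ?_⟩
    match hs : s j with
    | [] => simp [step, tr, hs]
    | b :: l => simp [step, tr, hs]
  | Prog.ask j p q :: k =>
    refine ⟨5, by norm_num, le_rfl, ?_⟩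
    have h0 : Function.update (Function.update s j (false :: s j)) j (s j) = s := by
      rw [Function.update_idem, Function.update_eq_self]
    by_cases hA : A (s j) = true
    · have hj : join A B (false :: s j) = true := hA
      simp [step, tr, hA, hj]
    · have hj : join A B (false :: s j) = false := by simpa [join] using hA
      simp [step, tr, hA, hj]

theorem iterate_tr (A B : Oracle) (n : ℕ) : ∀ c : Cfg, ∃ m, n ≤ m ∧ m ≤ 5 * n ∧
    (step (join A B))^[m] (c.1.map tr, c.2) =
      (((step A)^[n] c).1.map tr, ((step A)^[n] c).2) := by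
  induction n with
  | zero => intro c; exact ⟨0, le_rfl, le_rfl, rfl⟩
  | succ n ih =>
    rintro ⟨k, s⟩
    by_cases hk : k = []
    · subst hk
      refine ⟨n + 1, le_rfl, by omega, ?_⟩
      rw [iterate_halted]
      exact iterate_halted _ _ _
    · obtain ⟨m1, h1, h2, h3⟩ := step_tr A B k s hk
      obtain ⟨m2, h4, h5, h6⟩ := ih (step A (k, s))
      refine ⟨m2 + m1, by omega, by omega, ?_⟩
      rw [Function.iterate_add_apply]
      show (step (join A B))^[m2] ((step (join A B))^[m1] (k.map tr, s)) = _
      rw [h3, h6, Function.iterate_succ_apply]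

theorem run_tr (A B : Oracle) (p : Prog) (xs : List (List Bool)) (n : ℕ) :
    ∃ m, n ≤ m ∧ m ≤ 5 * n ∧ run (join A B) (tr p) xs m =
      ((run A p xs n).1.map tr, (run A p xs n).2) := by
  obtain ⟨m, h1, h2, h3⟩ := iterate_tr A B n (start p xs)
  exact ⟨m, h1, h2, h3⟩

theorem halts_tr (A B : Oracle) (p : Prog) (xs : List (List Bool)) (n : ℕ)
    (h : (run A p xs n).1 = []) : (run (join A B) (tr p) xs (5 * n)).1 = [] := by
  obtain ⟨m, h1, h2, h3⟩ := run_tr A B p xs n
  have h4 : (run (join A B) (tr p) xs m).1 = [] := by rw [h3, h]; rfl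
  rw [run_of_halted h4 h2]
  exact h4

theorem accepts_tr (A B : Oracle) (p : Prog) (xs : List (List Bool)) (n : ℕ)
    (h : (run A p xs n).1 = []) : Accepts (join A B) (tr p) xs ↔ Accepts A p xs := by
  obtain ⟨m, h1, h2, h3⟩ := run_tr A B p xs n
  have h4 : (run (join A B) (tr p) xs m).1 = [] := by rw [h3, h]; rfl
  rw [accepts_iff_of_halted h4, accepts_iff_of_halted h]
  unfold AcceptsIn
  rw [h3, h]
  simp

theorem sigmaP_join_left (A B : Oracle) (k : ℕ) : SigmaP A k ⊆ SigmaP (join A B) k := by
  rintro L ⟨q, p, ⟨T, hT⟩, hL⟩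
  refine ⟨q, tr p, ⟨5 * T, ?_⟩, ?_⟩
  · intro xs hxs
    have h := halts_tr A B p xs _ (hT xs hxs)
    have e : (5 * T).eval (totalLength xs) = 5 * T.eval (totalLength xs) := by
      simp
    rw [e]
    exact h
  · intro x
    rw [hL x, Alt_eq, Alt_eq]
    apply AltL_congr
    intro us hus
    have hlen : us.length = k := by
      have := congrArg List.length hus
      simpa using this
    exact (accepts_tr A B p (x :: us) _ (hT (x :: us) (by simp [hlen]))).symm

end Pool.Agent.H8j
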