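import Pool.Agent.H8.Pr
import Pool.Agent.H9.Hier

set_option autoImplicit false

/-!
# Alternating formulas with literals at all heights
-/

namespace Pool.Agent.H8h

open Finset
open Pool.Agent.H9 (DTP strings mem_strings card_strings)

/-- Formulas of height `h`: disjunctions over at most `S` indices of a conjunction of at most `w`
literals and the negation of a formula of height `h - 1`. A literal `(a, s)` may occur at height
`h` only if `ok h a s`. -/
inductive Cl {α : Type} (ok : ℕ → α → Bool → Prop) (w S : ℕ) : ℕ → ((α → Bool) → Prop) → Prop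
  | bot : Cl ok w S 0 (fun _ => False)
  | node {h : ℕ} {ι : Type} (D : Finset ι) (as : ι → Finset (α × Bool))
      (g : ι → (α → Bool) → Prop) (hD : D.card ≤ S)
      (has : ∀ i ∈ D, (as i).card ≤ w ∧ ∀ l ∈ as i, ok (h + 1) l.1 l.2)
      (hg : ∀ i ∈ D, Cl ok w S h (g i)) :
      Cl ok w S (h + 1) (fun ω => ∃ i ∈ D, (∀ l ∈ as i, ω l.1 = l.2) ∧ ¬ g i ω)

variable {α : Type}

theorem Cl.congr {ok : ℕ → α → Bool → Prop} {w S h : ℕ} {f f' : (α → Bool) → Prop}
    (hf : Cl ok w S h f) (hff : ∀ ω, f ω ↔ f' ω) : Cl ok w S h f' := by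
  have : f = f' := funext fun ω => propext (hff ω)
  exact this ▸ hf

theorem Cl.mono {ok ok' : ℕ → α → Bool → Prop} {w w' S S' : ℕ} (hok : ∀ h a s, ok h a s → ok' h a s)
    (hw : w ≤ w') (hS : S ≤ S') {h : ℕ} {f : (α → Bool) → Prop} (hf : Cl ok w S h f) :
    Cl ok' w' S' h f := by
  induction hf with
  | bot => exact Cl.bot
  | node D as g hD has _ ih =>
    exact Cl.node D as g (hD.trans hS) (fun i hi => ⟨(has i hi).1.trans hw,
      fun l hl => hok _ _ _ ((has i hi).2 l hl)⟩) ih

/-- A formula of height zero is false. -/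
theorem Cl.zero {ok : ℕ → α → Bool → Prop} {w S : ℕ} {f : (α → Bool) → Prop}
    (hf : Cl ok w S 0 f) : ∀ ω, ¬ f ω := by
  cases hf
  intro ω h
  exact h

/-- A formula depends only on the allowed atoms. -/
theorem Cl.depends {ok : ℕ → α → Bool → Prop} {w S h : ℕ} {f : (α → Bool) → Prop}
    (hf : Cl ok w S h f) : ∀ {ω ω' : α → Bool},
      (∀ h' a s, 1 ≤ h' → h' ≤ h → ok h' a s → ω a = ω' a) → (f ω ↔ f ω') := by
  induction hf with
  | bot => intro ω ω' _; exact Iff.rfl
  | @node h ι D as g hD has hg ih =>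
    intro ω ω' hag
    constructor
    · rintro ⟨i, hi, h1, h2⟩
      refine ⟨i, hi, ?_, ?_⟩
      · intro l hl
        rw [← hag (h + 1) l.1 l.2 (by omega) le_rfl ((has i hi).2 l hl)]
        exact h1 l hl
      · rwa [← ih i hi (fun h' a s e1 e2 e3 => hag h' a s e1 (by omega) e3)]
    · rintro ⟨i, hi, h1, h2⟩
      refine ⟨i, hi, ?_, ?_⟩
      · intro l hl
        rw [hag (h + 1) l.1 l.2 (by omega) le_rfl ((has i hi).2 l hl)]
        exact h1 l hl
      · rwa [ih i hi (fun h' a s e1 e2 e3 => hag h' a s e1 (by omega) e3)]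

/-- Constants. -/
theorem Cl.true {ok : ℕ → α → Bool → Prop} {w S h : ℕ} (hS : 1 ≤ S) :
    Cl ok w S (h + 1) (fun _ => True) := by
  induction h with
  | zero =>
    refine (Cl.node (ι := Unit) {()} (fun _ => ∅) (fun _ _ => False) (by simpa using hS)
      (by simp) (fun _ _ => Cl.bot)).congr ?_
    intro ω
    simp
  | succ h ih =>
    refine (Cl.node (ι := Unit) {()} (fun _ => ∅) (fun _ _ => False) (by simpa using hS)
      (by simp) (fun _ _ => ?_)).congr ?_
    · refine (Cl.node (ι := Unit) ∅ (fun _ => ∅) (fun _ _ => True) (by simp) (by simp)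
        (by simp)).congr ?_
      intro ω
      simp
    · intro ω
      simp

theorem Cl.false {ok : ℕ → α → Bool → Prop} {w S h : ℕ} :
    Cl ok w S h (fun _ => False) := by
  cases h with
  | zero => exact Cl.bot
  | succ h =>
    refine (Cl.node (ι := Unit) ∅ (fun _ => ∅) (fun _ _ => True) (by simp) (by simp)
        (by simp)).congr ?_
    intro ω
    simp

/-- Disjunction of two formulas. -/
theorem Cl.or {ok : ℕ → α → Bool → Prop} {w w' S S' h : ℕ} {f f' : (α → Bool) → Prop}
    (hf : Cl ok w S h f) (hf' : Cl ok w' S' h f') :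
    Cl ok (max w w') (S + S') h (fun ω => f ω ∨ f' ω) := by
  classical
  cases h with
  | zero =>
    refine Cl.bot.congr ?_
    intro ω
    have h1 := hf.zero ω
    have h2 := hf'.zero ω
    tauto
  | succ h =>
    cases hf with
    | @node _ ι D as g hD has hg =>
    cases hf' with
    | @node _ ι' D' as' g' hD' has' hg' =>
    refine (Cl.node (ι := ι ⊕ ι') (D.disjSum D') (Sum.elim as as') (Sum.elim g g') ?_ ?_ ?_).congr ?_
    · rw [Finset.card_disjSum]
      omega
    · intro i hi
      rcases Finset.mem_disjSum.1 hi with ⟨a, ha, rfl⟩ | ⟨a, ha, rfl⟩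
      · exact ⟨(has a ha).1.trans (le_max_left _ _), (has a ha).2⟩
      · exact ⟨(has' a ha).1.trans (le_max_right _ _), (has' a ha).2⟩
    · intro i hi
      rcases Finset.mem_disjSum.1 hi with ⟨a, ha, rfl⟩ | ⟨a, ha, rfl⟩
      · exact (hg a ha).mono (fun _ _ _ h => h) (le_max_left _ _) (by omega)
      · exact (hg' a ha).mono (fun _ _ _ h => h) (le_max_right _ _) (by omega)
    · intro ω
      constructor
      · rintro ⟨i, hi, h1, h2⟩
        rcases Finset.mem_disjSum.1 hi with ⟨a, ha, rfl⟩ | ⟨a, ha, rfl⟩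
        · exact Or.inl ⟨a, ha, h1, h2⟩
        · exact Or.inr ⟨a, ha, h1, h2⟩
      · rintro (⟨i, hi, h1, h2⟩ | ⟨i, hi, h1, h2⟩)
        · exact ⟨Sum.inl i, Finset.mem_disjSum.2 (Or.inl ⟨i, hi, rfl⟩), h1, h2⟩
        · exact ⟨Sum.inr i, Finset.mem_disjSum.2 (Or.inr ⟨i, hi, rfl⟩), h1, h2⟩

/-- Conjunction of two formulas. -/
theorem Cl.and {ok : ℕ → α → Bool → Prop} {w w' S S' h : ℕ} {f f' : (α → Bool) → Prop}
    (hf : Cl ok w S h f) (hf' : Cl ok w' S' h f') :
    Cl ok (w + w') (S * S' + S + S') h (fun ω => f ω ∧ f' ω) := by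
  classical
  cases h with
  | zero =>
    refine Cl.bot.congr ?_
    intro ω
    have h1 := hf.zero ω
    tauto
  | succ h =>
    cases hf with
    | @node _ ι D as g hD has hg =>
    cases hf' with
    | @node _ ι' D' as' g' hD' has' hg' =>
    refine (Cl.node (ι := ι × ι') (D ×ˢ D') (fun z => as z.1 ∪ as' z.2)
      (fun z ω => g z.1 ω ∨ g' z.2 ω) ?_ ?_ ?_).congr ?_
    · rw [Finset.card_product]
      have := Nat.mul_le_mul hD hD'
      omega
    · rintro ⟨i, i'⟩ hi
      rw [Finset.mem_product] at hi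
      refine ⟨(Finset.card_union_le _ _).trans
        (Nat.add_le_add (has i hi.1).1 (has' i' hi.2).1), ?_⟩
      intro l hl
      rcases Finset.mem_union.1 hl with hl | hl
      · exact (has i hi.1).2 l hl
      · exact (has' i' hi.2).2 l hl
    · rintro ⟨i, i'⟩ hi
      rw [Finset.mem_product] at hi
      exact ((hg i hi.1).or (hg' i' hi.2)).mono (fun _ _ _ h => h) (by omega) (by
        have : 0 ≤ S * S' := Nat.zero_le _
        omega)
    · intro ω
      constructor
      · rintro ⟨⟨i, i'⟩, hi, h1, h2⟩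
        rw [Finset.mem_product] at hi
        push Not at h2
        exact ⟨⟨i, hi.1, fun l hl => h1 l (Finset.mem_union_left _ hl), h2.1⟩,
          ⟨i', hi.2, fun l hl => h1 l (Finset.mem_union_right _ hl), h2.2⟩⟩
      · rintro ⟨⟨i, hi, h1, h2⟩, ⟨i', hi', h1', h2'⟩⟩
        refine ⟨(i, i'), Finset.mem_product.2 ⟨hi, hi'⟩, ?_, ?_⟩
        · intro l hl
          rcases Finset.mem_union.1 hl with hl | hl
          · exact h1 l hl
          · exact h1' l hl
        · push Not
          exact ⟨h2, h2'⟩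

/-- Negation of a formula of smaller height. -/
theorem Cl.not {ok : ℕ → α → Bool → Prop} {w S h : ℕ} {f : (α → Bool) → Prop}
    (hf : Cl ok w S h f) (hS : 1 ≤ S) : Cl ok w S (h + 1) (fun ω => ¬ f ω) := by
  refine (Cl.node (ι := Unit) {()} (fun _ => ∅) (fun _ => f) (by simpa using hS)
    (by simp) (fun _ _ => hf)).congr ?_
  intro ω
  simp

/-- Finite conjunctions. -/
theorem Cl.all {ok : ℕ → α → Bool → Prop} {w S h : ℕ} {β : Type} (X : Finset β)
    (f : β → (α → Bool) → Prop) (hS : 1 ≤ S) (hf : ∀ b ∈ X, Cl ok w S (h + 1) (f b)) :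
    Cl ok (w * X.card) ((4 * S) ^ (X.card + 1)) (h + 1) (fun ω => ∀ b ∈ X, f b ω) := by
  classical
  induction X using Finset.induction_on with
  | empty =>
    refine (Cl.true ?_).congr (fun ω => by simp)
    exact Nat.one_le_pow _ _ (by omega)
  | insert a X ha ih =>
    have h1 := hf a (Finset.mem_insert_self _ _)
    have h2 := ih (fun b hb => hf b (Finset.mem_insert_of_mem hb))
    have h3 := h1.and h2
    refine (h3.mono (fun _ _ _ h => h) ?_ ?_).congr ?_
    · rw [Finset.card_insert_of_notMem ha, Nat.mul_add, Nat.mul_one, Nat.add_comm]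
    · rw [Finset.card_insert_of_notMem ha, pow_succ (4 * S) (X.card + 1)]
      have h4 : 1 ≤ (4 * S) ^ (X.card + 1) := Nat.one_le_pow _ _ (by omega)
      generalize (4 * S) ^ (X.card + 1) = M at h4
      nlinarith [Nat.mul_le_mul hS h4]
    · intro ω
      simp

/-- Finite disjunctions. -/
theorem Cl.any {ok : ℕ → α → Bool → Prop} {w S h : ℕ} {β : Type} (X : Finset β)
    (f : β → (α → Bool) → Prop) (hf : ∀ b ∈ X, Cl ok w S h (f b)) :
    Cl ok w (S * (X.card + 1)) h (fun ω => ∃ b ∈ X, f b ω) := by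
  classical
  induction X using Finset.induction_on with
  | empty => exact Cl.false.congr (fun ω => by simp)
  | insert a X ha ih =>
    have h1 := hf a (Finset.mem_insert_self _ _)
    have h2 := ih (fun b hb => hf b (Finset.mem_insert_of_mem hb))
    refine ((h1.or h2).mono (fun _ _ _ h => h) (by simp) ?_).congr ?_
    · rw [Finset.card_insert_of_notMem ha]
      ring_nf
      omega
    · intro ω
      simp

/-- Growth of the branching under substitution. -/
def gS (w S S0 : ℕ) : ℕ → ℕ
  | 0 => 1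
  | h + 1 => S * 0 + (S + 1) * ((4 * (S0 + gS w S S0 h)) ^ (w + 2))

/-- Growth of the width under substitution. -/
def gw (w w0 : ℕ) : ℕ → ℕ
  | 0 => 0
  | h + 1 => (w0 + gw w w0 h) * (w + 1)

theorem gS_pos (w S S0 h : ℕ) (hS0 : 1 ≤ S0) : 1 ≤ gS w S S0 h := by
  cases h with
  | zero => exact le_rfl
  | succ h =>
    unfold gS
    have : 1 ≤ (4 * (S0 + gS w S S0 h)) ^ (w + 2) := Nat.one_le_pow _ _ (by omega)
    nlinarith

/-- **Substitution.** On a set of worlds, all the allowed literals of the old class are formulas of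
the new class of the same height. -/
theorem Cl.subst {α' : Type} {W : Type} (old : W → α → Bool) (new : W → α' → Bool)
    {ok : ℕ → α → Bool → Prop} {ok' : ℕ → α' → Bool → Prop} {w S w0 S0 : ℕ} (hS0 : 1 ≤ S0)
    (hlit : ∀ h a s, 1 ≤ h → ok h a s → ∃ φ : (α' → Bool) → Prop, Cl ok' w0 S0 h φ ∧
      ∀ z : W, old z a = s ↔ φ (new z)) {h : ℕ} {f : (α → Bool) → Prop} (hf : Cl ok w S h f) :
    ∃ f' : (α' → Bool) → Prop, Cl ok' (gw w w0 h) (gS w S S0 h) h f' ∧
      ∀ z : W, f (old z) ↔ f' (new z) := by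
  classical
  induction hf with
  | bot => exact ⟨_, Cl.bot, fun _ => Iff.rfl⟩
  | @node h ι D as g hD has _ ih =>
    choose! g' hg1 hg2 using ih
    have hlit' : ∀ l : α × Bool, ok (h + 1) l.1 l.2 → ∃ φ : (α' → Bool) → Prop,
        Cl ok' w0 S0 (h + 1) φ ∧ ∀ z : W, old z l.1 = l.2 ↔ φ (new z) :=
      fun l hl => hlit (h + 1) l.1 l.2 (by omega) hl
    choose! φ hφ1 hφ2 using hlit'
    set S1 := S0 + gS w S S0 h with hS1
    have hterm : ∀ i ∈ D, Cl ok' (gw w w0 (h + 1)) ((4 * S1) ^ (w + 2)) (h + 1)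
        (fun ω => (∀ l ∈ as i, φ l ω) ∧ ¬ g' i ω) := by
      intro i hi
      have h1 : Cl ok' (w0 * (as i).card) ((4 * S0) ^ ((as i).card + 1)) (h + 1)
          (fun ω => ∀ l ∈ as i, φ l ω) :=
        Cl.all (as i) φ hS0 (fun l hl => hφ1 l ((has i hi).2 l hl))
      have h2 : Cl ok' (gw w w0 h) (gS w S S0 h) (h + 1) (fun ω => ¬ g' i ω) :=
        (hg1 i hi).not (gS_pos _ _ _ _ hS0)
      refine (h1.and h2).mono (fun _ _ _ h => h) ?_ ?_
      · have := (has i hi).1
        calc w0 * (as i).card + gw w w0 h ≤ w0 * w + gw w w0 h :=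
              Nat.add_le_add_right (Nat.mul_le_mul_left _ this) _
          _ ≤ (w0 + gw w w0 h) * (w + 1) := by nlinarith [Nat.zero_le (w0 * 1), Nat.zero_le (gw w w0 h * w)]
      · have h3 : (4 * S0) ^ ((as i).card + 1) ≤ (4 * S1) ^ (w + 1) := by
          calc (4 * S0) ^ ((as i).card + 1) ≤ (4 * S1) ^ ((as i).card + 1) :=
                Nat.pow_le_pow_left (by omega) _
            _ ≤ (4 * S1) ^ (w + 1) := Nat.pow_le_pow_right (by omega) (by
                have := (has i hi).1
                omega)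
        have h4 : gS w S S0 h ≤ S1 := by omega
        have h5 : 1 ≤ (4 * S1) ^ (w + 1) := Nat.one_le_pow _ _ (by omega)
        generalize (4 * S0) ^ ((as i).card + 1) = a at h3
        generalize gS w S S0 h = b at h4
        have h6 : 1 ≤ S1 := by omega
        rw [pow_succ (4 * S1) (w + 1)]
        generalize (4 * S1) ^ (w + 1) = M at h3 h5
        calc a * b + a + b ≤ M * S1 + M + S1 := by
              have := Nat.mul_le_mul h3 h4
              omega
          _ ≤ M * (4 * S1) := by nlinarith [Nat.mul_le_mul h5 h6]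
    refine ⟨fun ω => ∃ i ∈ D, (∀ l ∈ as i, φ l ω) ∧ ¬ g' i ω, ?_, ?_⟩
    · refine (Cl.any D _ hterm).mono (fun _ _ _ h => h) le_rfl ?_
      show (4 * S1) ^ (w + 2) * (D.card + 1) ≤ S * 0 + (S + 1) * ((4 * S1) ^ (w + 2))
      have : D.card + 1 ≤ S + 1 := by omega
      calc (4 * S1) ^ (w + 2) * (D.card + 1) ≤ (4 * S1) ^ (w + 2) * (S + 1) :=
            Nat.mul_le_mul_left _ this
        _ = _ := by ring
    · intro z
      apply exists_congr
      intro i
      apply and_congr_right
      intro hi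
      rw [hg2 i hi z]
      apply and_congr_left
      intro _
      apply forall_congr'
      intro l
      apply forall_congr'
      intro hl
      exact hφ2 l ((has i hi).2 l hl) z

end Pool.Agent.H8h
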