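import Mathlib
import Pool.Agent.H8.UDef

/-!
The closure oracle with prescribed depths of the trees of hidden blocks, for machines with
polynomially many blocks.
-/

set_option autoImplicit false

namespace Pool.Agent.H8v

open Classical
open Pool.Agent.H9
open Pool.Agent.H8u (Cd wrd hid hid_length bitv wrd_inj wrd_length bitv_cons totalLength_cons_of)

theorem enc_nil : enc [] = [] := rfl

theorem enc_cons (u : List Bool) (us : List (List Bool)) :
    enc (u :: us) = u.flatMap (fun b => [true, b]) ++ false :: enc us := by
  simp [enc]

theorem enc_length_of {us : List (List Bool)} {k m : ℕ}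
    (h : us.map List.length = List.replicate k m) : (enc us).length = k * (2 * m + 1) := by
  induction us generalizing k with
  | nil =>
    cases k with
    | zero => simp [enc]
    | succ k => simp [List.replicate_succ] at h
  | cons u us ih =>
    cases k with
    | zero => simp at h
    | succ k =>
      simp only [List.map_cons, List.replicate_succ, List.cons.injEq] at h
      rw [enc_cons, List.length_append, List.length_cons, ih h.2]
      have : (u.flatMap (fun b => [true, b])).length = 2 * u.length := by
        simp [List.length_flatMap, mul_comm]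
      rw [this, h.1]
      ring

/-- The inputs of a machine: the blocks on separate stacks, or all of them on one stack. -/
def inp (fl : Bool) (x : List Bool) (us : List (List Bool)) : List (List Bool) :=
  match fl with
  | false => x :: us
  | true => [x, enc us]

theorem totalLength_inp_le {fl : Bool} {x : List Bool} {us : List (List Bool)} {k m : ℕ}
    (h : us.map List.length = List.replicate k m) :
    totalLength (inp fl x us) ≤ x.length + k * (2 * m + 1) := by
  cases fl with
  | false =>
    show totalLength (x :: us) ≤ _
    rw [totalLength_cons_of h]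
    have : k * m ≤ k * (2 * m + 1) := Nat.mul_le_mul_left k (by omega)
    omega
  | true =>
    show totalLength [x, enc us] ≤ _
    simp [totalLength, enc_length_of h]

/-- an enumeration of (form of the inputs, number of blocks of the machine, depth of the tree of
hidden blocks, program, two polynomials) -/
abbrev Enum := ℕ → Bool × Polynomial ℕ × Polynomial ℕ × Prog × Polynomial ℕ × Polynomial ℕ

/-- number of blocks of the machine of a description -/
noncomputable def tp (g : Enum) (c : Cd) : ℕ := (g c.1).2.1.eval c.2.1.length

/-- depth of the tree of hidden blocks -/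
noncomputable def dp (g : Enum) (c : Cd) : ℕ := (g c.1).2.2.1.eval c.2.1.length

/-- the program -/
def pg (g : Enum) (c : Cd) : Prog := (g c.1).2.2.2.1

/-- length of the certificates -/
noncomputable def ql (g : Enum) (c : Cd) : ℕ := (g c.1).2.2.2.2.1.eval c.2.1.length

/-- bound for the total length of the inputs -/
noncomputable def il (g : Enum) (c : Cd) : ℕ := c.2.1.length + tp g c * (2 * ql g c + 1)

/-- running time -/
noncomputable def rt (g : Enum) (c : Cd) : ℕ := (g c.1).2.2.2.2.2.eval (il g c)

/-- the padding suffices -/
def Live (g : Enum) (c : Cd) : Prop := (rt g c + il g c + 2) ^ 2 ≤ c.2.2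

/-- The slow universal predicate of all levels. -/
def KP (g : Enum) (A : Oracle) (c : Cd) : Prop :=
  Live g c ∧ Alt true (tp g c) (ql g c)
    (fun us => AcceptsIn A (pg g c) (inp (g c.1).1 c.2.1 us) (rt g c))

/-- The operator whose fixpoint is the oracle. -/
noncomputable def opU (g : Enum) (S : Oracle) (Y : List Bool → List Bool) : Oracle → Oracle
  | _, [] => false
  | _, false :: w => S w
  | A, true :: w => decide (∃ (c : Cd) (ys : List (List Bool)), w = wrd c ys ∧
      ys.length = dp g c ∧ (∀ y ∈ ys, y.length = c.2.2) ∧
      bitv (decide (KP g A c)) Y c ys = true)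

/-- The oracle. -/
noncomputable def orU (g : Enum) (S : Oracle) (Y : List Bool → List Bool) : Oracle :=
  fixO (opU g S Y)

/-! ### Locality -/

theorem dtp_inp (g : Enum) (c : Cd) {us : List (List Bool)}
    (hus : us.map List.length = List.replicate (tp g c) (ql g c)) :
    DTP {w : List Bool | w.length ≤ rt g c + il g c} (rt g c)
      (fun A => AcceptsIn A (pg g c) (inp (g c.1).1 c.2.1 us) (rt g c)) := by
  apply dtp_acceptsIn
  have := totalLength_inp_le (fl := (g c.1).1) (x := c.2.1) hus
  unfold il
  omega

theorem kp_local {g : Enum} {A A' : Oracle} {c : Cd}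
    (h : ∀ v : List Bool, (v.length + 2) ^ 2 ≤ c.2.2 → A v = A' v) : KP g A c ↔ KP g A' c := by
  unfold KP
  apply and_congr_right
  intro hL
  rw [Alt_eq, Alt_eq]
  apply AltL_congr
  intro us hus
  refine (dtp_inp g c hus).depends ?_
  intro v hv
  apply h
  have h1 : v.length + 2 ≤ rt g c + il g c + 2 := by
    have : v.length ≤ _ := hv
    omega
  exact (Nat.pow_le_pow_left h1 2).trans hL

theorem opU_contr (g : Enum) (S : Oracle) (Y : List Bool → List Bool) : Contr (opU g S Y) := by
  intro A A' w h
  match w with
  | [] => rfl
  | false :: w => rfl
  | true :: w =>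
    simp only [opU]
    congr 1
    apply propext
    apply exists_congr; intro c
    apply exists_congr; intro ys
    apply and_congr_right; intro hw
    apply and_congr_right; intro _
    apply and_congr_right; intro _
    have hK : KP g A c ↔ KP g A' c := by
      apply kp_local
      intro v hv
      apply h
      have h1 := wrd_length c ys
      rw [← hw] at h1
      rw [List.length_cons]
      nlinarith
    have : decide (KP g A c) = decide (KP g A' c) := by
      by_cases hA : KP g A c
      · have hA' := hK.1 hA
        simp [hA, hA']
      · have hA' : ¬ KP g A' c := fun h => hA (hK.2 h)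
        simp [hA, hA']
    rw [this]

theorem orU_eq (g : Enum) (S : Oracle) (Y : List Bool → List Bool) :
    opU g S Y (orU g S Y) = orU g S Y := fixO_eq (opU_contr g S Y)

theorem orU_nil (g : Enum) (S : Oracle) (Y : List Bool → List Bool) :
    orU g S Y [] = false := by
  rw [← orU_eq]; rfl

theorem orU_false (g : Enum) (S : Oracle) (Y : List Bool → List Bool) (w : List Bool) :
    orU g S Y (false :: w) = S w := by
  rw [← orU_eq]; rfl

theorem orU_true (g : Enum) (S : Oracle) (Y : List Bool → List Bool) (w : List Bool) :
    orU g S Y (true :: w) = true ↔ ∃ (c : Cd) (ys : List (List Bool)), w = wrd c ys ∧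
      ys.length = dp g c ∧ (∀ y ∈ ys, y.length = c.2.2) ∧
      bitv (decide (KP g (orU g S Y) c)) Y c ys = true := by
  have h : opU g S Y (orU g S Y) (true :: w) = orU g S Y (true :: w) := by rw [orU_eq]
  rw [← h]
  simp only [opU, decide_eq_true_eq]

theorem orU_wrd (g : Enum) (S : Oracle) (Y : List Bool → List Bool) (c : Cd)
    (ys : List (List Bool)) (h1 : ys.length = dp g c) (h2 : ∀ y ∈ ys, y.length = c.2.2) :
    orU g S Y (true :: wrd c ys) = bitv (decide (KP g (orU g S Y) c)) Y c ys := by
  rw [Bool.eq_iff_iff, orU_true]
  constructor
  · rintro ⟨c', ys', h3, h4, h5, h6⟩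
    obtain ⟨rfl, rfl⟩ := wrd_inj h2 h5 h3
    exact h6
  · intro h
    exact ⟨c, ys, rfl, h1, h2, h⟩

end Pool.Agent.H8v
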