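import Pool.Agent.H8.VTree
import Pool.Agent.H7.HierAvg3
import Pool.Agent.H7.Diag
import Pool.Agent.H9.Layers

set_option autoImplicit false
set_option linter.unusedSectionVars false

/-!
# The diagonalisation step (prescribed depths)
-/

namespace Pool.Agent.H8v

open Finset Classical
open Pool.Agent.H9 (Oracle Prog DTP AcceptsIn totalLength words mem_words card_words data
  data_apply data_dtp paths mem_paths poly_le_pow exists_large join AltL Alt_eq AltL_congr
  strings mem_strings)
open Pool.Agent.H8u (Cd wrd hid hid_length bitv wrd_inj wrd_length bitv_cons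
  totalLength_cons_of)
open Pool.Agent.H8h (pr pr_eq pr_mono pr_or pr_congr pr_false pr_piecewise Cl EL thr alt_cl
  alt9_not)
open Pool.Agent.H8 (Str)
open Pool.Agent.H7 (Lev lev_of_cl hier_lev_same hword hword_length)

/-- the first component of the side oracle with the table `a` -/
noncomputable def GX (G0 : List Bool → Bool) (k N : ℕ) (a : List (List Bool) → Bool) : Oracle :=
  fun w => if w.length = (k + 2) * N then
    data (List.replicate (k + 2) N) (fun v => a v.tail) w else G0 w

theorem GX_dtp (G0 : List Bool → Bool) (k N : ℕ) (w : List Bool) :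
    DTP Set.univ 1 (fun a => GX G0 k N a w = true) := by
  by_cases hw : w.length = (k + 2) * N
  · have h1 := (data_dtp (List.replicate (k + 2) N) w).comp (R := Set.univ) (m := 1)
      (fun (a : List (List Bool) → Bool) v => a v.tail)
      (fun v _ => DTP.var v.tail (Set.mem_univ _))
    rw [mul_one] at h1
    exact h1.congr (fun a => by simp only [GX, if_pos hw])
  · exact (DTP.const 1 (G0 w = true)).congr (fun a => by simp only [GX, if_neg hw])

theorem GX_apply (G0 : List Bool → Bool) (k N : ℕ) (a : List (List Bool) → Bool)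
    {x : List Bool} (hx : x.length = N) {us : List (List Bool)}
    (hus : us.map List.length = List.replicate (k + 1) N) :
    GX G0 k N a (hword x us) = a us := by
  have hlen : (hword x us).length = (k + 2) * N := by
    rw [hword_length hus, hx]
    ring
  unfold GX
  rw [if_pos hlen]
  have hpath : (x :: us) ∈ paths (List.replicate (k + 2) N) := by
    rw [mem_paths, List.map_cons, hus, hx, List.replicate_succ (n := k + 1)]
  have h1 := data_apply (fun v => a v.tail) hpath
  have h2 : hword x us = (x :: us).flatten.reverse := by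
    unfold hword
    simp
  rw [h2, h1]
  rfl

/-- atoms of the last class are resolved by one query -/
theorem atom_dtp (g : Enum) (B : Oracle) (G0 : List Bool → Bool) {k N : ℕ}
    (Yx : List Bool → List Bool) {v : List Bool} (hv : Low g (N ^ 2) v) :
    DTP Set.univ 1 (fun a => wld g (join B (GX G0 k N a)) Yx (Sum.inl v) = true) := by
  match v with
  | [] =>
    refine (DTP.const 1 False).congr (fun a => ?_)
    show False ↔ orU g _ Yx [] = true
    rw [orU_nil]
    simp
  | [false] =>
    refine (DTP.const 1 False).congr (fun a => ?_)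
    show False ↔ orU g _ Yx [false] = true
    rw [orU_false]
    simp [join]
  | false :: false :: w =>
    refine (DTP.const 1 (B w = true)).congr (fun a => ?_)
    show B w = true ↔ orU g _ Yx (false :: false :: w) = true
    rw [orU_false]
    rfl
  | false :: true :: w =>
    refine (GX_dtp G0 k N w).congr (fun a => ?_)
    show GX G0 k N a w = true ↔ orU g _ Yx (false :: true :: w) = true
    rw [orU_false]
    rfl
  | true :: w =>
    refine (DTP.const 1 (orU g (join B (GX G0 k N (fun _ => false))) Yx (true :: w) = true)).congr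
      (fun a => ?_)
    show _ ↔ orU g _ Yx (true :: w) = true
    rw [low_const (R := N) (S := join B (GX G0 k N (fun _ => false)))
      (S' := join B (GX G0 k N a)) (fun v hv => ?_) hv]
    match v with
    | [] => rfl
    | false :: v => rfl
    | true :: v =>
      show GX G0 k N (fun _ => false) v = GX G0 k N a v
      unfold GX
      have : v.length ≠ (k + 2) * N := by
        rw [List.length_cons] at hv
        nlinarith
      rw [if_neg this, if_neg this]

/-- The machine errs relative to the oracle of the condition `D`. -/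
def Errs (g : Enum) (B : Oracle) (k : ℕ) (p : Prog) (q T : Polynomial ℕ)
    (D : List Bool → Bool × List Bool) (n : ℕ) : Prop :=
  ¬ (Pool.Agent.H9.Alt true (k + 1) n
      (fun us => orU g (join B (fun w => (D w).1)) (fun w => (D w).2)
        (false :: true :: hword (List.replicate n true) us) = true) ↔
    Pool.Agent.H9.Alt true k (q.eval n)
      (fun ws => AcceptsIn (orU g (join B (fun w => (D w).1)) (fun w => (D w).2)) p
        (List.replicate n true :: ws) (T.eval (n + k * q.eval n))))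

/-- The last part of the step. -/
theorem finish (g : Enum) (B : Oracle) (k : ℕ) (p : Prog) (q T : Polynomial ℕ)
    (D : List Bool → Bool × List Bool) {n₀ μ Λ lam qq TT N : ℕ} (hN : N = 4 * μ)
    (hn0 : n₀ ≤ μ) (hμ1 : 1 ≤ μ) (F : (At → Bool) → Prop)
    (hF : ∀ (S : Oracle) (Y : List Bool → List Bool), F (wld g S Y) ↔
      Pool.Agent.H9.Alt true k (q.eval N) (fun ws => AcceptsIn (orU g S Y) p
        (List.replicate N true :: ws) (T.eval (N + k * q.eval N))))
    (f' : (Bk N Λ → Str lam) → (At → Bool) → Prop)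
    (herr : ∀ a, pr (fun Y : Bk N Λ → Str lam =>
      ¬ (F (wld g (join B (GX (fun w => (D w).1) k N a)) (extY (fun w => (D w).2) Y)) ↔
        f' Y (wld g (join B (GX (fun w => (D w).1) k N a)) (extY (fun w => (D w).2) Y)))) < 1 / 4)
    (hlev : ∀ Y : Bk N Λ → Str lam, Lev Set.univ qq TT true k
      (fun a => f' Y (wld g (join B (GX (fun w => (D w).1) k N a)) (extY (fun w => (D w).2) Y))))
    (hnum1 : (k + 1) * N + 3 ≤ 2 ^ μ) (hnum2 : qq ≤ TT) (hnum3 : 1 ≤ qq)
    (hnum4 : TT * 2 ^ (2 * k + 8) ≤ 2 ^ μ) :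
    ∃ (D' : List Bool → Bool × List Bool) (n : ℕ),
      (∀ w : List Bool, w.length < n₀ → D' w = D w) ∧ Errs g B k p q T D' n := by
  have hN1 : 1 ≤ N := by omega
  set G0 : List Bool → Bool := fun w => (D w).1 with hG0
  set Y0 : List Bool → List Bool := fun w => (D w).2 with hY0
  obtain ⟨a, ha⟩ := hier_lev_same (q := qq) (T := TT) (μ := μ) (B := (k + 1) * N) k
    hnum1 hnum2 hnum3 hnum4 true (List.replicate (k + 1) N) (by simp) (by
      intro y hy
      rw [List.eq_of_mem_replicate hy, hN]) (by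
      rw [List.sum_replicate, smul_eq_mul])
    (Ω := Bk N Λ → Str lam)
    (fun Y a => f' Y (wld g (join B (GX G0 k N a)) (extY Y0 Y))) hlev
  obtain ⟨Y, hY1, hY2⟩ : ∃ Y : Bk N Λ → Str lam,
      (F (wld g (join B (GX G0 k N a)) (extY Y0 Y)) ↔
        f' Y (wld g (join B (GX G0 k N a)) (extY Y0 Y))) ∧
      ¬ (AltL true (List.replicate (k + 1) N) (fun us => a us = true) ↔
        f' Y (wld g (join B (GX G0 k N a)) (extY Y0 Y))) := by
    by_contra hcon
    push Not at hcon
    have h1 := herr a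
    have h2 := pr_mono (Ω := Bk N Λ → Str lam)
      (P := fun Y => ¬ (AltL true (List.replicate (k + 1) N) (fun us => a us = true) ↔
        f' Y (wld g (join B (GX G0 k N a)) (extY Y0 Y))))
      (Q := fun Y => ¬ (F (wld g (join B (GX G0 k N a)) (extY Y0 Y)) ↔
        f' Y (wld g (join B (GX G0 k N a)) (extY Y0 Y)))) (by
        intro Y hY hiff
        exact hY (hcon Y hiff))
    linarith
  refine ⟨fun w => (GX G0 k N a w, extY Y0 Y w), N, ?_, ?_⟩
  · intro w hw
    have h1 : w.length ≠ (k + 2) * N := by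
      have : N ≤ (k + 2) * N := Nat.le_mul_of_pos_left _ (by omega)
      omega
    have h2 : ¬ (N < w.length ∧ w.length ≤ Λ) := by omega
    refine Prod.ext ?_ ?_
    · show GX G0 k N a w = (D w).1
      unfold GX
      rw [if_neg h1]
    · show extY Y0 Y w = (D w).2
      unfold extY
      rw [dif_neg h2]
  · unfold Errs
    simp only
    have hF' := hF (join B (GX G0 k N a)) (extY Y0 Y)
    have e1 : Pool.Agent.H9.Alt true (k + 1) N (fun us =>
        orU g (join B (GX G0 k N a)) (extY Y0 Y)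
          (false :: true :: hword (List.replicate N true) us) = true) ↔
        AltL true (List.replicate (k + 1) N) (fun us => a us = true) := by
      rw [Alt_eq]
      apply AltL_congr
      intro us hus
      rw [orU_false]
      show GX G0 k N a (hword (List.replicate N true) us) = true ↔ _
      rw [GX_apply G0 k N a List.length_replicate hus]
    intro hiff
    apply hY2
    rw [← hY1, hF']
    exact e1.symm.trans hiff

/-- decision trees for the machine -/
theorem machine_dtp {k N qN t Λ : ℕ} {p : Prog} (hΛ : N + k * qN + t ≤ Λ)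
    {ws : List (List Bool)} (hws : ws.map List.length = List.replicate k qN) :
    DTP {a : At | ∃ v : List Bool, a = Sum.inl v ∧ v.length ≤ Λ} t
      (fun ω : At → Bool => AcceptsIn (fun v => ω (Sum.inl v)) p
        (List.replicate N true :: ws) t) := by
  have h1 := (Pool.Agent.H9.dtp_acceptsIn p (List.replicate N true :: ws) t Λ (by
      rw [totalLength_cons_of hws, List.length_replicate]
      exact hΛ)).comp (m := 1)
    (R := {a : At | ∃ v : List Bool, a = Sum.inl v ∧ v.length ≤ Λ})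
    (fun (ω : At → Bool) v => ω (Sum.inl v)) (by
      intro v hv
      exact DTP.var _ ⟨v, rfl, hv⟩)
  rw [mul_one] at h1
  exact h1

/-- **The diagonalisation step against deterministic machines.** -/
theorem step_zero (g : Enum) (hd : ∀ c, 1 ≤ dp g c) (B : Oracle) (p : Prog)
    (q T : Polynomial ℕ) (D : List Bool → Bool × List Bool) (n₀ : ℕ) :
    ∃ (D' : List Bool → Bool × List Bool) (n : ℕ),
      (∀ w : List Bool, w.length < n₀ → D' w = D w) ∧ Errs g B 0 p q T D' n := by
  set Λp : Polynomial ℕ := Polynomial.C 4 * Polynomial.X +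
    T.comp (Polynomial.C 4 * Polynomial.X) with hΛp
  set big : Polynomial ℕ := Polynomial.C (2 ^ 8) * (Λp + 1) + Polynomial.C 4 * Polynomial.X +
    Polynomial.C 3 with hbig
  obtain ⟨μ, hμ1, hμ2⟩ := exists_large big (n₀ + 1)
  obtain ⟨N, hN⟩ : ∃ N, N = 4 * μ := ⟨_, rfl⟩
  obtain ⟨t, ht⟩ : ∃ t, t = T.eval N := ⟨_, rfl⟩
  obtain ⟨Λ, hΛ⟩ : ∃ Λ, Λ = N + t := ⟨_, rfl⟩
  have hΛe : Λp.eval μ = Λ := by
    rw [hΛp, hΛ, ht, hN]
    simp
  have hbige : big.eval μ = 2 ^ 8 * (Λ + 1) + N + 3 := by
    rw [hbig, hN, ← hΛe]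
    simp
  rw [hbige] at hμ2
  have hN1 : 1 ≤ N := by omega
  have hcard : (Fintype.card (Str μ) : ℝ) = 2 ^ μ := by
    rw [Pool.Agent.H8.Str.card]
    push_cast
    rfl
  obtain ⟨f', hf1, hf2⟩ := dtp_elim (g := g) hd (R := N) (Λ := Λ) (lam := μ) hN1 (by nlinarith)
    (machine_dtp (k := 0) (N := N) (qN := 0) (t := t) (Λ := Λ) (p := p) (ws := [])
      (by omega) rfl)
  have hteval : T.eval (N + 0 * q.eval N) = t := by rw [zero_mul, add_zero, ht]
  refine finish g B 0 p q T D (n₀ := n₀) (μ := μ) (Λ := Λ) (lam := μ) (qq := 1) (TT := Λ + 1) hN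
    (by omega) (by omega)
    (fun ω => AcceptsIn (fun v => ω (Sum.inl v)) p [List.replicate N true] t) ?_ (fun _ => f')
    ?_ ?_ (by omega) (by omega) le_rfl ?_
  · intro S Y
    rw [hteval]
    exact Iff.rfl
  · intro a
    have h1 : pr (fun Y : Bk N Λ → Str μ =>
        ¬ (AcceptsIn (fun v => wld g (join B (GX (fun w => (D w).1) 0 N a))
            (extY (fun w => (D w).2) Y) (Sum.inl v)) p [List.replicate N true] t ↔
          f' (wld g (join B (GX (fun w => (D w).1) 0 N a)) (extY (fun w => (D w).2) Y)))) ≤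
        t * (1 / Fintype.card (Str μ) : ℝ) := by
      apply pr_piecewise (Vs (N ^ 2) N Λ)
      intro Y1
      exact hf2 (join B (GX (fun w => (D w).1) 0 N a)) (fun w => (D w).2) Y1
    refine lt_of_le_of_lt h1 ?_
    rw [hcard, mul_one_div, div_lt_iff₀ (by positivity)]
    have h2 : 2 ^ 8 * (t + 1) ≤ 2 ^ μ := by omega
    have h3 : (2 ^ 8 * (t + 1) : ℝ) ≤ 2 ^ μ := by exact_mod_cast h2
    nlinarith
  · intro Y
    have h1 := hf1.comp (R := Set.univ) (m := 1)
      (fun a => wld g (join B (GX (fun w => (D w).1) 0 N a)) (extY (fun w => (D w).2) Y)) (by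
        rintro q ⟨v, rfl, _, hlow⟩
        exact atom_dtp g B (fun w => (D w).1) (extY (fun w => (D w).2) Y) hlow)
    rw [mul_one] at h1
    exact h1.mono (by omega)
  · omega

/-- **The diagonalisation step against machines with blocks.** -/
theorem step_pos (g : Enum) (hd : ∀ c, 1 ≤ dp g c) (B : Oracle) (k : ℕ) (hk1 : 1 ≤ k)
    (htd : ∀ c, dp g c ≤ k → tp g c ≤ dp g c) (p : Prog)
    (q T : Polynomial ℕ) (D : List Bool → Bool × List Bool) (n₀ : ℕ) :
    ∃ (D' : List Bool → Bool × List Bool) (n : ℕ),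
      (∀ w : List Bool, w.length < n₀ → D' w = D w) ∧ Errs g B k p q T D' n := by
  set Λp : Polynomial ℕ := Polynomial.C 4 * Polynomial.X +
    Polynomial.C k * q.comp (Polynomial.C 4 * Polynomial.X) +
    T.comp (Polynomial.C 4 * Polynomial.X + Polynomial.C k *
      q.comp (Polynomial.C 4 * Polynomial.X)) with hΛp
  obtain ⟨J, hJ⟩ := poly_le_pow Λp
  obtain ⟨L, hLdef⟩ : ∃ L, L = J + k + 10 := ⟨_, rfl⟩
  set P0p : Polynomial ℕ := Λp + Polynomial.C (k + L + 7) with hP0p
  set P1p : Polynomial ℕ := P0p ^ (EL k ^ J) with hP1p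
  set big : Polynomial ℕ := P1p ^ 9 * Polynomial.C (2 ^ L) +
    Polynomial.C (k * 2 ^ (2 * k + 8)) * P1p +
    Polynomial.C (k + 1) * (Polynomial.C 4 * Polynomial.X) + Polynomial.C 3 with hbig
  obtain ⟨μ, hμ1, hμ2⟩ := exists_large big (n₀ + 1)
  obtain ⟨N, hN⟩ : ∃ N, N = 4 * μ := ⟨_, rfl⟩
  obtain ⟨qN, hqN⟩ : ∃ qN, qN = q.eval N := ⟨_, rfl⟩
  obtain ⟨t, ht⟩ : ∃ t, t = T.eval (N + k * qN) := ⟨_, rfl⟩
  obtain ⟨Λ, hΛ⟩ : ∃ Λ, Λ = N + k * qN + t := ⟨_, rfl⟩
  obtain ⟨P0, hP0⟩ : ∃ P0, P0 = Λ + (k + L + 7) := ⟨_, rfl⟩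
  obtain ⟨P1, hP1⟩ : ∃ P1, P1 = P0 ^ (EL k ^ J) := ⟨_, rfl⟩
  have hΛe : Λp.eval μ = Λ := by
    rw [hΛp, hΛ, ht, hqN, hN]
    simp
  have hP0e : P0p.eval μ = P0 := by
    rw [hP0p, hP0, ← hΛe]
    simp
  have hP1e : P1p.eval μ = P1 := by
    rw [hP1p, hP1, Polynomial.eval_pow, hP0e]
  have hbige : big.eval μ = P1 ^ 9 * 2 ^ L + (k * 2 ^ (2 * k + 8)) * P1 +
      (k + 1) * N + 3 := by
    rw [hbig, hN, ← hP1e]
    simp
  rw [hbige] at hμ2
  have hN1 : 1 ≤ N := by omega
  have hΛthr : Λ ≤ thr N J := by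
    calc Λ = Λp.eval μ := hΛe.symm
      _ ≤ (μ + 2) ^ 2 ^ J := hJ μ
      _ ≤ N ^ 2 ^ J := Nat.pow_le_pow_left (by omega) _
      _ ≤ N ^ 2 ^ (J + 1) :=
          Nat.pow_le_pow_right hN1 (Nat.pow_le_pow_right (by norm_num) (by omega))
  -- the formula of the machine
  set F : (At → Bool) → Prop := fun ω => Pool.Agent.H9.Alt true k qN (fun ws =>
    AcceptsIn (fun v => ω (Sum.inl v)) p (List.replicate N true :: ws) t) with hF
  have hFcl : Cl (okW g (thr N J) Λ) P0 (2 ^ P0) k F := by
    have h1 := (alt_cl (ok := okW g (thr N J) Λ)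
      (Q := {a : At | ∃ v : List Bool, a = Sum.inl v ∧ v.length ≤ Λ}) (by
        rintro a ⟨v, rfl, hv⟩ s
        exact ⟨rfl, hv, low_of_short (hv.trans hΛthr)⟩) qN t k
      (fun ws (ω : At → Bool) => AcceptsIn (fun v => ω (Sum.inl v)) p
        (List.replicate N true :: ws) t)
      (fun ws hws => machine_dtp (by omega) hws)).2 k hk1 le_rfl
    refine h1.mono (fun _ _ _ h => h) (by omega) ?_
    have h2 : (2 ^ qN + 1) ^ k ≤ 2 ^ (k * qN + k) := by
      have h3 : 2 ^ qN + 1 ≤ 2 ^ (qN + 1) := by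
        have : 1 ≤ 2 ^ qN := Nat.one_le_two_pow
        rw [pow_succ]
        omega
      calc (2 ^ qN + 1) ^ k ≤ (2 ^ (qN + 1)) ^ k := Nat.pow_le_pow_left h3 _
        _ = 2 ^ (k * qN + k) := by
            rw [← pow_mul]
            congr 1
            ring
    calc 2 ^ t * (2 ^ qN + 1) ^ k ≤ 2 ^ t * 2 ^ (k * qN + k) := Nat.mul_le_mul_left _ h2
      _ = 2 ^ (t + (k * qN + k)) := by rw [← pow_add]
      _ ≤ 2 ^ P0 := Nat.pow_le_pow_right (by norm_num) (by omega)
  -- elimination
  obtain ⟨f', hf1, hf2⟩ := layersP (k := k) hd htd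
    (S := fun a => join B (GX (fun w => (D w).1) k N a)) (Y0 := fun w => (D w).2)
    (R := N) (Λ := Λ) (lam := μ) hN1 (by nlinarith) (L := L) (by omega) J
    (P := P0) (by omega) (by omega) (by omega) (by omega) (fun _ => F) (fun _ => hFcl)
    (fun _ _ _ => rfl) (by
      rw [← hP1]
      omega)
  rw [← hP1] at hf1
  have hP11 : 1 ≤ P1 := by
    rw [hP1]
    exact Nat.one_le_pow _ _ (by omega)
  have hsmall : (J : ℝ) * (((k : ℝ) + 1) * (2 * (1 / 2 : ℝ) ^ L)) < 1 / 4 := by
    have h1 : (J : ℝ) ≤ 2 ^ J := by exact_mod_cast Nat.lt_two_pow_self.le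
    have h2 : (k : ℝ) + 1 ≤ 2 ^ (k + 1) := by
      have : k + 1 < 2 ^ (k + 1) := Nat.lt_two_pow_self
      have h3 : ((k + 1 : ℕ) : ℝ) ≤ 2 ^ (k + 1) := by exact_mod_cast this.le
      push_cast at h3 ⊢
      linarith
    have h3 : (2 : ℝ) ^ (J + (k + 1)) * (1 / 2 : ℝ) ^ (J + (k + 1)) = 1 := by
      rw [← mul_pow]
      norm_num
    calc (J : ℝ) * (((k : ℝ) + 1) * (2 * (1 / 2 : ℝ) ^ L))
        ≤ 2 ^ J * (2 ^ (k + 1) * (2 * (1 / 2 : ℝ) ^ L)) := by gcongr
      _ = ((2 : ℝ) ^ (J + (k + 1)) * (1 / 2 : ℝ) ^ (J + (k + 1))) * (2 * (1 / 2) ^ 9) := by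
          rw [hLdef, show J + k + 10 = (J + (k + 1)) + 9 by ring,
            pow_add (1 / 2 : ℝ) (J + (k + 1)) 9, pow_add (2 : ℝ) J (k + 1)]
          ring
      _ = 2 * (1 / 2) ^ 9 := by rw [h3, one_mul]
      _ < 1 / 4 := by norm_num
  refine finish g B k p q T D (n₀ := n₀) (μ := μ) (Λ := Λ) (lam := μ) (qq := P1)
    (TT := k * P1) hN (by omega) (by omega) F ?_ f' ?_ ?_ (by omega)
    (Nat.le_mul_of_pos_left _ (by omega)) hP11 ?_
  · intro S Y
    rw [hF]
    simp only
    rw [ht, hqN]
    exact Iff.rfl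
  · intro a
    exact lt_of_le_of_lt (hf2 a) hsmall
  · intro Y
    exact lev_of_cl (q := P1) (H := k) le_rfl
      (fun a => wld g (join B (GX (fun w => (D w).1) k N a)) (extY (fun w => (D w).2) Y))
      (fun h a0 s _ _ ha => by
        match a0 with
        | Sum.inr _ => exact ha.elim
        | Sum.inl v => exact atom_dtp g B (fun w => (D w).1) (extY (fun w => (D w).2) Y) ha.2.2)
      (hf1 Y) le_rfl
  · have : k * P1 * 2 ^ (2 * k + 8) = (k * 2 ^ (2 * k + 8)) * P1 := by ring
    omega

/-- **The diagonalisation step.** -/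
theorem step_all_levels (g : Enum) (hd : ∀ c, 1 ≤ dp g c) (B : Oracle) (k : ℕ)
    (htd : ∀ c, dp g c ≤ k → tp g c ≤ dp g c) (p : Prog)
    (q T : Polynomial ℕ) (D : List Bool → Bool × List Bool) (n₀ : ℕ) :
    ∃ (D' : List Bool → Bool × List Bool) (n : ℕ),
      (∀ w : List Bool, w.length < n₀ → D' w = D w) ∧ Errs g B k p q T D' n := by
  rcases Nat.eq_zero_or_pos k with rfl | hk
  · exact step_zero g hd B p q T D n₀
  · exact step_pos g hd B k hk htd p q T D n₀

end Pool.Agent.H8v
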