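import Mathlib
import Pool.Agent.H8.UDef

/-!
The oracle with threshold codes for pairs of machines which accept complementary languages.
-/

set_option autoImplicit false

namespace Pool.Agent.H8p

open Classical
open Pool.Agent.H9
open Pool.Agent.H8u (Cd hid hid_length totalLength_cons_of)

/-! ### Machines and pairs of machines -/

/-- a machine: program, length of the blocks, running time -/
abbrev Mch := Prog × Polynomial ℕ × Polynomial ℕ

/-- an enumeration of triples `(d, M, M')`: two machines with `d + 1` blocks -/
abbrev Enum := ℕ → ℕ × Mch × Mch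

/-- length of the blocks on inputs of length `n` -/
noncomputable def mq (m : Mch) (n : ℕ) : ℕ := m.2.1.eval n

/-- total length of the inputs and the `k` blocks -/
noncomputable def ml (m : Mch) (k n : ℕ) : ℕ := n + k * mq m n

/-- running time -/
noncomputable def mt (m : Mch) (k n : ℕ) : ℕ := m.2.2.eval (ml m k n)

/-- the machine with `k` blocks accepts `x` -/
def Acc (A : Oracle) (m : Mch) (k : ℕ) (x : List Bool) : Prop :=
  Alt true k (mq m x.length) (fun us => AcceptsIn A m.1 (x :: us) (mt m k x.length))

/-- the depth of the hidden trees of an entry -/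
def dp (g : Enum) (c : Cd) : ℕ := (g c.1).1

/-- the first machine -/
def m1 (g : Enum) (c : Cd) : Mch := (g c.1).2.1

/-- the second machine -/
def m2 (g : Enum) (c : Cd) : Mch := (g c.1).2.2

/-- bound for the length of the queries of a machine -/
noncomputable def cost (m : Mch) (k n : ℕ) : ℕ := ml m k n + mt m k n

/-- the padding suffices for both machines -/
def Live (g : Enum) (c : Cd) : Prop :=
  (cost (m1 g c) (dp g c + 1) c.2.1.length + cost (m2 g c) (dp g c + 1) c.2.1.length + 2) ^ 2 ≤
    c.2.2

/-- the bit coded by `c = (e, x, N)`: the entry `e` is active at the size `N`, the padding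
suffices, and the first machine accepts `x` -/
def bv (g : Enum) (act : ℕ → Finset ℕ) (A : Oracle) (c : Cd) : Prop :=
  c.1 ∈ act c.2.2 ∧ Live g c ∧ Acc A (m1 g c) (dp g c + 1) c.2.1

/-! ### Thresholds -/

/-- the number with the binary digits `p`, last digit first -/
def numL : List Bool → ℕ
  | [] => 0
  | b :: p => b.toNat + 2 * numL p

/-- the hidden number of a code -/
noncomputable def vv (V : List Bool → ℕ) (c : Cd) : ℕ :=
  if V (code c.1 c.2.1 c.2.2) < 2 ^ c.2.2 then V (code c.1 c.2.1 c.2.2) else 0

/-- query descriptions `(p, c)`: a prefix (last digit first) and a code -/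
abbrev Qd := List Bool × Cd

/-- the number to be compared with the threshold -/
def thw (q : Qd) : ℕ := numL q.1 * 2 ^ (q.2.2.2 + 1 - q.1.length)

/-- the truth value of a query description -/
noncomputable def Fv (g : Enum) (act : ℕ → Finset ℕ) (V : List Bool → ℕ) (A : Oracle) (q : Qd) :
    Bool :=
  decide (thw q ≤ 2 * vv V q.2 + (if bv g act A q.2 then 1 else 0))

/-! ### Cells -/

/-- the string of a query description -/
def zz (q : Qd) : List Bool :=
  q.1.flatMap (fun b => [true, b]) ++ false :: code q.2.1 q.2.2.1 q.2.2.2

/-- the word of a query description and a list of blocks (last block first) -/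
def wd (q : Qd) (ys : List (List Bool)) : List Bool :=
  List.replicate ys.length true ++ false :: (ys.flatMap List.reverse ++ (zz q).reverse)

/-- the prefix is not too long and all the blocks have the right length -/
def Prp (q : Qd) (ys : List (List Bool)) : Prop :=
  q.1.length ≤ q.2.2.2 + 1 ∧ ∀ y ∈ ys, y.length = (zz q).length

/-- The bit of a (virtual) cell; `F` is the truth value of the query description. -/
def bitv (F : Bool) (Y : List Bool → List Bool) (q : Qd) : List (List Bool) → Bool
  | [] => !F
  | y :: ys => decide (y = hid Y (zz q).length (wd q ys)) && !(bitv F Y q ys)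

/-- The operator whose fixpoint is the oracle. -/
noncomputable def opP (g : Enum) (act : ℕ → Finset ℕ) (S : Oracle) (Y : List Bool → List Bool)
    (V : List Bool → ℕ) : Oracle → Oracle
  | _, [] => false
  | _, false :: w => S w
  | A, true :: w => decide (∃ (q : Qd) (ys : List (List Bool)), w = wd q ys ∧
      ys.length = dp g q.2 ∧ Prp q ys ∧ bitv (Fv g act V A q) Y q ys = true)

/-- The oracle. -/
noncomputable def orP (g : Enum) (act : ℕ → Finset ℕ) (S : Oracle) (Y : List Bool → List Bool)
    (V : List Bool → ℕ) : Oracle :=
  fixO (opP g act S Y V)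

/-! ### Unique decoding -/

theorem zz_length (q : Qd) : (zz q).length = 2 * q.1.length + 1 +
    (q.2.1 + 2 * q.2.2.1.length + q.2.2.2 + 2) := by
  unfold zz
  rw [List.length_append, List.length_cons, code_length]
  have : (q.1.flatMap (fun b => [true, b])).length = 2 * q.1.length := by
    simp [List.length_flatMap, mul_comm]
  rw [this]
  ring

theorem zz_inj {q q' : Qd} (h : zz q = zz q') : q = q' := by
  obtain ⟨h1, h2⟩ := dbl_inj h
  obtain ⟨h3, h4, h5⟩ := code_inj h2
  exact Prod.ext h1 (Prod.ext h3 (Prod.ext h4 h5))

theorem flatMap_reverse_length {ys : List (List Bool)} {L : ℕ} (h : ∀ y ∈ ys, y.length = L) :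
    (ys.flatMap List.reverse).length = ys.length * L := by
  induction ys with
  | nil => simp
  | cons y ys ih =>
    rw [List.flatMap_cons, List.length_append, List.length_reverse, h y List.mem_cons_self,
      ih (fun y hy => h y (List.mem_cons_of_mem _ hy)), List.length_cons]
    ring

theorem flatMap_reverse_inj {L : ℕ} : ∀ {ys ys' : List (List Bool)}, ys.length = ys'.length →
    (∀ y ∈ ys, y.length = L) → (∀ y ∈ ys', y.length = L) →
    ys.flatMap List.reverse = ys'.flatMap List.reverse → ys = ys' := by
  intro ys
  induction ys with
  | nil =>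
    intro ys' hl _ _ _
    exact (List.length_eq_zero_iff.1 hl.symm).symm
  | cons a l ih =>
    intro ys' hl h1 h2 h3
    cases ys' with
    | nil => simp at hl
    | cons b l' =>
      rw [List.flatMap_cons, List.flatMap_cons] at h3
      obtain ⟨e1, e2⟩ := List.append_inj h3
        (by rw [List.length_reverse, List.length_reverse, h1 a List.mem_cons_self,
          h2 b List.mem_cons_self])
      rw [List.reverse_injective e1, ih (by simpa using hl)
        (fun y hy => h1 y (List.mem_cons_of_mem _ hy))
        (fun y hy => h2 y (List.mem_cons_of_mem _ hy)) e2]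

theorem wd_inj {q q' : Qd} {ys ys' : List (List Bool)} (hy : ∀ y ∈ ys, y.length = (zz q).length)
    (hy' : ∀ y ∈ ys', y.length = (zz q').length) (h : wd q ys = wd q' ys') :
    q = q' ∧ ys = ys' := by
  unfold wd at h
  obtain ⟨h1, h2⟩ := replicate_append_false_inj h
  have hL : (zz q).length = (zz q').length := by
    have h3 := congrArg List.length h2
    rw [List.length_append, List.length_append, flatMap_reverse_length hy,
      flatMap_reverse_length hy', List.length_reverse, List.length_reverse, h1] at h3
    have h4 : (ys'.length + 1) * (zz q).length = (ys'.length + 1) * (zz q').length := by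
      rw [Nat.add_mul, Nat.add_mul, one_mul, one_mul]
      exact h3
    exact Nat.eq_of_mul_eq_mul_left (by omega) h4
  obtain ⟨h4, h5⟩ := List.append_inj h2 (by
    rw [flatMap_reverse_length hy, flatMap_reverse_length hy', h1, hL])
  refine ⟨zz_inj (List.reverse_injective h5), ?_⟩
  exact flatMap_reverse_inj h1 hy (fun y h => by rw [hL]; exact hy' y h) h4

theorem wd_length (q : Qd) (ys : List (List Bool)) :
    (wd q ys).length = ys.length + 1 + (ys.flatMap List.reverse).length + (zz q).length := by
  unfold wd
  rw [List.length_append, List.length_replicate, List.length_cons, List.length_append,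
    List.length_reverse]
  ring

/-! ### Locality -/

theorem acc_local {A A' : Oracle} {m : Mch} {k : ℕ} {x : List Bool}
    (h : ∀ v : List Bool, v.length ≤ cost m k x.length → A v = A' v) :
    Acc A m k x ↔ Acc A' m k x := by
  unfold Acc
  rw [Alt_eq, Alt_eq]
  apply AltL_congr
  intro us hus
  refine (dtp_acceptsIn m.1 (x :: us) _ (cost m k x.length) ?_).depends ?_
  · rw [totalLength_cons_of hus]
    exact le_rfl
  · intro v hv
    exact h v hv

theorem bv_local {g : Enum} {act act' : ℕ → Finset ℕ} {A A' : Oracle} {c : Cd}
    (hact : act c.2.2 = act' c.2.2)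
    (h : ∀ v : List Bool, (v.length + 2) ^ 2 ≤ c.2.2 → A v = A' v) :
    bv g act A c ↔ bv g act' A' c := by
  unfold bv
  rw [hact]
  apply and_congr_right
  intro _
  apply and_congr_right
  intro hL
  apply acc_local
  intro v hv
  apply h
  exact (Nat.pow_le_pow_left (by omega) 2).trans hL

theorem Fv_congr {g : Enum} {act act' : ℕ → Finset ℕ} {V V' : List Bool → ℕ} {A A' : Oracle}
    {q : Qd} (hV : V (code q.2.1 q.2.2.1 q.2.2.2) = V' (code q.2.1 q.2.2.1 q.2.2.2))
    (h : bv g act A q.2 ↔ bv g act' A' q.2) : Fv g act V A q = Fv g act' V' A' q := by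
  unfold Fv vv
  rw [hV]
  by_cases hb : bv g act A q.2
  · rw [if_pos hb, if_pos (h.1 hb)]
  · rw [if_neg hb, if_neg (fun h' => hb (h.2 h'))]

theorem wd_length_gt (q : Qd) (ys : List (List Bool)) : q.2.2.2 + 2 < (wd q ys).length := by
  rw [wd_length, zz_length]
  omega

theorem opP_contr (g : Enum) (act : ℕ → Finset ℕ) (S : Oracle) (Y : List Bool → List Bool)
    (V : List Bool → ℕ) : Contr (opP g act S Y V) := by
  intro A A' w h
  match w with
  | [] => rfl
  | false :: w => rfl
  | true :: w =>
    simp only [opP]
    congr 1
    apply propext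
    apply exists_congr; intro q
    apply exists_congr; intro ys
    apply and_congr_right; intro hw
    apply and_congr_right; intro _
    apply and_congr_right; intro _
    rw [Fv_congr rfl (bv_local rfl ?_)]
    intro v hv
    apply h
    have h1 := wd_length_gt q ys
    rw [← hw] at h1
    rw [List.length_cons]
    nlinarith

section

variable (g : Enum) (act : ℕ → Finset ℕ) (S : Oracle) (Y : List Bool → List Bool)
  (V : List Bool → ℕ)

theorem orP_eq : opP g act S Y V (orP g act S Y V) = orP g act S Y V :=
  fixO_eq (opP_contr g act S Y V)

theorem orP_nil : orP g act S Y V [] = false := by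
  rw [← orP_eq]; rfl

theorem orP_false (w : List Bool) : orP g act S Y V (false :: w) = S w := by
  rw [← orP_eq]; rfl

theorem orP_true (w : List Bool) :
    orP g act S Y V (true :: w) = true ↔ ∃ (q : Qd) (ys : List (List Bool)), w = wd q ys ∧
      ys.length = dp g q.2 ∧ Prp q ys ∧
      bitv (Fv g act V (orP g act S Y V) q) Y q ys = true := by
  have h : opP g act S Y V (orP g act S Y V) (true :: w) = orP g act S Y V (true :: w) := by
    rw [orP_eq]
  rw [← h]
  simp only [opP, decide_eq_true_eq]

theorem orP_wd (q : Qd) (ys : List (List Bool)) (h1 : ys.length = dp g q.2) (h2 : Prp q ys) :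
    orP g act S Y V (true :: wd q ys) =
      bitv (Fv g act V (orP g act S Y V) q) Y q ys := by
  rw [Bool.eq_iff_iff, orP_true]
  constructor
  · rintro ⟨q', ys', h3, h4, h5, h6⟩
    obtain ⟨rfl, rfl⟩ := wd_inj h2.2 h5.2 h3
    exact h6
  · intro h
    exact ⟨q, ys, rfl, h1, h2, h⟩

end

/-- the bit of an extension by one block -/
theorem bitv_cons (F : Bool) (Y : List Bool → List Bool) (q : Qd) (y : List Bool)
    (ys : List (List Bool)) :
    bitv F Y q (y :: ys) = true ↔ y = hid Y (zz q).length (wd q ys) ∧ bitv F Y q ys = false := by
  simp [bitv]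

/-- The alternation over the remaining blocks of the bits of the cells. -/
theorem alt_bitv (F : Bool) (Y : List Bool → List Bool) (q : Qd) :
    ∀ (d : ℕ) (ex : Bool) (ys : List (List Bool)),
      (Alt ex d (zz q).length (fun us => bitv F Y q (us.reverse ++ ys) = (ex ^^ !d.bodd)) ↔
        bitv F Y q ys = !ex) := by
  intro d
  induction d with
  | zero =>
    intro ex ys
    simp [Alt]
  | succ d ih =>
    intro ex ys
    have hpar : (ex ^^ !(d + 1).bodd) = (!ex ^^ !d.bodd) := by
      rw [Nat.bodd_succ]
      cases ex <;> cases d.bodd <;> rfl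
    have hchild : ∀ y : List Bool,
        (Alt (!ex) d (zz q).length (fun us => bitv F Y q ((y :: us).reverse ++ ys) =
          (ex ^^ !(d + 1).bodd)) ↔ bitv F Y q (y :: ys) = ex) := by
      intro y
      have h := ih (!ex) (y :: ys)
      rw [hpar]
      have e : ∀ us : List (List Bool), (y :: us).reverse ++ ys = us.reverse ++ y :: ys := by
        intro us; simp
      simp only [e]
      rw [Bool.not_not] at h
      exact h
    cases ex with
    | true =>
      simp only [Alt]
      constructor
      · rintro ⟨u, hu, h⟩
        have h1 := (hchild u).1 h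
        rw [bitv_cons] at h1
        simpa using h1.2
      · intro h
        refine ⟨hid Y (zz q).length (wd q ys), hid_length _ _ _, (hchild _).2 ?_⟩
        rw [bitv_cons]
        exact ⟨rfl, by simpa using h⟩
    | false =>
      simp only [Alt]
      constructor
      · intro h
        by_contra hcon
        have h1 : bitv F Y q ys = false := by simpa using hcon
        have h2 := (hchild (hid Y (zz q).length (wd q ys))).1 (h _ (hid_length _ _ _))
        have h3 : bitv F Y q (hid Y (zz q).length (wd q ys) :: ys) = true := by
          rw [bitv_cons]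
          exact ⟨rfl, h1⟩
        rw [h3] at h2
        exact absurd h2 (by simp)
      · intro h u hu
        refine (hchild u).2 ?_
        by_contra hcon
        have h1 : bitv F Y q (u :: ys) = true := by simpa using hcon
        rw [bitv_cons] at h1
        rw [h1.2] at h
        exact absurd h (by simp)

end Pool.Agent.H8p
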