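import Mathlib
import Pool.Agent.H8.PDef
import Pool.Agent.H7.AUTest

/-!
Conditions, requirements and the statement of the diagonalisation step.
-/

set_option autoImplicit false

namespace Pool.Agent.H8p

open Classical
open Pool.Agent.H9
open Pool.Agent.H7 (hword hword_length)
open Pool.Agent.H8u (Cd hid hid_length totalLength_cons_of tableLang2 tableLang2_mem)

theorem bitv_congr_len {F : Bool} {Y Y' : List Bool → List Bool} {q : Qd} {n : ℕ}
    (h : ∀ v : List Bool, v.length < n → Y v = Y' v) :
    ∀ ys : List (List Bool), (wd q ys).length ≤ n → bitv F Y q ys = bitv F Y' q ys := by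
  intro ys
  induction ys with
  | nil => intro _; rfl
  | cons y ys ih =>
    intro hlen
    have h1 : (wd q ys).length < (wd q (y :: ys)).length := by
      rw [wd_length, wd_length]
      simp only [List.length_cons, List.flatMap_cons, List.length_append]
      omega
    simp only [bitv]
    rw [ih (by omega)]
    unfold hid
    rw [h (wd q ys) (by omega)]

theorem orP_congr (g : Enum) {act act' : ℕ → Finset ℕ} {S S' : Oracle}
    {Y Y' : List Bool → List Bool} {V V' : List Bool → ℕ} {n : ℕ}
    (hact : ∀ N, N < n → act N = act' N)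
    (hS : ∀ w : List Bool, w.length < n → S w = S' w)
    (hY : ∀ w : List Bool, w.length < n → Y w = Y' w)
    (hV : ∀ w : List Bool, w.length < n → V w = V' w) :
    ∀ w : List Bool, w.length ≤ n → orP g act S Y V w = orP g act' S' Y' V' w := by
  intro w hw
  refine fixO_congr (opP_contr g act S Y V) (opP_contr g act' S' Y' V') n ?_ w.length w le_rfl hw
  intro A v hv
  match v with
  | [] => rfl
  | false :: v =>
    simp only [opP]
    exact hS v (by simpa using hv)
  | true :: v =>
    simp only [opP]
    congr 1
    apply propext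
    apply exists_congr; intro q
    apply exists_congr; intro ys
    apply and_congr_right; intro hw
    apply and_congr_right; intro _
    apply and_congr_right; intro _
    have h1 : (wd q ys).length < n := by
      rw [← hw]
      simp only [List.length_cons] at hv
      omega
    have h2 := wd_length_gt q ys
    have h3 : (code q.2.1 q.2.2.1 q.2.2.2).length < n := by
      have := wd_length q ys
      have := zz_length q
      rw [code_length]
      omega
    rw [bitv_congr_len hY ys h1.le, Fv_congr (hV _ h3)
      (bv_local (A := A) (hact _ (by omega)) (fun _ _ => rfl))]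

theorem orP_eq_join (g : Enum) (act : ℕ → Finset ℕ) (S : Oracle) (Y : List Bool → List Bool)
    (V : List Bool → ℕ) :
    orP g act S Y V = join S (fun w => orP g act S Y V (true :: w)) := by
  funext w
  match w with
  | [] => rw [orP_nil]; rfl
  | false :: w => rw [orP_false]; rfl
  | true :: w => rfl

theorem sigmaP_below (g : Enum) (act : ℕ → Finset ℕ) (B S : Oracle) (Y : List Bool → List Bool)
    (V : List Bool → ℕ) (k : ℕ) :
    SigmaP B k ⊆ SigmaP (orP g act (join B S) Y V) k := by
  rw [orP_eq_join]
  exact (Pool.Agent.H8j.sigmaP_join_left B S k).trans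
    (Pool.Agent.H8j.sigmaP_join_left (join B S) _ k)

/-- A condition: data bits, hidden blocks and hidden numbers. -/
abbrev Cond := List Bool → Bool × List Bool × ℕ

/-- The oracle of a condition. -/
noncomputable def orD (g : Enum) (act : ℕ → Finset ℕ) (B : Oracle) (D : Cond) : Oracle :=
  orP g act (join B (fun w => (D w).1)) (fun w => (D w).2.1) (fun w => (D w).2.2)

theorem orD_congr (g : Enum) {act act' : ℕ → Finset ℕ} (B : Oracle) {D D' : Cond} {n : ℕ}
    (hact : ∀ N, N < n → act N = act' N)
    (h : ∀ w : List Bool, w.length < n → D w = D' w) :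
    ∀ w : List Bool, w.length ≤ n → orD g act B D w = orD g act' B D' w := by
  apply orP_congr g hact
  · intro w hw
    match w with
    | [] => rfl
    | false :: w => rfl
    | true :: w =>
      show (D w).1 = (D' w).1
      rw [h w (by simp only [List.length_cons] at hw; omega)]
  · intro w hw
    rw [h w hw]
  · intro w hw
    rw [h w hw]

/-- A requirement: the `d.1`-block machine `(p, q, T)` errs on the test language of level
`d.1 + 1` on the input `1^n`. -/
def Fails (g : Enum) (act : ℕ → Finset ℕ) (B : Oracle)
    (d : ℕ × Prog × Polynomial ℕ × Polynomial ℕ) (D : Cond) (n : ℕ) : Prop :=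
  ¬ (Alt true (d.1 + 1) n
      (fun us => orD g act B D (false :: true :: hword (List.replicate n true) us) = true) ↔
    Alt true d.1 (d.2.2.1.eval n)
      (fun ws => AcceptsIn (orD g act B D) d.2.1 (List.replicate n true :: ws)
        (d.2.2.2.eval (n + d.1 * d.2.2.1.eval n))))

theorem fails_local (g : Enum) (act : ℕ → Finset ℕ) (B : Oracle)
    (d : ℕ × Prog × Polynomial ℕ × Polynomial ℕ)
    (D : Cond) (n : ℕ) (h : Fails g act B d D n) : ∃ n' : ℕ, ∀ (act' : ℕ → Finset ℕ) (D' : Cond),
      (∀ N, N < n' → act' N = act N) →
      (∀ w : List Bool, w.length < n' → D' w = D w) → Fails g act' B d D' n := by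
  refine ⟨(d.1 + 2) * n + 2 + (n + d.1 * d.2.2.1.eval n) +
    d.2.2.2.eval (n + d.1 * d.2.2.1.eval n), ?_⟩
  intro act' D' hact' hD'
  have hA := orD_congr g B hact' hD'
  unfold Fails at h ⊢
  have e1 : Alt true (d.1 + 1) n
      (fun us => orD g act' B D' (false :: true :: hword (List.replicate n true) us) = true) ↔
      Alt true (d.1 + 1) n
      (fun us => orD g act B D (false :: true :: hword (List.replicate n true) us) = true) := by
    apply Pool.Agent.H7.Alt_congr
    intro us hus
    rw [hA]
    simp only [List.length_cons]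
    rw [hword_length hus, List.length_replicate]
    nlinarith
  have e2 : Alt true d.1 (d.2.2.1.eval n)
      (fun ws => AcceptsIn (orD g act' B D') d.2.1 (List.replicate n true :: ws)
        (d.2.2.2.eval (n + d.1 * d.2.2.1.eval n))) ↔
      Alt true d.1 (d.2.2.1.eval n)
      (fun ws => AcceptsIn (orD g act B D) d.2.1 (List.replicate n true :: ws)
        (d.2.2.2.eval (n + d.1 * d.2.2.1.eval n))) := by
    apply Pool.Agent.H7.Alt_congr
    intro ws hws
    refine (dtp_acceptsIn d.2.1 (List.replicate n true :: ws)
      (d.2.2.2.eval (n + d.1 * d.2.2.1.eval n))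
      (n + d.1 * d.2.2.1.eval n + d.2.2.2.eval (n + d.1 * d.2.2.1.eval n)) ?_).depends ?_
    · rw [totalLength_cons_of hws, List.length_replicate]
    · intro v hv
      apply hA
      have hv' : v.length ≤ _ := hv
      omega
  rw [e1, e2]
  exact h

/-- In all the worlds which agree with `D` at the words shorter than `n`, the two machines of the
entries in `E` accept complementary languages. -/
def Tot (g : Enum) (act : ℕ → Finset ℕ) (B : Oracle) (E : Finset ℕ) (n : ℕ) (D : Cond) : Prop :=
  ∀ D' : Cond, (∀ w : List Bool, w.length < n → D' w = D w) → ∀ e ∈ E, ∀ x : List Bool,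
    (Acc (orD g act B D') (g e).2.1 ((g e).1 + 1) x ↔
      ¬ Acc (orD g act B D') (g e).2.2 ((g e).1 + 1) x)

/-- **The statement of the diagonalisation step.** -/
def StepProp : Prop :=
  ∀ (g : Enum) (B : Oracle) (act : ℕ → Finset ℕ) (E : Finset ℕ) (n : ℕ) (D : Cond),
    (∀ N, n ≤ N → act N = E) → Tot g act B E n D →
    ∀ d : ℕ × Prog × Polynomial ℕ × Polynomial ℕ,
      ∃ (D' : Cond) (m : ℕ), (∀ w : List Bool, w.length < n → D' w = D w) ∧
        Fails g act B d D' m

/-- `P` with an oracle in `Sigma_k^A`. -/
def DeltaP (A : Oracle) (k : ℕ) : Set (Set (List Bool)) :=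
  {L | ∃ O : Oracle, {x | O x = true} ∈ SigmaP A k ∧ L ∈ SigmaP O 0}

end Pool.Agent.H8p
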