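import Mathlib

set_option autoImplicit false

/-!
# Uniform probability on finite types
-/

namespace Pool.Agent.H8h

open Finset

/-- uniform probability on a finite type -/
noncomputable def pr {Ω : Type} [Fintype Ω] (P : Ω → Prop) : ℝ :=
  open Classical in ((Finset.univ.filter P).card : ℝ) / Fintype.card Ω

variable {Ω : Type} [Fintype Ω]

theorem pr_eq (P : Ω → Prop) [DecidablePred P] :
    pr P = ((Finset.univ.filter P).card : ℝ) / Fintype.card Ω := by
  unfold pr
  congr 3
  ext x
  simp

theorem pr_nonneg (P : Ω → Prop) : 0 ≤ pr P := by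
  unfold pr
  positivity

theorem pr_mono {P Q : Ω → Prop} (h : ∀ ω, P ω → Q ω) : pr P ≤ pr Q := by
  unfold pr
  apply div_le_div_of_nonneg_right _ (by positivity)
  classical
  have : (Finset.univ.filter P).card ≤ (Finset.univ.filter Q).card := by
    apply Finset.card_le_card
    intro x hx
    rw [Finset.mem_filter] at hx ⊢
    exact ⟨hx.1, h x hx.2⟩
  convert (Nat.cast_le (α := ℝ)).2 this

theorem pr_congr {P Q : Ω → Prop} (h : ∀ ω, P ω ↔ Q ω) : pr P = pr Q :=
  le_antisymm (pr_mono fun ω => (h ω).1) (pr_mono fun ω => (h ω).2)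

theorem pr_or (P Q : Ω → Prop) : pr (fun ω => P ω ∨ Q ω) ≤ pr P + pr Q := by
  classical
  rw [pr_eq, pr_eq, pr_eq, ← add_div]
  apply div_le_div_of_nonneg_right _ (by positivity)
  rw [Finset.filter_or]
  exact_mod_cast Finset.card_union_le _ _

theorem pr_exists {ι : Type} (D : Finset ι) (P : ι → Ω → Prop) (ε : ℝ)
    (h : ∀ i ∈ D, pr (P i) ≤ ε) : pr (fun ω => ∃ i ∈ D, P i ω) ≤ D.card * ε := by
  classical
  induction D using Finset.induction_on with
  | empty =>
    rw [pr_eq]
    simp
  | insert a D ha ih =>
    have h1 : pr (fun ω => ∃ i ∈ insert a D, P i ω) ≤ pr (fun ω => P a ω ∨ ∃ i ∈ D, P i ω) := by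
      apply pr_mono
      rintro ω ⟨i, hi, hP⟩
      rcases Finset.mem_insert.1 hi with rfl | hi
      · exact Or.inl hP
      · exact Or.inr ⟨i, hi, hP⟩
    have h2 := pr_or (P a) (fun ω => ∃ i ∈ D, P i ω)
    have h3 := h a (Finset.mem_insert_self _ _)
    have h4 := ih (fun i hi => h i (Finset.mem_insert_of_mem hi))
    rw [Finset.card_insert_of_notMem ha]
    push_cast
    linarith

theorem pr_false : pr (fun _ : Ω => False) = 0 := by
  classical
  rw [pr_eq]
  simp

theorem pr_true [Nonempty Ω] : pr (fun _ : Ω => True) = 1 := by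
  classical
  rw [pr_eq]
  have : (Fintype.card Ω : ℝ) ≠ 0 := by
    exact_mod_cast Fintype.card_ne_zero
  simp [this]

theorem exists_of_pr_lt_one [Nonempty Ω] {P : Ω → Prop} (h : pr P < 1) : ∃ ω, ¬ P ω := by
  by_contra hcon
  push Not at hcon
  have := pr_congr (P := P) (Q := fun _ => True) (fun ω => ⟨fun _ => trivial, fun _ => hcon ω⟩)
  rw [pr_true] at this
  linarith

/-- Resampling a set of coordinates. -/
theorem pr_piecewise {B J : Type} [Fintype B] [DecidableEq B] [Fintype J] [Nonempty J]
    (C : Finset B) (P : (B → J) → Prop) (ε : ℝ)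
    (h : ∀ Y0 : B → J, pr (fun Y : B → J => P (C.piecewise Y Y0)) ≤ ε) : pr P ≤ ε := by
  classical
  have hΩ : (0 : ℝ) < Fintype.card (B → J) := by exact_mod_cast Fintype.card_pos
  -- the involution exchanging the coordinates in `C`
  let σ : (B → J) × (B → J) ≃ (B → J) × (B → J) :=
    { toFun := fun z => (C.piecewise z.2 z.1, C.piecewise z.1 z.2)
      invFun := fun z => (C.piecewise z.2 z.1, C.piecewise z.1 z.2)
      left_inv := by
        rintro ⟨a, b⟩
        ext x <;> by_cases hx : x ∈ C <;> simp [Finset.piecewise, hx]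
      right_inv := by
        rintro ⟨a, b⟩
        ext x <;> by_cases hx : x ∈ C <;> simp [Finset.piecewise, hx] }
  have h1 : ((Finset.univ : Finset ((B → J) × (B → J))).filter (fun z => P z.1)).card =
      ((Finset.univ : Finset ((B → J) × (B → J))).filter
        (fun z => P (C.piecewise z.2 z.1))).card := by
    apply Finset.card_bij (fun z _ => σ.symm z)
    · intro z hz
      rw [Finset.mem_filter] at hz ⊢
      refine ⟨Finset.mem_univ _, ?_⟩
      have : σ (σ.symm z) = z := σ.apply_symm_apply z
      have h2 : (σ (σ.symm z)).1 = z.1 := by rw [this]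
      show P (σ (σ.symm z)).1
      rw [h2]
      exact hz.2
    · intro a _ b _ hab
      exact σ.symm.injective hab
    · intro z hz
      refine ⟨σ z, ?_, σ.symm_apply_apply z⟩
      rw [Finset.mem_filter] at hz ⊢
      exact ⟨Finset.mem_univ _, hz.2⟩
  have h2 : ((Finset.univ : Finset ((B → J) × (B → J))).filter (fun z => P z.1)).card =
      (Finset.univ.filter P).card * Fintype.card (B → J) := by
    have : (Finset.univ : Finset ((B → J) × (B → J))).filter (fun z => P z.1) =
        (Finset.univ.filter P) ×ˢ (Finset.univ : Finset (B → J)) := by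
      ext z
      simp
    rw [this, Finset.card_product, Finset.card_univ]
  have h3 : (((Finset.univ : Finset ((B → J) × (B → J))).filter
        (fun z => P (C.piecewise z.2 z.1))).card : ℝ) ≤
      Fintype.card (B → J) * (Fintype.card (B → J) * ε) := by
    have h4 : ((Finset.univ : Finset ((B → J) × (B → J))).filter
        (fun z => P (C.piecewise z.2 z.1))).card =
        ∑ Y0 : B → J, ((Finset.univ : Finset (B → J)).filter
          (fun Y => P (C.piecewise Y Y0))).card := by
      rw [Finset.card_filter, Fintype.sum_prod_type]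
      apply Finset.sum_congr rfl
      intro Y0 _
      rw [Finset.card_filter]
    rw [h4]
    push_cast
    calc ∑ Y0 : B → J, (((Finset.univ : Finset (B → J)).filter
          (fun Y => P (C.piecewise Y Y0))).card : ℝ)
        ≤ ∑ _Y0 : B → J, (Fintype.card (B → J) * ε : ℝ) := by
          apply Finset.sum_le_sum
          intro Y0 _
          have h5 := h Y0
          rw [pr_eq, div_le_iff₀ hΩ] at h5
          linarith
      _ = _ := by simp
  rw [pr_eq, div_le_iff₀ hΩ]
  have h6 : ((Finset.univ.filter P).card : ℝ) * Fintype.card (B → J) ≤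
      Fintype.card (B → J) * (Fintype.card (B → J) * ε) := by
    rw [← h1, h2] at h3
    exact_mod_cast h3
  nlinarith

end Pool.Agent.H8h
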