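import Pool.Agent.H9.Machine

set_option autoImplicit false

/-!
Census of an oracle, the space of oracles of bounded census, symmetric difference of oracles.
-/

namespace Pool.Agent.H8

open Pool.Agent.H9 (Oracle)

/-- at most `s n` strings of every length `n` belong to the oracle `D` -/
def Census (s : ℕ → ℕ) (D : Oracle) : Prop :=
  ∀ n, {w : List Bool | w.length = n ∧ D w = true}.ncard ≤ s n

/-- the space of oracles with census at most `s`, with the topology of pointwise convergence
(the subspace topology of the Cantor space of all oracles) -/
abbrev Sparse (s : ℕ → ℕ) := {D : Oracle // Census s D}

/-- the symmetric difference of two oracles (pointwise exclusive or) -/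
def xorO (A D : Oracle) : Oracle := fun w => xor (A w) (D w)

end Pool.Agent.H8
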