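import Mathlib
import Pool.Agent.H9.Machine

set_option autoImplicit false

/-!
Execution lemmas for the programs of `Pool.Agent.H9.Machine`, locality of the computation in the
oracle, and the interleaving program `weaveProg`.
-/

namespace Pool.Agent.H8

open Pool.Agent.H9

/-- memory states -/
abbrev Mem := ℕ → List Bool

/-- `Exec A p s s' n`: started with memory `s`, the program `p` takes exactly `n` steps and ends with
memory `s'`. -/
def Exec (A : Oracle) (p : Prog) (s s' : Mem) (n : ℕ) : Prop :=
  ∀ k : List Prog, (step A)^[n] (p :: k, s) = (k, s')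

theorem Exec.skip (A : Oracle) (s : Mem) : Exec A Prog.skip s s 1 := fun _ => rfl

theorem Exec.push (A : Oracle) (i : ℕ) (b : Bool) (s : Mem) :
    Exec A (Prog.push i b) s (Function.update s i (b :: s i)) 1 := fun _ => rfl

theorem Exec.pop (A : Oracle) (i : ℕ) (s : Mem) :
    Exec A (Prog.pop i) s (Function.update s i (s i).tail) 1 := fun _ => rfl

theorem Exec.seq {A : Oracle} {p q : Prog} {s s1 s2 : Mem} {n m : ℕ}
    (h1 : Exec A p s s1 n) (h2 : Exec A q s1 s2 m) : Exec A (Prog.seq p q) s s2 (1 + n + m) := by
  intro k
  rw [show 1 + n + m = m + n + 1 from by ring, Function.iterate_succ_apply]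
  show (step A)^[m + n] (p :: q :: k, s) = _
  rw [Function.iterate_add_apply, h1, h2]

theorem Exec.cond_nil {A : Oracle} {i : ℕ} {p q r : Prog} {s s1 : Mem} {n : ℕ}
    (h : s i = []) (h1 : Exec A p s s1 n) : Exec A (Prog.cond i p q r) s s1 (1 + n) := by
  intro k
  rw [add_comm, Function.iterate_succ_apply]
  have : step A (Prog.cond i p q r :: k, s) = (p :: k, s) := by
    simp [step, h]
  rw [this, h1]

theorem Exec.cond_false {A : Oracle} {i : ℕ} {p q r : Prog} {s s1 : Mem} {n : ℕ} {l : List Bool}
    (h : s i = false :: l) (h1 : Exec A q s s1 n) : Exec A (Prog.cond i p q r) s s1 (1 + n) := by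
  intro k
  rw [add_comm, Function.iterate_succ_apply]
  have : step A (Prog.cond i p q r :: k, s) = (q :: k, s) := by
    simp [step, h]
  rw [this, h1]

theorem Exec.cond_true {A : Oracle} {i : ℕ} {p q r : Prog} {s s1 : Mem} {n : ℕ} {l : List Bool}
    (h : s i = true :: l) (h1 : Exec A r s s1 n) : Exec A (Prog.cond i p q r) s s1 (1 + n) := by
  intro k
  rw [add_comm, Function.iterate_succ_apply]
  have : step A (Prog.cond i p q r :: k, s) = (r :: k, s) := by
    simp [step, h]
  rw [this, h1]

theorem Exec.loop_nil {A : Oracle} {i : ℕ} {p : Prog} {s : Mem}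
    (h : s i = []) : Exec A (Prog.loop i p) s s 1 := by
  intro k
  show step A (Prog.loop i p :: k, s) = _
  simp [step, h]

theorem Exec.loop_cons {A : Oracle} {i : ℕ} {p : Prog} {s s1 s2 : Mem} {n m : ℕ} {b : Bool}
    {l : List Bool} (h : s i = b :: l) (h1 : Exec A p s s1 n)
    (h2 : Exec A (Prog.loop i p) s1 s2 m) : Exec A (Prog.loop i p) s s2 (1 + n + m) := by
  intro k
  rw [show 1 + n + m = m + n + 1 from by ring, Function.iterate_succ_apply]
  have : step A (Prog.loop i p :: k, s) = (p :: Prog.loop i p :: k, s) := by
    simp [step, h]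
  rw [this, Function.iterate_add_apply, h1, h2]

theorem Exec.ask_true {A : Oracle} {i : ℕ} {p q : Prog} {s s1 : Mem} {n : ℕ}
    (h : A (s i) = true) (h1 : Exec A p s s1 n) : Exec A (Prog.ask i p q) s s1 (1 + n) := by
  intro k
  rw [add_comm, Function.iterate_succ_apply]
  have : step A (Prog.ask i p q :: k, s) = (p :: k, s) := by
    simp [step, h]
  rw [this, h1]

theorem Exec.ask_false {A : Oracle} {i : ℕ} {p q : Prog} {s s1 : Mem} {n : ℕ}
    (h : A (s i) = false) (h1 : Exec A q s s1 n) : Exec A (Prog.ask i p q) s s1 (1 + n) := by
  intro k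
  rw [add_comm, Function.iterate_succ_apply]
  have : step A (Prog.ask i p q :: k, s) = (q :: k, s) := by
    simp [step, h]
  rw [this, h1]

/-! ### Halting -/

theorem step_halted (A : Oracle) (s : Mem) (n : ℕ) : (step A)^[n] (([] : List Prog), s) = ([], s) := by
  induction n with
  | zero => rfl
  | succ n ih => rw [Function.iterate_succ_apply]; exact ih

theorem run_stable {A : Oracle} {p : Prog} {xs : List (List Bool)} {n m : ℕ}
    (h : (run A p xs n).1 = []) (hnm : n ≤ m) : run A p xs m = run A p xs n := by
  obtain ⟨d, rfl⟩ := Nat.exists_eq_add_of_le hnm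
  unfold run at h ⊢
  rw [add_comm, Function.iterate_add_apply]
  set c := (step A)^[n] (start p xs) with hc
  obtain ⟨c1, c2⟩ := c
  simp only at h
  subst h
  exact step_halted A c2 d

/-- With a time bound, acceptance is acceptance within the time bound. -/
theorem accepts_iff {A : Oracle} {p : Prog} {xs : List (List Bool)} {n : ℕ}
    (h : (run A p xs n).1 = []) : Accepts A p xs ↔ AcceptsIn A p xs n := by
  constructor
  · rintro ⟨t, ht1, ht2⟩
    rcases le_total n t with hnt | hnt
    · rw [run_stable h hnt] at ht1 ht2
      exact ⟨ht1, ht2⟩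
    · have := run_stable ht1 hnt
      refine ⟨h, ?_⟩
      rw [this]
      exact ht2
  · intro h'
    exact ⟨n, h'⟩

/-- Acceptance within a time bound does not change when the oracle changes outside a set of at
most as many strings as the time bound. -/
theorem run_local (A : Oracle) (n : ℕ) : ∀ c : Cfg, ∃ Q : Finset (List Bool), Q.card ≤ n ∧
    ∀ A' : Oracle, (∀ w ∈ Q, A' w = A w) → (step A')^[n] c = (step A)^[n] c := by
  induction n with
  | zero => intro c; exact ⟨∅, by simp, fun _ _ => rfl⟩
  | succ n ih =>
    intro c
    obtain ⟨Q, hQ, hQ2⟩ := ih (step A c)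
    -- one query per step
    have hone : ∃ w : List Bool, ∀ A' : Oracle, A' w = A w → step A' c = step A c := by
      rcases c with ⟨_ | ⟨p, k⟩, s⟩
      · exact ⟨[], fun _ _ => rfl⟩
      · cases p with
        | ask i p q =>
          refine ⟨s i, fun A' h => ?_⟩
          simp only [step]
          rw [h]
        | skip => exact ⟨[], fun _ _ => rfl⟩
        | push i b => exact ⟨[], fun _ _ => rfl⟩
        | pop i => exact ⟨[], fun _ _ => rfl⟩
        | seq p q => exact ⟨[], fun _ _ => rfl⟩
        | cond i p q r => exact ⟨[], fun _ _ => rfl⟩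
        | loop i p => exact ⟨[], fun _ _ => rfl⟩
    obtain ⟨w, hw⟩ := hone
    refine ⟨insert w Q, (Finset.card_insert_le _ _).trans (by omega), ?_⟩
    intro A' hA'
    rw [Function.iterate_succ_apply, Function.iterate_succ_apply,
      hw A' (hA' w (Finset.mem_insert_self _ _))]
    exact hQ2 A' (fun v hv => hA' v (Finset.mem_insert_of_mem hv))

/-! ### The weaving program -/

/-- push the top of stack `c` (a missing bit counts as `0`) on stack `o` and remove it -/
def moveTop (o c : ℕ) : Prog :=
  Prog.seq (Prog.cond c (Prog.push o false) (Prog.push o false) (Prog.push o true)) (Prog.pop c)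

/-- `moveTop` for the stacks `1, ..., j` -/
def roundProg (o : ℕ) : ℕ → Prog
  | 0 => Prog.skip
  | j + 1 => Prog.seq (roundProg o j) (moveTop o (j + 1))

/-- The program of the test language with `K` blocks. -/
def weaveProg (K : ℕ) : Prog :=
  Prog.seq
    (Prog.loop 0 (Prog.seq
      (Prog.cond 0 Prog.skip (Prog.push (K + 1) false) (roundProg (K + 1) K)) (Prog.pop 0)))
    (Prog.ask (K + 1) (Prog.push 0 true) (Prog.push 0 false))

theorem moveTop_exec (A : Oracle) (o c : ℕ) (s : Mem) :
    Exec A (moveTop o c) s
      (let s' := Function.update s o ((s c).headD false :: s o)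
       Function.update s' c (s' c).tail) 4 := by
  unfold moveTop
  have h : Exec A (Prog.cond c (Prog.push o false) (Prog.push o false) (Prog.push o true)) s
      (Function.update s o ((s c).headD false :: s o)) (1 + 1) := by
    rcases hc : s c with _ | ⟨b, l⟩
    · exact Exec.cond_nil hc (Exec.push A o false s)
    · cases b
      · exact Exec.cond_false hc (Exec.push A o false s)
      · exact Exec.cond_true hc (Exec.push A o true s)
  exact Exec.seq h (Exec.pop A c _)

/-- memory after a round on the stacks `1..j` with output stack `o` -/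
def roundMem (o : ℕ) (s : Mem) : ℕ → Mem
  | 0 => s
  | j + 1 =>
      let s0 := roundMem o s j
      let s' := Function.update s0 o ((s0 (j + 1)).headD false :: s0 o)
      Function.update s' (j + 1) (s' (j + 1)).tail

theorem roundProg_exec (A : Oracle) (o : ℕ) (s : Mem) (j : ℕ) :
    Exec A (roundProg o j) s (roundMem o s j) (1 + 5 * j) := by
  induction j with
  | zero => exact Exec.skip A s
  | succ j ih =>
    have h := Exec.seq ih (moveTop_exec A o (j + 1) (roundMem o s j))
    have e : 1 + (1 + 5 * j) + 4 = 1 + 5 * (j + 1) := by ring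
    rw [e] at h
    exact h

theorem roundMem_other (o : ℕ) (s : Mem) (j : ℕ) (i : ℕ) (hio : i ≠ o) (hi : i = 0 ∨ j < i) :
    roundMem o s j i = s i := by
  induction j with
  | zero => rfl
  | succ j ih =>
    have hne : i ≠ j + 1 := by omega
    simp only [roundMem]
    rw [Function.update_of_ne hne, Function.update_of_ne hio]
    exact ih (by omega)

theorem roundMem_in (o : ℕ) (s : Mem) (j : ℕ) (i : ℕ) (hj : j < o) (h1 : 1 ≤ i) (h2 : i ≤ j) :
    roundMem o s j i = (s i).tail := by
  induction j with
  | zero => omega
  | succ j ih =>
    rcases Nat.lt_or_ge i (j + 1) with h | h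
    · have hne : i ≠ j + 1 := by omega
      have hio : i ≠ o := by omega
      simp only [roundMem]
      rw [Function.update_of_ne hne, Function.update_of_ne hio]
      exact ih (by omega) (by omega)
    · have hij : i = j + 1 := by omega
      subst hij
      simp only [roundMem]
      rw [Function.update_self, Function.update_of_ne (by omega : j + 1 ≠ o),
        roundMem_other o s j (j + 1) (by omega) (Or.inr (by omega))]

/-- heads of the stacks `1..j`, the last one first -/
def heads (s : Mem) : ℕ → List Bool
  | 0 => []
  | j + 1 => (s (j + 1)).headD false :: heads s j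

theorem roundMem_out (o : ℕ) (s : Mem) (j : ℕ) (hj : j < o) :
    roundMem o s j o = heads s j ++ s o := by
  induction j with
  | zero => rfl
  | succ j ih =>
    simp only [roundMem]
    rw [Function.update_of_ne (by omega : o ≠ j + 1), Function.update_self, ih (by omega),
      roundMem_other o s j (j + 1) (by omega) (Or.inr (by omega))]
    rfl

/-- The word written by the weaving program: `x` is the script, `us` the blocks, `acc` the word
written so far. -/
def weave : List Bool → List (List Bool) → List Bool → List Bool
  | [], _, acc => acc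
  | false :: x, us, acc => weave x us (false :: acc)
  | true :: x, us, acc =>
      weave x (us.map List.tail) ((us.map (fun u => u.headD false)).reverse ++ acc)

theorem heads_eq (s : Mem) (us : List (List Bool)) :
    ∀ (K : ℕ), us.length = K → (∀ i, 1 ≤ i → i ≤ K → s i = us.getD (i - 1) []) →
      heads s K = (us.map (fun u => u.headD false)).reverse := by
  induction us using List.reverseRecOn with
  | nil =>
    intro K hK _
    simp at hK
    subst hK
    rfl
  | append_singleton us u ih =>
    intro K hK hs
    rw [List.length_append, List.length_singleton] at hK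
    subst hK
    have hu : s (us.length + 1) = u := by
      rw [hs (us.length + 1) (by omega) (by omega)]
      simp [List.getD_append_right]
    show (s (us.length + 1)).headD false :: heads s us.length = _
    rw [hu, ih us.length rfl]
    · simp
    · intro i h1 h2
      rw [hs i h1 (by omega)]
      rw [List.getD_append _ _ _ _ (by omega)]

theorem loop_exec (A : Oracle) (K : ℕ) (x : List Bool) :
    ∀ (us : List (List Bool)) (s : Mem), us.length = K → s 0 = x →
      (∀ i, 1 ≤ i → i ≤ K → s i = us.getD (i - 1) []) →
      ∃ s' n, Exec A (Prog.loop 0 (Prog.seq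
        (Prog.cond 0 Prog.skip (Prog.push (K + 1) false) (roundProg (K + 1) K)) (Prog.pop 0)))
        s s' n ∧ n ≤ (5 * K + 5) * x.length + 1 ∧ s' 0 = [] ∧
        s' (K + 1) = weave x us (s (K + 1)) := by
  induction x with
  | nil =>
    intro us s _ h0 _
    exact ⟨s, 1, Exec.loop_nil h0, by simp, h0, rfl⟩
  | cons b x ih =>
    intro us s hus h0 hs
    cases b
    · -- bit 0
      set s1 : Mem := Function.update s (K + 1) (false :: s (K + 1)) with hs1
      set s2 : Mem := Function.update s1 0 (s1 0).tail with hs2
      have hbody : Exec A (Prog.seq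
          (Prog.cond 0 Prog.skip (Prog.push (K + 1) false) (roundProg (K + 1) K)) (Prog.pop 0))
          s s2 (1 + (1 + 1) + 1) :=
        Exec.seq (Exec.cond_false h0 (Exec.push A _ _ s)) (Exec.pop A 0 s1)
      obtain ⟨s', n, hE, hn, hz, hout⟩ := ih us s2 hus (by
          rw [hs2, Function.update_self, hs1, Function.update_of_ne (by omega), h0]; rfl)
        (by
          intro i h1 h2
          rw [hs2, Function.update_of_ne (by omega), hs1, Function.update_of_ne (by omega)]
          exact hs i h1 h2)
      refine ⟨s', _, Exec.loop_cons h0 hbody hE, ?_, hz, ?_⟩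
      · rw [List.length_cons]
        have : (5 * K + 5) * (x.length + 1) = (5 * K + 5) * x.length + (5 * K + 5) := by ring
        omega
      · rw [hout]
        have : s2 (K + 1) = false :: s (K + 1) := by
          rw [hs2, Function.update_of_ne (by omega), hs1, Function.update_self]
        rw [this]
        rfl
    · -- bit 1
      set s1 : Mem := roundMem (K + 1) s K with hs1
      set s2 : Mem := Function.update s1 0 (s1 0).tail with hs2
      have hbody : Exec A (Prog.seq
          (Prog.cond 0 Prog.skip (Prog.push (K + 1) false) (roundProg (K + 1) K)) (Prog.pop 0))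
          s s2 (1 + (1 + (1 + 5 * K)) + 1) :=
        Exec.seq (Exec.cond_true h0 (roundProg_exec A (K + 1) s K)) (Exec.pop A 0 s1)
      obtain ⟨s', n, hE, hn, hz, hout⟩ := ih (us.map List.tail) s2 (by simpa using hus) (by
          rw [hs2, Function.update_self, hs1, roundMem_other _ _ _ _ (by omega) (Or.inl rfl), h0]
          rfl)
        (by
          intro i h1 h2
          rw [hs2, Function.update_of_ne (by omega), hs1, roundMem_in _ _ _ _ (by omega) h1 h2,
            hs i h1 h2]
          rw [List.getD_eq_getElem?_getD, List.getD_eq_getElem?_getD, List.getElem?_map]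
          cases us[i - 1]? <;> rfl)
      refine ⟨s', _, Exec.loop_cons h0 hbody hE, ?_, hz, ?_⟩
      · rw [List.length_cons]
        have : (5 * K + 5) * (x.length + 1) = (5 * K + 5) * x.length + (5 * K + 5) := by ring
        omega
      · rw [hout]
        have : s2 (K + 1) = (us.map (fun u => u.headD false)).reverse ++ s (K + 1) := by
          rw [hs2, Function.update_of_ne (by omega), hs1, roundMem_out _ _ _ (by omega),
            heads_eq s us K hus hs]
        rw [this]
        rfl

/-- The weaving program halts in time and decides whether the woven word is in the oracle. -/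
theorem weaveProg_spec (A : Oracle) (K : ℕ) (x : List Bool) (us : List (List Bool))
    (hus : us.length = K) :
    (run A (weaveProg K) (x :: us) ((5 * K + 5) * x.length + 4)).1 = [] ∧
      (Accepts A (weaveProg K) (x :: us) ↔ A (weave x us []) = true) := by
  set s : Mem := fun i => (x :: us).getD i [] with hs
  obtain ⟨s', n, hE, hn, hz, hout⟩ := loop_exec A K x us s hus rfl (by
    intro i h1 h2
    obtain ⟨j, rfl⟩ := Nat.exists_eq_add_of_le' h1
    rfl)
  have hsK : s (K + 1) = [] := by
    show (x :: us).getD (K + 1) [] = []
    rw [List.getD_eq_default]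
    simp [hus]
  rw [hsK] at hout
  -- the final query
  have hfin : ∃ s'' : Mem, Exec A (Prog.ask (K + 1) (Prog.push 0 true) (Prog.push 0 false))
      s' s'' (1 + 1) ∧ (s'' 0).head? = some (A (weave x us [])) := by
    cases hA : A (s' (K + 1))
    · refine ⟨_, Exec.ask_false hA (Exec.push A 0 false s'), ?_⟩
      rw [Function.update_self, hout.symm.trans rfl] at *
      rw [← hA]
      rfl
    · refine ⟨_, Exec.ask_true hA (Exec.push A 0 true s'), ?_⟩
      rw [Function.update_self]
      rw [← hout, hA]
      rfl
  obtain ⟨s'', hE2, hh⟩ := hfin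
  have hall : Exec A (weaveProg K) s s'' (1 + n + (1 + 1)) := Exec.seq hE hE2
  have hrun : run A (weaveProg K) (x :: us) (1 + n + (1 + 1)) = ([], s'') := hall []
  have hhalt : (run A (weaveProg K) (x :: us) (1 + n + (1 + 1))).1 = [] := by rw [hrun]
  refine ⟨?_, ?_⟩
  · rw [run_stable hhalt (by omega)]
    exact hhalt
  · rw [accepts_iff hhalt]
    unfold AcceptsIn
    rw [hrun]
    simp only [true_and]
    rw [hh]
    simp

end Pool.Agent.H8
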