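import Pool.Agent.H8.Sipser
import Pool.Agent.H8.Exec

set_option autoImplicit false
set_option linter.unusedSectionVars false

/-!
Towards the threshold theorem: bridge between the two forms of alternation, the test language,
the coding of tree addresses, and the finite lower bound.
-/

namespace Pool.Agent.H8

open Pool.Agent.H9 (Oracle Prog Cfg step run start AcceptsIn Accepts totalLength PolyTime SigmaP join)

/-! ### Bridge -/

/-- adding an outermost component -/
def Path.cons {X : Type} (x : X) : {k : ℕ} → Path X k → Path X (k + 1)
  | 0, _ => Path.nil.snoc x
  | _ + 1, l => (Path.cons x l.init).snoc l.last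

/-- list of components, outermost first -/
def Path.toList {X : Type} : {k : ℕ} → Path X k → List X
  | 0, _ => []
  | _ + 1, l => l.init.toList ++ [l.last]

theorem Path.toList_cons {X : Type} (x : X) : {k : ℕ} → (l : Path X k) →
    (Path.cons x l).toList = x :: l.toList
  | 0, _ => rfl
  | k + 1, l => by
    show (Path.cons x l.init).toList ++ [l.last] = x :: (l.init.toList ++ [l.last])
    rw [Path.toList_cons x l.init]
    rfl

theorem Path.length_toList {X : Type} : {k : ℕ} → (l : Path X k) → l.toList.length = k
  | 0, _ => rfl
  | k + 1, l => by
    show (l.init.toList ++ [l.last]).length = k + 1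
    rw [List.length_append, Path.length_toList l.init]
    rfl

theorem Path.toList_inj {X : Type} : {k : ℕ} → {l l' : Path X k} → l.toList = l'.toList → l = l'
  | 0, l, l', _ => rfl
  | k + 1, l, l', h => by
    have h' : l.init.toList ++ [l.last] = l'.init.toList ++ [l'.last] := h
    have h2 := List.append_inj' h' rfl
    have h3 := Path.toList_inj h2.1
    have h4 : l.last = l'.last := by simpa using h2.2
    calc l = l.init.snoc l.last := rfl
      _ = l'.init.snoc l'.last := by rw [h3, h4]
      _ = l' := rfl

theorem Alt_cons {X : Type} (b : Bool) (k : ℕ) (P : Path X (k + 1) → Prop) :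
    Alt X b (k + 1) P ↔ quant b (fun x => Alt X (!b) k (fun l => P (Path.cons x l))) := by
  induction k with
  | zero => exact Iff.rfl
  | succ k ih =>
    have h1 : Alt X b (k + 1 + 1) P ↔
        Alt X b (k + 1) (fun l => quant (qty b (k + 1)) (fun y => P (l.snoc y))) := Iff.rfl
    rw [h1, ih]
    apply quant_congr
    intro x
    have h2 : Alt X (!b) (k + 1) (fun l => P (Path.cons x l)) ↔
        Alt X (!b) k (fun l => quant (qty (!b) k) (fun y => P (Path.cons x (l.snoc y)))) := Iff.rfl
    rw [h2, qty_not]
    exact Iff.rfl

/-- strings of length `m` -/
abbrev Str (m : ℕ) := {u : List Bool // u.length = m}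

theorem alt_bridge (m : ℕ) : ∀ (k : ℕ) (b : Bool) (φ : List (List Bool) → Prop),
    Pool.Agent.H9.Alt b k m φ ↔ Alt (Str m) b k (fun l => φ (l.toList.map Subtype.val)) := by
  intro k
  induction k with
  | zero => intro b φ; exact Iff.rfl
  | succ k ih =>
    intro b φ
    rw [Alt_cons]
    cases b
    · show (∀ u : List Bool, u.length = m → Pool.Agent.H9.Alt true k m (fun us => φ (u :: us))) ↔
        ∀ u : Str m, Alt (Str m) true k (fun l => φ ((Path.cons u l).toList.map Subtype.val))
      constructor
      · intro h u
        have := (ih true _).mp (h u.1 u.2)
        refine (Alt_congr _ _ ?_).mp this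
        intro l
        rw [Path.toList_cons]
        rfl
      · intro h u hu
        apply (ih true _).mpr
        refine (Alt_congr _ _ ?_).mpr (h ⟨u, hu⟩)
        intro l
        rw [Path.toList_cons]
        rfl
    · show (∃ u : List Bool, u.length = m ∧ Pool.Agent.H9.Alt false k m (fun us => φ (u :: us))) ↔
        ∃ u : Str m, Alt (Str m) false k (fun l => φ ((Path.cons u l).toList.map Subtype.val))
      constructor
      · rintro ⟨u, hu, h⟩
        have := (ih false _).mp h
        refine ⟨⟨u, hu⟩, (Alt_congr _ _ ?_).mp this⟩
        intro l
        rw [Path.toList_cons]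
        rfl
      · rintro ⟨u, h⟩
        refine ⟨u.1, u.2, (ih false _).mpr ((Alt_congr _ _ ?_).mp h)⟩
        intro l
        rw [Path.toList_cons]
        rfl

theorem alt9_congr (m : ℕ) (k : ℕ) (b : Bool) {φ ψ : List (List Bool) → Prop}
    (h : ∀ us : List (List Bool), us.length = k → (∀ u ∈ us, u.length = m) → (φ us ↔ ψ us)) :
    Pool.Agent.H9.Alt b k m φ ↔ Pool.Agent.H9.Alt b k m ψ := by
  rw [alt_bridge, alt_bridge]
  apply Alt_congr
  intro l
  apply h
  · rw [List.length_map, Path.length_toList]
  · intro u hu
    obtain ⟨v, -, rfl⟩ := List.mem_map.mp hu
    exact v.2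

/-- surjective change of the quantified type -/
theorem Alt_map {X Y : Type} (f : X → Y) (hf : Function.Surjective f) (b : Bool) (k : ℕ)
    (P : List Y → Prop) :
    Alt X b k (fun l => P (l.toList.map f)) ↔ Alt Y b k (fun l => P l.toList) := by
  induction k generalizing b P with
  | zero => exact Iff.rfl
  | succ k ih =>
    rw [Alt_cons, Alt_cons]
    have h : ∀ x : X, Alt X (!b) k (fun l => P ((Path.cons x l).toList.map f)) ↔
        Alt Y (!b) k (fun l => P ((Path.cons (f x) l).toList)) := by
      intro x
      have := ih (!b) (fun ys => P (f x :: ys))
      rw [Alt_congr (!b) k (Q := fun l => P (f x :: l.toList.map f)) (fun l => by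
        rw [Path.toList_cons]; rfl), this]
      apply Alt_congr
      intro l
      rw [Path.toList_cons]
    rw [quant_congr b h]
    cases b
    · constructor
      · intro hh y
        obtain ⟨x, rfl⟩ := hf y
        exact hh x
      · intro hh x
        exact hh (f x)
    · constructor
      · rintro ⟨x, hx⟩
        exact ⟨f x, hx⟩
      · rintro ⟨y, hy⟩
        obtain ⟨x, rfl⟩ := hf y
        exact ⟨x, hy⟩

/-! ### The test language -/

/-- the test language with `K` blocks -/
def Lng (K : ℕ) (A : Oracle) : Set (List Bool) :=
  {x | Pool.Agent.H9.Alt true K x.length (fun us => A (weave x us []) = true)}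

theorem Lng_mem (K : ℕ) (A : Oracle) : Lng K A ∈ SigmaP A K := by
  refine ⟨Polynomial.X, weaveProg K, ?_, ?_⟩
  · refine ⟨Polynomial.C (5 * K + 5) * Polynomial.X + Polynomial.C 4, ?_⟩
    intro xs hxs
    cases xs with
    | nil => simp at hxs
    | cons x us =>
      have hus : us.length = K := by simpa using hxs
      obtain ⟨h1, -⟩ := weaveProg_spec A K x us hus
      rw [run_stable h1]
      · exact h1
      · simp only [Polynomial.eval_add, Polynomial.eval_mul, Polynomial.eval_C,
          Polynomial.eval_X, totalLength, List.map_cons, List.sum_cons]
        have : (5 * K + 5) * x.length ≤ (5 * K + 5) * (x.length + (us.map List.length).sum) := by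
          gcongr
          omega
        omega
  · intro x
    rw [Polynomial.eval_X]
    show Pool.Agent.H9.Alt true K x.length (fun us => A (weave x us []) = true) ↔ _
    apply alt9_congr
    intro us hus _
    exact (weaveProg_spec A K x us hus).2.symm

/-! ### Addresses -/

/-- the block of the woven word coming from the leading ones -/
def wv : ℕ → List (List Bool) → List Bool
  | 0, _ => []
  | d + 1, us => wv d (us.map List.tail) ++ (us.map (fun u => u.headD false)).reverse

theorem weave_replicate_false (z : ℕ) : ∀ (us : List (List Bool)) (acc : List Bool),
    weave (List.replicate z false) us acc = List.replicate z false ++ acc := by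
  induction z with
  | zero => intro us acc; rfl
  | succ z ih =>
    intro us acc
    show weave (List.replicate z false) us (false :: acc) = _
    rw [ih, List.replicate_succ', List.append_assoc]
    rfl

theorem weave_eq (d z : ℕ) : ∀ (us : List (List Bool)) (acc : List Bool),
    weave (List.replicate d true ++ List.replicate z false) us acc =
      List.replicate z false ++ (wv d us ++ acc) := by
  induction d with
  | zero => intro us acc; exact weave_replicate_false z us acc
  | succ d ih =>
    intro us acc
    show weave (List.replicate d true ++ List.replicate z false) (us.map List.tail)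
      ((us.map (fun u => u.headD false)).reverse ++ acc) = _
    rw [ih]
    show _ = List.replicate z false ++ ((wv d (us.map List.tail) ++
      (us.map (fun u => u.headD false)).reverse) ++ acc)
    rw [List.append_assoc]

theorem length_wv (d : ℕ) : ∀ us : List (List Bool), (wv d us).length = us.length * d := by
  induction d with
  | zero => intro us; rfl
  | succ d ih =>
    intro us
    show (wv d (us.map List.tail) ++ (us.map (fun u => u.headD false)).reverse).length = _
    rw [List.length_append, ih, List.length_map, List.length_reverse, List.length_map]
    ring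

theorem wv_inj (d : ℕ) : ∀ us us' : List (List Bool), us.length = us'.length →
    (∀ u ∈ us, u.length = d) → (∀ u ∈ us', u.length = d) → wv d us = wv d us' → us = us' := by
  induction d with
  | zero =>
    intro us us' hl h1 h2 _
    have e1 : us = List.replicate us.length [] := by
      rw [List.eq_replicate_iff]
      exact ⟨rfl, fun u hu => List.length_eq_zero_iff.mp (h1 u hu)⟩
    have e2 : us' = List.replicate us'.length [] := by
      rw [List.eq_replicate_iff]
      exact ⟨rfl, fun u hu => List.length_eq_zero_iff.mp (h2 u hu)⟩
    rw [e1, e2, hl]
  | succ d ih =>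
    intro us us' hl h1 h2 h
    have h' : wv d (us.map List.tail) ++ (us.map (fun u => u.headD false)).reverse =
        wv d (us'.map List.tail) ++ (us'.map (fun u => u.headD false)).reverse := h
    have h3 := List.append_inj h' (by rw [length_wv, length_wv, List.length_map, List.length_map, hl])
    have ht := ih (us.map List.tail) (us'.map List.tail) (by simpa using hl)
      (by
        intro u hu
        obtain ⟨v, hv, rfl⟩ := List.mem_map.mp hu
        rw [List.length_tail, h1 v hv]
        rfl)
      (by
        intro u hu
        obtain ⟨v, hv, rfl⟩ := List.mem_map.mp hu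
        rw [List.length_tail, h2 v hv]
        rfl) h3.1
    have hh := List.reverse_injective h3.2
    have hrec : ∀ vs : List (List Bool), (∀ u ∈ vs, u.length = d + 1) →
        vs = List.zipWith (fun (b : Bool) (t : List Bool) => b :: t)
          (vs.map (fun u => u.headD false)) (vs.map List.tail) := by
      intro vs
      induction vs with
      | nil => intro _; rfl
      | cons v vs ihv =>
        intro hv
        have hv1 := hv v (by simp)
        rw [List.map_cons, List.map_cons, List.zipWith_cons_cons,
          ← ihv (fun u hu => hv u (by simp [hu]))]
        cases v with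
        | nil => simp at hv1
        | cons a v => rfl
    rw [hrec us h1, hrec us' h2, hh, ht]

theorem wv_take (d : ℕ) : ∀ us : List (List Bool), wv d us = wv d (us.map (List.take d)) := by
  induction d with
  | zero => intro us; rfl
  | succ d ih =>
    intro us
    show wv d (us.map List.tail) ++ (us.map (fun u => u.headD false)).reverse =
      wv d ((us.map (List.take (d + 1))).map List.tail) ++
        ((us.map (List.take (d + 1))).map (fun u => u.headD false)).reverse
    congr 1
    · rw [ih (us.map List.tail), ih ((us.map (List.take (d + 1))).map List.tail)]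
      congr 1
      rw [List.map_map, List.map_map, List.map_map]
      apply List.map_congr_left
      intro u _
      cases u with
      | nil => rfl
      | cons a u => simp
    · congr 1
      rw [List.map_map]
      apply List.map_congr_left
      intro u _
      cases u with
      | nil => rfl
      | cons a u => rfl

instance Str.fintype (m : ℕ) : Fintype (Str m) := inferInstanceAs (Fintype (List.Vector Bool m))

theorem Str.card (m : ℕ) : Fintype.card (Str m) = 2 ^ m := by
  have := card_vector (α := Bool) m
  rw [Fintype.card_bool] at this
  exact this

/-- one component of an address -/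
abbrev Wd (e : ℕ) := Str e × Str e

/-- the bits of a component -/
def bits {e : ℕ} (w : Wd e) : List Bool := w.1.1 ++ w.2.1

theorem length_bits {e : ℕ} (w : Wd e) : (bits w).length = 2 * e := by
  unfold bits
  rw [List.length_append, w.1.2, w.2.2]
  ring

theorem bits_inj {e : ℕ} {w w' : Wd e} (h : bits w = bits w') : w = w' := by
  unfold bits at h
  obtain ⟨h1, h2⟩ := List.append_inj h (by rw [w.1.2, w'.1.2])
  exact Prod.ext (Subtype.ext h1) (Subtype.ext h2)

/-- reading a component off a block -/
def rd {e n : ℕ} (h : 2 * e ≤ n) (u : Str n) : Wd e :=
  (⟨u.1.take e, by rw [List.length_take, u.2]; omega⟩,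
   ⟨(u.1.drop e).take e, by rw [List.length_take, List.length_drop, u.2]; omega⟩)

theorem bits_rd {e n : ℕ} (h : 2 * e ≤ n) (u : Str n) : bits (rd h u) = u.1.take (2 * e) := by
  unfold bits rd
  simp only
  rw [two_mul, List.take_add]

theorem rd_surj {e n : ℕ} (h : 2 * e ≤ n) : Function.Surjective (rd h) := by
  intro w
  refine ⟨⟨bits w ++ List.replicate (n - 2 * e) false, ?_⟩, ?_⟩
  · rw [List.length_append, length_bits, List.length_replicate]
    omega
  · apply bits_inj
    rw [bits_rd]
    simp only
    rw [List.take_append_of_le_length (by rw [length_bits])]
    rw [List.take_of_length_le (by rw [length_bits])]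

/-- the word with a given address -/
def code (e z : ℕ) {K : ℕ} (l : Path (Wd e) K) : List Bool :=
  List.replicate z false ++ wv (2 * e) (l.toList.map bits)

theorem length_code (e z : ℕ) {K : ℕ} (l : Path (Wd e) K) :
    (code e z l).length = z + K * (2 * e) := by
  unfold code
  rw [List.length_append, List.length_replicate, length_wv, List.length_map, Path.length_toList]

theorem code_inj (e z : ℕ) {K : ℕ} : Function.Injective (code e z (K := K)) := by
  intro l l' h
  unfold code at h
  have h1 := (List.append_inj h rfl).2
  have h2 := wv_inj (2 * e) _ _ (by
    rw [List.length_map, List.length_map, Path.length_toList, Path.length_toList])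
    (by
      intro u hu
      obtain ⟨w, -, rfl⟩ := List.mem_map.mp hu
      exact length_bits w)
    (by
      intro u hu
      obtain ⟨w, -, rfl⟩ := List.mem_map.mp hu
      exact length_bits w) h1
  apply Path.toList_inj
  exact List.map_injective_iff.mpr (fun _ _ h => bits_inj h) h2

/-- the script -/
def script (e z : ℕ) : List Bool := List.replicate (2 * e) true ++ List.replicate z false

theorem length_script (e z : ℕ) : (script e z).length = 2 * e + z := by
  unfold script
  rw [List.length_append, List.length_replicate, List.length_replicate]

/-- membership in the test language in terms of the tree of addresses -/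
theorem script_mem (e z K : ℕ) (O : Oracle) :
    script e z ∈ Lng K O ↔ Alt (Wd e) true K (fun l => O (code e z l) = true) := by
  show Pool.Agent.H9.Alt true K (script e z).length (fun us => O (weave (script e z) us []) = true) ↔ _
  rw [alt_bridge, length_script]
  have h : 2 * e ≤ 2 * e + z := by omega
  refine Iff.trans ?_ (Alt_map (rd h) (rd_surj h) true K
    (fun ws => O (List.replicate z false ++ wv (2 * e) (ws.map bits)) = true))
  apply Alt_congr
  intro l
  rw [script, weave_eq, List.append_nil, wv_take, List.map_map, List.map_map]
  have : List.map (List.take (2 * e) ∘ Subtype.val) l.toList = List.map (bits ∘ rd h) l.toList := by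
    apply List.map_congr_left
    intro u _
    exact (bits_rd h u).symm
  rw [this]

/-! ### The finite lower bound -/

/-- a bounded computation relative to a join depends on few bits of the first oracle -/
theorem loc_accepts {V : Type} (O : (V → Bool) → Oracle) (cd : V → List Bool)
    (hcd : Function.Injective cd)
    (hO : ∀ β β' w, (∀ v, cd v = w → β v = β' v) → O β w = O β' w)
    (B : Oracle) (p : Prog) (xs : List (List Bool)) (τ : ℕ) :
    Loc τ (fun β => AcceptsIn (join (O β) B) p xs τ) := by
  classical
  intro β
  obtain ⟨Q, hQ, hQ2⟩ := run_local (join (O β) B) τ (start p xs)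
  have hinj : Function.Injective (fun v => false :: cd v) := by
    intro v v' h
    exact hcd (List.cons_injective h)
  refine ⟨Q.preimage (fun v => false :: cd v) hinj.injOn, ?_, ?_⟩
  · refine le_trans ?_ hQ
    apply Finset.card_le_card_of_injOn (fun v => false :: cd v)
    · intro v hv
      rw [Finset.mem_coe, Finset.mem_preimage] at hv
      exact hv
    · exact hinj.injOn
  · intro β' hβ'
    have hrun : run (join (O β') B) p xs τ = run (join (O β) B) p xs τ := by
      apply hQ2
      intro w hw
      cases w with
      | nil => rfl
      | cons b w =>
        cases b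
        · show O β' w = O β w
          apply hO
          intro v hv
          apply hβ'
          rw [Finset.mem_preimage, hv]
          exact hw
        · rfl
    show AcceptsIn _ _ _ _ ↔ AcceptsIn _ _ _ _
    unfold AcceptsIn
    rw [hrun]

/-- splitting off the outermost component -/
def Path.uncons {X : Type} : {k : ℕ} → Path X (k + 1) → X × Path X k
  | 0, l => (l.last, Path.nil)
  | _ + 1, l => ((Path.uncons l.init).1, (Path.uncons l.init).2.snoc l.last)

theorem Path.uncons_cons {X : Type} (x : X) : {k : ℕ} → (l : Path X k) →
    Path.uncons (Path.cons x l) = (x, l)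
  | 0, _ => rfl
  | k + 1, l => by
    show ((Path.uncons (Path.cons x l.init)).1, (Path.uncons (Path.cons x l.init)).2.snoc l.last) = _
    rw [Path.uncons_cons x l.init]
    rfl

theorem Path.cons_uncons {X : Type} : {k : ℕ} → (l : Path X (k + 1)) →
    Path.cons (Path.uncons l).1 (Path.uncons l).2 = l
  | 0, _ => rfl
  | k + 1, l => by
    show (Path.cons (Path.uncons l.init).1 (Path.uncons l.init).2).snoc l.last = l
    rw [Path.cons_uncons l.init]
    rfl

theorem Path.cons_inj {X : Type} {k : ℕ} {x x' : X} {l l' : Path X k}
    (h : Path.cons x l = Path.cons x' l') : x = x' ∧ l = l' := by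
  have := congrArg Path.uncons h
  rw [Path.uncons_cons, Path.uncons_cons] at this
  exact Prod.mk.inj this

theorem Alt_false {X : Type} [Nonempty X] (b : Bool) (k : ℕ) :
    ¬ Alt X b k (fun _ => False) := by
  induction k with
  | zero => exact fun h => h
  | succ k ih =>
    intro h
    apply ih
    refine (Alt_congr b k ?_).mp h
    intro l
    cases qty b k <;> simp [quant]

instance (e : ℕ) : Nonempty (Str e) := ⟨⟨List.replicate e false, by simp⟩⟩

/-- **Finite lower bound.**  If the numerical condition holds, the bits of the oracle at the
`2 ^ (2 e (k + 1))` words `code e z l` can be set so that the given machine with `k` alternating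
blocks errs on `script e z`, whatever the other bits and the side oracle `B` are. -/
theorem finite_lower (k e z m τ t : ℕ) (B base : Oracle) (p : Prog) (ht : m * k + 2 + τ ≤ t)
    (he : (8 * t + 1) * (2 * e * k + 2) ≤ 2 ^ e) :
    ∃ α : Path (Wd e) (k + 1) → Bool, ∀ O : Oracle, (∀ l, O (code e z l) = α l) →
      (∀ w, (∀ l : Path (Wd e) (k + 1), code e z l ≠ w) → O w = base w) →
      ¬ (script e z ∈ Lng (k + 1) O ↔ Pool.Agent.H9.Alt true k m
        (fun us => AcceptsIn (join O B) p (script e z :: us) τ)) := by
  classical
  -- the oracle given by an assignment of the address words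
  let Or : (Path (Wd e) (k + 1) → Bool) → Oracle := fun α w =>
    if h : ∃ l : Path (Wd e) (k + 1), code e z l = w then α h.choose else base w
  have hOr1 : ∀ α l, Or α (code e z l) = α l := by
    intro α l
    have h : ∃ l' : Path (Wd e) (k + 1), code e z l' = code e z l := ⟨l, rfl⟩
    simp only [Or]
    rw [dif_pos h]
    congr 1
    exact code_inj e z h.choose_spec
  have hOr2 : ∀ α w, (∀ l : Path (Wd e) (k + 1), code e z l ≠ w) → Or α w = base w := by
    intro α w h
    simp only [Or]
    rw [dif_neg]
    rintro ⟨l, hl⟩
    exact h l hl
  have huniq : ∀ α (O : Oracle), (∀ l, O (code e z l) = α l) →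
      (∀ w, (∀ l : Path (Wd e) (k + 1), code e z l ≠ w) → O w = base w) → O = Or α := by
    intro α O h1 h2
    funext w
    by_cases h : ∃ l : Path (Wd e) (k + 1), code e z l = w
    · obtain ⟨l, rfl⟩ := h
      rw [h1, hOr1]
    · push Not at h
      rw [h2 w h, hOr2 α w h]
  suffices hmain : ∃ α, ¬ (Alt (Wd e) true (k + 1) (fun l => α l = true) ↔
      Alt (Str m) true k
        (fun l => AcceptsIn (join (Or α) B) p (script e z :: l.toList.map Subtype.val) τ)) by
    obtain ⟨α, hα⟩ := hmain
    refine ⟨α, ?_⟩
    intro O h1 h2 hiff
    apply hα
    have := huniq α O h1 h2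
    subst this
    rw [script_mem, alt_bridge] at hiff
    rw [← hiff]
    apply Alt_congr
    intro l
    rw [hOr1]
  have hte : t < 2 ^ e := by
    calc t < 8 * t + 1 := by omega
      _ ≤ (8 * t + 1) * (2 * e * k + 2) := Nat.le_mul_of_pos_right _ (by omega)
      _ ≤ 2 ^ e := he
  have hcW : 2 ^ e ≤ Fintype.card (Wd e) := by
    rw [Fintype.card_prod, Str.card]
    exact Nat.le_mul_of_pos_right _ (by positivity)
  rcases Nat.eq_zero_or_pos k with hk | hk
  · -- no blocks: a decision tree of depth `τ` against a disjunction
    subst hk
    have hloc := loc_accepts Or (fun l => code e z l) (code_inj e z) (by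
      intro β β' w h
      by_cases hw : ∃ l : Path (Wd e) (0 + 1), code e z l = w
      · obtain ⟨l, rfl⟩ := hw
        rw [hOr1, hOr1]
        exact h l rfl
      · push Not at hw
        rw [hOr2 β w hw, hOr2 β' w hw]) B p [script e z] τ
    by_cases hacc : AcceptsIn (join (Or (fun _ => false)) B) p [script e z] τ
    · refine ⟨fun _ => false, ?_⟩
      intro hiff
      obtain ⟨w, hw⟩ : ∃ w : Wd e, false = true := hiff.mpr hacc
      exact absurd hw (by decide)
    · obtain ⟨Q, hQ, hQ2⟩ := hloc (fun _ => false)
      have hex : ∃ l : Path (Wd e) (0 + 1), l ∉ Q := by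
        by_contra hcon
        push Not at hcon
        have h1 : Fintype.card (Path (Wd e) (0 + 1)) ≤ Q.card := by
          rw [← Finset.card_univ]
          exact Finset.card_le_card (fun l _ => hcon l)
        have h1' : Fintype.card (Wd e) ≤ Q.card := by
          rw [Path.card] at h1
          simpa using h1
        omega
      obtain ⟨l0, hl0⟩ := hex
      refine ⟨fun l => decide (l = l0), ?_⟩
      intro hiff
      have hT : Alt (Wd e) true (0 + 1) (fun l => decide (l = l0) = true) :=
        ⟨l0.last, by
          show decide (l0.init.snoc l0.last = l0) = true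
          simp⟩
      have h2 := hiff.mp hT
      have h3 := (hQ2 (fun l => decide (l = l0)) (by
        intro l hl
        have : l ≠ l0 := fun h => hl0 (h ▸ hl)
        simp [this])).mp h2
      exact hacc h3
  · obtain ⟨k', rfl⟩ : ∃ k', k = k' + 1 := ⟨k - 1, by omega⟩
    obtain ⟨w0⟩ : Nonempty (Wd e) := inferInstance
    have hhard := hierarchy_bits (U := Str m) (M := Str e) (g := Str e) (J := Wd e)
      (t := t) (q := m) (K := k' + 1) (e := e) (by rw [Str.card]) (Str.card e) (Str.card e) hcW
      (by omega) he false k' (by omega)
    -- embed the `Pi` tree below the first branch of the `Sigma` tree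
    let emb : (Path (Wd e) k' × Wd e → Bool) → (Path (Wd e) (k' + 1 + 1) → Bool) :=
      fun β l => decide ((Path.uncons l).1 = w0) &&
        β ((Path.uncons l).2.init, (Path.uncons l).2.last)
    obtain ⟨β, hβ⟩ := hhard
      (fun u β => AcceptsIn (join (Or (emb β)) B) p (script e z :: u.toList.map Subtype.val) τ) (by
        intro u
        have hl := loc_accepts (fun β => Or (emb β))
          (fun v : Path (Wd e) k' × Wd e => code e z (Path.cons w0 (v.1.snoc v.2))) (by
            intro v v' h
            have h1 := Path.cons_inj (code_inj e z h)
            have h2 := Path.snoc_inj h1.2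
            exact Prod.ext h2.1 h2.2) (by
            intro β β' w h
            by_cases hw : ∃ l : Path (Wd e) (k' + 1 + 1), code e z l = w
            · obtain ⟨l, rfl⟩ := hw
              rw [hOr1, hOr1]
              simp only [emb]
              by_cases hl : (Path.uncons l).1 = w0
              · have := h ((Path.uncons l).2.init, (Path.uncons l).2.last) (by
                  simp only
                  congr 1
                  rw [Path.snoc_init_last, ← hl, Path.cons_uncons])
                rw [this]
              · simp [hl]
            · push Not at hw
              rw [hOr2 _ w hw, hOr2 _ w hw]) B p (script e z :: u.toList.map Subtype.val) τ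
        exact hl.mono (by omega))
    refine ⟨emb β, ?_⟩
    intro hiff
    apply hβ
    have h1 : Alt (Wd e) true (k' + 1 + 1) (fun l => emb β l = true) ↔ Tgt (Wd e) (Wd e) false k' β := by
      rw [Alt_cons]
      have h2 : ∀ x : Wd e, Alt (Wd e) (!true) (k' + 1) (fun l => emb β (Path.cons x l) = true) ↔
          (x = w0 ∧ Tgt (Wd e) (Wd e) false k' β) := by
        intro x
        by_cases hx : x = w0
        · subst hx
          simp only [true_and]
          show Alt (Wd e) false k' (fun l => quant (qty false k')
            (fun y => emb β (Path.cons x (l.snoc y)) = true)) ↔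
            Alt (Wd e) false k' (fun l => quant (qty false k') (fun y => β (l, y) = true))
          apply Alt_congr
          intro l
          apply quant_congr
          intro y
          simp only [emb]
          rw [Path.uncons_cons]
          simp
        · simp only [hx, false_and, iff_false]
          intro h
          apply Alt_false (X := Wd e) (!true) (k' + 1)
          refine (Alt_congr _ _ ?_).mp h
          intro l
          simp only [emb]
          rw [Path.uncons_cons]
          simp [hx]
      constructor
      · rintro ⟨x, hx⟩
        exact ((h2 x).mp hx).2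
      · intro h
        exact ⟨w0, (h2 w0).mpr ⟨rfl, h⟩⟩
    rw [← h1]
    exact hiff

end Pool.Agent.H8
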