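import Pool.Agent.H8.Form
import Pool.Agent.H8.Thresh
import Pool.Agent.H9.Run
import Pool.Agent.H9.DT

set_option autoImplicit false
set_option linter.unusedSectionVars false

/-!
# Formulas from alternating computations, and paths from formulas
-/

namespace Pool.Agent.H8h

open Finset
open Pool.Agent.H9 (DTP strings mem_strings card_strings)
open Pool.Agent.H8 (Path Alt_cons Alt_congr Alt_not Alt_false quant)

variable {α : Type}

/-- Adding a literal to all the terms. -/
theorem Cl.lit {ok : ℕ → α → Bool → Prop} {w S h : ℕ} {f : (α → Bool) → Prop}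
    (hf : Cl ok w S (h + 1) f) {a : α} {s : Bool} (ha : ok (h + 1) a s) :
    Cl ok (w + 1) S (h + 1) (fun ω => ω a = s ∧ f ω) := by
  classical
  cases hf with
  | @node _ ι D as g hD has hg =>
  refine (Cl.node D (fun i => insert (a, s) (as i)) g hD ?_ ?_).congr ?_
  · intro i hi
    refine ⟨(Finset.card_insert_le _ _).trans (Nat.add_le_add_right (has i hi).1 1), ?_⟩
    intro l hl
    rcases Finset.mem_insert.1 hl with rfl | hl
    · exact ha
    · exact (has i hi).2 l hl
  · intro i hi
    exact (hg i hi).mono (fun _ _ _ h => h) (Nat.le_succ w) le_rfl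
  · intro ω
    constructor
    · rintro ⟨i, hi, h1, h2⟩
      exact ⟨h1 (a, s) (Finset.mem_insert_self _ _), i, hi,
        fun l hl => h1 l (Finset.mem_insert_of_mem hl), h2⟩
    · rintro ⟨h0, i, hi, h1, h2⟩
      refine ⟨i, hi, ?_, h2⟩
      intro l hl
      rcases Finset.mem_insert.1 hl with rfl | hl
      · exact h0
      · exact h1 l hl

/-- Renaming of the literals on a set of worlds. -/
theorem Cl.relit {α' : Type} {Wd : Type} (old : Wd → α → Bool) (new : Wd → α' → Bool)
    {ok : ℕ → α → Bool → Prop} {ok' : ℕ → α' → Bool → Prop} {w S : ℕ}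
    (hlit : ∀ h a s, 1 ≤ h → ok h a s → ∃ l : α' × Bool, ok' h l.1 l.2 ∧
      ∀ z : Wd, old z a = s ↔ new z l.1 = l.2) {h : ℕ} {f : (α → Bool) → Prop}
    (hf : Cl ok w S h f) :
    ∃ f' : (α' → Bool) → Prop, Cl ok' w S h f' ∧ ∀ z : Wd, f (old z) ↔ f' (new z) := by
  classical
  induction hf with
  | bot => exact ⟨_, Cl.bot, fun _ => Iff.rfl⟩
  | @node h ι D as g hD has _ ih =>
    choose! g' hg1 hg2 using ih
    have hlit' : ∀ l : α × Bool, ok (h + 1) l.1 l.2 → ∃ l' : α' × Bool, ok' (h + 1) l'.1 l'.2 ∧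
        ∀ z : Wd, old z l.1 = l.2 ↔ new z l'.1 = l'.2 :=
      fun l hl => hlit (h + 1) l.1 l.2 (by omega) hl
    rcases isEmpty_or_nonempty (α' × Bool) with hemp | hne
    · -- no literals at all
      have hno : ∀ i ∈ D, as i = ∅ := by
        intro i hi
        rw [Finset.eq_empty_iff_forall_notMem]
        intro l hl
        obtain ⟨l', _⟩ := hlit' l ((has i hi).2 l hl)
        exact hemp.elim l'
      refine ⟨_, Cl.node D (fun _ => ∅) g' hD (fun i _ => ⟨by simp, by simp⟩) hg1, ?_⟩
      intro z
      apply exists_congr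
      intro i
      apply and_congr_right
      intro hi
      rw [hg2 i hi z, hno i hi]
      simp
    choose! φ hφ1 hφ2 using hlit'
    refine ⟨_, Cl.node D (fun i => (as i).image φ) g' hD ?_ hg1, ?_⟩
    · intro i hi
      refine ⟨Finset.card_image_le.trans (has i hi).1, ?_⟩
      intro l hl
      obtain ⟨l0, hl0, rfl⟩ := Finset.mem_image.1 hl
      exact hφ1 l0 ((has i hi).2 l0 hl0)
    · intro z
      apply exists_congr
      intro i
      apply and_congr_right
      intro hi
      rw [hg2 i hi z]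
      apply and_congr_left
      intro _
      constructor
      · intro h1 l hl
        obtain ⟨l0, hl0, rfl⟩ := Finset.mem_image.1 hl
        exact (hφ2 l0 ((has i hi).2 l0 hl0) z).1 (h1 l0 hl0)
      · intro h1 l hl
        exact (hφ2 l ((has i hi).2 l hl) z).2 (h1 (φ l) (Finset.mem_image_of_mem _ hl))

/-- Decision trees at the lowest height. -/
theorem dtp_cl {ok : ℕ → α → Bool → Prop} {Q : Set α} (hok : ∀ q ∈ Q, ∀ s, ok 1 q s) {n : ℕ}
    {f : (α → Bool) → Prop} (hf : DTP Q n f) : Cl ok n (2 ^ n) 1 f := by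
  induction hf with
  | const n P =>
    by_cases hP : P
    · exact (Cl.true Nat.one_le_two_pow).congr (fun ω => by simp [hP])
    · exact Cl.false.congr (fun ω => by simp [hP])
  | node n q hq f g _ _ ihf ihg =>
    have h1 := ihf.lit (hok q hq true)
    have h2 := ihg.lit (hok q hq false)
    refine ((h1.or h2).mono (fun _ _ _ h => h) (by simp) (by rw [pow_succ]; omega)).congr ?_
    intro ω
    exact Iff.rfl

/-- Decision trees at all heights. -/
theorem dtp_cl_all {ok : ℕ → α → Bool → Prop} {Q : Set α} (hok : ∀ q ∈ Q, ∀ s, ok 1 q s) {n : ℕ}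
    (j : ℕ) : ∀ {f : (α → Bool) → Prop}, DTP Q n f → Cl ok n (2 ^ n) (j + 1) f := by
  induction j with
  | zero => intro f hf; exact dtp_cl hok hf
  | succ j ih =>
    intro f hf
    exact ((ih hf.not).not Nat.one_le_two_pow).congr (fun ω => by simp)

theorem alt9_not (k m : ℕ) : ∀ (ex : Bool) (φ : List (List Bool) → Prop),
    ¬ Pool.Agent.H9.Alt ex k m φ ↔ Pool.Agent.H9.Alt (!ex) k m (fun us => ¬ φ us) := by
  induction k with
  | zero => intro ex φ; exact Iff.rfl
  | succ k ih =>
    intro ex φ
    cases ex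
    · show ¬ (∀ u : List Bool, u.length = m → Pool.Agent.H9.Alt true k m (fun us => φ (u :: us))) ↔
        ∃ u : List Bool, u.length = m ∧
          Pool.Agent.H9.Alt false k m (fun us => ¬ φ (u :: us))
      push Not
      apply exists_congr
      intro u
      apply and_congr_right
      intro _
      exact ih true _
    · show ¬ (∃ u : List Bool, u.length = m ∧ Pool.Agent.H9.Alt false k m (fun us => φ (u :: us))) ↔
        ∀ u : List Bool, u.length = m →
          Pool.Agent.H9.Alt true k m (fun us => ¬ φ (u :: us))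
      push Not
      apply forall_congr'
      intro u
      apply imp_congr_right
      intro _
      exact ih false _

/-- Alternations of decision trees are formulas. -/
theorem alt_cl {ok : ℕ → α → Bool → Prop} {Q : Set α} (hok : ∀ q ∈ Q, ∀ s, ok 1 q s) (m t : ℕ)
    (k : ℕ) : ∀ (φ : List (List Bool) → (α → Bool) → Prop),
      (∀ us : List (List Bool), us.map List.length = List.replicate k m → DTP Q t (φ us)) →
      (∀ j, k + 1 ≤ j → Cl ok t (2 ^ t * (2 ^ m + 1) ^ k) j
        (fun ω => Pool.Agent.H9.Alt false k m (fun us => φ us ω))) ∧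
      (∀ j, 1 ≤ j → k ≤ j → Cl ok t (2 ^ t * (2 ^ m + 1) ^ k) j
        (fun ω => Pool.Agent.H9.Alt true k m (fun us => φ us ω))) := by
  induction k with
  | zero =>
    intro φ hφ
    have h0 : ∀ j, 1 ≤ j → Cl ok t (2 ^ t * (2 ^ m + 1) ^ 0) j (fun ω => φ [] ω) := by
      intro j hj
      obtain ⟨j', rfl⟩ : ∃ j', j = j' + 1 := ⟨j - 1, by omega⟩
      rw [pow_zero, mul_one]
      exact dtp_cl_all hok j' (hφ [] rfl)
    exact ⟨fun j hj => h0 j (by omega), fun j hj _ => h0 j hj⟩
  | succ k ih =>
    intro φ hφ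
    have hch : ∀ u : List Bool, u.length = m → ∀ us : List (List Bool),
        us.map List.length = List.replicate k m → DTP Q t (φ (u :: us)) := by
      intro u hu us hus
      apply hφ
      rw [List.map_cons, hus, hu, List.replicate_succ]
    have hpos : 1 ≤ 2 ^ t * (2 ^ m + 1) ^ (k + 1) :=
      Nat.mul_pos (Nat.pow_pos (by norm_num)) (Nat.pow_pos (Nat.succ_pos _))
    have hsz : 2 ^ t * (2 ^ m + 1) ^ k * ((strings m).card + 1) ≤
        2 ^ t * (2 ^ m + 1) ^ (k + 1) := by
      rw [card_strings, mul_assoc, ← pow_succ]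
    constructor
    · intro j hj
      obtain ⟨j', rfl⟩ : ∃ j', j = j' + 1 := ⟨j - 1, by omega⟩
      have h1 := Cl.any (ok := ok) (w := t) (S := 2 ^ t * (2 ^ m + 1) ^ k) (h := j') (strings m)
        (fun u ω => Pool.Agent.H9.Alt false k m (fun us => ¬ φ (u :: us) ω)) (by
          intro u hu
          exact (ih (fun us ω => ¬ φ (u :: us) ω)
            (fun us hus => (hch u (mem_strings.1 hu) us hus).not)).1 j' (by omega))
      refine ((h1.mono (fun _ _ _ h => h) le_rfl hsz).not hpos).congr ?_
      intro ω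
      show (¬ ∃ b ∈ strings m, Pool.Agent.H9.Alt false k m (fun us => ¬ φ (b :: us) ω)) ↔
        ∀ u : List Bool, u.length = m → Pool.Agent.H9.Alt true k m (fun us => φ (u :: us) ω)
      push Not
      apply forall_congr'
      intro u
      rw [mem_strings]
      apply imp_congr_right
      intro _
      rw [← not_iff_not, not_not, alt9_not k m true]
      rfl
    · intro j hj1 hj2
      have h1 := Cl.any (ok := ok) (w := t) (S := 2 ^ t * (2 ^ m + 1) ^ k) (h := j) (strings m)
        (fun u ω => Pool.Agent.H9.Alt false k m (fun us => φ (u :: us) ω)) (by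
          intro u hu
          exact (ih (fun us ω => φ (u :: us) ω) (hch u (mem_strings.1 hu))).1 j hj2)
      refine (h1.mono (fun _ _ _ h => h) le_rfl hsz).congr ?_
      intro ω
      show (∃ b ∈ strings m, Pool.Agent.H9.Alt false k m (fun us => φ (b :: us) ω)) ↔
        ∃ u : List Bool, u.length = m ∧ Pool.Agent.H9.Alt false k m (fun us => φ (u :: us) ω)
      apply exists_congr
      intro u
      rw [mem_strings]

/-! ### Paths -/

theorem alt_and {X : Type} [Nonempty X] (b : Bool) (k : ℕ) (c : Prop) (P : Path X k → Prop) :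
    Pool.Agent.H8.Alt X b k (fun l => c ∧ P l) ↔ (c ∧ Pool.Agent.H8.Alt X b k P) := by
  by_cases hc : c
  · simp only [hc, true_and]
  · simp only [hc, false_and]
    exact iff_false_intro (Alt_false b k)

/-- The matrix of a formula. -/
theorem path_of_cl {ok : ℕ → α → Bool → Prop} {w S N : ℕ} [NeZero N] (hSN : S ≤ N) {k : ℕ}
    {f : (α → Bool) → Prop} (hf : Cl ok w S k f) :
    ∃ G : Path (Fin N) k → (α → Bool) → Prop,
      (∀ l, ∃ Q : Finset α, Q.card ≤ k * w ∧ (∀ a ∈ Q, ∃ h s, 1 ≤ h ∧ h ≤ k ∧ ok h a s) ∧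
        ∀ ω ω' : α → Bool, (∀ a ∈ Q, ω a = ω' a) → (G l ω ↔ G l ω')) ∧
      ∀ ω, f ω ↔ Pool.Agent.H8.Alt (Fin N) true k (fun l => G l ω) := by
  classical
  induction hf with
  | bot =>
    refine ⟨fun _ _ => False, ?_, fun ω => Iff.rfl⟩
    intro _
    exact ⟨∅, by simp, by simp, fun _ _ _ => Iff.rfl⟩
  | @node k ι D as g hD has _ ih =>
    choose! G hG1 hG2 using ih
    have hDN : D.card ≤ N := hD.trans hSN
    let idx : (x : Fin N) → x.1 < D.card → ι := fun x hx => (D.equivFin.symm ⟨x.1, hx⟩).1
    have hidx : ∀ (x : Fin N) (hx : x.1 < D.card), idx x hx ∈ D := fun x hx =>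
      (D.equivFin.symm ⟨x.1, hx⟩).2
    have hsurj : ∀ i ∈ D, ∃ (x : Fin N) (hx : x.1 < D.card), idx x hx = i := by
      intro i hi
      refine ⟨⟨(D.equivFin ⟨i, hi⟩).1, lt_of_lt_of_le (D.equivFin ⟨i, hi⟩).2 hDN⟩,
        (D.equivFin ⟨i, hi⟩).2, ?_⟩
      show (D.equivFin.symm ⟨(D.equivFin ⟨i, hi⟩).1, _⟩).1 = i
      rw [Fin.eta, Equiv.symm_apply_apply]
    refine ⟨fun l ω => ∃ hx : (Path.uncons l).1.1 < D.card,
      (∀ a ∈ as (idx (Path.uncons l).1 hx), ω a.1 = a.2) ∧
        ¬ G (idx (Path.uncons l).1 hx) (Path.uncons l).2 ω, ?_, ?_⟩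
    · intro l
      by_cases hx : (Path.uncons l).1.1 < D.card
      · have hi := hidx (Path.uncons l).1 hx
        obtain ⟨Q, hQ1, hQ2, hQ3⟩ := hG1 _ hi (Path.uncons l).2
        refine ⟨(as (idx (Path.uncons l).1 hx)).image Prod.fst ∪ Q, ?_, ?_, ?_⟩
        · refine (Finset.card_union_le _ _).trans ?_
          have h1 := (Finset.card_image_le (s := as (idx (Path.uncons l).1 hx))
            (f := Prod.fst)).trans (has _ hi).1
          calc _ ≤ w + k * w := Nat.add_le_add h1 hQ1
            _ = (k + 1) * w := by ring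
        · intro a ha
          rcases Finset.mem_union.1 ha with ha | ha
          · obtain ⟨b, hb, rfl⟩ := Finset.mem_image.1 ha
            exact ⟨k + 1, b.2, by omega, le_rfl, (has _ hi).2 b hb⟩
          · obtain ⟨h, s, e1, e2, e3⟩ := hQ2 a ha
            exact ⟨h, s, e1, by omega, e3⟩
        · intro ω ω' hag
          have e1 : (∀ a ∈ as (idx (Path.uncons l).1 hx), ω a.1 = a.2) ↔
              ∀ a ∈ as (idx (Path.uncons l).1 hx), ω' a.1 = a.2 := by
            apply forall_congr'; intro a
            apply forall_congr'; intro ha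
            rw [hag a.1 (Finset.mem_union_left _ (Finset.mem_image_of_mem _ ha))]
          have e2 := hQ3 ω ω' (fun a ha => hag a (Finset.mem_union_right _ ha))
          constructor
          · rintro ⟨_, h1, h2⟩
            exact ⟨hx, e1.1 h1, fun h => h2 (e2.2 h)⟩
          · rintro ⟨_, h1, h2⟩
            exact ⟨hx, e1.2 h1, fun h => h2 (e2.1 h)⟩
      · refine ⟨∅, by simp, by simp, ?_⟩
        intro ω ω' _
        constructor
        · rintro ⟨h, _⟩
          exact absurd h hx
        · rintro ⟨h, _⟩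
          exact absurd h hx
    · intro ω
      rw [Alt_cons]
      show (∃ i ∈ D, (∀ l ∈ as i, ω l.1 = l.2) ∧ ¬ g i ω) ↔
        ∃ x : Fin N, Pool.Agent.H8.Alt (Fin N) false k (fun l =>
          ∃ hx : (Path.uncons (Path.cons x l)).1.1 < D.card,
          (∀ a ∈ as (idx (Path.uncons (Path.cons x l)).1 hx), ω a.1 = a.2) ∧
            ¬ G (idx (Path.uncons (Path.cons x l)).1 hx) (Path.uncons (Path.cons x l)).2 ω)
      have hx1 : ∀ (x : Fin N) (hx : x.1 < D.card), Pool.Agent.H8.Alt (Fin N) false k (fun l =>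
          ∃ hx : (Path.uncons (Path.cons x l)).1.1 < D.card,
          (∀ a ∈ as (idx (Path.uncons (Path.cons x l)).1 hx), ω a.1 = a.2) ∧
            ¬ G (idx (Path.uncons (Path.cons x l)).1 hx) (Path.uncons (Path.cons x l)).2 ω) ↔
          ((∀ a ∈ as (idx x hx), ω a.1 = a.2) ∧ ¬ g (idx x hx) ω) := by
        intro x hx
        rw [hG2 _ (hidx x hx) ω, Alt_not, ← alt_and]
        apply Alt_congr
        intro l
        rw [Path.uncons_cons]
        constructor
        · rintro ⟨_, h⟩
          exact h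
        · intro h
          exact ⟨hx, h⟩
      constructor
      · rintro ⟨i, hi, h⟩
        obtain ⟨x, hx, rfl⟩ := hsurj i hi
        exact ⟨x, (hx1 x hx).2 h⟩
      · rintro ⟨x, h⟩
        by_cases hx : x.1 < D.card
        · exact ⟨idx x hx, hidx x hx, (hx1 x hx).1 h⟩
        · exfalso
          apply Alt_false (X := Fin N) false k
          refine (Alt_congr _ _ ?_).1 h
          intro l
          rw [Path.uncons_cons]
          constructor
          · rintro ⟨h, _⟩
            exact hx h
          · exact fun h => h.elim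

end Pool.Agent.H8h
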