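import Pool.Agent.H8.Generic
import Pool.Agent.H9.Classes

set_option autoImplicit false

/-!
The other half of the threshold theorem: oracles of polynomially bounded census. One side oracle
evaluates all machines of the hierarchy on tables, and a `Sigma_2` machine guesses the table and
verifies it.
-/

namespace Pool.Agent.H8c

open Pool.Agent.H9
open Pool.Agent.H8 (Str Census xorO Sparse alt9_congr totalLength_eq)

/-! ### Tables -/

/-- a list of at most `s i` strings of length `i`, for every `i ≤ r` -/
abbrev Tab (s : ℕ → ℕ) (r : ℕ) := (i : Fin (r + 1)) → Fin (s i) → Option (Str i)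

open Classical in
/-- the oracle given by a table -/
noncomputable def tabOracle {s : ℕ → ℕ} {r : ℕ} (t : Tab s r) : Oracle := fun w =>
  if h : w.length < r + 1 then decide (∃ j, t ⟨w.length, h⟩ j = some ⟨w, rfl⟩) else false

theorem tab_exists {s : ℕ → ℕ} {D : Oracle} (hD : Census s D) (r : ℕ) :
    ∃ t : Tab s r, ∀ w : List Bool, w.length ≤ r → tabOracle t w = D w := by
  classical
  have h : ∀ i : ℕ, ∃ f : Fin (s i) → Option (Str i),
      ∀ w : Str i, (∃ j, f j = some w) ↔ D w.1 = true := by
    intro i
    set S : Finset (Str i) := Finset.univ.filter (fun w => D w.1 = true) with hS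
    have hcard : S.card ≤ s i := by
      have h1 := hD i
      have h2 : {w : List Bool | w.length = i ∧ D w = true} =
          Subtype.val '' (S : Set (Str i)) := by
        ext w
        constructor
        · rintro ⟨h1, h2⟩
          exact ⟨⟨w, h1⟩, by simp [hS, h2], rfl⟩
        · rintro ⟨v, hv, rfl⟩
          refine ⟨v.2, ?_⟩
          simpa [hS] using hv
      rw [h2, Set.ncard_image_of_injective _ Subtype.val_injective, Set.ncard_coe_finset] at h1
      exact h1
    refine ⟨fun j => S.toList[(j : ℕ)]?, ?_⟩
    intro w
    constructor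
    · rintro ⟨j, hj⟩
      have : w ∈ S.toList := List.mem_of_getElem? hj
      rw [Finset.mem_toList] at this
      simpa [hS] using this
    · intro hw
      have : w ∈ S.toList := by rw [Finset.mem_toList]; simp [hS, hw]
      obtain ⟨j, hj⟩ := List.mem_iff_getElem?.mp this
      have hlt : j < S.toList.length := (List.getElem?_eq_some_iff.mp hj).1
      rw [Finset.length_toList] at hlt
      exact ⟨⟨j, by omega⟩, hj⟩
  choose f hf using h
  refine ⟨fun i => f i, ?_⟩
  intro w hw
  unfold tabOracle
  rw [dif_pos (by omega)]
  have := hf w.length ⟨w, rfl⟩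
  rw [Bool.eq_iff_iff, decide_eq_true_eq]
  exact this

theorem tab_card (s : ℕ → ℕ) (r : ℕ) :
    Fintype.card (Tab s r) ≤ 2 ^ (∑ i : Fin (r + 1), (i.1 + 1) * s i) := by
  classical
  rw [Fintype.card_pi]
  calc ∏ i : Fin (r + 1), Fintype.card (Fin (s i) → Option (Str i))
      = ∏ i : Fin (r + 1), (2 ^ i.1 + 1) ^ (s i) := by
        apply Finset.prod_congr rfl
        intro i _
        rw [Fintype.card_fun, Fintype.card_option, Pool.Agent.H8.Str.card, Fintype.card_fin]
    _ ≤ ∏ i : Fin (r + 1), 2 ^ ((i.1 + 1) * s i) := by
        apply Finset.prod_le_prod'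
        intro i _
        rw [pow_mul]
        apply Nat.pow_le_pow_left
        have := Nat.one_le_two_pow (n := i.1)
        rw [pow_succ]
        omega
    _ = _ := by rw [Finset.prod_pow_eq_pow_sum]

/-- length of the table blocks -/
noncomputable def blk (c : ℕ) : Polynomial ℕ :=
  (Polynomial.X + 1) ^ 2 * (Polynomial.X ^ c + Polynomial.C c) + Polynomial.X + 1

theorem blk_eval (c r : ℕ) : (blk c).eval r = (r + 1) ^ 2 * (r ^ c + c) + r + 1 := by
  simp [blk]

theorem dec_exists {s : ℕ → ℕ} {c : ℕ} (hs : ∀ n, s n ≤ n ^ c + c) (r : ℕ) :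
    ∃ dec : List Bool → Oracle, ∀ D, Census s D →
      ∃ u : List Bool, u.length = (blk c).eval r ∧ ∀ w, w.length ≤ r → dec u w = D w := by
  classical
  have hcard : Fintype.card (Tab s r) ≤ Fintype.card (Str ((blk c).eval r)) := by
    rw [Pool.Agent.H8.Str.card]
    refine (tab_card s r).trans (Nat.pow_le_pow_right (by norm_num) ?_)
    rw [blk_eval]
    calc ∑ i : Fin (r + 1), (i.1 + 1) * s i ≤ ∑ _i : Fin (r + 1), (r + 1) * (r ^ c + c) := by
          apply Finset.sum_le_sum
          intro i _
          apply Nat.mul_le_mul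
          · have := i.2
            omega
          · refine (hs i).trans ?_
            have : (i : ℕ) ^ c ≤ r ^ c := Nat.pow_le_pow_left (by have := i.2; omega) c
            omega
      _ = (r + 1) ^ 2 * (r ^ c + c) := by
          rw [Finset.sum_const, Finset.card_univ, Fintype.card_fin, smul_eq_mul]
          ring
      _ ≤ _ := by omega
  obtain ⟨g⟩ := Function.Embedding.nonempty_of_card_le hcard
  have : Nonempty (Tab s r) := ⟨fun _ _ => none⟩
  refine ⟨fun u => if h : u.length = (blk c).eval r then tabOracle (Function.invFun g ⟨u, h⟩)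
    else fun _ => false, ?_⟩
  intro D hD
  obtain ⟨t, ht⟩ := tab_exists hD r
  refine ⟨(g t).1, (g t).2, ?_⟩
  intro w hw
  simp only
  rw [dif_pos (g t).2]
  have : Function.invFun g ⟨(g t).1, (g t).2⟩ = t := Function.leftInverse_invFun g.injective t
  rw [this]
  exact ht w hw

/-! ### The code -/

/-- the query to the side oracle -/
def enc (e : ℕ) (x u w : List Bool) (a : Bool) : List Bool :=
  List.replicate e true ++ false :: a :: (x.reverse.flatMap (fun b => [true, b]) ++
    false :: (u.reverse.flatMap (fun b => [true, b]) ++ false :: w))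

theorem enc_inj {e e' : ℕ} {x x' u u' w w' : List Bool} {a a' : Bool}
    (h : enc e x u w a = enc e' x' u' w' a') :
    e = e' ∧ x = x' ∧ u = u' ∧ w = w' ∧ a = a' := by
  obtain ⟨h1, h2⟩ := replicate_append_false_inj h
  rw [List.cons.injEq] at h2
  obtain ⟨h3, h4⟩ := h2
  obtain ⟨h5, h6⟩ := dbl_inj h4
  obtain ⟨h7, h8⟩ := dbl_inj h6
  exact ⟨h1, List.reverse_injective h5, List.reverse_injective h7, h8, h3⟩

/-- move the bits of stack `i`, each with a flag, to stack `j` -/
def dblMove (i j : ℕ) : Prog :=
  Prog.loop i (Prog.cond i Prog.skip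
    (seqs [Prog.pop i, Prog.push j false, Prog.push j true])
    (seqs [Prog.pop i, Prog.push j true, Prog.push j true]))

theorem exec_dblMove (A : Oracle) {i j : ℕ} (hij : i ≠ j) (s : ℕ → List Bool) :
    ∃ s', Exec A (dblMove i j) s s' ((s i).length * 9 + 1) ∧ s' i = [] ∧
      s' j = (s i).reverse.flatMap (fun b => [true, b]) ++ s j ∧
      ∀ m, m ≠ i → m ≠ j → s' m = s m := by
  obtain ⟨s', h1, h2, h3⟩ := exec_loop_inv (A := A) (i := i) (N := 8)
    (p := Prog.cond i Prog.skip
      (seqs [Prog.pop i, Prog.push j false, Prog.push j true])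
      (seqs [Prog.pop i, Prog.push j true, Prog.push j true]))
    (Inv := fun l t => (l.reverse.flatMap (fun b => [true, b]) ++ t j =
        (s i).reverse.flatMap (fun b => [true, b]) ++ s j) ∧
      ∀ m, m ≠ i → m ≠ j → t m = s m) (by
      intro b l t ht hI
      refine ⟨Function.update (Function.update t i l) j (true :: b :: t j), ?_, ?_, ?_, ?_⟩
      · apply exec_cond_cons ht
        have g1 := exec_pop A t i
        rw [ht, List.tail_cons] at g1
        have g2 := exec_push A (Function.update t i l) j b
        rw [Function.update_of_ne hij.symm] at g2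
        have g3 := exec_push A (Function.update (Function.update t i l) j (b :: t j)) j true
        rw [Function.update_self, Function.update_idem] at g3
        have g4 := exec_seqs_cons g1 (exec_seqs_cons g2 (exec_seqs_cons g3 (exec_seqs_nil _ _)))
        cases b
        · simpa using g4
        · simpa using g4
      · rw [Function.update_of_ne hij, Function.update_self]
      · rw [Function.update_self, ← hI.1]
        simp
      · intro m hm1 hm2
        rw [Function.update_of_ne hm2, Function.update_of_ne hm1]
        exact hI.2 m hm1 hm2) (s i) s rfl ⟨rfl, fun _ _ _ => rfl⟩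
  refine ⟨s', h1, h2, ?_, h3.2⟩
  simpa using h3.1

/-- the word contained in a block: the part after the first zero -/
def dw : List Bool → List Bool
  | [] => []
  | false :: l => l
  | true :: l => dw l

theorem dw_replicate (j : ℕ) (w : List Bool) : dw (List.replicate j true ++ false :: w) = w := by
  induction j with
  | zero => rfl
  | succ j ih => exact ih

/-- find the word contained in the block on stack `2` (control bit on stack `3`) -/
def parse : Prog :=
  Prog.loop 3 (Prog.cond 2 (Prog.pop 3) (Prog.seq (Prog.pop 2) (Prog.pop 3)) (Prog.pop 2))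

theorem exec_parse (A : Oracle) : ∀ (l : List Bool) (s : ℕ → List Bool), s 2 = l → s 3 = [true] →
    ∃ s', Exec A parse s s' (l.length * 3 + 6) ∧ s' 2 = dw l ∧ s' 3 = [] ∧
      ∀ m, m ≠ 2 → m ≠ 3 → s' m = s m := by
  intro l
  induction l with
  | nil =>
    intro s h2 h3
    have g1 := exec_pop A s 3
    rw [h3, List.tail_cons] at g1
    have g2 : Exec A (Prog.cond 2 (Prog.pop 3) (Prog.seq (Prog.pop 2) (Prog.pop 3)) (Prog.pop 2))
        s (Function.update s 3 []) 2 := exec_cond_nil h2 g1
    have g3 : Exec A parse (Function.update s 3 []) (Function.update s 3 []) 1 :=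
      exec_loop_nil (by simp)
    refine ⟨_, (exec_loop_cons h3 g2 g3).mono (by omega), ?_, by simp, ?_⟩
    · rw [Function.update_of_ne (by norm_num), h2]
      rfl
    · intro m _ hm
      rw [Function.update_of_ne hm]
  | cons b l ih =>
    intro s h2 h3
    cases b
    · have g1 := exec_pop A s 2
      rw [h2, List.tail_cons] at g1
      have g2 := exec_pop A (Function.update s 2 l) 3
      rw [Function.update_of_ne (by norm_num), h3, List.tail_cons] at g2
      have g3 : Exec A (Prog.cond 2 (Prog.pop 3) (Prog.seq (Prog.pop 2) (Prog.pop 3)) (Prog.pop 2))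
        s (Function.update (Function.update s 2 l) 3 []) (1 + 1 + 1 + 1) :=
        exec_cond_cons h2 (g1.seq g2)
      have g4 : Exec A parse (Function.update (Function.update s 2 l) 3 [])
          (Function.update (Function.update s 2 l) 3 []) 1 :=
        exec_loop_nil (by simp)
      refine ⟨_, (exec_loop_cons h3 g3 g4).mono (by simp), ?_, by simp, ?_⟩
      · rw [Function.update_of_ne (by norm_num), Function.update_self]
        rfl
      · intro m hm1 hm2
        rw [Function.update_of_ne hm2, Function.update_of_ne hm1]
    · have g1 := exec_pop A s 2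
      rw [h2, List.tail_cons] at g1
      have g3 : Exec A (Prog.cond 2 (Prog.pop 3) (Prog.seq (Prog.pop 2) (Prog.pop 3)) (Prog.pop 2))
        s (Function.update s 2 l) (1 + 1) :=
        exec_cond_cons h2 g1
      obtain ⟨s', g4, g5, g6, g7⟩ := ih (Function.update s 2 l) (by simp) (by
        rw [Function.update_of_ne (by norm_num)]; exact h3)
      refine ⟨s', (exec_loop_cons h3 g3 g4).mono (by simp; omega), g5, g6, ?_⟩
      intro m hm1 hm2
      rw [g7 m hm1 hm2, Function.update_of_ne hm1]

/-- the program of the `Sigma_2` machine -/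
def prog (e : ℕ) : Prog := seqs [
  Prog.push 3 true, parse, Prog.push 2 false, Prog.ask 2 (Prog.push 3 true) (Prog.push 3 false),
  dblMove 1 2, Prog.push 2 false, dblMove 0 2,
  Prog.cond 3 Prog.skip (Prog.push 2 false) (Prog.push 2 true),
  Prog.push 2 false, seqs (List.replicate e (Prog.push 2 true)), Prog.push 2 true,
  Prog.ask 2 (Prog.push 0 true) (Prog.push 0 false)]

theorem exec_prog (O : Oracle) (e : ℕ) (s : ℕ → List Bool) (h3 : s 3 = []) :
    ∃ s', Exec O (prog e) s s' ((s 0).length * 9 + (s 1).length * 9 + (s 2).length * 3 + 2 * e + 60) ∧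
      (s' 0).head? = some (O (true :: enc e (s 0) (s 1) (dw (s 2)) (O (false :: dw (s 2))))) := by
  -- control bit
  have e1 := exec_push O s 3 true
  rw [h3] at e1
  obtain ⟨s2, e2, p2, p3, pm⟩ := exec_parse O (s 2) (Function.update s 3 [true])
    (by rw [Function.update_of_ne (by norm_num)]) (by simp)
  have q0 : s2 0 = s 0 := by rw [pm 0 (by norm_num) (by norm_num)]; simp [Function.update_of_ne]
  have q1 : s2 1 = s 1 := by rw [pm 1 (by norm_num) (by norm_num)]; simp [Function.update_of_ne]
  have e3 := exec_push O s2 2 false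
  set s3 := Function.update s2 2 (false :: s2 2) with hs3
  have r0 : s3 0 = s 0 := by rw [hs3, Function.update_of_ne (by norm_num), q0]
  have r1 : s3 1 = s 1 := by rw [hs3, Function.update_of_ne (by norm_num), q1]
  have r2 : s3 2 = false :: dw (s 2) := by rw [hs3, Function.update_self, p2]
  have r3 : s3 3 = [] := by rw [hs3, Function.update_of_ne (by norm_num), p3]
  set a : Bool := O (false :: dw (s 2)) with ha
  have e4 : Exec O (Prog.ask 2 (Prog.push 3 true) (Prog.push 3 false)) s3
      (Function.update s3 3 [a]) 2 := by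
    apply exec_ask
    rw [r2]
    have g := exec_push O s3 3 a
    rw [r3] at g
    cases hh : a
    · rw [hh] at g ha
      rw [if_neg (by rw [← ha]; simp)]
      exact g
    · rw [hh] at g ha
      rw [if_pos ha.symm]
      exact g
  set s4 := Function.update s3 3 [a] with hs4
  obtain ⟨s5, e5, t1, t2, tm⟩ := exec_dblMove O (show (1 : ℕ) ≠ 2 by norm_num) s4
  have u1 : s4 1 = s 1 := by rw [hs4, Function.update_of_ne (by norm_num), r1]
  have u2 : s4 2 = false :: dw (s 2) := by rw [hs4, Function.update_of_ne (by norm_num), r2]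
  have u0 : s4 0 = s 0 := by rw [hs4, Function.update_of_ne (by norm_num), r0]
  have u3 : s4 3 = [a] := by rw [hs4, Function.update_self]
  have e6 := exec_push O s5 2 false
  set s6 := Function.update s5 2 (false :: s5 2) with hs6
  obtain ⟨s7, e7, v0, v2, vm⟩ := exec_dblMove O (show (0 : ℕ) ≠ 2 by norm_num) s6
  have w0 : s6 0 = s 0 := by
    rw [hs6, Function.update_of_ne (by norm_num), tm 0 (by norm_num) (by norm_num), u0]
  have w3 : s7 3 = [a] := by
    rw [vm 3 (by norm_num) (by norm_num), hs6, Function.update_of_ne (by norm_num),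
      tm 3 (by norm_num) (by norm_num), u3]
  have w2 : s7 2 = (s 0).reverse.flatMap (fun b => [true, b]) ++
      false :: ((s 1).reverse.flatMap (fun b => [true, b]) ++ false :: dw (s 2)) := by
    rw [v2, w0, hs6, Function.update_self, t2, u1, u2]
  have e8 : Exec O (Prog.cond 3 Prog.skip (Prog.push 2 false) (Prog.push 2 true)) s7
      (Function.update s7 2 (a :: s7 2)) 2 := by
    apply exec_cond_cons w3
    have g := exec_push O s7 2 a
    cases hh : a
    · rw [hh] at g; simpa using g
    · rw [hh] at g; simpa using g
  set s8 := Function.update s7 2 (a :: s7 2) with hs8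
  have e9 := exec_push O s8 2 false
  set s9 := Function.update s8 2 (false :: s8 2) with hs9
  obtain ⟨s10, e10, x2, -⟩ := exec_pushes O 2 e s9
  have e11 := exec_push O s10 2 true
  set s11 := Function.update s10 2 (true :: s10 2) with hs11
  have hfin : s11 2 = true :: enc e (s 0) (s 1) (dw (s 2)) a := by
    rw [hs11, Function.update_self, x2, hs9, Function.update_self, hs8, Function.update_self, w2]
    rfl
  set b : Bool := O (true :: enc e (s 0) (s 1) (dw (s 2)) a) with hb
  have e12 : Exec O (Prog.ask 2 (Prog.push 0 true) (Prog.push 0 false)) s11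
      (Function.update s11 0 (b :: s11 0)) 2 := by
    apply exec_ask
    rw [hfin]
    have g := exec_push O s11 0 b
    cases hh : b
    · rw [hh] at g hb
      rw [if_neg (by rw [← hb]; simp)]
      exact g
    · rw [hh] at g hb
      rw [if_pos hb.symm]
      exact g
  refine ⟨_, (exec_seqs_cons e1 (exec_seqs_cons e2 (exec_seqs_cons e3 (exec_seqs_cons e4
    (exec_seqs_cons e5 (exec_seqs_cons e6 (exec_seqs_cons e7 (exec_seqs_cons e8
    (exec_seqs_cons e9 (exec_seqs_cons e10 (exec_seqs_cons e11 (exec_seqs_cons e12
    (exec_seqs_nil _ _))))))))))))).mono ?_, ?_⟩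
  · rw [u1, w0]
    omega
  · rw [Function.update_self]
    rfl

/-! ### The theorem -/

theorem alt_local (k m : ℕ) (p : Prog) (x : List Bool) (T : Polynomial ℕ) (Λ : ℕ)
    (hΛ : x.length + k * m + T.eval (x.length + k * m) ≤ Λ) {O O' : Oracle}
    (h : ∀ w : List Bool, w.length ≤ Λ → O w = O' w) :
    Alt true k m (fun us => AcceptsIn O p (x :: us) (T.eval (totalLength (x :: us)))) ↔
      Alt true k m (fun us => AcceptsIn O' p (x :: us) (T.eval (totalLength (x :: us)))) := by
  apply alt9_congr
  intro us hus1 hus2
  have htl : totalLength (x :: us) = x.length + k * m := by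
    rw [totalLength_eq x us m hus2, hus1]
  refine (dtp_acceptsIn p (x :: us) (T.eval (totalLength (x :: us))) Λ ?_).depends ?_
  · rw [htl]
    exact hΛ
  · intro w hw
    exact h w hw

/-- **Converse half.** If `s` is bounded by a polynomial, there is one side oracle relative to which
the whole hierarchy relative to `A xor D` is contained in the second level, for all oracles `D` of
census at most `s`. -/
theorem converse_half {s : ℕ → ℕ} {c : ℕ} (hs : ∀ n, s n ≤ n ^ c + c) (A : Oracle) :
    ∃ B : Oracle, ∀ D, Census s D → ∀ k,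
      SigmaP (xorO A D) k ⊆ SigmaP (join (xorO A D) B) 2 := by
  classical
  have hne : Nonempty (ℕ × Prog × Polynomial ℕ × Polynomial ℕ) := ⟨(0, Prog.skip, 0, 0)⟩
  obtain ⟨g, hg⟩ : ∃ g : ℕ → ℕ × Prog × Polynomial ℕ × Polynomial ℕ, Function.Surjective g :=
    exists_surjective_nat _
  choose dec hdec using fun r => dec_exists hs r
  -- length bound
  set R : ℕ → Polynomial ℕ := fun e => Polynomial.X + Polynomial.C (g e).1 * (g e).2.2.1 +
    ((g e).2.2.2).comp (Polynomial.X + Polynomial.C (g e).1 * (g e).2.2.1) with hR
  have hRe : ∀ e n, (R e).eval n = n + (g e).1 * (g e).2.2.1.eval n +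
      (g e).2.2.2.eval (n + (g e).1 * (g e).2.2.1.eval n) := by
    intro e n
    simp [hR]
  set W : ℕ → List Bool → Oracle → Prop := fun e x O =>
    Alt true (g e).1 ((g e).2.2.1.eval x.length) (fun us => AcceptsIn O (g e).2.1 (x :: us)
      ((g e).2.2.2.eval (totalLength (x :: us)))) with hW
  have hWloc : ∀ e x (O O' : Oracle), (∀ w : List Bool, w.length ≤ (R e).eval x.length →
      O w = O' w) → (W e x O ↔ W e x O') := by
    intro e x O O' h
    exact alt_local (g e).1 ((g e).2.2.1.eval x.length) (g e).2.1 x (g e).2.2.2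
      ((R e).eval x.length) (by rw [hRe]) h
  set good : ℕ → List Bool → List Bool → List Bool → Bool → Prop := fun e x u w a =>
    (w.length ≤ (R e).eval x.length → a = xorO A (dec ((R e).eval x.length) u) w) ∧
      W e x (xorO A (dec ((R e).eval x.length) u)) with hgood
  set B : Oracle := fun v => decide (∃ e x u w a, v = enc e x u w a ∧ good e x u w a) with hB
  have hBenc : ∀ e x u w a, B (enc e x u w a) = true ↔ good e x u w a := by
    intro e x u w a
    rw [hB]
    simp only [decide_eq_true_eq]
    constructor
    · rintro ⟨e', x', u', w', a', h1, h2⟩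
      obtain ⟨rfl, rfl, rfl, rfl, rfl⟩ := enc_inj h1
      exact h2
    · intro h
      exact ⟨e, x, u, w, a, rfl, h⟩
  refine ⟨B, ?_⟩
  intro D hD k L hL
  obtain ⟨q, p, ⟨T, hT⟩, hL⟩ := hL
  obtain ⟨e, he⟩ := hg (k, p, q, T)
  set O := join (xorO A D) B with hO
  have hprog : ∀ x u v : List Bool, ∃ s', run O (prog e) [x, u, v]
      (x.length * 9 + u.length * 9 + v.length * 3 + 2 * e + 60) = ([], s') ∧
      ((s' 0).head? = some true ↔ good e x u (dw v) (xorO A D (dw v))) := by
    intro x u v
    obtain ⟨s', h1, h2⟩ := exec_prog O e (fun i => [x, u, v].getD i []) (by simp)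
    refine ⟨s', ?_, ?_⟩
    · have := run_of_exec h1
      simpa using this
    · rw [h2, ← hBenc]
      simp [hO, join]
  have hhalt : ∀ x u v : List Bool, (run O (prog e) [x, u, v]
      (x.length * 9 + u.length * 9 + v.length * 3 + 2 * e + 60)).1 = [] := by
    intro x u v
    obtain ⟨s', h1, -⟩ := hprog x u v
    rw [h1]
  have hacc : ∀ x u v : List Bool, Accepts O (prog e) [x, u, v] ↔
      good e x u (dw v) (xorO A D (dw v)) := by
    intro x u v
    obtain ⟨s', h1, h2⟩ := hprog x u v
    rw [accepts_iff_of_halted (hhalt x u v), ← h2]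
    unfold AcceptsIn
    rw [h1]
    simp
  refine ⟨(blk c).comp (R e), prog e, ?_, ?_⟩
  · refine ⟨Polynomial.C 9 * Polynomial.X + Polynomial.C (2 * e + 60), ?_⟩
    intro xs hxs
    obtain ⟨x, u, v, rfl⟩ := List.length_eq_three.mp hxs
    rw [run_of_halted (hhalt x u v)]
    · exact hhalt x u v
    · simp [totalLength]
      omega
  · intro x
    -- membership in terms of `W`
    have hxW : x ∈ L ↔ W e x (xorO A D) := by
      rw [hL x, hW]
      simp only [he]
      apply alt9_congr
      intro us hus _
      exact accepts_iff_of_halted (hT (x :: us) (by simp [hus]))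
    rw [hxW]
    set r := (R e).eval x.length with hr
    have hm : ((blk c).comp (R e)).eval x.length = (blk c).eval r := by
      rw [Polynomial.eval_comp]
    rw [hm]
    show W e x (xorO A D) ↔ ∃ u : List Bool, u.length = (blk c).eval r ∧
      ∀ v : List Bool, v.length = (blk c).eval r → Accepts O (prog e) [x, u, v]
    constructor
    · intro hWD
      obtain ⟨u, hu1, hu2⟩ := hdec r D hD
      refine ⟨u, hu1, ?_⟩
      intro v _
      rw [hacc]
      refine ⟨?_, ?_⟩
      · intro hw
        show xorO A D (dw v) = xorO A (dec r u) (dw v)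
        unfold xorO
        rw [hu2 _ hw]
      · refine (hWloc e x _ _ ?_).mp hWD
        intro w hw
        show xorO A D w = xorO A (dec r u) w
        unfold xorO
        rw [hu2 _ hw]
    · rintro ⟨u, hu1, hu2⟩
      have hagree : ∀ w : List Bool, w.length ≤ r → xorO A D w = xorO A (dec r u) w := by
        intro w hw
        have hlen : r + 1 ≤ (blk c).eval r := by
          rw [blk_eval]
          omega
        have h := hu2 (List.replicate ((blk c).eval r - (w.length + 1)) true ++ false :: w) (by
          rw [List.length_append, List.length_replicate, List.length_cons]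
          omega)
        rw [hacc, dw_replicate] at h
        exact h.1 hw
      have h0 := hu2 (List.replicate ((blk c).eval r) true) (by simp)
      rw [hacc] at h0
      exact (hWloc e x _ _ hagree).mpr h0.2

end Pool.Agent.H8c
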