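import Pool.Agent.H9.Hier2

set_option autoImplicit false

/-!
Restricting a forest of Sipser trees (one tree for every string `x` of length `N`) against a large
family of alternating machines.
-/

namespace Pool.Agent.H8f

open Pool.Agent.H9
open Classical

/-- **Forest collapse.**  All the `k`-block functions of the family become shallow decision trees
while every tree of the forest keeps one quantifier over strings of length at least `2 * μ`. -/
theorem forest {ι : Type*} (I : Finset ι) {q T μ K B C N : ℕ} (hI : I.card ≤ 2 ^ C) (hC : C ≤ T)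
    (hBμ : B + 3 ≤ 2 ^ μ) (hq : q ≤ T) (hT : T * 2 ^ (K + 6) ≤ 2 ^ μ) :
    ∀ (k : ℕ) (ex : Bool) (ms : List ℕ) (m : ℕ)
      (D : ι → List (List Bool) → (List (List Bool) → Bool) → Prop),
      k ≤ K → ms.length = k → (∀ x ∈ ms, 4 * μ ≤ x) → 2 * μ ≤ m → N + ms.sum + m ≤ B →
      (∀ i ∈ I, ∀ ws ∈ paths (List.replicate k q), DTP Set.univ T (D i ws)) →
      ∃ (m' : ℕ) (σ : (List (List Bool) → Bool) → (List (List Bool) → Bool)), 2 * μ ≤ m' ∧
        (∀ i ∈ I, DTP Set.univ T
          (fun b => AltL ex (List.replicate k q) (fun ws => D i ws (σ b)))) ∧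
        (∀ x ∈ strings N, ∀ b : List (List Bool) → Bool,
          AltL ex (ms ++ [m]) (fun us => σ b (x :: us) = true) ↔
            qt ex m' (fun u => b [x, u] = true)) := by
  intro k
  induction k with
  | zero =>
    intro ex ms m D _ hms _ hm _ hD
    obtain rfl : ms = [] := List.length_eq_zero_iff.1 hms
    refine ⟨m, id, hm, ?_, ?_⟩
    · intro i hi
      exact hD i hi [] (by simp [paths])
    · intro x _ b
      exact Iff.rfl
  | succ k ih =>
    intro ex ms m D hkK hms hms4 hm hsum hD
    obtain ⟨ms', m1, rfl⟩ : ∃ ms' m1, ms = ms' ++ [m1] := by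
      have : ms ≠ [] := by
        intro h; rw [h] at hms; simp at hms
      exact ⟨ms.dropLast, ms.getLast this, (List.dropLast_append_getLast this).symm⟩
    have hms' : ms'.length = k := by simpa using hms
    have hm1 : 4 * μ ≤ m1 := hms4 m1 (by simp)
    obtain ⟨h, rfl⟩ : ∃ h, m1 = 2 * μ + h := ⟨m1 - 2 * μ, by omega⟩
    have hh : 2 * μ ≤ h := by omega
    have hsum' : N + (ms'.sum + (2 * μ + h)) + m ≤ B := by simpa using hsum
    set e : Bool := ex ^^ (k + 1).bodd with he
    have he' : (ex ^^ k.bodd) = !e := by
      rw [he, xor_bodd_succ]; simp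
    have hrep : List.replicate (k + 1) q = List.replicate k q ++ [q] := by
      rw [List.replicate_succ']
    -- the family of bottom functions
    have hDws : ∀ i ∈ I, ∀ ws ∈ paths (List.replicate k q), ∀ u ∈ strings q,
        DTP Set.univ T (D i (ws ++ [u])) := by
      intro i hi ws hws u hu
      apply hD i hi
      rw [mem_paths] at hws ⊢
      rw [hrep]
      simp [hws, mem_strings.1 hu]
    have hcard : (((I ×ˢ paths (List.replicate k q)).card : ℕ) : ℝ) ≤ (2 : ℝ) ^ (T * (k + 1)) := by
      have h1 : (I ×ˢ paths (List.replicate k q)).card ≤ 2 ^ (T * (k + 1)) := by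
        rw [Finset.card_product, card_paths]
        calc I.card * 2 ^ (List.replicate k q).sum ≤ 2 ^ C * 2 ^ (List.replicate k q).sum :=
              Nat.mul_le_mul_right _ hI
          _ = 2 ^ (C + (List.replicate k q).sum) := by rw [pow_add]
          _ ≤ 2 ^ (T * (k + 1)) := by
              apply Nat.pow_le_pow_right (by norm_num)
              rw [List.sum_replicate, smul_eq_mul]
              have : k * q ≤ k * T := Nat.mul_le_mul_left _ hq
              nlinarith
      exact_mod_cast h1
    have hsw := switch_estimate (μ := μ) (k := k + 1) (q := T) (T := T) (by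
      refine le_trans (Nat.mul_le_mul_left T ?_) hT
      exact Nat.pow_le_pow_right (by norm_num) (by omega)) le_rfl
    obtain ⟨σ, _, hσ2, hσ3, _⟩ := stage (N :: ms') μ h m B e hh hm (by
        rw [List.sum_cons]; omega) hBμ
      (I ×ˢ paths (List.replicate k q))
      (fun iw a => if e = true then ¬ qt (!e) q (fun u => D iw.1 (iw.2 ++ [u]) a)
        else qt (!e) q (fun u => D iw.1 (iw.2 ++ [u]) a)) T T
      (by
        rintro ⟨i, ws⟩ hiw
        obtain ⟨hi, hws⟩ := Finset.mem_product.mp hiw
        exact terms_of_qt (D := fun u a => D i (ws ++ [u]) a) (hDws i hi ws hws)) (by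
        refine le_trans ?_ hsw
        apply mul_le_mul_of_nonneg_right hcard
        apply pow_nonneg
        have hp1 : (1 / 2 : ℝ) ^ μ ≤ 1 := pow_le_one₀ (by norm_num) (by norm_num)
        have : 0 ≤ (1 / 2 : ℝ) ^ μ / (1 - (1 / 2 : ℝ) ^ μ) :=
          div_nonneg (by positivity) (by linarith)
        positivity)
    have hD' : ∀ i ∈ I, ∀ ws ∈ paths (List.replicate k q),
        DTP Set.univ T (fun b => qt (!e) q (fun u => D i (ws ++ [u]) (σ b))) := by
      intro i hi ws hws
      have h1 := hσ2 (i, ws) (Finset.mem_product.mpr ⟨hi, hws⟩)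
      by_cases hee : e = true
      · refine h1.not.congr ?_
        intro b
        simp only [if_pos hee, not_not]
      · refine h1.congr ?_
        intro b
        simp only [if_neg hee]
    obtain ⟨m', σ', hm', hσ4, hσ5⟩ := ih ex ms' (2 * μ)
      (fun i ws b => qt (!e) q (fun u => D i (ws ++ [u]) (σ b))) (by omega) hms'
      (fun x hx => hms4 x (by simp [hx])) le_rfl (by omega) hD'
    refine ⟨m', fun b => σ (σ' b), hm', ?_, ?_⟩
    · intro i hi
      refine (hσ4 i hi).congr ?_
      intro b
      rw [hrep, AltL_snoc ex (List.replicate k q) q, List.length_replicate, he']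
    · intro x hx b
      rw [← hσ5 x hx b]
      rw [AltL_snoc ex (ms' ++ [2 * μ + h]) m, AltL_snoc ex ms', List.length_append,
        List.length_singleton, hms', ← he, he', AltL_snoc ex ms', hms', he']
      apply AltL_congr
      intro g hg
      have h3 := hσ3 (x :: g) (by
        rw [mem_paths, List.map_cons, hg, mem_strings.mp hx]) (σ' b)
      simpa using h3

end Pool.Agent.H8f
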