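import Pool.Agent.H9.DT

set_option autoImplicit false
set_option linter.unusedSectionVars false

/-!
A direct product lemma for decision trees: many shallow decision trees cannot all be right about
the disjunctions of many independent blocks.
-/

namespace Pool.Agent.H8f

open Pool.Agent.H9
open Classical

variable {X U α : Type} [Fintype X] [Fintype U]

/-- the assignment given by a choice `γ`: in the block `x` the variable `(γ x).1` is set to one
if `(γ x).2 = true`, all other variables are zero -/
noncomputable def asg (v : X → U → α) (γ : X → U × Bool) : α → Bool := fun a =>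
  decide (∃ x u, a = v x u ∧ γ x = (u, true))

theorem asg_apply {v : X → U → α} (hv : ∀ x u x' u', v x u = v x' u' → x = x' ∧ u = u')
    (γ : X → U × Bool) (x : X) (u : U) : asg v γ (v x u) = decide (γ x = (u, true)) := by
  unfold asg
  apply decide_eq_decide.mpr
  constructor
  · rintro ⟨x', u', h1, h2⟩
    obtain ⟨rfl, rfl⟩ := hv _ _ _ _ h1
    exact h2
  · intro h
    exact ⟨x, u, rfl, h⟩

theorem asg_iff {v : X → U → α} (hv : ∀ x u x' u', v x u = v x' u' → x = x' ∧ u = u')
    (γ : X → U × Bool) (x : X) (u : U) : asg v γ (v x u) = true ↔ γ x = (u, true) := by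
  rw [asg_apply hv]
  exact decide_eq_true_iff

theorem asg_other {v : X → U → α} (γ : X → U × Bool) {a : α} (h : ∀ x u, a ≠ v x u) :
    asg v γ a = false := by
  unfold asg
  rw [decide_eq_false_iff_not]
  rintro ⟨x, u, h1, -⟩
  exact h x u h1

/-- choices which agree with `γ0` outside of `Y` and for which all trees of `Y` are right -/
noncomputable def setA (v : X → U → α) (γ0 : X → U × Bool) (Y : Finset X)
    (P : X → (α → Bool) → Prop) : Finset (X → U × Bool) :=
  Finset.univ.filter (fun γ => (∀ y, y ∉ Y → γ y = γ0 y) ∧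
    ∀ y ∈ Y, (P y (asg v γ) ↔ (γ y).2 = true))

/-- the same with another predicate `f` for the block `x` -/
noncomputable def setB (v : X → U → α) (γ0 : X → U × Bool) (Y : Finset X) (x : X)
    (f : (α → Bool) → Prop) (P : X → (α → Bool) → Prop) : Finset (X → U × Bool) :=
  Finset.univ.filter (fun γ => (∀ y, y ∉ Y → γ y = γ0 y) ∧ (f (asg v γ) ↔ (γ x).2 = true) ∧
    ∀ y ∈ Y.erase x, (P y (asg v γ) ↔ (γ y).2 = true))

theorem mem_setA {v : X → U → α} {γ0 : X → U × Bool} {Y : Finset X}
    {P : X → (α → Bool) → Prop} {γ : X → U × Bool} :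
    γ ∈ setA v γ0 Y P ↔ (∀ y, y ∉ Y → γ y = γ0 y) ∧
      ∀ y ∈ Y, (P y (asg v γ) ↔ (γ y).2 = true) := by
  simp [setA]

theorem mem_setB {v : X → U → α} {γ0 : X → U × Bool} {Y : Finset X} {x : X}
    {f : (α → Bool) → Prop} {P : X → (α → Bool) → Prop} {γ : X → U × Bool} :
    γ ∈ setB v γ0 Y x f P ↔ (∀ y, y ∉ Y → γ y = γ0 y) ∧ (f (asg v γ) ↔ (γ x).2 = true) ∧
      ∀ y ∈ Y.erase x, (P y (asg v γ) ↔ (γ y).2 = true) := by
  unfold setB
  rw [Finset.mem_filter]
  exact ⟨fun h => h.2, fun h => ⟨Finset.mem_univ _, h⟩⟩

/-- the bound -/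
noncomputable def mm (T n : ℕ) : ℝ := (3 / 4 : ℝ) ^ (n / (T + 1))

theorem mm_pos (T n : ℕ) : 0 < mm T n := by unfold mm; positivity

theorem mm_anti (T : ℕ) {n m : ℕ} (h : n ≤ m) : mm T m ≤ mm T n := by
  unfold mm
  exact pow_le_pow_of_le_one (by norm_num) (by norm_num) (Nat.div_le_div_right h)

/-- splitting according to the value at `y` -/
theorem card_split (S : Finset (X → U × Bool)) (y : X) (c : ℝ) (V : Finset (U × Bool))
    (hV : ∀ γ ∈ S, γ y ∈ V)
    (h : ∀ ω ∈ V, ((S.filter (fun γ => γ y = ω)).card : ℝ) ≤ c) :
    (S.card : ℝ) ≤ V.card * c := by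
  have h1 : S.card = ∑ ω ∈ V, (S.filter (fun γ => γ y = ω)).card :=
    Finset.card_eq_sum_card_fiberwise hV
  rw [h1]
  push_cast
  calc ∑ ω ∈ V, ((S.filter (fun γ => γ y = ω)).card : ℝ) ≤ ∑ _ω ∈ V, c :=
        Finset.sum_le_sum h
    _ = V.card * c := by rw [Finset.sum_const, nsmul_eq_mul]

theorem inner {v : X → U → α} (hv : ∀ x u x' u', v x u = v x' u' → x = x' ∧ u = u')
    (hU : 0 < Fintype.card U) (T n : ℕ) (P : X → (α → Bool) → Prop)
    (hM : ∀ (Y : Finset X) (γ0 : X → U × Bool), Y.card < n →
      ((setA v γ0 Y P).card : ℝ) ≤ (2 * Fintype.card U : ℝ) ^ Y.card * mm T Y.card)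
    (x : X) {t : ℕ} {f : (α → Bool) → Prop} (hf : DTP Set.univ t f) :
    ∀ (Y : Finset X) (γ0 : X → U × Bool), Y.card ≤ n → x ∈ Y →
      ((setB v γ0 Y x f P).card : ℝ) ≤ (2 * Fintype.card U : ℝ) ^ Y.card *
        (1 / 2 + t / (2 * Fintype.card U)) * mm T (Y.card - 1 - t) := by
  set W : ℝ := 2 * Fintype.card U with hW
  have hW0 : 0 < W := by
    have : (0 : ℝ) < Fintype.card U := by exact_mod_cast hU
    linarith
  -- fixing the block `x`
  have hfix : ∀ (Y : Finset X) (γ0 : X → U × Bool), Y.card ≤ n → x ∈ Y → ∀ ω : U × Bool,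
      ((Finset.univ.filter (fun γ : X → U × Bool => γ x = ω ∧ (∀ y, y ∉ Y → γ y = γ0 y) ∧
        ∀ y ∈ Y.erase x, (P y (asg v γ) ↔ (γ y).2 = true))).card : ℝ) ≤
        W ^ (Y.card - 1) * mm T (Y.card - 1) := by
    intro Y γ0 hY hx ω
    have hcard : (Y.erase x).card = Y.card - 1 := Finset.card_erase_of_mem hx
    have hpos : 0 < Y.card := Finset.card_pos.mpr ⟨x, hx⟩
    have h1 := hM (Y.erase x) (Function.update γ0 x ω) (by omega)
    rw [hcard] at h1
    refine le_trans ?_ h1
    exact_mod_cast Finset.card_le_card (by
      intro γ hγ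
      rw [Finset.mem_filter] at hγ
      obtain ⟨-, h2, h3, h4⟩ := hγ
      rw [mem_setA]
      refine ⟨?_, h4⟩
      intro y hy
      by_cases hyx : y = x
      · subst hyx
        rw [Function.update_self]
        exact h2
      · rw [Function.update_of_ne hyx]
        apply h3
        intro hyY
        exact hy (Finset.mem_erase.mpr ⟨hyx, hyY⟩))
  induction hf with
  | const t Pc =>
    intro Y γ0 hY hx
    have hpos : 0 < Y.card := Finset.card_pos.mpr ⟨x, hx⟩
    have h1 := card_split (setB v γ0 Y x (fun _ => Pc) P) x (W ^ (Y.card - 1) * mm T (Y.card - 1))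
      (Finset.univ.image (fun u : U => (u, decide Pc))) (by
        intro γ hγ
        rw [mem_setB] at hγ
        obtain ⟨-, h2, -⟩ := hγ
        rw [Finset.mem_image]
        refine ⟨(γ x).1, Finset.mem_univ _, ?_⟩
        apply Prod.ext
        · rfl
        · by_cases hPc : Pc
          · simp [hPc, h2.mp hPc]
          · have : (γ x).2 ≠ true := fun h => hPc (h2.mpr h)
            simp [hPc]
            simpa using this) (by
        intro ω _
        refine le_trans ?_ (hfix Y γ0 hY hx ω)
        exact_mod_cast Finset.card_le_card (by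
          intro γ hγ
          rw [Finset.mem_filter] at hγ ⊢
          rw [mem_setB] at hγ
          exact ⟨Finset.mem_univ _, hγ.2, hγ.1.1, hγ.1.2.2⟩))
    have h2 : (Finset.univ.image (fun u : U => (u, decide Pc))).card = Fintype.card U := by
      rw [Finset.card_image_of_injective _ (fun a b hab => (Prod.ext_iff.mp hab).1),
        Finset.card_univ]
    rw [h2] at h1
    refine h1.trans ?_
    have h3 : W ^ Y.card = W ^ (Y.card - 1) * W := by
      rw [← pow_succ]
      congr 1
      omega
    have h4 : (Fintype.card U : ℝ) = W * (1 / 2) := by rw [hW]; ring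
    have h5 : mm T (Y.card - 1) ≤ mm T (Y.card - 1 - t) := mm_anti T (by omega)
    have h6 : (0 : ℝ) ≤ t / W := by positivity
    rw [h3, h4]
    have h7 : 0 < W ^ (Y.card - 1) := by positivity
    have h8 := mm_pos T (Y.card - 1 - t)
    calc W * (1 / 2) * (W ^ (Y.card - 1) * mm T (Y.card - 1))
        ≤ W * (1 / 2) * (W ^ (Y.card - 1) * mm T (Y.card - 1 - t)) := by
          gcongr
      _ = W ^ (Y.card - 1) * W * (1 / 2) * mm T (Y.card - 1 - t) := by ring
      _ ≤ W ^ (Y.card - 1) * W * (1 / 2 + t / W) * mm T (Y.card - 1 - t) := by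
          gcongr
          linarith
  | node t q hq f g hf1 hg1 ihf ihg =>
    intro Y γ0 hY hx
    have hpos : 0 < Y.card := Finset.card_pos.mpr ⟨x, hx⟩
    -- the final comparison
    have hfin : ∀ n1 : ℕ, Y.card - 1 - (t + 1) ≤ n1 →
        W ^ Y.card * (1 / 2 + t / W) * mm T n1 ≤
          W ^ Y.card * (1 / 2 + ((t + 1 : ℕ) : ℝ) / W) * mm T (Y.card - 1 - (t + 1)) := by
      intro n1 hn1
      have h5 : mm T n1 ≤ mm T (Y.card - 1 - (t + 1)) := mm_anti T hn1
      have h6 : (t : ℝ) / W ≤ ((t + 1 : ℕ) : ℝ) / W := by
        push_cast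
        gcongr
        linarith
      have := mm_pos T n1
      have h7 : (0 : ℝ) ≤ t / W := by positivity
      gcongr
    by_cases hcase : ∃ y u, y ∈ Y ∧ q = v y u
    · obtain ⟨y, u, hy, rfl⟩ := hcase
      by_cases hyx : y = x
      · -- query in the block `x`
        subst hyx
        have hsub : setB v γ0 Y y (fun a => (a (v y u) = true ∧ f a) ∨
              (a (v y u) = false ∧ g a)) P ⊆
            (Finset.univ.filter (fun γ : X → U × Bool => γ y = (u, true) ∧
              (∀ z, z ∉ Y → γ z = γ0 z) ∧
              ∀ z ∈ Y.erase y, (P z (asg v γ) ↔ (γ z).2 = true))) ∪ setB v γ0 Y y g P := by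
          intro γ hγ
          rw [mem_setB] at hγ
          obtain ⟨h1, h2, h3⟩ := hγ
          rw [Finset.mem_union]
          by_cases h4 : γ y = (u, true)
          · left
            rw [Finset.mem_filter]
            exact ⟨Finset.mem_univ _, h4, h1, h3⟩
          · right
            rw [mem_setB]
            refine ⟨h1, ?_, h3⟩
            rw [← h2]
            rw [asg_apply hv]
            simp [h4]
        have h1 : ((setB v γ0 Y y (fun a => (a (v y u) = true ∧ f a) ∨
              (a (v y u) = false ∧ g a)) P).card : ℝ) ≤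
            W ^ (Y.card - 1) * mm T (Y.card - 1) +
              W ^ Y.card * (1 / 2 + t / W) * mm T (Y.card - 1 - t) := by
          have h2 := (Finset.card_le_card hsub).trans (Finset.card_union_le _ _)
          have h3 := add_le_add (hfix Y γ0 hY hx (u, true)) (ihg Y γ0 hY hx)
          refine le_trans ?_ h3
          exact_mod_cast h2
        refine h1.trans ?_
        have h3 : W ^ Y.card = W ^ (Y.card - 1) * W := by
          rw [← pow_succ]
          congr 1
          omega
        have h5 : mm T (Y.card - 1) ≤ mm T (Y.card - 1 - (t + 1)) := mm_anti T (by omega)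
        have h6 : mm T (Y.card - 1 - t) ≤ mm T (Y.card - 1 - (t + 1)) := mm_anti T (by omega)
        have h7 : 0 < W ^ (Y.card - 1) := by positivity
        have h8 := mm_pos T (Y.card - 1 - (t + 1))
        have h9 : (0 : ℝ) ≤ t / W := by positivity
        have h10 : ((t + 1 : ℕ) : ℝ) / W = t / W + 1 / W := by
          push_cast
          rw [add_div]
        rw [h3, h10]
        calc W ^ (Y.card - 1) * mm T (Y.card - 1) +
              W ^ (Y.card - 1) * W * (1 / 2 + t / W) * mm T (Y.card - 1 - t)
            ≤ W ^ (Y.card - 1) * mm T (Y.card - 1 - (t + 1)) +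
              W ^ (Y.card - 1) * W * (1 / 2 + t / W) * mm T (Y.card - 1 - (t + 1)) := by
              gcongr
          _ = W ^ (Y.card - 1) * W * (1 / 2 + (t / W + 1 / W)) *
                mm T (Y.card - 1 - (t + 1)) := by
              field_simp
              ring
      · -- query in another free block
        have hxe : x ∈ Y.erase y := Finset.mem_erase.mpr ⟨fun h => hyx h.symm, hx⟩
        have hcard : (Y.erase y).card = Y.card - 1 := Finset.card_erase_of_mem hy
        have h1 := card_split (setB v γ0 Y x (fun a => (a (v y u) = true ∧ f a) ∨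
              (a (v y u) = false ∧ g a)) P) y
          (W ^ (Y.card - 1) * (1 / 2 + t / W) * mm T (Y.card - 1 - 1 - t)) Finset.univ
          (fun _ _ => Finset.mem_univ _) (by
            intro ω _
            by_cases hω : ω = (u, true)
            · have h2 := ihf (Y.erase y) (Function.update γ0 y ω) (by omega) hxe
              rw [hcard] at h2
              refine le_trans ?_ h2
              exact_mod_cast Finset.card_le_card (by
                intro γ hγ
                rw [Finset.mem_filter] at hγ
                obtain ⟨hγ1, hγ2⟩ := hγ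
                rw [mem_setB] at hγ1 ⊢
                obtain ⟨h3, h4, h5⟩ := hγ1
                refine ⟨?_, ?_, ?_⟩
                · intro z hz
                  by_cases hzy : z = y
                  · subst hzy
                    rw [Function.update_self]
                    exact hγ2
                  · rw [Function.update_of_ne hzy]
                    apply h3
                    intro hzY
                    exact hz (Finset.mem_erase.mpr ⟨hzy, hzY⟩)
                · rw [← h4]
                  rw [asg_apply hv, hγ2]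
                  simp [hω]
                · intro z hz
                  apply h5
                  rw [Finset.mem_erase] at hz ⊢
                  exact ⟨hz.1, (Finset.mem_erase.mp hz.2).2⟩)
            · have h2 := ihg (Y.erase y) (Function.update γ0 y ω) (by omega) hxe
              rw [hcard] at h2
              refine le_trans ?_ h2
              exact_mod_cast Finset.card_le_card (by
                intro γ hγ
                rw [Finset.mem_filter] at hγ
                obtain ⟨hγ1, hγ2⟩ := hγ
                rw [mem_setB] at hγ1 ⊢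
                obtain ⟨h3, h4, h5⟩ := hγ1
                refine ⟨?_, ?_, ?_⟩
                · intro z hz
                  by_cases hzy : z = y
                  · subst hzy
                    rw [Function.update_self]
                    exact hγ2
                  · rw [Function.update_of_ne hzy]
                    apply h3
                    intro hzY
                    exact hz (Finset.mem_erase.mpr ⟨hzy, hzY⟩)
                · rw [← h4]
                  rw [asg_apply hv, hγ2]
                  simp [hω]
                · intro z hz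
                  apply h5
                  rw [Finset.mem_erase] at hz ⊢
                  exact ⟨hz.1, (Finset.mem_erase.mp hz.2).2⟩))
        refine h1.trans ?_
        have h2 : ((Finset.univ : Finset (U × Bool)).card : ℝ) = W := by
          rw [Finset.card_univ, Fintype.card_prod, Fintype.card_bool, hW]
          push_cast
          ring
        have h3 : W ^ Y.card = W ^ (Y.card - 1) * W := by
          rw [← pow_succ]
          congr 1
          omega
        rw [h2]
        have h4 : Y.card - 1 - 1 - t = Y.card - 1 - (t + 1) := by omega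
        rw [h4]
        refine le_trans (le_of_eq ?_) (hfin (Y.card - 1 - (t + 1)) le_rfl)
        rw [h3]
        ring
    · -- the variable is already fixed
      have hconst : ∀ γ : X → U × Bool, (∀ z, z ∉ Y → γ z = γ0 z) → asg v γ q = asg v γ0 q := by
        intro γ hγ
        by_cases hq2 : ∃ y u, q = v y u
        · obtain ⟨y, u, rfl⟩ := hq2
          have hy : y ∉ Y := fun h => hcase ⟨y, u, h, rfl⟩
          rw [asg_apply hv, asg_apply hv, hγ y hy]
        · have h1 : ∀ x u, q ≠ v x u := fun x u h => hq2 ⟨x, u, h⟩
          rw [asg_other γ h1, asg_other γ0 h1]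
      by_cases hb : asg v γ0 q = true
      · have hsub : setB v γ0 Y x (fun a => (a q = true ∧ f a) ∨ (a q = false ∧ g a)) P ⊆
            setB v γ0 Y x f P := by
          intro γ hγ
          rw [mem_setB] at hγ ⊢
          obtain ⟨h3, h4, h5⟩ := hγ
          refine ⟨h3, ?_, h5⟩
          rw [← h4]
          rw [hconst γ h3, hb]
          simp
        have h1 : ((setB v γ0 Y x (fun a => (a q = true ∧ f a) ∨ (a q = false ∧ g a)) P).card : ℝ)
            ≤ ((setB v γ0 Y x f P).card : ℝ) := by exact_mod_cast Finset.card_le_card hsub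
        exact (h1.trans (ihf Y γ0 hY hx)).trans (hfin _ (by omega))
      · have hb' : asg v γ0 q = false := by simpa using hb
        have hsub : setB v γ0 Y x (fun a => (a q = true ∧ f a) ∨ (a q = false ∧ g a)) P ⊆
            setB v γ0 Y x g P := by
          intro γ hγ
          rw [mem_setB] at hγ ⊢
          obtain ⟨h3, h4, h5⟩ := hγ
          refine ⟨h3, ?_, h5⟩
          rw [← h4]
          rw [hconst γ h3, hb']
          simp
        have h1 : ((setB v γ0 Y x (fun a => (a q = true ∧ f a) ∨ (a q = false ∧ g a)) P).card : ℝ)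
            ≤ ((setB v γ0 Y x g P).card : ℝ) := by exact_mod_cast Finset.card_le_card hsub
        exact (h1.trans (ihg Y γ0 hY hx)).trans (hfin _ (by omega))

theorem outer {v : X → U → α} (hv : ∀ x u x' u', v x u = v x' u' → x = x' ∧ u = u')
    (hU : 0 < Fintype.card U) (T : ℕ) (hT : 2 * T ≤ Fintype.card U)
    (P : X → (α → Bool) → Prop) (hP : ∀ x, DTP Set.univ T (P x)) :
    ∀ (n : ℕ) (Y : Finset X) (γ0 : X → U × Bool), Y.card = n →
      ((setA v γ0 Y P).card : ℝ) ≤ (2 * Fintype.card U : ℝ) ^ n * mm T n := by
  intro n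
  induction n using Nat.strong_induction_on with
  | _ n ih =>
    intro Y γ0 hY
    rcases Nat.eq_zero_or_pos n with h0 | hpos
    · subst h0
      have hYe : Y = ∅ := Finset.card_eq_zero.mp hY
      have hsub : setA v γ0 Y P ⊆ {γ0} := by
        intro γ hγ
        rw [mem_setA] at hγ
        rw [Finset.mem_singleton]
        funext y
        exact hγ.1 y (by rw [hYe]; simp)
      have h1 : ((setA v γ0 Y P).card : ℝ) ≤ 1 := by
        exact_mod_cast (Finset.card_le_card hsub).trans (by simp)
      simpa [mm] using h1
    · obtain ⟨x, hx⟩ : Y.Nonempty := Finset.card_pos.mp (by omega)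
      have h1 := inner hv hU T n P (fun Y' γ0' h => ih Y'.card h Y' γ0' rfl) x (hP x) Y γ0
        hY.le hx
      have hsub : setA v γ0 Y P ⊆ setB v γ0 Y x (P x) P := by
        intro γ hγ
        rw [mem_setA] at hγ
        rw [mem_setB]
        exact ⟨hγ.1, hγ.2 x hx, fun y hy => hγ.2 y (Finset.mem_of_mem_erase hy)⟩
      have h2 : ((setA v γ0 Y P).card : ℝ) ≤ ((setB v γ0 Y x (P x) P).card : ℝ) := by
        exact_mod_cast Finset.card_le_card hsub
      refine (h2.trans h1).trans ?_
      rw [hY]
      have hU' : (0 : ℝ) < Fintype.card U := by exact_mod_cast hU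
      have h3 : (T : ℝ) / (2 * Fintype.card U) ≤ 1 / 4 := by
        rw [div_le_iff₀ (by linarith)]
        have : (2 : ℝ) * T ≤ Fintype.card U := by exact_mod_cast hT
        linarith
      have h4 : (3 / 4 : ℝ) * mm T (n - 1 - T) ≤ mm T n := by
        unfold mm
        rcases Nat.lt_or_ge n (T + 1) with hn | hn
        · rw [Nat.div_eq_of_lt hn, pow_zero]
          have : (3 / 4 : ℝ) ^ ((n - 1 - T) / (T + 1)) ≤ 1 :=
            pow_le_one₀ (by norm_num) (by norm_num)
          linarith
        · have e1 : n / (T + 1) = (n - 1 - T) / (T + 1) + 1 := by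
            have : n = (n - 1 - T) + (T + 1) := by omega
            conv_lhs => rw [this]
            rw [Nat.add_div_right _ (Nat.succ_pos T)]
          rw [e1, pow_succ]
          linarith
      have h5 := mm_pos T (n - 1 - T)
      calc (2 * Fintype.card U : ℝ) ^ n * (1 / 2 + T / (2 * Fintype.card U)) * mm T (n - 1 - T)
          ≤ (2 * Fintype.card U : ℝ) ^ n * (3 / 4) * mm T (n - 1 - T) := by
            gcongr
            linarith
        _ = (2 * Fintype.card U : ℝ) ^ n * ((3 / 4) * mm T (n - 1 - T)) := by ring
        _ ≤ _ := by gcongr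

/-- **Direct product lemma.** For a small family of tuples of shallow decision trees there is one
choice on which every tuple errs somewhere. -/
theorem product {ι : Type*} {v : X → U → α}
    (hv : ∀ x u x' u', v x u = v x' u' → x = x' ∧ u = u')
    (hU : 0 < Fintype.card U) (T : ℕ) (hT : 2 * T ≤ Fintype.card U) (I : Finset ι) (C : ℕ)
    (hI : I.card ≤ 2 ^ C) (hC : 3 * (C + 1) ≤ Fintype.card X / (T + 1))
    (P : ι → X → (α → Bool) → Prop) (hP : ∀ i ∈ I, ∀ x, DTP Set.univ T (P i x)) :
    ∃ γ : X → U × Bool, ∀ i ∈ I, ∃ x, ¬ (P i x (asg v γ) ↔ (γ x).2 = true) := by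
  by_contra hcon
  push Not at hcon
  obtain ⟨u0⟩ : Nonempty U := Fintype.card_pos_iff.mp hU
  have hcover : (Finset.univ : Finset (X → U × Bool)) ⊆
      I.biUnion (fun i => setA v (fun _ => (u0, true)) Finset.univ (P i)) := by
    intro γ _
    obtain ⟨i, hi, h⟩ := hcon γ
    rw [Finset.mem_biUnion]
    refine ⟨i, hi, ?_⟩
    rw [mem_setA]
    exact ⟨fun y hy => absurd (Finset.mem_univ y) hy, fun y _ => h y⟩
  have h1 := (Finset.card_le_card hcover).trans Finset.card_biUnion_le
  have h2 : ((Finset.univ : Finset (X → U × Bool)).card : ℝ) =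
      (2 * Fintype.card U : ℝ) ^ Fintype.card X := by
    rw [Finset.card_univ, Fintype.card_fun, Fintype.card_prod, Fintype.card_bool]
    push_cast
    ring
  have h3 : ((∑ i ∈ I, (setA v (fun _ => (u0, true)) Finset.univ (P i)).card : ℕ) : ℝ) ≤
      I.card * ((2 * Fintype.card U : ℝ) ^ Fintype.card X * mm T (Fintype.card X)) := by
    push_cast
    calc ∑ i ∈ I, ((setA v (fun _ => (u0, true)) Finset.univ (P i)).card : ℝ)
        ≤ ∑ _i ∈ I, ((2 * Fintype.card U : ℝ) ^ Fintype.card X * mm T (Fintype.card X)) := by
          apply Finset.sum_le_sum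
          intro i hi
          exact outer hv hU T hT (P i) (hP i hi) _ Finset.univ _ Finset.card_univ
      _ = _ := by rw [Finset.sum_const, nsmul_eq_mul]
  have h4 : (2 * Fintype.card U : ℝ) ^ Fintype.card X ≤
      I.card * ((2 * Fintype.card U : ℝ) ^ Fintype.card X * mm T (Fintype.card X)) := by
    rw [← h2]
    refine le_trans ?_ (h2 ▸ h3)
    exact_mod_cast h1
  have hU' : (0 : ℝ) < Fintype.card U := by exact_mod_cast hU
  have h5 : (0 : ℝ) < (2 * Fintype.card U : ℝ) ^ Fintype.card X := by positivity
  have h6 : (1 : ℝ) ≤ I.card * mm T (Fintype.card X) := by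
    by_contra hlt
    push Not at hlt
    have : (I.card : ℝ) * ((2 * Fintype.card U : ℝ) ^ Fintype.card X * mm T (Fintype.card X)) <
        (2 * Fintype.card U : ℝ) ^ Fintype.card X := by
      calc (I.card : ℝ) * ((2 * Fintype.card U : ℝ) ^ Fintype.card X * mm T (Fintype.card X))
          = (2 * Fintype.card U : ℝ) ^ Fintype.card X *
            (I.card * mm T (Fintype.card X)) := by ring
        _ < (2 * Fintype.card U : ℝ) ^ Fintype.card X * 1 := by gcongr
        _ = _ := by ring
    linarith
  have h7 : (I.card : ℝ) ≤ 2 ^ C := by exact_mod_cast hI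
  have h8 : mm T (Fintype.card X) ≤ (1 / 2 : ℝ) ^ (C + 1) := by
    unfold mm
    calc (3 / 4 : ℝ) ^ (Fintype.card X / (T + 1)) ≤ (3 / 4 : ℝ) ^ (3 * (C + 1)) :=
          pow_le_pow_of_le_one (by norm_num) (by norm_num) hC
      _ = ((3 / 4 : ℝ) ^ 3) ^ (C + 1) := by rw [pow_mul]
      _ ≤ (1 / 2 : ℝ) ^ (C + 1) := by
          apply pow_le_pow_left₀ (by norm_num)
          norm_num
  have h9 : (I.card : ℝ) * mm T (Fintype.card X) ≤ 1 / 2 := by
    calc (I.card : ℝ) * mm T (Fintype.card X) ≤ 2 ^ C * (1 / 2 : ℝ) ^ (C + 1) := by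
          apply mul_le_mul h7 h8 (mm_pos _ _).le (by positivity)
      _ = 1 / 2 := by
          rw [pow_succ, ← mul_assoc, ← mul_pow]
          norm_num
  linarith

end Pool.Agent.H8f
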