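import Pool.Agent.H8.Converse
import Pool.Agent.H8.Forest
import Pool.Agent.H8.Product
import Pool.Agent.H9.Layers

set_option autoImplicit false

/-!
Robustly infinite hierarchies: for a generic oracle `G` the hierarchy stays infinite relative to
the join of `G` with every oracle of small census.
-/

namespace Pool.Agent.H8r

open Pool.Agent.H9
open Pool.Agent.H8 (Str Census poly_bound eventually_pow_le)
open Pool.Agent.H8c (Tab tabOracle tab_exists tab_card)
open Pool.Agent.H8f (forest product asg asg_iff)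

/-! ### The test language -/

/-- the test language with `K` blocks: the certificates and the input are concatenated and the
result is looked up in the oracle -/
def LngC (K : ℕ) (A : Oracle) : Set (List Bool) :=
  {x | Alt true K x.length (fun us => A (x :: us).flatten.reverse = true)}

/-- the program of the test language -/
def catProg (K : ℕ) : Prog :=
  Prog.seq (moves (K + 1) (List.range (K + 1)))
    (Prog.ask (K + 1) (Prog.push 0 true) (Prog.push 0 false))

theorem map_getD_range (l : List (List Bool)) :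
    (List.range l.length).map (fun i => l.getD i []) = l := by
  apply List.ext_getElem
  · simp
  · intro i h1 h2
    simp [List.getElem?_eq_getElem h2]

theorem catProg_spec (A : Oracle) (K : ℕ) (xs : List (List Bool)) (hxs : xs.length = K + 1) :
    ∃ s', run A (catProg K) xs (totalLength xs * 5 + 2 * (K + 1) + 1 + 2 + 1) = ([], s') ∧
      (s' 0).head? = some (A xs.flatten.reverse) := by
  obtain ⟨s1, h1, h2, -⟩ := exec_moves A (K + 1) (List.range (K + 1)) List.nodup_range
    (by simp) (fun i => xs.getD i [])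
  have hmap : (List.range (K + 1)).map (fun i => xs.getD i []) = xs := by
    rw [← hxs]
    exact map_getD_range xs
  rw [hmap, List.length_range] at h1
  rw [hmap] at h2
  have h3 : s1 (K + 1) = xs.flatten.reverse := by
    rw [h2, List.getD_eq_default _ _ (by omega)]
    simp
  have h4 : Exec A (Prog.ask (K + 1) (Prog.push 0 true) (Prog.push 0 false)) s1
      (Function.update s1 0 (A xs.flatten.reverse :: s1 0)) 2 := by
    apply exec_ask
    rw [h3]
    cases hA : A xs.flatten.reverse
    · rw [if_neg (by simp)]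
      exact exec_push A s1 0 false
    · rw [if_pos rfl]
      exact exec_push A s1 0 true
  refine ⟨_, run_of_exec (h1.seq h4), ?_⟩
  rw [Function.update_self]
  rfl

theorem LngC_mem (K : ℕ) (A : Oracle) : LngC K A ∈ SigmaP A K := by
  refine ⟨Polynomial.X, catProg K, ?_, ?_⟩
  · refine ⟨Polynomial.C 5 * Polynomial.X + Polynomial.C (2 * (K + 1) + 4), ?_⟩
    intro xs hxs
    obtain ⟨s', h1, -⟩ := catProg_spec A K xs hxs
    have h2 : (run A (catProg K) xs (totalLength xs * 5 + 2 * (K + 1) + 1 + 2 + 1)).1 = [] := by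
      rw [h1]
    rw [run_of_halted h2]
    · exact h2
    · simp only [Polynomial.eval_add, Polynomial.eval_mul, Polynomial.eval_C, Polynomial.eval_X]
      omega
  · intro x
    rw [Polynomial.eval_X]
    show Alt true K x.length _ ↔ _
    apply Pool.Agent.H8.alt9_congr
    intro us hus _
    obtain ⟨s', h1, h2⟩ := catProg_spec A K (x :: us) (by simp [hus])
    have h3 : (run A (catProg K) (x :: us)
        (totalLength (x :: us) * 5 + 2 * (K + 1) + 1 + 2 + 1)).1 = [] := by
      rw [h1]
    rw [accepts_iff_of_halted h3]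
    unfold AcceptsIn
    rw [h1]
    simp only [true_and]
    rw [h2]
    simp

/-! ### The requirement -/

/-- For every oracle `S` of census at most `s` the machine errs on the test language. -/
def Err3 (s : ℕ → ℕ) (B : Oracle) (k : ℕ) (p : Prog) (q T : Polynomial ℕ) (G : Oracle) : Prop :=
  ∃ N : ℕ, ∀ S : Oracle, Census s S → ∃ x : List Bool, x.length = N ∧
    ¬ (x ∈ LngC (k + 1) G ↔ Alt true k (q.eval x.length)
      (fun us => AcceptsIn (join (join G S) B) p (x :: us) (T.eval (totalLength (x :: us)))))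

theorem join_agree {A A' B B' : Oracle} {n : ℕ} (hA : ∀ w : List Bool, w.length ≤ n → A w = A' w)
    (hB : ∀ w : List Bool, w.length ≤ n → B w = B' w) :
    ∀ w : List Bool, w.length ≤ n → join A B w = join A' B' w := by
  intro w hw
  match w with
  | [] => rfl
  | false :: w => exact hA w (by simp at hw; omega)
  | true :: w => exact hB w (by simp at hw; omega)

theorem err3_open (s : ℕ → ℕ) (B : Oracle) (k : ℕ) (p : Prog) (q T : Polynomial ℕ) :
    IsOpen {G : Oracle | Err3 s B k p q T G} := by
  classical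
  apply Pool.Agent.H8.isOpen_of_local
  rintro G ⟨N, hN⟩
  set Λ := N + k * q.eval N + T.eval (N + k * q.eval N) + (k + 2) * N with hΛ
  refine ⟨(Finset.range (Λ + 1)).biUnion (fun i => strings i), ?_⟩
  intro G' hG'
  have hag : ∀ w : List Bool, w.length ≤ Λ → G' w = G w := by
    intro w hw
    apply hG'
    rw [Finset.mem_biUnion]
    exact ⟨w.length, Finset.mem_range.mpr (by omega), mem_strings.mpr rfl⟩
  refine ⟨N, ?_⟩
  intro S hS
  obtain ⟨x, hx, hne⟩ := hN S hS
  refine ⟨x, hx, ?_⟩
  intro hiff
  apply hne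
  have h1 : (x ∈ LngC (k + 1) G ↔ x ∈ LngC (k + 1) G') := by
    have e1 : ∀ E : Oracle, (x ∈ LngC (k + 1) E ↔ Alt true (k + 1) x.length
        (fun us => E (x :: us).flatten.reverse = true)) := fun E => Iff.rfl
    rw [e1, e1]
    apply Pool.Agent.H8.alt9_congr
    intro us hus1 hus2
    rw [hag]
    rw [List.length_reverse, List.length_flatten]
    have h2 : (List.map List.length (x :: us)).sum = x.length + us.length * x.length :=
      Pool.Agent.H8.totalLength_eq x us x.length hus2
    rw [h2, hx, hus1, hΛ]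
    nlinarith
  rw [h1, hiff]
  apply Pool.Agent.H8c.alt_local k (q.eval x.length) p x T Λ
  · rw [hx, hΛ]
    omega
  · intro w hw
    exact join_agree (join_agree (fun w hw => hag w hw) (fun _ _ => rfl)) (fun _ _ => rfl) w hw

/-- The numerical conditions. -/
theorem params3 {s : ℕ → ℕ} (hs : ∀ c : ℕ, ∃ n, c ≤ n ∧ ∀ m, n ≤ m → m ≤ n ^ c → s m ≤ 2 ^ n)
    (k n0 : ℕ) (Λ : Polynomial ℕ) :
    ∃ n : ℕ, n0 ≤ n ∧ k + 6 ≤ n ∧ (Λ.eval n + 1) ^ 2 + 12 * (k + 2) * n + 20 ≤ 2 ^ n ∧
      ∀ m, n ≤ m → m ≤ Λ.eval n → s m ≤ 2 ^ n := by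
  obtain ⟨c1, hc1⟩ := poly_bound Λ
  obtain ⟨c2, hc2⟩ := poly_bound ((Λ + 1) ^ 2 + Polynomial.C (12 * (k + 2)) * Polynomial.X + 20)
  obtain ⟨N1, hN1⟩ := eventually_pow_le c2
  obtain ⟨n, hn1, hn2⟩ := hs (c1 + N1 + n0 + k + 10)
  refine ⟨n, by omega, by omega, ?_, ?_⟩
  · have h1 := hc2 n
    have h2 := hN1 n (by omega)
    simp only [Polynomial.eval_add, Polynomial.eval_mul, Polynomial.eval_pow, Polynomial.eval_C,
      Polynomial.eval_X, Polynomial.eval_one, Polynomial.eval_ofNat] at h1
    omega
  · intro m hm1 hm2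
    apply hn2 m hm1
    refine hm2.trans ?_
    have h1 := hc1 n
    have hn : 2 ≤ n := by omega
    calc Λ.eval n ≤ n ^ c1 + c1 := h1
      _ ≤ n ^ c1 + n ^ c1 * (n - 1) := by
          have h2 : 1 ≤ n ^ c1 := Nat.one_le_pow _ _ (by omega)
          have h3 : c1 ≤ n - 1 := by omega
          nlinarith
      _ = n ^ c1 * n := by
          obtain ⟨n', rfl⟩ := Nat.exists_eq_add_of_le' (show 1 ≤ n by omega)
          simp only [Nat.add_sub_cancel]
          ring
      _ = n ^ (c1 + 1) := by rw [pow_succ]
      _ ≤ n ^ (c1 + N1 + n0 + k + 10) := Nat.pow_le_pow_right (by omega) (by omega)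

/-- **Forcing one requirement.** -/
theorem force3 {s : ℕ → ℕ} (hs : ∀ c : ℕ, ∃ n, c ≤ n ∧ ∀ m, n ≤ m → m ≤ n ^ c → s m ≤ 2 ^ n)
    (B : Oracle) (k : ℕ) (p : Prog) (q T : Polynomial ℕ) (G0 : Oracle) (n0 : ℕ) :
    ∃ G : Oracle, (∀ w : List Bool, w.length < n0 → G w = G0 w) ∧ Err3 s B k p q T G := by
  classical
  -- the bound for the length of queries, as a polynomial in `n`
  set ΛN : Polynomial ℕ := Polynomial.X + Polynomial.C k * q + q +
    T.comp (Polynomial.X + Polynomial.C k * q) with hΛN
  set Λp : Polynomial ℕ := ΛN.comp (Polynomial.C 12 * Polynomial.X) with hΛp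
  obtain ⟨n, hn0, hnk, hpoly, hsm⟩ := params3 hs k (n0 + 1) Λp
  obtain ⟨N, hN⟩ : ∃ N, N = 12 * n := ⟨_, rfl⟩
  obtain ⟨qN, hqN⟩ : ∃ qN, qN = q.eval N := ⟨_, rfl⟩
  obtain ⟨Λ, hΛ⟩ : ∃ Λ, Λ = N + k * qN + qN + T.eval (N + k * qN) := ⟨_, rfl⟩
  have hΛe : Λp.eval n = Λ := by
    rw [hΛp, hΛN, hΛ, hqN, hN]
    simp
  rw [hΛe] at hpoly hsm
  set T0 := 2 ^ (2 * n) with hT0
  have hpn : 2 ^ n * 2 ^ n = T0 := by rw [hT0, two_mul, pow_add]
  have hp1 : 1 ≤ 2 ^ n := Nat.one_le_two_pow
  have hΛT : Λ ≤ T0 := by nlinarith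
  have hN12 : 12 * (k + 2) * n = (k + 2) * N := by rw [hN]; ring
  rw [hN12] at hpoly
  -- the tables
  set st : ℕ → ℕ := fun _ => 2 ^ n with hst
  -- number of bits
  obtain ⟨C, hC⟩ : ∃ C, C = (Λ + 1) ^ 2 * 2 ^ n + N := ⟨_, rfl⟩
  have hcardT : Fintype.card (Tab st Λ) ≤ 2 ^ ((Λ + 1) ^ 2 * 2 ^ n) := by
    refine (tab_card st Λ).trans (Nat.pow_le_pow_right (by norm_num) ?_)
    calc ∑ i : Fin (Λ + 1), (i.1 + 1) * st i ≤ ∑ _i : Fin (Λ + 1), (Λ + 1) * 2 ^ n := by
          apply Finset.sum_le_sum
          intro i _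
          apply Nat.mul_le_mul_right
          have := i.2
          omega
      _ = (Λ + 1) ^ 2 * 2 ^ n := by
          rw [Finset.sum_const, Finset.card_univ, Fintype.card_fin, smul_eq_mul]
          ring
  have hCT : C ≤ T0 := by
    have h1 : N ≤ N * 2 ^ n := Nat.le_mul_of_pos_right _ hp1
    have h2 : ((Λ + 1) ^ 2 + N) * 2 ^ n ≤ 2 ^ n * 2 ^ n := by
      apply Nat.mul_le_mul_right
      have : N ≤ (k + 2) * N := Nat.le_mul_of_pos_left _ (by omega)
      omega
    rw [hC]
    calc (Λ + 1) ^ 2 * 2 ^ n + N ≤ (Λ + 1) ^ 2 * 2 ^ n + N * 2 ^ n := by omega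
      _ = ((Λ + 1) ^ 2 + N) * 2 ^ n := by ring
      _ ≤ 2 ^ n * 2 ^ n := h2
      _ = T0 := hpn
  -- the variable oracle
  set Lv : List ℕ := List.replicate (k + 2) N with hLv
  have hLvs : Lv.sum = (k + 2) * N := by rw [hLv, List.sum_replicate, smul_eq_mul]
  set GX : (List (List Bool) → Bool) → Oracle := fun X w =>
    if w.length = (k + 2) * N then data Lv X w else G0 w with hGX
  have hGXd : ∀ w, DTP Set.univ 1 (fun X => GX X w = true) := by
    intro w
    by_cases hw : w.length = (k + 2) * N
    · exact (data_dtp Lv w).congr (fun X => by simp only [hGX, if_pos hw])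
    · exact (DTP.const 1 (G0 w = true)).congr (fun X => by simp only [hGX, if_neg hw])
  -- the machines
  set D : (Tab st Λ × List Bool) → List (List Bool) → (List (List Bool) → Bool) → Prop :=
    fun i ws X => AcceptsIn (join (join (GX X) (tabOracle i.1)) B) p (i.2 :: ws)
      (T.eval (N + k * qN)) with hD
  have hDd : ∀ i ∈ (Finset.univ : Finset (Tab st Λ)) ×ˢ strings N,
      ∀ ws ∈ paths (List.replicate k qN), DTP Set.univ T0 (D i ws) := by
    rintro ⟨t, x⟩ hi ws hws
    have hx : x.length = N := mem_strings.mp (Finset.mem_product.mp hi).2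
    have htl : totalLength (x :: ws) = N + k * qN := by
      simp only [totalLength, List.map_cons, List.sum_cons, mem_paths.1 hws, List.sum_replicate,
        smul_eq_mul, hx]
    have h1 := (dtp_acceptsIn p (x :: ws) (T.eval (N + k * qN)) Λ (by
      rw [htl, hΛ]; omega)).comp (R := Set.univ) (m := 1)
      (fun X => join (join (GX X) (tabOracle t)) B) (by
        intro w _
        match w with
        | [] => exact (DTP.const 1 False).congr (fun X => by simp [join])
        | [false] => exact (DTP.const 1 False).congr (fun X => by simp [join])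
        | false :: false :: w => exact hGXd w
        | false :: true :: w => exact DTP.const 1 (tabOracle t w = true)
        | true :: w => exact DTP.const 1 (B w = true))
    refine h1.mono ?_
    rw [mul_one]
    have : T.eval (N + k * qN) ≤ Λ := by rw [hΛ]; omega
    exact this.trans hΛT
  -- restriction of the forest
  obtain ⟨m', σ, hm', hσ1, hσ2⟩ := forest ((Finset.univ : Finset (Tab st Λ)) ×ˢ strings N)
    (q := qN) (T := T0) (μ := 3 * n) (K := k) (B := (k + 2) * N) (C := C) (N := N) (by
      rw [Finset.card_product, card_strings, Finset.card_univ, hC, pow_add]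
      exact Nat.mul_le_mul_right _ hcardT) hCT (by
      calc (k + 2) * N + 3 ≤ 2 ^ n := by omega
        _ ≤ 2 ^ (3 * n) := Nat.pow_le_pow_right (by norm_num) (by omega)) (by
      have : qN ≤ Λ := by rw [hΛ]; omega
      exact this.trans hΛT) (by
      rw [hT0, ← pow_add]
      exact Nat.pow_le_pow_right (by norm_num) (by omega))
    k true (List.replicate k N) N D le_rfl (by simp) (by
      intro x hx
      rw [List.eq_of_mem_replicate hx, hN]
      omega) (by rw [hN]; omega) (by
      rw [List.sum_replicate, smul_eq_mul]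
      apply le_of_eq
      ring) hDd
  rw [← List.replicate_succ'] at hσ2
  -- the final choice
  have hcardU : Fintype.card (Str m') = 2 ^ m' := Pool.Agent.H8.Str.card m'
  have hcardX : Fintype.card (Str N) = 2 ^ N := Pool.Agent.H8.Str.card N
  obtain ⟨γ, hγ⟩ := product (X := Str N) (U := Str m') (v := fun x u => [x.1, u.1]) (by
      intro x u x' u' h
      simp only [List.cons.injEq, and_true] at h
      exact ⟨Subtype.ext h.1, Subtype.ext h.2⟩) (by rw [hcardU]; positivity) T0 (by
      rw [hcardU, hT0, ← pow_succ']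
      exact Nat.pow_le_pow_right (by norm_num) (by omega))
    (Finset.univ : Finset (Tab st Λ)) ((Λ + 1) ^ 2 * 2 ^ n) (by
      rw [Finset.card_univ]; exact hcardT) (by
      rw [hcardX, Nat.le_div_iff_mul_le (Nat.succ_pos _)]
      have h1 : (Λ + 1) ^ 2 * 2 ^ n + 1 ≤ T0 := by
        have h2 : ((Λ + 1) ^ 2 + 1) * 2 ^ n ≤ 2 ^ n * 2 ^ n :=
          Nat.mul_le_mul_right _ (by omega)
        nlinarith
      have h3 : T0 + 1 ≤ 2 * T0 := by
        have : 1 ≤ T0 := Nat.one_le_two_pow
        omega
      calc 3 * ((Λ + 1) ^ 2 * 2 ^ n + 1) * (T0 + 1) ≤ 3 * T0 * (2 * T0) := by gcongr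
        _ = 6 * (T0 * T0) := by ring
        _ ≤ 2 ^ n * (T0 * T0) := by
            apply Nat.mul_le_mul_right
            omega
        _ = 2 ^ (5 * n) := by
            rw [hT0, ← pow_add, ← pow_add]
            congr 1
            ring
        _ ≤ 2 ^ N := Nat.pow_le_pow_right (by norm_num) (by omega))
    (fun t x b => AltL true (List.replicate k qN) (fun ws => D (t, x.1) ws (σ b))) (by
      intro t _ x
      exact hσ1 (t, x.1) (Finset.mem_product.mpr ⟨Finset.mem_univ _, mem_strings.mpr x.2⟩))
  obtain ⟨b, hb⟩ : ∃ b, b = asg (fun (x : Str N) (u : Str m') => [x.1, u.1]) γ := ⟨_, rfl⟩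
  rw [← hb] at hγ
  have hbval : ∀ x : Str N, qt true m' (fun u => b [x.1, u] = true) ↔ (γ x).2 = true := by
    intro x
    have hv : ∀ (x : Str N) (u : Str m') (x' : Str N) (u' : Str m'),
        (fun (x : Str N) (u : Str m') => [x.1, u.1]) x u =
          (fun (x : Str N) (u : Str m') => [x.1, u.1]) x' u' → x = x' ∧ u = u' := by
      intro x u x' u' h
      simp only [List.cons.injEq, and_true] at h
      exact ⟨Subtype.ext h.1, Subtype.ext h.2⟩
    simp only [qt]
    constructor
    · rintro ⟨u, hu, h⟩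
      have h1 := asg_iff hv γ x ⟨u, hu⟩
      rw [← hb] at h1
      rw [h1.mp h]
    · intro h
      refine ⟨(γ x).1.1, (γ x).1.2, ?_⟩
      have h1 := asg_iff hv γ x (γ x).1
      rw [← hb] at h1
      exact h1.mpr (Prod.ext rfl h)
  refine ⟨GX (σ b), ?_, N, ?_⟩
  · intro w hw
    have : w.length ≠ (k + 2) * N := by
      have : N ≤ (k + 2) * N := Nat.le_mul_of_pos_left _ (by omega)
      omega
    simp only [hGX, if_neg this]
  · intro S hS
    -- cut the oracle `S`
    have hcut : Census st (fun w => if w.length ≤ Λ then S w else false) := by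
      intro j
      rcases Nat.lt_or_ge Λ j with hj | hj
      · have : {w : List Bool | w.length = j ∧
            (if w.length ≤ Λ then S w else false) = true} = ∅ := by
          ext w
          simp only [Set.mem_ofPred_eq, Set.mem_empty_iff_false, iff_false]
          rintro ⟨h1, h2⟩
          rw [if_neg (by omega)] at h2
          exact absurd h2 (by decide)
        rw [this]
        simp
      · have hsub : {w : List Bool | w.length = j ∧
            (if w.length ≤ Λ then S w else false) = true} ⊆
            {w : List Bool | w.length = j ∧ S w = true} := by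
          rintro w ⟨h1, h2⟩
          rw [if_pos (by omega)] at h2
          exact ⟨h1, h2⟩
        have hfin : {w : List Bool | w.length = j ∧ S w = true}.Finite :=
          (Pool.Agent.H8.finite_len j).subset (fun w hw => hw.1)
        rcases Nat.lt_or_ge j n with hjn | hjn
        · have h1 : {w : List Bool | w.length = j ∧
              (if w.length ≤ Λ then S w else false) = true} ⊆ (strings j : Set (List Bool)) := by
            rintro w ⟨h1, -⟩
            exact Finset.mem_coe.mpr (mem_strings.mpr h1)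
          calc _ ≤ (strings j : Set (List Bool)).ncard :=
                Set.ncard_le_ncard h1 (Finset.finite_toSet _)
            _ = 2 ^ j := by rw [Set.ncard_coe_finset, card_strings]
            _ ≤ 2 ^ n := Nat.pow_le_pow_right (by norm_num) hjn.le
        · calc _ ≤ _ := Set.ncard_le_ncard hsub hfin
            _ ≤ s j := hS j
            _ ≤ 2 ^ n := hsm j hjn hj
    obtain ⟨t, ht⟩ := tab_exists hcut Λ
    obtain ⟨x, hx⟩ := hγ t (Finset.mem_univ _)
    refine ⟨x.1, x.2, ?_⟩
    intro hiff
    apply hx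
    rw [← hbval x, ← hσ2 x.1 (mem_strings.mpr x.2) b]
    have hleft : x.1 ∈ LngC (k + 1) (GX (σ b)) ↔
        AltL true (List.replicate (k + 1) N) (fun us => σ b (x.1 :: us) = true) := by
      have e1 : ∀ E : Oracle, (x.1 ∈ LngC (k + 1) E ↔ Alt true (k + 1) x.1.length
        (fun us => E (x.1 :: us).flatten.reverse = true)) := fun E => Iff.rfl
      rw [e1, Alt_eq, x.2]
      apply AltL_congr
      intro us hus
      have hpath : (x.1 :: us) ∈ paths Lv := by
        rw [mem_paths, List.map_cons, hus, x.2, hLv, List.replicate_succ (n := k + 1)]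
      have hlen : (x.1 :: us).flatten.reverse.length = (k + 2) * N := by
        rw [List.length_reverse, length_flatten_of_paths hpath, hLvs]
      simp only [hGX, if_pos hlen]
      rw [data_apply (σ b) hpath]
    rw [← hleft, hiff, Alt_eq, x.2, ← hqN]
    apply AltL_congr
    intro ws hws
    have hwsp : ws ∈ paths (List.replicate k qN) := mem_paths.2 hws
    have htl : totalLength (x.1 :: ws) = N + k * qN := by
      simp only [totalLength, List.map_cons, List.sum_cons, hws, List.sum_replicate,
        smul_eq_mul, x.2]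
    rw [htl]
    refine (dtp_acceptsIn p (x.1 :: ws) (T.eval (N + k * qN)) Λ (by
      rw [htl, hΛ]; omega)).depends ?_
    intro w hw
    refine join_agree (join_agree (fun _ _ => rfl) ?_) (fun _ _ => rfl) w hw
    intro v hv
    rw [ht v hv, if_pos hv]

/-- **Robustness half.** -/
theorem robust_half {s : ℕ → ℕ}
    (hs : ∀ c : ℕ, ∃ n, c ≤ n ∧ ∀ m, n ≤ m → m ≤ n ^ c → s m ≤ 2 ^ n) (B : Oracle) :
    ∀ᶠ G : Oracle in residual Oracle, ∀ S : Oracle, Census s S → ∀ k : ℕ,
      LngC (k + 1) G ∉ SigmaP (join (join G S) B) k := by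
  have hone : ∀ i : ℕ × Prog × Polynomial ℕ × Polynomial ℕ,
      ∀ᶠ G : Oracle in residual Oracle, Err3 s B i.1 i.2.1 i.2.2.1 i.2.2.2 G := by
    rintro ⟨k, p, q, T⟩
    apply residual_of_dense_open
    · exact err3_open s B k p q T
    · rw [dense_iff_inter_open]
      intro V hV hne
      obtain ⟨G0, hG0⟩ := hne
      rw [isOpen_pi_iff] at hV
      obtain ⟨F, u, hu1, hu2⟩ := hV G0 hG0
      obtain ⟨G, hG1, hG2⟩ := force3 hs B k p q T G0 (F.sup List.length + 1)
      refine ⟨G, ?_, hG2⟩
      apply hu2
      intro w hw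
      show G w ∈ u w
      have hlen : w.length < F.sup List.length + 1 := by
        have := Finset.le_sup (f := List.length) hw
        omega
      rw [hG1 w hlen]
      exact (hu1 w hw).2
  have hall := eventually_countable_forall.mpr hone
  filter_upwards [hall] with G hG
  intro S hS k hmem
  obtain ⟨q, p, ⟨T, hT⟩, hiff⟩ := hmem
  obtain ⟨N, hN⟩ := hG (k, p, q, T)
  obtain ⟨x, -, hx⟩ := hN S hS
  apply hx
  rw [hiff x]
  apply Pool.Agent.H8.alt9_congr
  intro us hus _
  exact accepts_iff_of_halted (hT (x :: us) (by simp [hus]))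

end Pool.Agent.H8r
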