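import Pool.Agent.H8.Layers2
import Pool.Agent.H8.Robust

set_option autoImplicit false
set_option linter.unusedSectionVars false

/-!
# The test language and the conversion to strings
-/

namespace Pool.Agent.H8h

open Finset Classical
open Pool.Agent.H9
open Pool.Agent.H8u
open Pool.Agent.H8 (Str Path Alt_cons Alt_congr Alt_not Alt_map alt_bridge)

/-! ### The test language -/

/-- the test language with `K` blocks: the certificates and the input are concatenated and the
result is looked up in the second half of the side oracle -/
def LngD (K : ℕ) (A : Oracle) : Set (List Bool) :=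
  {x | Pool.Agent.H9.Alt true K x.length
    (fun us => A (false :: true :: (x :: us).flatten.reverse) = true)}

/-- the program of the test language -/
def catD (K : ℕ) : Prog :=
  Prog.seq (moves (K + 1) (List.range (K + 1)))
    (Prog.seq (Prog.push (K + 1) true) (Prog.seq (Prog.push (K + 1) false)
      (Prog.ask (K + 1) (Prog.push 0 true) (Prog.push 0 false))))

theorem catD_spec (A : Oracle) (K : ℕ) (xs : List (List Bool)) (hxs : xs.length = K + 1) :
    ∃ s', run A (catD K) xs (totalLength xs * 5 + 2 * (K + 1) + 1 +
        (1 + (1 + 2 + 1) + 1) + 1) = ([], s') ∧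
      (s' 0).head? = some (A (false :: true :: xs.flatten.reverse)) := by
  obtain ⟨s1, h1, h2, -⟩ := exec_moves A (K + 1) (List.range (K + 1)) List.nodup_range
    (by simp) (fun i => xs.getD i [])
  have hmap : (List.range (K + 1)).map (fun i => xs.getD i []) = xs := by
    rw [← hxs]
    exact Pool.Agent.H8r.map_getD_range xs
  rw [hmap, List.length_range] at h1
  rw [hmap] at h2
  have h3 : s1 (K + 1) = xs.flatten.reverse := by
    rw [h2, List.getD_eq_default _ _ (by omega)]
    simp
  have e1 := exec_push A s1 (K + 1) true
  set s2 := Function.update s1 (K + 1) (true :: s1 (K + 1)) with hs2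
  have e2 := exec_push A s2 (K + 1) false
  set s3 := Function.update s2 (K + 1) (false :: s2 (K + 1)) with hs3
  have hs3v : s3 (K + 1) = false :: true :: xs.flatten.reverse := by
    rw [hs3, Function.update_self, hs2, Function.update_self, h3]
  have h4 : Exec A (Prog.ask (K + 1) (Prog.push 0 true) (Prog.push 0 false)) s3
      (Function.update s3 0 (A (false :: true :: xs.flatten.reverse) :: s3 0)) 2 := by
    apply exec_ask
    rw [hs3v]
    cases hA : A (false :: true :: xs.flatten.reverse)
    · rw [if_neg (by simp)]
      exact exec_push A s3 0 false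
    · rw [if_pos rfl]
      exact exec_push A s3 0 true
  refine ⟨_, run_of_exec (h1.seq (e1.seq (e2.seq h4))), ?_⟩
  rw [Function.update_self]
  rfl

theorem LngD_mem (K : ℕ) (A : Oracle) : LngD K A ∈ SigmaP A K := by
  refine ⟨Polynomial.X, catD K, ?_, ?_⟩
  · refine ⟨Polynomial.C 5 * Polynomial.X + Polynomial.C (2 * (K + 1) + 10), ?_⟩
    intro xs hxs
    obtain ⟨s', h1, -⟩ := catD_spec A K xs hxs
    have h2 : (run A (catD K) xs (totalLength xs * 5 + 2 * (K + 1) + 1 +
        (1 + (1 + 2 + 1) + 1) + 1)).1 = [] := by
      rw [h1]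
    rw [run_of_halted h2]
    · exact h2
    · simp only [Polynomial.eval_add, Polynomial.eval_mul, Polynomial.eval_C, Polynomial.eval_X]
      omega
  · intro x
    rw [Polynomial.eval_X]
    show Alt true K x.length _ ↔ _
    apply Pool.Agent.H8.alt9_congr
    intro us hus _
    obtain ⟨s', h1, h2⟩ := catD_spec A K (x :: us) (by simp [hus])
    have h3 : (run A (catD K) (x :: us)
        (totalLength (x :: us) * 5 + 2 * (K + 1) + 1 +
        (1 + (1 + 2 + 1) + 1) + 1)).1 = [] := by
      rw [h1]
    rw [accepts_iff_of_halted h3]
    unfold AcceptsIn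
    rw [h1]
    simp only [true_and]
    rw [h2]
    simp

/-! ### From paths to strings -/

/-- Decision trees for predicates which depend on finitely many variables. -/
theorem dtp_of_finset {α : Type*} (Z : Set α) (Q : Finset α) : (∀ a ∈ Q, a ∈ Z) →
    ∀ (f : (α → Bool) → Prop),
    (∀ ω ω' : α → Bool, (∀ a ∈ Q, ω a = ω' a) → (f ω ↔ f ω')) → DTP Z Q.card f := by
  induction Q using Finset.induction_on with
  | empty =>
    intro _ f hf
    refine (DTP.const 0 (f (fun _ => false))).congr ?_
    intro ω
    exact hf _ _ (by simp)
  | insert a Q ha ih =>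
    intro hQ f hf
    rw [Finset.card_insert_of_notMem ha]
    have h1 : ∀ s : Bool, DTP Z Q.card (fun ω : α → Bool => f (Function.update ω a s)) := by
      intro s
      apply ih (fun b hb => hQ b (Finset.mem_insert_of_mem hb))
      intro ω ω' h
      apply hf
      intro b hb
      by_cases hba : b = a
      · subst hba
        rw [Function.update_self, Function.update_self]
      · rw [Function.update_of_ne hba, Function.update_of_ne hba]
        rcases Finset.mem_insert.1 hb with hb | hb
        · exact absurd hb hba
        · exact h b hb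
    refine (DTP.node Q.card a (hQ a (Finset.mem_insert_self _ _)) _ _ (h1 true) (h1 false)).congr ?_
    intro ω
    have h2 : f (Function.update ω a (ω a)) ↔ f ω := by rw [Function.update_eq_self]
    cases h : ω a
    · rw [h] at h2
      simp [h2]
    · rw [h] at h2
      simp [h2]

/-- A formula as an alternation over strings, with matrices given by decision trees. -/
theorem strings_of_cl {α : Type} {ok : ℕ → α → Bool → Prop} {w P : ℕ} {k : ℕ}
    {f : (α → Bool) → Prop} (hf : Cl ok w (2 ^ P) k f) :
    ∃ D : List (List Bool) → (α → Bool) → Prop,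
      (∀ ws, DTP {a | ∃ h s, 1 ≤ h ∧ h ≤ k ∧ ok h a s} (k * w) (D ws)) ∧
      ∀ ω, ¬ f ω ↔ Pool.Agent.H9.Alt false k P (fun ws => D ws ω) := by
  have : NeZero (2 ^ P) := ⟨by positivity⟩
  obtain ⟨G, hG1, hG2⟩ := path_of_cl (N := 2 ^ P) le_rfl hf
  -- decoding of strings
  have hcard : Fintype.card (Str P) = Fintype.card (Fin (2 ^ P)) := by
    rw [Pool.Agent.H8.Str.card, Fintype.card_fin]
  obtain ⟨e⟩ : Nonempty (Str P ≃ Fin (2 ^ P)) := Fintype.card_eq.1 hcard
  let M : List (Fin (2 ^ P)) → (α → Bool) → Prop := fun ys ω =>
    ∃ l : Path (Fin (2 ^ P)) k, l.toList = ys ∧ ¬ G l ω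
  let dec : List Bool → Fin (2 ^ P) := fun u => if h : u.length = P then e ⟨u, h⟩ else
    ⟨0, by positivity⟩
  refine ⟨fun ws ω => M (ws.map dec) ω, ?_, ?_⟩
  · intro ws
    by_cases h : ∃ l : Path (Fin (2 ^ P)) k, l.toList = ws.map dec
    · obtain ⟨l, hl⟩ := h
      obtain ⟨Q, h1, h2, h3⟩ := hG1 l
      have h4 := (dtp_of_finset {a | ∃ h s, 1 ≤ h ∧ h ≤ k ∧ ok h a s} Q h2 (G l) h3).not
      refine (h4.mono h1).congr ?_
      intro ω
      constructor
      · intro h
        exact ⟨l, hl, h⟩
      · rintro ⟨l', hl', h⟩
        rwa [Path.toList_inj (hl'.trans hl.symm)] at h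
    · refine (DTP.const _ False).congr ?_
      intro ω
      constructor
      · exact fun h => h.elim
      · rintro ⟨l, hl, _⟩
        exact h ⟨l, hl⟩
  · intro ω
    rw [hG2 ω, Alt_not, alt_bridge]
    have h1 := Alt_map (fun u : Str P => e u) e.surjective (!true) k (fun ys => M ys ω)
    refine Iff.trans ?_ (h1.symm.trans ?_)
    · apply Alt_congr
      intro l
      constructor
      · intro h
        exact ⟨l, rfl, h⟩
      · rintro ⟨l', hl', h⟩
        rwa [Path.toList_inj hl'] at h
    · apply Alt_congr
      intro l
      have h2 : List.map (fun u : Str P => e u) l.toList =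
          List.map dec (List.map Subtype.val l.toList) := by
        rw [List.map_map]
        apply List.map_congr_left
        intro u _
        show e u = dec u.1
        simp only [dec]
        rw [dif_pos u.2]
      rw [h2]

end Pool.Agent.H8h
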