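import Mathlib

namespace H8

/-- in a cube two different vertices with a common neighbour have a second common neighbour -/
theorem second_nbr {n : ℕ} (u v w : Fin n → Bool) (huw : hammingDist u w = 1)
    (hvw : hammingDist v w = 1) (huv : u ≠ v) :
    ∃ w', w' ≠ w ∧ hammingDist u w' = 1 ∧ hammingDist v w' = 1 := by
  refine ⟨fun i => xor (xor (u i) (v i)) (w i), ?_, ?_, ?_⟩
  · intro h
    apply huv
    funext i
    have := congrFun h i
    cases hu : u i <;> cases hv : v i <;> cases hw : w i <;> simp_all
  · rw [← hvw]
    unfold hammingDist
    congr 1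
    ext i
    cases hu : u i <;> cases hv : v i <;> cases hw : w i <;> simp [hu, hv, hw]
  · rw [← huw]
    unfold hammingDist
    congr 1
    ext i
    cases hu : u i <;> cases hv : v i <;> cases hw : w i <;> simp [hu, hv, hw]

/-- a vertex of the cube has at most `n` neighbours -/
theorem nbr_card {n : ℕ} (v : Fin n → Bool) :
    (Finset.univ.filter (fun w : Fin n → Bool => hammingDist v w = 1)).card ≤ n := by
  have hsub : Finset.univ.filter (fun w : Fin n → Bool => hammingDist v w = 1) ⊆
      Finset.univ.image (fun i : Fin n => Function.update v i (!v i)) := by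
    intro w hw
    simp only [Finset.mem_filter, Finset.mem_univ, true_and] at hw
    unfold hammingDist at hw
    obtain ⟨i, hi⟩ := Finset.card_eq_one.1 hw
    simp only [Finset.mem_image, Finset.mem_univ, true_and]
    refine ⟨i, ?_⟩
    funext j
    by_cases hj : j = i
    · subst hj
      have : j ∈ ({j} : Finset (Fin n)) := Finset.mem_singleton_self j
      rw [← hi] at this
      simp only [Finset.mem_filter, Finset.mem_univ, true_and] at this
      simp only [Function.update_self]
      cases hv : v j <;> cases hw' : w j <;> simp_all
    · have : j ∉ ({i} : Finset (Fin n)) := by simpa using hj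
      rw [← hi] at this
      simp only [Finset.mem_filter, Finset.mem_univ, true_and, not_not] at this
      simp [Function.update_of_ne hj, this]
  calc _ ≤ _ := Finset.card_le_card hsub
    _ ≤ (Finset.univ : Finset (Fin n)).card := Finset.card_image_le
    _ = n := by simp

/-- (A): a forest in the `n`-cube has at most `2 ^ n / n` vertices of degree `n` -/
theorem full_degree_bound {n : ℕ} (T : SimpleGraph (Fin n → Bool)) [DecidableRel T.Adj]
    (hT : T.IsAcyclic) (hQ : ∀ u v, T.Adj u v → hammingDist u v = 1) :
    n * (Finset.univ.filter (fun v => T.degree v = n)).card ≤ 2 ^ n := by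
  classical
  have hfull : ∀ v, T.degree v = n → ∀ w, hammingDist v w = 1 → T.Adj v w := by
    intro v hv w hw
    have hsub : T.neighborFinset v ⊆
        Finset.univ.filter (fun w : Fin n → Bool => hammingDist v w = 1) := by
      intro x hx
      simp only [SimpleGraph.mem_neighborFinset] at hx
      simp only [Finset.mem_filter, Finset.mem_univ, true_and]
      exact hQ v x hx
    have hEq := Finset.eq_of_subset_of_card_le hsub (by
      rw [SimpleGraph.card_neighborFinset_eq_degree, hv]; exact nbr_card v)
    have hmem : w ∈ T.neighborFinset v := by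
      rw [hEq]; simp [hw]
    simpa using hmem
  have hdisj : ∀ u v, T.degree u = n → T.degree v = n → u ≠ v →
      Disjoint (T.neighborFinset u) (T.neighborFinset v) := by
    intro u v hu hv huv
    rw [Finset.disjoint_left]
    intro w hwu hwv
    simp only [SimpleGraph.mem_neighborFinset] at hwu hwv
    obtain ⟨w', hne, h1, h2⟩ := second_nbr u v w (hQ u w hwu) (hQ v w hwv) huv
    have a1 : T.Adj u w' := hfull u hu w' h1
    have a2 : T.Adj v w' := hfull v hv w' h2
    have hp1 : (SimpleGraph.Walk.cons hwu (SimpleGraph.Walk.cons hwv.symm
        SimpleGraph.Walk.nil) : T.Walk u v).IsPath := by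
      simp [SimpleGraph.Walk.isPath_def, huv, hwu.ne, hwv.ne.symm]
    have hp2 : (SimpleGraph.Walk.cons a1 (SimpleGraph.Walk.cons a2.symm
        SimpleGraph.Walk.nil) : T.Walk u v).IsPath := by
      simp [SimpleGraph.Walk.isPath_def, huv, a1.ne, a2.ne.symm]
    have := (hT.subsingleton_path u v).elim ⟨_, hp1⟩ ⟨_, hp2⟩
    have h3 := congrArg (fun q : T.Path u v => q.1.support) this
    simp only [SimpleGraph.Walk.support_cons, SimpleGraph.Walk.support_nil, List.cons.injEq] at h3
    exact hne h3.2.1.symm
  set F := Finset.univ.filter (fun v => T.degree v = n) with hF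
  have hcard : (F.biUnion (fun v => T.neighborFinset v)).card = n * F.card := by
    rw [Finset.card_biUnion]
    · rw [Finset.sum_congr rfl (g := fun _ => n)]
      · simp [mul_comm]
      · intro v hv
        rw [SimpleGraph.card_neighborFinset_eq_degree]
        exact (Finset.mem_filter.1 hv).2
    · intro u hu v hv huv
      exact hdisj u v (Finset.mem_filter.1 hu).2 (Finset.mem_filter.1 hv).2 huv
  rw [← hcard]
  calc _ ≤ (Finset.univ : Finset (Fin n → Bool)).card := Finset.card_le_univ _
    _ = 2 ^ n := by simp

end H8
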