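import Pool.Agent.H8.Thresh
import Pool.Agent.H8.CensusDef

set_option autoImplicit false
set_option linter.unusedSectionVars false

/-!
Baire category in the compact space of oracles with census at most `s`, and the positive half of
the threshold theorem.
-/

namespace Pool.Agent.H8

open Pool.Agent.H9 (Oracle Prog Cfg step run start AcceptsIn Accepts totalLength PolyTime SigmaP join)
open Filter Topology

/-! ### Growth -/

theorem poly_bound (Φ : Polynomial ℕ) : ∃ c : ℕ, ∀ n : ℕ, Φ.eval n ≤ n ^ c + c := by
  refine ⟨Φ.natDegree + Φ.eval 1, ?_⟩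
  intro n
  have h1 : Φ.eval 1 = ∑ i ∈ Finset.range (Φ.natDegree + 1), Φ.coeff i := by
    rw [Polynomial.eval_eq_sum_range]
    simp
  rcases Nat.eq_zero_or_pos n with hn | hn
  · subst hn
    have h2 : Φ.eval 0 ≤ Φ.eval 1 := by
      rw [h1, ← Polynomial.coeff_zero_eq_eval_zero]
      exact Finset.single_le_sum (f := fun i => Φ.coeff i) (fun _ _ => Nat.zero_le _)
        (Finset.mem_range.mpr (Nat.succ_pos _))
    exact h2.trans (le_trans (Nat.le_add_left _ _) (Nat.le_add_left _ _))
  · have h2 : Φ.eval n ≤ Φ.eval 1 * n ^ Φ.natDegree := by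
      rw [Polynomial.eval_eq_sum_range, h1, Finset.sum_mul]
      apply Finset.sum_le_sum
      intro i hi
      apply Nat.mul_le_mul_left
      apply Nat.pow_le_pow_right hn
      have := Finset.mem_range.mp hi
      omega
    rcases Nat.lt_or_ge n 2 with h3 | h3
    · have hn1 : n = 1 := by omega
      subst hn1
      rw [one_pow]
      omega
    · have h4 : Φ.eval 1 ≤ n ^ Φ.eval 1 := by
        calc Φ.eval 1 ≤ 2 ^ Φ.eval 1 := Nat.lt_two_pow_self.le
          _ ≤ n ^ Φ.eval 1 := Nat.pow_le_pow_left h3 _
      calc Φ.eval n ≤ Φ.eval 1 * n ^ Φ.natDegree := h2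
        _ ≤ n ^ Φ.eval 1 * n ^ Φ.natDegree := Nat.mul_le_mul_right _ h4
        _ = n ^ (Φ.natDegree + Φ.eval 1) := by rw [← pow_add, add_comm]
        _ ≤ _ := Nat.le_add_right _ _

theorem eventually_pow_le (c : ℕ) : ∃ N, ∀ n ≥ N, n ^ c + c ≤ 2 ^ n := by
  have h1 : Tendsto (fun n : ℕ => (n : ℝ) ^ c / 2 ^ n) atTop (𝓝 0) :=
    tendsto_pow_const_div_const_pow_of_one_lt c (by norm_num)
  have h2 : Tendsto (fun n : ℕ => (n : ℝ) ^ 1 / 2 ^ n) atTop (𝓝 0) :=
    tendsto_pow_const_div_const_pow_of_one_lt 1 (by norm_num)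
  have e1 := h1.eventually (gt_mem_nhds (show (0 : ℝ) < 1 / 2 by norm_num))
  have e2 := h2.eventually (gt_mem_nhds (show (0 : ℝ) < 1 / 2 by norm_num))
  have e3 : ∀ᶠ n : ℕ in atTop, c ≤ n := eventually_ge_atTop c
  obtain ⟨N, hN⟩ := eventually_atTop.mp (e1.and (e2.and e3))
  refine ⟨N, ?_⟩
  intro n hn
  obtain ⟨a1, a2, a3⟩ := hN n hn
  have hp : (0 : ℝ) < 2 ^ n := by positivity
  rw [div_lt_iff₀ hp] at a1 a2
  have a3' : (c : ℝ) ≤ n := by exact_mod_cast a3
  have : ((n ^ c + c : ℕ) : ℝ) ≤ ((2 ^ n : ℕ) : ℝ) := by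
    push_cast
    rw [pow_one] at a2
    linarith
  exact_mod_cast this

theorem large_arg {s : ℕ → ℕ} (hs : ∀ c : ℕ, ∃ n, n ^ c + c < s n) (c N : ℕ) :
    ∃ n ≥ N, n ^ c + c < s n := by
  by_contra hcon
  push Not at hcon
  obtain ⟨n, hn⟩ := hs (c + ∑ i ∈ Finset.range N, s i)
  rcases Nat.lt_or_ge n N with h | h
  · have : s n ≤ ∑ i ∈ Finset.range N, s i :=
      Finset.single_le_sum (fun _ _ => Nat.zero_le _) (Finset.mem_range.mpr h)
    omega
  · have h1 := hcon n h
    rcases Nat.eq_zero_or_pos n with hn0 | hn0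
    · subst hn0
      have h0 : N = 0 := by omega
      subst h0
      rw [Finset.range_zero, Finset.sum_empty, add_zero] at hn
      omega
    · have h2 : n ^ c ≤ n ^ (c + ∑ i ∈ Finset.range N, s i) :=
        Nat.pow_le_pow_right hn0 (Nat.le_add_right _ _)
      omega

/-- choice of the parameters -/
theorem params {s : ℕ → ℕ} (hs : ∀ c : ℕ, ∃ n, n ^ c + c < s n) (k N : ℕ) (P : Polynomial ℕ) :
    ∃ L e : ℕ, N ≤ L ∧ (k + 1) * (2 * e) ≤ L ∧ 2 ^ ((k + 1) * (2 * e)) ≤ s L ∧
      (8 * P.eval L + 1) * (2 * e * k + 2) ≤ 2 ^ e := by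
  set R : Polynomial ℕ := (Polynomial.C 8 * P + 1) * Polynomial.C (2 * k + 2) with hR
  set Φ : Polynomial ℕ := (Polynomial.C 64 * R ^ 2) ^ (2 * (k + 1)) with hΦ
  obtain ⟨c, hc⟩ := poly_bound Φ
  obtain ⟨N1, hN1⟩ := eventually_pow_le c
  obtain ⟨L, hL, hLs⟩ := large_arg hs c (max N N1)
  set r := R.eval L with hr
  have hre : r = (8 * P.eval L + 1) * (2 * k + 2) := by
    rw [hr, hR]
    simp
  have hr1 : 1 ≤ r := by
    rw [hre]
    exact Nat.mul_pos (by omega) (by omega)
  set g := Nat.clog 2 r with hg
  have hg1 : r ≤ 2 ^ g := Nat.le_pow_clog (by norm_num) r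
  have hg2 : 2 ^ g ≤ 2 * r := by
    rcases Nat.eq_zero_or_pos g with h0 | h0
    · rw [h0]; omega
    · have hlt : 2 ^ (g - 1) < r := by
        apply Nat.pow_pred_clog_lt_self (by norm_num)
        by_contra hcon
        have : r = 1 := by omega
        rw [hg, this] at h0
        simp at h0
      calc 2 ^ g = 2 * 2 ^ (g - 1) := by
            rw [← pow_succ']
            congr 1
            omega
        _ ≤ 2 * r := by omega
  refine ⟨L, 2 * g + 4, le_trans (le_max_left _ _) hL, ?_, ?_, ?_⟩
  rotate_left
  · -- size of the region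
    have h1 : 2 ^ (2 * g + 4) ≤ 64 * r ^ 2 := by
      calc 2 ^ (2 * g + 4) = 16 * (2 ^ g) ^ 2 := by rw [pow_add, mul_comm 2 g, pow_mul]; ring
        _ ≤ 16 * (2 * r) ^ 2 := by gcongr
        _ = 64 * r ^ 2 := by ring
    have h2 : 2 ^ ((k + 1) * (2 * (2 * g + 4))) ≤ Φ.eval L := by
      calc 2 ^ ((k + 1) * (2 * (2 * g + 4))) = (2 ^ (2 * g + 4)) ^ (2 * (k + 1)) := by
            rw [← pow_mul]
            congr 1
            ring
        _ ≤ (64 * r ^ 2) ^ (2 * (k + 1)) := by gcongr
        _ = Φ.eval L := by rw [hΦ, hr]; simp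
    exact (h2.trans (hc L)).trans hLs.le
  · -- the numerical condition
    have h1 : 2 * (2 * g + 4) * k + 2 ≤ (2 * k + 2) * (2 * g + 4) := by nlinarith
    have h2 : 2 * g + 4 ≤ 16 * 2 ^ g := by
      have := Nat.lt_two_pow_self (n := g)
      have h3 : 1 ≤ 2 ^ g := Nat.one_le_two_pow
      omega
    calc (8 * P.eval L + 1) * (2 * (2 * g + 4) * k + 2)
        ≤ (8 * P.eval L + 1) * ((2 * k + 2) * (2 * g + 4)) := Nat.mul_le_mul_left _ h1
      _ = r * (2 * g + 4) := by rw [hre]; ring
      _ ≤ 2 ^ g * (16 * 2 ^ g) := Nat.mul_le_mul hg1 h2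
      _ = 2 ^ (2 * g + 4) := by rw [pow_add, two_mul, pow_add]; ring
  · -- the region fits
    have h1 : 2 ^ (2 * g + 4) ≤ 64 * r ^ 2 := by
      calc 2 ^ (2 * g + 4) = 16 * (2 ^ g) ^ 2 := by rw [pow_add, mul_comm 2 g, pow_mul]; ring
        _ ≤ 16 * (2 * r) ^ 2 := by gcongr
        _ = 64 * r ^ 2 := by ring
    have h2 : 2 ^ ((k + 1) * (2 * (2 * g + 4))) ≤ Φ.eval L := by
      calc 2 ^ ((k + 1) * (2 * (2 * g + 4))) = (2 ^ (2 * g + 4)) ^ (2 * (k + 1)) := by
            rw [← pow_mul]
            congr 1
            ring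
        _ ≤ (64 * r ^ 2) ^ (2 * (k + 1)) := by gcongr
        _ = Φ.eval L := by rw [hΦ, hr]; simp
    have h3 : 2 ^ ((k + 1) * (2 * (2 * g + 4))) ≤ 2 ^ L :=
      (h2.trans (hc L)).trans (hN1 L (le_trans (le_max_right _ _) hL))
    exact (Nat.pow_le_pow_iff_right (by norm_num)).mp h3

/-! ### The space -/

theorem finite_len (n : ℕ) : {w : List Bool | w.length = n}.Finite := by
  have : {w : List Bool | w.length = n} = Set.range (Subtype.val : Str n → List Bool) := by
    ext w
    simp
  rw [this]
  exact Set.finite_range _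

theorem isOpen_of_local {P : Oracle → Prop}
    (h : ∀ D, P D → ∃ F : Finset (List Bool), ∀ D' : Oracle, (∀ w ∈ F, D' w = D w) → P D') :
    IsOpen {D : Oracle | P D} := by
  rw [isOpen_pi_iff]
  intro D hD
  obtain ⟨F, hF⟩ := h D hD
  refine ⟨F, fun w => {D w}, ?_, ?_⟩
  · intro w _
    exact ⟨isOpen_discrete _, rfl⟩
  · intro D' hD'
    exact hF D' (fun w hw => hD' w hw)

theorem isClosed_census (s : ℕ → ℕ) : IsClosed {D : Oracle | Census s D} := by
  rw [← isOpen_compl_iff]
  apply isOpen_of_local (P := fun D => ¬ Census s D)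
  intro D hD
  unfold Census at hD
  push Not at hD
  obtain ⟨n, hn⟩ := hD
  refine ⟨(finite_len n).toFinset, ?_⟩
  intro D' hD' hC
  have : {w : List Bool | w.length = n ∧ D' w = true} = {w : List Bool | w.length = n ∧ D w = true} := by
    ext w
    constructor
    · rintro ⟨h1, h2⟩
      refine ⟨h1, ?_⟩
      rw [← hD' w (by simpa using h1)]
      exact h2
    · rintro ⟨h1, h2⟩
      refine ⟨h1, ?_⟩
      rw [hD' w (by simpa using h1)]
      exact h2
  have h3 := hC n
  rw [this] at h3
  omega

instance (s : ℕ → ℕ) : CompactSpace (Sparse s) :=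
  isCompact_iff_compactSpace.mp (isClosed_census s).isCompact

theorem baire_sparse (s : ℕ → ℕ) : BaireSpace (Sparse s) := inferInstance

/-- the machine `(p, q, T)` with `k` blocks errs on the test language somewhere -/
def Err (A B : Oracle) (k : ℕ) (p : Prog) (q T : Polynomial ℕ) (D : Oracle) : Prop :=
  ∃ x : List Bool, ¬ (x ∈ Lng (k + 1) (xorO A D) ↔
    Pool.Agent.H9.Alt true k (q.eval x.length)
      (fun us => AcceptsIn (join (xorO A D) B) p (x :: us) (T.eval (totalLength (x :: us)))))

theorem totalLength_eq (x : List Bool) (us : List (List Bool)) (m : ℕ)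
    (h : ∀ u ∈ us, u.length = m) : totalLength (x :: us) = x.length + us.length * m := by
  unfold totalLength
  rw [List.map_cons, List.sum_cons]
  congr 1
  rw [List.eq_replicate_iff.mpr (⟨by simp, by
    intro b hb
    obtain ⟨u, hu, rfl⟩ := List.mem_map.mp hb
    exact h u hu⟩ : (us.map List.length).length = us.length ∧ ∀ b ∈ us.map List.length, b = m)]
  simp

theorem Alt_local {X : Type} [Fintype X] {k : ℕ} (b : Bool) (P : Oracle → Path X k → Prop)
    (D : Oracle) (h : ∀ l, ∃ F : Finset (List Bool), ∀ D' : Oracle, (∀ w ∈ F, D' w = D w) →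
      (P D' l ↔ P D l)) :
    ∃ F : Finset (List Bool), ∀ D' : Oracle, (∀ w ∈ F, D' w = D w) →
      (Alt X b k (P D') ↔ Alt X b k (P D)) := by
  classical
  choose F hF using h
  refine ⟨Finset.univ.biUnion F, ?_⟩
  intro D' hD'
  apply Alt_congr
  intro l
  apply hF
  intro w hw
  exact hD' w (Finset.mem_biUnion.mpr ⟨l, Finset.mem_univ _, hw⟩)

theorem err_open (A B : Oracle) (k : ℕ) (p : Prog) (q T : Polynomial ℕ) :
    IsOpen {D : Oracle | Err A B k p q T D} := by
  classical
  apply isOpen_of_local
  rintro D ⟨x, hx⟩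
  -- the language side
  have h1 : ∃ F : Finset (List Bool), ∀ D' : Oracle, (∀ w ∈ F, D' w = D w) →
      (x ∈ Lng (k + 1) (xorO A D') ↔ x ∈ Lng (k + 1) (xorO A D)) := by
    obtain ⟨F, hF⟩ := Alt_local (X := Str x.length) (k := k + 1) true
      (fun D l => xorO A D (weave x (l.toList.map Subtype.val) []) = true) D (by
        intro l
        refine ⟨{weave x (l.toList.map Subtype.val) []}, ?_⟩
        intro D' hD'
        unfold xorO
        rw [hD' _ (by simp)])
    refine ⟨F, ?_⟩
    intro D' hD'
    have := hF D' hD'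
    have e1 : ∀ E : Oracle, (x ∈ Lng (k + 1) E ↔ Pool.Agent.H9.Alt true (k + 1) x.length
        (fun us => E (weave x us []) = true)) := fun E => Iff.rfl
    rw [e1, e1, alt_bridge, alt_bridge]
    exact this
  -- the machine side
  have h2 : ∃ F : Finset (List Bool), ∀ D' : Oracle, (∀ w ∈ F, D' w = D w) →
      (Pool.Agent.H9.Alt true k (q.eval x.length)
        (fun us => AcceptsIn (join (xorO A D') B) p (x :: us) (T.eval (totalLength (x :: us)))) ↔
      Pool.Agent.H9.Alt true k (q.eval x.length)
        (fun us => AcceptsIn (join (xorO A D) B) p (x :: us) (T.eval (totalLength (x :: us))))) := by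
    obtain ⟨F, hF⟩ := Alt_local (X := Str (q.eval x.length)) (k := k) true
      (fun D l => AcceptsIn (join (xorO A D) B) p (x :: l.toList.map Subtype.val)
        (T.eval (totalLength (x :: l.toList.map Subtype.val)))) D (by
        intro l
        obtain ⟨Q, -, hQ2⟩ := run_local (join (xorO A D) B)
          (T.eval (totalLength (x :: l.toList.map Subtype.val)))
          (start p (x :: l.toList.map Subtype.val))
        refine ⟨Q.image List.tail, ?_⟩
        intro D' hD'
        have hrun : run (join (xorO A D') B) p (x :: l.toList.map Subtype.val)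
              (T.eval (totalLength (x :: l.toList.map Subtype.val))) =
            run (join (xorO A D) B) p (x :: l.toList.map Subtype.val)
              (T.eval (totalLength (x :: l.toList.map Subtype.val))) := by
          apply hQ2
          intro w hw
          cases w with
          | nil => rfl
          | cons b w =>
            cases b
            · show xor (A w) (D' w) = xor (A w) (D w)
              rw [hD' w (Finset.mem_image.mpr ⟨false :: w, hw, rfl⟩)]
            · rfl
        unfold AcceptsIn
        rw [hrun])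
    refine ⟨F, ?_⟩
    intro D' hD'
    rw [alt_bridge, alt_bridge]
    exact hF D' hD'
  obtain ⟨F1, hF1⟩ := h1
  obtain ⟨F2, hF2⟩ := h2
  refine ⟨F1 ∪ F2, ?_⟩
  intro D' hD'
  refine ⟨x, ?_⟩
  rw [hF1 D' (fun w hw => hD' w (Finset.mem_union_left _ hw)),
    hF2 D' (fun w hw => hD' w (Finset.mem_union_right _ hw))]
  exact hx

/-- Every finite condition extends to an oracle of census at most `s` with an error. -/
theorem err_dense {s : ℕ → ℕ} (hs : ∀ c : ℕ, ∃ n, n ^ c + c < s n) (A B : Oracle) (k : ℕ)
    (p : Prog) (q T : Polynomial ℕ) (D0 : Oracle) (hD0 : Census s D0) (F : Finset (List Bool)) :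
    ∃ D : Oracle, Census s D ∧ (∀ w ∈ F, D w = D0 w) ∧ Err A B k p q T D := by
  classical
  set P : Polynomial ℕ := q * Polynomial.C k + Polynomial.C 2 +
    T.comp (Polynomial.X + Polynomial.C k * q) with hP
  obtain ⟨L, e, hN, hfit, hreg, hnum⟩ := params hs k (F.sup List.length + 1) P
  obtain ⟨z, hz⟩ : ∃ z, z + (k + 1) * (2 * e) = L := ⟨L - (k + 1) * (2 * e), by omega⟩
  set n := 2 * e + z with hn
  have hnL : n ≤ L := by
    rw [hn, ← hz]
    nlinarith
  set m := q.eval n with hm
  set τ := T.eval (n + k * m) with hτ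
  have hPe : m * k + 2 + τ = P.eval n := by
    rw [hP, hτ, hm]
    simp
  have hmono : P.eval n ≤ P.eval L := by
    rw [Polynomial.eval_eq_sum_range, Polynomial.eval_eq_sum_range]
    apply Finset.sum_le_sum
    intro i _
    exact Nat.mul_le_mul_left _ (Nat.pow_le_pow_left hnL i)
  -- below length `L` we keep `D0`, above nothing
  set Db : Oracle := fun w => if w.length < L then D0 w else false with hDb
  obtain ⟨α, hα⟩ := finite_lower k e z m τ (P.eval L) B (xorO A Db) p (by rw [hPe]; exact hmono) hnum
  set D : Oracle := fun w => if h : ∃ l : Path (Wd e) (k + 1), code e z l = w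
    then xor (A w) (α h.choose) else Db w with hD
  have hDcode : ∀ l, D (code e z l) = xor (A (code e z l)) (α l) := by
    intro l
    have h : ∃ l' : Path (Wd e) (k + 1), code e z l' = code e z l := ⟨l, rfl⟩
    rw [hD]
    simp only
    rw [dif_pos h]
    congr 2
    exact code_inj e z h.choose_spec
  have hDother : ∀ w, (∀ l : Path (Wd e) (k + 1), code e z l ≠ w) → D w = Db w := by
    intro w h
    rw [hD]
    simp only
    rw [dif_neg]
    rintro ⟨l, hl⟩
    exact h l hl
  have hlen : ∀ l : Path (Wd e) (k + 1), (code e z l).length = L := by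
    intro l
    rw [length_code, hz]
  have hDshort : ∀ w : List Bool, w.length ≠ L → D w = Db w := by
    intro w hw
    apply hDother
    rintro l rfl
    exact hw (hlen l)
  refine ⟨D, ?_, ?_, script e z, ?_⟩
  · -- the census
    intro j
    rcases lt_trichotomy j L with hj | hj | hj
    · have : {w : List Bool | w.length = j ∧ D w = true} =
          {w : List Bool | w.length = j ∧ D0 w = true} := by
        ext w
        constructor
        · rintro ⟨h1, h2⟩
          refine ⟨h1, ?_⟩
          rw [hDshort w (by omega), hDb] at h2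
          simp only at h2
          rwa [if_pos (by omega)] at h2
        · rintro ⟨h1, h2⟩
          refine ⟨h1, ?_⟩
          rw [hDshort w (by omega), hDb]
          simp only
          rwa [if_pos (by omega)]
      rw [this]
      exact hD0 j
    · subst hj
      have hsub : {w : List Bool | w.length = j ∧ D w = true} ⊆
          Set.range (fun l : Path (Wd e) (k + 1) => code e z l) := by
        rintro w ⟨h1, h2⟩
        by_contra hcon
        have h3 : ∀ l : Path (Wd e) (k + 1), code e z l ≠ w := fun l hl => hcon ⟨l, hl⟩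
        rw [hDother w h3, hDb] at h2
        simp only at h2
        rw [if_neg (by omega)] at h2
        exact absurd h2 (by decide)
      calc {w : List Bool | w.length = j ∧ D w = true}.ncard
          ≤ (Set.range (fun l : Path (Wd e) (k + 1) => code e z l)).ncard :=
            Set.ncard_le_ncard hsub (Set.finite_range _)
        _ = Nat.card (Path (Wd e) (k + 1)) := by
            rw [← Set.image_univ, Set.ncard_image_of_injective _ (code_inj e z), Set.ncard_univ]
        _ = 2 ^ ((k + 1) * (2 * e)) := by
            rw [Nat.card_eq_fintype_card, Path.card, Fintype.card_prod, Str.card, ← pow_add,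
              ← pow_mul]
            congr 1
            ring
        _ ≤ s j := hreg
    · have : {w : List Bool | w.length = j ∧ D w = true} = ∅ := by
        ext w
        simp only [Set.mem_ofPred_eq, Set.mem_empty_iff_false, iff_false]
        rintro ⟨h1, h2⟩
        rw [hDshort w (by omega), hDb] at h2
        simp only at h2
        rw [if_neg (by omega)] at h2
        exact absurd h2 (by decide)
      rw [this]
      simp
  · -- agreement on `F`
    intro w hw
    have hwl : w.length < L := by
      have := Finset.le_sup (f := List.length) hw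
      omega
    rw [hDshort w (by omega), hDb]
    simp only
    rw [if_pos hwl]
  · -- the error
    have h := hα (xorO A D) (by
        intro l
        unfold xorO
        rw [hDcode]
        cases A (code e z l) <;> cases α l <;> rfl) (by
        intro w hw
        unfold xorO
        rw [hDother w hw])
    intro hiff
    apply h
    rw [hiff, length_script, ← hn, ← hm]
    apply alt9_congr
    intro us hus1 hus2
    rw [totalLength_eq _ _ m hus2, length_script, ← hn, hus1]

instance : Countable (Polynomial ℕ) := by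
  have hinj : Function.Injective
      (fun p : Polynomial ℕ => (List.range (p.natDegree + 1)).map p.coeff) := by
    intro p q hpq
    simp only at hpq
    have hlen : p.natDegree = q.natDegree := by
      have := congrArg List.length hpq
      simpa using this
    rw [hlen] at hpq
    ext i
    rcases Nat.lt_or_ge q.natDegree i with h | h
    · rw [Polynomial.coeff_eq_zero_of_natDegree_lt h,
        Polynomial.coeff_eq_zero_of_natDegree_lt (by omega)]
    · have := List.map_inj_left.mp hpq i (List.mem_range.mpr (by omega))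
      exact this
  exact hinj.countable

/-- **Generic half.**  If `s` is not bounded by a polynomial then for comeagerly many oracles `D`
of census at most `s` all levels of the hierarchy relative to `A xor D` are different, and this
remains true against machines which have access to any side oracle `B`. -/
theorem generic_half {s : ℕ → ℕ} (hs : ∀ c : ℕ, ∃ n, n ^ c + c < s n) (A B : Oracle) :
    ∀ᶠ D : Sparse s in residual (Sparse s), ∀ k : ℕ,
      Lng (k + 1) (xorO A D.1) ∉ SigmaP (join (xorO A D.1) B) k := by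
  have hone : ∀ i : ℕ × Prog × Polynomial ℕ × Polynomial ℕ,
      ∀ᶠ D : Sparse s in residual (Sparse s), Err A B i.1 i.2.1 i.2.2.1 i.2.2.2 D.1 := by
    rintro ⟨k, p, q, T⟩
    apply residual_of_dense_open
    · exact (err_open A B k p q T).preimage continuous_subtype_val
    · rw [dense_iff_inter_open]
      intro U hU hne
      obtain ⟨D0, hD0⟩ := hne
      obtain ⟨V, hV, rfl⟩ := isOpen_induced_iff.mp hU
      rw [isOpen_pi_iff] at hV
      obtain ⟨F, u, hu1, hu2⟩ := hV D0.1 hD0
      obtain ⟨D, hD1, hD2, hD3⟩ := err_dense hs A B k p q T D0.1 D0.2 F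
      refine ⟨⟨D, hD1⟩, ?_, hD3⟩
      apply hu2
      intro w hw
      show D w ∈ u w
      rw [hD2 w hw]
      exact (hu1 w hw).2
  have hall := eventually_countable_forall.mpr hone
  filter_upwards [hall] with D hD
  intro k hmem
  obtain ⟨q, p, ⟨T, hT⟩, hiff⟩ := hmem
  obtain ⟨x, hx⟩ := hD (k, p, q, T)
  apply hx
  rw [hiff x]
  apply alt9_congr
  intro us hus _
  exact accepts_iff (hT (x :: us) (by simp [hus]))

end Pool.Agent.H8
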