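import Pool.Agent.H8.Switch
import Pool.Agent.H8.Pr

set_option autoImplicit false
set_option linter.unusedSectionVars false

/-!
# The counting lemma for hidden positions

`Y : B → J` chooses one position in every block. A term `(P, Q)` is valid if `Y` satisfies all the
pairs in `P`; it is hit at the blocks `b` with `(b, Y b) ∈ Q`. For random `Y` it is very unlikely
that all valid terms are hit although no small set of blocks meets all the sets of hits.
-/

namespace Pool.Agent.H8h

open Finset
open Pool.Agent.H8 (Trm first_unique first_nondead)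

section

variable {B J : Type} [DecidableEq B] [DecidableEq J]

/-- the term is valid -/
def PV (Y : B → J) (T : Trm B J) : Prop := ∀ x ∈ T.1, Y x.1 = x.2

/-- the blocks at which the term is hit -/
def hits (Y : B → J) (T : Trm B J) : Finset B :=
  (T.2.filter (fun x => Y x.1 = x.2)).image Prod.fst

/-- the blocks of a term -/
def blks (T : Trm B J) : Finset B := (T.1 ∪ T.2).image Prod.fst

theorem mem_hits {Y : B → J} {T : Trm B J} {b : B} : b ∈ hits Y T ↔ (b, Y b) ∈ T.2 := by
  unfold hits
  rw [Finset.mem_image]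
  constructor
  · rintro ⟨⟨b', j⟩, h, rfl⟩
    rw [Finset.mem_filter] at h
    simp only at h ⊢
    rw [h.2]
    exact h.1
  · intro h
    exact ⟨(b, Y b), Finset.mem_filter.2 ⟨h, rfl⟩, rfl⟩

theorem hits_subset (Y : B → J) (T : Trm B J) : hits Y T ⊆ blks T := by
  intro b hb
  rw [mem_hits] at hb
  exact Finset.mem_image.2 ⟨(b, Y b), Finset.mem_union_right _ hb, rfl⟩

/-- a greedy run: always the first valid term not hit in the current set of blocks -/
inductive Run (l : List (Trm B J)) (Y : B → J) : Finset B → List (B × J) → Prop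
  | nil (K : Finset B) : Run l Y K []
  | cons {K : Finset B} {l1 l2 : List (Trm B J)} {T : Trm B J} {b : B} {L : List (B × J)} :
      l = l1 ++ T :: l2 → (∀ T' ∈ l1, PV Y T' → ¬ Disjoint (hits Y T') K) → PV Y T →
      Disjoint (hits Y T) K → b ∈ hits Y T → Run l Y (K ∪ blks T) L → Run l Y K ((b, Y b) :: L)

theorem Run.mem {l : List (Trm B J)} {Y : B → J} {K : Finset B} {L : List (B × J)}
    (h : Run l Y K L) : ∀ x ∈ L, x.1 ∉ K ∧ Y x.1 = x.2 := by
  induction h with
  | nil K => simp
  | cons hl h1 h2 h3 h4 _ ih =>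
    intro x hx
    rcases List.mem_cons.1 hx with rfl | hx
    · exact ⟨Finset.disjoint_left.1 h3 h4, rfl⟩
    · exact ⟨fun h => (ih x hx).1 (Finset.mem_union_left _ h), (ih x hx).2⟩

theorem Run.nodup {l : List (Trm B J)} {Y : B → J} {K : Finset B} {L : List (B × J)}
    (h : Run l Y K L) : (L.map Prod.fst).Nodup := by
  induction h with
  | nil K => simp
  | cons hl h1 h2 h3 h4 h5 ih =>
    rw [List.map_cons, List.nodup_cons]
    refine ⟨?_, ih⟩
    intro hmem
    obtain ⟨x, hx, hx1⟩ := List.mem_map.1 hmem
    apply (h5.mem x hx).1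
    rw [hx1]
    exact Finset.mem_union_right _ (hits_subset _ _ h4)

/-- lists of a run for an unknown assignment which agrees with `Y'` outside of the list -/
def Good (l : List (Trm B J)) (Y' : B → J) (K A : Finset B) (r : ℕ) (L : List (B × J)) : Prop :=
  ∃ Y : B → J, Run l Y K L ∧ L.length = r ∧ (∀ b, b ∉ L.map Prod.fst → Y' b = Y b) ∧
    ∀ a ∈ A, a ∈ L.map Prod.fst

theorem run_count (l : List (Trm B J)) (w : ℕ) (hw : 1 ≤ w)
    (hl : ∀ T ∈ l, Disjoint T.1 T.2 ∧ T.1.card ≤ w ∧ T.2.card ≤ w) :
    ∀ (n : ℕ) (Y' : B → J) (K A : Finset B) (r : ℕ), 2 * r = n + A.card →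
      ∀ X : Finset (List (B × J)), (∀ L ∈ X, Good l Y' K A r L) → X.card ≤ (2 * w) ^ n := by
  intro n
  induction n using Nat.strong_induction_on with
  | _ n ih =>
  intro Y' K A r hr X hX
  have hpos : ∀ m, 1 ≤ (2 * w) ^ m := fun m => Nat.one_le_pow _ _ (by omega)
  rcases X.eq_empty_or_nonempty with rfl | ⟨L0, hL0⟩
  · simp
  cases r with
  | zero =>
    have : X ⊆ {[]} := by
      intro L hL
      obtain ⟨Y, _, h2, _⟩ := hX L hL
      rw [List.length_eq_zero_iff] at h2
      simp [h2]
    exact (Finset.card_le_card this).trans (by simpa using hpos n)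
  | succ r =>
    have hA : A.card ≤ r + 1 := by
      obtain ⟨Y, _, h2, _, h4⟩ := hX L0 hL0
      have h5 : A ⊆ (L0.map Prod.fst).toFinset := by
        intro a ha
        rw [List.mem_toFinset]
        exact h4 a ha
      have h6 := (Finset.card_le_card h5).trans (List.toFinset_card_le _)
      rw [List.length_map, h2] at h6
      exact h6
    obtain ⟨n, rfl⟩ : ∃ n', n = n' + 1 := ⟨n - 1, by omega⟩
    -- the predicate computable from `Y'`
    set Q : Trm B J → Prop := fun T => PV Y' T ∧ (∀ x ∈ T.1, x.1 ∉ A) ∧ Disjoint (hits Y' T) K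
      with hQ
    have claim : ∀ (Y : B → J) (T : Trm B J) (b : B) (L : List (B × J)), T ∈ l → PV Y T →
        Disjoint (hits Y T) K → b ∈ hits Y T → Run l Y (K ∪ blks T) L →
        (∀ b', b' ∉ ((b, Y b) :: L).map Prod.fst → Y' b' = Y b') →
        (∀ a ∈ A, a ∈ ((b, Y b) :: L).map Prod.fst) → Q T := by
      intro Y T b L hT h1 h2 h3 h4 h5 h6
      have hav : ∀ x ∈ T.1, x.1 ∉ ((b, Y b) :: L).map Prod.fst := by
        intro x hx hmem
        rw [List.map_cons, List.mem_cons] at hmem
        rcases hmem with hmem | hmem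
        · simp only at hmem
          have h7 := h1 x hx
          rw [mem_hits] at h3
          have h8 : x = (b, Y b) := Prod.ext hmem (by rw [← h7, hmem])
          exact Finset.disjoint_left.1 (hl T hT).1 hx (h8 ▸ h3)
        · obtain ⟨z, hz, hz1⟩ := List.mem_map.1 hmem
          apply (h4.mem z hz).1
          rw [hz1]
          exact Finset.mem_union_right _
            (Finset.mem_image.2 ⟨x, Finset.mem_union_left _ hx, rfl⟩)
      refine ⟨?_, ?_, ?_⟩
      · intro x hx
        rw [h5 x.1 (hav x hx)]
        exact h1 x hx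
      · intro x hx hxA
        exact hav x hx (h6 x.1 hxA)
      · rw [Finset.disjoint_left]
        intro b' hb' hK
        have h7 : b' ∉ ((b, Y b) :: L).map Prod.fst := by
          intro hmem
          rw [List.map_cons, List.mem_cons] at hmem
          rcases hmem with hmem | hmem
          · simp only at hmem
            subst hmem
            exact Finset.disjoint_left.1 h2 h3 hK
          · obtain ⟨z, hz, hz1⟩ := List.mem_map.1 hmem
            apply (h4.mem z hz).1
            rw [hz1]
            exact Finset.mem_union_left _ hK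
        have h8 := h5 b' h7
        apply Finset.disjoint_left.1 h2 _ hK
        rw [mem_hits] at hb' ⊢
        rw [← h8]
        exact hb'
    -- the first term with this property
    obtain ⟨l1, l2, T', hT1, hT2, hT3⟩ : ∃ l1 l2 T', l = l1 ++ T' :: l2 ∧ (∀ x ∈ l1, ¬ Q x) ∧
        Q T' := by
      rcases first_nondead (fun T => ¬ Q T) l with h | ⟨l1, l2, T', h1, h2, h3⟩
      · exfalso
        obtain ⟨Y, h1, h2, h3, h4⟩ := hX L0 hL0
        cases h1 with
        | nil => simp at h2
        | cons g1 g2 g3 g4 g5 g6 =>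
          exact h _ (by rw [g1]; simp) (claim Y _ _ _ (by rw [g1]; simp) g3 g4 g5 g6 h3 h4)
      · exact ⟨l1, l2, T', h1, h2, by simpa using h3⟩
    have hT'l : T' ∈ l := by rw [hT1]; simp
    classical
    let X1 : B × J → Finset (List (B × J)) := fun x =>
      X.filter (fun L => x.1 ∉ A ∧ x.1 ∈ L.map Prod.fst)
    let X2 : B × J → Finset (List (B × J)) := fun x =>
      X.filter (fun L => ∃ L', L = x :: L' ∧
        Good l (Function.update Y' x.1 x.2) (K ∪ blks T') (A.erase x.1) r L')
    have hcover : X ⊆ T'.1.biUnion X1 ∪ T'.2.biUnion X2 := by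
      intro L hL
      obtain ⟨Y, h1, h2, h3, h4⟩ := hX L hL
      cases h1 with
      | nil => simp at h2
      | @cons _ m1 m2 T b L' g1 g2 g3 g4 g5 g6 =>
        have hQT : Q T := claim Y T b L' (by rw [g1]; simp) g3 g4 g5 g6 h3 h4
        by_cases hm : ∀ x ∈ m1, ¬ Q x
        · -- the same term
          have hTT : T' = T := first_unique Q hT1 g1 hT2 hT3 hm hQT
          subst hTT
          apply Finset.mem_union_right
          rw [Finset.mem_biUnion]
          refine ⟨(b, Y b), mem_hits.1 g5, ?_⟩
          rw [Finset.mem_filter]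
          refine ⟨hL, L', rfl, Y, g6, by simpa using h2, ?_, ?_⟩
          · intro b' hb'
            by_cases hbb : b' = b
            · subst hbb
              simp
            · rw [Function.update_of_ne hbb]
              apply h3
              rw [List.map_cons, List.mem_cons]
              push Not
              exact ⟨hbb, hb'⟩
          · intro a ha
            rw [Finset.mem_erase] at ha
            have h5 := h4 a ha.2
            rw [List.map_cons, List.mem_cons] at h5
            rcases h5 with h5 | h5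
            · exact absurd h5 ha.1
            · exact h5
        · -- an earlier term, invalid for `Y`
          have hT'm : T' ∈ m1 := by
            rcases first_nondead (fun T => ¬ Q T) m1 with h | ⟨n1, n2, T'', e1, e2, e3⟩
            · exact absurd h hm
            · have e4 : l = n1 ++ T'' :: (n2 ++ T :: m2) := by
                rw [g1, e1]
                simp
              have := first_unique Q hT1 e4 hT2 hT3 e2 (by simpa using e3)
              rw [this, e1]
              simp
          have hnot : ¬ PV Y T' := by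
            intro hPV
            apply g2 T' hT'm hPV
            rw [Finset.disjoint_left]
            intro b' hb' hK
            have h7 : b' ∉ ((b, Y b) :: L').map Prod.fst := by
              intro hmem
              obtain ⟨z, hz, hz1⟩ := List.mem_map.1 hmem
              have hrun : Run l Y K ((b, Y b) :: L') := Run.cons g1 g2 g3 g4 g5 g6
              apply (hrun.mem z hz).1
              rw [hz1]
              exact hK
            apply Finset.disjoint_left.1 hT3.2.2 _ hK
            rw [mem_hits] at hb' ⊢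
            rw [h3 b' h7]
            exact hb'
          unfold PV at hnot
          push Not at hnot
          obtain ⟨x, hx, hxne⟩ := hnot
          have hxL : x.1 ∈ ((b, Y b) :: L').map Prod.fst := by
            by_contra hcon
            apply hxne
            rw [← h3 x.1 hcon]
            exact hT3.1 x hx
          apply Finset.mem_union_left
          rw [Finset.mem_biUnion]
          exact ⟨x, hx, Finset.mem_filter.2 ⟨hL, hT3.2.1 x hx, hxL⟩⟩
    have hc1 : ∀ x ∈ T'.1, (X1 x).card ≤ (2 * w) ^ n := by
      intro x _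
      rcases (X1 x).eq_empty_or_nonempty with he | ⟨L1, hL1⟩
      · rw [he]; simp
      · have hxA : x.1 ∉ A := (Finset.mem_filter.1 hL1).2.1
        apply ih n (by omega) Y' K (insert x.1 A) (r + 1)
        · rw [Finset.card_insert_of_notMem hxA]
          omega
        · intro L hL
          obtain ⟨hLX, _, hx⟩ := Finset.mem_filter.1 hL
          obtain ⟨Y, h1, h2, h3, h4⟩ := hX L hLX
          refine ⟨Y, h1, h2, h3, ?_⟩
          intro a ha
          rcases Finset.mem_insert.1 ha with rfl | ha
          · exact hx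
          · exact h4 a ha
    have hc2 : ∀ x ∈ T'.2, (X2 x).card ≤ (2 * w) ^ n := by
      intro x _
      rcases (X2 x).eq_empty_or_nonempty with he | hne
      · rw [he]; simp
      have hinj : Set.InjOn List.tail (X2 x : Set (List (B × J))) := by
        intro L hL L' hL' hLL
        obtain ⟨_, M, rfl, _⟩ := Finset.mem_filter.1 (Finset.mem_coe.1 hL)
        obtain ⟨_, M', rfl, _⟩ := Finset.mem_filter.1 (Finset.mem_coe.1 hL')
        simp only [List.tail_cons] at hLL
        rw [hLL]
      rw [← Finset.card_image_of_injOn hinj]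
      have herase : (A.erase x.1).card ≤ A.card ∧ A.card ≤ (A.erase x.1).card + 1 := by
        refine ⟨Finset.card_erase_le, ?_⟩
        have := Finset.pred_card_le_card_erase (s := A) (a := x.1)
        omega
      have herase2 : (A.erase x.1).card ≤ r := by
        obtain ⟨L, hL⟩ := hne
        obtain ⟨_, M, _, Y, _, h2, _, h4⟩ := Finset.mem_filter.1 hL
        have h5 : A.erase x.1 ⊆ (M.map Prod.fst).toFinset := by
          intro a ha
          rw [List.mem_toFinset]
          exact h4 a ha
        have h6 := (Finset.card_le_card h5).trans (List.toFinset_card_le _)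
        rw [List.length_map, h2] at h6
        exact h6
      obtain ⟨n', hn'⟩ : ∃ n', 2 * r = n' + (A.erase x.1).card :=
        ⟨2 * r - (A.erase x.1).card, by omega⟩
      refine (ih n' (by omega) (Function.update Y' x.1 x.2) (K ∪ blks T') (A.erase x.1) r hn'
        _ ?_).trans (Nat.pow_le_pow_right (by omega) (by omega))
      intro L hL
      obtain ⟨M, hM, rfl⟩ := Finset.mem_image.1 hL
      obtain ⟨_, L', rfl, hg⟩ := Finset.mem_filter.1 hM
      exact hg
    calc X.card ≤ (T'.1.biUnion X1 ∪ T'.2.biUnion X2).card := Finset.card_le_card hcover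
      _ ≤ (T'.1.biUnion X1).card + (T'.2.biUnion X2).card := Finset.card_union_le _ _
      _ ≤ T'.1.card * (2 * w) ^ n + T'.2.card * (2 * w) ^ n :=
        Nat.add_le_add (Finset.card_biUnion_le_card_mul _ _ _ hc1)
          (Finset.card_biUnion_le_card_mul _ _ _ hc2)
      _ ≤ w * (2 * w) ^ n + w * (2 * w) ^ n :=
        Nat.add_le_add (Nat.mul_le_mul_right _ (hl T' hT'l).2.1)
          (Nat.mul_le_mul_right _ (hl T' hT'l).2.2)
      _ = (2 * w) ^ (n + 1) := by ring

theorem run_decision (l : List (Trm B J)) (w : ℕ)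
    (hl : ∀ T ∈ l, T.1.card ≤ w ∧ T.2.card ≤ w) (Y : B → J)
    (hne : ∀ T ∈ l, PV Y T → (hits Y T).Nonempty) :
    ∀ (r : ℕ) (K : Finset B), (¬ ∃ L : List (B × J), L.length = r ∧ Run l Y K L) →
      ∃ K' : Finset B, K ⊆ K' ∧ K'.card ≤ K.card + 2 * w * r ∧
        ∀ T ∈ l, PV Y T → ¬ Disjoint (hits Y T) K' := by
  intro r
  induction r with
  | zero =>
    intro K h
    exact absurd ⟨[], rfl, Run.nil K⟩ h
  | succ r ih =>
    intro K h
    rcases first_nondead (fun T => PV Y T → ¬ Disjoint (hits Y T) K) l with h1 |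
      ⟨l1, l2, T, h1, h2, h3⟩
    · exact ⟨K, Finset.Subset.refl _, by omega, h1⟩
    · push Not at h3
      obtain ⟨h3, h4⟩ := h3
      have hT : T ∈ l := by rw [h1]; simp
      obtain ⟨b, hb⟩ := hne T hT h3
      obtain ⟨K', g1, g2, g3⟩ := ih (K ∪ blks T) (by
        rintro ⟨L, hL, hrun⟩
        exact h ⟨(b, Y b) :: L, by simp [hL], Run.cons h1 h2 h3 h4 hb hrun⟩)
      refine ⟨K', Finset.subset_union_left.trans g1, ?_, g3⟩
      have h5 : (blks T).card ≤ 2 * w := by
        unfold blks
        refine Finset.card_image_le.trans ((Finset.card_union_le _ _).trans ?_)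
        have := hl T hT
        omega
      have h6 := Finset.card_union_le K (blks T)
      calc K'.card ≤ (K ∪ blks T).card + 2 * w * r := g2
        _ ≤ K.card + 2 * w + 2 * w * r := by omega
        _ = K.card + 2 * w * (r + 1) := by ring

theorem card_agree [Fintype B] [Fintype J] (Y : B → J) (D : Finset B) :
    ((Finset.univ : Finset (B → J)).filter (fun Y' => ∀ b, b ∉ D → Y' b = Y b)).card =
      Fintype.card J ^ D.card := by
  classical
  have h : (Finset.univ : Finset (B → J)).filter (fun Y' => ∀ b, b ∉ D → Y' b = Y b) =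
      Fintype.piFinset (fun b => if b ∈ D then (Finset.univ : Finset J) else {Y b}) := by
    ext Y'
    rw [Finset.mem_filter, Fintype.mem_piFinset]
    constructor
    · rintro ⟨_, h⟩ b
      by_cases hb : b ∈ D
      · simp [hb]
      · simp [hb, h b hb]
    · intro h
      refine ⟨Finset.mem_univ _, ?_⟩
      intro b hb
      have := h b
      simpa [hb] using this
  rw [h, Fintype.card_piFinset]
  have : ∀ b : B, (if b ∈ D then (Finset.univ : Finset J) else {Y b}).card =
      if b ∈ D then Fintype.card J else 1 := by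
    intro b
    split_ifs <;> simp
  rw [Finset.prod_congr rfl (fun b _ => this b), Finset.prod_ite]
  simp

open Classical in
theorem hit_count [Fintype B] [Fintype J] (l : List (Trm B J)) (w : ℕ) (hw : 1 ≤ w)
    (hl : ∀ T ∈ l, Disjoint T.1 T.2 ∧ T.1.card ≤ w ∧ T.2.card ≤ w) (r : ℕ) :
    ((Finset.univ : Finset (B → J)).filter
      (fun Y => ∃ L : List (B × J), L.length = r ∧ Run l Y ∅ L)).card * Fintype.card J ^ r ≤
      Fintype.card (B → J) * (2 * w) ^ (2 * r) := by
  set 𝒴 := (Finset.univ : Finset (B → J)).filter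
      (fun Y => ∃ L : List (B × J), L.length = r ∧ Run l Y ∅ L) with h𝒴
  have hex : ∀ Y ∈ 𝒴, ∃ L : List (B × J), L.length = r ∧ Run l Y ∅ L := fun Y hY =>
    (Finset.mem_filter.1 hY).2
  choose! F hF1 hF2 using hex
  let agree : (B → J) → Finset (B → J) := fun Y =>
    (Finset.univ : Finset (B → J)).filter (fun Y' => ∀ b, b ∉ ((F Y).map Prod.fst).toFinset →
      Y' b = Y b)
  have hagree : ∀ Y ∈ 𝒴, (agree Y).card = Fintype.card J ^ r := by
    intro Y hY
    simp only [agree]
    rw [card_agree, List.toFinset_card_of_nodup (hF2 Y hY).nodup, List.length_map, hF1 Y hY]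
  have h1 : (𝒴.sigma agree).card = 𝒴.card * Fintype.card J ^ r := by
    rw [Finset.card_sigma, Finset.sum_congr rfl hagree, Finset.sum_const, smul_eq_mul]
  have h2 : (𝒴.sigma agree).card ≤
      ((Finset.univ : Finset (B → J)).sigma
        (fun Y' => (𝒴.filter (fun Y => Y' ∈ agree Y)).image F)).card := by
    apply Finset.card_le_card_of_injOn (fun z => ⟨z.2, F z.1⟩)
    · rintro ⟨Y, Y'⟩ hz
      rw [Finset.mem_coe, Finset.mem_sigma] at hz
      rw [Finset.mem_coe, Finset.mem_sigma]
      refine ⟨Finset.mem_univ _, ?_⟩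
      rw [Finset.mem_image]
      exact ⟨Y, Finset.mem_filter.2 hz, rfl⟩
    · rintro ⟨Y1, Z1⟩ hz1 ⟨Y2, Z2⟩ hz2 heq
      rw [Finset.mem_coe, Finset.mem_sigma] at hz1 hz2
      simp only [Sigma.mk.injEq, heq_eq_eq] at heq
      obtain ⟨rfl, hFF⟩ := heq
      simp only at hz1 hz2
      have hYY : Y1 = Y2 := by
        funext b
        by_cases hb : b ∈ ((F Y1).map Prod.fst).toFinset
        · rw [List.mem_toFinset] at hb
          obtain ⟨x, hx, rfl⟩ := List.mem_map.1 hb
          rw [((hF2 Y1 hz1.1).mem x hx).2]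
          rw [hFF] at hx
          rw [((hF2 Y2 hz2.1).mem x hx).2]
        · have e1 := (Finset.mem_filter.1 hz1.2).2 b hb
          rw [hFF] at hb
          have e2 := (Finset.mem_filter.1 hz2.2).2 b hb
          rw [← e1, ← e2]
      subst hYY
      rfl
  have h3 : ((Finset.univ : Finset (B → J)).sigma
        (fun Y' => (𝒴.filter (fun Y => Y' ∈ agree Y)).image F)).card ≤
      Fintype.card (B → J) * (2 * w) ^ (2 * r) := by
    rw [Finset.card_sigma]
    refine (Finset.sum_le_card_nsmul _ _ ((2 * w) ^ (2 * r)) ?_).trans ?_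
    · intro Y' _
      apply run_count l w hw hl (2 * r) Y' ∅ ∅ r (by simp)
      intro L hL
      obtain ⟨Y, hY, rfl⟩ := Finset.mem_image.1 hL
      rw [Finset.mem_filter] at hY
      refine ⟨Y, hF2 Y hY.1, hF1 Y hY.1, ?_, by simp⟩
      intro b hb
      exact (Finset.mem_filter.1 hY.2).2 b (by rwa [List.mem_toFinset])
    · rw [smul_eq_mul, Finset.card_univ]
  rw [← h1]
  exact h2.trans h3

/-- **Counting lemma.** -/
theorem hit_pr [Fintype B] [Fintype J] [Nonempty J] (l : List (Trm B J)) (w : ℕ) (hw : 1 ≤ w)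
    (hl : ∀ T ∈ l, Disjoint T.1 T.2 ∧ T.1.card ≤ w ∧ T.2.card ≤ w) (r : ℕ) :
    pr (fun Y : B → J => (∀ T ∈ l, PV Y T → (hits Y T).Nonempty) ∧
      ∀ K : Finset B, K.card ≤ 2 * w * r → ∃ T ∈ l, PV Y T ∧ Disjoint (hits Y T) K) ≤
      ((2 * w : ℝ) ^ 2 / Fintype.card J) ^ r := by
  classical
  have hJ : (0 : ℝ) < Fintype.card J := by exact_mod_cast Fintype.card_pos
  have hΩ : (0 : ℝ) < Fintype.card (B → J) := by exact_mod_cast Fintype.card_pos
  have hsub : (Finset.univ : Finset (B → J)).filter
      (fun Y => (∀ T ∈ l, PV Y T → (hits Y T).Nonempty) ∧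
      ∀ K : Finset B, K.card ≤ 2 * w * r → ∃ T ∈ l, PV Y T ∧ Disjoint (hits Y T) K) ⊆
      (Finset.univ : Finset (B → J)).filter
      (fun Y => ∃ L : List (B × J), L.length = r ∧ Run l Y ∅ L) := by
    intro Y hY
    rw [Finset.mem_filter] at hY ⊢
    refine ⟨Finset.mem_univ _, ?_⟩
    by_contra hcon
    obtain ⟨K', _, h2, h3⟩ := run_decision l w (fun T hT => (hl T hT).2) Y hY.2.1 r ∅ hcon
    obtain ⟨T, hT, h4, h5⟩ := hY.2.2 K' (by simpa using h2)
    exact h3 T hT h4 h5
  have hcount := hit_count l w hw hl r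
  have h1 := Finset.card_le_card hsub
  rw [pr_eq, div_le_iff₀ hΩ, div_pow, ← pow_mul, div_mul_eq_mul_div, le_div_iff₀ (by positivity)]
  calc ((Finset.filter _ (Finset.univ : Finset (B → J))).card : ℝ) * (Fintype.card J : ℝ) ^ r
      ≤ (((Finset.univ : Finset (B → J)).filter
        (fun Y => ∃ L : List (B × J), L.length = r ∧ Run l Y ∅ L)).card : ℝ) *
        (Fintype.card J : ℝ) ^ r := by
        apply mul_le_mul_of_nonneg_right _ (by positivity)
        exact_mod_cast h1
    _ ≤ Fintype.card (B → J) * (2 * w : ℝ) ^ (2 * r) := by exact_mod_cast hcount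
    _ = _ := by ring

/-- **Counting lemma**, first round. -/
theorem hit_pr1 [Fintype B] [Fintype J] [Nonempty J] (l : List (Trm B J)) (w : ℕ) (hw : 1 ≤ w)
    (hl : ∀ T ∈ l, Disjoint T.1 T.2 ∧ T.1.card ≤ w ∧ T.2.card ≤ w) :
    pr (fun Y : B → J => (∃ T ∈ l, PV Y T) ∧ ∀ T ∈ l, PV Y T → (hits Y T).Nonempty) ≤
      (2 * w : ℝ) ^ 2 / Fintype.card J := by
  classical
  have hJ : (0 : ℝ) < Fintype.card J := by exact_mod_cast Fintype.card_pos
  have hΩ : (0 : ℝ) < Fintype.card (B → J) := by exact_mod_cast Fintype.card_pos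
  have hsub : (Finset.univ : Finset (B → J)).filter
      (fun Y => (∃ T ∈ l, PV Y T) ∧ ∀ T ∈ l, PV Y T → (hits Y T).Nonempty) ⊆
      (Finset.univ : Finset (B → J)).filter
      (fun Y => ∃ L : List (B × J), L.length = 1 ∧ Run l Y ∅ L) := by
    intro Y hY
    rw [Finset.mem_filter] at hY ⊢
    refine ⟨Finset.mem_univ _, ?_⟩
    obtain ⟨_, ⟨T0, hT0, hPV0⟩, hall⟩ := hY
    rcases first_nondead (fun T => ¬ PV Y T) l with h1 | ⟨l1, l2, T, h1, h2, h3⟩
    · exact absurd hPV0 (h1 T0 hT0)
    · rw [not_not] at h3
      obtain ⟨b, hb⟩ := hall T (by rw [h1]; simp) h3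
      exact ⟨[(b, Y b)], rfl, Run.cons h1 (fun T' hT' h => absurd h (h2 T' hT')) h3
        (Finset.disjoint_empty_right _) hb (Run.nil _)⟩
  have hcount := hit_count l w hw hl 1
  have h1 := Finset.card_le_card hsub
  rw [pr_eq, div_le_iff₀ hΩ, div_mul_eq_mul_div, le_div_iff₀ (by positivity)]
  calc ((Finset.filter _ (Finset.univ : Finset (B → J))).card : ℝ) * (Fintype.card J : ℝ)
      ≤ (((Finset.univ : Finset (B → J)).filter
        (fun Y => ∃ L : List (B × J), L.length = 1 ∧ Run l Y ∅ L)).card : ℝ) *
        (Fintype.card J : ℝ) := by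
        apply mul_le_mul_of_nonneg_right _ (by positivity)
        exact_mod_cast h1
    _ ≤ Fintype.card (B → J) * (2 * w : ℝ) ^ 2 := by
        have : (((Finset.univ : Finset (B → J)).filter
          (fun Y => ∃ L : List (B × J), L.length = 1 ∧ Run l Y ∅ L)).card : ℝ) *
          (Fintype.card J : ℝ) ^ 1 ≤ Fintype.card (B → J) * (2 * w : ℝ) ^ (2 * 1) := by
          exact_mod_cast hcount
        simpa using this
    _ = _ := by ring

end

end Pool.Agent.H8h
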