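import Pool.Agent.H8.World

set_option autoImplicit false
set_option linter.unusedSectionVars false

/-!
# Elimination of a layer of codes, and of all layers
-/

namespace Pool.Agent.H8h

open Finset Classical
open Pool.Agent.H9 (Oracle Prog DTP AcceptsIn totalLength words mem_words card_words)
open Pool.Agent.H8u
open Pool.Agent.H8 (Str)

theorem pr_trans {Ω : Type} [Fintype Ω] {A B C : Ω → Prop} :
    pr (fun ω => ¬ (A ω ↔ C ω)) ≤ pr (fun ω => ¬ (A ω ↔ B ω)) + pr (fun ω => ¬ (B ω ↔ C ω)) := by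
  refine le_trans (pr_mono ?_) (pr_or _ _)
  intro ω h
  by_contra hcon
  push Not at hcon
  exact h (hcon.1.trans hcon.2)

/-! ### Numerical estimates for one stage -/

theorem num_w {P : ℕ} (hP : 5 ≤ P) :
    (P + 2 * P * (2 * P ^ 2)) * (1 + 2 * (2 * P ^ 2)) ≤ P ^ 8 := by
  have h1 : P + 2 * P * (2 * P ^ 2) ≤ 5 * P ^ 3 := by
    have : P ≤ P ^ 3 := Nat.le_self_pow (by norm_num) P
    calc P + 2 * P * (2 * P ^ 2) = P + 4 * P ^ 3 := by ring
      _ ≤ 5 * P ^ 3 := by omega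
  have h2 : 1 + 2 * (2 * P ^ 2) ≤ 5 * P ^ 2 := by
    have : 1 ≤ P ^ 2 := Nat.one_le_pow _ _ (by omega)
    omega
  calc _ ≤ (5 * P ^ 3) * (5 * P ^ 2) := Nat.mul_le_mul h1 h2
    _ = (5 * 5) * P ^ 5 := by ring
    _ ≤ (P * P) * P ^ 5 := Nat.mul_le_mul_right _ (Nat.mul_le_mul hP hP)
    _ = P ^ 7 := by ring
    _ ≤ P ^ 8 := Nat.pow_le_pow_right (by omega) (by norm_num)

theorem num_S {P b : ℕ} (hP : 5 ≤ P) (hb : b + 1 ≤ 2 ^ P) :
    2 ^ P * (b + 1) ^ (2 * (P + 2 * P * (2 * P ^ 2)) * (2 * P ^ 2)) ≤ 2 ^ (P ^ 8) := by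
  have h1 : P + 2 * P * (2 * P ^ 2) ≤ 5 * P ^ 3 := by
    have : P ≤ P ^ 3 := Nat.le_self_pow (by norm_num) P
    calc P + 2 * P * (2 * P ^ 2) = P + 4 * P ^ 3 := by ring
      _ ≤ 5 * P ^ 3 := by omega
  have h2 : 2 * (P + 2 * P * (2 * P ^ 2)) * (2 * P ^ 2) ≤ 20 * P ^ 5 := by
    calc _ ≤ 2 * (5 * P ^ 3) * (2 * P ^ 2) := by gcongr
      _ = 20 * P ^ 5 := by ring
  calc _ ≤ 2 ^ P * (2 ^ P) ^ (20 * P ^ 5) := by
        apply Nat.mul_le_mul_left
        exact (Nat.pow_le_pow_left hb _).trans (Nat.pow_le_pow_right (Nat.one_le_two_pow) h2)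
    _ = 2 ^ (P + P * (20 * P ^ 5)) := by rw [← pow_mul, ← pow_add]
    _ ≤ 2 ^ (P ^ 8) := by
        apply Nat.pow_le_pow_right (by norm_num)
        have h3 : P ≤ P ^ 6 := Nat.le_self_pow (by norm_num) P
        calc P + P * (20 * P ^ 5) = P + 20 * P ^ 6 := by ring
          _ ≤ (5 * 5) * P ^ 6 := by omega
          _ ≤ (P * P) * P ^ 6 := Nat.mul_le_mul_right _ (Nat.mul_le_mul hP hP)
          _ = P ^ 8 := by ring

theorem num_q {P L lam : ℕ} (hP : 5 ≤ P) (hJ : P ^ 9 * 2 ^ L ≤ 2 ^ lam) :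
    qq (Str lam) P (2 * P ^ 2) ≤ (1 / 2 : ℝ) ^ L := by
  unfold qq
  rw [Pool.Agent.H8.Str.card]
  have h1 : P + 2 * P * (2 * P ^ 2) ≤ 5 * P ^ 3 := by
    have : P ≤ P ^ 3 := Nat.le_self_pow (by norm_num) P
    calc P + 2 * P * (2 * P ^ 2) = P + 4 * P ^ 3 := by ring
      _ ≤ 5 * P ^ 3 := by omega
  have h2 : (2 * (P + 2 * P * (2 * P ^ 2))) ^ 2 ≤ P ^ 9 := by
    calc _ ≤ (2 * (5 * P ^ 3)) ^ 2 := by gcongr
      _ = 100 * P ^ 6 := by ring
      _ ≤ (5 * 5 * 5) * P ^ 6 := by omega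
      _ ≤ (P * P * P) * P ^ 6 :=
          Nat.mul_le_mul_right _ (Nat.mul_le_mul (Nat.mul_le_mul hP hP) hP)
      _ = P ^ 9 := by ring
  have h3 : ((2 * (P + 2 * P * (2 * P ^ 2))) ^ 2 : ℕ) * 2 ^ L ≤ 2 ^ lam :=
    (Nat.mul_le_mul_right _ h2).trans hJ
  push_cast
  rw [div_le_iff₀ (by positivity)]
  have h4 : ((2 * (P + 2 * P * (2 * P ^ 2))) ^ 2 : ℝ) * 2 ^ L ≤ 2 ^ lam := by exact_mod_cast h3
  have h5 : (1 / 2 : ℝ) ^ L * 2 ^ L = 1 := by
    rw [← mul_pow]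
    norm_num
  calc (2 * ((P : ℝ) + 2 * P * (2 * P ^ 2))) ^ 2
      = (1 / 2 : ℝ) ^ L * 2 ^ L * (2 * ((P : ℝ) + 2 * P * (2 * P ^ 2))) ^ 2 := by rw [h5, one_mul]
    _ = (1 / 2 : ℝ) ^ L * ((2 * ((P : ℝ) + 2 * P * (2 * P ^ 2))) ^ 2 * 2 ^ L) := by ring
    _ ≤ (1 / 2 : ℝ) ^ L * 2 ^ lam := by
        apply mul_le_mul_of_nonneg_left h4 (by positivity)

theorem num_err {P L lam k : ℕ} (hP : 5 ≤ P) (hk : k + 1 ≤ P) (hL : L ≤ P) (hL1 : 1 ≤ L)
    (hJ : P ^ 9 * 2 ^ L ≤ 2 ^ lam) :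
    (((2 ^ P : ℕ) : ℝ) + 1) ^ k * (qq (Str lam) P (2 * P ^ 2)) ^ (2 * P ^ 2) +
      qq (Str lam) P (2 * P ^ 2) ≤ 2 * (1 / 2 : ℝ) ^ L := by
  have hq := num_q hP hJ
  have hq0 := qq_nonneg (J := Str lam) P (2 * P ^ 2)
  have hq1 : qq (Str lam) P (2 * P ^ 2) ≤ 1 / 2 := by
    refine hq.trans ?_
    calc (1 / 2 : ℝ) ^ L ≤ (1 / 2 : ℝ) ^ 1 :=
          pow_le_pow_of_le_one (by norm_num) (by norm_num) hL1
      _ = 1 / 2 := by norm_num
  have h1 : (((2 ^ P : ℕ) : ℝ) + 1) ^ k ≤ 2 ^ ((P + 1) * k) := by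
    rw [pow_mul]
    apply pow_le_pow_left₀ (by positivity)
    push_cast
    have : (1 : ℝ) ≤ 2 ^ P := one_le_pow₀ (by norm_num)
    rw [pow_succ]
    linarith
  have h2 : (qq (Str lam) P (2 * P ^ 2)) ^ (2 * P ^ 2) ≤ (1 / 2 : ℝ) ^ (2 * P ^ 2) :=
    pow_le_pow_left₀ hq0 hq1 _
  have h3 : (P + 1) * k + L ≤ 2 * P ^ 2 := by nlinarith
  have h4 : (((2 ^ P : ℕ) : ℝ) + 1) ^ k * (qq (Str lam) P (2 * P ^ 2)) ^ (2 * P ^ 2) ≤
      (1 / 2 : ℝ) ^ L := by
    calc _ ≤ (2 : ℝ) ^ ((P + 1) * k) * (1 / 2 : ℝ) ^ (2 * P ^ 2) := by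
          apply mul_le_mul h1 h2 (by positivity) (by positivity)
      _ ≤ (2 : ℝ) ^ ((P + 1) * k) * (1 / 2 : ℝ) ^ ((P + 1) * k + L) := by
          apply mul_le_mul_of_nonneg_left _ (by positivity)
          exact pow_le_pow_of_le_one (by norm_num) (by norm_num) h3
      _ = (1 / 2 : ℝ) ^ L := by
          rw [pow_add, ← mul_assoc, ← mul_pow]
          norm_num
  linarith

/-! ### One stage -/

section

variable {g : Enum} {Dt : Type} {S : Dt → Oracle} {Y0 : List Bool → List Bool}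
  {R R1 R2 Λ lam : ℕ}

theorem stageP (h12 : R2 ≤ R1 ^ 2) (hlam : lam ≤ R1) (hR : R ≤ R1) {P L k i : ℕ} (hP : 5 ≤ P)
    (hk : k + 1 ≤ P) (hL : L ≤ P) (hL1 : 1 ≤ L) (hΛ : Λ + 2 ≤ P) (hJ : P ^ 9 * 2 ^ L ≤ 2 ^ lam)
    (f : (Bk R Λ → Str lam) → (At → Bool) → Prop)
    (hf : ∀ Y, Cl (okS g R1 R2 Λ i) P (2 ^ P) k (f Y))
    (hfd : ∀ Y Y', (∀ b ∈ RvS g R1 R2 R Λ i, Y b = Y' b) → f Y = f Y') :
    ∃ f' : (Bk R Λ → Str lam) → (At → Bool) → Prop,
      (∀ Y, Cl (okS g R1 R2 Λ (i + 1)) (P ^ 8) (2 ^ (P ^ 8)) k (f' Y)) ∧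
      (∀ Y Y', (∀ b ∈ RvS g R1 R2 R Λ (i + 1), Y b = Y' b) → f' Y = f' Y') ∧
      ∀ D, pr (fun Y => ¬ (f Y (wld g (S D) (extY Y0 Y)) ↔ f' Y (wld g (S D) (extY Y0 Y)))) ≤
        2 * (1 / 2 : ℝ) ^ L := by
  have hcard : Fintype.card (Bk R Λ) + 1 ≤ 2 ^ P := by
    have h1 := card_Bk R Λ
    have h2 : 2 ^ (Λ + 1) + 1 ≤ 2 ^ (Λ + 2) := by
      have : 1 ≤ 2 ^ (Λ + 1) := Nat.one_le_two_pow
      rw [pow_succ 2 (Λ + 1)]
      omega
    have h3 : 2 ^ (Λ + 2) ≤ 2 ^ P := Nat.pow_le_pow_right (by norm_num) hΛ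
    omega
  obtain ⟨f', e1, e2, e3⟩ := stage (J := Str lam) (fun D Y => wld g (S D) (extY Y0 Y))
    (RvS g R1 R2 R Λ i) (disj_RC g R1 R2 R Λ i) (stepHyp g (lam := lam) hR)
    (fun D Y Y' hY h a s _ ha => wld_off h12 hY ha)
    (fun D Y a b oj h => wld_child hlam h) (w := P) (S := 2 ^ P) (by omega) (2 * P ^ 2) k f hf hfd
  refine ⟨f', ?_, ?_, ?_⟩
  · intro Y
    exact (e1 Y).mono (fun _ _ _ h => h) (num_w hP) (num_S hP hcard)
  · intro Y Y' hY
    apply e2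
    intro b hb
    exact hY b (RvS_succ g R1 R2 R Λ i hb)
  · intro D
    exact (e3 D).trans (num_err hP hk hL hL1 hJ)

/-- The stages of one layer. -/
theorem stagesP (h12 : R2 ≤ R1 ^ 2) (hlam : lam ≤ R1) (hR : R ≤ R1) {P L k : ℕ} (hP : 5 ≤ P)
    (hk : k + 1 ≤ P) (hL : L ≤ P) (hL1 : 1 ≤ L) (hΛ : Λ + 2 ≤ P)
    (f : (Bk R Λ → Str lam) → (At → Bool) → Prop)
    (hf : ∀ Y, Cl (okS g R1 R2 Λ 0) P (2 ^ P) k (f Y))
    (hfd : ∀ Y Y', (∀ b ∈ RvS g R1 R2 R Λ 0, Y b = Y' b) → f Y = f Y') (n : ℕ)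
    (hJ : (P ^ 8 ^ n) ^ 9 * 2 ^ L ≤ 2 ^ lam) :
    ∃ f' : (Bk R Λ → Str lam) → (At → Bool) → Prop,
      (∀ Y, Cl (okS g R1 R2 Λ n) (P ^ 8 ^ n) (2 ^ (P ^ 8 ^ n)) k (f' Y)) ∧
      (∀ Y Y', (∀ b ∈ RvS g R1 R2 R Λ n, Y b = Y' b) → f' Y = f' Y') ∧
      ∀ D, pr (fun Y => ¬ (f Y (wld g (S D) (extY Y0 Y)) ↔ f' Y (wld g (S D) (extY Y0 Y)))) ≤
        n * (2 * (1 / 2 : ℝ) ^ L) := by
  induction n with
  | zero =>
    refine ⟨f, ?_, hfd, ?_⟩
    · intro Y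
      simpa using hf Y
    · intro D
      refine le_of_eq ?_
      push_cast
      rw [zero_mul, ← pr_false (Ω := Bk R Λ → Str lam)]
      apply pr_congr
      intro Y
      simp
  | succ n ih =>
    have hPn : P ≤ P ^ 8 ^ n := Nat.le_self_pow (by positivity) P
    have hmono : P ^ 8 ^ n ≤ P ^ 8 ^ (n + 1) :=
      Nat.pow_le_pow_right (by omega) (Nat.pow_le_pow_right (by norm_num) (by omega))
    have hJn : (P ^ 8 ^ n) ^ 9 * 2 ^ L ≤ 2 ^ lam :=
      (Nat.mul_le_mul_right _ (Nat.pow_le_pow_left hmono 9)).trans hJ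
    obtain ⟨f1, a1, a2, a3⟩ := ih hJn
    obtain ⟨f2, b1, b2, b3⟩ := stageP (S := S) (Y0 := Y0) h12 hlam hR (P := P ^ 8 ^ n)
      (hP.trans hPn) (hk.trans hPn) (hL.trans hPn) hL1 (hΛ.trans hPn) hJn f1 a1 a2
    have hpow : (P ^ 8 ^ n) ^ 8 = P ^ 8 ^ (n + 1) := by
      rw [← pow_mul, ← pow_succ]
    refine ⟨f2, ?_, b2, ?_⟩
    · intro Y
      have := b1 Y
      rwa [hpow] at this
    · intro D
      refine pr_trans.trans ((add_le_add (a3 D) (b3 D)).trans (le_of_eq ?_))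
      push_cast
      ring

/-! ### Renaming of the words of the layer -/

theorem rename_layer (g : Enum) {R1 R2 Λ : ℕ} {h : ℕ} {a : At} {s : Bool}
    (ha : okW g R2 Λ h a s) : ∃ l : At × Bool, okS g R1 R2 Λ 0 h l.1 l.2 ∧
      ∀ (S : Oracle) (Y : List Bool → List Bool), wld g S Y a = s ↔ wld g S Y l.1 = l.2 := by
  match a with
  | Sum.inr _ => exact ha.elim
  | Sum.inl v =>
    obtain ⟨h1, h2, h3⟩ := ha
    by_cases hlow : Low g R1 v
    · exact ⟨(Sum.inl v, s), ⟨h1, h2, hlow⟩, fun _ _ => Iff.rfl⟩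
    · unfold Low at hlow
      push Not at hlow
      obtain ⟨c, ys, hv, hl, hp, hR⟩ := hlow
      refine ⟨(Sum.inr (c, ys), s), ⟨⟨hR, h3 c ys hv hl hp⟩, hp, ?_, 0, by omega,
        Or.inl ⟨rfl, rfl, h1⟩⟩, ?_⟩
      · rw [hv, List.length_cons] at h2
        omega
      · intro S Y
        show orU g S Y v = s ↔ bitv (decide (KP g (orU g S Y) c)) Y c ys = s
        rw [hv, orU_wrd g S Y c ys hl hp]

/-! ### Substitution of the codes -/

theorem Cl.le_height {α : Type} {ok : ℕ → α → Bool → Prop} {w S k : ℕ} {f : (α → Bool) → Prop}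
    (hf : Cl ok w S k f) : Cl (fun h a s => h ≤ k ∧ ok h a s) w S k f := by
  have h : ∀ (h0 : ℕ) (f0 : (α → Bool) → Prop), h0 ≤ k → Cl ok w S h0 f0 →
      Cl (fun h a s => h ≤ k ∧ ok h a s) w S h0 f0 := by
    intro h0 f0 hh0 hf0
    induction hf0 with
    | bot => exact Cl.bot
    | @node h1 ι1 D1 as1 g1 hD1 has1 _ ih1 =>
      exact Cl.node D1 as1 g1 hD1 (fun i hi => ⟨(has1 i hi).1, fun l hl =>
        ⟨hh0, (has1 i hi).2 l hl⟩⟩) (fun i hi => ih1 i hi (by omega))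
  exact h k f le_rfl hf

/-- The formula of a code. -/
theorem code_formula {P k : ℕ} (h12 : R2 ≤ R1 ^ 2) (hk : k ≤ P) (hΛ : Λ ≤ P) {c : Cd}
    (hc1 : c.2.2 ≤ R2) (hc2 : c.2.2 ≤ Λ) {h : ℕ} (hh1 : h = tp g c ∨ h = tp g c + 1)
    (hh2 : h ≤ k) :
    ∃ φ : (At → Bool) → Prop, Cl (okW g R1 Λ) (3 * P) (2 ^ (3 * P)) h φ ∧
      ∀ (S : Oracle) (Y : List Bool → List Bool),
        wld g S Y (Sum.inr (c, [])) = false ↔ φ (wld g S Y) := by
  by_cases hL : Live g c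
  swap
  · refine ⟨fun _ => False, Cl.false, ?_⟩
    intro S Y
    show bitv (decide (KP g (orU g S Y) c)) Y c [] = false ↔ False
    have : ¬ KP g (orU g S Y) c := fun h => hL h.1
    simp [bitv, this]
  · have hL' := hL
    unfold Live at hL'
    set U := rt g c + c.2.1.length + tp g c * ql g c + 2 with hU
    have hUc : U ≤ c.2.2 := by nlinarith
    have hU1 : U ≤ R1 := by
      by_contra hcon
      have : R1 ^ 2 < U ^ 2 := Nat.pow_lt_pow_left (by omega) (by norm_num)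
      omega
    have htpk : tp g c ≤ P := by
      rcases hh1 with hh1 | hh1 <;> omega
    have hok : ∀ q ∈ {a : At | ∃ v : List Bool, a = Sum.inl v ∧ v.length ≤
        rt g c + c.2.1.length + tp g c * ql g c}, ∀ s, okW g R1 Λ 1 q s := by
      rintro q ⟨v, rfl, hv⟩ s
      refine ⟨rfl, by omega, low_of_short (by omega)⟩
    have hdtp : ∀ us : List (List Bool), us.map List.length = List.replicate (tp g c) (ql g c) →
        DTP {a : At | ∃ v : List Bool, a = Sum.inl v ∧ v.length ≤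
          rt g c + c.2.1.length + tp g c * ql g c} (rt g c)
          (fun ω : At → Bool => AcceptsIn (fun v => ω (Sum.inl v)) (g c.1).2.1 (c.2.1 :: us)
            (rt g c)) := by
      intro us hus
      have h1 := (Pool.Agent.H9.dtp_acceptsIn (g c.1).2.1 (c.2.1 :: us) (rt g c)
        (rt g c + c.2.1.length + tp g c * ql g c) (by
          rw [totalLength_cons_of hus]
          omega)).comp (m := 1) (R := {a : At | ∃ v : List Bool, a = Sum.inl v ∧ v.length ≤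
          rt g c + c.2.1.length + tp g c * ql g c}) (fun (ω : At → Bool) v => ω (Sum.inl v)) (by
          intro q hq
          exact DTP.var _ ⟨q, rfl, hq⟩)
      rw [mul_one] at h1
      exact h1
    have halt := (alt_cl (ok := okW g R1 Λ) hok (ql g c) (rt g c) (tp g c)
      (fun us (ω : At → Bool) => AcceptsIn (fun v => ω (Sum.inl v)) (g c.1).2.1 (c.2.1 :: us)
            (rt g c)) hdtp).2 h (by
        unfold tp at hh1
        omega) (by omega)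
    refine ⟨_, halt.mono (fun _ _ _ h => h) (by omega) ?_, ?_⟩
    · have h1 : (2 ^ ql g c + 1) ^ tp g c ≤ 2 ^ (P + P) := by
        have h2 : 2 ^ ql g c + 1 ≤ 2 ^ (ql g c + 1) := by
          have : 1 ≤ 2 ^ ql g c := Nat.one_le_two_pow
          rw [pow_succ]
          omega
        calc (2 ^ ql g c + 1) ^ tp g c ≤ (2 ^ (ql g c + 1)) ^ tp g c :=
              Nat.pow_le_pow_left h2 _
          _ = 2 ^ ((ql g c + 1) * tp g c) := by rw [← pow_mul]
          _ ≤ 2 ^ (P + P) := by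
              apply Nat.pow_le_pow_right (by norm_num)
              have h3 : (ql g c + 1) * tp g c = tp g c * ql g c + tp g c := by ring
              rw [h3]
              omega
      have h2 : 2 ^ rt g c ≤ 2 ^ P := Nat.pow_le_pow_right (by norm_num) (by omega)
      calc _ ≤ 2 ^ P * 2 ^ (P + P) := Nat.mul_le_mul h2 h1
        _ = 2 ^ (3 * P) := by
            rw [← pow_add]
            congr 1
            ring
    · intro S Y
      show bitv (decide (KP g (orU g S Y) c)) Y c [] = false ↔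
        Pool.Agent.H9.Alt true (tp g c) (ql g c) (fun us =>
          AcceptsIn (fun v => orU g S Y v) (g c.1).2.1 (c.2.1 :: us) (rt g c))
      have : bitv (decide (KP g (orU g S Y) c)) Y c [] = false ↔ KP g (orU g S Y) c := by
        simp [bitv]
      rw [this]
      unfold KP
      constructor
      · rintro ⟨_, h⟩
        exact h
      · intro h
        exact ⟨hL, h⟩

theorem gw_le {P : ℕ} (hP : 5 ≤ P) (h : ℕ) : gw P P h ≤ P ^ (3 * h) := by
  induction h with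
  | zero => simp [gw]
  | succ h ih =>
    have h1 : P ≤ P ^ (3 * h + 1) := Nat.le_self_pow (by omega) P
    have h2 : P ^ (3 * h) ≤ P ^ (3 * h + 1) := Nat.pow_le_pow_right (by omega) (by omega)
    show (P + gw P P h) * (P + 1) ≤ _
    calc (P + gw P P h) * (P + 1) ≤ (2 * P ^ (3 * h + 1)) * (2 * P) := by
          apply Nat.mul_le_mul <;> omega
      _ = 4 * P ^ (3 * h + 2) := by ring
      _ ≤ P * P ^ (3 * h + 2) := Nat.mul_le_mul_right _ (by omega)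
      _ = P ^ (3 * (h + 1)) := by ring

theorem gS_le {P : ℕ} (hP : 5 ≤ P) (h : ℕ) :
    gS P (2 ^ P) (2 ^ P) h ≤ 2 ^ (P ^ (3 * h + 1)) := by
  induction h with
  | zero =>
    show 1 ≤ _
    exact Nat.one_le_two_pow
  | succ h ih =>
    have h1 : P ≤ P ^ (3 * h + 1) := Nat.le_self_pow (by omega) P
    show 2 ^ P * 0 + (2 ^ P + 1) * ((4 * (2 ^ P + gS P (2 ^ P) (2 ^ P) h)) ^ (P + 2)) ≤ _
    set X := P ^ (3 * h + 1) with hX
    have h2 : 4 * (2 ^ P + gS P (2 ^ P) (2 ^ P) h) ≤ 2 ^ (X + 3) := by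
      have h3 : 2 ^ P ≤ 2 ^ X := Nat.pow_le_pow_right (by norm_num) h1
      calc 4 * (2 ^ P + gS P (2 ^ P) (2 ^ P) h) ≤ 4 * (2 ^ X + 2 ^ X) := by omega
        _ = 2 ^ (X + 3) := by rw [pow_add]; ring
    have h3 : 2 ^ P + 1 ≤ 2 ^ (P + 1) := by
      have : 1 ≤ 2 ^ P := Nat.one_le_two_pow
      rw [pow_succ]
      omega
    calc _ = (2 ^ P + 1) * ((4 * (2 ^ P + gS P (2 ^ P) (2 ^ P) h)) ^ (P + 2)) := by ring
      _ ≤ 2 ^ (P + 1) * (2 ^ (X + 3)) ^ (P + 2) :=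
          Nat.mul_le_mul h3 (Nat.pow_le_pow_left h2 _)
      _ = 2 ^ (P + 1 + (X + 3) * (P + 2)) := by rw [← pow_mul, ← pow_add]
      _ ≤ 2 ^ (P ^ (3 * (h + 1) + 1)) := by
          apply Nat.pow_le_pow_right (by norm_num)
          calc P + 1 + (X + 3) * (P + 2) ≤ X * P + (2 * X) * (2 * P) := by
                have e1 : P + 1 ≤ X * P := by nlinarith
                have e2 : (X + 3) * (P + 2) ≤ (2 * X) * (2 * P) := by
                  apply Nat.mul_le_mul <;> omega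
                omega
            _ = 5 * (X * P) := by ring
            _ ≤ P * (X * P) := Nat.mul_le_mul_right _ hP
            _ = P ^ (3 * h + 3) := by rw [hX]; ring
            _ ≤ P ^ (3 * (h + 1) + 1) := Nat.pow_le_pow_right (by omega) (by omega)

/-- exponent of the growth of the parameter in one layer -/
def EL (k : ℕ) : ℕ := 8 ^ (k + 1) * (3 * k + 1)

/-- **Elimination of one layer.** -/
theorem layerP (h12 : R2 ≤ R1 ^ 2) (hlam : lam ≤ R1) (hR : R ≤ R1) {P L k : ℕ} (hP : 5 ≤ P)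
    (hk : k + 1 ≤ P) (hL : L ≤ P) (hL1 : 1 ≤ L) (hΛ : Λ + 2 ≤ P)
    (f : (Bk R Λ → Str lam) → (At → Bool) → Prop)
    (hf : ∀ Y, Cl (okW g R2 Λ) P (2 ^ P) k (f Y))
    (hfd : ∀ Y Y', (∀ b ∈ RvS g R1 R2 R Λ 0, Y b = Y' b) → f Y = f Y')
    (hJ : (P ^ EL k) ^ 9 * 2 ^ L ≤ 2 ^ lam) :
    ∃ f' : (Bk R Λ → Str lam) → (At → Bool) → Prop,
      (∀ Y, Cl (okW g R1 Λ) (P ^ EL k) (2 ^ (P ^ EL k)) k (f' Y)) ∧
      (∀ Y Y', (∀ b ∈ RvS g R1 R2 R Λ (k + 1), Y b = Y' b) → f' Y = f' Y') ∧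
      ∀ D, pr (fun Y => ¬ (f Y (wld g (S D) (extY Y0 Y)) ↔ f' Y (wld g (S D) (extY Y0 Y)))) ≤
        (k + 1) * (2 * (1 / 2 : ℝ) ^ L) := by
  -- renaming
  have hren : ∀ F : (At → Bool) → Prop, Cl (okW g R2 Λ) P (2 ^ P) k F →
      ∃ F' : (At → Bool) → Prop, Cl (okS g R1 R2 Λ 0) P (2 ^ P) k F' ∧
        ∀ z : Oracle × (List Bool → List Bool), F (wld g z.1 z.2) ↔ F' (wld g z.1 z.2) := by
    intro F hF
    refine Cl.relit (fun z : Oracle × (List Bool → List Bool) => wld g z.1 z.2)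
      (fun z => wld g z.1 z.2) ?_ hF
    intro h a s _ ha
    obtain ⟨l, h1, h2⟩ := rename_layer (R1 := R1) g ha
    exact ⟨l, h1, fun z => h2 z.1 z.2⟩
  choose! F1 hF1 hF2 using hren
  -- stages
  set P1 := P ^ 8 ^ (k + 1) with hP1
  have hPP1 : P ≤ P1 := Nat.le_self_pow (by positivity) P
  have hP1E : P1 ^ (3 * k + 1) = P ^ EL k := by rw [hP1, ← pow_mul]; rfl
  have hP1le : P1 ≤ P ^ EL k := by
    rw [← hP1E]
    exact Nat.le_self_pow (by omega) P1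
  obtain ⟨f2, b1, b2, b3⟩ := stagesP (S := S) (Y0 := Y0) h12 hlam hR hP hk hL hL1 hΛ
    (fun Y => F1 (f Y)) (fun Y => hF1 _ (hf Y)) (fun Y Y' hY => by
      show F1 (f Y) = F1 (f Y')
      rw [hfd Y Y' hY]) (k + 1)
    ((Nat.mul_le_mul_right _ (Nat.pow_le_pow_left hP1le 9)).trans hJ)
  -- substitution
  have h3P : 3 * P ≤ P1 := by
    calc 3 * P ≤ P * P := Nat.mul_le_mul_right _ (by omega)
      _ = P ^ 2 := by ring
      _ ≤ P1 := by
          apply Nat.pow_le_pow_right (by omega)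
          calc 2 ≤ 8 ^ 1 := by norm_num
            _ ≤ 8 ^ (k + 1) := Nat.pow_le_pow_right (by norm_num) (by omega)
  have hsub : ∀ F : (At → Bool) → Prop, Cl (okS g R1 R2 Λ (k + 1)) P1 (2 ^ P1) k F →
      ∃ F' : (At → Bool) → Prop, Cl (okW g R1 Λ) (P ^ EL k) (2 ^ (P ^ EL k)) k F' ∧
        ∀ z : Oracle × (List Bool → List Bool), F (wld g z.1 z.2) ↔ F' (wld g z.1 z.2) := by
    intro F hF
    obtain ⟨F', h1, h2⟩ := Cl.subst (ok' := okW g R1 Λ) (w0 := P1) (S0 := 2 ^ P1)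
      (fun z : Oracle × (List Bool → List Bool) => wld g z.1 z.2)
      (fun z => wld g z.1 z.2) Nat.one_le_two_pow (fun h a s h1 ha => by
        obtain ⟨hh, ha⟩ := ha
        match a with
        | Sum.inl v =>
          obtain ⟨e1, e2, e3⟩ := ha
          subst e1
          have h4 : Cl (okW g R1 Λ) 1 1 1 (fun ω => ω (Sum.inl v) = s ∧ True) :=
            Cl.lit (ok := okW g R1 Λ) (w := 0) (S := 1) (h := 0) (f := fun _ => True)
              (Cl.true le_rfl) (a := Sum.inl v) (s := s) ⟨rfl, e2, e3⟩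
          exact ⟨_, h4.mono (fun _ _ _ h => h) (by omega) Nat.one_le_two_pow, fun z => by simp⟩
        | Sum.inr (c, ys) =>
          obtain ⟨⟨e1, e2⟩, e3, e4, ρ, e5, e6⟩ := ha
          rcases e6 with ⟨e6, _⟩ | ⟨_, e7, e8, e9⟩
          · omega
          · rcases e7 with e7 | ⟨e7, e10⟩
            · omega
            · subst e10
              subst e8
              have hρ : ρ = tp g c := by simpa using e5
              subst hρ
              have hcΛ : c.2.2 ≤ Λ := by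
                have := wrd_length_gt c []
                omega
              obtain ⟨φ, h5, h6⟩ := code_formula (g := g) (R1 := R1) (R2 := R2) (Λ := Λ) (P := P)
                (k := k) h12 (by omega) (by omega) e2 hcΛ e9 hh
              exact ⟨φ, h5.mono (fun _ _ _ h => h) h3P
                (Nat.pow_le_pow_right (by norm_num) h3P), fun z => h6 z.1 z.2⟩) hF.le_height
    refine ⟨F', h1.mono (fun _ _ _ h => h) ?_ ?_, h2⟩
    · rw [← hP1E]
      exact (gw_le (hP.trans hPP1) k).trans (Nat.pow_le_pow_right (by omega) (by omega))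
    · rw [← hP1E]
      exact gS_le (hP.trans hPP1) k
  choose! F3 hF3 hF4 using hsub
  refine ⟨fun Y => F3 (f2 Y), fun Y => hF3 _ (b1 Y), ?_, ?_⟩
  · intro Y Y' hY
    show F3 (f2 Y) = F3 (f2 Y')
    rw [b2 Y Y' hY]
  · intro D
    refine le_trans (le_of_eq (pr_congr ?_)) ((b3 D).trans (le_of_eq (by push_cast; ring)))
    intro Y
    have h1 := hF2 _ (hf Y) (S D, extY Y0 Y)
    have h2 := hF4 _ (b1 Y) (S D, extY Y0 Y)
    simp only at h1 h2
    rw [h1, h2]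

end

end Pool.Agent.H8h
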