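import Pool.Agent.H8.Layer

set_option autoImplicit false
set_option linter.unusedSectionVars false

/-!
# Elimination of all layers, and the remaining atoms
-/

namespace Pool.Agent.H8h

open Finset Classical
open Pool.Agent.H9 (Oracle Prog DTP AcceptsIn totalLength words mem_words card_words)
open Pool.Agent.H8u
open Pool.Agent.H8 (Str)

/-- the coordinates of the codes of size more than `M` -/
noncomputable def Vs (M R Λ : ℕ) : Finset (Bk R Λ) :=
  Finset.univ.filter (fun b => ∃ (c : Cd) (ys : List (List Bool)), b.1 = wrd c ys ∧ Prp c ys ∧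
    M < c.2.2)

theorem Vs_subset (g : Enum) (R1 M R Λ i : ℕ) : Vs M R Λ ⊆ RvS g R1 M R Λ i := by
  intro b hb
  unfold Vs at hb
  unfold RvS
  rw [Finset.mem_filter] at hb ⊢
  obtain ⟨h0, c, ys, h1, h2, h3⟩ := hb
  exact ⟨h0, c, ys, h1, h2, Or.inl h3⟩

theorem RvS_subset (g : Enum) {R1 R2 : ℕ} (h : R1 ≤ R2) (R Λ i : ℕ) :
    RvS g R1 R2 R Λ i ⊆ Vs R1 R Λ := by
  intro b hb
  unfold RvS at hb
  unfold Vs
  rw [Finset.mem_filter] at hb ⊢
  obtain ⟨h0, c, ys, h1, h2, h3⟩ := hb
  refine ⟨h0, c, ys, h1, h2, ?_⟩
  rcases h3 with h3 | ⟨h3, _⟩ <;> omega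

/-- the thresholds -/
def thr (R j : ℕ) : ℕ := R ^ 2 ^ (j + 1)

theorem thr_zero (R : ℕ) : thr R 0 = R ^ 2 := by
  unfold thr
  norm_num

theorem thr_succ (R j : ℕ) : thr R (j + 1) = thr R j ^ 2 := by
  unfold thr
  rw [← pow_mul, ← pow_succ]

theorem thr_mono {R : ℕ} (hR : 1 ≤ R) (j : ℕ) : thr R j ≤ thr R (j + 1) := by
  rw [thr_succ]
  exact Nat.le_self_pow (by norm_num) _

theorem le_thr {R : ℕ} (hR : 1 ≤ R) (j : ℕ) : R ^ 2 ≤ thr R j := by
  induction j with
  | zero => rw [thr_zero]
  | succ j ih => exact ih.trans (thr_mono hR j)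

section

variable {g : Enum} {Dt : Type} {S : Dt → Oracle} {Y0 : List Bool → List Bool}
  {R Λ lam : ℕ}

/-- **Elimination of all layers.** -/
theorem layersP (hR : 1 ≤ R) (hlam : lam ≤ R ^ 2) {L k : ℕ} (hL1 : 1 ≤ L) (J : ℕ) :
    ∀ {P : ℕ}, 5 ≤ P → k + 1 ≤ P → L ≤ P → Λ + 2 ≤ P →
    ∀ (f : (Bk R Λ → Str lam) → (At → Bool) → Prop),
    (∀ Y, Cl (okW g (thr R J) Λ) P (2 ^ P) k (f Y)) →
    (∀ Y Y', (∀ b ∈ Vs (thr R J) R Λ, Y b = Y' b) → f Y = f Y') →
    (P ^ EL k ^ J) ^ 9 * 2 ^ L ≤ 2 ^ lam →
    ∃ f' : (Bk R Λ → Str lam) → (At → Bool) → Prop,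
      (∀ Y, Cl (okW g (R ^ 2) Λ) (P ^ EL k ^ J) (2 ^ (P ^ EL k ^ J)) k (f' Y)) ∧
      ∀ D, pr (fun Y => ¬ (f Y (wld g (S D) (extY Y0 Y)) ↔ f' Y (wld g (S D) (extY Y0 Y)))) ≤
        J * ((k + 1) * (2 * (1 / 2 : ℝ) ^ L)) := by
  induction J with
  | zero =>
    intro P _ _ _ _ f hf _ _
    refine ⟨f, ?_, ?_⟩
    · intro Y
      have := hf Y
      rw [thr_zero] at this
      simpa using this
    · intro D
      refine le_of_eq ?_
      push_cast
      rw [zero_mul, ← pr_false (Ω := Bk R Λ → Str lam)]
      apply pr_congr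
      intro Y
      simp
  | succ J ih =>
    intro P hP hk hL hΛ f hf hfd hJ
    have hE1 : 1 ≤ EL k := by
      unfold EL
      exact Nat.mul_pos (by positivity) (by omega)
    have hPE : P ≤ P ^ EL k := Nat.le_self_pow (by omega) P
    have hpow : (P ^ EL k) ^ EL k ^ J = P ^ EL k ^ (J + 1) := by
      rw [← pow_mul, pow_succ' (EL k) J]
    have hle : P ^ EL k ≤ P ^ EL k ^ (J + 1) :=
      Nat.pow_le_pow_right (by omega) (Nat.le_self_pow (by omega) _)
    have hRt : R ≤ R ^ 2 := Nat.le_self_pow (by norm_num) R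
    obtain ⟨f1, a1, a2, a3⟩ := layerP (S := S) (Y0 := Y0) (g := g) (R := R) (R1 := thr R J)
      (R2 := thr R (J + 1)) (Λ := Λ) (lam := lam) (le_of_eq (thr_succ R J))
      (hlam.trans (le_thr hR J)) (hRt.trans (le_thr hR J)) hP hk hL hL1 hΛ f hf
      (fun Y Y' hY => hfd Y Y' (fun b hb => hY b (Vs_subset g _ _ R Λ 0 hb)))
      ((Nat.mul_le_mul_right _ (Nat.pow_le_pow_left hle 9)).trans hJ)
    obtain ⟨f2, b1, b2⟩ := ih (P := P ^ EL k) (hP.trans hPE) (hk.trans hPE) (hL.trans hPE)
      (hΛ.trans hPE) f1 a1
      (fun Y Y' hY => a2 Y Y' (fun b hb => hY b (RvS_subset g (thr_mono hR J) R Λ _ hb)))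
      (by rw [hpow]; exact hJ)
    refine ⟨f2, ?_, ?_⟩
    · intro Y
      have := b1 Y
      rwa [hpow] at this
    · intro D
      refine pr_trans.trans ((add_le_add (a3 D) (b2 D)).trans (le_of_eq ?_))
      push_cast
      ring

end

/-! ### The remaining atoms -/

/-- Locality in both arguments. -/
theorem orU_local {g : Enum} {S S' : Oracle} {Y Y' : List Bool → List Bool} {n : ℕ}
    (hS : ∀ w : List Bool, w.length < n → S w = S' w)
    (hY : ∀ w : List Bool, w.length < n → Y w = Y' w) : ∀ (m : ℕ) (v : List Bool),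
      v.length ≤ m → v.length ≤ n → orU g S Y v = orU g S' Y' v := by
  intro m
  induction m with
  | zero =>
    intro v hv _
    have : v = [] := List.length_eq_zero_iff.1 (by omega)
    subst this
    rw [orU_nil, orU_nil]
  | succ m ih =>
    intro v hv hn
    match v with
    | [] => rw [orU_nil, orU_nil]
    | false :: w =>
      rw [orU_false, orU_false]
      exact hS w (by rw [List.length_cons] at hn; omega)
    | true :: w =>
      rw [Bool.eq_iff_iff, orU_true, orU_true]
      apply exists_congr; intro c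
      apply exists_congr; intro ys
      apply and_congr_right; intro hw
      apply and_congr_right; intro hl
      apply and_congr_right; intro hp
      have h1 := wrd_length_gt c ys
      rw [← hw] at h1
      rw [List.length_cons] at hv hn
      have hK : KP g (orU g S Y) c ↔ KP g (orU g S' Y') c := by
        apply kp_local
        intro u hu
        have h2 : u.length ≤ c.2.2 := by nlinarith
        exact ih u (by omega) (by omega)
      have hd : decide (KP g (orU g S Y) c) = decide (KP g (orU g S' Y') c) := by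
        by_cases hA : KP g (orU g S Y) c
        · have hA' := hK.1 hA
          simp [hA, hA']
        · have hA' : ¬ KP g (orU g S' Y') c := fun h => hA (hK.2 h)
          simp [hA, hA']
      rw [hd, bitv_congr (fun zs hz1 hz2 => ?_)]
      apply hY
      have h3 : (wrd c zs).length ≤ (wrd c ys).length := by
        obtain ⟨pre, rfl⟩ := hz1
        rw [wrd_length, wrd_length]
        simp only [List.length_append, List.reverse_append, List.flatten_append]
        omega
      rw [← hw] at h3
      omega

/-- The values at low words do not depend on the data. -/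
theorem low_const {g : Enum} {S S' : Oracle} {Y : List Bool → List Bool} {R : ℕ}
    (hS : ∀ w : List Bool, w.length < R → S w = S' w) {w : List Bool}
    (hlow : Low g (R ^ 2) (true :: w)) : orU g S Y (true :: w) = orU g S' Y (true :: w) := by
  rw [Bool.eq_iff_iff, orU_true, orU_true]
  apply exists_congr; intro c
  apply exists_congr; intro ys
  apply and_congr_right; intro hw
  apply and_congr_right; intro hl
  apply and_congr_right; intro hp
  have hN : c.2.2 ≤ R ^ 2 := hlow c ys (by rw [hw]) hl hp
  have hK : KP g (orU g S Y) c ↔ KP g (orU g S' Y) c := by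
    apply kp_local
    intro u hu
    have h1 : u.length + 2 ≤ R := by
      by_contra hcon
      have : R ^ 2 < (u.length + 2) ^ 2 := Nat.pow_lt_pow_left (by omega) (by norm_num)
      omega
    exact orU_local (n := R) hS (fun _ _ => rfl) _ u le_rfl (by omega)
  have hd : decide (KP g (orU g S Y) c) = decide (KP g (orU g S' Y) c) := by
    by_cases hA : KP g (orU g S Y) c
    · have hA' := hK.1 hA
      simp [hA, hA']
    · have hA' : ¬ KP g (orU g S' Y) c := fun h => hA (hK.2 h)
      simp [hA, hA']
  rw [hd]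

/-- A predicate which depends on a finite set of variables has a decision tree. -/
theorem dtp_of_depends {α : Type*} (Q : Finset α) : ∀ (f : (α → Bool) → Prop),
    (∀ ω ω' : α → Bool, (∀ a ∈ Q, ω a = ω' a) → (f ω ↔ f ω')) → DTP Set.univ Q.card f := by
  induction Q using Finset.induction_on with
  | empty =>
    intro f hf
    refine (DTP.const 0 (f (fun _ => false))).congr ?_
    intro ω
    exact hf _ _ (by simp)
  | insert a Q ha ih =>
    intro f hf
    rw [Finset.card_insert_of_notMem ha]
    have h1 : ∀ s : Bool, DTP Set.univ Q.card (fun ω : α → Bool => f (Function.update ω a s)) := by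
      intro s
      apply ih
      intro ω ω' h
      apply hf
      intro b hb
      by_cases hba : b = a
      · subst hba
        rw [Function.update_self, Function.update_self]
      · rw [Function.update_of_ne hba, Function.update_of_ne hba]
        rcases Finset.mem_insert.1 hb with hb | hb
        · exact absurd hb hba
        · exact h b hb
    refine (DTP.node Q.card a (Set.mem_univ _) _ _ (h1 true) (h1 false)).congr ?_
    intro ω
    have h2 : f (Function.update ω a (ω a)) ↔ f ω := by rw [Function.update_eq_self]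
    cases h : ω a
    · rw [h] at h2
      simp [h2]
    · rw [h] at h2
      simp [h2]

end Pool.Agent.H8h
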