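import Pool.Agent.H8.Form
import Pool.Agent.H8.Hit

set_option autoImplicit false
set_option linter.unusedSectionVars false

/-!
# One elimination step for hidden positions
-/

namespace Pool.Agent.H8h

open Finset
open Pool.Agent.H8 (Trm)

section

variable {α B J : Type} [DecidableEq α] [DecidableEq B] [DecidableEq J] [Fintype B] [Fintype J]
  [Nonempty J]

/-- The old world: an atom `a` with `ch a = some (b, some j)` is true iff `j` is the hidden
position of the block `b` and the atom of the block is false. -/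
def old (ch : α → Option (B × Option J)) (emb : B → α) (ω : α → Bool) (Y : B → J) : α → Bool :=
  fun a => match ch a with
    | none => ω a
    | some (b, oj) => decide (oj = some (Y b)) && !(ω (emb b))

/-- the atoms of all the blocks are false -/
def Cor (emb : B → α) (ω : α → Bool) (K : Finset B) : Prop := ∀ b ∈ K, ω (emb b) = false

theorem old_none {ch : α → Option (B × Option J)} {emb : B → α} {ω : α → Bool} {Y : B → J} {a : α}
    (h : ch a = none) : old ch emb ω Y a = ω a := by
  unfold old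
  rw [h]

theorem old_true {ch : α → Option (B × Option J)} {emb : B → α} {ω : α → Bool} {Y : B → J} {a : α}
    {b : B} {oj : Option J} (h : ch a = some (b, oj)) :
    old ch emb ω Y a = true ↔ oj = some (Y b) ∧ ω (emb b) = false := by
  unfold old
  rw [h]
  simp

theorem old_false {ch : α → Option (B × Option J)} {emb : B → α} {ω : α → Bool} {Y : B → J}
    {a : α} {b : B} {oj : Option J} (h : ch a = some (b, oj)) :
    old ch emb ω Y a = false ↔ ¬ (oj = some (Y b) ∧ ω (emb b) = false) := by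
  rw [← old_true (emb := emb) h]
  simp

/-- a formula without atoms of the eliminated kind -/
theorem no_child {ch : α → Option (B × Option J)} {emb : B → α} {ok : ℕ → α → Bool → Prop}
    {w S h : ℕ} {f : (α → Bool) → Prop} (hf : Cl ok w S h f)
    (hno : ∀ h' a s, 1 ≤ h' → h' ≤ h → ok h' a s → ch a = none) (ω : α → Bool) (Y : B → J) :
    f (old ch emb ω Y) ↔ f ω := by
  apply hf.depends
  intro h' a s h1 h2 h3
  exact old_none (hno h' a s h1 h2 h3)

/-- positive requirements of a literal -/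
def pf (ch : α → Option (B × Option J)) (l : α × Bool) : Finset (B × J) :=
  match ch l.1, l.2 with
  | some (b, some j), true => {(b, j)}
  | _, _ => ∅

/-- negative requirements of a literal -/
def qf (ch : α → Option (B × Option J)) (emb : B → α) (ω : α → Bool) (l : α × Bool) :
    Finset (B × J) :=
  match ch l.1, l.2 with
  | some (b, some j), false => if ω (emb b) = false then {(b, j)} else ∅
  | _, _ => ∅

theorem mem_pf {ch : α → Option (B × Option J)} {as : Finset (α × Bool)} {x : B × J} :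
    x ∈ as.biUnion (pf ch) ↔ ∃ a, (a, true) ∈ as ∧ ch a = some (x.1, some x.2) := by
  rw [Finset.mem_biUnion]
  constructor
  · rintro ⟨⟨a, s⟩, hl, hx⟩
    unfold pf at hx
    split at hx
    · rename_i b j h1 h2
      simp only at h1 h2
      rw [Finset.mem_singleton] at hx
      subst hx
      exact ⟨a, h2 ▸ hl, h1⟩
    · simp at hx
  · rintro ⟨a, h1, h2⟩
    refine ⟨(a, true), h1, ?_⟩
    unfold pf
    simp only [h2, Finset.mem_singleton]

theorem mem_qf {ch : α → Option (B × Option J)} {emb : B → α} {ω : α → Bool}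
    {as : Finset (α × Bool)} {x : B × J} :
    x ∈ as.biUnion (qf ch emb ω) ↔ ∃ a, (a, false) ∈ as ∧ ch a = some (x.1, some x.2) ∧
      ω (emb x.1) = false := by
  rw [Finset.mem_biUnion]
  constructor
  · rintro ⟨⟨a, s⟩, hl, hx⟩
    unfold qf at hx
    split at hx
    · rename_i b j h1 h2
      simp only at h1 h2
      split_ifs at hx with h3
      · rw [Finset.mem_singleton] at hx
        subst hx
        exact ⟨a, h2 ▸ hl, h1, h3⟩
      · simp at hx
    · simp at hx
  · rintro ⟨a, h1, h2, h3⟩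
    refine ⟨(a, false), h1, ?_⟩
    unfold qf
    simp only [h2, if_pos h3, Finset.mem_singleton]

theorem card_pf (ch : α → Option (B × Option J)) (as : Finset (α × Bool)) :
    (as.biUnion (pf ch)).card ≤ as.card := by
  refine (Finset.card_biUnion_le_card_mul _ _ 1 ?_).trans (by simp)
  intro l _
  unfold pf
  split <;> simp

theorem card_qf (ch : α → Option (B × Option J)) (emb : B → α) (ω : α → Bool)
    (as : Finset (α × Bool)) : (as.biUnion (qf ch emb ω)).card ≤ as.card := by
  refine (Finset.card_biUnion_le_card_mul _ _ 1 ?_).trans (by simp)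
  intro l _
  unfold qf
  split
  · split_ifs <;> simp
  · simp

/-- a term which requires and forbids the same position -/
def Self (ch : α → Option (B × Option J)) (as : Finset (α × Bool)) : Prop :=
  ∃ (b : B) (j : J) (a a' : α), (a, true) ∈ as ∧ (a', false) ∈ as ∧ ch a = some (b, some j) ∧
    ch a' = some (b, some j)

/-- the positive literals are right -/
def PosOk (ch : α → Option (B × Option J)) (Y : B → J) (as : Finset (α × Bool)) : Prop :=
  ∀ a, (a, true) ∈ as → ∀ (b : B) (oj : Option J), ch a = some (b, oj) → oj = some (Y b)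

/-- no negative literal is killed at the blocks in `K` -/
def NegOk (ch : α → Option (B × Option J)) (Y : B → J) (K : Finset B) (as : Finset (α × Bool)) :
    Prop :=
  ∀ a, (a, false) ∈ as → ∀ (b : B) (oj : Option J), ch a = some (b, oj) →
    ¬ (oj = some (Y b) ∧ b ∈ K)

/-- the new literals of a literal -/
def nl (ch : α → Option (B × Option J)) (emb : B → α) (l : α × Bool) : Finset (α × Bool) :=
  match ch l.1, l.2 with
  | none, _ => {l}
  | some (b, _), true => {(emb b, false)}
  | some _, false => ∅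

theorem card_nl (ch : α → Option (B × Option J)) (emb : B → α) (as : Finset (α × Bool)) :
    (as.biUnion (nl ch emb)).card ≤ as.card := by
  refine (Finset.card_biUnion_le_card_mul _ _ 1 ?_).trans (by simp)
  intro l _
  unfold nl
  split <;> simp

theorem nl_holds {ch : α → Option (B × Option J)} {emb : B → α} {as : Finset (α × Bool)}
    {ω : α → Bool} :
    (∀ l ∈ as.biUnion (nl ch emb), ω l.1 = l.2) ↔
      (∀ l ∈ as, ch l.1 = none → ω l.1 = l.2) ∧
      (∀ a, (a, true) ∈ as → ∀ (b : B) (oj : Option J), ch a = some (b, oj) →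
        ω (emb b) = false) := by
  constructor
  · intro h
    refine ⟨?_, ?_⟩
    · intro l hl hc
      apply h l
      rw [Finset.mem_biUnion]
      refine ⟨l, hl, ?_⟩
      unfold nl
      simp only [hc, Finset.mem_singleton]
    · intro a ha b oj hc
      apply h (emb b, false)
      rw [Finset.mem_biUnion]
      refine ⟨(a, true), ha, ?_⟩
      unfold nl
      simp only [hc, Finset.mem_singleton]
  · rintro ⟨h1, h2⟩ l hl
    rw [Finset.mem_biUnion] at hl
    obtain ⟨⟨a, s⟩, hl', hl⟩ := hl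
    unfold nl at hl
    split at hl
    · rename_i h3
      simp only at h3
      rw [Finset.mem_singleton] at hl
      subst hl
      exact h1 _ hl' h3
    · rename_i b oj h3 h4
      simp only at h3 h4
      rw [Finset.mem_singleton] at hl
      subst hl
      exact h2 a (h4 ▸ hl') b _ h3
    · simp at hl

/-- all subsets of `C` of size at most `κ` -/
def KS (C : Finset B) (κ : ℕ) : Finset (Finset B) := C.powerset.filter (fun K => K.card ≤ κ)

theorem mem_KS {C K : Finset B} {κ : ℕ} : K ∈ KS C κ ↔ K ⊆ C ∧ K.card ≤ κ := by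
  unfold KS
  rw [Finset.mem_filter, Finset.mem_powerset]

theorem card_KS (C : Finset B) (κ : ℕ) : (KS C κ).card ≤ (Fintype.card B + 1) ^ κ := by
  classical
  -- every small set is the set of values of a function on `Fin κ` with values in `Option B`
  have h : (KS C κ).card ≤ Fintype.card (Fin κ → Option B) := by
    rw [← Finset.card_univ]
    apply Finset.card_le_card_of_surjOn
      (fun f : Fin κ → Option B => (Finset.univ : Finset B).filter (fun b => ∃ i, f i = some b))
    intro K hK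
    rw [Finset.mem_coe, mem_KS] at hK
    refine ⟨fun i => if h : i.1 < K.card then some (K.equivFin.symm ⟨i.1, h⟩).1 else none,
      by simp, ?_⟩
    ext b
    simp only [Finset.mem_filter, Finset.mem_univ, true_and]
    constructor
    · rintro ⟨i, hi⟩
      split_ifs at hi with h1
      · rw [Option.some.injEq] at hi
        rw [← hi]
        exact (K.equivFin.symm ⟨i.1, h1⟩).2
    · intro hb
      refine ⟨⟨(K.equivFin ⟨b, hb⟩).1, lt_of_lt_of_le (K.equivFin ⟨b, hb⟩).2 hK.2⟩, ?_⟩
      simp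
  rw [Fintype.card_fun, Fintype.card_option, Fintype.card_fin] at h
  exact h

/-! ### The properties -/

/-- soundness and completeness of the elimination with advice `K` -/
def Elim1 (ch : α → Option (B × Option J)) (emb : B → α) (C : Finset B)
    (ok' : ℕ → α → Bool → Prop) (w' S' κ : ℕ) (ε : ℝ) (h : ℕ) (f : (α → Bool) → Prop) : Prop :=
  ∃ Tr : (B → J) → Finset B → (α → Bool) → Prop,
    (∀ Y K, Cl ok' w' S' h (Tr Y K)) ∧
    (∀ Y Y' K, (∀ b ∈ C, Y b = Y' b) → Tr Y K = Tr Y' K) ∧
    ∀ ω, pr (fun Y => ¬ ((∀ K, Cor emb ω K → f (old ch emb ω Y) → Tr Y K ω) ∧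
        (¬ f (old ch emb ω Y) → ∃ K ∈ KS C κ, Cor emb ω K ∧ ¬ Tr Y K ω))) ≤ ε

/-- elimination without advice -/
def Elim2 (ch : α → Option (B × Option J)) (emb : B → α) (C : Finset B)
    (ok' : ℕ → α → Bool → Prop) (w' S' : ℕ) (ε : ℝ) (h : ℕ) (f : (α → Bool) → Prop) : Prop :=
  ∃ Tr : (B → J) → (α → Bool) → Prop,
    (∀ Y, Cl ok' w' S' h (Tr Y)) ∧
    (∀ Y Y', (∀ b ∈ C, Y b = Y' b) → Tr Y = Tr Y') ∧
    ∀ ω, pr (fun Y => ¬ (f (old ch emb ω Y) ↔ Tr Y ω)) ≤ ε

/-- the elimination at the lowest height, with a deterministic soundness part -/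
def ElimA (ch : α → Option (B × Option J)) (emb : B → α) (C : Finset B)
    (ok' : ℕ → α → Bool → Prop) (w' S' κ : ℕ) (ε ε1 : ℝ) (h : ℕ) (loc : Prop)
    (f : (α → Bool) → Prop) : Prop :=
  ∃ Tr : (B → J) → Finset B → (α → Bool) → Prop,
    (∀ Y K, Cl ok' w' S' h (Tr Y K)) ∧
    (∀ Y Y' K, (∀ b ∈ C, Y b = Y' b) → Tr Y K = Tr Y' K) ∧
    (loc → ∀ Y Y' K, (∀ b ∈ K, Y b = Y' b) → Tr Y K = Tr Y' K) ∧
    (∀ ω Y K, Cor emb ω K → f (old ch emb ω Y) → Tr Y K ω) ∧
    (∀ ω, pr (fun Y => ¬ f (old ch emb ω Y) ∧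
      ∀ K ∈ KS C κ, Cor emb ω K → Tr Y K ω) ≤ ε) ∧
    (∀ ω, pr (fun Y => ¬ f (old ch emb ω Y) ∧ Tr Y ∅ ω) ≤ ε1)

theorem ElimA.elim1 {ch : α → Option (B × Option J)} {emb : B → α} {C : Finset B}
    {ok' : ℕ → α → Bool → Prop} {w' S' κ : ℕ} {ε ε1 : ℝ} {h : ℕ} {loc : Prop}
    {f : (α → Bool) → Prop} (hA : ElimA ch emb C ok' w' S' κ ε ε1 h loc f) :
    Elim1 ch emb C ok' w' S' κ ε h f := by
  obtain ⟨Tr, h1, h2, _, h3, h4, _⟩ := hA
  refine ⟨Tr, h1, h2, ?_⟩
  intro ω
  refine le_trans (pr_mono ?_) (h4 ω)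
  intro Y hY
  by_contra hcon
  apply hY
  refine ⟨fun K hK hf => h3 ω Y K hK hf, ?_⟩
  intro hf
  by_contra hcon2
  apply hcon
  refine ⟨hf, ?_⟩
  intro K hK1 hK2
  by_contra hcon3
  exact hcon2 ⟨K, hK1, hK2, hcon3⟩

theorem ElimA.elim2 {ch : α → Option (B × Option J)} {emb : B → α} {C : Finset B}
    {ok' : ℕ → α → Bool → Prop} {w' S' κ : ℕ} {ε ε1 : ℝ} {h : ℕ} {loc : Prop}
    {f : (α → Bool) → Prop} (hA : ElimA ch emb C ok' w' S' κ ε ε1 h loc f) :
    Elim2 ch emb C ok' w' S' ε1 h f := by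
  obtain ⟨Tr, h1, h2, _, h3, _, h4⟩ := hA
  refine ⟨fun Y => Tr Y ∅, fun Y => h1 Y ∅, fun Y Y' hY => h2 Y Y' ∅ hY, ?_⟩
  intro ω
  refine le_trans (pr_mono ?_) (h4 ω)
  intro Y hY
  have hs := h3 ω Y ∅ (by intro b hb; simp at hb)
  by_cases hf : f (old ch emb ω Y)
  · exact absurd ⟨fun _ => hs hf, fun _ => hf⟩ hY
  · refine ⟨hf, ?_⟩
    by_contra hcon
    exact hY ⟨fun h => absurd h hf, fun h => absurd h hcon⟩

/-- The height at which atoms of the eliminated kind occur first. -/
theorem stepA {ch : α → Option (B × Option J)} {emb : B → α} {C : Finset B}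
    (hC : ∀ a b oj, ch a = some (b, oj) → b ∈ C) {ok ok' : ℕ → α → Bool → Prop} {w S h : ℕ}
    (hw : 1 ≤ w) (r : ℕ) {f : (α → Bool) → Prop} (hf : Cl ok w S (h + 1) f)
    (hno : ∀ h' a s, 1 ≤ h' → h' ≤ h → ok h' a s → ch a = none)
    (hok1 : ∀ h' a s, 1 ≤ h' → h' ≤ h + 1 → ok h' a s → ch a = none → ok' h' a s)
    (hok2 : ∀ a b oj, ok (h + 1) a true → ch a = some (b, oj) → ok' (h + 1) (emb b) false) :
    ElimA ch emb C ok' w S (2 * w * r) (((2 * w : ℝ) ^ 2 / Fintype.card J) ^ r)
      ((2 * w : ℝ) ^ 2 / Fintype.card J) (h + 1)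
      (∀ a, ok (h + 1) a true → ch a = none) f := by
  classical
  cases hf with
  | @node _ ι D as g hD has hg =>
  have hgold : ∀ i ∈ D, ∀ ω Y, g i (old ch emb ω Y) ↔ g i ω := fun i hi ω Y =>
    no_child (hg i hi) hno ω Y
  let DA : (B → J) → Finset B → Finset ι := fun Y K =>
    D.filter (fun i => PosOk ch Y (as i) ∧ NegOk ch Y K (as i) ∧ ¬ Self ch (as i))
  let Tr : (B → J) → Finset B → (α → Bool) → Prop := fun Y K ω =>
    ∃ i ∈ DA Y K, (∀ l ∈ (as i).biUnion (nl ch emb), ω l.1 = l.2) ∧ ¬ g i ω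
  -- the terms for a fixed world
  let St : (α → Bool) → Finset ι := fun ω => D.filter (fun i =>
    (∀ l ∈ as i, ch l.1 = none → ω l.1 = l.2) ∧
    (∀ a, (a, true) ∈ as i → ∀ (b : B) (oj : Option J), ch a = some (b, oj) →
      oj ≠ none ∧ ω (emb b) = false) ∧ ¬ Self ch (as i) ∧ ¬ g i ω)
  let tm : (α → Bool) → ι → Trm B J := fun ω i =>
    ((as i).biUnion (pf ch), (as i).biUnion (qf ch emb ω))
  let tl : (α → Bool) → List (Trm B J) := fun ω => (St ω).toList.map (tm ω)
  have htl : ∀ ω, ∀ T ∈ tl ω, Disjoint T.1 T.2 ∧ T.1.card ≤ w ∧ T.2.card ≤ w := by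
    intro ω T hT
    obtain ⟨i, hi, rfl⟩ := List.mem_map.1 hT
    rw [Finset.mem_toList, Finset.mem_filter] at hi
    refine ⟨?_, (card_pf _ _).trans (has i hi.1).1, (card_qf _ _ _ _).trans (has i hi.1).1⟩
    rw [Finset.disjoint_left]
    rintro ⟨b, j⟩ h1 h2
    rw [mem_pf] at h1
    rw [mem_qf] at h2
    obtain ⟨a, ha1, ha2⟩ := h1
    obtain ⟨a', ha1', ha2', _⟩ := h2
    exact hi.2.2.2.1 ⟨b, j, a, a', ha1, ha1', ha2, ha2'⟩
  have hhits : ∀ ω Y, ∀ T ∈ tl ω, (hits Y T) ⊆ (Finset.univ : Finset B).filter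
      (fun b => b ∈ C ∧ ω (emb b) = false) := by
    intro ω Y T hT b hb
    obtain ⟨i, hi, rfl⟩ := List.mem_map.1 hT
    rw [mem_hits] at hb
    obtain ⟨a, _, h2, h3⟩ := mem_qf.1 hb
    rw [Finset.mem_filter]
    exact ⟨Finset.mem_univ _, hC _ _ _ h2, h3⟩
  -- an unhit valid term makes the formula true
  have hunhit : ∀ ω Y, ∀ T ∈ tl ω, PV Y T → hits Y T = ∅ →
      ∃ i ∈ D, (∀ l ∈ as i, old ch emb ω Y l.1 = l.2) ∧ ¬ g i (old ch emb ω Y) := by
    intro ω Y T hT hPV hh
    obtain ⟨i, hi, rfl⟩ := List.mem_map.1 hT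
    rw [Finset.mem_toList, Finset.mem_filter] at hi
    obtain ⟨hiD, h1, h2, _, h4⟩ := hi
    refine ⟨i, hiD, ?_, by rwa [hgold i hiD]⟩
    rintro ⟨a, s⟩ hl
    simp only
    cases hc : ch a with
    | none => rw [old_none hc]; exact h1 _ hl hc
    | some bo =>
      obtain ⟨b, oj⟩ := bo
      cases s with
      | true =>
        rw [old_true hc]
        obtain ⟨h5, h6⟩ := h2 a hl b oj hc
        refine ⟨?_, h6⟩
        cases oj with
        | none => exact absurd rfl h5
        | some j =>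
          have := hPV (b, j) (mem_pf.2 ⟨a, hl, hc⟩)
          simp only at this
          rw [this]
      | false =>
        rw [old_false hc]
        rintro ⟨h5, h6⟩
        have : b ∈ hits Y (tm ω i) := by
          rw [mem_hits]
          exact mem_qf.2 ⟨a, hl, by rw [hc, h5], h6⟩
        rw [hh] at this
        simp at this
  -- a true new formula has a valid term which is not hit in the advice
  have hTrT : ∀ ω Y K, Tr Y K ω → ∃ T ∈ tl ω, PV Y T ∧ Disjoint (hits Y T) K := by
    rintro ω Y K ⟨i, hi, h1, h2⟩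
    rw [Finset.mem_filter] at hi
    obtain ⟨hiD, h3, h4, h5⟩ := hi
    rw [nl_holds] at h1
    refine ⟨tm ω i, List.mem_map.2 ⟨i, ?_, rfl⟩, ?_, ?_⟩
    · rw [Finset.mem_toList, Finset.mem_filter]
      refine ⟨hiD, h1.1, ?_, h5, h2⟩
      intro a ha b oj hc
      refine ⟨?_, h1.2 a ha b oj hc⟩
      rw [h3 a ha b oj hc]
      simp
    · rintro ⟨b, j⟩ hx
      obtain ⟨a, ha1, ha2⟩ := mem_pf.1 hx
      have := h3 a ha1 b (some j) ha2
      simp only at this ⊢
      exact (Option.some.inj this).symm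
    · rw [Finset.disjoint_left]
      intro b hb hK
      rw [mem_hits] at hb
      obtain ⟨a, ha1, ha2, _⟩ := mem_qf.1 hb
      exact h4 a ha1 b _ ha2 ⟨rfl, hK⟩
  refine ⟨Tr, ?_, ?_, ?_, ?_, ?_, ?_⟩
  · -- the class
    intro Y K
    refine Cl.node (DA Y K) (fun i => (as i).biUnion (nl ch emb)) g
      ((Finset.card_filter_le _ _).trans hD) ?_ ?_
    · intro i hi
      have hiD := (Finset.mem_filter.1 hi).1
      refine ⟨(card_nl _ _ _).trans (has i hiD).1, ?_⟩
      intro l hl
      obtain ⟨⟨a, s⟩, hl', hl⟩ := Finset.mem_biUnion.1 hl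
      unfold nl at hl
      split at hl
      · rename_i h3
        simp only at h3
        rw [Finset.mem_singleton] at hl
        subst hl
        exact hok1 _ _ _ (by omega) le_rfl ((has i hiD).2 _ hl') h3
      · rename_i b oj h3 h4
        simp only at h3 h4
        rw [Finset.mem_singleton] at hl
        subst hl
        subst h4
        exact hok2 a b _ ((has i hiD).2 _ hl') h3
      · simp at hl
    · intro i hi
      have hiD := (Finset.mem_filter.1 hi).1
      have hsub : ∀ (h0 : ℕ) (f0 : (α → Bool) → Prop), h0 ≤ h → Cl ok w S h0 f0 →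
          Cl ok' w S h0 f0 := by
        intro h0 f0 hh0 hf0
        induction hf0 with
        | bot => exact Cl.bot
        | @node h1 ι1 D1 as1 g1 hD1 has1 _ ih1 =>
          exact Cl.node D1 as1 g1 hD1 (fun i hi => ⟨(has1 i hi).1, fun l hl =>
            hok1 _ _ _ (by omega) (by omega) ((has1 i hi).2 l hl)
              (hno _ _ _ (by omega) (by omega) ((has1 i hi).2 l hl))⟩)
            (fun i hi => ih1 i hi (by omega))
      exact hsub h (g i) le_rfl (hg i hiD)
  · -- dependence on the coordinates in `C`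
    intro Y Y' K hYY
    have : DA Y K = DA Y' K := by
      apply Finset.filter_congr
      intro i _
      have e1 : PosOk ch Y (as i) ↔ PosOk ch Y' (as i) := by
        unfold PosOk
        apply forall_congr'; intro a
        apply forall_congr'; intro _
        apply forall_congr'; intro b
        apply forall_congr'; intro oj
        apply forall_congr'; intro hc
        rw [hYY b (hC a b oj hc)]
      have e2 : NegOk ch Y K (as i) ↔ NegOk ch Y' K (as i) := by
        unfold NegOk
        apply forall_congr'; intro a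
        apply forall_congr'; intro _
        apply forall_congr'; intro b
        apply forall_congr'; intro oj
        apply forall_congr'; intro hc
        rw [hYY b (hC a b oj hc)]
      rw [e1, e2]
    simp only [Tr, this]
  · -- dependence on the advice only
    intro hpos Y Y' K hYY
    have : DA Y K = DA Y' K := by
      apply Finset.filter_congr
      intro i hi
      have e1 : ∀ Y : B → J, PosOk ch Y (as i) := by
        intro Y a ha b oj hc
        have := hpos a ((has i hi).2 (a, true) ha)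
        rw [this] at hc
        simp at hc
      have e2 : NegOk ch Y K (as i) ↔ NegOk ch Y' K (as i) := by
        unfold NegOk
        apply forall_congr'; intro a
        apply forall_congr'; intro _
        apply forall_congr'; intro b
        apply forall_congr'; intro oj
        apply forall_congr'; intro hc
        apply not_congr
        constructor
        · rintro ⟨h1, h2⟩
          exact ⟨by rw [h1, hYY b h2], h2⟩
        · rintro ⟨h1, h2⟩
          exact ⟨by rw [h1, hYY b h2], h2⟩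
      simp [e1, e2]
    simp only [Tr, this]
  · -- soundness
    rintro ω Y K hK ⟨i, hi, h1, h2⟩
    refine ⟨i, ?_, ?_, by rwa [hgold i hi] at h2⟩
    · rw [Finset.mem_filter]
      refine ⟨hi, ?_, ?_, ?_⟩
      · intro a ha b oj hc
        have := h1 (a, true) ha
        rw [old_true hc] at this
        exact this.1
      · intro a ha b oj hc hcon
        have := h1 (a, false) ha
        rw [old_false hc] at this
        exact this ⟨hcon.1, hK b hcon.2⟩
      · rintro ⟨b, j, a, a', ha, ha', hc, hc'⟩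
        have e1 := h1 (a, true) ha
        have e2 := h1 (a', false) ha'
        rw [old_true hc] at e1
        rw [old_false hc'] at e2
        exact e2 e1
    · rw [nl_holds]
      refine ⟨?_, ?_⟩
      · intro l hl hc
        rw [← old_none (emb := emb) (ω := ω) (Y := Y) hc]
        exact h1 l hl
      · intro a ha b oj hc
        have := h1 (a, true) ha
        rw [old_true hc] at this
        exact this.2
  · -- completeness
    intro ω
    refine le_trans (pr_mono ?_) (hit_pr (tl ω) w hw (htl ω) r)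
    rintro Y ⟨hf1, hf2⟩
    refine ⟨?_, ?_⟩
    · intro T hT hPV
      rw [Finset.nonempty_iff_ne_empty]
      intro hh
      exact hf1 (hunhit ω Y T hT hPV hh)
    · intro K hK
      obtain ⟨T, h1, h2, h3⟩ := hTrT ω Y (K.filter (fun b => b ∈ C ∧ ω (emb b) = false))
        (hf2 _ (mem_KS.2 ⟨fun b hb => (Finset.mem_filter.1 hb).2.1,
          (Finset.card_filter_le _ _).trans hK⟩) (by
          intro b hb
          exact (Finset.mem_filter.1 hb).2.2))
      refine ⟨T, h1, h2, ?_⟩
      rw [Finset.disjoint_left] at h3 ⊢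
      intro b hb hbK
      exact h3 hb (Finset.mem_filter.2 ⟨hbK, (Finset.mem_filter.1 (hhits ω Y T h1 hb)).2⟩)
  · -- no advice
    intro ω
    have h1 := hit_pr1 (tl ω) w hw (htl ω)
    refine le_trans (pr_mono ?_) h1
    rintro Y ⟨hf1, hf2⟩
    obtain ⟨T, h1, h2, _⟩ := hTrT ω Y ∅ hf2
    refine ⟨⟨T, h1, h2⟩, ?_⟩
    intro T hT hPV
    rw [Finset.nonempty_iff_ne_empty]
    intro hh
    exact hf1 (hunhit ω Y T hT hPV hh)

/-- The next height: all atoms of the eliminated kind occur negatively. -/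
theorem stepB {ch : α → Option (B × Option J)} {emb : B → α} {C : Finset B}
    (hC : ∀ a b oj, ch a = some (b, oj) → b ∈ C) {ok ok' : ℕ → α → Bool → Prop} {w S h : ℕ}
    (hw : 1 ≤ w) (r : ℕ) {f : (α → Bool) → Prop} (hf : Cl ok w S (h + 2) f)
    (hno : ∀ h' a s, 1 ≤ h' → h' ≤ h → ok h' a s → ch a = none)
    (hneg : ∀ h' a, ok h' a true → ch a = none)
    (hok1 : ∀ h' a s, 1 ≤ h' → h' ≤ h + 2 → ok h' a s → ch a = none → ok' h' a s)
    (hok2 : ∀ b ∈ C, ok' (h + 2) (emb b) false) :
    Elim1 ch emb C ok' (w + 2 * w * r) (S * (Fintype.card B + 1) ^ (2 * w * r))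
      (2 * (w + 2 * w * r) * r)
      (S * ((2 * w : ℝ) ^ 2 / Fintype.card J) ^ r +
        ((2 * ((w + 2 * w * r : ℕ) : ℝ)) ^ 2 / Fintype.card J) ^ r) (h + 2) f ∧
    Elim2 ch emb C ok' (w + 2 * w * r) (S * (Fintype.card B + 1) ^ (2 * w * r))
      (S * ((2 * w : ℝ) ^ 2 / Fintype.card J) ^ r +
        (2 * ((w + 2 * w * r : ℕ) : ℝ)) ^ 2 / Fintype.card J) (h + 2) f := by
  classical
  have hJ : (0 : ℝ) < Fintype.card J := by exact_mod_cast Fintype.card_pos
  set κ := 2 * w * r with hκ
  set εA := ((2 * w : ℝ) ^ 2 / Fintype.card J) ^ r with hεA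
  have hεA0 : 0 ≤ εA := by positivity
  cases hf with
  | @node _ ι D as g hD has hg =>
  have hgA : ∀ i ∈ D, ElimA ch emb C ok' w S κ εA ((2 * w : ℝ) ^ 2 / Fintype.card J) (h + 1)
      True (g i) := by
    intro i hi
    have := stepA (emb := emb) hC hw r (hg i hi) hno
      (fun h' a s h1 h2 h3 h4 => hok1 h' a s h1 (by omega) h3 h4)
      (fun a b oj h1 h2 => by rw [hneg _ _ h1] at h2; simp at h2)
    obtain ⟨Tr, e1, e2, e3, e4, e5, e6⟩ := this
    exact ⟨Tr, e1, e2, fun _ => e3 (fun a ha => hneg _ _ ha), e4, e5, e6⟩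
  choose! TA hA1 hA2 hA3 hA4 hA5 _ using hgA
  let DB : (B → J) → Finset B → Finset (ι × Finset B) := fun Y K =>
    (D ×ˢ KS C κ).filter (fun z => NegOk ch Y K (as z.1) ∧ NegOk ch Y z.2 (as z.1))
  let Tr : (B → J) → Finset B → (α → Bool) → Prop := fun Y K ω =>
    ∃ z ∈ DB Y K, (∀ l ∈ (as z.1).biUnion (nl ch emb) ∪ z.2.image (fun b => (emb b, false)),
      ω l.1 = l.2) ∧ ¬ TA z.1 Y z.2 ω
  let St : (α → Bool) → Finset (ι × Finset B × (B → J)) := fun ω =>
    (D ×ˢ (KS C κ ×ˢ (Finset.univ : Finset (B → J)))).filter (fun z =>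
      (∀ l ∈ as z.1, ch l.1 = none → ω l.1 = l.2) ∧ Cor emb ω z.2.1 ∧
      ¬ TA z.1 z.2.2 z.2.1 ω ∧
      Disjoint (z.2.1.image (fun b => (b, z.2.2 b))) ((as z.1).biUnion (qf ch emb ω)))
  let tm : (α → Bool) → ι × Finset B × (B → J) → Trm B J := fun ω z =>
    (z.2.1.image (fun b => (b, z.2.2 b)), (as z.1).biUnion (qf ch emb ω))
  let tl : (α → Bool) → List (Trm B J) := fun ω => (St ω).toList.map (tm ω)
  have htl : ∀ ω, ∀ T ∈ tl ω, Disjoint T.1 T.2 ∧ T.1.card ≤ w + κ ∧ T.2.card ≤ w + κ := by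
    intro ω T hT
    obtain ⟨z, hz, rfl⟩ := List.mem_map.1 hT
    rw [Finset.mem_toList, Finset.mem_filter] at hz
    obtain ⟨hz1, _, _, _, hz5⟩ := hz
    rw [Finset.mem_product, Finset.mem_product] at hz1
    refine ⟨hz5, ?_, ?_⟩
    · refine (Finset.card_image_le).trans ?_
      have := (mem_KS.1 hz1.2.1).2
      omega
    · have h1 := (card_qf ch emb ω (as z.1)).trans (has z.1 hz1.1).1
      exact h1.trans (by omega)
  have hhits : ∀ ω Y, ∀ T ∈ tl ω, (hits Y T) ⊆ (Finset.univ : Finset B).filter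
      (fun b => b ∈ C ∧ ω (emb b) = false) := by
    intro ω Y T hT b hb
    obtain ⟨z, hz, rfl⟩ := List.mem_map.1 hT
    rw [mem_hits] at hb
    obtain ⟨a, _, h2, h3⟩ := mem_qf.1 hb
    rw [Finset.mem_filter]
    exact ⟨Finset.mem_univ _, hC _ _ _ h2, h3⟩
  have hunhit : ∀ ω Y, ∀ T ∈ tl ω, PV Y T → hits Y T = ∅ →
      ∃ i ∈ D, (∀ l ∈ as i, old ch emb ω Y l.1 = l.2) ∧ ¬ g i (old ch emb ω Y) := by
    intro ω Y T hT hPV hh
    obtain ⟨⟨i, K', Y'⟩, hz, rfl⟩ := List.mem_map.1 hT
    rw [Finset.mem_toList, Finset.mem_filter] at hz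
    obtain ⟨hz1, h1, h2, h3, _⟩ := hz
    rw [Finset.mem_product, Finset.mem_product] at hz1
    simp only at hz1 h1 h2 h3
    have hYY : ∀ b ∈ K', Y b = Y' b := by
      intro b hb
      exact hPV (b, Y' b) (Finset.mem_image.2 ⟨b, hb, rfl⟩)
    refine ⟨i, hz1.1, ?_, ?_⟩
    · rintro ⟨a, s⟩ hl
      simp only
      cases hc : ch a with
      | none => rw [old_none hc]; exact h1 _ hl hc
      | some bo =>
        obtain ⟨b, oj⟩ := bo
        cases s with
        | true =>
          have := hneg _ _ ((has i hz1.1).2 _ hl)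
          simp only at this
          rw [this] at hc
          simp at hc
        | false =>
          rw [old_false hc]
          rintro ⟨h5, h6⟩
          have : b ∈ hits Y (tm ω (i, K', Y')) := by
            rw [mem_hits]
            exact mem_qf.2 ⟨a, hl, by rw [hc, h5], h6⟩
          rw [hh] at this
          simp at this
    · intro hgi
      apply h3
      rw [← hA3 i hz1.1 trivial Y Y' K' hYY]
      exact hA4 i hz1.1 ω Y K' h2 hgi
  have hTrT : ∀ ω Y K, Tr Y K ω → ∃ T ∈ tl ω, PV Y T ∧ Disjoint (hits Y T) K := by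
    rintro ω Y K ⟨⟨i, K'⟩, hi, h1, h2⟩
    rw [Finset.mem_filter, Finset.mem_product] at hi
    obtain ⟨⟨hiD, hK'⟩, h3, h4⟩ := hi
    simp only at hiD hK' h1 h2 h3 h4
    have h1a : ∀ l ∈ (as i).biUnion (nl ch emb), ω l.1 = l.2 := fun l hl =>
      h1 l (Finset.mem_union_left _ hl)
    have h1b : Cor emb ω K' := fun b hb =>
      h1 (emb b, false) (Finset.mem_union_right _ (Finset.mem_image.2 ⟨b, hb, rfl⟩))
    rw [nl_holds] at h1a
    refine ⟨tm ω (i, K', Y), List.mem_map.2 ⟨(i, K', Y), ?_, rfl⟩, ?_, ?_⟩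
    · rw [Finset.mem_toList, Finset.mem_filter]
      refine ⟨?_, h1a.1, h1b, h2, ?_⟩
      · rw [Finset.mem_product, Finset.mem_product]
        exact ⟨hiD, hK', Finset.mem_univ _⟩
      · rw [Finset.disjoint_left]
        rintro ⟨b, j⟩ hx hq
        obtain ⟨b', hb', hbj⟩ := Finset.mem_image.1 hx
        simp only [Prod.mk.injEq] at hbj
        obtain ⟨rfl, rfl⟩ := hbj
        obtain ⟨a, ha1, ha2, _⟩ := mem_qf.1 hq
        exact h4 a ha1 b' _ ha2 ⟨rfl, hb'⟩
    · rintro ⟨b, j⟩ hx
      obtain ⟨b', hb', hbj⟩ := Finset.mem_image.1 hx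
      simp only [Prod.mk.injEq] at hbj
      obtain ⟨rfl, rfl⟩ := hbj
      rfl
    · rw [Finset.disjoint_left]
      intro b hb hK
      rw [mem_hits] at hb
      obtain ⟨a, ha1, ha2, _⟩ := mem_qf.1 hb
      exact h3 a ha1 b _ ha2 ⟨rfl, hK⟩
  -- soundness for good `Y`
  have hsound : ∀ ω Y, (∀ i ∈ D, ¬ (¬ g i (old ch emb ω Y) ∧
      ∀ K ∈ KS C κ, Cor emb ω K → TA i Y K ω)) → ∀ K, Cor emb ω K →
      (∃ i ∈ D, (∀ l ∈ as i, old ch emb ω Y l.1 = l.2) ∧ ¬ g i (old ch emb ω Y)) → Tr Y K ω := by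
    rintro ω Y hgood K hK ⟨i, hi, h1, h2⟩
    have h3 := hgood i hi
    push Not at h3
    obtain ⟨K', hK'1, hK'2, hK'3⟩ := h3 h2
    have hkill : ∀ K'' : Finset B, Cor emb ω K'' → NegOk ch Y K'' (as i) := by
      intro K'' hK'' a ha b oj hc hcon
      have := h1 (a, false) ha
      rw [old_false hc] at this
      exact this ⟨hcon.1, hK'' b hcon.2⟩
    refine ⟨(i, K'), ?_, ?_, hK'3⟩
    · rw [Finset.mem_filter, Finset.mem_product]
      exact ⟨⟨hi, hK'1⟩, hkill K hK, hkill K' hK'2⟩
    · have hnl : ∀ l ∈ (as i).biUnion (nl ch emb), ω l.1 = l.2 := by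
        rw [nl_holds]
        refine ⟨?_, ?_⟩
        · intro l hl hc
          rw [← old_none (emb := emb) (ω := ω) (Y := Y) hc]
          exact h1 l hl
        · intro a ha b oj hc
          have := hneg _ _ ((has i hi).2 _ ha)
          simp only at this
          rw [this] at hc
          simp at hc
      intro l hl
      rcases Finset.mem_union.1 hl with hl | hl
      · exact hnl l hl
      · obtain ⟨b, hb, rfl⟩ := Finset.mem_image.1 hl
        exact hK'2 b hb
  have hbadchild : ∀ ω, pr (fun Y : B → J => ∃ i ∈ D, ¬ g i (old ch emb ω Y) ∧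
      ∀ K ∈ KS C κ, Cor emb ω K → TA i Y K ω) ≤ S * εA := by
    intro ω
    refine (pr_exists D _ εA (fun i hi => hA5 i hi ω)).trans ?_
    apply mul_le_mul_of_nonneg_right _ hεA0
    exact_mod_cast hD
  have hcl : ∀ Y K, Cl ok' (w + κ) (S * (Fintype.card B + 1) ^ κ) (h + 2) (Tr Y K) := by
    intro Y K
    have hpos : 1 ≤ (Fintype.card B + 1) ^ κ := Nat.one_le_pow _ _ (by omega)
    refine Cl.node (DB Y K)
      (fun z => (as z.1).biUnion (nl ch emb) ∪ z.2.image (fun b => (emb b, false)))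
      (fun z => TA z.1 Y z.2) ?_ ?_ ?_
    · refine (Finset.card_filter_le _ _).trans ?_
      rw [Finset.card_product]
      exact Nat.mul_le_mul hD (card_KS C κ)
    · intro z hz
      obtain ⟨hz1, _⟩ := Finset.mem_filter.1 hz
      rw [Finset.mem_product] at hz1
      refine ⟨(Finset.card_union_le _ _).trans (Nat.add_le_add
        ((card_nl _ _ _).trans (has _ hz1.1).1)
        ((Finset.card_image_le).trans (mem_KS.1 hz1.2).2)), ?_⟩
      intro l hl
      rcases Finset.mem_union.1 hl with hl | hl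
      · obtain ⟨⟨a, s⟩, hl', hl⟩ := Finset.mem_biUnion.1 hl
        unfold nl at hl
        split at hl
        · rename_i h3
          simp only at h3
          rw [Finset.mem_singleton] at hl
          subst hl
          exact hok1 _ _ _ (by omega) le_rfl ((has _ hz1.1).2 _ hl') h3
        · rename_i b oj h3 h4
          simp only at h3 h4
          subst h4
          have := hneg _ _ ((has _ hz1.1).2 _ hl')
          simp only at this
          rw [this] at h3
          simp at h3
        · simp at hl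
      · obtain ⟨b, hb, rfl⟩ := Finset.mem_image.1 hl
        exact hok2 b ((mem_KS.1 hz1.2).1 hb)
    · intro z hz
      obtain ⟨hz1, _⟩ := Finset.mem_filter.1 hz
      rw [Finset.mem_product] at hz1
      exact (hA1 z.1 hz1.1 Y z.2).mono (fun _ _ _ h => h) (by omega)
        (Nat.le_mul_of_pos_right _ hpos)
  have hdep : ∀ Y Y' K, (∀ b ∈ C, Y b = Y' b) → Tr Y K = Tr Y' K := by
    intro Y Y' K hYY
    have hN : ∀ K'' i, NegOk ch Y K'' (as i) ↔ NegOk ch Y' K'' (as i) := by
      intro K'' i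
      unfold NegOk
      apply forall_congr'; intro a
      apply forall_congr'; intro _
      apply forall_congr'; intro b
      apply forall_congr'; intro oj
      apply forall_congr'; intro hc
      rw [hYY b (hC a b oj hc)]
    funext ω
    apply propext
    constructor
    · rintro ⟨z, hz, h1, h2⟩
      rw [Finset.mem_filter] at hz
      refine ⟨z, Finset.mem_filter.2 ⟨hz.1, (hN _ _).1 hz.2.1, (hN _ _).1 hz.2.2⟩, h1, ?_⟩
      rw [← hA2 z.1 (Finset.mem_product.1 hz.1).1 Y Y' z.2 hYY]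
      exact h2
    · rintro ⟨z, hz, h1, h2⟩
      rw [Finset.mem_filter] at hz
      refine ⟨z, Finset.mem_filter.2 ⟨hz.1, (hN _ _).2 hz.2.1, (hN _ _).2 hz.2.2⟩, h1, ?_⟩
      rw [hA2 z.1 (Finset.mem_product.1 hz.1).1 Y Y' z.2 hYY]
      exact h2
  refine ⟨⟨Tr, hcl, hdep, ?_⟩, ⟨fun Y => Tr Y ∅, fun Y => hcl Y ∅, fun Y Y' hY => hdep Y Y' ∅ hY, ?_⟩⟩
  · intro ω
    have h1 := hit_pr (tl ω) (w + κ) (by omega) (htl ω) r
    have h2 := hbadchild ω
    refine le_trans (pr_mono ?_) ((pr_or _ _).trans (add_le_add h2 h1))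
    intro Y hY
    by_contra hcon
    push Not at hcon
    obtain ⟨hcon1, hcon2⟩ := hcon
    apply hY
    refine ⟨?_, ?_⟩
    · intro K hK hf
      exact hsound ω Y (fun i hi hbad => by
        obtain ⟨K', e1, e2, e3⟩ := hcon1 i hi hbad.1
        exact e3 (hbad.2 K' e1 e2)) K hK hf
    · intro hf
      by_contra hcon3
      push Not at hcon3
      obtain ⟨K, hK, hall⟩ := hcon2 (by
        intro T hT hPV
        rw [Finset.nonempty_iff_ne_empty]
        intro hh
        exact hf (hunhit ω Y T hT hPV hh))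
      obtain ⟨T, e1, e2, e3⟩ := hTrT ω Y (K.filter (fun b => b ∈ C ∧ ω (emb b) = false))
        (hcon3 _ (mem_KS.2 ⟨fun b hb => (Finset.mem_filter.1 hb).2.1,
          (Finset.card_filter_le _ _).trans hK⟩) (by
          intro b hb
          exact (Finset.mem_filter.1 hb).2.2))
      apply hall T e1 e2
      rw [Finset.disjoint_left] at e3 ⊢
      intro b hb hbK
      exact e3 hb (Finset.mem_filter.2 ⟨hbK, (Finset.mem_filter.1 (hhits ω Y T e1 hb)).2⟩)
  · intro ω
    have h1 := hit_pr1 (tl ω) (w + κ) (by omega) (htl ω)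
    have h2 := hbadchild ω
    refine le_trans (pr_mono ?_) ((pr_or _ _).trans (add_le_add h2 h1))
    intro Y hY
    by_contra hcon
    push Not at hcon
    obtain ⟨hcon1, hcon2⟩ := hcon
    apply hY
    constructor
    · intro hf
      exact hsound ω Y (fun i hi hbad => by
        obtain ⟨K', e1, e2, e3⟩ := hcon1 i hi hbad.1
        exact e3 (hbad.2 K' e1 e2)) ∅ (by intro b hb; simp at hb) hf
    · intro hTr
      by_contra hf
      obtain ⟨T, e1, e2, _⟩ := hTrT ω Y ∅ hTr
      obtain ⟨T', e3, e4, e5⟩ := hcon2 ⟨T, e1, e2⟩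
      exact hf (hunhit ω Y T' e3 e4 (by simpa using e5))

/-- A node without atoms of the eliminated kind over nodes with advice. -/
theorem nodeE1 {ch : α → Option (B × Option J)} {emb : B → α} {C : Finset B}
    {ok ok' : ℕ → α → Bool → Prop} {w S w' S' κ h : ℕ} {ε : ℝ} (hε : 0 ≤ ε)
    {f : (α → Bool) → Prop} (hf : Cl ok w S (h + 1) f)
    (hno : ∀ a s, ok (h + 1) a s → ch a = none)
    (hok1 : ∀ a s, ok (h + 1) a s → ok' (h + 1) a s)
    (hok2 : ∀ b ∈ C, ok' (h + 1) (emb b) false)
    (hg : ∀ g : (α → Bool) → Prop, Cl ok w S h g → Elim1 ch emb C ok' w' S' κ ε h g) :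
    Elim2 ch emb C ok' (max w' (w + κ)) (max S' (S * (Fintype.card B + 1) ^ κ)) (S * ε)
      (h + 1) f := by
  classical
  cases hf with
  | @node _ ι D as g hD has hg' =>
  have hex : ∀ i ∈ D, Elim1 ch emb C ok' w' S' κ ε h (g i) := fun i hi => hg _ (hg' i hi)
  choose! TA hA1 hA2 hA3 using hex
  have hold : ∀ i ∈ D, ∀ ω Y, (∀ l ∈ as i, old ch emb ω Y l.1 = l.2) ↔
      ∀ l ∈ as i, ω l.1 = l.2 := by
    intro i hi ω Y
    apply forall_congr'; intro l
    apply forall_congr'; intro hl
    rw [old_none (hno _ _ ((has i hi).2 l hl))]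
  let Tr : (B → J) → (α → Bool) → Prop := fun Y ω =>
    ∃ z ∈ D ×ˢ KS C κ, (∀ l ∈ as z.1 ∪ z.2.image (fun b => (emb b, false)), ω l.1 = l.2) ∧
      ¬ TA z.1 Y z.2 ω
  refine ⟨Tr, ?_, ?_, ?_⟩
  · intro Y
    refine Cl.node (D ×ˢ KS C κ) (fun z => as z.1 ∪ z.2.image (fun b => (emb b, false)))
      (fun z => TA z.1 Y z.2) ?_ ?_ ?_
    · rw [Finset.card_product]
      exact (Nat.mul_le_mul hD (card_KS C κ)).trans (le_max_right _ _)
    · intro z hz
      rw [Finset.mem_product] at hz
      refine ⟨((Finset.card_union_le _ _).trans (Nat.add_le_add (has _ hz.1).1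
        ((Finset.card_image_le).trans (mem_KS.1 hz.2).2))).trans (le_max_right _ _), ?_⟩
      intro l hl
      rcases Finset.mem_union.1 hl with hl | hl
      · exact hok1 _ _ ((has _ hz.1).2 l hl)
      · obtain ⟨b, hb, rfl⟩ := Finset.mem_image.1 hl
        exact hok2 b ((mem_KS.1 hz.2).1 hb)
    · intro z hz
      rw [Finset.mem_product] at hz
      exact (hA1 z.1 hz.1 Y z.2).mono (fun _ _ _ h => h) (le_max_left _ _) (le_max_left _ _)
  · intro Y Y' hYY
    funext ω
    apply propext
    constructor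
    · rintro ⟨z, hz, h1, h2⟩
      refine ⟨z, hz, h1, ?_⟩
      rw [← hA2 z.1 (Finset.mem_product.1 hz).1 Y Y' z.2 hYY]
      exact h2
    · rintro ⟨z, hz, h1, h2⟩
      refine ⟨z, hz, h1, ?_⟩
      rw [hA2 z.1 (Finset.mem_product.1 hz).1 Y Y' z.2 hYY]
      exact h2
  · intro ω
    have h1 := pr_exists D _ ε (fun i hi => hA3 i hi ω)
    refine le_trans (pr_mono ?_) (h1.trans (mul_le_mul_of_nonneg_right (by exact_mod_cast hD) hε))
    intro Y hY
    by_contra hcon
    apply hY
    have hgood : ∀ i ∈ D, (∀ K, Cor emb ω K → g i (old ch emb ω Y) → TA i Y K ω) ∧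
        (¬ g i (old ch emb ω Y) → ∃ K ∈ KS C κ, Cor emb ω K ∧ ¬ TA i Y K ω) := by
      intro i hi
      by_contra hc
      exact hcon ⟨i, hi, hc⟩
    constructor
    · rintro ⟨i, hi, h1, h2⟩
      obtain ⟨K, hK1, hK2, hK3⟩ := (hgood i hi).2 h2
      refine ⟨(i, K), Finset.mem_product.2 ⟨hi, hK1⟩, ?_, hK3⟩
      intro l hl
      rcases Finset.mem_union.1 hl with hl | hl
      · exact (hold i hi ω Y).1 h1 l hl
      · obtain ⟨b, hb, rfl⟩ := Finset.mem_image.1 hl
        exact hK2 b hb
    · rintro ⟨⟨i, K⟩, hz, h1, h2⟩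
      rw [Finset.mem_product] at hz
      refine ⟨i, hz.1, (hold i hz.1 ω Y).2 (fun l hl => h1 l (Finset.mem_union_left _ hl)), ?_⟩
      intro hgi
      exact h2 ((hgood i hz.1).1 K (fun b hb =>
        h1 (emb b, false) (Finset.mem_union_right _ (Finset.mem_image.2 ⟨b, hb, rfl⟩))) hgi)

/-- A node without atoms of the eliminated kind over nodes without advice. -/
theorem nodeE2 {ch : α → Option (B × Option J)} {emb : B → α} {C : Finset B}
    {ok ok' : ℕ → α → Bool → Prop} {w S w' S' h : ℕ} {ε : ℝ} (hε : 0 ≤ ε)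
    {f : (α → Bool) → Prop} (hf : Cl ok w S (h + 1) f)
    (hno : ∀ a s, ok (h + 1) a s → ch a = none)
    (hok1 : ∀ a s, ok (h + 1) a s → ok' (h + 1) a s) (hww : w ≤ w') (hSS : S ≤ S')
    (hg : ∀ g : (α → Bool) → Prop, Cl ok w S h g → Elim2 ch emb C ok' w' S' ε h g) :
    Elim2 ch emb C ok' w' S' (S * ε) (h + 1) f := by
  classical
  cases hf with
  | @node _ ι D as g hD has hg' =>
  have hex : ∀ i ∈ D, Elim2 ch emb C ok' w' S' ε h (g i) := fun i hi => hg _ (hg' i hi)
  choose! TA hA1 hA2 hA3 using hex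
  have hold : ∀ i ∈ D, ∀ ω Y, (∀ l ∈ as i, old ch emb ω Y l.1 = l.2) ↔
      ∀ l ∈ as i, ω l.1 = l.2 := by
    intro i hi ω Y
    apply forall_congr'; intro l
    apply forall_congr'; intro hl
    rw [old_none (hno _ _ ((has i hi).2 l hl))]
  refine ⟨fun Y ω => ∃ i ∈ D, (∀ l ∈ as i, ω l.1 = l.2) ∧ ¬ TA i Y ω, ?_, ?_, ?_⟩
  · intro Y
    exact Cl.node D as (fun i => TA i Y) (hD.trans hSS) (fun i hi => ⟨(has i hi).1.trans hww,
      fun l hl => hok1 _ _ ((has i hi).2 l hl)⟩) (fun i hi => hA1 i hi Y)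
  · intro Y Y' hYY
    funext ω
    apply propext
    constructor
    · rintro ⟨i, hi, h1, h2⟩
      exact ⟨i, hi, h1, by rw [← hA2 i hi Y Y' hYY]; exact h2⟩
    · rintro ⟨i, hi, h1, h2⟩
      exact ⟨i, hi, h1, by rw [hA2 i hi Y Y' hYY]; exact h2⟩
  · intro ω
    have h1 := pr_exists D _ ε (fun i hi => hA3 i hi ω)
    refine le_trans (pr_mono ?_) (h1.trans (mul_le_mul_of_nonneg_right (by exact_mod_cast hD) hε))
    intro Y hY
    by_contra hcon
    apply hY
    have hgood : ∀ i ∈ D, (g i (old ch emb ω Y) ↔ TA i Y ω) := by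
      intro i hi
      by_contra hc
      exact hcon ⟨i, hi, hc⟩
    constructor
    · rintro ⟨i, hi, h1, h2⟩
      exact ⟨i, hi, (hold i hi ω Y).1 h1, by rwa [← hgood i hi]⟩
    · rintro ⟨i, hi, h1, h2⟩
      exact ⟨i, hi, (hold i hi ω Y).2 h1, by rwa [hgood i hi]⟩

end

end Pool.Agent.H8h
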