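import Pool.Agent.H8.PGeo
import Pool.Agent.H8.Step

set_option autoImplicit false
set_option linter.unusedSectionVars false

/-!
# Elimination of hidden thresholds
-/

namespace Pool.Agent.H8p

open Finset
open Pool.Agent.H8h (pr pr_eq pr_mono pr_or pr_congr pr_exists pr_piecewise pr_nonneg pr_true
  pr_false Cl KS mem_KS card_KS Cor)
open Pool.Agent.H8 (first_unique first_nondead)

section

variable {α B : Type} [DecidableEq α] [DecidableEq B] [Fintype B]

/-- The old world: an atom `a` with `ch a = some (b, n)` is false iff `n` is at most the threshold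
`2 x b + β b`, where `β b` is the value of the new atom of the block `b`. -/
def oldT (ch : α → Option (B × ℕ)) (emb : B → α) (ω : α → Bool) (x : B → ℕ) : α → Bool :=
  fun a => match ch a with
    | none => ω a
    | some (b, n) => !decide (n ≤ 2 * x b + (ω (emb b)).toNat)

theorem oldT_none {ch : α → Option (B × ℕ)} {emb : B → α} {ω : α → Bool} {x : B → ℕ} {a : α}
    (h : ch a = none) : oldT ch emb ω x a = ω a := by
  unfold oldT
  rw [h]

theorem oldT_false {ch : α → Option (B × ℕ)} {emb : B → α} {ω : α → Bool} {x : B → ℕ} {a : α}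
    {b : B} {n : ℕ} (h : ch a = some (b, n)) :
    oldT ch emb ω x a = false ↔ n ≤ 2 * x b + (ω (emb b)).toNat := by
  unfold oldT
  rw [h]
  simp

theorem oldT_true {ch : α → Option (B × ℕ)} {emb : B → α} {ω : α → Bool} {x : B → ℕ} {a : α}
    {b : B} {n : ℕ} (h : ch a = some (b, n)) :
    oldT ch emb ω x a = true ↔ ¬ (n ≤ 2 * x b + (ω (emb b)).toNat) := by
  rw [← oldT_false (emb := emb) (ω := ω) h]
  simp

/-- The hypotheses of the threshold step: `κ b` is the level of the block `b`. -/
structure ThrHyp (ch : α → Option (B × ℕ)) (emb : B → α) (C : Finset B) (κ : B → ℕ)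
    (ok ok' : ℕ → α → Bool → Prop) : Prop where
  hC : ∀ a b n, ch a = some (b, n) → b ∈ C
  hht : ∀ h a s b n, 1 ≤ h → ok h a s → ch a = some (b, n) → h = κ b ∨ (h + 1 = κ b ∧ s = false)
  hok1 : ∀ h a s, 1 ≤ h → ok h a s → ch a = none → ok' h a s
  hok2 : ∀ b s, b ∈ C → ok' (κ b) (emb b) s

/-- a run depends only on the blocks of the terms -/
theorem RunT.congr {β : Finset B} {l : List (Finset (B × ℕ))} {x x' : B → ℕ}
    (hx : ∀ T ∈ l, ∀ z ∈ T, x z.1 = x' z.1) {K : Finset B} {L : List (Finset B)}
    (h : RunT β l x K L) : RunT β l x' K L := by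
  have hV : ∀ T ∈ l, (Vld x T ↔ Vld x' T) := by
    intro T hT
    unfold Vld
    apply forall_congr'; intro z
    apply forall_congr'; intro hz
    rw [hx T hT z hz]
  have hH : ∀ T ∈ l, hit β x T = hit β x' T := by
    intro T hT
    ext b
    rw [mem_hit, mem_hit]
    constructor
    · rintro ⟨h1, h2⟩
      have := hx T hT _ h1
      simp only at this
      rw [← this]
      exact ⟨h1, h2⟩
    · rintro ⟨h1, h2⟩
      have := hx T hT _ h1
      simp only at this
      rw [this]
      exact ⟨h1, h2⟩
  induction h with
  | nil K => exact RunT.nil K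
  | @cons K l1 l2 T L h1 h2 h3 h4 _ ih =>
    have hT : T ∈ l := by rw [h1]; simp
    refine RunT.cons h1 ?_ ((hV T hT).1 h3) (by rw [← hH T hT]; exact h4) ih
    intro T' hT' hv
    have hT'l : T' ∈ l := by rw [h1]; simp [hT']
    rw [← hH T' hT'l]
    exact h2 T' hT' ((hV T' hT'l).2 hv)

/-- soundness and completeness of the elimination with advice -/
def GoodT (ch : α → Option (B × ℕ)) (emb : B → α) (C : Finset B) (κ : B → ℕ) (κ0 h : ℕ)
    (f : (α → Bool) → Prop) (Tr : (B → ℕ) → Finset B → (α → Bool) → Prop) (ω : α → Bool)
    (x : B → ℕ) : Prop :=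
  (∀ K, Cor emb ω K → f (oldT ch emb ω x) → Tr x K ω) ∧
    (¬ f (oldT ch emb ω x) → ∃ K ∈ KS (C.filter (fun b => κ b = h + 1)) κ0, Cor emb ω K ∧
      ¬ Tr x K ω)

variable {m M : ℕ} [NeZero M]

/-- **The threshold elimination.** -/
theorem elT_all {ch : α → Option (B × ℕ)} {emb : B → α} {C : Finset B} {κ : B → ℕ}
    {ok ok' : ℕ → α → Bool → Prop} (H : ThrHyp ch emb C κ ok ok') {w S r : ℕ} {εr ε1 : ℝ}
    (hε1 : 0 ≤ ε1)
    (hrun : ∀ (β : Finset B) (l : List (Finset (B × ℕ))), (∀ T ∈ l, T.card ≤ w) →
      pr (fun V : B → (Fin m → Fin M) =>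
        (∀ T ∈ l, Vld (fun b => gv (V b)) T → (hit β (fun b => gv (V b)) T).Nonempty) ∧
        ∃ L : List (Finset B), L.length = r ∧ RunT β l (fun b => gv (V b)) ∅ L) ≤ εr)
    (hrun1 : ∀ (β : Finset B) (l : List (Finset (B × ℕ))), (∀ T ∈ l, T.card ≤ w) →
      pr (fun V : B → (Fin m → Fin M) =>
        (∀ T ∈ l, Vld (fun b => gv (V b)) T → (hit β (fun b => gv (V b)) T).Nonempty) ∧
        ∃ L : List (Finset B), L.length = 1 ∧ RunT β l (fun b => gv (V b)) ∅ L) ≤ ε1)
    (h : ℕ) : ∀ {f : (α → Bool) → Prop}, Cl ok w S h f →
    ∃ Tr : (B → ℕ) → Finset B → (α → Bool) → Prop,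
      (∀ x K, Cl ok' (w + w * r) (S * (Fintype.card B + 1) ^ (w * r)) h (Tr x K)) ∧
      (∀ x x' K, (∀ b ∈ C, κ b ≤ h + 1 → x b = x' b) → Tr x K = Tr x' K) ∧
      (∀ ω, pr (fun V : B → (Fin m → Fin M) =>
        ¬ GoodT ch emb C κ (w * r) h f Tr ω (fun b => gv (V b))) ≤ (S + 1 : ℝ) ^ h * εr) ∧
      ∀ ω, pr (fun V : B → (Fin m → Fin M) =>
        ¬ (f (oldT ch emb ω (fun b => gv (V b))) ↔ Tr (fun b => gv (V b)) ∅ ω)) ≤
          (S + 1 : ℝ) ^ h * εr + ε1 := by
  classical
  have hεr : 0 ≤ εr := (pr_nonneg _).trans (hrun ∅ [] (by simp))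
  induction h with
  | zero =>
    intro f hf
    refine ⟨fun _ _ _ => False, fun _ _ => Cl.bot, fun _ _ _ _ => rfl, ?_, ?_⟩
    · intro ω
      have h1 : pr (fun V : B → (Fin m → Fin M) =>
          ¬ GoodT ch emb C κ (w * r) 0 f (fun _ _ _ => False) ω (fun b => gv (V b))) = 0 := by
        rw [← pr_false (Ω := B → (Fin m → Fin M))]
        apply pr_congr
        intro V
        refine iff_false_intro (not_not.2 ⟨?_, ?_⟩)
        · intro K _ hcon
          exact hf.zero _ hcon
        · intro _
          refine ⟨∅, mem_KS.2 ⟨Finset.empty_subset _, by simp⟩, ?_, fun h => h⟩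
          intro b hb
          simp at hb
      rw [h1]
      positivity
    · intro ω
      have h1 : pr (fun V : B → (Fin m → Fin M) =>
          ¬ (f (oldT ch emb ω (fun b => gv (V b))) ↔ False)) = 0 := by
        rw [← pr_false (Ω := B → (Fin m → Fin M))]
        apply pr_congr
        intro V
        exact iff_false_intro (not_not.2 (iff_false_intro (hf.zero _)))
      rw [h1]
      positivity
  | succ h ih =>
    intro f hf
    cases hf with
    | @node _ ι D as g hD has hg =>
    have hex : ∀ i ∈ D, ∃ Tr : (B → ℕ) → Finset B → (α → Bool) → Prop,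
        (∀ x K, Cl ok' (w + w * r) (S * (Fintype.card B + 1) ^ (w * r)) h (Tr x K)) ∧
        (∀ x x' K, (∀ b ∈ C, κ b ≤ h + 1 → x b = x' b) → Tr x K = Tr x' K) ∧
        (∀ ω, pr (fun V : B → (Fin m → Fin M) =>
          ¬ GoodT ch emb C κ (w * r) h (g i) Tr ω (fun b => gv (V b))) ≤
            (S + 1 : ℝ) ^ h * εr) := by
      intro i hi
      obtain ⟨Tr, e1, e2, e3, _⟩ := ih (hg i hi)
      exact ⟨Tr, e1, e2, e3⟩
    choose! TA hA1 hA2 hA3 using hex
    set Ch := C.filter (fun b => κ b = h + 1) with hCh
    -- the evaluation of the literals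
    let exa : (B → ℕ) → Finset (α × Bool) → Prop := fun x A => ∀ l ∈ A, ∀ (b : B) (n : ℕ),
      ch l.1 = some (b, n) → κ b = h + 1 →
        (l.2 = false → n ≤ 2 * x b + 1) ∧ (l.2 = true → 2 * x b + 1 ≤ n)
    let apx : (B → ℕ) → Finset B → Finset (α × Bool) → Prop := fun x K A => ∀ l ∈ A,
      ∀ (b : B) (n : ℕ), ch l.1 = some (b, n) → κ b ≠ h + 1 →
        n ≤ 2 * x b + (if b ∈ K then 0 else 1)
    let nl : (B → ℕ) → α × Bool → Finset (α × Bool) := fun x l =>
      match ch l.1 with
      | none => {l}
      | some (b, n) => if κ b = h + 1 ∧ n = 2 * x b + 1 then {(emb b, !l.2)} else ∅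
    have hnl_none : ∀ x l, ch l.1 = none → nl x l = {l} := by
      intro x l hl
      simp only [nl]
      rw [hl]
    have hnl_some : ∀ x l b n, ch l.1 = some (b, n) →
        nl x l = if κ b = h + 1 ∧ n = 2 * x b + 1 then {(emb b, !l.2)} else ∅ := by
      intro x l b n hl
      simp only [nl]
      rw [hl]
    let KK : Finset (Finset B) := KS Ch (w * r)
    let DA : (B → ℕ) → Finset B → Finset (ι × Finset B) := fun x K =>
      (D ×ˢ KK).filter (fun z => exa x (as z.1) ∧ apx x K (as z.1))
    let LL : (B → ℕ) → ι × Finset B → Finset (α × Bool) := fun x z =>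
      (as z.1).biUnion (nl x) ∪ z.2.image (fun b => (emb b, false))
    let Tr : (B → ℕ) → Finset B → (α → Bool) → Prop := fun x K ω =>
      ∃ z ∈ DA x K, (∀ l ∈ LL x z, ω l.1 = l.2) ∧ ¬ TA z.1 x z.2 ω
    -- terms
    let St : (α → Bool) → (B → ℕ) → Finset (ι × Finset B) := fun ω x =>
      (D ×ˢ KK).filter (fun z => exa x (as z.1) ∧ (∀ l ∈ LL x z, ω l.1 = l.2) ∧
        ¬ TA z.1 x z.2 ω)
    let tf : α × Bool → Finset (B × ℕ) := fun l =>
      match ch l.1 with
      | none => ∅
      | some (b, n) => if κ b = h + 1 then ∅ else {(b, n)}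
    let tm : ι × Finset B → Finset (B × ℕ) := fun z => (as z.1).biUnion tf
    let tl : (α → Bool) → (B → ℕ) → List (Finset (B × ℕ)) := fun ω x => (St ω x).toList.map tm
    have hmem_tm : ∀ z b n, (b, n) ∈ tm z ↔ ∃ l ∈ as z.1, ch l.1 = some (b, n) ∧
        κ b ≠ h + 1 := by
      intro z b n
      simp only [tm, Finset.mem_biUnion]
      apply exists_congr
      intro l
      apply and_congr_right
      intro _
      simp only [tf]
      cases hc : ch l.1 with
      | none => simp
      | some bn =>
        obtain ⟨b', n'⟩ := bn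
        simp only
        by_cases hk : κ b' = h + 1
        · rw [if_pos hk]
          constructor
          · intro h; simp at h
          · rintro ⟨e1, e2⟩
            rw [Option.some.injEq, Prod.mk.injEq] at e1
            rw [e1.1] at hk
            exact absurd hk e2
        · rw [if_neg hk, Finset.mem_singleton, Prod.mk.injEq, Option.some.injEq, Prod.mk.injEq]
          constructor
          · rintro ⟨rfl, rfl⟩
            exact ⟨⟨rfl, rfl⟩, hk⟩
          · rintro ⟨⟨rfl, rfl⟩, _⟩
            exact ⟨rfl, rfl⟩
    have htcard : ∀ ω x, ∀ T ∈ tl ω x, T.card ≤ w := by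
      intro ω x T hT
      obtain ⟨z, hz, rfl⟩ := List.mem_map.1 hT
      rw [Finset.mem_toList, Finset.mem_filter, Finset.mem_product] at hz
      refine (Finset.card_biUnion_le_card_mul _ _ 1 ?_).trans (by
        rw [mul_one]
        exact (has z.1 hz.1.1).1)
      intro l _
      simp only [tf]
      split
      · simp
      · split_ifs <;> simp
    -- the blocks of the terms
    have htblk : ∀ ω x, ∀ T ∈ tl ω x, ∀ z ∈ T, z.1 ∈ C ∧ κ z.1 = h + 2 := by
      intro ω x T hT z hz
      obtain ⟨z', hz', rfl⟩ := List.mem_map.1 hT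
      rw [Finset.mem_toList, Finset.mem_filter, Finset.mem_product] at hz'
      obtain ⟨b, n⟩ := z
      obtain ⟨l, hl, hc, hk⟩ := (hmem_tm z' b n).1 hz
      refine ⟨H.hC _ _ _ hc, ?_⟩
      rcases H.hht (h + 1) l.1 l.2 b n (by omega) ((has z'.1 hz'.1.1).2 l hl) hc with h1 | h1
      · exact absurd h1.symm hk
      · exact h1.1.symm
    have hSt_congr : ∀ ω x x', (∀ b, κ b ≤ h + 1 → x b = x' b) → tl ω x = tl ω x' := by
      intro ω x x' hxx
      have h1 : St ω x = St ω x' := by
        apply Finset.filter_congr
        intro z hz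
        have e1 : exa x (as z.1) ↔ exa x' (as z.1) := by
          simp only [exa]
          apply forall_congr'; intro l
          apply forall_congr'; intro _
          apply forall_congr'; intro b
          apply forall_congr'; intro n
          apply forall_congr'; intro _
          apply forall_congr'; intro hk
          rw [hxx b (by omega)]
        have e2 : LL x z = LL x' z := by
          have h2 : ∀ l ∈ as z.1, nl x l = nl x' l := by
            intro l _
            cases hc : ch l.1 with
            | none => rw [hnl_none x l hc, hnl_none x' l hc]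
            | some bn =>
              obtain ⟨b, n⟩ := bn
              rw [hnl_some x l b n hc, hnl_some x' l b n hc]
              by_cases hk : κ b = h + 1
              · rw [hxx b (by omega)]
              · rw [if_neg (fun hh => hk hh.1), if_neg (fun hh => hk hh.1)]
          simp only [LL]
          rw [Finset.biUnion_congr rfl h2]
        have e3 : TA z.1 x z.2 = TA z.1 x' z.2 :=
          hA2 z.1 (Finset.mem_product.1 hz).1 x x' z.2 (fun b _ hb => hxx b hb)
        rw [e1, e2, e3]
      simp only [tl, h1]
    -- an unhit valid term makes the formula true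
    have hunhit : ∀ ω x, (∀ i ∈ D, GoodT ch emb C κ (w * r) h (g i) (TA i) ω x) →
        ∀ T ∈ tl ω x, Vld x T →
        hit (Finset.univ.filter (fun b => ω (emb b) = false)) x T = ∅ →
        ∃ i ∈ D, (∀ l ∈ as i, oldT ch emb ω x l.1 = l.2) ∧ ¬ g i (oldT ch emb ω x) := by
      intro ω x hgood T hT hV hh
      obtain ⟨z, hz, rfl⟩ := List.mem_map.1 hT
      rw [Finset.mem_toList, Finset.mem_filter, Finset.mem_product] at hz
      obtain ⟨⟨hz1, hz2⟩, hz3, hz4, hz5⟩ := hz
      refine ⟨z.1, hz1, ?_, ?_⟩
      · rintro ⟨a, s⟩ hl
        simp only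
        cases hc : ch a with
        | none =>
          rw [oldT_none hc]
          have h1 : (a, s) ∈ LL x z := by
            apply Finset.mem_union_left
            rw [Finset.mem_biUnion]
            exact ⟨(a, s), hl, by rw [hnl_none x (a, s) hc]; exact Finset.mem_singleton_self _⟩
          exact hz4 _ h1
        | some bn =>
          obtain ⟨b, n⟩ := bn
          by_cases hk : κ b = h + 1
          · have h1 := hz3 (a, s) hl b n hc hk
            have h2 : n = 2 * x b + 1 → ω (emb b) = !s := by
              intro hn
              have h3 : (emb b, !s) ∈ LL x z := by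
                apply Finset.mem_union_left
                rw [Finset.mem_biUnion]
                refine ⟨(a, s), hl, ?_⟩
                rw [hnl_some x (a, s) b n hc, if_pos ⟨hk, hn⟩]
                exact Finset.mem_singleton_self _
              exact hz4 _ h3
            cases s with
            | false =>
              rw [oldT_false hc]
              have h3 := h1.1 rfl
              by_cases hn : n = 2 * x b + 1
              · rw [h2 hn]
                simp only [Bool.not_false, Bool.toNat_true]
                omega
              · omega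
            | true =>
              rw [oldT_true hc]
              have h3 := h1.2 rfl
              by_cases hn : n = 2 * x b + 1
              · rw [h2 hn]
                simp only [Bool.not_true, Bool.toNat_false]
                omega
              · have := Bool.toNat_le (ω (emb b))
                omega
          · have h0 := H.hht (h + 1) a s b n (by omega) ((has z.1 hz1).2 _ hl) hc
            have hs : s = false := by
              rcases h0 with h0 | h0
              · exact absurd h0.symm hk
              · exact h0.2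
            subst hs
            rw [oldT_false hc]
            have hin : (b, n) ∈ tm z := (hmem_tm z b n).2 ⟨(a, false), hl, hc, hk⟩
            have h1 := hV _ hin
            simp only at h1
            by_cases hn : n = 2 * x b + 1
            · cases hω : ω (emb b) with
              | true => simp only [Bool.toNat_true]; omega
              | false =>
                exfalso
                have : b ∈ hit (Finset.univ.filter (fun b => ω (emb b) = false)) x (tm z) := by
                  rw [mem_hit, ← hn]
                  exact ⟨hin, Finset.mem_filter.2 ⟨Finset.mem_univ _, hω⟩⟩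
                rw [hh] at this
                simp at this
            · omega
      · intro hgi
        apply hz5
        refine (hgood z.1 hz1).1 z.2 ?_ hgi
        intro b hb
        have h3 : (emb b, false) ∈ LL x z :=
          Finset.mem_union_right _ (Finset.mem_image.2 ⟨b, hb, rfl⟩)
        exact hz4 _ h3
    -- a true new formula has a valid term which is not hit in the advice
    have hTrT : ∀ ω x K, Tr x K ω → ∃ T ∈ tl ω x, Vld x T ∧
        Disjoint (hit (Finset.univ.filter (fun b => ω (emb b) = false)) x T) K := by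
      rintro ω x K ⟨z, hz, h1, h2⟩
      rw [Finset.mem_filter] at hz
      obtain ⟨hz1, hz2, hz3⟩ := hz
      refine ⟨tm z, List.mem_map.2 ⟨z, ?_, rfl⟩, ?_, ?_⟩
      · rw [Finset.mem_toList, Finset.mem_filter]
        exact ⟨hz1, hz2, h1, h2⟩
      · rintro ⟨b, n⟩ hbn
        obtain ⟨l, hl, hc, hk⟩ := (hmem_tm z b n).1 hbn
        have h3 := hz3 l hl b n hc hk
        simp only
        split_ifs at h3 <;> omega
      · rw [Finset.disjoint_left]
        intro b hb hbK
        rw [mem_hit] at hb
        obtain ⟨l, hl, hc, hk⟩ := (hmem_tm z b _).1 hb.1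
        have h3 := hz3 l hl b _ hc hk
        rw [if_pos hbK] at h3
        omega
    -- soundness
    have hsound : ∀ ω x, (∀ i ∈ D, GoodT ch emb C κ (w * r) h (g i) (TA i) ω x) →
        ∀ K, Cor emb ω K →
        (∃ i ∈ D, (∀ l ∈ as i, oldT ch emb ω x l.1 = l.2) ∧ ¬ g i (oldT ch emb ω x)) →
        Tr x K ω := by
      rintro ω x hgood K hK ⟨i, hi, h1, h2⟩
      obtain ⟨K', hK'1, hK'2, hK'3⟩ := (hgood i hi).2 h2
      refine ⟨(i, K'), ?_, ?_, hK'3⟩
      · rw [Finset.mem_filter, Finset.mem_product]
        refine ⟨⟨hi, hK'1⟩, ?_, ?_⟩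
        · intro l hl b n hc hk
          have h3 := h1 l hl
          have h4 := Bool.toNat_le (ω (emb b))
          refine ⟨?_, ?_⟩
          · intro hs
            rw [hs, oldT_false hc] at h3
            omega
          · intro hs
            rw [hs, oldT_true hc] at h3
            omega
        · intro l hl b n hc hk
          have h3 := h1 l hl
          have h0 := H.hht (h + 1) l.1 l.2 b n (by omega) ((has i hi).2 _ hl) hc
          have hs : l.2 = false := by
            rcases h0 with h0 | h0
            · exact absurd h0.symm hk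
            · exact h0.2
          rw [hs, oldT_false hc] at h3
          split_ifs with hbK
          · rw [hK b hbK] at h3
            simpa using h3
          · have h4 := Bool.toNat_le (ω (emb b))
            omega
      · intro l hl
        rcases Finset.mem_union.1 hl with hl | hl
        · obtain ⟨l', hl', hll⟩ := Finset.mem_biUnion.1 hl
          have h3 := h1 l' hl'
          cases hc : ch l'.1 with
          | none =>
            rw [hnl_none x l' hc, Finset.mem_singleton] at hll
            subst hll
            rwa [oldT_none hc] at h3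
          | some bn =>
            obtain ⟨b, n⟩ := bn
            rw [hnl_some x l' b n hc] at hll
            split_ifs at hll with hk
            · rw [Finset.mem_singleton] at hll
              subst hll
              simp only
              cases hs : l'.2 with
              | false =>
                rw [hs, oldT_false hc, hk.2] at h3
                cases hω : ω (emb b) with
                | true => rfl
                | false => rw [hω] at h3; simp at h3
              | true =>
                rw [hs, oldT_true hc, hk.2] at h3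
                cases hω : ω (emb b) with
                | true => rw [hω] at h3; simp at h3
                | false => rfl
            · simp at hll
        · obtain ⟨b, hb, rfl⟩ := Finset.mem_image.1 hl
          exact hK'2 b hb
    -- the two error events
    have hbadchild : ∀ ω, pr (fun V : B → (Fin m → Fin M) => ∃ i ∈ D,
        ¬ GoodT ch emb C κ (w * r) h (g i) (TA i) ω (fun b => gv (V b))) ≤
          S * ((S + 1 : ℝ) ^ h * εr) := by
      intro ω
      refine (pr_exists D _ _ (fun i hi => hA3 i hi ω)).trans ?_
      apply mul_le_mul_of_nonneg_right _ (by positivity)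
      exact_mod_cast hD
    have hrunpr : ∀ (j : ℕ) (ε : ℝ), (∀ (β : Finset B) (l : List (Finset (B × ℕ))),
        (∀ T ∈ l, T.card ≤ w) → pr (fun V : B → (Fin m → Fin M) =>
        (∀ T ∈ l, Vld (fun b => gv (V b)) T → (hit β (fun b => gv (V b)) T).Nonempty) ∧
        ∃ L : List (Finset B), L.length = j ∧ RunT β l (fun b => gv (V b)) ∅ L) ≤ ε) →
        ∀ ω, pr (fun V : B → (Fin m → Fin M) =>
        (∀ T ∈ tl ω (fun b => gv (V b)), Vld (fun b => gv (V b)) T →
          (hit (Finset.univ.filter (fun b => ω (emb b) = false)) (fun b => gv (V b)) T).Nonempty) ∧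
        ∃ L : List (Finset B), L.length = j ∧
          RunT (Finset.univ.filter (fun b => ω (emb b) = false)) (tl ω (fun b => gv (V b)))
            (fun b => gv (V b)) ∅ L) ≤ ε := by
      intro j ε hε ω
      apply pr_piecewise (Finset.univ.filter (fun b => ¬ (κ b ≤ h + 1)))
      intro V0
      set C' := Finset.univ.filter (fun b => ¬ (κ b ≤ h + 1)) with hC'
      set β := Finset.univ.filter (fun b => ω (emb b) = false) with hβ
      set x0 : B → ℕ := fun b => gv (V0 b) with hx0
      refine le_trans (pr_mono ?_) (hε β (tl ω x0) (htcard ω x0))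
      rintro V ⟨h1, L, h2, h3⟩
      have e1 : tl ω (fun b => gv (C'.piecewise V V0 b)) = tl ω x0 := by
        apply hSt_congr
        intro b hb
        have hbC : b ∉ C' := by
          rw [hC', Finset.mem_filter]
          rintro ⟨_, h⟩
          exact h hb
        show gv (C'.piecewise V V0 b) = gv (V0 b)
        rw [Finset.piecewise_eq_of_notMem _ _ _ hbC]
      rw [e1] at h1 h3
      have e2 : ∀ T ∈ tl ω x0, ∀ z ∈ T,
          (fun b => gv (C'.piecewise V V0 b)) z.1 = (fun b => gv (V b)) z.1 := by
        intro T hT z hz
        have h4 := (htblk ω x0 T hT z hz).2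
        have hzC : z.1 ∈ C' := by
          rw [hC', Finset.mem_filter]
          exact ⟨Finset.mem_univ _, by omega⟩
        show gv (C'.piecewise V V0 z.1) = gv (V z.1)
        rw [Finset.piecewise_eq_of_mem _ _ _ hzC]
      refine ⟨?_, L, h2, h3.congr e2⟩
      intro T hT hV
      have h5 : Vld (fun b => gv (C'.piecewise V V0 b)) T := by
        intro z hz
        rw [e2 T hT z hz]
        exact hV z hz
      obtain ⟨b, hb⟩ := h1 T hT h5
      refine ⟨b, ?_⟩
      rw [mem_hit] at hb ⊢
      have h6 := e2 T hT _ hb.1
      simp only at h6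
      rw [← h6]
      exact hb
    refine ⟨Tr, ?_, ?_, ?_, ?_⟩
    · -- the class
      intro x K
      have hpos : 1 ≤ (Fintype.card B + 1) ^ (w * r) := Nat.one_le_pow _ _ (by omega)
      refine Cl.node (DA x K) (LL x) (fun z => TA z.1 x z.2) ?_ ?_ ?_
      · refine (Finset.card_filter_le _ _).trans ?_
        rw [Finset.card_product]
        exact Nat.mul_le_mul hD (card_KS Ch (w * r))
      · intro z hz
        obtain ⟨hz1, _⟩ := Finset.mem_filter.1 hz
        rw [Finset.mem_product] at hz1
        refine ⟨(Finset.card_union_le _ _).trans (Nat.add_le_add ?_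
          ((Finset.card_image_le).trans (mem_KS.1 hz1.2).2)), ?_⟩
        · refine (Finset.card_biUnion_le_card_mul _ _ 1 ?_).trans (by
            rw [mul_one]
            exact (has z.1 hz1.1).1)
          intro l _
          cases hc : ch l.1 with
          | none => rw [hnl_none x l hc]; simp
          | some bn =>
            obtain ⟨b, n⟩ := bn
            rw [hnl_some x l b n hc]
            split_ifs <;> simp
        · intro l hl
          rcases Finset.mem_union.1 hl with hl | hl
          · obtain ⟨l', hl', hll⟩ := Finset.mem_biUnion.1 hl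
            cases hc : ch l'.1 with
            | none =>
              rw [hnl_none x l' hc, Finset.mem_singleton] at hll
              subst hll
              exact H.hok1 _ _ _ (by omega) ((has z.1 hz1.1).2 _ hl') hc
            | some bn =>
              obtain ⟨b, n⟩ := bn
              rw [hnl_some x l' b n hc] at hll
              split_ifs at hll with hk
              · rw [Finset.mem_singleton] at hll
                subst hll
                have := H.hok2 b (!l'.2) (H.hC _ _ _ hc)
                rw [hk.1] at this
                exact this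
              · simp at hll
          · obtain ⟨b, hb, rfl⟩ := Finset.mem_image.1 hl
            have h1 := (mem_KS.1 hz1.2).1 hb
            rw [hCh, Finset.mem_filter] at h1
            have := H.hok2 b false h1.1
            rw [h1.2] at this
            exact this
      · intro z hz
        obtain ⟨hz1, _⟩ := Finset.mem_filter.1 hz
        rw [Finset.mem_product] at hz1
        exact hA1 z.1 hz1.1 x z.2
    · -- dependence
      intro x x' K hxx
      have hDA : DA x K = DA x' K := by
        apply Finset.filter_congr
        intro z hz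
        have e1 : exa x (as z.1) ↔ exa x' (as z.1) := by
          simp only [exa]
          apply forall_congr'; intro l
          apply forall_congr'; intro _
          apply forall_congr'; intro b
          apply forall_congr'; intro n
          apply forall_congr'; intro hc
          apply forall_congr'; intro hk
          rw [hxx b (H.hC _ _ _ hc) (by omega)]
        have e2 : apx x K (as z.1) ↔ apx x' K (as z.1) := by
          simp only [apx]
          apply forall_congr'; intro l
          apply forall_congr'; intro hl
          apply forall_congr'; intro b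
          apply forall_congr'; intro n
          apply forall_congr'; intro hc
          apply forall_congr'; intro hk
          rcases H.hht (h + 1) l.1 l.2 b n (by omega)
            ((has z.1 (Finset.mem_product.1 hz).1).2 l hl) hc with h1 | h1
          · exact absurd h1.symm hk
          · rw [hxx b (H.hC _ _ _ hc) (by omega)]
        rw [e1, e2]
      have hLL : ∀ z, LL x z = LL x' z := by
        intro z
        have h2 : ∀ l ∈ as z.1, nl x l = nl x' l := by
          intro l _
          cases hc : ch l.1 with
          | none => rw [hnl_none x l hc, hnl_none x' l hc]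
          | some bn =>
            obtain ⟨b, n⟩ := bn
            rw [hnl_some x l b n hc, hnl_some x' l b n hc]
            by_cases hk : κ b = h + 1
            · rw [hxx b (H.hC _ _ _ hc) (by omega)]
            · rw [if_neg (fun hh => hk hh.1), if_neg (fun hh => hk hh.1)]
        simp only [LL]
        rw [Finset.biUnion_congr rfl h2]
      funext ω
      apply propext
      have hTA : ∀ z ∈ DA x K, TA z.1 x z.2 = TA z.1 x' z.2 := by
        intro z hz
        have hz1 := (Finset.mem_product.1 (Finset.mem_filter.1 hz).1).1
        exact hA2 z.1 hz1 x x' z.2 (fun b hb hk => hxx b hb (by omega))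
      constructor
      · rintro ⟨z, hz, h1, h2⟩
        refine ⟨z, by rw [← hDA]; exact hz, by rw [← hLL z]; exact h1, ?_⟩
        rw [← hTA z hz]
        exact h2
      · rintro ⟨z, hz, h1, h2⟩
        rw [← hDA] at hz
        refine ⟨z, hz, by rw [hLL z]; exact h1, ?_⟩
        rw [hTA z hz]
        exact h2
    · -- with advice
      intro ω
      have h1 := hrunpr r εr hrun ω
      have h2 := hbadchild ω
      have h3 : (S : ℝ) * ((S + 1 : ℝ) ^ h * εr) + εr ≤ (S + 1 : ℝ) ^ (h + 1) * εr := by
        have h4 : (1 : ℝ) ≤ (S + 1 : ℝ) ^ h := one_le_pow₀ (by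
          have : (0 : ℝ) ≤ S := by positivity
          linarith)
        have h5 : (S : ℝ) * (S + 1 : ℝ) ^ h + 1 ≤ (S + 1 : ℝ) ^ (h + 1) := by
          rw [pow_succ]
          nlinarith
        calc _ = ((S : ℝ) * (S + 1 : ℝ) ^ h + 1) * εr := by ring
          _ ≤ _ := mul_le_mul_of_nonneg_right h5 hεr
      refine le_trans (pr_mono ?_) ((pr_or _ _).trans ((add_le_add h2 h1).trans h3))
      intro V hV
      set x : B → ℕ := fun b => gv (V b) with hx
      by_contra hcon
      push Not at hcon
      obtain ⟨hgood, hcon2⟩ := hcon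
      apply hV
      refine ⟨fun K hK hf => hsound ω x hgood K hK hf, ?_⟩
      intro hf
      by_contra hcon3
      push Not at hcon3
      have hall : ∀ T ∈ tl ω x, Vld x T →
          (hit (Finset.univ.filter (fun b => ω (emb b) = false)) x T).Nonempty := by
        intro T hT hVT
        rw [Finset.nonempty_iff_ne_empty]
        intro hh
        exact hf (hunhit ω x hgood T hT hVT hh)
      have hnorun := hcon2 hall
      obtain ⟨K', _, hK'1, hK'2⟩ := run_stop
        (Finset.univ.filter (fun b => ω (emb b) = false)) (tl ω x) w (htcard ω x) x r ∅ (by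
          rintro ⟨L, hL1, hL2⟩
          exact hnorun L hL1 hL2)
      obtain ⟨T, hT1, hT2, hT3⟩ := hTrT ω x (K'.filter (fun b => (b ∈ C ∧ κ b = h + 1 + 1) ∧
          ω (emb b) = false))
        (hcon3 _ (mem_KS.2 ⟨fun b hb => Finset.mem_filter.2 (Finset.mem_filter.1 hb).2.1,
          (Finset.card_filter_le _ _).trans (by simpa using hK'1)⟩) (by
          intro b hb
          exact (Finset.mem_filter.1 hb).2.2))
      apply hK'2 T hT1 hT2
      rw [Finset.disjoint_left] at hT3 ⊢
      intro b hb hbK
      apply hT3 hb
      rw [Finset.mem_filter]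
      have hb' := mem_hit.1 hb
      refine ⟨hbK, htblk ω x T hT1 _ hb'.1, (Finset.mem_filter.1 hb'.2).2⟩
    · -- without advice
      intro ω
      have h1 := hrunpr 1 ε1 hrun1 ω
      have h2 := hbadchild ω
      have h3 : (S : ℝ) * ((S + 1 : ℝ) ^ h * εr) + ε1 ≤ (S + 1 : ℝ) ^ (h + 1) * εr + ε1 := by
        have h4 : (0 : ℝ) ≤ (S + 1 : ℝ) ^ h * εr := by positivity
        have h5 : (S + 1 : ℝ) ^ (h + 1) * εr = (S + 1 : ℝ) * ((S + 1 : ℝ) ^ h * εr) := by
          rw [pow_succ]
          ring
        rw [h5]
        nlinarith
      refine le_trans (pr_mono ?_) ((pr_or _ _).trans ((add_le_add h2 h1).trans h3))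
      intro V hV
      set x : B → ℕ := fun b => gv (V b) with hx
      by_contra hcon
      push Not at hcon
      obtain ⟨hgood, hcon2⟩ := hcon
      apply hV
      constructor
      · intro hf
        exact hsound ω x hgood ∅ (by intro b hb; simp at hb) hf
      · intro hTr
        by_contra hf
        have hall : ∀ T ∈ tl ω x, Vld x T →
            (hit (Finset.univ.filter (fun b => ω (emb b) = false)) x T).Nonempty := by
          intro T hT hVT
          rw [Finset.nonempty_iff_ne_empty]
          intro hh
          exact hf (hunhit ω x hgood T hT hVT hh)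
        have hnorun := hcon2 hall
        obtain ⟨T0, hT1, hT2, _⟩ := hTrT ω x ∅ hTr
        rcases first_nondead (fun T => ¬ Vld x T) (tl ω x) with h6 | ⟨l1, l2, T, h6, h7, h8⟩
        · exact h6 T0 hT1 hT2
        · rw [not_not] at h8
          exact hnorun [bls T \ ∅] rfl (RunT.cons h6 (fun T' hT' hh => absurd hh (h7 T' hT')) h8
            (Finset.disjoint_empty_right _) (RunT.nil _))

end

end Pool.Agent.H8p

namespace Pool.Agent.H8p

open Finset
open Pool.Agent.H8h (pr pr_eq pr_mono pr_or pr_congr pr_exists pr_piecewise pr_nonneg pr_true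
  pr_false Cl KS mem_KS card_KS Cor)

section

variable {α B : Type} [DecidableEq α] [DecidableEq B] [Fintype B] {m M : ℕ} [NeZero M]

/-- The threshold step for a family of worlds which depend on the hidden numbers. -/
theorem stageT {ch : α → Option (B × ℕ)} {emb : B → α} {C : Finset B} {κ : B → ℕ}
    {ok ok' : ℕ → α → Bool → Prop} {Dt : Type} (W : Dt → (B → (Fin m → Fin M)) → α → Bool)
    (Rv : Finset B) (hdisj : Disjoint Rv C) (H : ThrHyp ch emb C κ ok ok')
    (hW1 : ∀ (D : Dt) (V V' : B → (Fin m → Fin M)), (∀ b, b ∉ C → V b = V' b) →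
      ∀ h a s, 1 ≤ h → ok' h a s → W D V a = W D V' a)
    (hW2 : ∀ (D : Dt) (V : B → (Fin m → Fin M)) (a : α) (b : B) (n : ℕ), ch a = some (b, n) →
      W D V a = !decide (n ≤ 2 * gv (V b) + (W D V (emb b)).toNat))
    {w S r : ℕ} {εr ε1 : ℝ} (hε1 : 0 ≤ ε1)
    (hrun : ∀ (β : Finset B) (l : List (Finset (B × ℕ))), (∀ T ∈ l, T.card ≤ w) →
      pr (fun V : B → (Fin m → Fin M) =>
        (∀ T ∈ l, Vld (fun b => gv (V b)) T → (hit β (fun b => gv (V b)) T).Nonempty) ∧
        ∃ L : List (Finset B), L.length = r ∧ RunT β l (fun b => gv (V b)) ∅ L) ≤ εr)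
    (hrun1 : ∀ (β : Finset B) (l : List (Finset (B × ℕ))), (∀ T ∈ l, T.card ≤ w) →
      pr (fun V : B → (Fin m → Fin M) =>
        (∀ T ∈ l, Vld (fun b => gv (V b)) T → (hit β (fun b => gv (V b)) T).Nonempty) ∧
        ∃ L : List (Finset B), L.length = 1 ∧ RunT β l (fun b => gv (V b)) ∅ L) ≤ ε1)
    (k : ℕ) (f : (B → (Fin m → Fin M)) → (α → Bool) → Prop)
    (hf : ∀ V, Cl ok w S k (f V)) (hfd : ∀ V V', (∀ b ∈ Rv, V b = V' b) → f V = f V') :
    ∃ f' : (B → (Fin m → Fin M)) → (α → Bool) → Prop,
      (∀ V, Cl ok' (w + w * r) (S * (Fintype.card B + 1) ^ (w * r)) k (f' V)) ∧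
      (∀ V V', (∀ b ∈ Rv ∪ C, V b = V' b) → f' V = f' V') ∧
      ∀ D, pr (fun V => ¬ (f V (W D V) ↔ f' V (W D V))) ≤ (S + 1 : ℝ) ^ k * εr + ε1 := by
  classical
  choose Tr h1 h2 _ h3 using fun V => elT_all (m := m) (M := M) H hε1 hrun hrun1 k (hf V)
  let j0 : Fin m → Fin M := fun _ => 0
  refine ⟨fun V => Tr (Rv.piecewise V (fun _ => j0)) (fun b => gv (V b)) ∅,
    fun V => h1 _ _ _, ?_, ?_⟩
  · intro V V' hV
    have e1 : Rv.piecewise V (fun _ => j0) = Rv.piecewise V' (fun _ => j0) := by
      funext b
      by_cases hb : b ∈ Rv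
      · rw [Finset.piecewise_eq_of_mem _ _ _ hb, Finset.piecewise_eq_of_mem _ _ _ hb]
        exact hV b (Finset.mem_union_left _ hb)
      · rw [Finset.piecewise_eq_of_notMem _ _ _ hb, Finset.piecewise_eq_of_notMem _ _ _ hb]
    simp only [e1]
    apply h2
    intro b hb _
    rw [hV b (Finset.mem_union_right _ hb)]
  · intro D
    apply pr_piecewise C
    intro V0
    refine le_trans (pr_mono ?_) (h3 (Rv.piecewise V0 (fun _ => j0)) (W D V0))
    intro V hV
    set Z := C.piecewise V V0 with hZ
    intro hiff
    apply hV
    have hZR : ∀ b ∈ Rv, Z b = V0 b := by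
      intro b hb
      rw [hZ, Finset.piecewise_eq_of_notMem _ _ _ (Finset.disjoint_left.1 hdisj hb)]
    have hZC : ∀ b ∈ C, Z b = V b := by
      intro b hb
      rw [hZ, Finset.piecewise_eq_of_mem _ _ _ hb]
    have hZo : ∀ b, b ∉ C → Z b = V0 b := by
      intro b hb
      rw [hZ, Finset.piecewise_eq_of_notMem _ _ _ hb]
    have e1 : Rv.piecewise Z (fun _ => j0) = Rv.piecewise V0 (fun _ => j0) := by
      funext b
      by_cases hb : b ∈ Rv
      · rw [Finset.piecewise_eq_of_mem _ _ _ hb, Finset.piecewise_eq_of_mem _ _ _ hb]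
        exact hZR b hb
      · rw [Finset.piecewise_eq_of_notMem _ _ _ hb, Finset.piecewise_eq_of_notMem _ _ _ hb]
    have e2 : f Z = f (Rv.piecewise V0 (fun _ => j0)) := by
      apply hfd
      intro b hb
      rw [Finset.piecewise_eq_of_mem _ _ _ hb]
      exact hZR b hb
    have e3 : Tr (Rv.piecewise Z (fun _ => j0)) (fun b => gv (Z b)) ∅ =
        Tr (Rv.piecewise V0 (fun _ => j0)) (fun b => gv (V b)) ∅ := by
      rw [e1]
      apply h2
      intro b hb _
      rw [hZC b hb]
    have hnew : ∀ h a s, 1 ≤ h → ok' h a s → W D Z a = W D V0 a :=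
      hW1 D Z V0 hZo
    show f Z (W D Z) ↔ Tr (Rv.piecewise Z (fun _ => j0)) (fun b => gv (Z b)) ∅ (W D Z)
    rw [e2, e3]
    have e4 : Tr (Rv.piecewise V0 (fun _ => j0)) (fun b => gv (V b)) ∅ (W D Z) ↔
        Tr (Rv.piecewise V0 (fun _ => j0)) (fun b => gv (V b)) ∅ (W D V0) :=
      (h1 _ _ _).depends (fun h' a s hh1 _ hh3 => hnew h' a s hh1 hh3)
    rw [e4, ← hiff]
    apply (hf _).depends
    intro h' a s hh1 _ hh3
    cases hc : ch a with
    | none =>
      rw [oldT_none hc]
      exact hnew h' a s hh1 (H.hok1 h' a s hh1 hh3 hc)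
    | some bn =>
      obtain ⟨b, n⟩ := bn
      have hb := H.hC a b n hc
      have e5 : W D Z (emb b) = W D V0 (emb b) := by
        rcases H.hht h' a s b n hh1 hh3 hc with h5 | h5
        · exact hnew (κ b) (emb b) false (by omega) (H.hok2 b false hb)
        · exact hnew (κ b) (emb b) false (by omega) (H.hok2 b false hb)
      rw [hW2 D Z a b n hc, hZC b hb, e5]
      unfold oldT
      rw [hc]

end

end Pool.Agent.H8p
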