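import Pool.Agent.H8.PThr

set_option autoImplicit false
set_option linter.unusedSectionVars false

/-!
# Geometric hidden numbers
-/

namespace Pool.Agent.H8p

open Finset
open Pool.Agent.H8h (pr pr_eq pr_mono pr_or pr_congr pr_exists pr_piecewise pr_nonneg pr_true)
open Pool.Agent.H8 (first_unique first_nondead)

section geo

variable {m M : ℕ}

/-- the number of leading nonzero entries -/
noncomputable def gv (γ : Fin m → Fin M) : ℕ :=
  open Classical in Nat.findGreatest (fun x => ∀ i : Fin m, i.1 < x → (γ i).1 ≠ 0) m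

theorem gv_le (γ : Fin m → Fin M) : gv γ ≤ m := Nat.findGreatest_le m

theorem le_gv {γ : Fin m → Fin M} {x : ℕ} (hx : x ≤ m) :
    x ≤ gv γ ↔ ∀ i : Fin m, i.1 < x → (γ i).1 ≠ 0 := by
  classical
  constructor
  · intro h i hi
    have h1 : (fun x => ∀ i : Fin m, i.1 < x → (γ i).1 ≠ 0) (gv γ) := by
      unfold gv
      exact Nat.findGreatest_spec (P := fun x => ∀ i : Fin m, i.1 < x → (γ i).1 ≠ 0)
        (Nat.zero_le m) (fun i hi => absurd hi (Nat.not_lt_zero _))
    exact h1 i (lt_of_lt_of_le hi h)
  · intro h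
    unfold gv
    exact Nat.le_findGreatest hx h

theorem card_ge [NeZero M] {x : ℕ} (hx : x ≤ m) :
    ((Finset.univ : Finset (Fin m → Fin M)).filter (fun γ => x ≤ gv γ)).card =
      (M - 1) ^ x * M ^ (m - x) := by
  classical
  have h1 : (Finset.univ : Finset (Fin m → Fin M)).filter (fun γ => x ≤ gv γ) =
      Fintype.piFinset (fun i : Fin m => if i.1 < x then
        (Finset.univ : Finset (Fin M)).erase 0 else Finset.univ) := by
    ext γ
    rw [Finset.mem_filter, Fintype.mem_piFinset, le_gv hx]
    constructor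
    · rintro ⟨_, h⟩ i
      by_cases hi : i.1 < x
      · rw [if_pos hi, Finset.mem_erase]
        refine ⟨?_, Finset.mem_univ _⟩
        intro h0
        exact h i hi (by rw [h0]; simp)
      · rw [if_neg hi]
        exact Finset.mem_univ _
    · intro h
      refine ⟨Finset.mem_univ _, ?_⟩
      intro i hi h0
      have := h i
      rw [if_pos hi, Finset.mem_erase] at this
      exact this.1 (Fin.ext (by rw [h0]; simp))
  rw [h1, Fintype.card_piFinset]
  have h2 : ∀ i : Fin m, (if i.1 < x then (Finset.univ : Finset (Fin M)).erase 0 else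
      Finset.univ).card = (fun j : ℕ => if j < x then M - 1 else M) i.1 := by
    intro i
    simp only
    split_ifs
    · rw [Finset.card_erase_of_mem (Finset.mem_univ _), Finset.card_univ, Fintype.card_fin]
    · rw [Finset.card_univ, Fintype.card_fin]
  rw [Finset.prod_congr rfl (fun i _ => h2 i),
    Fin.prod_univ_eq_prod_range (fun j : ℕ => if j < x then M - 1 else M) m,
    ← Finset.prod_range_mul_prod_Ico _ hx]
  congr 1
  · rw [Finset.prod_congr rfl (g := fun _ => M - 1) (by
      intro j hj
      rw [if_pos (Finset.mem_range.1 hj)]), Finset.prod_const, Finset.card_range]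
  · rw [Finset.prod_congr rfl (g := fun _ => M) (by
      intro j hj
      rw [if_neg (by have := (Finset.mem_Ico.1 hj).1; omega)]), Finset.prod_const, Nat.card_Ico]

/-- the hazard rate complement -/
noncomputable def rr (M : ℕ) : ℝ := 1 - 1 / (M : ℝ)

theorem rr_nonneg [NeZero M] : 0 ≤ rr M := by
  unfold rr
  have h1 : (1 : ℝ) ≤ M := by
    exact_mod_cast Nat.one_le_iff_ne_zero.2 (NeZero.ne M)
  have : (1 : ℝ) / M ≤ 1 := by
    rw [div_le_one (by linarith)]
    exact h1
  linarith

theorem rr_le_one [NeZero M] : rr M ≤ 1 := by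
  unfold rr
  have : (0 : ℝ) ≤ 1 / M := by positivity
  linarith

theorem pr_ge [NeZero M] {x : ℕ} (hx : x ≤ m) :
    pr (fun γ : Fin m → Fin M => x ≤ gv γ) = rr M ^ x := by
  classical
  have hM : (M : ℝ) ≠ 0 := by exact_mod_cast NeZero.ne M
  have hM1 : 1 ≤ M := Nat.one_le_iff_ne_zero.2 (NeZero.ne M)
  rw [pr_eq, card_ge hx, Fintype.card_fun, Fintype.card_fin, Fintype.card_fin]
  push_cast [Nat.cast_sub hM1]
  have h1 : (M : ℝ) ^ m = (M : ℝ) ^ x * (M : ℝ) ^ (m - x) := by
    rw [← pow_add]
    congr 1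
    omega
  rw [h1]
  have h2 : rr M = ((M : ℝ) - 1) / M := by
    unfold rr
    field_simp
  rw [h2, div_pow]
  have h3 : (M : ℝ) ^ (m - x) ≠ 0 := pow_ne_zero _ hM
  have h4 : (M : ℝ) ^ x ≠ 0 := pow_ne_zero _ hM
  field_simp

theorem pr_gv [NeZero M] {x : ℕ} (hx : x < m) :
    pr (fun γ : Fin m → Fin M => gv γ = x) = rr M ^ x * (1 / (M : ℝ)) := by
  classical
  have h1 : pr (fun γ : Fin m → Fin M => x ≤ gv γ) =
      pr (fun γ : Fin m → Fin M => gv γ = x) + pr (fun γ : Fin m → Fin M => x + 1 ≤ gv γ) := by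
    rw [pr_eq, pr_eq, pr_eq, ← add_div]
    congr 1
    rw [← Nat.cast_add, ← Finset.card_union_of_disjoint]
    · congr 2
      ext γ
      simp only [Finset.mem_filter, Finset.mem_univ, true_and, Finset.mem_union]
      omega
    · rw [Finset.disjoint_left]
      intro γ h1 h2
      simp only [Finset.mem_filter, Finset.mem_univ, true_and] at h1 h2
      omega
  rw [pr_ge hx.le, pr_ge (show x + 1 ≤ m by omega)] at h1
  have h2 : pr (fun γ : Fin m → Fin M => gv γ = x) = rr M ^ x - rr M ^ (x + 1) := by linarith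
  rw [h2, pow_succ]
  unfold rr
  ring

/-- shifting a geometric number -/
theorem pr_gv_shift [NeZero M] {x s : ℕ} (hx : x + s < m) :
    pr (fun γ : Fin m → Fin M => gv γ = x + s) =
      pr (fun γ : Fin m → Fin M => gv γ = x) * rr M ^ s := by
  rw [pr_gv hx, pr_gv (show x < m by omega), pow_add]
  ring

end geo

section law

variable {B G : Type} [Fintype B] [DecidableEq B] [Fintype G]

/-- the law of a product variable with values in the natural numbers -/
theorem pr_law (f : G → ℕ) (m : ℕ) (hf : ∀ γ, f γ ≤ m) (P : (B → ℕ) → Prop) [DecidablePred P] :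
    pr (fun V : B → G => P (fun b => f (V b))) =
      ∑ x ∈ (Fintype.piFinset (fun _ : B => Finset.range (m + 1))).filter P,
        ∏ b, pr (fun γ => f γ = x b) := by
  classical
  rw [pr_eq]
  set X := Fintype.piFinset (fun _ : B => Finset.range (m + 1)) with hX
  have h1 : ((Finset.univ : Finset (B → G)).filter (fun V => P (fun b => f (V b)))).card =
      ∑ x ∈ X.filter P, ∏ b, ((Finset.univ : Finset G).filter (fun γ => f γ = x b)).card := by
    rw [Finset.card_eq_sum_card_fiberwise (f := fun V : B → G => fun b => f (V b))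
      (t := X.filter P)]
    · apply Finset.sum_congr rfl
      intro x hx
      rw [← Fintype.card_piFinset]
      congr 1
      ext V
      rw [Finset.mem_filter, Finset.mem_filter, Fintype.mem_piFinset]
      constructor
      · rintro ⟨_, h⟩ b
        rw [Finset.mem_filter]
        exact ⟨Finset.mem_univ _, congrFun h b⟩
      · intro h
        have h2 : (fun b => f (V b)) = x := by
          funext b
          exact (Finset.mem_filter.1 (h b)).2
        refine ⟨⟨Finset.mem_univ _, ?_⟩, h2⟩
        rw [h2]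
        exact (Finset.mem_filter.1 hx).2
    · intro V hV
      rw [Finset.mem_coe, Finset.mem_filter] at hV ⊢
      refine ⟨?_, hV.2⟩
      rw [hX, Fintype.mem_piFinset]
      intro b
      rw [Finset.mem_range]
      exact Nat.lt_succ_of_le (hf (V b))
  rw [h1, Nat.cast_sum, Finset.sum_div]
  apply Finset.sum_congr rfl
  intro x _
  rw [Nat.cast_prod, Fintype.card_fun, Nat.cast_pow, ← Finset.card_univ (α := B),
    ← Finset.prod_const, ← Finset.prod_div_distrib]
  apply Finset.prod_congr rfl
  intro b _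
  rw [pr_eq]

theorem pr_coord [Nonempty G] (b : B) (P : G → Prop) :
    pr (fun V : B → G => P (V b)) = pr P := by
  classical
  rw [pr_eq, pr_eq]
  have h1 : (Finset.univ : Finset (B → G)).filter (fun V => P (V b)) =
      Fintype.piFinset (fun b' : B => if b' = b then (Finset.univ : Finset G).filter P
        else Finset.univ) := by
    ext V
    rw [Finset.mem_filter, Fintype.mem_piFinset]
    constructor
    · rintro ⟨_, h⟩ b'
      by_cases hb : b' = b
      · subst hb
        simp [h]
      · simp [hb]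
    · intro h
      refine ⟨Finset.mem_univ _, ?_⟩
      have := h b
      simpa using this
  have h2 : (Fintype.piFinset (fun b' : B => if b' = b then (Finset.univ : Finset G).filter P
        else Finset.univ)).card * Fintype.card G =
      ((Finset.univ : Finset G).filter P).card * Fintype.card (B → G) := by
    rw [Fintype.card_piFinset, Fintype.card_fun, ← Finset.card_univ (α := B),
      ← Finset.prod_const, ← Finset.mul_prod_erase _ _ (Finset.mem_univ b),
      ← Finset.mul_prod_erase (Finset.univ : Finset B) (fun _ => Fintype.card G)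
        (Finset.mem_univ b)]
    simp only [if_true]
    have h3 : ∏ b' ∈ (Finset.univ : Finset B).erase b, (if b' = b then
        (Finset.univ : Finset G).filter P else Finset.univ).card =
        ∏ b' ∈ (Finset.univ : Finset B).erase b, Fintype.card G := by
      apply Finset.prod_congr rfl
      intro b' hb'
      rw [if_neg (Finset.ne_of_mem_erase hb'), Finset.card_univ]
    rw [h3]
    ring
  have hG : (Fintype.card G : ℝ) ≠ 0 := by exact_mod_cast Fintype.card_ne_zero
  have hΩ : (Fintype.card (B → G) : ℝ) ≠ 0 := by exact_mod_cast Fintype.card_ne_zero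
  rw [h1, div_eq_div_iff hΩ hG]
  exact_mod_cast h2

end law

/-- **The counting lemma for hidden thresholds.** -/
theorem thr_run_pr {B : Type} [Fintype B] [DecidableEq B] {m M : ℕ} [NeZero M]
    (β : Finset B) (l : List (Finset (B × ℕ))) (P r S m' : ℕ) (hl : ∀ T ∈ l, T.card ≤ P)
    (hS : 1 ≤ S) (hm : r * S + m' ≤ m) (hM : 2 * (r * (P * (r * S))) ≤ M) :
    pr (fun V : B → (Fin m → Fin M) =>
      (∀ T ∈ l, Vld (fun b => gv (V b)) T → (hit β (fun b => gv (V b)) T).Nonempty) ∧
      ∃ L : List (Finset B), L.length = r ∧ RunT β l (fun b => gv (V b)) ∅ L) ≤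
      2 / (S : ℝ) ^ r + Fintype.card B * rr M ^ m' := by
  classical
  have hMpos : (0 : ℝ) < M := by exact_mod_cast Nat.pos_of_ne_zero (NeZero.ne M)
  set Q : (B → ℕ) → Prop := fun x => (∀ T ∈ l, Vld x T → (hit β x T).Nonempty) ∧
      ∃ L : List (Finset B), L.length = r ∧ RunT β l x ∅ L with hQ
  -- the cap
  have hcap : pr (fun V : B → (Fin m → Fin M) => ∃ b ∈ (Finset.univ : Finset B),
      m' ≤ gv (V b)) ≤ Fintype.card B * rr M ^ m' := by
    have h1 := pr_exists (Ω := B → (Fin m → Fin M)) (Finset.univ : Finset B)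
      (fun b V => m' ≤ gv (V b)) (rr M ^ m') (by
        intro b _
        rw [pr_coord b (fun γ : Fin m → Fin M => m' ≤ gv γ), pr_ge (by omega)])
    rwa [Finset.card_univ] at h1
  -- the main part
  set wt : ℕ → ℝ := fun n => pr (fun γ : Fin m → Fin M => gv γ = n) with hwt
  have hwt0 : ∀ n, 0 ≤ wt n := fun n => pr_nonneg _
  set X := Fintype.piFinset (fun _ : B => Finset.range (m + 1)) with hX
  set 𝒳 := X.filter (fun x => Q x ∧ ∀ b, x b < m') with h𝒳
  have hmain : pr (fun V : B → (Fin m → Fin M) => Q (fun b => gv (V b)) ∧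
      ∀ b, gv (V b) < m') ≤ 2 / (S : ℝ) ^ r := by
    have hlaw := pr_law (B := B) (fun γ : Fin m → Fin M => gv γ) m gv_le
      (fun x => Q x ∧ ∀ b, x b < m')
    rw [hlaw, le_div_iff₀ (by positivity)]
    -- the runs
    have hex : ∀ x ∈ 𝒳, ∃ L : List (Finset B), L.length = r ∧ RunT β l x ∅ L := by
      intro x hx
      exact (Finset.mem_filter.1 hx).2.1.2
    choose! Lx hL1 hL2 using hex
    set F : (B → ℕ) × List ℕ → (B → ℕ) := fun z b => z.1 b + raise (Lx z.1) z.2 b with hF
    have hinj : Set.InjOn F (𝒳 ×ˢ SSq S r : Finset ((B → ℕ) × List ℕ)) := by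
      rintro ⟨x, ss⟩ hz ⟨x', ss'⟩ hz' heq
      rw [Finset.mem_coe, Finset.mem_product] at hz hz'
      obtain ⟨hx, hs⟩ := hz
      obtain ⟨hx', hs'⟩ := hz'
      simp only at hx hs hx' hs'
      obtain ⟨s1, s2, s3⟩ := mem_SSq hs
      obtain ⟨s1', s2', s3'⟩ := mem_SSq hs'
      have hq := (Finset.mem_filter.1 hx).2.1.1
      have hq' := (Finset.mem_filter.1 hx').2.1.1
      obtain ⟨e1, e2⟩ := run_inj hq hq' (Lx x) (Lx x') ss ss' ∅
        (by rw [hL1 x hx, hL1 x' hx']) (by rw [s1, hL1 x hx]) (by rw [s1', hL1 x' hx']) s3 s3'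
        (hL2 x hx) (hL2 x' hx') (by simp) (by
          intro b _
          exact congrFun heq b)
      rw [e1, e2]
    have hbound : ∀ x ∈ 𝒳, ∀ ss ∈ SSq S r, ∀ b, F (x, ss) b < m := by
      intro x hx ss hs b
      obtain ⟨s1, s2, s3⟩ := mem_SSq hs
      have h1 := (Finset.mem_filter.1 hx).2.2 b
      have h2 := raise_le b (Lx x) ss (r * S) (fun s hs => (s2 s hs).le)
      show x b + raise (Lx x) ss b < m
      omega
    have hweight : ∀ z ∈ 𝒳 ×ˢ SSq S r, ∏ b, wt (z.1 b) ≤ 2 * ∏ b, wt (F z b) := by
      rintro ⟨x, ss⟩ hz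
      rw [Finset.mem_product] at hz
      obtain ⟨hx, hs⟩ := hz
      simp only at hx hs
      obtain ⟨s1, s2, s3⟩ := mem_SSq hs
      have h1 : ∏ b, wt (F (x, ss) b) = (∏ b, wt (x b)) * rr M ^ (∑ b, raise (Lx x) ss b) := by
        rw [← Finset.prod_pow_eq_pow_sum, ← Finset.prod_mul_distrib]
        apply Finset.prod_congr rfl
        intro b _
        exact pr_gv_shift (hbound x hx ss hs b)
      have h2 : ∑ b, raise (Lx x) ss b ≤ r * (P * (r * S)) := by
        have := raise_sum hl (r * S) ss (hL2 x hx) (fun s hs => (s2 s hs).le)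
        rwa [hL1 x hx] at this
      have h3 : (1 / 2 : ℝ) ≤ rr M ^ (∑ b, raise (Lx x) ss b) := by
        have h4 : rr M ^ (r * (P * (r * S))) ≤ rr M ^ (∑ b, raise (Lx x) ss b) :=
          pow_le_pow_of_le_one rr_nonneg rr_le_one h2
        refine le_trans ?_ h4
        have h5 := one_add_mul_le_pow (a := -(1 / (M : ℝ))) (by
          have h6 : (1 : ℝ) ≤ M := by
            exact_mod_cast Nat.one_le_iff_ne_zero.2 (NeZero.ne M)
          have : (1 : ℝ) / M ≤ 1 := by
            rw [div_le_one hMpos]
            exact h6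
          linarith) (r * (P * (r * S)))
        have h6 : rr M = 1 + -(1 / (M : ℝ)) := by
          unfold rr
          ring
        rw [h6]
        refine le_trans ?_ h5
        have h7 : (2 * ((r * (P * (r * S)) : ℕ) : ℝ)) ≤ M := by exact_mod_cast hM
        have h8 : ((r * (P * (r * S)) : ℕ) : ℝ) * (1 / (M : ℝ)) ≤ 1 / 2 := by
          rw [mul_one_div, div_le_div_iff₀ hMpos (by norm_num)]
          linarith
        have h9 : ((r * (P * (r * S)) : ℕ) : ℝ) * -(1 / (M : ℝ)) =
            -(((r * (P * (r * S)) : ℕ) : ℝ) * (1 / (M : ℝ))) := by ring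
        rw [h9]
        linarith
      simp only
      rw [h1]
      have h4 : 0 ≤ ∏ b, wt (x b) := Finset.prod_nonneg (fun b _ => hwt0 _)
      nlinarith
    have htotal : ∑ u ∈ X, ∏ b, wt (u b) ≤ 1 := by
      have h1 := pr_law (B := B) (fun γ : Fin m → Fin M => gv γ) m gv_le (fun _ => True)
      rw [Finset.filter_true_of_mem (fun _ _ => trivial)] at h1
      rw [← h1, pr_true]
    calc (∑ x ∈ 𝒳, ∏ b, wt (x b)) * (S : ℝ) ^ r
        = ∑ z ∈ 𝒳 ×ˢ SSq S r, ∏ b, wt (z.1 b) := by
          rw [Finset.sum_product, Finset.sum_mul]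
          apply Finset.sum_congr rfl
          intro x _
          have e : ∑ y ∈ SSq S r, ∏ b, wt ((x, y).1 b) = ∑ _y ∈ SSq S r, ∏ b, wt (x b) := rfl
          rw [e, Finset.sum_const, card_SSq, nsmul_eq_mul]
          push_cast
          ring
      _ ≤ ∑ z ∈ 𝒳 ×ˢ SSq S r, 2 * ∏ b, wt (F z b) := Finset.sum_le_sum hweight
      _ = 2 * ∑ z ∈ 𝒳 ×ˢ SSq S r, ∏ b, wt (F z b) := by rw [Finset.mul_sum]
      _ = 2 * ∑ u ∈ (𝒳 ×ˢ SSq S r).image F, ∏ b, wt (u b) := by
          rw [Finset.sum_image hinj]
      _ ≤ 2 * ∑ u ∈ X, ∏ b, wt (u b) := by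
          apply mul_le_mul_of_nonneg_left _ (by norm_num)
          apply Finset.sum_le_sum_of_subset_of_nonneg
          · intro u hu
            obtain ⟨⟨x, ss⟩, hz, rfl⟩ := Finset.mem_image.1 hu
            rw [Finset.mem_product] at hz
            rw [hX, Fintype.mem_piFinset]
            intro b
            rw [Finset.mem_range]
            have := hbound x hz.1 ss hz.2 b
            omega
          · intro u _ _
            exact Finset.prod_nonneg (fun b _ => hwt0 _)
      _ ≤ 2 * 1 := mul_le_mul_of_nonneg_left htotal (by norm_num)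
      _ = 2 := by norm_num
  refine le_trans (pr_mono ?_) ((pr_or _ _).trans (add_le_add hmain hcap))
  intro V hV
  by_cases h : ∀ b, gv (V b) < m'
  · exact Or.inl ⟨hV, h⟩
  · push Not at h
    obtain ⟨b, hb⟩ := h
    exact Or.inr ⟨b, Finset.mem_univ _, hb⟩

end Pool.Agent.H8p
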