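import Pool.Agent.H8.PWorld
import Pool.Agent.H8.Layer

set_option autoImplicit false
set_option linter.unusedSectionVars false

/-!
# Elimination of a layer of threshold codes
-/

namespace Pool.Agent.H8p

open Finset Classical
open Pool.Agent.H9 (Oracle Prog DTP AcceptsIn totalLength words mem_words card_words code
  code_length code_inj)
open Pool.Agent.H8u (Cd hid hid_length totalLength_cons_of)
open Pool.Agent.H8h (pr pr_mono pr_or pr_congr pr_false Cl StepHyp step_all stage pr_trans num_w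
  num_S num_q num_err gw_le gS_le alt_cl)
open Pool.Agent.H8 (Str)
open Pool.Agent.H8v (Bk card_Bk extY extY_eq extY_congr pad pad_inj)

/-- the world with given random choices -/
noncomputable abbrev WW {Dt : Type} (g : Enum) (act : ℕ → Finset ℕ) (S : Dt → Oracle)
    (Y0 : List Bool → List Bool) (V0 : List Bool → ℕ) {R Λ lam : ℕ} (D : Dt)
    (Y : Bk R Λ → Str lam) (V : Bk R Λ → Dice lam) : At → Bool :=
  wld g act (S D) (extY Y0 Y) (extV V0 V)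

/-- In all the worlds, the two machines of the active codes of size more than `R` are
complementary. -/
def Leg {Dt : Type} (g : Enum) (act : ℕ → Finset ℕ) (S : Dt → Oracle)
    (Y0 : List Bool → List Bool) (V0 : List Bool → ℕ) (R Λ lam : ℕ) : Prop :=
  ∀ (D : Dt) (Y : Bk R Λ → Str lam) (V : Bk R Λ → Dice lam) (c : Cd), R < c.2.2 →
    c.1 ∈ act c.2.2 →
    (Acc (orP g act (S D) (extY Y0 Y) (extV V0 V)) (m1 g c) (dp g c + 1) c.2.1 ↔
      ¬ Acc (orP g act (S D) (extY Y0 Y) (extV V0 V)) (m2 g c) (dp g c + 1) c.2.1)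

theorem card_Bk_le {R Λ P : ℕ} (hΛ : Λ + 2 ≤ P) : Fintype.card (Bk R Λ) + 1 ≤ 2 ^ P := by
  have h1 := card_Bk R Λ
  have h2 : 2 ^ (Λ + 1) + 1 ≤ 2 ^ (Λ + 2) := by
    have : 1 ≤ 2 ^ (Λ + 1) := Nat.one_le_two_pow
    rw [pow_succ 2 (Λ + 1)]
    omega
  have h3 : 2 ^ (Λ + 2) ≤ 2 ^ P := Nat.pow_le_pow_right (by norm_num) hΛ
  omega

section

variable {g : Enum} {act : ℕ → Finset ℕ} {Dt : Type} {S : Dt → Oracle}
  {Y0 : List Bool → List Bool} {V0 : List Bool → ℕ} {R R1 R2 Λ lam : ℕ}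

/-! ### One stage of the trees -/

theorem stageY1 (h12 : R2 ≤ R1 ^ 2) (hlam : lam ≤ R1) (hR : R ≤ R1) {P L k i : ℕ} (hP : 5 ≤ P)
    (hk : k + 1 ≤ P) (hL : L ≤ P) (hL1 : 1 ≤ L) (hΛ : Λ + 2 ≤ P) (hJ : P ^ 9 * 2 ^ L ≤ 2 ^ lam)
    (f : (Bk R Λ → Str lam) → (At → Bool) → Prop)
    (hf : ∀ Y, Cl (okS g R1 R2 Λ i) P (2 ^ P) k (f Y))
    (hfd : ∀ Y Y', (∀ b ∈ RvS g R1 R2 R Λ i, Y b = Y' b) → f Y = f Y') :
    ∃ f' : (Bk R Λ → Str lam) → (At → Bool) → Prop,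
      (∀ Y, Cl (okS g R1 R2 Λ (i + 1)) (P ^ 8) (2 ^ (P ^ 8)) k (f' Y)) ∧
      (∀ Y Y', (∀ b ∈ RvS g R1 R2 R Λ (i + 1), Y b = Y' b) → f' Y = f' Y') ∧
      ∀ (D : Dt) (V : Bk R Λ → Dice lam),
        pr (fun Y => ¬ (f Y (WW g act S Y0 V0 D Y V) ↔ f' Y (WW g act S Y0 V0 D Y V))) ≤
        2 * (1 / 2 : ℝ) ^ L := by
  obtain ⟨f', e1, e2, e3⟩ := stage (J := Str lam)
    (fun (D : Dt × (Bk R Λ → Dice lam)) Y => WW g act S Y0 V0 D.1 Y D.2)
    (RvS g R1 R2 R Λ i) (disj_RC g R1 R2 R Λ i) (stepHyp g (lam := lam) hR)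
    (fun D Y Y' hY h a s _ ha => wld_off h12 hY ha)
    (fun D Y a b oj h => wld_child hlam h) (w := P) (S := 2 ^ P) (by omega) (2 * P ^ 2) k f hf hfd
  refine ⟨f', ?_, ?_, ?_⟩
  · intro Y
    exact (e1 Y).mono (fun _ _ _ h => h) (num_w hP) (num_S hP (card_Bk_le hΛ))
  · intro Y Y' hY
    apply e2
    intro b hb
    exact hY b (RvS_succ g R1 R2 R Λ i hb)
  · intro D V
    exact (e3 (D, V)).trans (num_err hP hk hL hL1 hJ)

/-- One stage of the trees for families which also depend on the hidden numbers. -/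
theorem stageY (h12 : R2 ≤ R1 ^ 2) (hlam : lam ≤ R1) (hR : R ≤ R1) {P L k i : ℕ} (hP : 5 ≤ P)
    (hk : k + 1 ≤ P) (hL : L ≤ P) (hL1 : 1 ≤ L) (hΛ : Λ + 2 ≤ P) (hJ : P ^ 9 * 2 ^ L ≤ 2 ^ lam)
    (RV : Finset (Bk R Λ))
    (f : (Bk R Λ → Str lam) → (Bk R Λ → Dice lam) → (At → Bool) → Prop)
    (hf : ∀ Y V, Cl (okS g R1 R2 Λ i) P (2 ^ P) k (f Y V))
    (hfd : ∀ Y Y' V V', (∀ b ∈ RvS g R1 R2 R Λ i, Y b = Y' b) → (∀ b ∈ RV, V b = V' b) →
      f Y V = f Y' V') :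
    ∃ f' : (Bk R Λ → Str lam) → (Bk R Λ → Dice lam) → (At → Bool) → Prop,
      (∀ Y V, Cl (okS g R1 R2 Λ (i + 1)) (P ^ 8) (2 ^ (P ^ 8)) k (f' Y V)) ∧
      (∀ Y Y' V V', (∀ b ∈ RvS g R1 R2 R Λ (i + 1), Y b = Y' b) → (∀ b ∈ RV, V b = V' b) →
        f' Y V = f' Y' V') ∧
      ∀ D : Dt, pr (fun z : (Bk R Λ → Str lam) × (Bk R Λ → Dice lam) =>
        ¬ (f z.1 z.2 (WW g act S Y0 V0 D z.1 z.2) ↔ f' z.1 z.2 (WW g act S Y0 V0 D z.1 z.2))) ≤
        2 * (1 / 2 : ℝ) ^ L := by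
  have key : ∀ φ : (Bk R Λ → Str lam) → (At → Bool) → Prop,
      ((∀ Y, Cl (okS g R1 R2 Λ i) P (2 ^ P) k (φ Y)) ∧
      (∀ Y Y', (∀ b ∈ RvS g R1 R2 R Λ i, Y b = Y' b) → φ Y = φ Y')) →
      ∃ φ' : (Bk R Λ → Str lam) → (At → Bool) → Prop,
      (∀ Y, Cl (okS g R1 R2 Λ (i + 1)) (P ^ 8) (2 ^ (P ^ 8)) k (φ' Y)) ∧
      (∀ Y Y', (∀ b ∈ RvS g R1 R2 R Λ (i + 1), Y b = Y' b) → φ' Y = φ' Y') ∧
      ∀ (D : Dt) (V : Bk R Λ → Dice lam),
        pr (fun Y => ¬ (φ Y (WW g act S Y0 V0 D Y V) ↔ φ' Y (WW g act S Y0 V0 D Y V))) ≤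
        2 * (1 / 2 : ℝ) ^ L :=
    fun φ hφ => stageY1 h12 hlam hR hP hk hL hL1 hΛ hJ φ hφ.1 hφ.2
  choose! F hF1 hF2 hF3 using key
  have hfam : ∀ V, (∀ Y, Cl (okS g R1 R2 Λ i) P (2 ^ P) k (f Y V)) ∧
      (∀ Y Y', (∀ b ∈ RvS g R1 R2 R Λ i, Y b = Y' b) → f Y V = f Y' V) :=
    fun V => ⟨fun Y => hf Y V, fun Y Y' hY => hfd Y Y' V V hY (fun _ _ => rfl)⟩
  refine ⟨fun Y V => F (fun Y => f Y V) Y, fun Y V => hF1 _ (hfam V) Y, ?_, ?_⟩
  · intro Y Y' V V' hY hV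
    have e : (fun Y => f Y V) = (fun Y => f Y V') := by
      funext Y
      exact hfd Y Y V V' (fun _ _ => rfl) hV
    simp only [e]
    exact hF2 _ (hfam V') Y Y' hY
  · intro D
    apply pr_prod_left _ (by positivity)
    intro V
    exact hF3 (fun Y => f Y V) (hfam V) D V

/-- The stages of the trees of one layer. -/
theorem stagesY (h12 : R2 ≤ R1 ^ 2) (hlam : lam ≤ R1) (hR : R ≤ R1) {P L k : ℕ} (hP : 5 ≤ P)
    (hk : k + 1 ≤ P) (hL : L ≤ P) (hL1 : 1 ≤ L) (hΛ : Λ + 2 ≤ P)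
    (RV : Finset (Bk R Λ))
    (f : (Bk R Λ → Str lam) → (Bk R Λ → Dice lam) → (At → Bool) → Prop)
    (hf : ∀ Y V, Cl (okS g R1 R2 Λ 0) P (2 ^ P) k (f Y V))
    (hfd : ∀ Y Y' V V', (∀ b ∈ RvS g R1 R2 R Λ 0, Y b = Y' b) → (∀ b ∈ RV, V b = V' b) →
      f Y V = f Y' V') (n : ℕ)
    (hJ : (P ^ 8 ^ n) ^ 9 * 2 ^ L ≤ 2 ^ lam) :
    ∃ f' : (Bk R Λ → Str lam) → (Bk R Λ → Dice lam) → (At → Bool) → Prop,
      (∀ Y V, Cl (okS g R1 R2 Λ n) (P ^ 8 ^ n) (2 ^ (P ^ 8 ^ n)) k (f' Y V)) ∧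
      (∀ Y Y' V V', (∀ b ∈ RvS g R1 R2 R Λ n, Y b = Y' b) → (∀ b ∈ RV, V b = V' b) →
        f' Y V = f' Y' V') ∧
      ∀ D : Dt, pr (fun z : (Bk R Λ → Str lam) × (Bk R Λ → Dice lam) =>
        ¬ (f z.1 z.2 (WW g act S Y0 V0 D z.1 z.2) ↔ f' z.1 z.2 (WW g act S Y0 V0 D z.1 z.2))) ≤
        n * (2 * (1 / 2 : ℝ) ^ L) := by
  induction n with
  | zero =>
    refine ⟨f, ?_, hfd, ?_⟩
    · intro Y V
      simpa using hf Y V
    · intro D
      refine le_of_eq ?_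
      push_cast
      rw [zero_mul, ← pr_false (Ω := (Bk R Λ → Str lam) × (Bk R Λ → Dice lam))]
      apply pr_congr
      intro z
      simp
  | succ n ih =>
    have hPn : P ≤ P ^ 8 ^ n := Nat.le_self_pow (by positivity) P
    have hmono : P ^ 8 ^ n ≤ P ^ 8 ^ (n + 1) :=
      Nat.pow_le_pow_right (by omega) (Nat.pow_le_pow_right (by norm_num) (by omega))
    have hJn : (P ^ 8 ^ n) ^ 9 * 2 ^ L ≤ 2 ^ lam :=
      (Nat.mul_le_mul_right _ (Nat.pow_le_pow_left hmono 9)).trans hJ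
    obtain ⟨f1, a1, a2, a3⟩ := ih hJn
    obtain ⟨f2, b1, b2, b3⟩ := stageY (g := g) (act := act) (S := S) (Y0 := Y0) (V0 := V0)
      h12 hlam hR (P := P ^ 8 ^ n)
      (hP.trans hPn) (hk.trans hPn) (hL.trans hPn) hL1 (hΛ.trans hPn) hJn RV f1 a1 a2
    have hpow : (P ^ 8 ^ n) ^ 8 = P ^ 8 ^ (n + 1) := by
      rw [← pow_mul, ← pow_succ]
    refine ⟨f2, ?_, b2, ?_⟩
    · intro Y V
      have := b1 Y V
      rwa [hpow] at this
    · intro D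
      refine pr_trans.trans ((add_le_add (a3 D) (b3 D)).trans (le_of_eq ?_))
      push_cast
      ring

/-! ### The threshold stage -/

theorem stageV1 (h12 : R2 ≤ R1 ^ 2) (hlam : 2 * lam ≤ R1) (hR : R ≤ R1) {P L k : ℕ}
    (hP : 5 ≤ P) (hk : k + 1 ≤ P) (hL : L ≤ P) (hΛ : Λ + 2 ≤ P)
    (hJ : P ^ 9 * 2 ^ L ≤ 2 ^ lam)
    (f : (Bk R Λ → Dice lam) → (At → Bool) → Prop)
    (hf : ∀ V, Cl (fun h a s => h ≤ k ∧ okS g R1 R2 Λ (k + 1) h a s) P (2 ^ P) k (f V))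
    (hfd : ∀ V V', (∀ b ∈ VT R2 R Λ, V b = V' b) → f V = f V') :
    ∃ f' : (Bk R Λ → Dice lam) → (At → Bool) → Prop,
      (∀ V, Cl (okT g R1 R2 Λ) (P ^ 8) (2 ^ (P ^ 8)) k (f' V)) ∧
      (∀ V V', (∀ b ∈ VT R2 R Λ ∪ CT R1 R2 R Λ, V b = V' b) → f' V = f' V') ∧
      ∀ (D : Dt) (Y : Bk R Λ → Str lam),
        pr (fun V => ¬ (f V (WW g act S Y0 V0 D Y V) ↔ f' V (WW g act S Y0 V0 D Y V))) ≤
        2 * (1 / 2 : ℝ) ^ L := by
  obtain ⟨f', e1, e2, e3⟩ := stageTn (lam := lam)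
    (fun (D : Dt × (Bk R Λ → Str lam)) V => WW g act S Y0 V0 D.1 D.2 V)
    (VT R2 R Λ) (disj_VC R1 R2 R Λ) (thrHyp g (R2 := R2) (Λ := Λ) (k := k) hR)
    (fun D V V' hV h a s _ ha => wldT_off h12 hV ha)
    (fun D V a b n h => wldT_child hlam h) hP hk hL (card_Bk_le hΛ) hJ f hf hfd
  exact ⟨f', e1, e2, fun D Y => e3 (D, Y)⟩

theorem stageV (h12 : R2 ≤ R1 ^ 2) (hR12 : R1 ≤ R2) (hlam : 2 * lam ≤ R1) (hR : R ≤ R1)
    {P L k : ℕ}
    (hP : 5 ≤ P) (hk : k + 1 ≤ P) (hL : L ≤ P) (hΛ : Λ + 2 ≤ P)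
    (hJ : P ^ 9 * 2 ^ L ≤ 2 ^ lam) (RY : Finset (Bk R Λ))
    (f : (Bk R Λ → Str lam) → (Bk R Λ → Dice lam) → (At → Bool) → Prop)
    (hf : ∀ Y V, Cl (fun h a s => h ≤ k ∧ okS g R1 R2 Λ (k + 1) h a s) P (2 ^ P) k (f Y V))
    (hfd : ∀ Y Y' V V', (∀ b ∈ RY, Y b = Y' b) → (∀ b ∈ VT R2 R Λ, V b = V' b) →
      f Y V = f Y' V') :
    ∃ f' : (Bk R Λ → Str lam) → (Bk R Λ → Dice lam) → (At → Bool) → Prop,
      (∀ Y V, Cl (okT g R1 R2 Λ) (P ^ 8) (2 ^ (P ^ 8)) k (f' Y V)) ∧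
      (∀ Y Y' V V', (∀ b ∈ RY, Y b = Y' b) → (∀ b ∈ VT R1 R Λ, V b = V' b) →
        f' Y V = f' Y' V') ∧
      ∀ D : Dt, pr (fun z : (Bk R Λ → Str lam) × (Bk R Λ → Dice lam) =>
        ¬ (f z.1 z.2 (WW g act S Y0 V0 D z.1 z.2) ↔ f' z.1 z.2 (WW g act S Y0 V0 D z.1 z.2))) ≤
        2 * (1 / 2 : ℝ) ^ L := by
  have key : ∀ φ : (Bk R Λ → Dice lam) → (At → Bool) → Prop,
      ((∀ V, Cl (fun h a s => h ≤ k ∧ okS g R1 R2 Λ (k + 1) h a s) P (2 ^ P) k (φ V)) ∧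
      (∀ V V', (∀ b ∈ VT R2 R Λ, V b = V' b) → φ V = φ V')) →
      ∃ φ' : (Bk R Λ → Dice lam) → (At → Bool) → Prop,
      (∀ V, Cl (okT g R1 R2 Λ) (P ^ 8) (2 ^ (P ^ 8)) k (φ' V)) ∧
      (∀ V V', (∀ b ∈ VT R2 R Λ ∪ CT R1 R2 R Λ, V b = V' b) → φ' V = φ' V') ∧
      ∀ (D : Dt) (Y : Bk R Λ → Str lam),
        pr (fun V => ¬ (φ V (WW g act S Y0 V0 D Y V) ↔ φ' V (WW g act S Y0 V0 D Y V))) ≤
        2 * (1 / 2 : ℝ) ^ L :=
    fun φ hφ => stageV1 h12 hlam hR hP hk hL hΛ hJ φ hφ.1 hφ.2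
  choose! F hF1 hF2 hF3 using key
  have hfam : ∀ Y, (∀ V, Cl (fun h a s => h ≤ k ∧ okS g R1 R2 Λ (k + 1) h a s) P (2 ^ P) k
      (f Y V)) ∧ (∀ V V', (∀ b ∈ VT R2 R Λ, V b = V' b) → f Y V = f Y V') :=
    fun Y => ⟨fun V => hf Y V, fun V V' hV => hfd Y Y V V' (fun _ _ => rfl) hV⟩
  refine ⟨fun Y V => F (f Y) V, fun Y V => hF1 _ (hfam Y) V, ?_, ?_⟩
  · intro Y Y' V V' hY hV
    have e : f Y = f Y' := by
      funext V
      exact hfd Y Y' V V hY (fun _ _ => rfl)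
    simp only [e]
    exact hF2 _ (hfam Y') V V' (fun b hb => hV b (VT_sub hR12 hb))
  · intro D
    apply pr_prod_right _ (by positivity)
    intro Y
    exact hF3 (f Y) (hfam Y) D Y

/-! ### Renaming of the words of the layer -/

theorem rename_layer (g : Enum) {R1 R2 Λ : ℕ} {h : ℕ} {a : At} {s : Bool}
    (ha : okW g R2 Λ h a s) : ∃ l : At × Bool, okS g R1 R2 Λ 0 h l.1 l.2 ∧
      ∀ (act : ℕ → Finset ℕ) (S : Oracle) (Y : List Bool → List Bool) (V : List Bool → ℕ),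
        wld g act S Y V a = s ↔ wld g act S Y V l.1 = l.2 := by
  match a with
  | Sum.inr _ => exact ha.elim
  | Sum.inl v =>
    obtain ⟨h1, h2, h3⟩ := ha
    by_cases hlow : Low g R1 v
    · exact ⟨(Sum.inl v, s), ⟨h1, h2, hlow⟩, fun _ _ _ _ => Iff.rfl⟩
    · unfold Low at hlow
      push Not at hlow
      obtain ⟨q, ys, hv, hl, hp, hR⟩ := hlow
      refine ⟨(Sum.inr (Sum.inl (q, ys)), s), ⟨⟨hR, h3 q ys hv hl hp⟩, hp, ?_, 0, by omega,
        Or.inl ⟨rfl, h1, Or.inl rfl⟩⟩, ?_⟩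
      · rw [hv, List.length_cons] at h2
        omega
      · intro act S Y V
        show orP g act S Y V v = s ↔ bitv (Fv g act V (orP g act S Y V) q) Y q ys = s
        rw [hv, orP_wd g act S Y V q ys hl hp]

/-! ### Substitution of the codes -/

/-- The formula of a machine. -/
theorem acc_formula (g : Enum) {P κ : ℕ} (m : Mch) (x : List Bool)
    (hc1 : cost m κ x.length ≤ R1) (hc2 : cost m κ x.length ≤ Λ) (hΛ : Λ ≤ P) (hκ1 : 1 ≤ κ)
    (hκP : κ ≤ P) :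
    ∃ φ : (At → Bool) → Prop, Cl (okW g R1 Λ) (3 * P) (2 ^ (3 * P)) κ φ ∧
      ∀ (act : ℕ → Finset ℕ) (S : Oracle) (Y : List Bool → List Bool) (V : List Bool → ℕ),
        Acc (orP g act S Y V) m κ x ↔ φ (wld g act S Y V) := by
  have hok : ∀ q ∈ {a : At | ∃ v : List Bool, a = Sum.inl v ∧ v.length ≤
      cost m κ x.length}, ∀ s, okW g R1 Λ 1 q s := by
    rintro q ⟨v, rfl, hv⟩ s
    exact ⟨rfl, by omega, low_of_short (by omega)⟩
  have hdtp : ∀ us : List (List Bool), us.map List.length =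
      List.replicate κ (mq m x.length) →
      DTP {a : At | ∃ v : List Bool, a = Sum.inl v ∧ v.length ≤
        cost m κ x.length} (mt m κ x.length)
        (fun ω : At → Bool => AcceptsIn (fun v => ω (Sum.inl v)) m.1 (x :: us)
          (mt m κ x.length)) := by
    intro us hus
    have h1 := (Pool.Agent.H9.dtp_acceptsIn m.1 (x :: us) (mt m κ x.length)
      (cost m κ x.length) (by
        rw [totalLength_cons_of hus]
        exact le_rfl)).comp (m := 1) (R := {a : At | ∃ v : List Bool,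
      a = Sum.inl v ∧ v.length ≤ cost m κ x.length}) (fun (ω : At → Bool) v => ω (Sum.inl v)) (by
        intro q hq
        exact DTP.var _ ⟨q, rfl, hq⟩)
    rw [mul_one] at h1
    exact h1
  have halt := (alt_cl (ok := okW g R1 Λ) hok (mq m x.length) (mt m κ x.length) κ
    (fun us (ω : At → Bool) => AcceptsIn (fun v => ω (Sum.inl v)) m.1 (x :: us)
      (mt m κ x.length)) hdtp).2 κ hκ1 le_rfl
  have hcost : mt m κ x.length + κ * mq m x.length ≤ P := by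
    unfold cost ml at hc2
    omega
  refine ⟨_, halt.mono (fun _ _ _ h => h) (by omega) ?_, ?_⟩
  · have h1 : (2 ^ mq m x.length + 1) ^ κ ≤ 2 ^ (P + P) := by
      have h2 : 2 ^ mq m x.length + 1 ≤ 2 ^ (mq m x.length + 1) := by
        have : 1 ≤ 2 ^ mq m x.length := Nat.one_le_two_pow
        rw [pow_succ]
        omega
      calc (2 ^ mq m x.length + 1) ^ κ ≤ (2 ^ (mq m x.length + 1)) ^ κ :=
            Nat.pow_le_pow_left h2 _
        _ = 2 ^ ((mq m x.length + 1) * κ) := by rw [← pow_mul]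
        _ ≤ 2 ^ (P + P) := by
            apply Nat.pow_le_pow_right (by norm_num)
            have h3 : (mq m x.length + 1) * κ = κ * mq m x.length + κ := by ring
            rw [h3]
            omega
    have h2 : 2 ^ mt m κ x.length ≤ 2 ^ P := Nat.pow_le_pow_right (by norm_num) (by omega)
    calc _ ≤ 2 ^ P * 2 ^ (P + P) := Nat.mul_le_mul h2 h1
      _ = 2 ^ (3 * P) := by
          rw [← pow_add]
          congr 1
          ring
  · intro act S Y V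
    exact Iff.rfl

/-- The formulas of a coded bit and of its negation, in the legitimate worlds. -/
theorem code_formula (hleg : Leg g act S Y0 V0 R Λ lam) {P : ℕ}
    (h12 : R2 ≤ R1 ^ 2) (hR : R ≤ R1) (hΛ : Λ ≤ P) {c : Cd}
    (hc0 : R1 < c.2.2) (hc1 : c.2.2 ≤ R2) (hc2 : (cw c).length ≤ Λ) (hdp : dp g c + 1 ≤ P)
    (s : Bool) :
    ∃ φ : (At → Bool) → Prop, Cl (okW g R1 Λ) (3 * P) (2 ^ (3 * P)) (dp g c + 1) φ ∧
      ∀ (D : Dt) (Y : Bk R Λ → Str lam) (V : Bk R Λ → Dice lam),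
        WW g act S Y0 V0 D Y V (Sum.inr (Sum.inr c)) = s ↔ φ (WW g act S Y0 V0 D Y V) := by
  by_cases hL : c.1 ∈ act c.2.2 ∧ Live g c
  swap
  · -- the bit is always zero
    have hbv : ∀ (D : Dt) (Y : Bk R Λ → Str lam) (V : Bk R Λ → Dice lam),
        WW g act S Y0 V0 D Y V (Sum.inr (Sum.inr c)) = false := by
      intro D Y V
      show decide (bv g act _ c) = false
      rw [decide_eq_false_iff_not]
      rintro ⟨h1, h2, _⟩
      exact hL ⟨h1, h2⟩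
    cases s with
    | true =>
      refine ⟨fun _ => False, Cl.false, ?_⟩
      intro D Y V
      rw [hbv D Y V]
      simp
    | false =>
      refine ⟨fun _ => True, Cl.true Nat.one_le_two_pow, ?_⟩
      intro D Y V
      rw [hbv D Y V]
      simp
  · obtain ⟨hA, hLv⟩ := hL
    have hcw := cw_length_gt c
    have hU : cost (m1 g c) (dp g c + 1) c.2.1.length + cost (m2 g c) (dp g c + 1) c.2.1.length +
        2 ≤ R1 := by
      by_contra hcon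
      have h1 : R1 ^ 2 < (cost (m1 g c) (dp g c + 1) c.2.1.length +
          cost (m2 g c) (dp g c + 1) c.2.1.length + 2) ^ 2 :=
        Nat.pow_lt_pow_left (by omega) (by norm_num)
      have h2 : (cost (m1 g c) (dp g c + 1) c.2.1.length +
          cost (m2 g c) (dp g c + 1) c.2.1.length + 2) ^ 2 ≤ c.2.2 := hLv
      omega
    obtain ⟨φ1, a1, a2⟩ := acc_formula g (P := P) (κ := dp g c + 1) (R1 := R1) (Λ := Λ)
      (m1 g c) c.2.1 (by omega) (by omega) hΛ (by omega) hdp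
    obtain ⟨φ2, b1, b2⟩ := acc_formula g (P := P) (κ := dp g c + 1) (R1 := R1) (Λ := Λ)
      (m2 g c) c.2.1 (by omega) (by omega) hΛ (by omega) hdp
    cases s with
    | true =>
      refine ⟨φ1, a1, ?_⟩
      intro D Y V
      rw [← a2]
      show decide (bv g act _ c) = true ↔ _
      rw [decide_eq_true_iff]
      unfold bv
      tauto
    | false =>
      refine ⟨φ2, b1, ?_⟩
      intro D Y V
      rw [← b2]
      show decide (bv g act _ c) = false ↔ _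
      rw [decide_eq_false_iff_not]
      have h1 := hleg D Y V c (by omega) hA
      unfold bv
      tauto

/-- exponent of the growth of the parameter in one layer -/
def ELp (k : ℕ) : ℕ := 8 ^ (k + 2) * (3 * k + 1)

/-- **Elimination of one layer.** -/
theorem layerP {k : ℕ} (hleg : Leg g act S Y0 V0 R Λ lam)
    (h12 : R2 ≤ R1 ^ 2) (hR12 : R1 ≤ R2) (hlam : 2 * lam ≤ R1) (hR : R ≤ R1) {P L : ℕ}
    (hP : 5 ≤ P) (hk : k + 1 ≤ P) (hL : L ≤ P) (hL1 : 1 ≤ L) (hΛ : Λ + 2 ≤ P)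
    (f : (Bk R Λ → Str lam) → (Bk R Λ → Dice lam) → (At → Bool) → Prop)
    (hf : ∀ Y V, Cl (okW g R2 Λ) P (2 ^ P) k (f Y V))
    (hfd : ∀ Y Y' V V', (∀ b ∈ RvS g R1 R2 R Λ 0, Y b = Y' b) → (∀ b ∈ VT R2 R Λ, V b = V' b) →
      f Y V = f Y' V')
    (hJ : (P ^ ELp k) ^ 9 * 2 ^ L ≤ 2 ^ lam) :
    ∃ f' : (Bk R Λ → Str lam) → (Bk R Λ → Dice lam) → (At → Bool) → Prop,
      (∀ Y V, Cl (okW g R1 Λ) (P ^ ELp k) (2 ^ (P ^ ELp k)) k (f' Y V)) ∧
      (∀ Y Y' V V', (∀ b ∈ RvS g R1 R2 R Λ (k + 1), Y b = Y' b) →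
        (∀ b ∈ VT R1 R Λ, V b = V' b) → f' Y V = f' Y' V') ∧
      ∀ D : Dt, pr (fun z : (Bk R Λ → Str lam) × (Bk R Λ → Dice lam) =>
        ¬ (f z.1 z.2 (WW g act S Y0 V0 D z.1 z.2) ↔ f' z.1 z.2 (WW g act S Y0 V0 D z.1 z.2))) ≤
        (k + 2) * (2 * (1 / 2 : ℝ) ^ L) := by
  -- renaming
  have hren : ∀ F : (At → Bool) → Prop, Cl (okW g R2 Λ) P (2 ^ P) k F →
      ∃ F' : (At → Bool) → Prop, Cl (okS g R1 R2 Λ 0) P (2 ^ P) k F' ∧
        ∀ z : Dt × (Bk R Λ → Str lam) × (Bk R Λ → Dice lam),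
          F (WW g act S Y0 V0 z.1 z.2.1 z.2.2) ↔ F' (WW g act S Y0 V0 z.1 z.2.1 z.2.2) := by
    intro F hF
    refine Cl.relit (fun z : Dt × (Bk R Λ → Str lam) × (Bk R Λ → Dice lam) =>
      WW g act S Y0 V0 z.1 z.2.1 z.2.2) (fun z => WW g act S Y0 V0 z.1 z.2.1 z.2.2) ?_ hF
    intro h a s _ ha
    obtain ⟨l, h1, h2⟩ := rename_layer (R1 := R1) g ha
    exact ⟨l, h1, fun z => h2 _ _ _ _⟩
  choose! F1 hF1 hF2 using hren
  -- numbers
  set P1 := P ^ 8 ^ (k + 1) with hP1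
  set P2 := P ^ 8 ^ (k + 2) with hP2
  have hPP1 : P ≤ P1 := Nat.le_self_pow (by positivity) P
  have hP12 : P1 ^ 8 = P2 := by
    rw [hP1, hP2, ← pow_mul, ← pow_succ]
  have hP1P2 : P1 ≤ P2 := by
    rw [← hP12]
    exact Nat.le_self_pow (by norm_num) P1
  have hPP2 : P ≤ P2 := hPP1.trans hP1P2
  have hP2E : P2 ^ (3 * k + 1) = P ^ ELp k := by rw [hP2, ← pow_mul]; rfl
  have hP2le : P2 ≤ P ^ ELp k := by
    rw [← hP2E]
    exact Nat.le_self_pow (by omega) P2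
  have hP1le : P1 ≤ P ^ ELp k := hP1P2.trans hP2le
  have hJ1 : P1 ^ 9 * 2 ^ L ≤ 2 ^ lam :=
    (Nat.mul_le_mul_right _ (Nat.pow_le_pow_left hP1le 9)).trans hJ
  -- trees
  obtain ⟨f2, b1, b2, b3⟩ := stagesY (g := g) (act := act) (S := S) (Y0 := Y0) (V0 := V0)
    h12 (by omega) hR hP hk hL hL1 hΛ (VT R2 R Λ)
    (fun Y V => F1 (f Y V)) (fun Y V => hF1 _ (hf Y V)) (fun Y Y' V V' hY hV => by
      show F1 (f Y V) = F1 (f Y' V')
      rw [hfd Y Y' V V' hY hV]) (k + 1) hJ1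
  -- thresholds
  obtain ⟨f3, c1, c2, c3⟩ := stageV (g := g) (act := act) (S := S) (Y0 := Y0) (V0 := V0)
    h12 hR12 hlam hR (P := P1) (hP.trans hPP1) (hk.trans hPP1) (hL.trans hPP1)
    (hΛ.trans hPP1) hJ1 (RvS g R1 R2 R Λ (k + 1)) f2
    (fun Y V => (b1 Y V).le_height) b2
  rw [hP12] at c1
  -- substitution
  have h3P : 3 * P ≤ P2 := by
    calc 3 * P ≤ P * P := Nat.mul_le_mul_right _ (by omega)
      _ = P ^ 2 := by ring
      _ ≤ P2 := by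
          apply Nat.pow_le_pow_right (by omega)
          calc 2 ≤ 8 ^ 1 := by norm_num
            _ ≤ 8 ^ (k + 2) := Nat.pow_le_pow_right (by norm_num) (by omega)
  have hsub : ∀ F : (At → Bool) → Prop, Cl (okT g R1 R2 Λ) P2 (2 ^ P2) k F →
      ∃ F' : (At → Bool) → Prop, Cl (okW g R1 Λ) (P ^ ELp k) (2 ^ (P ^ ELp k)) k F' ∧
        ∀ z : Dt × (Bk R Λ → Str lam) × (Bk R Λ → Dice lam),
          F (WW g act S Y0 V0 z.1 z.2.1 z.2.2) ↔ F' (WW g act S Y0 V0 z.1 z.2.1 z.2.2) := by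
    intro F hF
    obtain ⟨F', h1, h2⟩ := Cl.subst (ok' := okW g R1 Λ) (w0 := P2) (S0 := 2 ^ P2)
      (fun z : Dt × (Bk R Λ → Str lam) × (Bk R Λ → Dice lam) =>
        WW g act S Y0 V0 z.1 z.2.1 z.2.2)
      (fun z => WW g act S Y0 V0 z.1 z.2.1 z.2.2) Nat.one_le_two_pow (fun h a s h1 ha => by
        obtain ⟨hh, ha⟩ := ha
        match a with
        | Sum.inl v =>
          obtain ⟨e1, e2, e3⟩ := ha
          subst e1
          have h4 : Cl (okW g R1 Λ) 1 1 1 (fun ω => ω (Sum.inl v) = s ∧ True) :=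
            Cl.lit (ok := okW g R1 Λ) (w := 0) (S := 1) (h := 0) (f := fun _ => True)
              (Cl.true le_rfl) (a := Sum.inl v) (s := s) ⟨rfl, e2, e3⟩
          exact ⟨_, h4.mono (fun _ _ _ h => h) (by omega) Nat.one_le_two_pow, fun z => by simp⟩
        | Sum.inr (Sum.inl _) => exact ha.elim
        | Sum.inr (Sum.inr c) =>
          obtain ⟨⟨e1, e2⟩, e3, e4⟩ := ha
          subst e4
          obtain ⟨φ, h5, h6⟩ := code_formula (g := g) (act := act) (S := S) (Y0 := Y0)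
            (V0 := V0) hleg (P := P) h12 hR (by omega) e1 e2 e3 (by omega) s
          exact ⟨φ, h5.mono (fun _ _ _ h => h) h3P
            (Nat.pow_le_pow_right (by norm_num) h3P), fun z => h6 z.1 z.2.1 z.2.2⟩) hF.le_height
    refine ⟨F', h1.mono (fun _ _ _ h => h) ?_ ?_, h2⟩
    · rw [← hP2E]
      exact (gw_le (hP.trans hPP2) k).trans (Nat.pow_le_pow_right (by omega) (by omega))
    · rw [← hP2E]
      exact gS_le (hP.trans hPP2) k
  choose! F3 hF3 hF4 using hsub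
  refine ⟨fun Y V => F3 (f3 Y V), fun Y V => hF3 _ (c1 Y V), ?_, ?_⟩
  · intro Y Y' V V' hY hV
    show F3 (f3 Y V) = F3 (f3 Y' V')
    rw [c2 Y Y' V V' hY hV]
  · intro D
    have h0 := pr_trans.trans (add_le_add (b3 D) (c3 D))
    refine le_trans (le_of_eq (pr_congr ?_)) (h0.trans (le_of_eq (by push_cast; ring)))
    intro z
    have h1 := hF2 _ (hf z.1 z.2) (D, z)
    have h2 := hF4 _ (c1 z.1 z.2) (D, z)
    simp only at h1 h2
    rw [h1, h2]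

end

end Pool.Agent.H8p
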