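import Pool.Agent.H8.PElim
import Pool.Agent.H8.Layer

set_option autoImplicit false
set_option linter.unusedSectionVars false

/-!
# The threshold step with concrete parameters
-/

namespace Pool.Agent.H8p

open Finset
open Pool.Agent.H8h (pr pr_eq pr_mono pr_or pr_congr pr_exists pr_piecewise pr_nonneg pr_true
  pr_false Cl KS mem_KS card_KS Cor)

/-- the dice which determine a hidden number -/
abbrev Dice (lam : ℕ) := Fin (4 ^ lam) → Fin (2 ^ lam)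

theorem rr_pow_le {M : ℕ} [NeZero M] (j : ℕ) : rr M ^ (M * j) ≤ (1 / 2 : ℝ) ^ j := by
  rw [pow_mul]
  apply pow_le_pow_left₀ (pow_nonneg rr_nonneg _)
  have hMpos : (0 : ℝ) < M := by exact_mod_cast Nat.pos_of_ne_zero (NeZero.ne M)
  have h1 : rr M ≤ Real.exp (-(1 / (M : ℝ))) := by
    have := Real.add_one_le_exp (-(1 / (M : ℝ)))
    unfold rr
    linarith
  calc rr M ^ M ≤ (Real.exp (-(1 / (M : ℝ)))) ^ M := pow_le_pow_left₀ rr_nonneg h1 _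
    _ = Real.exp (-1) := by
        rw [← Real.exp_nat_mul]
        congr 1
        field_simp
    _ ≤ 1 / 2 := by
        rw [Real.exp_neg, one_div]
        apply inv_anti₀ (by norm_num)
        have := Real.exp_one_gt_d9
        linarith

theorem numT_w {P : ℕ} (hP : 5 ≤ P) : P + P * (2 * P ^ 2) ≤ P ^ 8 := by
  have h1 : 1 ≤ P ^ 3 := Nat.one_le_pow _ _ (by omega)
  have h2 : P ≤ P ^ 3 := Nat.le_self_pow (by norm_num) P
  calc P + P * (2 * P ^ 2) = P + 2 * P ^ 3 := by ring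
    _ ≤ 5 * P ^ 3 := by omega
    _ ≤ P * P ^ 3 := Nat.mul_le_mul_right _ hP
    _ = P ^ 4 := by ring
    _ ≤ P ^ 8 := Nat.pow_le_pow_right (by omega) (by norm_num)

theorem numT_S {P b : ℕ} (hP : 5 ≤ P) (hb : b + 1 ≤ 2 ^ P) :
    2 ^ P * (b + 1) ^ (P * (2 * P ^ 2)) ≤ 2 ^ (P ^ 8) := by
  calc 2 ^ P * (b + 1) ^ (P * (2 * P ^ 2)) ≤ 2 ^ P * (2 ^ P) ^ (P * (2 * P ^ 2)) :=
        Nat.mul_le_mul_left _ (Nat.pow_le_pow_left hb _)
    _ = 2 ^ (P + P * (P * (2 * P ^ 2))) := by rw [← pow_mul, ← pow_add]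
    _ ≤ 2 ^ (P ^ 8) := by
        apply Nat.pow_le_pow_right (by norm_num)
        have h2 : P ≤ P ^ 4 := Nat.le_self_pow (by norm_num) P
        calc P + P * (P * (2 * P ^ 2)) = P + 2 * P ^ 4 := by ring
          _ ≤ 5 * P ^ 4 := by omega
          _ ≤ P * P ^ 4 := Nat.mul_le_mul_right _ hP
          _ = P ^ 5 := by ring
          _ ≤ P ^ 8 := Nat.pow_le_pow_right (by omega) (by norm_num)

/-- the parameters of the threshold step -/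
theorem numT {P L lam k b : ℕ} (hP : 5 ≤ P) (hk : k + 1 ≤ P) (hL : L ≤ P)
    (hb : b + 1 ≤ 2 ^ P) (hJ : P ^ 9 * 2 ^ L ≤ 2 ^ lam) :
    ((2 * P ^ 2) * 2 + 2 ^ lam * (2 * P ^ 2) ≤ 4 ^ lam) ∧
    (2 * ((2 * P ^ 2) * (P * ((2 * P ^ 2) * 2))) ≤ 2 ^ lam) ∧
    (1 * 2 ^ (L + 2) + 2 ^ lam * (2 * P ^ 2) ≤ 4 ^ lam) ∧
    (2 * (1 * (P * (1 * 2 ^ (L + 2)))) ≤ 2 ^ lam) ∧
    (((2 ^ P : ℕ) + 1 : ℝ) ^ k * (2 / ((2 : ℕ) : ℝ) ^ (2 * P ^ 2) +
      b * rr (2 ^ lam) ^ (2 ^ lam * (2 * P ^ 2))) +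
      (2 / (((2 ^ (L + 2) : ℕ)) : ℝ) ^ 1 + b * rr (2 ^ lam) ^ (2 ^ lam * (2 * P ^ 2))) ≤
      2 * (1 / 2 : ℝ) ^ L) := by
  have hM : P ^ 9 ≤ 2 ^ lam := (Nat.le_mul_of_pos_right _ (by positivity)).trans hJ
  have h4 : 4 ^ lam = 2 ^ lam * 2 ^ lam := by
    rw [show (4 : ℕ) = 2 * 2 by norm_num, mul_pow]
  have hP2 : 5 * 5 ≤ P * P := Nat.mul_le_mul hP hP
  have hP3 : 5 * 5 * 5 ≤ P ^ 3 := by
    calc 5 * 5 * 5 ≤ P * P * P := Nat.mul_le_mul hP2 hP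
      _ = P ^ 3 := by ring
  have hP9 : 125 * P ^ 6 ≤ P ^ 9 := by
    calc 125 * P ^ 6 ≤ P ^ 3 * P ^ 6 := Nat.mul_le_mul_right _ hP3
      _ = P ^ 9 := by ring
  have hP26 : P ^ 2 ≤ P ^ 6 := Nat.pow_le_pow_right (by omega) (by norm_num)
  have hP56 : P ^ 5 ≤ P ^ 6 := Nat.pow_le_pow_right (by omega) (by norm_num)
  have hP16 : P ≤ P ^ 6 := Nat.le_self_pow (by norm_num) P
  have h1M : 1 ≤ 2 ^ lam := Nat.one_le_two_pow
  refine ⟨?_, ?_, ?_, ?_, ?_⟩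
  · rw [h4]
    calc (2 * P ^ 2) * 2 + 2 ^ lam * (2 * P ^ 2) ≤ 2 ^ lam * (4 * P ^ 2) + 2 ^ lam * (2 * P ^ 2) := by
          apply Nat.add_le_add_right
          calc (2 * P ^ 2) * 2 = 1 * (4 * P ^ 2) := by ring
            _ ≤ 2 ^ lam * (4 * P ^ 2) := Nat.mul_le_mul_right _ h1M
      _ = 2 ^ lam * (6 * P ^ 2) := by ring
      _ ≤ 2 ^ lam * 2 ^ lam := Nat.mul_le_mul_left _ (by omega)
  · calc 2 * ((2 * P ^ 2) * (P * ((2 * P ^ 2) * 2))) = 16 * P ^ 5 := by ring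
      _ ≤ 2 ^ lam := by omega
  · rw [h4]
    have h5 : 2 ^ (L + 2) ≤ 2 ^ lam := by
      calc 2 ^ (L + 2) = 4 * 2 ^ L := by rw [pow_add]; ring
        _ ≤ P ^ 9 * 2 ^ L := Nat.mul_le_mul_right _ (by omega)
        _ ≤ 2 ^ lam := hJ
    calc 1 * 2 ^ (L + 2) + 2 ^ lam * (2 * P ^ 2) ≤ 2 ^ lam * 1 + 2 ^ lam * (2 * P ^ 2) := by omega
      _ = 2 ^ lam * (1 + 2 * P ^ 2) := by ring
      _ ≤ 2 ^ lam * 2 ^ lam := Nat.mul_le_mul_left _ (by omega)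
  · calc 2 * (1 * (P * (1 * 2 ^ (L + 2)))) = (8 * P) * 2 ^ L := by rw [pow_add]; ring
      _ ≤ P ^ 9 * 2 ^ L := Nat.mul_le_mul_right _ (by omega)
      _ ≤ 2 ^ lam := hJ
  · -- the error
    have hLP : L + 2 * P + 4 ≤ P ^ 2 := by nlinarith
    have hrr := rr_pow_le (M := 2 ^ lam) (2 * P ^ 2)
    have hb' : (b : ℝ) ≤ 2 ^ P := by
      have : b ≤ 2 ^ P := by omega
      exact_mod_cast this
    have hcap : (b : ℝ) * rr (2 ^ lam) ^ (2 ^ lam * (2 * P ^ 2)) ≤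
        2 ^ P * (1 / 2 : ℝ) ^ (2 * P ^ 2) :=
      mul_le_mul hb' hrr (pow_nonneg rr_nonneg _) (by positivity)
    have hcap0 : 0 ≤ (b : ℝ) * rr (2 ^ lam) ^ (2 ^ lam * (2 * P ^ 2)) :=
      mul_nonneg (by positivity) (pow_nonneg rr_nonneg _)
    have hpowk : ((2 ^ P : ℕ) + 1 : ℝ) ^ k ≤ 2 ^ (P ^ 2) := by
      have h1 : ((2 ^ P : ℕ) + 1 : ℝ) ≤ 2 ^ (P + 1) := by
        have h2 : 2 ^ P + 1 ≤ 2 ^ (P + 1) := by
          have : 1 ≤ 2 ^ P := Nat.one_le_two_pow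
          rw [pow_succ]
          omega
        exact_mod_cast h2
      calc ((2 ^ P : ℕ) + 1 : ℝ) ^ k ≤ (2 ^ (P + 1)) ^ k := pow_le_pow_left₀ (by positivity) h1 _
        _ = 2 ^ ((P + 1) * k) := by rw [← pow_mul]
        _ ≤ 2 ^ (P ^ 2) := by
            apply pow_le_pow_right₀ (by norm_num)
            obtain ⟨P', rfl⟩ : ∃ P', P = P' + 1 := ⟨P - 1, by omega⟩
            have h3 : k ≤ P' := by omega
            calc (P' + 1 + 1) * k ≤ (P' + 1 + 1) * P' := Nat.mul_le_mul_left _ h3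
              _ ≤ (P' + 1 + 1) * P' + 1 := Nat.le_succ _
              _ = (P' + 1) ^ 2 := by ring
    have hsmall : (2 : ℝ) ^ (P ^ 2) * (2 ^ (P + 1) * (1 / 2 : ℝ) ^ (2 * P ^ 2)) ≤
        1 / 8 * (1 / 2 : ℝ) ^ L := by
      have e1 : (2 : ℝ) ^ (P ^ 2) * (2 ^ (P + 1) * (1 / 2 : ℝ) ^ (2 * P ^ 2)) =
          2 ^ (P + 1) * (1 / 2 : ℝ) ^ (P ^ 2) := by
        have : (1 / 2 : ℝ) ^ (2 * P ^ 2) = (1 / 2 : ℝ) ^ (P ^ 2) * (1 / 2 : ℝ) ^ (P ^ 2) := by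
          rw [← pow_add]; congr 1; ring
        rw [this]
        have h2 : (2 : ℝ) ^ (P ^ 2) * (1 / 2 : ℝ) ^ (P ^ 2) = 1 := by
          rw [← mul_pow]; norm_num
        calc (2 : ℝ) ^ (P ^ 2) * (2 ^ (P + 1) * ((1 / 2 : ℝ) ^ (P ^ 2) * (1 / 2 : ℝ) ^ (P ^ 2)))
            = ((2 : ℝ) ^ (P ^ 2) * (1 / 2 : ℝ) ^ (P ^ 2)) *
              (2 ^ (P + 1) * (1 / 2 : ℝ) ^ (P ^ 2)) := by ring
          _ = _ := by rw [h2, one_mul]
      rw [e1]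
      have h3 : (1 / 2 : ℝ) ^ (P ^ 2) ≤ (1 / 2 : ℝ) ^ ((P + 1) + (L + 3)) := by
        apply pow_le_pow_of_le_one (by norm_num) (by norm_num)
        omega
      calc (2 : ℝ) ^ (P + 1) * (1 / 2 : ℝ) ^ (P ^ 2)
          ≤ 2 ^ (P + 1) * (1 / 2 : ℝ) ^ ((P + 1) + (L + 3)) :=
            mul_le_mul_of_nonneg_left h3 (by positivity)
        _ = (2 ^ (P + 1) * (1 / 2 : ℝ) ^ (P + 1)) * (1 / 2 : ℝ) ^ (L + 3) := by
            rw [pow_add (1 / 2 : ℝ) (P + 1)]; ring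
        _ = (1 / 2 : ℝ) ^ (L + 3) := by
            rw [← mul_pow]; norm_num
        _ = 1 / 8 * (1 / 2 : ℝ) ^ L := by rw [pow_add]; ring
    have hA : 2 / ((2 : ℕ) : ℝ) ^ (2 * P ^ 2) ≤ 2 ^ (P + 1) * (1 / 2 : ℝ) ^ (2 * P ^ 2) := by
      have e1 : 2 / ((2 : ℕ) : ℝ) ^ (2 * P ^ 2) = 2 * (1 / 2 : ℝ) ^ (2 * P ^ 2) := by
        rw [div_pow, one_pow]
        push_cast
        ring
      rw [e1]
      apply mul_le_mul_of_nonneg_right _ (by positivity)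
      calc (2 : ℝ) = 2 ^ 1 := by norm_num
        _ ≤ 2 ^ (P + 1) := pow_le_pow_right₀ (by norm_num) (by omega)
    have hB : (b : ℝ) * rr (2 ^ lam) ^ (2 ^ lam * (2 * P ^ 2)) ≤
        2 ^ (P + 1) * (1 / 2 : ℝ) ^ (2 * P ^ 2) := by
      refine hcap.trans (mul_le_mul_of_nonneg_right ?_ (by positivity))
      exact pow_le_pow_right₀ (by norm_num) (by omega)
    have hone : (1 : ℝ) ≤ 2 ^ (P ^ 2) := one_le_pow₀ (by norm_num)
    have hX0 : (0 : ℝ) ≤ 2 ^ (P + 1) * (1 / 2 : ℝ) ^ (2 * P ^ 2) := by positivity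
    have hX : (2 : ℝ) ^ (P + 1) * (1 / 2 : ℝ) ^ (2 * P ^ 2) ≤ 1 / 8 * (1 / 2 : ℝ) ^ L := by
      refine le_trans ?_ hsmall
      nlinarith
    have hC : 2 / (((2 ^ (L + 2) : ℕ)) : ℝ) ^ 1 = 1 / 2 * (1 / 2 : ℝ) ^ L := by
      rw [pow_one, one_div, inv_pow]
      push_cast
      rw [pow_add]
      field_simp
    have hsum0 : 0 ≤ 2 / ((2 : ℕ) : ℝ) ^ (2 * P ^ 2) +
        b * rr (2 ^ lam) ^ (2 ^ lam * (2 * P ^ 2)) := by positivity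
    have hmain : ((2 ^ P : ℕ) + 1 : ℝ) ^ k * (2 / ((2 : ℕ) : ℝ) ^ (2 * P ^ 2) +
        b * rr (2 ^ lam) ^ (2 ^ lam * (2 * P ^ 2))) ≤ 1 / 4 * (1 / 2 : ℝ) ^ L := by
      calc _ ≤ (2 : ℝ) ^ (P ^ 2) * (2 / ((2 : ℕ) : ℝ) ^ (2 * P ^ 2) +
            b * rr (2 ^ lam) ^ (2 ^ lam * (2 * P ^ 2))) :=
            mul_le_mul_of_nonneg_right hpowk hsum0
        _ ≤ (2 : ℝ) ^ (P ^ 2) * (2 ^ (P + 1) * (1 / 2 : ℝ) ^ (2 * P ^ 2) +
            2 ^ (P + 1) * (1 / 2 : ℝ) ^ (2 * P ^ 2)) :=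
            mul_le_mul_of_nonneg_left (add_le_add hA hB) (by positivity)
        _ = (2 : ℝ) ^ (P ^ 2) * (2 ^ (P + 1) * (1 / 2 : ℝ) ^ (2 * P ^ 2)) +
            (2 : ℝ) ^ (P ^ 2) * (2 ^ (P + 1) * (1 / 2 : ℝ) ^ (2 * P ^ 2)) := by ring
        _ ≤ 1 / 8 * (1 / 2 : ℝ) ^ L + 1 / 8 * (1 / 2 : ℝ) ^ L := add_le_add hsmall hsmall
        _ = _ := by ring
    have hL0 : (0 : ℝ) ≤ (1 / 2 : ℝ) ^ L := by positivity
    rw [hC]
    linarith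

section

variable {α B : Type} [DecidableEq α] [DecidableEq B] [Fintype B]

/-- **The threshold step with concrete parameters.** -/
theorem stageTn {ch : α → Option (B × ℕ)} {emb : B → α} {C : Finset B} {κ : B → ℕ}
    {ok ok' : ℕ → α → Bool → Prop} {lam : ℕ} {Dt : Type} (W : Dt → (B → Dice lam) → α → Bool)
    (Rv : Finset B) (hdisj : Disjoint Rv C) (H : ThrHyp ch emb C κ ok ok')
    (hW1 : ∀ (D : Dt) (V V' : B → Dice lam), (∀ b, b ∉ C → V b = V' b) →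
      ∀ h a s, 1 ≤ h → ok' h a s → W D V a = W D V' a)
    (hW2 : ∀ (D : Dt) (V : B → Dice lam) (a : α) (b : B) (n : ℕ), ch a = some (b, n) →
      W D V a = !decide (n ≤ 2 * gv (V b) + (W D V (emb b)).toNat))
    {P L k : ℕ} (hP : 5 ≤ P) (hk : k + 1 ≤ P) (hL : L ≤ P)
    (hb : Fintype.card B + 1 ≤ 2 ^ P) (hJ : P ^ 9 * 2 ^ L ≤ 2 ^ lam)
    (f : (B → Dice lam) → (α → Bool) → Prop)
    (hf : ∀ V, Cl ok P (2 ^ P) k (f V)) (hfd : ∀ V V', (∀ b ∈ Rv, V b = V' b) → f V = f V') :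
    ∃ f' : (B → Dice lam) → (α → Bool) → Prop,
      (∀ V, Cl ok' (P ^ 8) (2 ^ (P ^ 8)) k (f' V)) ∧
      (∀ V V', (∀ b ∈ Rv ∪ C, V b = V' b) → f' V = f' V') ∧
      ∀ D, pr (fun V => ¬ (f V (W D V) ↔ f' V (W D V))) ≤ 2 * (1 / 2 : ℝ) ^ L := by
  obtain ⟨n1, n2, n3, n4, n5⟩ := numT hP hk hL hb hJ
  obtain ⟨f', e1, e2, e3⟩ := stageT W Rv hdisj H hW1 hW2 (w := P) (S := 2 ^ P) (r := 2 * P ^ 2)
    (εr := 2 / ((2 : ℕ) : ℝ) ^ (2 * P ^ 2) +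
      Fintype.card B * rr (2 ^ lam) ^ (2 ^ lam * (2 * P ^ 2)))
    (ε1 := 2 / (((2 ^ (L + 2) : ℕ)) : ℝ) ^ 1 +
      Fintype.card B * rr (2 ^ lam) ^ (2 ^ lam * (2 * P ^ 2)))
    (add_nonneg (by positivity) (mul_nonneg (by positivity) (pow_nonneg rr_nonneg _)))
    (fun β l hl => thr_run_pr β l P (2 * P ^ 2) 2 (2 ^ lam * (2 * P ^ 2)) hl (by norm_num) n1 n2)
    (fun β l hl => thr_run_pr β l P 1 (2 ^ (L + 2)) (2 ^ lam * (2 * P ^ 2)) hl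
      Nat.one_le_two_pow n3 n4) k f hf hfd
  refine ⟨f', ?_, e2, fun D => (e3 D).trans n5⟩
  intro V
  exact (e1 V).mono (fun _ _ _ h => h) (numT_w hP) (numT_S hP hb)

end

/-! ### Products -/

theorem pr_prod_left {Ω Ω' : Type} [Fintype Ω] [Fintype Ω'] (P : Ω × Ω' → Prop) {ε : ℝ}
    (hε : 0 ≤ ε) (h : ∀ v, pr (fun y => P (y, v)) ≤ ε) : pr P ≤ ε := by
  classical
  rcases isEmpty_or_nonempty (Ω × Ω') with hemp | hne
  · rw [pr_eq]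
    simp [hε]
  · have h1 : Nonempty Ω := ⟨hne.some.1⟩
    have h2 : Nonempty Ω' := ⟨hne.some.2⟩
    have hΩ : (0 : ℝ) < Fintype.card Ω := by exact_mod_cast Fintype.card_pos
    have hΩ' : (0 : ℝ) < Fintype.card Ω' := by exact_mod_cast Fintype.card_pos
    rw [pr_eq, Fintype.card_prod, Nat.cast_mul, div_le_iff₀ (by positivity), Finset.card_filter,
      Fintype.sum_prod_type_right]
    push_cast
    have h3 : ∀ v : Ω', (∑ y : Ω, (if P (y, v) then (1 : ℝ) else 0)) ≤ ε * Fintype.card Ω := by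
      intro v
      have h4 := h v
      rw [pr_eq, div_le_iff₀ hΩ, Finset.card_filter] at h4
      push_cast at h4
      exact h4
    calc ∑ v : Ω', ∑ y : Ω, (if P (y, v) then (1 : ℝ) else 0)
        ≤ ∑ _v : Ω', ε * Fintype.card Ω := Finset.sum_le_sum (fun v _ => h3 v)
      _ = ε * (Fintype.card Ω * Fintype.card Ω') := by
          rw [Finset.sum_const, nsmul_eq_mul, Finset.card_univ]
          ring

theorem pr_prod_right {Ω Ω' : Type} [Fintype Ω] [Fintype Ω'] (P : Ω × Ω' → Prop) {ε : ℝ}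
    (hε : 0 ≤ ε) (h : ∀ y, pr (fun v => P (y, v)) ≤ ε) : pr P ≤ ε := by
  classical
  rcases isEmpty_or_nonempty (Ω × Ω') with hemp | hne
  · rw [pr_eq]
    simp [hε]
  · have h1 : Nonempty Ω := ⟨hne.some.1⟩
    have h2 : Nonempty Ω' := ⟨hne.some.2⟩
    have hΩ : (0 : ℝ) < Fintype.card Ω := by exact_mod_cast Fintype.card_pos
    have hΩ' : (0 : ℝ) < Fintype.card Ω' := by exact_mod_cast Fintype.card_pos
    rw [pr_eq, Fintype.card_prod, Nat.cast_mul, div_le_iff₀ (by positivity), Finset.card_filter,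
      Fintype.sum_prod_type]
    push_cast
    have h3 : ∀ y : Ω, (∑ v : Ω', (if P (y, v) then (1 : ℝ) else 0)) ≤ ε * Fintype.card Ω' := by
      intro y
      have h4 := h y
      rw [pr_eq, div_le_iff₀ hΩ', Finset.card_filter] at h4
      push_cast at h4
      exact h4
    calc ∑ y : Ω, ∑ v : Ω', (if P (y, v) then (1 : ℝ) else 0)
        ≤ ∑ _y : Ω, ε * Fintype.card Ω' := Finset.sum_le_sum (fun y _ => h3 y)
      _ = ε * (Fintype.card Ω * Fintype.card Ω') := by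
          rw [Finset.sum_const, nsmul_eq_mul, Finset.card_univ]
          ring

end Pool.Agent.H8p
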