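import Pool.Agent.H8.Layers2
import Pool.Agent.H7.HierAvg2
import Pool.Agent.H7.AUTest

set_option autoImplicit false
set_option linter.unusedSectionVars false

/-!
# The diagonalisation step of the all-levels unambiguity theorem
-/

namespace Pool.Agent.H8h

open Finset Classical
open Pool.Agent.H9 (Oracle Prog DTP AcceptsIn totalLength words mem_words card_words data
  data_apply data_dtp paths mem_paths poly_le_pow exists_large join AltL Alt_eq AltL_congr
  strings mem_strings)
open Pool.Agent.H8u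
open Pool.Agent.H8 (Str)
open Pool.Agent.H7 (Lev lev_of_cl hier_lev hword hword_length)

/-- the first component of the side oracle with the table `a` -/
noncomputable def GX (G0 : List Bool → Bool) (k N : ℕ) (a : List (List Bool) → Bool) : Oracle :=
  fun w => if w.length = (k + 2) * N then
    data (List.replicate (k + 2) N) (fun v => a v.tail) w else G0 w

theorem GX_dtp (G0 : List Bool → Bool) (k N : ℕ) (w : List Bool) :
    DTP Set.univ 1 (fun a => GX G0 k N a w = true) := by
  by_cases hw : w.length = (k + 2) * N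
  · have h1 := (data_dtp (List.replicate (k + 2) N) w).comp (R := Set.univ) (m := 1)
      (fun (a : List (List Bool) → Bool) v => a v.tail)
      (fun v _ => DTP.var v.tail (Set.mem_univ _))
    rw [mul_one] at h1
    exact h1.congr (fun a => by simp only [GX, if_pos hw])
  · exact (DTP.const 1 (G0 w = true)).congr (fun a => by simp only [GX, if_neg hw])

theorem GX_apply (G0 : List Bool → Bool) (k N : ℕ) (a : List (List Bool) → Bool)
    {x : List Bool} (hx : x.length = N) {us : List (List Bool)}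
    (hus : us.map List.length = List.replicate (k + 1) N) :
    GX G0 k N a (hword x us) = a us := by
  have hlen : (hword x us).length = (k + 2) * N := by
    rw [hword_length hus, hx]
    ring
  unfold GX
  rw [if_pos hlen]
  have hpath : (x :: us) ∈ paths (List.replicate (k + 2) N) := by
    rw [mem_paths, List.map_cons, hus, hx, List.replicate_succ (n := k + 1)]
  have h1 := data_apply (fun v => a v.tail) hpath
  have h2 : hword x us = (x :: us).flatten.reverse := by
    unfold hword
    simp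
  rw [h2, h1]
  rfl

/-- atoms of the last class are resolved by one query -/
theorem atom_dtp (g : Enum) (B : Oracle) (G0 : List Bool → Bool) {k N Λ : ℕ} (hN : 1 ≤ N)
    (Yx : List Bool → List Bool) {h : ℕ} {a0 : At} {s : Bool} (ha : okW g (N ^ 2) Λ h a0 s) :
    DTP Set.univ 1 (fun a => wld g (join B (GX G0 k N a)) Yx a0 = true) := by
  match a0 with
  | Sum.inr _ => exact ha.elim
  | Sum.inl [] =>
    refine (DTP.const 1 False).congr (fun a => ?_)
    show False ↔ orU g _ Yx [] = true
    rw [orU_nil]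
    simp
  | Sum.inl [false] =>
    refine (DTP.const 1 False).congr (fun a => ?_)
    show False ↔ orU g _ Yx [false] = true
    rw [orU_false]
    simp [join]
  | Sum.inl (false :: false :: w) =>
    refine (DTP.const 1 (B w = true)).congr (fun a => ?_)
    show B w = true ↔ orU g _ Yx (false :: false :: w) = true
    rw [orU_false]
    rfl
  | Sum.inl (false :: true :: w) =>
    refine (GX_dtp G0 k N w).congr (fun a => ?_)
    show GX G0 k N a w = true ↔ orU g _ Yx (false :: true :: w) = true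
    rw [orU_false]
    rfl
  | Sum.inl (true :: w) =>
    refine (DTP.const 1 (orU g (join B (GX G0 k N (fun _ => false))) Yx (true :: w) = true)).congr
      (fun a => ?_)
    show _ ↔ orU g _ Yx (true :: w) = true
    rw [low_const (R := N) (S := join B (GX G0 k N (fun _ => false)))
      (S' := join B (GX G0 k N a)) (fun v hv => ?_) ha.2.2]
    match v with
    | [] => rfl
    | false :: v => rfl
    | true :: v =>
      show GX G0 k N (fun _ => false) v = GX G0 k N a v
      unfold GX
      have : v.length ≠ (k + 2) * N := by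
        rw [List.length_cons] at hv
        nlinarith
      rw [if_neg this, if_neg this]

/-- **The diagonalisation step.** -/
theorem step_unamb (g : Enum) (B : Oracle) (d : ℕ × Prog × Polynomial ℕ × Polynomial ℕ)
    (D : Cond) (n₀ : ℕ) :
    ∃ (D' : Cond) (n : ℕ), (∀ w : List Bool, w.length < n₀ → D' w = D w) ∧
        Fails g B d D' n := by
  obtain ⟨k, p, q, T⟩ := d
  -- parameters
  set Λp : Polynomial ℕ := Polynomial.C 4 * Polynomial.X +
    Polynomial.C k * q.comp (Polynomial.C 4 * Polynomial.X) +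
    T.comp (Polynomial.C 4 * Polynomial.X + Polynomial.C k *
      q.comp (Polynomial.C 4 * Polynomial.X)) with hΛp
  obtain ⟨J, hJ⟩ := poly_le_pow Λp
  obtain ⟨L, hLdef⟩ : ∃ L, L = J + k + 10 := ⟨_, rfl⟩
  set P0p : Polynomial ℕ := Λp + Polynomial.C (k + L + 7) with hP0p
  set P1p : Polynomial ℕ := P0p ^ (EL (k + 1) ^ J) with hP1p
  set big : Polynomial ℕ := P1p ^ 9 * Polynomial.C (2 ^ L) +
    Polynomial.C ((k + 1) * 2 ^ (2 * k + 8)) * P1p +
    Polynomial.C (k + 1) * (Polynomial.C 4 * Polynomial.X) + Polynomial.C 3 with hbig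
  obtain ⟨μ, hμ1, hμ2⟩ := exists_large big (n₀ + 1)
  obtain ⟨N, hN⟩ : ∃ N, N = 4 * μ := ⟨_, rfl⟩
  obtain ⟨qN, hqN⟩ : ∃ qN, qN = q.eval N := ⟨_, rfl⟩
  obtain ⟨t, ht⟩ : ∃ t, t = T.eval (N + k * qN) := ⟨_, rfl⟩
  obtain ⟨Λ, hΛ⟩ : ∃ Λ, Λ = N + k * qN + t := ⟨_, rfl⟩
  obtain ⟨P0, hP0⟩ : ∃ P0, P0 = Λ + (k + L + 7) := ⟨_, rfl⟩
  obtain ⟨P1, hP1⟩ : ∃ P1, P1 = P0 ^ (EL (k + 1) ^ J) := ⟨_, rfl⟩
  have hΛe : Λp.eval μ = Λ := by
    rw [hΛp, hΛ, ht, hqN, hN]
    simp
  have hP0e : P0p.eval μ = P0 := by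
    rw [hP0p, hP0, ← hΛe]
    simp
  have hP1e : P1p.eval μ = P1 := by
    rw [hP1p, hP1, Polynomial.eval_pow, hP0e]
  have hbige : big.eval μ = P1 ^ 9 * 2 ^ L + ((k + 1) * 2 ^ (2 * k + 8)) * P1 +
      (k + 1) * N + 3 := by
    rw [hbig, hN, ← hP1e]
    simp
  rw [hbige] at hμ2
  have hN1 : 1 ≤ N := by omega
  have hΛthr : Λ ≤ thr N J := by
    calc Λ = Λp.eval μ := hΛe.symm
      _ ≤ (μ + 2) ^ 2 ^ J := hJ μ
      _ ≤ N ^ 2 ^ J := Nat.pow_le_pow_left (by omega) _
      _ ≤ N ^ 2 ^ (J + 1) :=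
          Nat.pow_le_pow_right hN1 (Nat.pow_le_pow_right (by norm_num) (by omega))
  -- the input and the formula of the machine
  set x : List Bool := List.replicate N true with hx
  have hxl : x.length = N := by rw [hx, List.length_replicate]
  set F : (At → Bool) → Prop := fun ω => Pool.Agent.H9.Alt false k qN (fun ws =>
    ¬ AcceptsIn (fun v => ω (Sum.inl v)) p (x :: ws) t) with hF
  have hdtp : ∀ ws : List (List Bool), ws.map List.length = List.replicate k qN →
      DTP {a : At | ∃ v : List Bool, a = Sum.inl v ∧ v.length ≤ Λ} t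
        (fun ω : At → Bool => ¬ AcceptsIn (fun v => ω (Sum.inl v)) p (x :: ws) t) := by
    intro ws hws
    have h1 := (Pool.Agent.H9.dtp_acceptsIn p (x :: ws) t Λ (by
        rw [totalLength_cons_of hws, hxl, hΛ])).comp (m := 1)
      (R := {a : At | ∃ v : List Bool, a = Sum.inl v ∧ v.length ≤ Λ})
      (fun (ω : At → Bool) v => ω (Sum.inl v)) (by
        intro v hv
        exact DTP.var _ ⟨v, rfl, hv⟩)
    rw [mul_one] at h1
    exact h1.not
  have hFcl : Cl (okW g (thr N J) Λ) P0 (2 ^ P0) (k + 1) F := by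
    have h1 := (alt_cl (ok := okW g (thr N J) Λ)
      (Q := {a : At | ∃ v : List Bool, a = Sum.inl v ∧ v.length ≤ Λ}) (by
        rintro a ⟨v, rfl, hv⟩ s
        exact ⟨rfl, hv, low_of_short (hv.trans hΛthr)⟩) qN t k
      (fun ws (ω : At → Bool) => ¬ AcceptsIn (fun v => ω (Sum.inl v)) p (x :: ws) t) hdtp).1
      (k + 1) le_rfl
    refine h1.mono (fun _ _ _ h => h) (by omega) ?_
    have h2 : (2 ^ qN + 1) ^ k ≤ 2 ^ (k * qN + k) := by
      have h3 : 2 ^ qN + 1 ≤ 2 ^ (qN + 1) := by
        have : 1 ≤ 2 ^ qN := Nat.one_le_two_pow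
        rw [pow_succ]
        omega
      calc (2 ^ qN + 1) ^ k ≤ (2 ^ (qN + 1)) ^ k := Nat.pow_le_pow_left h3 _
        _ = 2 ^ (k * qN + k) := by
            rw [← pow_mul]
            congr 1
            ring
    calc 2 ^ t * (2 ^ qN + 1) ^ k ≤ 2 ^ t * 2 ^ (k * qN + k) := Nat.mul_le_mul_left _ h2
      _ = 2 ^ (t + (k * qN + k)) := by rw [← pow_add]
      _ ≤ 2 ^ P0 := Nat.pow_le_pow_right (by norm_num) (by omega)
  -- elimination
  set G0 : List Bool → Bool := fun w => (D w).1 with hG0
  set Y0 : List Bool → List Bool := fun w => (D w).2 with hY0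
  obtain ⟨f', hf1, hf2⟩ := layersP (g := g) (S := fun a => join B (GX G0 k N a)) (Y0 := Y0)
    (R := N) (Λ := Λ) (lam := μ) hN1 (by nlinarith) (L := L) (k := k + 1) (by omega) J
    (P := P0) (by omega) (by omega) (by omega) (by omega) (fun _ => F) (fun _ => hFcl)
    (fun _ _ _ => rfl) (by
      rw [← hP1]
      omega)
  rw [← hP1] at hf1
  -- hierarchy
  have hP01 : 1 ≤ P0 := by omega
  have hP11 : 1 ≤ P1 := by
    rw [hP1]
    exact Nat.one_le_pow _ _ hP01
  have hlev : ∀ Y : Bk N Λ → Str μ, Lev Set.univ P1 ((k + 1) * P1) (!true) (k + 1)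
      (fun a => ¬ f' Y (wld g (join B (GX G0 k N a)) (extY Y0 Y))) := by
    intro Y
    exact (lev_of_cl (q := P1) (H := k + 1) le_rfl
      (fun a => wld g (join B (GX G0 k N a)) (extY Y0 Y))
      (fun h a0 s _ _ ha => atom_dtp g B G0 hN1 (extY Y0 Y) ha) (hf1 Y) le_rfl).not
  obtain ⟨a, ha⟩ := hier_lev (q := P1) (T := (k + 1) * P1) (μ := μ) (B := (k + 1) * N) k
    (by omega) (Nat.le_mul_of_pos_left _ (by omega)) hP11 (by
      have : (k + 1) * P1 * 2 ^ (2 * k + 8) = ((k + 1) * 2 ^ (2 * k + 8)) * P1 := by ring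
      omega) true (List.replicate (k + 1) N) (by simp) (by
      intro y hy
      rw [List.eq_of_mem_replicate hy, hN]) (by
      rw [List.sum_replicate, smul_eq_mul])
    (Ω := Bk N Λ → Str μ)
    (fun Y a => ¬ f' Y (wld g (join B (GX G0 k N a)) (extY Y0 Y))) hlev
  -- a good hidden function
  have hsmall : (J : ℝ) * ((((k + 1 : ℕ) : ℝ) + 1) * (2 * (1 / 2 : ℝ) ^ L)) < 1 / 4 := by
    have h1 : (J : ℝ) ≤ 2 ^ J := by exact_mod_cast Nat.lt_two_pow_self.le
    have h2 : ((k + 1 : ℕ) : ℝ) + 1 ≤ 2 ^ (k + 2) := by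
      have : k + 2 < 2 ^ (k + 2) := Nat.lt_two_pow_self
      have h3 : ((k + 2 : ℕ) : ℝ) ≤ 2 ^ (k + 2) := by exact_mod_cast this.le
      push_cast at h3 ⊢
      linarith
    have h3 : (2 : ℝ) ^ (J + k + 2) * (1 / 2 : ℝ) ^ (J + k + 2) = 1 := by
      rw [← mul_pow]
      norm_num
    calc (J : ℝ) * ((((k + 1 : ℕ) : ℝ) + 1) * (2 * (1 / 2 : ℝ) ^ L))
        ≤ 2 ^ J * (2 ^ (k + 2) * (2 * (1 / 2 : ℝ) ^ L)) := by gcongr
      _ = ((2 : ℝ) ^ (J + k + 2) * (1 / 2 : ℝ) ^ (J + k + 2)) * (2 * (1 / 2) ^ 8) := by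
          rw [hLdef, show J + k + 10 = (J + k + 2) + 8 by ring, pow_add (1 / 2 : ℝ) (J + k + 2) 8,
            show J + k + 2 = J + (k + 2) by ring, pow_add (2 : ℝ) J (k + 2)]
          ring
      _ = 2 * (1 / 2) ^ 8 := by rw [h3, one_mul]
      _ < 1 / 4 := by norm_num
  obtain ⟨Y, hY1, hY2⟩ : ∃ Y : Bk N Λ → Str μ,
      (F (wld g (join B (GX G0 k N a)) (extY Y0 Y)) ↔
        f' Y (wld g (join B (GX G0 k N a)) (extY Y0 Y))) ∧
      ¬ (AltL true (List.replicate (k + 1) N) (fun us => a us = true) ↔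
        ¬ f' Y (wld g (join B (GX G0 k N a)) (extY Y0 Y))) := by
    by_contra hcon
    push Not at hcon
    have h1 := hf2 a
    have h2 := pr_mono (Ω := Bk N Λ → Str μ)
      (P := fun Y => ¬ (AltL true (List.replicate (k + 1) N) (fun us => a us = true) ↔
        ¬ f' Y (wld g (join B (GX G0 k N a)) (extY Y0 Y))))
      (Q := fun Y => ¬ (F (wld g (join B (GX G0 k N a)) (extY Y0 Y)) ↔
        f' Y (wld g (join B (GX G0 k N a)) (extY Y0 Y)))) (by
        intro Y hY hiff
        exact hY (hcon Y hiff))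
    linarith
  -- the condition
  refine ⟨fun w => (GX G0 k N a w, extY Y0 Y w), N, ?_, ?_⟩
  · intro w hw
    have h1 : w.length ≠ (k + 2) * N := by
      have : N ≤ (k + 2) * N := Nat.le_mul_of_pos_left _ (by omega)
      omega
    have h2 : ¬ (N < w.length ∧ w.length ≤ Λ) := by omega
    refine Prod.ext ?_ ?_
    · show GX G0 k N a w = (D w).1
      unfold GX
      rw [if_neg h1]
    · show extY Y0 Y w = (D w).2
      unfold extY
      rw [dif_neg h2]
  · unfold Fails
    simp only
    rw [← hqN, ← ht, ← hx]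
    have hor : orD g B (fun w => (GX G0 k N a w, extY Y0 Y w)) =
        orU g (join B (GX G0 k N a)) (extY Y0 Y) := rfl
    rw [hor]
    have e1 : Pool.Agent.H9.Alt true (k + 1) N (fun us =>
        orU g (join B (GX G0 k N a)) (extY Y0 Y) (false :: true :: hword x us) = true) ↔
        AltL true (List.replicate (k + 1) N) (fun us => a us = true) := by
      rw [Alt_eq]
      apply AltL_congr
      intro us hus
      rw [orU_false]
      show GX G0 k N a (hword x us) = true ↔ _
      rw [GX_apply G0 k N a hxl hus]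
    have e2 : Pool.Agent.H9.Alt true k qN (fun ws =>
        AcceptsIn (orU g (join B (GX G0 k N a)) (extY Y0 Y)) p (x :: ws) t) ↔
        ¬ F (wld g (join B (GX G0 k N a)) (extY Y0 Y)) := by
      rw [hF]
      simp only
      rw [alt9_not]
      simp only [not_not]
      exact Iff.rfl
    rw [e1, e2, hY1]
    exact hY2

end Pool.Agent.H8h
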