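import Pool.Agent.H8.PLayer
import Pool.Agent.H8.PCond
import Pool.Agent.H8.StepU

set_option autoImplicit false
set_option linter.unusedSectionVars false

/-!
# Elimination of all layers and the diagonalisation step (threshold codes)
-/

namespace Pool.Agent.H8p

open Finset Classical
open Pool.Agent.H9 (Oracle Prog DTP AcceptsIn totalLength words mem_words card_words code
  code_length code_inj data data_apply data_dtp paths mem_paths poly_le_pow exists_large join
  AltL Alt_eq AltL_congr)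
open Pool.Agent.H8u (Cd hid hid_length totalLength_cons_of)
open Pool.Agent.H8h (pr pr_mono pr_or pr_congr pr_false Cl pr_trans alt_cl thr thr_zero thr_succ
  thr_mono le_thr GX GX_dtp GX_apply alt9_not)
open Pool.Agent.H8 (Str)
open Pool.Agent.H8v (Bk card_Bk extY extY_eq extY_congr pad pad_inj)
open Pool.Agent.H7 (Lev lev_of_cl hier_lev hword hword_length)

/-- the coordinates of the cells of size more than `M` -/
noncomputable def Vs (M R Λ : ℕ) : Finset (Bk R Λ) :=
  Finset.univ.filter (fun b => ∃ (q : Qd) (ys : List (List Bool)), b.1 = wd q ys ∧ Prp q ys ∧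
    M < q.2.2.2)

theorem Vs_subset (g : Enum) (R1 M R Λ i : ℕ) : Vs M R Λ ⊆ RvS g R1 M R Λ i := by
  intro b hb
  unfold Vs at hb
  unfold RvS
  rw [Finset.mem_filter] at hb ⊢
  obtain ⟨h0, q, ys, h1, h2, h3⟩ := hb
  exact ⟨h0, q, ys, h1, h2, Or.inl h3⟩

theorem RvS_subset (g : Enum) {R1 R2 : ℕ} (h : R1 ≤ R2) (R Λ i : ℕ) :
    RvS g R1 R2 R Λ i ⊆ Vs R1 R Λ := by
  intro b hb
  unfold RvS at hb
  unfold Vs
  rw [Finset.mem_filter] at hb ⊢
  obtain ⟨h0, q, ys, h1, h2, h3⟩ := hb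
  refine ⟨h0, q, ys, h1, h2, ?_⟩
  rcases h3 with h3 | ⟨h3, _⟩ <;> omega

section

variable {g : Enum} {act : ℕ → Finset ℕ} {Dt : Type} {S : Dt → Oracle}
  {Y0 : List Bool → List Bool} {V0 : List Bool → ℕ} {R Λ lam : ℕ}

/-- **Elimination of all layers.** -/
theorem layersP {k : ℕ} (hleg : Leg g act S Y0 V0 R Λ lam) (hR : 1 ≤ R)
    (hlam : 2 * lam ≤ R ^ 2) {L : ℕ} (hL1 : 1 ≤ L) (J : ℕ) :
    ∀ {P : ℕ}, 5 ≤ P → k + 1 ≤ P → L ≤ P → Λ + 2 ≤ P →
    ∀ (f : (Bk R Λ → Str lam) → (Bk R Λ → Dice lam) → (At → Bool) → Prop),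
    (∀ Y V, Cl (okW g (thr R J) Λ) P (2 ^ P) k (f Y V)) →
    (∀ Y Y' V V', (∀ b ∈ Vs (thr R J) R Λ, Y b = Y' b) →
      (∀ b ∈ VT (thr R J) R Λ, V b = V' b) → f Y V = f Y' V') →
    (P ^ ELp k ^ J) ^ 9 * 2 ^ L ≤ 2 ^ lam →
    ∃ f' : (Bk R Λ → Str lam) → (Bk R Λ → Dice lam) → (At → Bool) → Prop,
      (∀ Y V, Cl (okW g (R ^ 2) Λ) (P ^ ELp k ^ J) (2 ^ (P ^ ELp k ^ J)) k (f' Y V)) ∧
      ∀ D : Dt, pr (fun z : (Bk R Λ → Str lam) × (Bk R Λ → Dice lam) =>
        ¬ (f z.1 z.2 (WW g act S Y0 V0 D z.1 z.2) ↔ f' z.1 z.2 (WW g act S Y0 V0 D z.1 z.2))) ≤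
        J * ((k + 2) * (2 * (1 / 2 : ℝ) ^ L)) := by
  induction J with
  | zero =>
    intro P _ _ _ _ f hf _ _
    refine ⟨f, ?_, ?_⟩
    · intro Y V
      have := hf Y V
      rw [thr_zero] at this
      simpa using this
    · intro D
      refine le_of_eq ?_
      push_cast
      rw [zero_mul, ← pr_false (Ω := (Bk R Λ → Str lam) × (Bk R Λ → Dice lam))]
      apply pr_congr
      intro z
      simp
  | succ J ih =>
    intro P hP hk hL hΛ f hf hfd hJ
    have hE1 : 1 ≤ ELp k := by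
      unfold ELp
      exact Nat.mul_pos (by positivity) (by omega)
    have hPE : P ≤ P ^ ELp k := Nat.le_self_pow (by omega) P
    have hpow : (P ^ ELp k) ^ ELp k ^ J = P ^ ELp k ^ (J + 1) := by
      rw [← pow_mul, pow_succ' (ELp k) J]
    have hle : P ^ ELp k ≤ P ^ ELp k ^ (J + 1) :=
      Nat.pow_le_pow_right (by omega) (Nat.le_self_pow (by omega) _)
    have hRt : R ≤ R ^ 2 := Nat.le_self_pow (by norm_num) R
    obtain ⟨f1, a1, a2, a3⟩ := layerP (k := k) (S := S) (Y0 := Y0) (V0 := V0) (R := R)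
      (R1 := thr R J) (R2 := thr R (J + 1)) (Λ := Λ) (lam := lam) hleg
      (le_of_eq (thr_succ R J)) (thr_mono hR J)
      (hlam.trans (le_thr hR J)) (hRt.trans (le_thr hR J)) hP hk hL hL1 hΛ f hf
      (fun Y Y' V V' hY hV => hfd Y Y' V V' (fun b hb => hY b (Vs_subset g _ _ R Λ 0 hb)) hV)
      ((Nat.mul_le_mul_right _ (Nat.pow_le_pow_left hle 9)).trans hJ)
    obtain ⟨f2, b1, b2⟩ := ih (P := P ^ ELp k) (hP.trans hPE) (hk.trans hPE) (hL.trans hPE)
      (hΛ.trans hPE) f1 a1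
      (fun Y Y' V V' hY hV => a2 Y Y' V V'
        (fun b hb => hY b (RvS_subset g (thr_mono hR J) R Λ _ hb)) hV)
      (by rw [hpow]; exact hJ)
    refine ⟨f2, ?_, ?_⟩
    · intro Y V
      have := b1 Y V
      rwa [hpow] at this
    · intro D
      refine pr_trans.trans ((add_le_add (a3 D) (b2 D)).trans (le_of_eq ?_))
      push_cast
      ring

end

/-! ### The remaining atoms -/

/-- The values at low words do not depend on the data. -/
theorem low_const {g : Enum} {act : ℕ → Finset ℕ} {S S' : Oracle} {Y : List Bool → List Bool}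
    {V : List Bool → ℕ} {R : ℕ}
    (hS : ∀ w : List Bool, w.length < R → S w = S' w) {w : List Bool}
    (hlow : Low g (R ^ 2) (true :: w)) :
    orP g act S Y V (true :: w) = orP g act S' Y V (true :: w) := by
  rw [Bool.eq_iff_iff, orP_true, orP_true]
  apply exists_congr; intro q
  apply exists_congr; intro ys
  apply and_congr_right; intro hw
  apply and_congr_right; intro hl
  apply and_congr_right; intro hp
  have hN : q.2.2.2 ≤ R ^ 2 := hlow q ys (by rw [hw]) hl hp
  have hK : bv g act (orP g act S Y V) q.2 ↔ bv g act (orP g act S' Y V) q.2 := by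
    apply bv_local rfl
    intro u hu
    have h1 : u.length + 2 ≤ R := by
      by_contra hcon
      have : R ^ 2 < (u.length + 2) ^ 2 := Nat.pow_lt_pow_left (by omega) (by norm_num)
      omega
    exact orP_congr g (fun _ _ => rfl) hS (fun _ _ => rfl) (fun _ _ => rfl) u (by omega)
  rw [Fv_congr rfl hK]

/-- atoms of the last class are resolved by one query -/
theorem atom_dtp (g : Enum) (act : ℕ → Finset ℕ) (B : Oracle) (G0 : List Bool → Bool)
    {k N Λ : ℕ} (hN : 1 ≤ N) (Yx : List Bool → List Bool) (Vx : List Bool → ℕ) {h : ℕ} {a0 : At}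
    {s : Bool} (ha : okW g (N ^ 2) Λ h a0 s) :
    DTP Set.univ 1 (fun a => wld g act (join B (GX G0 k N a)) Yx Vx a0 = true) := by
  match a0 with
  | Sum.inr _ => exact ha.elim
  | Sum.inl [] =>
    refine (DTP.const 1 False).congr (fun a => ?_)
    show False ↔ orP g act _ Yx Vx [] = true
    rw [orP_nil]
    simp
  | Sum.inl [false] =>
    refine (DTP.const 1 False).congr (fun a => ?_)
    show False ↔ orP g act _ Yx Vx [false] = true
    rw [orP_false]
    simp [join]
  | Sum.inl (false :: false :: w) =>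
    refine (DTP.const 1 (B w = true)).congr (fun a => ?_)
    show B w = true ↔ orP g act _ Yx Vx (false :: false :: w) = true
    rw [orP_false]
    rfl
  | Sum.inl (false :: true :: w) =>
    refine (GX_dtp G0 k N w).congr (fun a => ?_)
    show GX G0 k N a w = true ↔ orP g act _ Yx Vx (false :: true :: w) = true
    rw [orP_false]
    rfl
  | Sum.inl (true :: w) =>
    refine (DTP.const 1 (orP g act (join B (GX G0 k N (fun _ => false))) Yx Vx
      (true :: w) = true)).congr (fun a => ?_)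
    show _ ↔ orP g act _ Yx Vx (true :: w) = true
    rw [low_const (R := N) (S := join B (GX G0 k N (fun _ => false)))
      (S' := join B (GX G0 k N a)) (fun v hv => ?_) ha.2.2]
    match v with
    | [] => rfl
    | false :: v => rfl
    | true :: v =>
      show GX G0 k N (fun _ => false) v = GX G0 k N a v
      unfold GX
      have : v.length ≠ (k + 2) * N := by
        rw [List.length_cons] at hv
        nlinarith
      rw [if_neg this, if_neg this]

/-- **The diagonalisation step.** -/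
theorem step_post : StepProp := by
  intro g B act E n₀ D hact hTot d
  obtain ⟨k, p, q, T⟩ := d
  -- parameters
  set Λp : Polynomial ℕ := Polynomial.C 4 * Polynomial.X +
    Polynomial.C k * q.comp (Polynomial.C 4 * Polynomial.X) +
    T.comp (Polynomial.C 4 * Polynomial.X + Polynomial.C k *
      q.comp (Polynomial.C 4 * Polynomial.X)) with hΛp
  obtain ⟨J, hJ⟩ := poly_le_pow Λp
  obtain ⟨L, hLdef⟩ : ∃ L, L = J + k + 10 := ⟨_, rfl⟩
  set P0p : Polynomial ℕ := Λp + Polynomial.C (k + L + 7) with hP0p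
  set P1p : Polynomial ℕ := P0p ^ (ELp (k + 1) ^ J) with hP1p
  set big : Polynomial ℕ := P1p ^ 9 * Polynomial.C (2 ^ L) +
    Polynomial.C ((k + 1) * 2 ^ (2 * k + 8)) * P1p +
    Polynomial.C (k + 1) * (Polynomial.C 4 * Polynomial.X) + Polynomial.C 3 with hbig
  obtain ⟨μ, hμ1, hμ2⟩ := exists_large big (n₀ + 1)
  obtain ⟨N, hN⟩ : ∃ N, N = 4 * μ := ⟨_, rfl⟩
  obtain ⟨qN, hqN⟩ : ∃ qN, qN = q.eval N := ⟨_, rfl⟩
  obtain ⟨t, ht⟩ : ∃ t, t = T.eval (N + k * qN) := ⟨_, rfl⟩
  obtain ⟨Λ, hΛ⟩ : ∃ Λ, Λ = N + k * qN + t := ⟨_, rfl⟩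
  obtain ⟨P0, hP0⟩ : ∃ P0, P0 = Λ + (k + L + 7) := ⟨_, rfl⟩
  obtain ⟨P1, hP1⟩ : ∃ P1, P1 = P0 ^ (ELp (k + 1) ^ J) := ⟨_, rfl⟩
  have hΛe : Λp.eval μ = Λ := by
    rw [hΛp, hΛ, ht, hqN, hN]
    simp
  have hP0e : P0p.eval μ = P0 := by
    rw [hP0p, hP0, ← hΛe]
    simp
  have hP1e : P1p.eval μ = P1 := by
    rw [hP1p, hP1, Polynomial.eval_pow, hP0e]
  have hbige : big.eval μ = P1 ^ 9 * 2 ^ L + ((k + 1) * 2 ^ (2 * k + 8)) * P1 +
      (k + 1) * N + 3 := by
    rw [hbig, hN, ← hP1e]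
    simp
  rw [hbige] at hμ2
  have hN1 : 1 ≤ N := by omega
  have hΛthr : Λ ≤ thr N J := by
    calc Λ = Λp.eval μ := hΛe.symm
      _ ≤ (μ + 2) ^ 2 ^ J := hJ μ
      _ ≤ N ^ 2 ^ J := Nat.pow_le_pow_left (by omega) _
      _ ≤ N ^ 2 ^ (J + 1) :=
          Nat.pow_le_pow_right hN1 (Nat.pow_le_pow_right (by norm_num) (by omega))
  -- the input and the formula of the machine
  set x : List Bool := List.replicate N true with hx
  have hxl : x.length = N := by rw [hx, List.length_replicate]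
  set F : (At → Bool) → Prop := fun ω => Pool.Agent.H9.Alt false k qN (fun ws =>
    ¬ AcceptsIn (fun v => ω (Sum.inl v)) p (x :: ws) t) with hF
  have hdtp : ∀ ws : List (List Bool), ws.map List.length = List.replicate k qN →
      DTP {a : At | ∃ v : List Bool, a = Sum.inl v ∧ v.length ≤ Λ} t
        (fun ω : At → Bool => ¬ AcceptsIn (fun v => ω (Sum.inl v)) p (x :: ws) t) := by
    intro ws hws
    have h1 := (Pool.Agent.H9.dtp_acceptsIn p (x :: ws) t Λ (by
        rw [totalLength_cons_of hws, hxl, hΛ])).comp (m := 1)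
      (R := {a : At | ∃ v : List Bool, a = Sum.inl v ∧ v.length ≤ Λ})
      (fun (ω : At → Bool) v => ω (Sum.inl v)) (by
        intro v hv
        exact DTP.var _ ⟨v, rfl, hv⟩)
    rw [mul_one] at h1
    exact h1.not
  have hFcl : Cl (okW g (thr N J) Λ) P0 (2 ^ P0) (k + 1) F := by
    have h1 := (alt_cl (ok := okW g (thr N J) Λ)
      (Q := {a : At | ∃ v : List Bool, a = Sum.inl v ∧ v.length ≤ Λ}) (by
        rintro a ⟨v, rfl, hv⟩ s
        exact ⟨rfl, hv, low_of_short (hv.trans hΛthr)⟩) qN t k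
      (fun ws (ω : At → Bool) => ¬ AcceptsIn (fun v => ω (Sum.inl v)) p (x :: ws) t) hdtp).1
      (k + 1) le_rfl
    refine h1.mono (fun _ _ _ h => h) (by omega) ?_
    have h2 : (2 ^ qN + 1) ^ k ≤ 2 ^ (k * qN + k) := by
      have h3 : 2 ^ qN + 1 ≤ 2 ^ (qN + 1) := by
        have : 1 ≤ 2 ^ qN := Nat.one_le_two_pow
        rw [pow_succ]
        omega
      calc (2 ^ qN + 1) ^ k ≤ (2 ^ (qN + 1)) ^ k := Nat.pow_le_pow_left h3 _
        _ = 2 ^ (k * qN + k) := by
            rw [← pow_mul]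
            congr 1
            ring
    calc 2 ^ t * (2 ^ qN + 1) ^ k ≤ 2 ^ t * 2 ^ (k * qN + k) := Nat.mul_le_mul_left _ h2
      _ = 2 ^ (t + (k * qN + k)) := by rw [← pow_add]
      _ ≤ 2 ^ P0 := Nat.pow_le_pow_right (by norm_num) (by omega)
  -- the data
  set G0 : List Bool → Bool := fun w => (D w).1 with hG0
  set Y0 : List Bool → List Bool := fun w => (D w).2.1 with hY0
  set V0 : List Bool → ℕ := fun w => (D w).2.2 with hV0
  have hagree : ∀ (a : List (List Bool) → Bool) (Y : Bk N Λ → Str μ) (V : Bk N Λ → Dice μ)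
      (w : List Bool), w.length < n₀ →
      ((GX G0 k N a w, extY Y0 Y w, extV V0 V w) : Bool × List Bool × ℕ) = D w := by
    intro a Y V w hw
    have h1 : w.length ≠ (k + 2) * N := by
      have : N ≤ (k + 2) * N := Nat.le_mul_of_pos_left _ (by omega)
      omega
    have h2 : ¬ (N < w.length ∧ w.length ≤ Λ) := by omega
    refine Prod.ext ?_ (Prod.ext ?_ ?_)
    · show GX G0 k N a w = (D w).1
      unfold GX
      rw [if_neg h1]
    · show extY Y0 Y w = (D w).2.1
      unfold extY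
      rw [dif_neg h2]
    · show extV V0 V w = (D w).2.2
      unfold extV
      rw [dif_neg h2]
  have hleg : Leg g act (fun a => join B (GX G0 k N a)) Y0 V0 N Λ μ := by
    intro a Y V c hc hcE
    have hcE' : c.1 ∈ E := by
      rw [← hact c.2.2 (by omega)]
      exact hcE
    exact hTot (fun w => (GX G0 k N a w, extY Y0 Y w, extV V0 V w)) (hagree a Y V) c.1 hcE' c.2.1
  -- elimination
  obtain ⟨f', hf1, hf2⟩ := layersP (g := g) (act := act) (S := fun a => join B (GX G0 k N a))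
    (Y0 := Y0) (V0 := V0) (R := N) (Λ := Λ) (lam := μ) hleg hN1 (by nlinarith) (L := L)
    (k := k + 1) (by omega) J (P := P0) (by omega) (by omega) (by omega) (by omega)
    (fun _ _ => F) (fun _ _ => hFcl) (fun _ _ _ _ _ _ => rfl) (by
      rw [← hP1]
      omega)
  rw [← hP1] at hf1
  -- hierarchy
  have hP01 : 1 ≤ P0 := by omega
  have hP11 : 1 ≤ P1 := by
    rw [hP1]
    exact Nat.one_le_pow _ _ hP01
  have hlev : ∀ z : (Bk N Λ → Str μ) × (Bk N Λ → Dice μ),
      Lev Set.univ P1 ((k + 1) * P1) (!true) (k + 1)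
      (fun a => ¬ f' z.1 z.2 (wld g act (join B (GX G0 k N a)) (extY Y0 z.1)
        (extV V0 z.2))) := by
    intro z
    exact (lev_of_cl (q := P1) (H := k + 1) le_rfl
      (fun a => wld g act (join B (GX G0 k N a)) (extY Y0 z.1) (extV V0 z.2))
      (fun h a0 s _ _ ha => atom_dtp g act B G0 hN1 (extY Y0 z.1) (extV V0 z.2) ha)
      (hf1 z.1 z.2) le_rfl).not
  obtain ⟨a, ha⟩ := hier_lev (q := P1) (T := (k + 1) * P1) (μ := μ) (B := (k + 1) * N) k
    (by omega) (Nat.le_mul_of_pos_left _ (by omega)) hP11 (by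
      have : (k + 1) * P1 * 2 ^ (2 * k + 8) = ((k + 1) * 2 ^ (2 * k + 8)) * P1 := by ring
      omega) true (List.replicate (k + 1) N) (by simp) (by
      intro y hy
      rw [List.eq_of_mem_replicate hy, hN]) (by
      rw [List.sum_replicate, smul_eq_mul])
    (Ω := (Bk N Λ → Str μ) × (Bk N Λ → Dice μ))
    (fun z a => ¬ f' z.1 z.2 (wld g act (join B (GX G0 k N a)) (extY Y0 z.1)
      (extV V0 z.2))) hlev
  -- a good hidden function
  have hsmall : (J : ℝ) * ((((k + 1 : ℕ) : ℝ) + 2) * (2 * (1 / 2 : ℝ) ^ L)) < 1 / 4 := by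
    have h1 : (J : ℝ) ≤ 2 ^ J := by exact_mod_cast Nat.lt_two_pow_self.le
    have h2 : ((k + 1 : ℕ) : ℝ) + 2 ≤ 2 ^ (k + 3) := by
      have : k + 3 < 2 ^ (k + 3) := Nat.lt_two_pow_self
      have h3 : ((k + 3 : ℕ) : ℝ) ≤ 2 ^ (k + 3) := by exact_mod_cast this.le
      push_cast at h3 ⊢
      linarith
    have h3 : (2 : ℝ) ^ (J + k + 3) * (1 / 2 : ℝ) ^ (J + k + 3) = 1 := by
      rw [← mul_pow]
      norm_num
    calc (J : ℝ) * ((((k + 1 : ℕ) : ℝ) + 2) * (2 * (1 / 2 : ℝ) ^ L))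
        ≤ 2 ^ J * (2 ^ (k + 3) * (2 * (1 / 2 : ℝ) ^ L)) := by gcongr
      _ = ((2 : ℝ) ^ (J + k + 3) * (1 / 2 : ℝ) ^ (J + k + 3)) * (2 * (1 / 2) ^ 7) := by
          rw [hLdef, show J + k + 10 = (J + k + 3) + 7 by ring, pow_add (1 / 2 : ℝ) (J + k + 3) 7,
            show J + k + 3 = J + (k + 3) by ring, pow_add (2 : ℝ) J (k + 3)]
          ring
      _ = 2 * (1 / 2) ^ 7 := by rw [h3, one_mul]
      _ < 1 / 4 := by norm_num
  obtain ⟨z, hz1, hz2⟩ : ∃ z : (Bk N Λ → Str μ) × (Bk N Λ → Dice μ),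
      (F (wld g act (join B (GX G0 k N a)) (extY Y0 z.1) (extV V0 z.2)) ↔
        f' z.1 z.2 (wld g act (join B (GX G0 k N a)) (extY Y0 z.1) (extV V0 z.2))) ∧
      ¬ (AltL true (List.replicate (k + 1) N) (fun us => a us = true) ↔
        ¬ f' z.1 z.2 (wld g act (join B (GX G0 k N a)) (extY Y0 z.1) (extV V0 z.2))) := by
    by_contra hcon
    push Not at hcon
    have h1 := hf2 a
    have h2 := pr_mono (Ω := (Bk N Λ → Str μ) × (Bk N Λ → Dice μ))
      (P := fun z => ¬ (AltL true (List.replicate (k + 1) N) (fun us => a us = true) ↔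
        ¬ f' z.1 z.2 (wld g act (join B (GX G0 k N a)) (extY Y0 z.1) (extV V0 z.2))))
      (Q := fun z => ¬ (F (wld g act (join B (GX G0 k N a)) (extY Y0 z.1) (extV V0 z.2)) ↔
        f' z.1 z.2 (wld g act (join B (GX G0 k N a)) (extY Y0 z.1) (extV V0 z.2)))) (by
        intro z hz hiff
        exact hz (hcon z hiff))
    linarith
  -- the condition
  refine ⟨fun w => (GX G0 k N a w, extY Y0 z.1 w, extV V0 z.2 w), N,
    hagree a z.1 z.2, ?_⟩
  unfold Fails
  simp only
  rw [← hqN, ← ht, ← hx]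
  have hor : orD g act B (fun w => (GX G0 k N a w, extY Y0 z.1 w, extV V0 z.2 w)) =
      orP g act (join B (GX G0 k N a)) (extY Y0 z.1) (extV V0 z.2) := rfl
  rw [hor]
  have e1 : Pool.Agent.H9.Alt true (k + 1) N (fun us =>
      orP g act (join B (GX G0 k N a)) (extY Y0 z.1) (extV V0 z.2)
        (false :: true :: hword x us) = true) ↔
      AltL true (List.replicate (k + 1) N) (fun us => a us = true) := by
    rw [Alt_eq]
    apply AltL_congr
    intro us hus
    rw [orP_false]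
    show GX G0 k N a (hword x us) = true ↔ _
    rw [GX_apply G0 k N a hxl hus]
  have e2 : Pool.Agent.H9.Alt true k qN (fun ws =>
      AcceptsIn (orP g act (join B (GX G0 k N a)) (extY Y0 z.1) (extV V0 z.2)) p
        (x :: ws) t) ↔
      ¬ F (wld g act (join B (GX G0 k N a)) (extY Y0 z.1) (extV V0 z.2)) := by
    rw [hF]
    simp only
    rw [alt9_not]
    simp only [not_not]
    exact Iff.rfl
  rw [e1, e2, hz1]
  exact hz2

end Pool.Agent.H8p
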