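import Pool.Agent.H8.Switch
import Pool.Agent.H8.Pr

set_option autoImplicit false
set_option linter.unusedSectionVars false

/-!
# The counting lemma for hidden thresholds

Every block `b` has a hidden number `x b`. A term is a set of pairs `(b, n)`; it is valid if
`n ≤ 2 x b + 1` for all its pairs, and it is hit at the blocks `b` with `(b, 2 x b + 1)` in the
term, among the blocks of a set `β`.
-/

namespace Pool.Agent.H8p

open Finset
open Pool.Agent.H8h (pr pr_eq pr_mono pr_or pr_congr pr_exists pr_piecewise pr_nonneg)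
open Pool.Agent.H8 (first_unique first_nondead)

section

variable {B : Type} [DecidableEq B]

/-- the term is valid -/
def Vld (x : B → ℕ) (T : Finset (B × ℕ)) : Prop := ∀ z ∈ T, z.2 ≤ 2 * x z.1 + 1

/-- the blocks at which the term is hit -/
def hit (β : Finset B) (x : B → ℕ) (T : Finset (B × ℕ)) : Finset B :=
  (T.filter (fun z => z.2 = 2 * x z.1 + 1 ∧ z.1 ∈ β)).image Prod.fst

/-- the blocks of a term -/
def bls (T : Finset (B × ℕ)) : Finset B := T.image Prod.fst

theorem mem_hit {β : Finset B} {x : B → ℕ} {T : Finset (B × ℕ)} {b : B} :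
    b ∈ hit β x T ↔ (b, 2 * x b + 1) ∈ T ∧ b ∈ β := by
  unfold hit
  rw [Finset.mem_image]
  constructor
  · rintro ⟨⟨b', n⟩, h, rfl⟩
    rw [Finset.mem_filter] at h
    obtain ⟨h1, h2, h3⟩ := h
    simp only at h2 h3 ⊢
    rw [← h2]
    exact ⟨h1, h3⟩
  · rintro ⟨h1, h2⟩
    exact ⟨(b, 2 * x b + 1), Finset.mem_filter.2 ⟨h1, rfl, h2⟩, rfl⟩

theorem hit_subset (β : Finset B) (x : B → ℕ) (T : Finset (B × ℕ)) : hit β x T ⊆ bls T := by
  intro b hb
  rw [mem_hit] at hb
  exact Finset.mem_image.2 ⟨_, hb.1, rfl⟩

/-- a greedy run: always the first valid term not hit in the current set of blocks; the new blocks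
are recorded -/
inductive RunT (β : Finset B) (l : List (Finset (B × ℕ))) (x : B → ℕ) :
    Finset B → List (Finset B) → Prop
  | nil (K : Finset B) : RunT β l x K []
  | cons {K : Finset B} {l1 l2 : List (Finset (B × ℕ))} {T : Finset (B × ℕ)}
      {L : List (Finset B)} :
      l = l1 ++ T :: l2 → (∀ T' ∈ l1, Vld x T' → ¬ Disjoint (hit β x T') K) → Vld x T →
      Disjoint (hit β x T) K → RunT β l x (K ∪ bls T) L → RunT β l x K ((bls T \ K) :: L)

/-- the amount by which a block is raised -/
def raise : List (Finset B) → List ℕ → B → ℕ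
  | D :: L, s :: ss, b => if b ∈ D then s else raise L ss b
  | _, _, _ => 0

theorem raise_le (b : B) : ∀ (L : List (Finset B)) (ss : List ℕ) (m : ℕ), (∀ s ∈ ss, s ≤ m) →
    raise L ss b ≤ m := by
  intro L
  induction L with
  | nil => intro ss m _; cases ss <;> exact Nat.zero_le _
  | cons D L ih =>
    intro ss m h
    cases ss with
    | nil => exact Nat.zero_le _
    | cons s ss =>
      simp only [raise]
      split_ifs
      · exact h s List.mem_cons_self
      · exact ih ss m (fun s' hs' => h s' (List.mem_cons_of_mem _ hs'))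

/-- The heart of the decoding: comparison of the first raise. -/
theorem first_le {β : Finset B} {x x' : B → ℕ} {K : Finset B}
    {T : Finset (B × ℕ)} {L L' : List (Finset B)} {s s' : ℕ} {ss ss' : List ℕ}
    (hT : Vld x T) (hd : Disjoint (hit β x T) K)
    (hall : Vld x' T → (hit β x' T).Nonempty)
    (hK : ∀ b ∈ K, x b = x' b)
    (hs' : ∀ t ∈ ss', t ≤ s')
    (hu : ∀ b, b ∉ K → x b + raise ((bls T \ K) :: L) (s :: ss) b =
      x' b + raise L' (s' :: ss') b) :
    s ≤ s' ∧ (¬ Vld x' T → s < s') := by
  have hr : ∀ b, raise L' (s' :: ss') b ≤ s' := by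
    intro b
    apply raise_le
    intro t ht
    rcases List.mem_cons.1 ht with rfl | ht
    · exact le_rfl
    · exact hs' t ht
  have hfirst : ∀ b, b ∉ K → b ∈ bls T → x b + s ≤ x' b + s' := by
    intro b hbK hbT
    have h1 := hu b hbK
    have h2 : raise ((bls T \ K) :: L) (s :: ss) b = s := by
      simp only [raise]
      rw [if_pos (Finset.mem_sdiff.2 ⟨hbT, hbK⟩)]
    rw [h2] at h1
    have := hr b
    omega
  by_cases hv : Vld x' T
  · refine ⟨?_, fun h => absurd hv h⟩
    obtain ⟨b, hb⟩ := hall hv
    have hb' := mem_hit.1 hb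
    have hbK : b ∉ K := by
      intro hbK
      have h1 : b ∈ hit β x T := by
        rw [mem_hit, hK b hbK]
        exact hb'
      exact Finset.disjoint_left.1 hd h1 hbK
    have h1 := hfirst b hbK (hit_subset _ _ _ hb)
    have h2 := hT _ hb'.1
    simp only at h2
    omega
  · have hlt : s < s' := by
      unfold Vld at hv
      push Not at hv
      obtain ⟨⟨b, n⟩, hz, hlt⟩ := hv
      simp only at hlt
      have h2 := hT _ hz
      simp only at h2
      have hbK : b ∉ K := by
        intro hbK
        have := hK b hbK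
        omega
      have h1 := hfirst b hbK (Finset.mem_image.2 ⟨_, hz, rfl⟩)
      omega
    exact ⟨hlt.le, fun _ => hlt⟩

/-- **Decoding.** -/
theorem run_inj {β : Finset B} {l : List (Finset (B × ℕ))} {x x' : B → ℕ}
    (hall : ∀ T ∈ l, Vld x T → (hit β x T).Nonempty)
    (hall' : ∀ T ∈ l, Vld x' T → (hit β x' T).Nonempty) :
    ∀ (L L' : List (Finset B)) (ss ss' : List ℕ) (K : Finset B),
      L.length = L'.length → ss.length = L.length → ss'.length = L'.length →
      ss.Pairwise (fun a b => b ≤ a) → ss'.Pairwise (fun a b => b ≤ a) →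
      RunT β l x K L → RunT β l x' K L' → (∀ b ∈ K, x b = x' b) →
      (∀ b, b ∉ K → x b + raise L ss b = x' b + raise L' ss' b) → ss = ss' ∧ x = x' := by
  intro L
  induction L with
  | nil =>
    intro L' ss ss' K h1 h2 h3 _ _ _ _ h6 h7
    have e1 : L' = [] := List.length_eq_zero_iff.1 h1.symm
    subst e1
    have e2 : ss = [] := List.length_eq_zero_iff.1 h2
    have e3 : ss' = [] := List.length_eq_zero_iff.1 h3
    subst e2 e3
    refine ⟨rfl, ?_⟩
    funext b
    by_cases hb : b ∈ K
    · exact h6 b hb
    · have := h7 b hb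
      simpa [raise] using this
  | cons D L ih =>
    intro L' ss ss' K h1 h2 h3 hp hp' hr hr' h6 h7
    cases L' with
    | nil => simp at h1
    | cons D' L' =>
    cases ss with
    | nil => simp at h2
    | cons s ss =>
    cases ss' with
    | nil => simp at h3
    | cons s' ss' =>
    rw [List.pairwise_cons] at hp hp'
    cases hr with
    | @cons _ l1 l2 T _ a1 a2 a3 a4 a5 =>
    cases hr' with
    | @cons _ l1' l2' T' _ a1' a2' a3' a4' a5' =>
    have hTl : T ∈ l := by rw [a1]; simp
    have hTl' : T' ∈ l := by rw [a1']; simp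
    obtain ⟨g1, g2⟩ := first_le (L := L) (L' := (bls T' \ K) :: L') (s := s) (s' := s')
      (ss := ss) (ss' := ss') a3 a4 (hall' T hTl) h6 hp'.1 h7
    obtain ⟨g1', g2'⟩ := first_le (L := L') (L' := (bls T \ K) :: L) (s := s') (s' := s)
      (ss := ss') (ss' := ss) a3' a4' (hall T' hTl') (fun b hb => (h6 b hb).symm) hp.1
      (fun b hb => (h7 b hb).symm)
    have hss : s = s' := le_antisymm g1 g1'
    have hv' : Vld x' T := by
      by_contra hcon
      have := g2 hcon
      omega
    have hv : Vld x T' := by
      by_contra hcon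
      have := g2' hcon
      omega
    have hhit : ∀ T'' : Finset (B × ℕ), Disjoint (hit β x T'') K ↔
        Disjoint (hit β x' T'') K := by
      intro T''
      rw [Finset.disjoint_left, Finset.disjoint_left]
      constructor
      · intro h b hb hbK
        apply h _ hbK
        rw [mem_hit] at hb ⊢
        rw [h6 b hbK]
        exact hb
      · intro h b hb hbK
        apply h _ hbK
        rw [mem_hit] at hb ⊢
        rw [← h6 b hbK]
        exact hb
    have hTT : T = T' := first_unique
      (fun T'' => Vld x T'' ∧ Vld x' T'' ∧ Disjoint (hit β x T'') K) a1 a1'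
      (fun T'' hT'' h => a2 T'' hT'' h.1 h.2.2) ⟨a3, hv', a4⟩
      (fun T'' hT'' h => a2' T'' hT'' h.2.1 ((hhit T'').1 h.2.2))
      ⟨hv, a3', (hhit T').2 a4'⟩
    subst hTT
    subst hss
    have hxB : ∀ b ∈ K ∪ bls T, x b = x' b := by
      intro b hb
      by_cases hbK : b ∈ K
      · exact h6 b hbK
      · have hbT : b ∈ bls T := by
          rcases Finset.mem_union.1 hb with h | h
          · exact absurd h hbK
          · exact h
        have h8 := h7 b hbK
        simp only [raise] at h8
        rw [if_pos (Finset.mem_sdiff.2 ⟨hbT, hbK⟩), if_pos (Finset.mem_sdiff.2 ⟨hbT, hbK⟩)] at h8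
        omega
    obtain ⟨e1, e2⟩ := ih L' ss ss' (K ∪ bls T) (by simpa using h1) (by simpa using h2)
      (by simpa using h3) hp.2 hp'.2 a5 a5' hxB (by
        intro b hb
        rw [Finset.mem_union] at hb
        push Not at hb
        have h8 := h7 b hb.1
        simp only [raise] at h8
        rw [if_neg (fun h => hb.2 (Finset.mem_sdiff.1 h).1),
          if_neg (fun h => hb.2 (Finset.mem_sdiff.1 h).1)] at h8
        exact h8)
    exact ⟨by rw [e1], e2⟩

/-- Without a run of length `r` there is a small set of blocks meeting all the sets of hits. -/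
theorem run_stop (β : Finset B) (l : List (Finset (B × ℕ))) (P : ℕ) (hl : ∀ T ∈ l, T.card ≤ P)
    (x : B → ℕ) :
    ∀ (r : ℕ) (K : Finset B), (¬ ∃ L : List (Finset B), L.length = r ∧ RunT β l x K L) →
      ∃ K' : Finset B, K ⊆ K' ∧ K'.card ≤ K.card + P * r ∧
        ∀ T ∈ l, Vld x T → ¬ Disjoint (hit β x T) K' := by
  intro r
  induction r with
  | zero =>
    intro K h
    exact absurd ⟨[], rfl, RunT.nil K⟩ h
  | succ r ih =>
    intro K h
    rcases first_nondead (fun T => Vld x T → ¬ Disjoint (hit β x T) K) l with h1 |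
      ⟨l1, l2, T, h1, h2, h3⟩
    · exact ⟨K, Finset.Subset.refl _, by omega, h1⟩
    · push Not at h3
      obtain ⟨h3, h4⟩ := h3
      have hT : T ∈ l := by rw [h1]; simp
      obtain ⟨K', g1, g2, g3⟩ := ih (K ∪ bls T) (by
        rintro ⟨L, hL, hrun⟩
        exact h ⟨(bls T \ K) :: L, by simp [hL], RunT.cons h1 h2 h3 h4 hrun⟩)
      refine ⟨K', Finset.subset_union_left.trans g1, ?_, g3⟩
      have h5 : (bls T).card ≤ P := Finset.card_image_le.trans (hl T hT)
      have h6 := Finset.card_union_le K (bls T)
      calc K'.card ≤ (K ∪ bls T).card + P * r := g2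
        _ ≤ K.card + P + P * r := by omega
        _ = K.card + P * (r + 1) := by ring

/-- total raise -/
theorem raise_sum [Fintype B] {β : Finset B} {l : List (Finset (B × ℕ))} {P : ℕ}
    (hl : ∀ T ∈ l, T.card ≤ P) {x : B → ℕ} (m : ℕ) : ∀ {L : List (Finset B)} {K : Finset B}
    (ss : List ℕ), RunT β l x K L → (∀ s ∈ ss, s ≤ m) →
    ∑ b, raise L ss b ≤ L.length * (P * m) := by
  intro L K ss hr
  induction hr generalizing ss with
  | nil K =>
    intro _
    have : ∀ b : B, raise [] ss b = 0 := by
      intro b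
      cases ss <;> rfl
    simp [this]
  | @cons K l1 l2 T L h1 h2 h3 h4 h5 ih =>
    intro hs
    cases ss with
    | nil =>
      have : ∀ b : B, raise ((bls T \ K) :: L) [] b = 0 := fun b => rfl
      simp [this]
    | cons s ss =>
      have h6 := ih ss (fun t ht => hs t (List.mem_cons_of_mem _ ht))
      have hT : T ∈ l := by rw [h1]; simp
      have h7 : (bls T \ K).card ≤ P :=
        (Finset.card_le_card Finset.sdiff_subset).trans
          (Finset.card_image_le.trans (hl T hT))
      have h8 : ∑ b, raise ((bls T \ K) :: L) (s :: ss) b ≤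
          ∑ b, ((if b ∈ bls T \ K then s else 0) + raise L ss b) := by
        apply Finset.sum_le_sum
        intro b _
        simp only [raise]
        split_ifs <;> omega
      refine h8.trans ?_
      rw [Finset.sum_add_distrib]
      have h9 : ∑ b, (if b ∈ bls T \ K then s else 0) = (bls T \ K).card * s := by
        rw [Finset.sum_ite_mem, Finset.univ_inter, Finset.sum_const, smul_eq_mul]
      rw [h9, List.length_cons]
      have h10 : (bls T \ K).card * s ≤ P * m := Nat.mul_le_mul h7 (hs s List.mem_cons_self)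
      calc (bls T \ K).card * s + ∑ b, raise L ss b ≤ P * m + L.length * (P * m) :=
            Nat.add_le_add h10 h6
        _ = (L.length + 1) * (P * m) := by ring

end

/-! ### Lists of raises -/

/-- the lists of raises of length `r` -/
def SSq (S : ℕ) : ℕ → Finset (List ℕ)
  | 0 => {[]}
  | r + 1 => (Finset.Ico (r * S) ((r + 1) * S) ×ˢ SSq S r).image (fun z => z.1 :: z.2)

theorem card_SSq (S : ℕ) : ∀ r, (SSq S r).card = S ^ r := by
  intro r
  induction r with
  | zero => simp [SSq]
  | succ r ih =>
    unfold SSq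
    rw [Finset.card_image_of_injective, Finset.card_product, ih, Nat.card_Ico]
    · have : (r + 1) * S - r * S = S := by
        rw [Nat.add_mul, one_mul]
        omega
      rw [this, pow_succ, mul_comm]
    · rintro ⟨a, b⟩ ⟨a', b'⟩ h
      simp only [List.cons.injEq] at h
      exact Prod.ext h.1 h.2

theorem mem_SSq {S : ℕ} : ∀ {r : ℕ} {ss : List ℕ}, ss ∈ SSq S r →
    ss.length = r ∧ (∀ s ∈ ss, s < r * S) ∧ ss.Pairwise (fun a b => b ≤ a) := by
  intro r
  induction r with
  | zero =>
    intro ss h
    simp only [SSq, Finset.mem_singleton] at h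
    subst h
    simp
  | succ r ih =>
    intro ss h
    unfold SSq at h
    rw [Finset.mem_image] at h
    obtain ⟨⟨a, b⟩, h1, rfl⟩ := h
    rw [Finset.mem_product, Finset.mem_Ico] at h1
    obtain ⟨⟨h2, h3⟩, h4⟩ := h1
    obtain ⟨h5, h6, h7⟩ := ih h4
    simp only at h2 h3 h5 h6 h7 ⊢
    refine ⟨by simp [h5], ?_, ?_⟩
    · intro s hs
      rcases List.mem_cons.1 hs with rfl | hs
      · exact h3
      · have := h6 s hs
        have h8 : (r + 1) * S = r * S + S := by ring
        omega
    · rw [List.pairwise_cons]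
      refine ⟨?_, h7⟩
      intro s hs
      have := h6 s hs
      omega

end Pool.Agent.H8p
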