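import Pool.Agent.H8.Step2
import Pool.Agent.H8.Cls
import Pool.Agent.H8.VDef
import Pool.Agent.H9.Hidden

set_option autoImplicit false
set_option linter.unusedSectionVars false

/-!
# Worlds of the closure oracle and the classes of atoms
-/

namespace Pool.Agent.H8v

open Finset Classical
open Pool.Agent.H9 (Oracle Prog DTP AcceptsIn totalLength words mem_words card_words)
open Pool.Agent.H8u (Cd wrd hid hid_length bitv wrd_inj wrd_length bitv_cons
  totalLength_cons_of)
open Pool.Agent.H8h (pr pr_mono pr_or pr_congr pr_false Cl StepHyp step_all stage)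
open Pool.Agent.H8 (Str)

/-- Atoms: words of the oracle, and virtual words `(c, ys)`. -/
abbrev At := List Bool ⊕ (Cd × List (List Bool))

/-- the truth values of the atoms -/
noncomputable def wld (g : Enum) (S : Oracle) (Y : List Bool → List Bool) : At → Bool
  | Sum.inl v => orU g S Y v
  | Sum.inr (c, ys) => bitv (decide (KP g (orU g S Y) c)) Y c ys

/-- all blocks have the right length -/
def Prp (c : Cd) (ys : List (List Bool)) : Prop := ∀ y ∈ ys, y.length = c.2.2

/-- `v` is not the word of a code of size more than `R` -/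
def Low (g : Enum) (R : ℕ) (v : List Bool) : Prop :=
  ∀ (c : Cd) (ys : List (List Bool)), v = true :: wrd c ys → ys.length = dp g c → Prp c ys →
    c.2.2 ≤ R

/-- agreement of hidden functions at the codes of size at most `R` -/
def YAg (R : ℕ) (Y Y' : List Bool → List Bool) : Prop :=
  ∀ (c : Cd) (ys : List (List Bool)), c.2.2 ≤ R → Prp c ys → Y (wrd c ys) = Y' (wrd c ys)

theorem wrd_length_gt (c : Cd) (ys : List (List Bool)) : c.2.2 + 2 < (wrd c ys).length := by
  rw [wrd_length]
  omega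

theorem low_of_short {g : Enum} {R : ℕ} {v : List Bool} (h : v.length ≤ R) : Low g R v := by
  intro c ys hv _ _
  have := wrd_length_gt c ys
  rw [hv, List.length_cons] at h
  omega

theorem bitv_congr {F : Bool} {Y Y' : List Bool → List Bool} {c : Cd} : ∀ {ys : List (List Bool)},
    (∀ zs, zs <:+ ys → zs.length < ys.length → Y (wrd c zs) = Y' (wrd c zs)) →
    bitv F Y c ys = bitv F Y' c ys := by
  intro ys
  induction ys with
  | nil => intro _; rfl
  | cons y ys ih =>
    intro h
    have h1 := h ys (List.suffix_cons y ys) (by simp)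
    have h2 := ih (fun zs hz1 hz2 => h zs (hz1.trans (List.suffix_cons y ys)) (by
      rw [List.length_cons]; omega))
    have h3 : hid Y c.2.2 (wrd c ys) = hid Y' c.2.2 (wrd c ys) := by
      unfold hid
      rw [h1]
    simp only [bitv, h2, h3]

theorem Prp.suffix {c : Cd} {ys zs : List (List Bool)} (h : Prp c ys) (hz : zs <:+ ys) :
    Prp c zs := fun y hy => h y (hz.subset hy)

/-- The values at low words. -/
theorem orU_low {g : Enum} {S : Oracle} {R : ℕ} {Y Y' : List Bool → List Bool}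
    (h : YAg R Y Y') : ∀ (n : ℕ) (v : List Bool), v.length ≤ n → Low g R v →
      orU g S Y v = orU g S Y' v := by
  intro n
  induction n with
  | zero =>
    intro v hv _
    have : v = [] := List.length_eq_zero_iff.1 (by omega)
    subst this
    rw [orU_nil, orU_nil]
  | succ n ih =>
    intro v hv hlow
    match v with
    | [] => rw [orU_nil, orU_nil]
    | false :: w => rw [orU_false, orU_false]
    | true :: w =>
      rw [Bool.eq_iff_iff, orU_true, orU_true]
      apply exists_congr; intro c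
      apply exists_congr; intro ys
      apply and_congr_right; intro hw
      apply and_congr_right; intro hl
      apply and_congr_right; intro hp
      have hN : c.2.2 ≤ R := hlow c ys (by rw [hw]) hl hp
      have hK : KP g (orU g S Y) c ↔ KP g (orU g S Y') c := by
        apply kp_local
        intro u hu
        have h1 := wrd_length_gt c ys
        rw [← hw] at h1
        rw [List.length_cons] at hv
        have h2 : u.length ≤ c.2.2 := by nlinarith
        exact ih u (by omega) (low_of_short (h2.trans hN))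
      have hd : decide (KP g (orU g S Y) c) = decide (KP g (orU g S Y') c) := by
        by_cases hA : KP g (orU g S Y) c
        · have hA' := hK.1 hA
          simp [hA, hA']
        · have hA' : ¬ KP g (orU g S Y') c := fun h => hA (hK.2 h)
          simp [hA, hA']
      rw [hd, bitv_congr (fun zs hz _ => h c zs hN (Prp.suffix hp hz))]

theorem kp_low {g : Enum} {S : Oracle} {R : ℕ} {Y Y' : List Bool → List Bool}
    (h : YAg R Y Y') {c : Cd} (hc : c.2.2 ≤ R ^ 2) :
    decide (KP g (orU g S Y) c) = decide (KP g (orU g S Y') c) := by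
  have hK : KP g (orU g S Y) c ↔ KP g (orU g S Y') c := by
    apply kp_local
    intro u hu
    have h1 : u.length + 2 ≤ R := by
      by_contra hcon
      have : R ^ 2 < (u.length + 2) ^ 2 := Nat.pow_lt_pow_left (by omega) (by norm_num)
      omega
    exact orU_low h _ u le_rfl (low_of_short (by omega))
  by_cases hA : KP g (orU g S Y) c
  · have hA' := hK.1 hA
    simp [hA, hA']
  · have hA' : ¬ KP g (orU g S Y') c := fun h => hA (hK.2 h)
    simp [hA, hA']

/-! ### The hidden functions -/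

/-- the coordinates of the hidden function: words of length between `R` and `Λ` -/
abbrev Bk (R Λ : ℕ) := {v : List Bool // R < v.length ∧ v.length ≤ Λ}

noncomputable instance (R Λ : ℕ) : Fintype (Bk R Λ) :=
  Fintype.subtype ((words Λ).filter (fun v => R < v.length)) (by
    intro v
    rw [Finset.mem_filter, mem_words, and_comm])

theorem card_Bk (R Λ : ℕ) : Fintype.card (Bk R Λ) ≤ 2 ^ (Λ + 1) := by
  rw [Fintype.card_of_subtype ((words Λ).filter (fun v => R < v.length)) (by
    intro v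
    rw [Finset.mem_filter, mem_words, and_comm])]
  exact (Finset.card_filter_le _ _).trans (card_words Λ)

/-- the hidden function -/
noncomputable def extY {R Λ lam : ℕ} (Y0 : List Bool → List Bool) (Y : Bk R Λ → Str lam) :
    List Bool → List Bool :=
  fun v => if h : R < v.length ∧ v.length ≤ Λ then (Y ⟨v, h⟩).1 else Y0 v

theorem extY_eq {R Λ lam : ℕ} (Y0 : List Bool → List Bool) (Y : Bk R Λ → Str lam)
    {v : List Bool} (h : R < v.length ∧ v.length ≤ Λ) : extY Y0 Y v = (Y ⟨v, h⟩).1 := by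
  unfold extY
  rw [dif_pos h]

theorem extY_congr {R Λ lam : ℕ} (Y0 : List Bool → List Bool) {Y Y' : Bk R Λ → Str lam}
    {v : List Bool} (h : ∀ h : R < v.length ∧ v.length ≤ Λ, Y ⟨v, h⟩ = Y' ⟨v, h⟩) :
    extY Y0 Y v = extY Y0 Y' v := by
  unfold extY
  by_cases hv : R < v.length ∧ v.length ≤ Λ
  · rw [dif_pos hv, dif_pos hv, h hv]
  · rw [dif_neg hv, dif_neg hv]

/-- padding -/
def pad (Z : List Bool) (N : ℕ) : List Bool := (Z ++ List.replicate N false).take N

theorem pad_inj {lam N : ℕ} (h : lam ≤ N) {Z Z' : Str lam} (hZ : pad Z.1 N = pad Z'.1 N) :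
    Z = Z' := by
  apply Subtype.ext
  have h1 := congrArg (List.take lam) hZ
  unfold pad at h1
  rw [List.take_take, List.take_take, min_eq_left h] at h1
  have h2 : ∀ Z : Str lam, List.take lam (Z.1 ++ List.replicate N false) = Z.1 := by
    intro Z
    have := List.take_left (l₁ := Z.1) (l₂ := List.replicate N false)
    rw [Z.2] at this
    exact this
  rw [h2, h2] at h1
  exact h1

/-! ### The classes of atoms -/

/-- words which are low with respect to `R` -/
def okW (g : Enum) (R Λ : ℕ) : ℕ → At → Bool → Prop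
  | h, Sum.inl v, _ => h = 1 ∧ v.length ≤ Λ ∧ Low g R v
  | _, Sum.inr _, _ => False

/-- the atoms of the layer of the codes of size in `(R1, R2]` after `i` steps -/
def okS (g : Enum) (R1 R2 Λ i : ℕ) : ℕ → At → Bool → Prop
  | h, Sum.inl v, _ => h = 1 ∧ v.length ≤ Λ ∧ Low g R1 v
  | h, Sum.inr (c, ys), s => (R1 < c.2.2 ∧ c.2.2 ≤ R2) ∧ Prp c ys ∧ (wrd c ys).length ≤ Λ ∧
      ∃ ρ, ys.length + ρ = dp g c ∧ ((i = 0 ∧ ρ = 0 ∧ h = 1) ∨
        (1 ≤ i ∧ (ρ = i ∨ (ρ < i ∧ ys = [])) ∧ s = false ∧ (h = ρ ∨ h = ρ + 1)))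

/-- the child atoms of rank `i` with parents -/
def Chd (g : Enum) (R1 R2 Λ R i : ℕ) (c : Cd) (y : List Bool) (ys : List (List Bool)) : Prop :=
  (R1 < c.2.2 ∧ c.2.2 ≤ R2) ∧ Prp c (y :: ys) ∧ (y :: ys).length + i = dp g c ∧
    (R < (wrd c ys).length ∧ (wrd c ys).length ≤ Λ)

/-- the children of the step number `i` -/
noncomputable def chS (g : Enum) (R1 R2 Λ R lam i : ℕ) :
    At → Option (Bk R Λ × Option (Str lam))
  | Sum.inl _ => none
  | Sum.inr (_, []) => none
  | Sum.inr (c, y :: ys) => if h : Chd g R1 R2 Λ R i c y ys then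
      some (⟨wrd c ys, h.2.2.2⟩, if hz : ∃ Z : Str lam, pad Z.1 c.2.2 = y then some hz.choose
        else none) else none

theorem chS_cons (g : Enum) (R1 R2 Λ R lam i : ℕ) (c : Cd) (y : List Bool)
    (ys : List (List Bool)) : chS g R1 R2 Λ R lam i (Sum.inr (c, y :: ys)) =
      if h : Chd g R1 R2 Λ R i c y ys then
      some (⟨wrd c ys, h.2.2.2⟩, if hz : ∃ Z : Str lam, pad Z.1 c.2.2 = y then some hz.choose
        else none) else none := rfl

/-- the atom of a coordinate -/
noncomputable def embS (R Λ : ℕ) (b : Bk R Λ) : At :=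
  if h : ∃ z : Cd × List (List Bool), b.1 = wrd z.1 z.2 ∧ Prp z.1 z.2 then Sum.inr h.choose
  else Sum.inl []

theorem embS_eq {R Λ : ℕ} {b : Bk R Λ} {c : Cd} {ys : List (List Bool)} (hb : b.1 = wrd c ys)
    (hp : Prp c ys) : embS R Λ b = Sum.inr (c, ys) := by
  have h : ∃ z : Cd × List (List Bool), b.1 = wrd z.1 z.2 ∧ Prp z.1 z.2 := ⟨(c, ys), hb, hp⟩
  unfold embS
  rw [dif_pos h]
  have h1 := h.choose_spec
  have h2 : wrd h.choose.1 h.choose.2 = wrd c ys := by rw [← h1.1, hb]
  obtain ⟨e1, e2⟩ := wrd_inj h1.2 hp h2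
  exact congrArg Sum.inr (Prod.ext e1 e2)

/-- the coordinates of rank `i + 1` in the layer -/
noncomputable def CS (g : Enum) (R1 R2 R Λ i : ℕ) : Finset (Bk R Λ) :=
  Finset.univ.filter (fun b => ∃ (c : Cd) (ys : List (List Bool)), b.1 = wrd c ys ∧ Prp c ys ∧
    R1 < c.2.2 ∧ c.2.2 ≤ R2 ∧ ys.length + (i + 1) = dp g c)

/-- the revealed coordinates before the step `i` -/
noncomputable def RvS (g : Enum) (R1 R2 R Λ i : ℕ) : Finset (Bk R Λ) :=
  Finset.univ.filter (fun b => ∃ (c : Cd) (ys : List (List Bool)), b.1 = wrd c ys ∧ Prp c ys ∧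
    (R2 < c.2.2 ∨ (R1 < c.2.2 ∧ c.2.2 ≤ R2 ∧ ∃ ρ ≤ i, ys.length + ρ = dp g c)))

theorem mem_CS {g : Enum} {R1 R2 R Λ i : ℕ} {b : Bk R Λ} {c : Cd} {ys : List (List Bool)}
    (hb : b.1 = wrd c ys) (hp : Prp c ys) :
    b ∈ CS g R1 R2 R Λ i ↔ R1 < c.2.2 ∧ c.2.2 ≤ R2 ∧ ys.length + (i + 1) = dp g c := by
  unfold CS
  rw [Finset.mem_filter]
  constructor
  · rintro ⟨_, c', ys', h1, h2, h3⟩
    rw [hb] at h1
    obtain ⟨rfl, rfl⟩ := wrd_inj hp h2 h1
    exact h3
  · intro h
    exact ⟨Finset.mem_univ _, c, ys, hb, hp, h⟩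

theorem mem_RvS {g : Enum} {R1 R2 R Λ i : ℕ} {b : Bk R Λ} {c : Cd} {ys : List (List Bool)}
    (hb : b.1 = wrd c ys) (hp : Prp c ys) :
    b ∈ RvS g R1 R2 R Λ i ↔ (R2 < c.2.2 ∨ (R1 < c.2.2 ∧ c.2.2 ≤ R2 ∧
      ∃ ρ ≤ i, ys.length + ρ = dp g c)) := by
  unfold RvS
  rw [Finset.mem_filter]
  constructor
  · rintro ⟨_, c', ys', h1, h2, h3⟩
    rw [hb] at h1
    obtain ⟨rfl, rfl⟩ := wrd_inj hp h2 h1
    exact h3
  · intro h
    exact ⟨Finset.mem_univ _, c, ys, hb, hp, h⟩

theorem disj_RC (g : Enum) (R1 R2 R Λ i : ℕ) :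
    Disjoint (RvS g R1 R2 R Λ i) (CS g R1 R2 R Λ i) := by
  rw [Finset.disjoint_left]
  intro b h1 h2
  have h2' := h2
  unfold CS at h2
  rw [Finset.mem_filter] at h2
  obtain ⟨_, c, ys, hb, hp, h3, h4, h5⟩ := h2
  rw [mem_RvS hb hp] at h1
  rcases h1 with h1 | ⟨_, _, ρ, hρ, h6⟩
  · omega
  · omega

theorem RvS_succ (g : Enum) (R1 R2 R Λ i : ℕ) :
    RvS g R1 R2 R Λ i ∪ CS g R1 R2 R Λ i ⊆ RvS g R1 R2 R Λ (i + 1) := by
  intro b hb
  rcases Finset.mem_union.1 hb with hb | hb
  · unfold RvS at hb ⊢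
    rw [Finset.mem_filter] at hb ⊢
    obtain ⟨h0, c, ys, h1, h2, h3⟩ := hb
    refine ⟨h0, c, ys, h1, h2, ?_⟩
    rcases h3 with h3 | ⟨h3, h4, ρ, h5, h6⟩
    · exact Or.inl h3
    · exact Or.inr ⟨h3, h4, ρ, by omega, h6⟩
  · unfold CS at hb
    unfold RvS
    rw [Finset.mem_filter] at hb ⊢
    obtain ⟨h0, c, ys, h1, h2, h3, h4, h5⟩ := hb
    exact ⟨h0, c, ys, h1, h2, Or.inr ⟨h3, h4, i + 1, le_rfl, h5⟩⟩

/-- The hypotheses of the step `i`. -/
theorem stepHyp (g : Enum) (hd : ∀ c, 1 ≤ dp g c) {R1 R2 Λ R lam i : ℕ} (hR : R ≤ R1) :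
    StepHyp (chS g R1 R2 Λ R lam i) (embS R Λ) (CS g R1 R2 R Λ i) (okS g R1 R2 Λ i)
      (okS g R1 R2 Λ (i + 1)) i where
  hC := by
    intro a b oj h
    match a with
    | Sum.inl _ => simp [chS] at h
    | Sum.inr (_, []) => simp [chS] at h
    | Sum.inr (c, y :: ys) =>
      rw [chS_cons] at h
      by_cases h1 : Chd g R1 R2 Λ R i c y ys
      swap
      · rw [dif_neg h1] at h
        simp at h
      rw [dif_pos h1, Option.some.injEq, Prod.mk.injEq] at h
      rw [← h.1]
      have hp : Prp c ys := h1.2.1.suffix (List.suffix_cons y ys)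
      rw [mem_CS rfl hp]
      have h2 := h1.2.2.1
      rw [List.length_cons] at h2
      exact ⟨h1.1.1, h1.1.2, by omega⟩
  hht := by
    intro h a s h1 h2 h3
    match a with
    | Sum.inl _ => simp [chS] at h3
    | Sum.inr (_, []) => simp [chS] at h3
    | Sum.inr (c, y :: ys) =>
      rw [chS_cons] at h3
      by_cases h4 : Chd g R1 R2 Λ R i c y ys
      · obtain ⟨_, _, _, ρ, h5, h6⟩ := h2
        have h7 := h4.2.2.1
        rcases h6 with ⟨_, h8, h9⟩ | ⟨_, h8, _, h9⟩
        · omega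
        · omega
      · rw [dif_neg h4] at h3
        exact absurd rfl h3
  hsg := by
    intro h a h1 h2
    match a with
    | Sum.inl _ => rfl
    | Sum.inr (c, ys) =>
      obtain ⟨_, _, _, ρ, _, h6⟩ := h2
      rcases h6 with ⟨h7, _⟩ | ⟨_, _, h7, _⟩
      · omega
      · exact absurd h7 (by simp)
  hok1 := by
    intro h a s h1 h2 h3
    match a with
    | Sum.inl _ => exact h2
    | Sum.inr (c, []) =>
      obtain ⟨e1, e2, e3, ρ, h5, h6⟩ := h2
      refine ⟨e1, e2, e3, ρ, h5, Or.inr ⟨by omega, ?_⟩⟩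
      rcases h6 with ⟨_, h7, _⟩ | ⟨_, h7, h8, h9⟩
      · exfalso
        have := hd c
        simp only [List.length_nil] at h5
        omega
      · exact ⟨Or.inr ⟨by omega, rfl⟩, h8, h9⟩
    | Sum.inr (c, y :: ys) =>
      obtain ⟨e1, e2, e3, ρ, h5, h6⟩ := h2
      exfalso
      have hρ : ρ = i := by
        rcases h6 with ⟨h6, h7, _⟩ | ⟨_, h7, h8, h9⟩
        · omega
        · rcases h7 with h7 | ⟨_, h7⟩
          · exact h7
          · exact absurd h7 (by simp)
      subst hρ
      have hlen := wrd_length_gt c ys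
      have hlen2 : (wrd c ys).length ≤ (wrd c (y :: ys)).length := by
        rw [wrd_length, wrd_length]
        simp
        omega
      have hchd : Chd g R1 R2 Λ R ρ c y ys := ⟨e1, e2, h5, by omega, by omega⟩
      rw [chS_cons] at h3
      rw [dif_pos hchd] at h3
      simp at h3
  hok2 := by
    intro h b hb hh
    unfold CS at hb
    rw [Finset.mem_filter] at hb
    obtain ⟨_, c, ys, h1, h2, h3, h4, h5⟩ := hb
    rw [embS_eq h1 h2]
    refine ⟨⟨h3, h4⟩, h2, ?_, i + 1, h5, Or.inr ⟨by omega, Or.inl rfl, rfl, by omega⟩⟩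
    rw [← h1]
    exact b.2.2

theorem yag_of_off {g : Enum} {R1 R2 R Λ lam i : ℕ} {Y0 : List Bool → List Bool}
    {Y Y' : Bk R Λ → Str lam} (h : ∀ b, b ∉ CS g R1 R2 R Λ i → Y b = Y' b) :
    YAg R1 (extY Y0 Y) (extY Y0 Y') := by
  intro c ys hc hp
  apply extY_congr
  intro hv
  apply h
  rw [mem_CS rfl hp]
  omega

/-- The new atoms do not depend on the coordinates of the step. -/
theorem wld_off {g : Enum} {S : Oracle} {R1 R2 R Λ lam i : ℕ} (h12 : R2 ≤ R1 ^ 2)
    {Y0 : List Bool → List Bool} {Y Y' : Bk R Λ → Str lam}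
    (h : ∀ b, b ∉ CS g R1 R2 R Λ i → Y b = Y' b) {ht : ℕ} {a : At} {s : Bool}
    (ha : okS g R1 R2 Λ (i + 1) ht a s) : wld g S (extY Y0 Y) a = wld g S (extY Y0 Y') a := by
  have hag := yag_of_off (Y0 := Y0) h
  match a with
  | Sum.inl v => exact orU_low hag _ v le_rfl ha.2.2
  | Sum.inr (c, ys) =>
    obtain ⟨⟨e1, e1'⟩, e2, e3, ρ, h5, h6⟩ := ha
    show bitv _ _ c ys = bitv _ _ c ys
    rw [kp_low hag (e1'.trans h12)]
    apply bitv_congr
    intro zs hz1 hz2
    apply extY_congr
    intro hv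
    apply h
    rw [mem_CS rfl (e2.suffix hz1)]
    rintro ⟨_, _, h7⟩
    rcases h6 with ⟨h8, _⟩ | ⟨_, h8 | ⟨_, h8⟩, _⟩
    · omega
    · omega
    · rw [h8] at hz2
      simp at hz2

/-- The recursion of the atoms. -/
theorem wld_child {g : Enum} {S : Oracle} {R1 R2 R Λ lam i : ℕ} (hlam : lam ≤ R1)
    {Y0 : List Bool → List Bool} {Y : Bk R Λ → Str lam} {a : At} {b : Bk R Λ}
    {oj : Option (Str lam)} (h : chS g R1 R2 Λ R lam i a = some (b, oj)) :
    wld g S (extY Y0 Y) a = true ↔
      oj = some (Y b) ∧ wld g S (extY Y0 Y) (embS R Λ b) = false := by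
  match a with
  | Sum.inl _ => simp [chS] at h
  | Sum.inr (_, []) => simp [chS] at h
  | Sum.inr (c, y :: ys) =>
    rw [chS_cons] at h
    by_cases h1 : Chd g R1 R2 Λ R i c y ys
    swap
    · rw [dif_neg h1] at h
      simp at h
    rw [dif_pos h1] at h
    by_cases h2 : ∃ Z : Str lam, pad Z.1 c.2.2 = y
    · rw [dif_pos h2, Option.some.injEq, Prod.mk.injEq] at h
      obtain ⟨h3, h4⟩ := h
      have hp : Prp c ys := h1.2.1.suffix (List.suffix_cons y ys)
      have hb : b.1 = wrd c ys := by rw [← h3]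
      rw [embS_eq hb hp]
      show bitv _ _ c (y :: ys) = true ↔ oj = some (Y b) ∧ bitv _ _ c ys = false
      rw [bitv_cons]
      apply and_congr_left
      intro _
      have hh : hid (extY Y0 Y) c.2.2 (wrd c ys) = pad (Y b).1 c.2.2 := by
        unfold hid pad
        rw [extY_eq Y0 Y h1.2.2.2, ← h3]
      rw [hh, ← h4, Option.some.injEq]
      have hN : lam ≤ c.2.2 := by have := h1.1.1; omega
      have h5 := h2.choose_spec
      constructor
      · intro h6
        exact pad_inj hN (h5.trans h6)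
      · intro h6
        rw [← h6]
        exact h5.symm
    · rw [dif_neg h2, Option.some.injEq, Prod.mk.injEq] at h
      obtain ⟨h3, h4⟩ := h
      show bitv _ _ c (y :: ys) = true ↔ _
      rw [bitv_cons]
      have hh : hid (extY Y0 Y) c.2.2 (wrd c ys) = pad (Y b).1 c.2.2 := by
        unfold hid pad
        rw [extY_eq Y0 Y h1.2.2.2, ← h3]
      rw [hh]
      constructor
      · rintro ⟨h6, _⟩
        exact absurd ⟨Y b, h6.symm⟩ h2
      · rintro ⟨h6, _⟩
        rw [← h4] at h6
        simp at h6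

end Pool.Agent.H8v
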