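import Pool.Agent.H8.Step2
import Pool.Agent.H8.Cls
import Pool.Agent.H8.PDef
import Pool.Agent.H8.VWorld
import Pool.Agent.H8.PNum
import Pool.Agent.H9.Hidden

set_option autoImplicit false
set_option linter.unusedSectionVars false

/-!
# Worlds of the oracle with threshold codes, and the classes of atoms
-/

namespace Pool.Agent.H8p

open Finset Classical
open Pool.Agent.H9 (Oracle Prog DTP AcceptsIn totalLength words mem_words card_words code
  code_length code_inj)
open Pool.Agent.H8u (Cd hid hid_length totalLength_cons_of)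
open Pool.Agent.H8h (pr pr_mono pr_or pr_congr pr_false Cl StepHyp step_all stage)
open Pool.Agent.H8 (Str)
open Pool.Agent.H8v (Bk card_Bk extY extY_eq extY_congr pad pad_inj)

/-- Atoms: words of the oracle, virtual cells `(q, ys)`, and the coded bits. -/
abbrev At := List Bool ⊕ ((Qd × List (List Bool)) ⊕ Cd)

/-- the word of a code -/
def cw (c : Cd) : List Bool := code c.1 c.2.1 c.2.2

theorem cw_inj {c c' : Cd} (h : cw c = cw c') : c = c' := by
  obtain ⟨h1, h2, h3⟩ := code_inj h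
  exact Prod.ext h1 (Prod.ext h2 h3)

theorem cw_length_gt (c : Cd) : c.2.2 + 1 < (cw c).length := by
  unfold cw
  rw [code_length]
  omega

/-- the truth values of the atoms -/
noncomputable def wld (g : Enum) (act : ℕ → Finset ℕ) (S : Oracle) (Y : List Bool → List Bool)
    (V : List Bool → ℕ) : At → Bool
  | Sum.inl v => orP g act S Y V v
  | Sum.inr (Sum.inl (q, ys)) => bitv (Fv g act V (orP g act S Y V) q) Y q ys
  | Sum.inr (Sum.inr c) => decide (bv g act (orP g act S Y V) c)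

/-- `v` is not a cell of size more than `R` -/
def Low (g : Enum) (R : ℕ) (v : List Bool) : Prop :=
  ∀ (q : Qd) (ys : List (List Bool)), v = true :: wd q ys → ys.length = dp g q.2 → Prp q ys →
    q.2.2.2 ≤ R

/-- agreement of hidden functions at the cells of size at most `R` -/
def YAg (R : ℕ) (Y Y' : List Bool → List Bool) : Prop :=
  ∀ (q : Qd) (ys : List (List Bool)), q.2.2.2 ≤ R → Prp q ys → Y (wd q ys) = Y' (wd q ys)

/-- agreement of hidden numbers at the codes of size at most `R` -/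
def VAg (R : ℕ) (V V' : List Bool → ℕ) : Prop := ∀ c : Cd, c.2.2 ≤ R → V (cw c) = V' (cw c)

theorem YAg.refl (R : ℕ) (Y : List Bool → List Bool) : YAg R Y Y := fun _ _ _ _ => rfl

theorem VAg.refl (R : ℕ) (V : List Bool → ℕ) : VAg R V V := fun _ _ => rfl

theorem low_of_short {g : Enum} {R : ℕ} {v : List Bool} (h : v.length ≤ R) : Low g R v := by
  intro q ys hv _ _
  have := wd_length_gt q ys
  rw [hv, List.length_cons] at h
  omega

theorem bitv_congr {F : Bool} {Y Y' : List Bool → List Bool} {q : Qd} : ∀ {ys : List (List Bool)},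
    (∀ zs, zs <:+ ys → zs.length < ys.length → Y (wd q zs) = Y' (wd q zs)) →
    bitv F Y q ys = bitv F Y' q ys := by
  intro ys
  induction ys with
  | nil => intro _; rfl
  | cons y ys ih =>
    intro h
    have h1 := h ys (List.suffix_cons y ys) (by simp)
    have h2 := ih (fun zs hz1 hz2 => h zs (hz1.trans (List.suffix_cons y ys)) (by
      rw [List.length_cons]; omega))
    have h3 : hid Y (zz q).length (wd q ys) = hid Y' (zz q).length (wd q ys) := by
      unfold hid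
      rw [h1]
    simp only [bitv, h2, h3]

theorem Prp.suffix {q : Qd} {ys zs : List (List Bool)} (h : Prp q ys) (hz : zs <:+ ys) :
    Prp q zs := ⟨h.1, fun y hy => h.2 y (hz.subset hy)⟩

/-- The values at low words. -/
theorem orP_low {g : Enum} {act : ℕ → Finset ℕ} {S : Oracle} {R : ℕ}
    {Y Y' : List Bool → List Bool} {V V' : List Bool → ℕ}
    (h : YAg R Y Y') (hV : VAg R V V') : ∀ (n : ℕ) (v : List Bool), v.length ≤ n → Low g R v →
      orP g act S Y V v = orP g act S Y' V' v := by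
  intro n
  induction n with
  | zero =>
    intro v hv _
    have : v = [] := List.length_eq_zero_iff.1 (by omega)
    subst this
    rw [orP_nil, orP_nil]
  | succ n ih =>
    intro v hv hlow
    match v with
    | [] => rw [orP_nil, orP_nil]
    | false :: w => rw [orP_false, orP_false]
    | true :: w =>
      rw [Bool.eq_iff_iff, orP_true, orP_true]
      apply exists_congr; intro q
      apply exists_congr; intro ys
      apply and_congr_right; intro hw
      apply and_congr_right; intro hl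
      apply and_congr_right; intro hp
      have hN : q.2.2.2 ≤ R := hlow q ys (by rw [hw]) hl hp
      have hK : bv g act (orP g act S Y V) q.2 ↔ bv g act (orP g act S Y' V') q.2 := by
        apply bv_local rfl
        intro u hu
        have h1 := wd_length_gt q ys
        rw [← hw] at h1
        rw [List.length_cons] at hv
        have h2 : u.length ≤ q.2.2.2 := by nlinarith
        exact ih u (by omega) (low_of_short (h2.trans hN))
      rw [Fv_congr (hV q.2 hN) hK, bitv_congr (fun zs hz _ => h q zs hN (hp.suffix hz))]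

theorem bv_low {g : Enum} {act : ℕ → Finset ℕ} {S : Oracle} {R : ℕ}
    {Y Y' : List Bool → List Bool} {V V' : List Bool → ℕ}
    (h : YAg R Y Y') (hV : VAg R V V') {c : Cd} (hc : c.2.2 ≤ R ^ 2) :
    bv g act (orP g act S Y V) c ↔ bv g act (orP g act S Y' V') c := by
  apply bv_local rfl
  intro u hu
  have h1 : u.length + 2 ≤ R := by
    by_contra hcon
    have : R ^ 2 < (u.length + 2) ^ 2 := Nat.pow_lt_pow_left (by omega) (by norm_num)
    omega
  exact orP_low h hV _ u le_rfl (low_of_short (by omega))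

/-- the hidden numbers -/
noncomputable def extV {R Λ lam : ℕ} (V0 : List Bool → ℕ) (V : Bk R Λ → Dice lam) :
    List Bool → ℕ :=
  fun v => if h : R < v.length ∧ v.length ≤ Λ then gv (V ⟨v, h⟩) else V0 v

theorem extV_eq {R Λ lam : ℕ} (V0 : List Bool → ℕ) (V : Bk R Λ → Dice lam)
    {v : List Bool} (h : R < v.length ∧ v.length ≤ Λ) : extV V0 V v = gv (V ⟨v, h⟩) := by
  unfold extV
  rw [dif_pos h]

theorem extV_congr {R Λ lam : ℕ} (V0 : List Bool → ℕ) {V V' : Bk R Λ → Dice lam}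
    {v : List Bool} (h : ∀ h : R < v.length ∧ v.length ≤ Λ, V ⟨v, h⟩ = V' ⟨v, h⟩) :
    extV V0 V v = extV V0 V' v := by
  unfold extV
  by_cases hv : R < v.length ∧ v.length ≤ Λ
  · rw [dif_pos hv, dif_pos hv, h hv]
  · rw [dif_neg hv, dif_neg hv]

/-! ### The classes of atoms -/

/-- words which are low with respect to `R` -/
def okW (g : Enum) (R Λ : ℕ) : ℕ → At → Bool → Prop
  | h, Sum.inl v, _ => h = 1 ∧ v.length ≤ Λ ∧ Low g R v
  | _, Sum.inr _, _ => False

/-- the atoms of the layer of the codes of size in `(R1, R2]` after `i` steps -/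
def okS (g : Enum) (R1 R2 Λ i : ℕ) : ℕ → At → Bool → Prop
  | h, Sum.inl v, _ => h = 1 ∧ v.length ≤ Λ ∧ Low g R1 v
  | h, Sum.inr (Sum.inl (q, ys)), s => (R1 < q.2.2.2 ∧ q.2.2.2 ≤ R2) ∧ Prp q ys ∧
      (wd q ys).length ≤ Λ ∧
      ∃ ρ, ys.length + ρ = dp g q.2 ∧ ((ρ = 0 ∧ h = 1 ∧ (i = 0 ∨ ys = [])) ∨
        (1 ≤ ρ ∧ (ρ = i ∨ (ρ < i ∧ ys = [])) ∧ s = false ∧ (h = ρ ∨ h = ρ + 1)))
  | _, Sum.inr (Sum.inr _), _ => False

/-- the atoms of the layer after the elimination of the thresholds -/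
def okT (g : Enum) (R1 R2 Λ : ℕ) : ℕ → At → Bool → Prop
  | h, Sum.inl v, _ => h = 1 ∧ v.length ≤ Λ ∧ Low g R1 v
  | _, Sum.inr (Sum.inl _), _ => False
  | h, Sum.inr (Sum.inr c), _ => (R1 < c.2.2 ∧ c.2.2 ≤ R2) ∧ (cw c).length ≤ Λ ∧
      h = dp g c + 1

/-- the child atoms of rank `i` with parents -/
def Chd (g : Enum) (R1 R2 Λ R i : ℕ) (q : Qd) (y : List Bool) (ys : List (List Bool)) : Prop :=
  (R1 < q.2.2.2 ∧ q.2.2.2 ≤ R2) ∧ Prp q (y :: ys) ∧ (y :: ys).length + i = dp g q.2 ∧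
    (R < (wd q ys).length ∧ (wd q ys).length ≤ Λ)

/-- the children of the step number `i` -/
noncomputable def chS (g : Enum) (R1 R2 Λ R lam i : ℕ) :
    At → Option (Bk R Λ × Option (Str lam))
  | Sum.inl _ => none
  | Sum.inr (Sum.inl (_, [])) => none
  | Sum.inr (Sum.inl (q, y :: ys)) => if h : Chd g R1 R2 Λ R i q y ys then
      some (⟨wd q ys, h.2.2.2⟩, if hz : ∃ Z : Str lam, pad Z.1 (zz q).length = y then
        some hz.choose else none) else none
  | Sum.inr (Sum.inr _) => none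

theorem chS_cons (g : Enum) (R1 R2 Λ R lam i : ℕ) (q : Qd) (y : List Bool)
    (ys : List (List Bool)) : chS g R1 R2 Λ R lam i (Sum.inr (Sum.inl (q, y :: ys))) =
      if h : Chd g R1 R2 Λ R i q y ys then
      some (⟨wd q ys, h.2.2.2⟩, if hz : ∃ Z : Str lam, pad Z.1 (zz q).length = y then
        some hz.choose else none) else none := rfl

/-- the atom of a coordinate -/
noncomputable def embS (R Λ : ℕ) (b : Bk R Λ) : At :=
  if h : ∃ z : Qd × List (List Bool), b.1 = wd z.1 z.2 ∧ Prp z.1 z.2 then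
    Sum.inr (Sum.inl h.choose)
  else Sum.inl []

theorem embS_eq {R Λ : ℕ} {b : Bk R Λ} {q : Qd} {ys : List (List Bool)} (hb : b.1 = wd q ys)
    (hp : Prp q ys) : embS R Λ b = Sum.inr (Sum.inl (q, ys)) := by
  have h : ∃ z : Qd × List (List Bool), b.1 = wd z.1 z.2 ∧ Prp z.1 z.2 := ⟨(q, ys), hb, hp⟩
  unfold embS
  rw [dif_pos h]
  have h1 := h.choose_spec
  have h2 : wd h.choose.1 h.choose.2 = wd q ys := by rw [← h1.1, hb]
  obtain ⟨e1, e2⟩ := wd_inj h1.2.2 hp.2 h2
  exact congrArg (fun z => Sum.inr (Sum.inl z)) (Prod.ext e1 e2)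

/-- the coordinates of rank `i + 1` in the layer -/
noncomputable def CS (g : Enum) (R1 R2 R Λ i : ℕ) : Finset (Bk R Λ) :=
  Finset.univ.filter (fun b => ∃ (q : Qd) (ys : List (List Bool)), b.1 = wd q ys ∧ Prp q ys ∧
    R1 < q.2.2.2 ∧ q.2.2.2 ≤ R2 ∧ ys.length + (i + 1) = dp g q.2)

/-- the revealed coordinates before the step `i` -/
noncomputable def RvS (g : Enum) (R1 R2 R Λ i : ℕ) : Finset (Bk R Λ) :=
  Finset.univ.filter (fun b => ∃ (q : Qd) (ys : List (List Bool)), b.1 = wd q ys ∧ Prp q ys ∧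
    (R2 < q.2.2.2 ∨ (R1 < q.2.2.2 ∧ q.2.2.2 ≤ R2 ∧ ∃ ρ ≤ i, ys.length + ρ = dp g q.2)))

theorem mem_CS {g : Enum} {R1 R2 R Λ i : ℕ} {b : Bk R Λ} {q : Qd} {ys : List (List Bool)}
    (hb : b.1 = wd q ys) (hp : Prp q ys) :
    b ∈ CS g R1 R2 R Λ i ↔ R1 < q.2.2.2 ∧ q.2.2.2 ≤ R2 ∧ ys.length + (i + 1) = dp g q.2 := by
  unfold CS
  rw [Finset.mem_filter]
  constructor
  · rintro ⟨_, q', ys', h1, h2, h3⟩
    rw [hb] at h1
    obtain ⟨rfl, rfl⟩ := wd_inj hp.2 h2.2 h1
    exact h3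
  · intro h
    exact ⟨Finset.mem_univ _, q, ys, hb, hp, h⟩

theorem mem_RvS {g : Enum} {R1 R2 R Λ i : ℕ} {b : Bk R Λ} {q : Qd} {ys : List (List Bool)}
    (hb : b.1 = wd q ys) (hp : Prp q ys) :
    b ∈ RvS g R1 R2 R Λ i ↔ (R2 < q.2.2.2 ∨ (R1 < q.2.2.2 ∧ q.2.2.2 ≤ R2 ∧
      ∃ ρ ≤ i, ys.length + ρ = dp g q.2)) := by
  unfold RvS
  rw [Finset.mem_filter]
  constructor
  · rintro ⟨_, q', ys', h1, h2, h3⟩
    rw [hb] at h1
    obtain ⟨rfl, rfl⟩ := wd_inj hp.2 h2.2 h1
    exact h3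
  · intro h
    exact ⟨Finset.mem_univ _, q, ys, hb, hp, h⟩

theorem disj_RC (g : Enum) (R1 R2 R Λ i : ℕ) :
    Disjoint (RvS g R1 R2 R Λ i) (CS g R1 R2 R Λ i) := by
  rw [Finset.disjoint_left]
  intro b h1 h2
  have h2' := h2
  unfold CS at h2
  rw [Finset.mem_filter] at h2
  obtain ⟨_, q, ys, hb, hp, h3, h4, h5⟩ := h2
  rw [mem_RvS hb hp] at h1
  rcases h1 with h1 | ⟨_, _, ρ, hρ, h6⟩
  · omega
  · omega

theorem RvS_succ (g : Enum) (R1 R2 R Λ i : ℕ) :
    RvS g R1 R2 R Λ i ∪ CS g R1 R2 R Λ i ⊆ RvS g R1 R2 R Λ (i + 1) := by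
  intro b hb
  rcases Finset.mem_union.1 hb with hb | hb
  · unfold RvS at hb ⊢
    rw [Finset.mem_filter] at hb ⊢
    obtain ⟨h0, q, ys, h1, h2, h3⟩ := hb
    refine ⟨h0, q, ys, h1, h2, ?_⟩
    rcases h3 with h3 | ⟨h3, h4, ρ, h5, h6⟩
    · exact Or.inl h3
    · exact Or.inr ⟨h3, h4, ρ, by omega, h6⟩
  · unfold CS at hb
    unfold RvS
    rw [Finset.mem_filter] at hb ⊢
    obtain ⟨h0, q, ys, h1, h2, h3, h4, h5⟩ := hb
    exact ⟨h0, q, ys, h1, h2, Or.inr ⟨h3, h4, i + 1, le_rfl, h5⟩⟩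

/-- The hypotheses of the step `i`. -/
theorem stepHyp (g : Enum) {R1 R2 Λ R lam i : ℕ} (hR : R ≤ R1) :
    StepHyp (chS g R1 R2 Λ R lam i) (embS R Λ) (CS g R1 R2 R Λ i) (okS g R1 R2 Λ i)
      (okS g R1 R2 Λ (i + 1)) i where
  hC := by
    intro a b oj h
    match a with
    | Sum.inl _ => simp [chS] at h
    | Sum.inr (Sum.inr _) => simp [chS] at h
    | Sum.inr (Sum.inl (_, [])) => simp [chS] at h
    | Sum.inr (Sum.inl (q, y :: ys)) =>
      rw [chS_cons] at h
      by_cases h1 : Chd g R1 R2 Λ R i q y ys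
      swap
      · rw [dif_neg h1] at h
        simp at h
      rw [dif_pos h1, Option.some.injEq, Prod.mk.injEq] at h
      rw [← h.1]
      have hp : Prp q ys := h1.2.1.suffix (List.suffix_cons y ys)
      rw [mem_CS rfl hp]
      have h2 := h1.2.2.1
      rw [List.length_cons] at h2
      exact ⟨h1.1.1, h1.1.2, by omega⟩
  hht := by
    intro h a s h1 h2 h3
    match a with
    | Sum.inl _ => simp [chS] at h3
    | Sum.inr (Sum.inr _) => simp [chS] at h3
    | Sum.inr (Sum.inl (_, [])) => simp [chS] at h3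
    | Sum.inr (Sum.inl (q, y :: ys)) =>
      rw [chS_cons] at h3
      by_cases h4 : Chd g R1 R2 Λ R i q y ys
      · obtain ⟨_, _, _, ρ, h5, h6⟩ := h2
        have h7 := h4.2.2.1
        rcases h6 with ⟨h8, h9, _⟩ | ⟨_, h8, _, h9⟩
        · omega
        · omega
      · rw [dif_neg h4] at h3
        exact absurd rfl h3
  hsg := by
    intro h a h1 h2
    match a with
    | Sum.inl _ => rfl
    | Sum.inr (Sum.inr _) => rfl
    | Sum.inr (Sum.inl (_, [])) => rfl
    | Sum.inr (Sum.inl (q, y :: ys)) =>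
      obtain ⟨_, _, _, ρ, _, h6⟩ := h2
      rcases h6 with ⟨_, _, h7 | h7⟩ | ⟨_, _, h7, _⟩
      · omega
      · exact absurd h7 (by simp)
      · exact absurd h7 (by simp)
  hok1 := by
    intro h a s h1 h2 h3
    match a with
    | Sum.inl _ => exact h2
    | Sum.inr (Sum.inr _) => exact h2
    | Sum.inr (Sum.inl (q, [])) =>
      obtain ⟨e1, e2, e3, ρ, h5, h6⟩ := h2
      refine ⟨e1, e2, e3, ρ, h5, ?_⟩
      rcases h6 with ⟨h6, h7, _⟩ | ⟨h6, h7, h8, h9⟩
      · exact Or.inl ⟨h6, h7, Or.inr rfl⟩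
      · exact Or.inr ⟨h6, Or.inr ⟨by omega, rfl⟩, h8, h9⟩
    | Sum.inr (Sum.inl (q, y :: ys)) =>
      obtain ⟨e1, e2, e3, ρ, h5, h6⟩ := h2
      exfalso
      have hρ : ρ = i := by
        rcases h6 with ⟨h6, h7, h8 | h8⟩ | ⟨_, h7, h8, h9⟩
        · omega
        · exact absurd h8 (by simp)
        · rcases h7 with h7 | ⟨_, h7⟩
          · exact h7
          · exact absurd h7 (by simp)
      subst hρ
      have hlen := wd_length_gt q ys
      have hlen2 : (wd q ys).length ≤ (wd q (y :: ys)).length := by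
        rw [wd_length, wd_length]
        simp
        omega
      have hchd : Chd g R1 R2 Λ R ρ q y ys := ⟨e1, e2, h5, by omega, by omega⟩
      rw [chS_cons] at h3
      rw [dif_pos hchd] at h3
      simp at h3
  hok2 := by
    intro h b hb hh
    unfold CS at hb
    rw [Finset.mem_filter] at hb
    obtain ⟨_, q, ys, h1, h2, h3, h4, h5⟩ := hb
    rw [embS_eq h1 h2]
    refine ⟨⟨h3, h4⟩, h2, ?_, i + 1, h5, Or.inr ⟨by omega, Or.inl rfl, rfl, by omega⟩⟩
    rw [← h1]
    exact b.2.2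

theorem yag_of_off {g : Enum} {R1 R2 R Λ lam i : ℕ} {Y0 : List Bool → List Bool}
    {Y Y' : Bk R Λ → Str lam} (h : ∀ b, b ∉ CS g R1 R2 R Λ i → Y b = Y' b) :
    YAg R1 (extY Y0 Y) (extY Y0 Y') := by
  intro q ys hc hp
  apply extY_congr
  intro hv
  apply h
  rw [mem_CS rfl hp]
  omega

/-- The new atoms do not depend on the coordinates of the step. -/
theorem wld_off {g : Enum} {act : ℕ → Finset ℕ} {S : Oracle} {R1 R2 R Λ lam i : ℕ}
    (h12 : R2 ≤ R1 ^ 2) {Y0 : List Bool → List Bool} {V : List Bool → ℕ}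
    {Y Y' : Bk R Λ → Str lam}
    (h : ∀ b, b ∉ CS g R1 R2 R Λ i → Y b = Y' b) {ht : ℕ} {a : At} {s : Bool}
    (ha : okS g R1 R2 Λ (i + 1) ht a s) :
    wld g act S (extY Y0 Y) V a = wld g act S (extY Y0 Y') V a := by
  have hag := yag_of_off (Y0 := Y0) h
  match a with
  | Sum.inl v => exact orP_low hag (VAg.refl _ _) _ v le_rfl ha.2.2
  | Sum.inr (Sum.inr c) => exact ha.elim
  | Sum.inr (Sum.inl (q, ys)) =>
    obtain ⟨⟨e1, e1'⟩, e2, e3, ρ, h5, h6⟩ := ha
    show bitv _ _ q ys = bitv _ _ q ys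
    rw [Fv_congr rfl (bv_low (act := act) (S := S) hag (VAg.refl R1 V)
      (show q.2.2.2 ≤ R1 ^ 2 from e1'.trans h12))]
    apply bitv_congr
    intro zs hz1 hz2
    apply extY_congr
    intro hv
    apply h
    rw [mem_CS rfl (e2.suffix hz1)]
    rintro ⟨_, _, h7⟩
    rcases h6 with ⟨_, _, h8 | h8⟩ | ⟨_, h8 | ⟨_, h8⟩, _⟩
    · omega
    · rw [h8] at hz2
      simp at hz2
    · omega
    · rw [h8] at hz2
      simp at hz2

/-- The recursion of the atoms. -/
theorem wld_child {g : Enum} {act : ℕ → Finset ℕ} {S : Oracle} {R1 R2 R Λ lam i : ℕ}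
    (hlam : lam ≤ R1) {Y0 : List Bool → List Bool} {V : List Bool → ℕ}
    {Y : Bk R Λ → Str lam} {a : At} {b : Bk R Λ}
    {oj : Option (Str lam)} (h : chS g R1 R2 Λ R lam i a = some (b, oj)) :
    wld g act S (extY Y0 Y) V a = true ↔
      oj = some (Y b) ∧ wld g act S (extY Y0 Y) V (embS R Λ b) = false := by
  match a with
  | Sum.inl _ => simp [chS] at h
  | Sum.inr (Sum.inr _) => simp [chS] at h
  | Sum.inr (Sum.inl (_, [])) => simp [chS] at h
  | Sum.inr (Sum.inl (q, y :: ys)) =>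
    rw [chS_cons] at h
    by_cases h1 : Chd g R1 R2 Λ R i q y ys
    swap
    · rw [dif_neg h1] at h
      simp at h
    rw [dif_pos h1] at h
    by_cases h2 : ∃ Z : Str lam, pad Z.1 (zz q).length = y
    · rw [dif_pos h2, Option.some.injEq, Prod.mk.injEq] at h
      obtain ⟨h3, h4⟩ := h
      have hp : Prp q ys := h1.2.1.suffix (List.suffix_cons y ys)
      have hb : b.1 = wd q ys := by rw [← h3]
      rw [embS_eq hb hp]
      show bitv _ _ q (y :: ys) = true ↔ oj = some (Y b) ∧ bitv _ _ q ys = false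
      rw [bitv_cons]
      apply and_congr_left
      intro _
      have hh : hid (extY Y0 Y) (zz q).length (wd q ys) = pad (Y b).1 (zz q).length := by
        unfold hid pad
        rw [extY_eq Y0 Y h1.2.2.2, ← h3]
      rw [hh, ← h4, Option.some.injEq]
      have hN : lam ≤ (zz q).length := by
        have := h1.1.1
        rw [zz_length]
        omega
      have h5 := h2.choose_spec
      constructor
      · intro h6
        exact pad_inj hN (h5.trans h6)
      · intro h6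
        rw [← h6]
        exact h5.symm
    · rw [dif_neg h2, Option.some.injEq, Prod.mk.injEq] at h
      obtain ⟨h3, h4⟩ := h
      show bitv _ _ q (y :: ys) = true ↔ _
      rw [bitv_cons]
      have hh : hid (extY Y0 Y) (zz q).length (wd q ys) = pad (Y b).1 (zz q).length := by
        unfold hid pad
        rw [extY_eq Y0 Y h1.2.2.2, ← h3]
      rw [hh]
      constructor
      · rintro ⟨h6, _⟩
        exact absurd ⟨Y b, h6.symm⟩ h2
      · rintro ⟨h6, _⟩
        rw [← h4] at h6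
        simp at h6

/-! ### The threshold step -/

/-- the threshold atoms -/
noncomputable def chT (R1 R2 Λ R : ℕ) : At → Option (Bk R Λ × ℕ)
  | Sum.inr (Sum.inl (q, [])) => if h : (R1 < q.2.2.2 ∧ q.2.2.2 ≤ R2) ∧
      (R < (cw q.2).length ∧ (cw q.2).length ≤ Λ) then some (⟨cw q.2, h.2⟩, thw q) else none
  | _ => none

theorem chT_nil (R1 R2 Λ R : ℕ) (q : Qd) : chT R1 R2 Λ R (Sum.inr (Sum.inl (q, []))) =
    if h : (R1 < q.2.2.2 ∧ q.2.2.2 ≤ R2) ∧
      (R < (cw q.2).length ∧ (cw q.2).length ≤ Λ) then some (⟨cw q.2, h.2⟩, thw q) else none :=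
  rfl

theorem chT_some {R1 R2 Λ R : ℕ} {a : At} {b : Bk R Λ} {n : ℕ}
    (h : chT R1 R2 Λ R a = some (b, n)) : ∃ q : Qd, a = Sum.inr (Sum.inl (q, [])) ∧
      b.1 = cw q.2 ∧ n = thw q ∧ (R1 < q.2.2.2 ∧ q.2.2.2 ≤ R2) ∧
      (R < (cw q.2).length ∧ (cw q.2).length ≤ Λ) := by
  match a with
  | Sum.inl _ => simp [chT] at h
  | Sum.inr (Sum.inr _) => simp [chT] at h
  | Sum.inr (Sum.inl (_, y :: ys)) => simp [chT] at h
  | Sum.inr (Sum.inl (q, [])) =>
    rw [chT_nil] at h
    by_cases h1 : (R1 < q.2.2.2 ∧ q.2.2.2 ≤ R2) ∧ (R < (cw q.2).length ∧ (cw q.2).length ≤ Λ)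
    swap
    · rw [dif_neg h1] at h
      simp at h
    rw [dif_pos h1, Option.some.injEq, Prod.mk.injEq] at h
    exact ⟨q, rfl, by rw [← h.1], h.2.symm, h1.1, h1.2⟩

/-- the atom of a coordinate -/
noncomputable def embT (R Λ : ℕ) (b : Bk R Λ) : At :=
  if h : ∃ c : Cd, b.1 = cw c then Sum.inr (Sum.inr h.choose) else Sum.inl []

theorem embT_eq {R Λ : ℕ} {b : Bk R Λ} {c : Cd} (hb : b.1 = cw c) :
    embT R Λ b = Sum.inr (Sum.inr c) := by
  have h : ∃ c : Cd, b.1 = cw c := ⟨c, hb⟩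
  unfold embT
  rw [dif_pos h]
  have h1 : cw c = cw h.choose := hb.symm.trans h.choose_spec
  exact congrArg (fun z => Sum.inr (Sum.inr z)) (cw_inj h1).symm

/-- the level of a coordinate -/
noncomputable def lvT (g : Enum) (R Λ : ℕ) (b : Bk R Λ) : ℕ :=
  if h : ∃ c : Cd, b.1 = cw c then dp g h.choose + 1 else 0

theorem lvT_eq {g : Enum} {R Λ : ℕ} {b : Bk R Λ} {c : Cd} (hb : b.1 = cw c) :
    lvT g R Λ b = dp g c + 1 := by
  have h : ∃ c : Cd, b.1 = cw c := ⟨c, hb⟩
  unfold lvT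
  rw [dif_pos h]
  have h1 : cw c = cw h.choose := hb.symm.trans h.choose_spec
  rw [← cw_inj h1]

/-- the coordinates of the layer -/
noncomputable def CT (R1 R2 R Λ : ℕ) : Finset (Bk R Λ) :=
  Finset.univ.filter (fun b => ∃ c : Cd, b.1 = cw c ∧ R1 < c.2.2 ∧ c.2.2 ≤ R2)

/-- the revealed numbers before the layer -/
noncomputable def VT (M R Λ : ℕ) : Finset (Bk R Λ) :=
  Finset.univ.filter (fun b => ∃ c : Cd, b.1 = cw c ∧ M < c.2.2)

theorem mem_CT {R1 R2 R Λ : ℕ} {b : Bk R Λ} {c : Cd} (hb : b.1 = cw c) :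
    b ∈ CT R1 R2 R Λ ↔ R1 < c.2.2 ∧ c.2.2 ≤ R2 := by
  unfold CT
  rw [Finset.mem_filter]
  constructor
  · rintro ⟨_, c', h1, h2⟩
    rw [hb] at h1
    rw [cw_inj h1]
    exact h2
  · intro h
    exact ⟨Finset.mem_univ _, c, hb, h⟩

theorem mem_VT {M R Λ : ℕ} {b : Bk R Λ} {c : Cd} (hb : b.1 = cw c) :
    b ∈ VT M R Λ ↔ M < c.2.2 := by
  unfold VT
  rw [Finset.mem_filter]
  constructor
  · rintro ⟨_, c', h1, h2⟩
    rw [hb] at h1
    rw [cw_inj h1]
    exact h2
  · intro h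
    exact ⟨Finset.mem_univ _, c, hb, h⟩

theorem disj_VC (R1 R2 R Λ : ℕ) : Disjoint (VT R2 R Λ) (CT R1 R2 R Λ) := by
  rw [Finset.disjoint_left]
  intro b h1 h2
  unfold CT at h2
  rw [Finset.mem_filter] at h2
  obtain ⟨_, c, hb, h3, h4⟩ := h2
  rw [mem_VT hb] at h1
  omega

theorem VT_sub {R1 R2 R Λ : ℕ} (h : R1 ≤ R2) : VT R2 R Λ ∪ CT R1 R2 R Λ ⊆ VT R1 R Λ := by
  intro b hb
  rcases Finset.mem_union.1 hb with hb | hb
  · unfold VT at hb ⊢
    rw [Finset.mem_filter] at hb ⊢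
    obtain ⟨h0, c, h1, h2⟩ := hb
    exact ⟨h0, c, h1, by omega⟩
  · unfold CT at hb
    unfold VT
    rw [Finset.mem_filter] at hb ⊢
    obtain ⟨h0, c, h1, h2⟩ := hb
    exact ⟨h0, c, h1, by omega⟩

/-- The hypotheses of the threshold step. -/
theorem thrHyp (g : Enum) {R1 R2 Λ R k : ℕ} (hR : R ≤ R1) :
    ThrHyp (chT R1 R2 Λ R) (embT R Λ) (CT R1 R2 R Λ) (lvT g R Λ)
      (fun h a s => h ≤ k ∧ okS g R1 R2 Λ (k + 1) h a s) (okT g R1 R2 Λ) where
  hC := by
    intro a b n h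
    obtain ⟨q, rfl, hb, _, h2, _⟩ := chT_some h
    rw [mem_CT hb]
    exact h2
  hht := by
    intro h a s b n h1 h2 h3
    obtain ⟨q, rfl, hb, _, _, _⟩ := chT_some h3
    rw [lvT_eq hb]
    obtain ⟨_, _, _, _, ρ, h5, h6⟩ := h2
    simp only [List.length_nil] at h5
    rcases h6 with ⟨h6, h7, _⟩ | ⟨h6, _, h8, h9⟩
    · left
      omega
    · rcases h9 with h9 | h9
      · right
        exact ⟨by omega, h8⟩
      · left
        omega
  hok1 := by
    intro h a s h1 h2 h3
    obtain ⟨hk, h2⟩ := h2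
    match a with
    | Sum.inl _ => exact h2
    | Sum.inr (Sum.inr _) => exact h2.elim
    | Sum.inr (Sum.inl (q, y :: ys)) =>
      obtain ⟨_, _, _, ρ, h5, h6⟩ := h2
      exfalso
      rcases h6 with ⟨_, _, h7 | h7⟩ | ⟨_, h7 | ⟨_, h7⟩, _, h8⟩
      · omega
      · exact absurd h7 (by simp)
      · omega
      · exact absurd h7 (by simp)
    | Sum.inr (Sum.inl (q, [])) =>
      exfalso
      obtain ⟨e1, e2, e3, _⟩ := h2
      rw [chT_nil, dif_pos] at h3
      · simp at h3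
      · have h4 := cw_length_gt q.2
        refine ⟨e1, by omega, ?_⟩
        have h5 : (cw q.2).length ≤ (wd q []).length := by
          rw [wd_length, zz_length]
          unfold cw
          rw [code_length]
          omega
        omega
  hok2 := by
    intro b s hb
    unfold CT at hb
    rw [Finset.mem_filter] at hb
    obtain ⟨_, c, h1, h2⟩ := hb
    rw [embT_eq h1, lvT_eq h1]
    refine ⟨h2, ?_, rfl⟩
    rw [← h1]
    exact b.2.2

theorem vag_of_off {R1 R2 R Λ lam : ℕ} {V0 : List Bool → ℕ}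
    {V V' : Bk R Λ → Dice lam} (h : ∀ b, b ∉ CT R1 R2 R Λ → V b = V' b) :
    VAg R1 (extV V0 V) (extV V0 V') := by
  intro c hc
  apply extV_congr
  intro hv
  apply h
  rw [mem_CT rfl]
  omega

/-- The new atoms do not depend on the hidden numbers of the layer. -/
theorem wldT_off {g : Enum} {act : ℕ → Finset ℕ} {S : Oracle} {R1 R2 R Λ lam : ℕ}
    (h12 : R2 ≤ R1 ^ 2) {Y : List Bool → List Bool} {V0 : List Bool → ℕ}
    {V V' : Bk R Λ → Dice lam}
    (h : ∀ b, b ∉ CT R1 R2 R Λ → V b = V' b) {ht : ℕ} {a : At} {s : Bool}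
    (ha : okT g R1 R2 Λ ht a s) :
    wld g act S Y (extV V0 V) a = wld g act S Y (extV V0 V') a := by
  have hag := vag_of_off (V0 := V0) h
  match a with
  | Sum.inl v => exact orP_low (YAg.refl _ _) hag _ v le_rfl ha.2.2
  | Sum.inr (Sum.inl _) => exact ha.elim
  | Sum.inr (Sum.inr c) =>
    have hK := bv_low (g := g) (act := act) (S := S) (YAg.refl R1 Y) hag
      (show c.2.2 ≤ R1 ^ 2 from ha.1.2.trans h12)
    show decide _ = decide _
    by_cases hA : bv g act (orP g act S Y (extV V0 V)) c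
    · have hA' := hK.1 hA
      simp [hA, hA']
    · have hA' : ¬ bv g act (orP g act S Y (extV V0 V')) c := fun h => hA (hK.2 h)
      simp [hA, hA']

/-- The threshold atoms. -/
theorem wldT_child {g : Enum} {act : ℕ → Finset ℕ} {S : Oracle} {R1 R2 R Λ lam : ℕ}
    (hlam : 2 * lam ≤ R1) {Y : List Bool → List Bool} {V0 : List Bool → ℕ}
    {V : Bk R Λ → Dice lam} {a : At} {b : Bk R Λ} {n : ℕ}
    (h : chT R1 R2 Λ R a = some (b, n)) :
    wld g act S Y (extV V0 V) a =
      !decide (n ≤ 2 * gv (V b) + (wld g act S Y (extV V0 V) (embT R Λ b)).toNat) := by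
  obtain ⟨q, rfl, hb, rfl, h1, h2⟩ := chT_some h
  rw [embT_eq hb]
  show (!(Fv g act (extV V0 V) (orP g act S Y (extV V0 V)) q)) = _
  have hV : extV V0 V (code q.2.1 q.2.2.1 q.2.2.2) = gv (V b) := by
    have h3 := extV_eq V0 V h2
    have h4 : (⟨cw q.2, h2⟩ : Bk R Λ) = b := Subtype.ext hb.symm
    rw [h4] at h3
    exact h3
  have hlt : gv (V b) < 2 ^ q.2.2.2 := by
    have h3 := gv_le (V b)
    have h4 : (4 : ℕ) ^ lam < 2 ^ q.2.2.2 := by
      rw [show (4 : ℕ) = 2 ^ 2 by norm_num, ← pow_mul]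
      exact Nat.pow_lt_pow_right (by norm_num) (by omega)
    omega
  have hvv : vv (extV V0 V) q.2 = gv (V b) := by
    unfold vv
    rw [hV, if_pos hlt]
  unfold Fv
  rw [hvv]
  show (!decide (thw q ≤ 2 * gv (V b) + if bv g act (orP g act S Y (extV V0 V)) q.2 then 1
    else 0)) = !decide (thw q ≤ 2 * gv (V b) +
      (decide (bv g act (orP g act S Y (extV V0 V)) q.2)).toNat)
  congr 2
  by_cases hA : bv g act (orP g act S Y (extV V0 V)) q.2
  · simp [hA]
  · simp [hA]

end Pool.Agent.H8p
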