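import Pool.Agent.H8.Switch

set_option autoImplicit false
set_option linter.unusedSectionVars false

/-!
# The plain switching lemma for product restrictions

`V` finite, restriction `ρ : V → Option Bool` with independent entries: `none` (star) with
probability `p`, `some true` with probability `p1`, `some false` with probability `p0`.
A formula is a list `l` of terms `T = (P, N)`: it is true at `x` iff some `T ∈ l` has `x v = true`
on `P` and `x v = false` on `N`.
-/

namespace Pool.Agent.H8.Plain

open Finset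

variable {V : Type} [DecidableEq V]

/-- terms: positive and negative variables -/
abbrev Trm (V : Type) := Finset V × Finset V

/-- restrictions -/
abbrev Rst (V : Type) := V → Option Bool

/-- satisfaction of a term by a total assignment -/
def TSat (T : Trm V) (x : V → Bool) : Prop :=
  (∀ v ∈ T.1, x v = true) ∧ (∀ v ∈ T.2, x v = false)

/-- the assignment which takes the values of `ρ`, and those of `y` on the stars -/
def app (ρ : Rst V) (y : V → Bool) : V → Bool := fun v => (ρ v).getD (y v)

def pv (ρ π : Rst V) (v : V) : Option Bool := (ρ v).orElse (fun _ => π v)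

def Sat (ρ π : Rst V) (T : Trm V) : Prop :=
  (∀ v ∈ T.1, pv ρ π v = some true) ∧ (∀ v ∈ T.2, pv ρ π v = some false)

def Dead (ρ π : Rst V) (T : Trm V) : Prop :=
  (∃ v ∈ T.1, pv ρ π v = some false) ∨ (∃ v ∈ T.2, pv ρ π v = some true)

def free (ρ π : Rst V) (T : Trm V) : Finset V := (T.1 ∪ T.2).filter (fun v => pv ρ π v = none)

def upd (π : Rst V) (L : Finset V) (τ : V → Bool) : Rst V :=
  fun i => if i ∈ L then some (τ i) else π i

def updD (π : Rst V) (D0 D1 : Finset V) : Rst V :=
  fun i => if i ∈ D0 then some false else if i ∈ D1 then some true else π i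

def undo (ρ' : Rst V) (D : Finset V) : Rst V := fun v => if v ∈ D then none else ρ' v

/-- the canonical decision process can ask at least `s` further variables -/
inductive Long (l : List (Trm V)) (ρ : Rst V) : Rst V → ℕ → Prop
  | zero (π : Rst V) : Long l ρ π 0
  | step (π : Rst V) (s : ℕ) (l1 l2 : List (Trm V)) (T : Trm V) (τ : V → Bool)
      (h : l = l1 ++ T :: l2) (hd : ∀ T' ∈ l1, Dead ρ π T') (hT : ¬ Dead ρ π T)
      (hne : (free ρ π T).Nonempty)
      (hrec : Long l ρ (upd π (free ρ π T) τ) (s - (free ρ π T).card)) : Long l ρ π s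

inductive Enc (l : List (Trm V)) (ρ : Rst V) : ℕ → Rst V → Rst V → ℕ → Prop
  | zero (π : Rst V) : Enc l ρ 0 π ρ 0
  | step (s : ℕ) (π ρ' : Rst V) (l1 l2 : List (Trm V)) (T : Trm V)
      (D0 D1 : Finset V) (w : ℕ) (hs : 0 < s) (h : l = l1 ++ T :: l2)
      (hd : ∀ T' ∈ l1, ¬ Sat ρ' π T') (hT : Sat ρ' π T)
      (hD0 : D0 ⊆ T.1 ∪ T.2) (hD1 : D1 ⊆ T.1 ∪ T.2) (hdis : Disjoint D0 D1)
      (hne : (D0 ∪ D1).Nonempty)
      (hrec : Enc l ρ (s - (D0 ∪ D1).card) (updD π D0 D1) (undo ρ' (D0 ∪ D1)) w) :
      Enc l ρ s π ρ' (w + (D0 ∪ D1).card)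

theorem enc_count (l : List (Trm V)) (t : ℕ) (hl : ∀ T ∈ l, (T.1 ∪ T.2).card ≤ t)
    (r κ : ℝ) (hr : 0 < r) (hκ : 0 < κ) (hκ1 : κ ≤ 1) (hb : (1 + r / κ) ^ (2 * t) ≤ 2) (s : ℕ) :
    ∀ (π ρ' : Rst V) (X : Finset (Rst V × ℕ)),
      (∀ x ∈ X, Enc l x.1 s π ρ' x.2) → ∑ x ∈ X, r ^ x.2 ≤ κ ^ s := by
  classical
  induction s using Nat.strong_induction_on with
  | _ s ih =>
  intro π ρ' X hX
  by_cases hs : s = 0
  · subst hs
    have hsub : X ⊆ {(ρ', 0)} := by
      intro x hx
      have h := hX x hx
      rcases x with ⟨ρ, w⟩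
      simp only at h
      cases h with
      | zero => simp
      | step _ _ _ _ _ _ _ _ _ hs => exact absurd hs (lt_irrefl 0)
    calc ∑ x ∈ X, r ^ x.2 ≤ ∑ x ∈ ({(ρ', 0)} : Finset (Rst V × ℕ)), r ^ x.2 :=
          Finset.sum_le_sum_of_subset_of_nonneg hsub (fun _ _ _ => by positivity)
      _ = κ ^ 0 := by simp
  · by_cases hXe : X = ∅
    · subst hXe
      simp only [Finset.sum_empty]
      positivity
    · obtain ⟨x0, hx0⟩ := Finset.nonempty_iff_ne_empty.mpr hXe
      have key : ∀ x ∈ X, ∃ (l1 l2 : List (Trm V)) (T : Trm V) (D0 D1 : Finset V) (w : ℕ),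
          l = l1 ++ T :: l2 ∧ (∀ T' ∈ l1, ¬ Sat ρ' π T') ∧ Sat ρ' π T ∧ D0 ⊆ T.1 ∪ T.2 ∧
          D1 ⊆ T.1 ∪ T.2 ∧ Disjoint D0 D1 ∧ (D0 ∪ D1).Nonempty ∧
          Enc l x.1 (s - (D0 ∪ D1).card) (updD π D0 D1)
            (undo ρ' (D0 ∪ D1)) w ∧ x.2 = w + (D0 ∪ D1).card := by
        intro x hx
        have h := hX x hx
        rcases x with ⟨ρ, w⟩
        simp only at h ⊢
        cases h with
        | zero => exact absurd rfl hs
        | step _ _ _ l1 l2 T D0 D1 w hs h hd hT hD0 hD1 hdis hne hrec =>
          exact ⟨l1, l2, T, D0, D1, w, h, hd, hT, hD0, hD1, hdis, hne, hrec, rfl⟩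
      obtain ⟨m1, m2, T, -, -, -, hm, hmd, hmT, -⟩ := key x0 hx0
      have key2 : ∀ x ∈ X, ∃ (D : Finset V × Finset V),
          D.1 ⊆ T.1 ∪ T.2 ∧
          D.2 ⊆ T.1 ∪ T.2 ∧ Disjoint D.1 D.2 ∧ (D.1 ∪ D.2).Nonempty ∧
          (D.1 ∪ D.2).card ≤ x.2 ∧
          Enc l x.1 (s - (D.1 ∪ D.2).card) (updD π D.1 D.2)
            (undo ρ' (D.1 ∪ D.2)) (x.2 - (D.1 ∪ D.2).card) := by
        intro x hx
        obtain ⟨l1, l2, T', D0, D1, w, h1, h2, h3, h4, h5, h6, h7, h8, h9⟩ := key x hx
        have hTT : T' = T := first_unique (fun T => Sat ρ' π T) h1 hm h2 h3 hmd hmT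
        subst hTT
        refine ⟨(D0, D1), h4, h5, h6, h7, ?_, ?_⟩
        · simp only; omega
        · simp only
          have : x.2 - (D0 ∪ D1).card = w := by omega
          rw [this]; exact h8
      choose! f hf1 hf2 hf3 hf4 hf5 hf6 using key2
      set P := (T.1 ∪ T.2).powerset ×ˢ (T.1 ∪ T.2).powerset with hP
      have hmaps : ∀ x ∈ X, f x ∈ P.erase (∅, ∅) := by
        intro x hx
        rw [Finset.mem_erase, hP, Finset.mem_product, Finset.mem_powerset, Finset.mem_powerset]
        refine ⟨?_, hf1 x hx, hf2 x hx⟩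
        intro h
        have := hf4 x hx
        rw [h] at this
        simp at this
      rw [← Finset.sum_fiberwise_of_maps_to hmaps]
      have hone : ∀ D ∈ P.erase (∅, ∅),
          ∑ x ∈ X.filter (fun x => f x = D), r ^ x.2 ≤
            κ ^ s * ((r / κ) ^ D.1.card * (r / κ) ^ D.2.card) := by
        intro D hD
        by_cases hne : (X.filter (fun x => f x = D)) = ∅
        · rw [hne, Finset.sum_empty]
          positivity
        obtain ⟨x1, hx1⟩ := Finset.nonempty_iff_ne_empty.mpr hne
        rw [Finset.mem_filter] at hx1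
        have hdis : Disjoint D.1 D.2 := hx1.2 ▸ hf3 x1 hx1.1
        have hDne : (D.1 ∪ D.2).Nonempty := hx1.2 ▸ hf4 x1 hx1.1
        set n := (D.1 ∪ D.2).card with hn
        have hmpos : 0 < n := by
          rw [hn, Finset.card_pos]
          exact hDne
        let g : Rst V × ℕ → Rst V × ℕ := fun x => (x.1, x.2 - n)
        have hinj : Set.InjOn g (X.filter (fun x => f x = D) : Finset (Rst V × ℕ)) := by
          intro x hx y hy hxy
          rw [Finset.mem_coe, Finset.mem_filter] at hx hy
          have hx5 := hf5 x hx.1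
          have hy5 := hf5 y hy.1
          rw [hx.2] at hx5
          rw [hy.2] at hy5
          have h1 := congrArg Prod.fst hxy
          have h2 := congrArg Prod.snd hxy
          simp only [g] at h1 h2
          ext1
          · exact h1
          · omega
        have hsum : ∑ x ∈ X.filter (fun x => f x = D), r ^ x.2 =
            r ^ n * ∑ x ∈ (X.filter (fun x => f x = D)).image g, r ^ x.2 := by
          rw [Finset.sum_image hinj, Finset.mul_sum]
          apply Finset.sum_congr rfl
          intro x hx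
          rw [Finset.mem_filter] at hx
          have hx5 := hf5 x hx.1
          rw [hx.2] at hx5
          simp only [g]
          rw [← pow_add]
          congr 1
          omega
        rw [hsum]
        have hih := ih (s - n) (by omega) (updD π D.1 D.2) (undo ρ' (D.1 ∪ D.2))
          ((X.filter (fun x => f x = D)).image g) (by
            intro x hx
            rw [Finset.mem_image] at hx
            obtain ⟨y, hy, rfl⟩ := hx
            rw [Finset.mem_filter] at hy
            have := hf6 y hy.1
            rw [hy.2] at this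
            exact this)
        have hn2 : n = D.1.card + D.2.card := Finset.card_union_of_disjoint hdis
        have h3 : κ ^ (s - n) * κ ^ n ≤ κ ^ s := by
          rw [← pow_add]
          exact pow_le_pow_of_le_one hκ.le hκ1 (by omega)
        have h4 : κ ^ (s - n) ≤ κ ^ s / κ ^ n := by
          rw [le_div_iff₀ (by positivity)]
          exact h3
        calc r ^ n * ∑ x ∈ (X.filter (fun x => f x = D)).image g, r ^ x.2
            ≤ r ^ n * κ ^ (s - n) := by gcongr
          _ ≤ r ^ n * (κ ^ s / κ ^ n) := by gcongr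
          _ = κ ^ s * ((r / κ) ^ D.1.card * (r / κ) ^ D.2.card) := by
              rw [← pow_add, ← hn2, div_pow]
              ring
      calc ∑ D ∈ P.erase (∅, ∅), ∑ x ∈ X.filter (fun x => f x = D), r ^ x.2
          ≤ ∑ D ∈ P.erase (∅, ∅), κ ^ s * ((r / κ) ^ D.1.card * (r / κ) ^ D.2.card) :=
            Finset.sum_le_sum hone
        _ = κ ^ s * (∑ D ∈ P.erase (∅, ∅), ((r / κ) ^ D.1.card * (r / κ) ^ D.2.card)) := by
            rw [Finset.mul_sum]
        _ ≤ κ ^ s * 1 := by
            gcongr
            have hmem : ((∅, ∅) : Finset V × Finset V) ∈ P := by simp [hP]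
            have htot : ∑ D ∈ P, ((r / κ) ^ D.1.card * (r / κ) ^ D.2.card) =
                (1 + r / κ) ^ (2 * (T.1 ∪ T.2).card) := by
              rw [hP, Finset.sum_product]
              simp only
              have hone' : ∑ D ∈ (T.1 ∪ T.2).powerset, (r / κ) ^ D.card =
                  (1 + r / κ) ^ (T.1 ∪ T.2).card := by
                have := Finset.sum_pow_mul_eq_add_pow (r / κ) (1 : ℝ) (T.1 ∪ T.2)
                simp only [one_pow, mul_one] at this
                rw [this, add_comm]
              calc ∑ x ∈ (T.1 ∪ T.2).powerset, ∑ y ∈ (T.1 ∪ T.2).powerset,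
                    (r / κ) ^ x.card * (r / κ) ^ y.card
                  = ∑ x ∈ (T.1 ∪ T.2).powerset, (r / κ) ^ x.card *
                      ∑ y ∈ (T.1 ∪ T.2).powerset, (r / κ) ^ y.card := by
                    apply Finset.sum_congr rfl
                    intro x _
                    rw [Finset.mul_sum]
                _ = _ := by
                    rw [hone', ← Finset.sum_mul, hone', ← pow_add]
                    congr 1
                    ring
            have hTm : T ∈ l := by rw [hm]; simp
            have hle : (1 + r / κ) ^ (2 * (T.1 ∪ T.2).card) ≤ 2 := by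
              refine le_trans ?_ hb
              apply pow_le_pow_right₀
              · have : 0 < r / κ := by positivity
                linarith
              · have := hl T hTm
                omega
            rw [← Finset.add_sum_erase _ _ hmem] at htot
            simp only [Finset.card_empty, pow_zero, mul_one] at htot
            linarith
        _ = κ ^ s := mul_one _

/-! ### The decision half -/

/-- `y` is compatible with `π` -/
def Compat (π : Rst V) (y : V → Bool) : Prop := ∀ i b, π i = some b → y i = b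

theorem app_of_pv {ρ π : Rst V} {y : V → Bool} (hy : Compat π y)
    {v : V} {b : Bool} (h : pv ρ π v = some b) : app ρ y v = b := by
  unfold pv at h
  unfold app
  cases hv : ρ v with
  | none =>
    rw [hv] at h
    simpa using hy v b h
  | some c =>
    rw [hv] at h
    simpa using h

theorem not_sat_of_dead {ρ π : Rst V} {y : V → Bool} (hy : Compat π y)
    {T : Trm V} (h : Dead ρ π T) : ¬ TSat T (app ρ y) := by
  rintro ⟨hp, hn⟩
  rcases h with ⟨v, hv, h⟩ | ⟨v, hv, h⟩
  · have := app_of_pv hy h
    rw [hp v hv] at this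
    exact absurd this (by decide)
  · have := app_of_pv hy h
    rw [hn v hv] at this
    exact absurd this (by decide)

theorem compat_upd {π : Rst V} {y : V → Bool} (hy : Compat π y) (L : Finset V) :
    Compat (upd π L y) y := by
  intro i b h
  unfold upd at h
  split_ifs at h with h1
  · simpa using h
  · exact hy i b h

theorem pv_none_iff {ρ π : Rst V} {v : V} : pv ρ π v = none ↔ ρ v = none ∧ π v = none := by
  unfold pv
  cases hv : ρ v <;> simp

theorem decision (l : List (Trm V)) (ρ : Rst V) (s : ℕ) :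
    ∀ (π : Rst V), ¬ Long l ρ π s → ∀ y : V → Bool, Compat π y →
      ∃ Q : Finset V, Q.card < s ∧ (∀ v ∈ Q, ρ v = none) ∧
        ∀ y' : V → Bool, Compat π y' → (∀ i ∈ Q, y' i = y i) →
        ((∃ T ∈ l, TSat T (app ρ y')) ↔ (∃ T ∈ l, TSat T (app ρ y))) := by
  induction s using Nat.strong_induction_on with
  | _ s ih =>
  intro π hL y hy
  have hs : 0 < s := by
    rcases Nat.eq_zero_or_pos s with h | h
    · subst h; exact absurd (Long.zero π) hL
    · exact h
  rcases first_nondead (Dead ρ π) l with hall | ⟨l1, l2, T, hl, hd, hT⟩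
  · refine ⟨∅, by simpa using hs, by simp, ?_⟩
    intro y' hy' _
    constructor
    · rintro ⟨T, hT, h⟩
      exact absurd h (not_sat_of_dead hy' (hall T hT))
    · rintro ⟨T, hT, h⟩
      exact absurd h (not_sat_of_dead hy (hall T hT))
  · by_cases hlive : (free ρ π T).Nonempty
    · have hrec : ¬ Long l ρ (upd π (free ρ π T) y) (s - (free ρ π T).card) := by
        intro h
        exact hL (Long.step π s l1 l2 T y hl hd hT hlive h)
      have hpos : 0 < (free ρ π T).card := Finset.card_pos.mpr hlive
      obtain ⟨Q, hQ, hQ1, hQ2⟩ := ih (s - (free ρ π T).card) (by omega) _ hrec y (compat_upd hy _)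
      refine ⟨Q ∪ free ρ π T, ?_, ?_, ?_⟩
      · calc (Q ∪ free ρ π T).card ≤ Q.card + (free ρ π T).card := Finset.card_union_le _ _
          _ < s := by omega
      · intro v hv
        rcases Finset.mem_union.mp hv with h | h
        · exact hQ1 v h
        · exact (pv_none_iff.mp (Finset.mem_filter.mp h).2).1
      · intro y' hy' hag
        apply hQ2 y'
        · intro i b h
          unfold upd at h
          split_ifs at h with h1
          · rw [hag i (Finset.mem_union_right _ h1)]
            simpa using h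
          · exact hy' i b h
        · intro i hi
          exact hag i (Finset.mem_union_left _ hi)
    · rw [Finset.not_nonempty_iff_eq_empty] at hlive
      have hfree : ∀ v, (v ∈ T.1 ∨ v ∈ T.2) → pv ρ π v ≠ none := by
        intro v hv hnone
        have : v ∈ free ρ π T := by
          unfold free
          rw [Finset.mem_filter, Finset.mem_union]
          exact ⟨hv, hnone⟩
        rw [hlive] at this
        simp at this
      have hsat : ∀ y' : V → Bool, Compat π y' → TSat T (app ρ y') := by
        intro y' hy'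
        constructor
        · intro v hv
          rcases hp : pv ρ π v with _ | b
          · exact absurd hp (hfree v (Or.inl hv))
          · cases b
            · exact absurd (Or.inl ⟨v, hv, hp⟩) hT
            · exact app_of_pv hy' hp
        · intro v hv
          rcases hp : pv ρ π v with _ | b
          · exact absurd hp (hfree v (Or.inr hv))
          · cases b
            · exact app_of_pv hy' hp
            · exact absurd (Or.inr ⟨v, hv, hp⟩) hT
      have hTl : T ∈ l := by rw [hl]; simp
      refine ⟨∅, by simpa using hs, by simp, ?_⟩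
      intro y' hy' _
      exact ⟨fun _ => ⟨T, hTl, hsat y hy⟩, fun _ => ⟨T, hTl, hsat y' hy'⟩⟩

/-! ### The encoding half -/

/-- weight of an entry: `p` for a star, `p1` for true, `p0` for false -/
def ent (p p0 p1 : ℝ) : Option Bool → ℝ
  | none => p
  | some true => p1
  | some false => p0

/-- weight of a restriction -/
noncomputable def wt [Fintype V] (p p0 p1 : ℝ) (ρ : Rst V) : ℝ := ∏ v, ent p p0 p1 (ρ v)

theorem ent_pos {p p0 p1 : ℝ} (hp : 0 < p) (hp0 : 0 < p0) (hp1 : 0 < p1) (b : Option Bool) :
    0 < ent p p0 p1 b := by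
  rcases b with _ | b
  · exact hp
  · cases b
    · exact hp0
    · exact hp1

theorem wt_pos [Fintype V] {p p0 p1 : ℝ} (hp : 0 < p) (hp0 : 0 < p0) (hp1 : 0 < p1) (ρ : Rst V) :
    0 < wt p p0 p1 ρ := Finset.prod_pos (fun _ _ => ent_pos hp hp0 hp1 _)

theorem wt_total [Fintype V] {p p0 p1 : ℝ} (h : p + p0 + p1 = 1) :
    ∑ ρ : Rst V, wt p p0 p1 ρ = 1 := by
  unfold wt
  have h' := Finset.prod_univ_sum (R := ℝ) (fun _ : V => (Finset.univ : Finset (Option Bool)))
    (fun _ b => ent p p0 p1 b)
  rw [Fintype.piFinset_univ] at h'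
  rw [← h']
  have h3 : ∑ b : Option Bool, ent p p0 p1 b = 1 := by
    rw [Fintype.sum_option]
    simp only [Fintype.sum_bool, ent]
    linarith
  rw [Finset.prod_congr rfl (fun _ _ => h3)]
  simp

/-- fixing the stars in `D` with the values `f` costs the factor `r ^ |D|` -/
def fix (D : Finset V) (f : V → Bool) (ρ : Rst V) : Rst V :=
  fun v => if v ∈ D then some (f v) else ρ v

theorem wt_fix [Fintype V] {p p0 p1 r : ℝ} (hp : 0 < p) (hp0 : 0 < p0) (hp1 : 0 < p1)
    (hr0 : p ≤ r * p0) (hr1 : p ≤ r * p1)
    (D : Finset V) (f : V → Bool) (ρ : Rst V) (hρ : ∀ v ∈ D, ρ v = none) :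
    wt p p0 p1 ρ ≤ wt p p0 p1 (fix D f ρ) * r ^ D.card := by
  have h1 : wt p p0 p1 ρ = (∏ a ∈ D, ent p p0 p1 (ρ a)) * ∏ a ∈ Dᶜ, ent p p0 p1 (ρ a) := by
    unfold wt
    rw [Finset.prod_mul_prod_compl]
  have h2 : wt p p0 p1 (fix D f ρ) = (∏ a ∈ D, ent p p0 p1 (fix D f ρ a)) *
      ∏ a ∈ Dᶜ, ent p p0 p1 (fix D f ρ a) := by
    unfold wt
    rw [Finset.prod_mul_prod_compl]
  have h3 : ∏ a ∈ Dᶜ, ent p p0 p1 (fix D f ρ a) = ∏ a ∈ Dᶜ, ent p p0 p1 (ρ a) := by
    apply Finset.prod_congr rfl
    intro a ha
    rw [Finset.mem_compl] at ha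
    unfold fix
    rw [if_neg ha]
  have h4 : ∏ a ∈ D, ent p p0 p1 (ρ a) ≤ (∏ a ∈ D, ent p p0 p1 (fix D f ρ a)) * r ^ D.card := by
    rw [← Finset.prod_const, ← Finset.prod_mul_distrib]
    apply Finset.prod_le_prod
    · intro a _
      exact (ent_pos hp hp0 hp1 _).le
    · intro a ha
      rw [hρ a ha]
      unfold fix
      rw [if_pos ha]
      cases f a
      · simp only [ent]; linarith
      · simp only [ent]; linarith
  have h5 : 0 < ∏ a ∈ Dᶜ, ent p p0 p1 (ρ a) := Finset.prod_pos (fun _ _ => ent_pos hp hp0 hp1 _)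
  rw [h1, h2, h3]
  nlinarith

/-- the invariant relating `ρ` with its encoding `ρ'` -/
def Inv (ρ π ρ' : Rst V) : Prop := ∀ v, (ρ v ≠ none ∨ π v ≠ none) → ρ' v = ρ v

theorem encode [Fintype V] (l : List (Trm V)) (hl : ∀ T ∈ l, Disjoint T.1 T.2)
    (ρ : Rst V) {p p0 p1 r : ℝ} (hp : 0 < p) (hp0 : 0 < p0) (hp1 : 0 < p1)
    (hr0 : p ≤ r * p0) (hr1 : p ≤ r * p1) (hr : 0 < r) :
    ∀ (π : Rst V) (s : ℕ), Long l ρ π s → (∀ i, π i ≠ none → ρ i = none) →
      ∃ (ρ' : Rst V) (w : ℕ), Enc l ρ s π ρ' w ∧
        wt p p0 p1 ρ ≤ wt p p0 p1 ρ' * r ^ w ∧ Inv ρ π ρ' := by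
  intro π s hL
  induction hL with
  | zero π =>
    intro _
    exact ⟨ρ, 0, Enc.zero π, by simp, fun _ _ => rfl⟩
  | step π s l1 l2 T τ h hd hT hne hrec ih =>
    intro hπ
    rcases Nat.eq_zero_or_pos s with hs | hs
    · subst hs
      exact ⟨ρ, 0, Enc.zero π, by simp, fun _ _ => rfl⟩
    have hTl : T ∈ l := by rw [h]; simp
    have hdis := hl T hTl
    set L := free ρ π T with hLdef
    have hLmem : ∀ v, v ∈ L ↔ (v ∈ T.1 ∨ v ∈ T.2) ∧ ρ v = none ∧ π v = none := by
      intro v
      rw [hLdef]
      unfold free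
      rw [Finset.mem_filter, Finset.mem_union, pv_none_iff]
    have hπ1 : ∀ i, upd π L τ i ≠ none → ρ i = none := by
      intro i hi
      by_cases hiL : i ∈ L
      · exact ((hLmem i).mp hiL).2.1
      · unfold upd at hi
        rw [if_neg hiL] at hi
        exact hπ i hi
    obtain ⟨ρ1, w1, hE, hw, hInv⟩ := ih hπ1
    have hagL : ∀ i ∈ L, ρ1 i = none := by
      intro i hi
      rw [hInv i (Or.inr (by unfold upd; rw [if_pos hi]; simp))]
      exact ((hLmem i).mp hi).2.1
    set D0 := L.filter (fun v => τ v = false) with hD0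
    set D1 := L.filter (fun v => τ v = true) with hD1
    have hDD : D0 ∪ D1 = L := by
      rw [hD0, hD1]
      ext v
      simp only [Finset.mem_union, Finset.mem_filter]
      constructor
      · rintro (h | h) <;> exact h.1
      · intro h
        cases hb : τ v
        · left; exact ⟨h, rfl⟩
        · right; exact ⟨h, rfl⟩
    have hDsub : L ⊆ T.1 ∪ T.2 := by
      intro v hv
      rw [Finset.mem_union]
      exact ((hLmem v).mp hv).1
    have hupd : updD π D0 D1 = upd π L τ := by
      funext i
      unfold updD upd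
      by_cases hiL : i ∈ L
      · rw [if_pos hiL]
        cases hb : τ i
        · rw [if_pos (by rw [hD0, Finset.mem_filter]; exact ⟨hiL, hb⟩)]
        · rw [if_neg, if_pos (by rw [hD1, Finset.mem_filter]; exact ⟨hiL, hb⟩)]
          rw [hD0, Finset.mem_filter, hb]
          rintro ⟨-, h⟩
          exact absurd h (by decide)
      · rw [if_neg hiL, if_neg, if_neg]
        · intro hh
          exact hiL (Finset.mem_filter.mp hh).1
        · intro hh
          exact hiL (Finset.mem_filter.mp hh).1
    set f : V → Bool := fun v => decide (v ∈ T.1) with hf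
    set ρ' : Rst V := fix L f ρ1 with hρ'
    have hundo : undo ρ' L = ρ1 := by
      funext v
      unfold undo
      by_cases hv : v ∈ L
      · rw [if_pos hv, hagL v hv]
      · rw [if_neg hv, hρ']
        unfold fix
        rw [if_neg hv]
    have hwt : wt p p0 p1 ρ ≤ wt p p0 p1 ρ' * r ^ (w1 + L.card) := by
      have h1 := wt_fix hp hp0 hp1 hr0 hr1 L f ρ1 hagL
      calc wt p p0 p1 ρ ≤ wt p p0 p1 ρ1 * r ^ w1 := hw
        _ ≤ (wt p p0 p1 ρ' * r ^ L.card) * r ^ w1 := by gcongr
        _ = _ := by rw [pow_add]; ring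
    have hInv' : Inv ρ π ρ' := by
      intro v hv
      have hvL : v ∉ L := by
        intro h'
        obtain ⟨-, h1, h2⟩ := (hLmem v).mp h'
        rcases hv with h | h
        · exact h h1
        · exact h h2
      rw [hρ']
      unfold fix
      rw [if_neg hvL]
      apply hInv v
      rcases hv with h | h
      · left; exact h
      · right
        unfold upd
        rw [if_neg hvL]
        exact h
    have hpvagr : ∀ v, (ρ v ≠ none ∨ π v ≠ none) → pv ρ' π v = pv ρ π v := by
      intro v hv
      unfold pv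
      rw [hInv' v hv]
    have hfree_or : ∀ v, (ρ v ≠ none ∨ π v ≠ none) ∨ (ρ v = none ∧ π v = none) := by
      intro v
      by_cases h1 : ρ v = none
      · by_cases h2 : π v = none
        · right; exact ⟨h1, h2⟩
        · left; right; exact h2
      · left; left; exact h1
    have hSat : Sat ρ' π T := by
      constructor
      · intro v hv
        rcases hfree_or v with hnf | hf'
        · rw [hpvagr v hnf]
          rcases hp' : pv ρ π v with _ | b
          · exfalso
            obtain ⟨h2, h3⟩ := pv_none_iff.mp hp'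
            rcases hnf with h | h
            · exact h h2
            · exact h h3
          · cases b
            · exact absurd (Or.inl ⟨v, hv, hp'⟩) hT
            · rfl
        · have hvL : v ∈ L := (hLmem v).mpr ⟨Or.inl hv, hf'⟩
          unfold pv
          rw [hρ']
          unfold fix
          rw [if_pos hvL, hf]
          simp [hv]
      · intro v hv
        rcases hfree_or v with hnf | hf'
        · rw [hpvagr v hnf]
          rcases hp' : pv ρ π v with _ | b
          · exfalso
            obtain ⟨h2, h3⟩ := pv_none_iff.mp hp'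
            rcases hnf with h | h
            · exact h h2
            · exact h h3
          · cases b
            · rfl
            · exact absurd (Or.inr ⟨v, hv, hp'⟩) hT
        · have hvL : v ∈ L := (hLmem v).mpr ⟨Or.inr hv, hf'⟩
          have hv1 : v ∉ T.1 := fun h' => Finset.disjoint_left.mp hdis h' hv
          unfold pv
          rw [hρ']
          unfold fix
          rw [if_pos hvL, hf]
          simp [hv1]
    have hNS : ∀ T' ∈ l1, ¬ Sat ρ' π T' := by
      intro T' hT' hsat
      rcases hd T' hT' with ⟨v, hv, hpv⟩ | ⟨v, hv, hpv⟩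
      · have hs' := hsat.1 v hv
        have hnf : ρ v ≠ none ∨ π v ≠ none := by
          rcases hfree_or v with h | h
          · exact h
          · rw [pv_none_iff.mpr h] at hpv
            exact absurd hpv (by decide)
        rw [hpvagr v hnf, hpv] at hs'
        exact absurd hs' (by decide)
      · have hs' := hsat.2 v hv
        have hnf : ρ v ≠ none ∨ π v ≠ none := by
          rcases hfree_or v with h | h
          · exact h
          · rw [pv_none_iff.mpr h] at hpv
            exact absurd hpv (by decide)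
        rw [hpvagr v hnf, hpv] at hs'
        exact absurd hs' (by decide)
    have hdis01 : Disjoint D0 D1 := by
      rw [Finset.disjoint_left]
      intro v h1 h2
      rw [hD0, Finset.mem_filter] at h1
      rw [hD1, Finset.mem_filter] at h2
      rw [h1.2] at h2
      exact absurd h2.2 (by decide)
    refine ⟨ρ', w1 + L.card, ?_, hwt, hInv'⟩
    have hstep := Enc.step (l := l) (ρ := ρ) s π ρ' l1 l2 T D0 D1 w1 hs h hNS hSat
      ((Finset.filter_subset _ _).trans hDsub) ((Finset.filter_subset _ _).trans hDsub)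
      hdis01 (by rw [hDD]; exact hne) (by
        rw [hDD, hupd, hundo]
        exact hE)
    rw [hDD] at hstep
    exact hstep

open Classical in
/-- **Switching lemma** for product restrictions. -/
theorem switching [Fintype V] (l : List (Trm V)) (hl : ∀ T ∈ l, Disjoint T.1 T.2)
    (t : ℕ) (hlt : ∀ T ∈ l, (T.1 ∪ T.2).card ≤ t)
    (p p0 p1 r κ : ℝ) (hp : 0 < p) (hp0 : 0 < p0) (hp1 : 0 < p1) (hsum : p + p0 + p1 = 1)
    (hr : 0 < r) (hr0 : p ≤ r * p0) (hr1 : p ≤ r * p1) (hκ : 0 < κ) (hκ1 : κ ≤ 1)
    (hb : (1 + r / κ) ^ (2 * t) ≤ 2) (s : ℕ) :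
    ∑ ρ ∈ (Finset.univ : Finset (Rst V)).filter (fun ρ => Long l ρ (fun _ => none) s),
      wt p p0 p1 ρ ≤ κ ^ s := by
  set B := (Finset.univ : Finset (Rst V)).filter (fun ρ => Long l ρ (fun _ => none) s) with hB
  have hex : ∀ ρ ∈ B, ∃ x : Rst V × ℕ, Enc l ρ s (fun _ => none) x.1 x.2 ∧
      wt p p0 p1 ρ ≤ wt p p0 p1 x.1 * r ^ x.2 := by
    intro ρ hρ
    rw [hB, Finset.mem_filter] at hρ
    obtain ⟨ρ', w, h1, h2, -⟩ := encode l hl ρ hp hp0 hp1 hr0 hr1 hr _ s hρ.2
      (by intro i hi; exact absurd rfl hi)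
    exact ⟨(ρ', w), h1, h2⟩
  choose! f hf1 hf2 using hex
  have hmaps : ∀ ρ ∈ B, (f ρ).1 ∈ (Finset.univ : Finset (Rst V)) := fun _ _ => Finset.mem_univ _
  rw [← Finset.sum_fiberwise_of_maps_to hmaps]
  have hone : ∀ ρ' ∈ (Finset.univ : Finset (Rst V)),
      ∑ ρ ∈ B.filter (fun ρ => (f ρ).1 = ρ'), wt p p0 p1 ρ ≤ wt p p0 p1 ρ' * κ ^ s := by
    intro ρ' _
    have hcnt := enc_count l t hlt r κ hr hκ hκ1 hb s (fun _ => none) ρ'
      ((B.filter (fun ρ => (f ρ).1 = ρ')).image (fun ρ => (ρ, (f ρ).2))) (by
        intro x hx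
        obtain ⟨ρ, hρ, rfl⟩ := Finset.mem_image.mp hx
        rw [Finset.mem_filter] at hρ
        have := hf1 ρ hρ.1
        rw [hρ.2] at this
        exact this)
    rw [Finset.sum_image (by
      intro x _ y _ hxy
      exact congrArg Prod.fst hxy)] at hcnt
    have hw' : 0 ≤ wt p p0 p1 ρ' := (wt_pos hp hp0 hp1 _).le
    calc ∑ ρ ∈ B.filter (fun ρ => (f ρ).1 = ρ'), wt p p0 p1 ρ
        ≤ wt p p0 p1 ρ' * ∑ ρ ∈ B.filter (fun ρ => (f ρ).1 = ρ'), r ^ (f ρ).2 := by
          rw [Finset.mul_sum]
          apply Finset.sum_le_sum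
          intro ρ hρ
          rw [Finset.mem_filter] at hρ
          have := hf2 ρ hρ.1
          rw [hρ.2] at this
          exact this
      _ ≤ wt p p0 p1 ρ' * κ ^ s := by gcongr
  calc ∑ ρ' : Rst V, ∑ ρ ∈ B.filter (fun ρ => (f ρ).1 = ρ'), wt p p0 p1 ρ
      ≤ ∑ ρ' : Rst V, wt p p0 p1 ρ' * κ ^ s := Finset.sum_le_sum hone
    _ = κ ^ s := by rw [← Finset.sum_mul, wt_total hsum, one_mul]

open Classical in
/-- **Switching lemma**, explicit form: width `t`, depth `s`, failure probability
`≤ (3 r t)^s` where `r` bounds the odds of a star against each constant. -/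
theorem switching' [Fintype V] (l : List (Trm V)) (hl : ∀ T ∈ l, Disjoint T.1 T.2)
    (t : ℕ) (ht : 0 < t) (hlt : ∀ T ∈ l, (T.1 ∪ T.2).card ≤ t)
    (p p0 p1 r : ℝ) (hp : 0 < p) (hp0 : 0 < p0) (hp1 : 0 < p1) (hsum : p + p0 + p1 = 1)
    (hr : 0 < r) (hr0 : p ≤ r * p0) (hr1 : p ≤ r * p1) (s : ℕ) :
    ∑ ρ ∈ (Finset.univ : Finset (Rst V)).filter (fun ρ => Long l ρ (fun _ => none) s),
      wt p p0 p1 ρ ≤ (3 * r * t) ^ s := by
  have htR : (0 : ℝ) < t := by exact_mod_cast ht
  by_cases h1 : 3 * r * t ≤ 1
  · apply switching l hl t hlt p p0 p1 r (3 * r * t) hp hp0 hp1 hsum hr hr0 hr1 (by positivity) h1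
    have h2 : r / (3 * r * t) = 1 / (3 * t) := by
      field_simp
    rw [h2]
    calc (1 + 1 / (3 * (t : ℝ))) ^ (2 * t) ≤ (Real.exp (1 / (3 * (t : ℝ)))) ^ (2 * t) := by
          gcongr
          have := Real.add_one_le_exp (1 / (3 * (t : ℝ)))
          linarith
      _ = Real.exp (2 / 3) := by
          rw [← Real.exp_nat_mul]
          congr 1
          push_cast
          field_simp
      _ ≤ 2 := by
          have e1 : Real.exp (2 / 3) ^ 3 = Real.exp 1 ^ 2 := by
            rw [← Real.exp_nat_mul, ← Real.exp_nat_mul]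
            norm_num
          have e2 := Real.exp_one_lt_d9
          have e3 : Real.exp 1 ^ 2 ≤ 8 := by
            have := Real.exp_pos 1
            nlinarith
          by_contra hcon
          push Not at hcon
          have : (2 : ℝ) ^ 3 < Real.exp (2 / 3) ^ 3 := by gcongr
          have e4 : (2 : ℝ) ^ 3 = 8 := by norm_num
          rw [e1, e4] at this
          linarith
  · push Not at h1
    calc ∑ ρ ∈ (Finset.univ : Finset (Rst V)).filter (fun ρ => Long l ρ (fun _ => none) s),
        wt p p0 p1 ρ ≤ ∑ ρ : Rst V, wt p p0 p1 ρ :=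
          Finset.sum_le_sum_of_subset_of_nonneg (Finset.filter_subset _ _)
            (fun _ _ _ => (wt_pos hp hp0 hp1 _).le)
      _ = 1 := wt_total hsum
      _ ≤ (3 * r * t) ^ s := one_le_pow₀ h1.le

end Pool.Agent.H8.Plain
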