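import Mathlib
import Pool.Agent.H7.PLimit
import Pool.Agent.H8.PStep

/-!
An infinite relativised polynomial hierarchy which satisfies the analogue of the theorem of Post:
a language is in `Sigma_(k+1)` and in `Pi_(k+1)` only if it is in `P` with an oracle in `Sigma_k`.
-/

set_option autoImplicit false

namespace Pool.Agent.H8p.PostTheoremPH

open Pool.Agent.H9
open Pool.Agent.H8p (DeltaP)

/-- **Main theorem.** For every oracle `B` there is an oracle `A` above `B` such that the
polynomial hierarchy relative to `A` is infinite, and every language which is, relative to `A`,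
in `Sigma_(k+1)` and in `Pi_(k+1)` is in `P` relative to a language of `Sigma_k`. -/
theorem result (B : Oracle) : ∃ A : Oracle,
    (∀ k : ℕ, SigmaP B k ⊆ SigmaP A k) ∧
    (∀ k : ℕ, SigmaP A k ⊂ SigmaP A (k + 1)) ∧
    ∀ (k : ℕ) (L : Set (List Bool)), L ∈ SigmaP A (k + 1) → Lᶜ ∈ SigmaP A (k + 1) →
      L ∈ DeltaP A k :=
  Pool.Agent.H7p.main_of_step Pool.Agent.H8p.step_post B

end Pool.Agent.H8p.PostTheoremPH
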