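import Pool.Agent.H8.Switch

set_option autoImplicit false
set_option linter.unusedSectionVars false

/-!
# Depth hierarchy for alternating trees (Sipser functions)

`Alt X b k P` : alternating quantification over `k` blocks from `X`, starting with the quantifier
`b` (`true` is existential).  Paths are stored with the innermost component last.
-/

namespace Pool.Agent.H8

open Finset

/-- paths of length `k` -/
def Path (X : Type) : ℕ → Type
  | 0 => Unit
  | k + 1 => Path X k × X

/-- the empty path -/
def Path.nil {X : Type} : Path X 0 := ()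

/-- adding an innermost component -/
def Path.snoc {X : Type} {k : ℕ} (l : Path X k) (x : X) : Path X (k + 1) := (l, x)

/-- dropping the innermost component -/
def Path.init {X : Type} {k : ℕ} (l : Path X (k + 1)) : Path X k := Prod.fst l

/-- the innermost component -/
def Path.last {X : Type} {k : ℕ} (l : Path X (k + 1)) : X := Prod.snd l

@[simp] theorem Path.init_snoc {X : Type} {k : ℕ} (l : Path X k) (x : X) :
    (l.snoc x).init = l := rfl

@[simp] theorem Path.last_snoc {X : Type} {k : ℕ} (l : Path X k) (x : X) :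
    (l.snoc x).last = x := rfl

@[simp] theorem Path.snoc_init_last {X : Type} {k : ℕ} (l : Path X (k + 1)) :
    l.init.snoc l.last = l := rfl

theorem Path.snoc_inj {X : Type} {k : ℕ} {l l' : Path X k} {x x' : X}
    (h : l.snoc x = l'.snoc x') : l = l' ∧ x = x' :=
  ⟨congrArg Path.init h, congrArg Path.last h⟩

instance Path.fintype (X : Type) [Fintype X] : (k : ℕ) → Fintype (Path X k)
  | 0 => inferInstanceAs (Fintype Unit)
  | k + 1 => @instFintypeProd (Path X k) X (Path.fintype X k) _

instance Path.decEq (X : Type) [DecidableEq X] : (k : ℕ) → DecidableEq (Path X k)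
  | 0 => inferInstanceAs (DecidableEq Unit)
  | k + 1 => @instDecidableEqProd (Path X k) X (Path.decEq X k) _

theorem Path.card (X : Type) [Fintype X] (k : ℕ) : Fintype.card (Path X k) = Fintype.card X ^ k := by
  induction k with
  | zero => rfl
  | succ k ih =>
    have : Fintype.card (Path X (k + 1)) = Fintype.card (Path X k) * Fintype.card X :=
      Fintype.card_prod (Path X k) X
    rw [this, ih, pow_succ]

/-- `quant true` is `∃`, `quant false` is `∀` -/
def quant {X : Type} (b : Bool) (P : X → Prop) : Prop :=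
  match b with
  | true => ∃ x, P x
  | false => ∀ x, P x

/-- type of the quantifier number `k` (counted from `0`) in an alternating list starting with `b` -/
def qty (b : Bool) : ℕ → Bool
  | 0 => b
  | k + 1 => !(qty b k)

/-- alternating quantification -/
def Alt (X : Type) (b : Bool) : (k : ℕ) → (Path X k → Prop) → Prop
  | 0, P => P Path.nil
  | k + 1, P => Alt X b k (fun l => quant (qty b k) (fun x => P (l.snoc x)))

theorem quant_congr {X : Type} (b : Bool) {P Q : X → Prop} (h : ∀ x, P x ↔ Q x) :
    quant b P ↔ quant b Q := by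
  cases b
  · exact forall_congr' h
  · exact exists_congr h

theorem quant_not {X : Type} (b : Bool) (P : X → Prop) :
    ¬ quant b P ↔ quant (!b) (fun x => ¬ P x) := by
  cases b
  · simp [quant]
  · simp [quant]

theorem qty_not (b : Bool) (k : ℕ) : qty (!b) k = !(qty b k) := by
  induction k with
  | zero => rfl
  | succ k ih => simp [qty, ih]

theorem Alt_congr {X : Type} (b : Bool) (k : ℕ) {P Q : Path X k → Prop} (h : ∀ x, P x ↔ Q x) :
    Alt X b k P ↔ Alt X b k Q := by
  induction k with
  | zero => exact h Path.nil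
  | succ k ih => exact ih (fun l => quant_congr _ (fun x => h (l.snoc x)))

theorem Alt_not {X : Type} (b : Bool) (k : ℕ) (P : Path X k → Prop) :
    ¬ Alt X b k P ↔ Alt X (!b) k (fun x => ¬ P x) := by
  induction k with
  | zero => rfl
  | succ k ih =>
    show ¬ Alt X b k (fun l => quant (qty b k) (fun x => P (l.snoc x))) ↔
      Alt X (!b) k (fun l => quant (qty (!b) k) (fun x => ¬ P (l.snoc x)))
    rw [ih]
    apply Alt_congr
    intro l
    rw [quant_not, qty_not]

/-! ### Certificates -/

theorem Loc.not {V : Type*} {t : ℕ} {F : (V → Bool) → Prop} (h : Loc t F) :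
    Loc t (fun α => ¬ F α) := by
  intro α
  obtain ⟨Q, hQ, h2⟩ := h α
  exact ⟨Q, hQ, fun β hβ => not_congr (h2 β hβ)⟩

/-- Substitutions in which every coordinate depends on at most one coordinate preserve `Loc`. -/
theorem Loc.comp {V W : Type*} [DecidableEq W] {t : ℕ} {F : (V → Bool) → Prop} (h : Loc t F)
    (φ : (W → Bool) → (V → Bool))
    (hφ : ∀ v, ∃ S : Finset W, S.card ≤ 1 ∧ ∀ β β' : W → Bool, (∀ w ∈ S, β w = β' w) →
      φ β v = φ β' v) : Loc t (fun β => F (φ β)) := by
  choose S hS1 hS2 using hφ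
  intro α
  obtain ⟨Q, hQ, h2⟩ := h (φ α)
  refine ⟨Q.biUnion S, ?_, ?_⟩
  · calc (Q.biUnion S).card ≤ ∑ v ∈ Q, (S v).card := Finset.card_biUnion_le
      _ ≤ ∑ v ∈ Q, 1 := Finset.sum_le_sum (fun v _ => hS1 v)
      _ = Q.card := by simp
      _ ≤ t := hQ
  · intro β hβ
    apply h2
    intro v hv
    apply hS2
    intro w hw
    exact hβ w (Finset.mem_biUnion.mpr ⟨v, hv, hw⟩)

theorem Loc.mono {V : Type*} {t t' : ℕ} (htt : t ≤ t') {F : (V → Bool) → Prop} (h : Loc t F) :
    Loc t' F := by
  intro α
  obtain ⟨Q, hQ, h2⟩ := h α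
  exact ⟨Q, hQ.trans htt, h2⟩

theorem Cert.exists {V X : Type*} {t : ℕ} {G : X → (V → Bool) → Prop} (h : ∀ x, Loc t (G x)) :
    Cert t (fun α => ∃ x, G x α) := by
  rintro α ⟨x, hx⟩
  obtain ⟨Q, hQ, h2⟩ := h x α
  exact ⟨Q, hQ, fun β hβ => ⟨x, (h2 β hβ).mpr hx⟩⟩

section

variable {I J : Type} [DecidableEq I] [DecidableEq J] [Fintype I] [Fintype J]

theorem terms_of_cert {t : ℕ} {F : (I × J → Bool) → Prop} (h : Cert t F) :
    ∃ l : List (Trm I J), (∀ T ∈ l, Disjoint T.1 T.2) ∧ (∀ T ∈ l, (T.1 ∪ T.2).card ≤ t) ∧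
      ∀ x, F x ↔ ∃ T ∈ l, TSat T x := by
  classical
  refine ⟨((Finset.univ : Finset (Trm I J)).filter (fun T => Disjoint T.1 T.2 ∧
    (T.1 ∪ T.2).card ≤ t ∧ ∀ x, TSat T x → F x)).toList, ?_, ?_, ?_⟩
  · intro T hT
    rw [Finset.mem_toList, Finset.mem_filter] at hT
    exact hT.2.1
  · intro T hT
    rw [Finset.mem_toList, Finset.mem_filter] at hT
    exact hT.2.2.1
  · intro x
    constructor
    · intro hx
      obtain ⟨Q, hQ, h2⟩ := h x hx
      refine ⟨(Q.filter (fun v => x v = true), Q.filter (fun v => x v = false)), ?_, ?_⟩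
      · rw [Finset.mem_toList, Finset.mem_filter]
        refine ⟨Finset.mem_univ _, ?_, ?_, ?_⟩
        · rw [Finset.disjoint_left]
          intro v h1 h2
          rw [Finset.mem_filter] at h1 h2
          rw [h1.2] at h2
          exact absurd h2.2 (by decide)
        · refine le_trans (Finset.card_le_card ?_) hQ
          intro v hv
          rw [Finset.mem_union, Finset.mem_filter, Finset.mem_filter] at hv
          rcases hv with h | h <;> exact h.1
        · rintro y ⟨hy1, hy2⟩
          apply h2
          intro v hv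
          cases hb : x v
          · exact hy2 v (Finset.mem_filter.mpr ⟨hv, hb⟩)
          · exact hy1 v (Finset.mem_filter.mpr ⟨hv, hb⟩)
      · constructor
        · intro v hv
          exact (Finset.mem_filter.mp hv).2
        · intro v hv
          exact (Finset.mem_filter.mp hv).2
    · rintro ⟨T, hT, hs⟩
      rw [Finset.mem_toList, Finset.mem_filter] at hT
      exact hT.2.2.2 x hs

theorem wR_nonneg {p : ℝ} (hp : 0 < p) (hp1 : p < 1) (ρ : Rho I J) : 0 ≤ wR p ρ := by
  unfold wR
  exact (mul_pos (wt_pos hp hp1 _) (wt_pos hp hp1 _)).le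

theorem wR_total (p : ℝ) : ∑ ρ : Rho I J, wR p ρ = 1 := by
  unfold wR
  rw [Fintype.sum_prod_type]
  simp only
  have h1 : ∀ a : I × J → Bool, ∑ z : I → Bool, wt p a * wt p z = wt p a := by
    intro a
    rw [← Finset.mul_sum, wt_total, mul_one]
  rw [Finset.sum_congr rfl (fun a _ => h1 a), wt_total]

open Classical in
theorem wR_act (p : ℝ) (S : Finset (I × J)) :
    ∑ ρ ∈ (Finset.univ : Finset (Rho I J)).filter (fun ρ => ∀ v ∈ S, ρ.1 v = false), wR p ρ =
      (1 - p) ^ S.card := by
  have h0 := wt_false p S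
  have h : (Finset.univ : Finset (Rho I J)).filter (fun ρ => ∀ v ∈ S, ρ.1 v = false) =
      ((Finset.univ : Finset (I × J → Bool)).filter (fun x => ∀ a ∈ S, x a = false)) ×ˢ
        (Finset.univ : Finset (I → Bool)) := by
    ext ρ
    simp [Finset.mem_product]
  rw [h, Finset.sum_product]
  unfold wR
  simp only
  rw [← h0]
  apply Finset.sum_congr
  · ext x
    simp
  · intro a _
    rw [← Finset.mul_sum, wt_total, mul_one]

open Classical in
theorem wR_star (p : ℝ) (S : Finset I) :
    ∑ ρ ∈ (Finset.univ : Finset (Rho I J)).filter (fun ρ => ∀ i ∈ S, ρ.2 i = false), wR p ρ =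
      (1 - p) ^ S.card := by
  have h0 := wt_false p S
  have h : (Finset.univ : Finset (Rho I J)).filter (fun ρ => ∀ v ∈ S, ρ.2 v = false) =
      (Finset.univ : Finset (I × J → Bool)) ×ˢ
        ((Finset.univ : Finset (I → Bool)).filter (fun x => ∀ a ∈ S, x a = false)) := by
    ext ρ
    simp [Finset.mem_product]
  rw [h, Finset.sum_product_right]
  unfold wR
  simp only
  rw [← h0]
  apply Finset.sum_congr
  · ext x
    simp
  · intro a _
    rw [← Finset.sum_mul, wt_total, one_mul]

/-- Existence of a good projection. -/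
theorem exists_good {A B : Type} [Fintype A] [Fintype B] (l : A → List (Trm I J))
    (hl : ∀ a, ∀ T ∈ l a, Disjoint T.1 T.2)
    (t : ℕ) (hlt : ∀ a, ∀ T ∈ l a, (T.1 ∪ T.2).card ≤ t)
    (p κ : ℝ) (hp : 0 < p) (hp1 : p < 1) (hκ : 0 < κ) (hκ1 : κ ≤ 1)
    (hb : (1 + p / (1 - p) / κ) ^ (2 * t) ≤ 2) (s c : ℕ)
    (grp : B → Finset I) (hgrp : ∀ x, c ≤ (grp x).card) (hJ : c ≤ Fintype.card J)
    (hsum : Fintype.card A * κ ^ s + Fintype.card I * (1 - p) ^ c +
      Fintype.card B * (1 - p) ^ c < 1) :
    ∃ ρ : Rho I J, (∀ a, ¬ Long (l a) ρ (fun _ => none) s) ∧ (∀ i, ∃ j, ρ.1 (i, j) = true) ∧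
      (∀ x, ∃ i ∈ grp x, ρ.2 i = true) := by
  classical
  by_contra hcon
  push Not at hcon
  have hle1 : ∀ n, c ≤ n → (1 - p) ^ n ≤ (1 - p) ^ c := fun n hn =>
    pow_le_pow_of_le_one (by linarith) (by linarith) hn
  have hcover : ∀ ρ : Rho I J, wR p ρ ≤
      (∑ a : A, if Long (l a) ρ (fun _ => none) s then wR p ρ else 0) +
      (∑ i : I, if (∀ v ∈ (Finset.univ : Finset J).image (fun j => (i, j)), ρ.1 v = false)
        then wR p ρ else 0) +
      (∑ x : B, if (∀ i ∈ grp x, ρ.2 i = false) then wR p ρ else 0) := by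
    intro ρ
    have hn := wR_nonneg hp hp1 ρ
    have n1 : 0 ≤ (∑ a : A, if Long (l a) ρ (fun _ => none) s then wR p ρ else 0) :=
      Finset.sum_nonneg (fun a _ => by split_ifs <;> simp [hn])
    have n2 : 0 ≤ (∑ i : I, if (∀ v ∈ (Finset.univ : Finset J).image (fun j => (i, j)),
        ρ.1 v = false) then wR p ρ else 0) :=
      Finset.sum_nonneg (fun a _ => by split_ifs <;> simp [hn])
    have n3 : 0 ≤ (∑ x : B, if (∀ i ∈ grp x, ρ.2 i = false) then wR p ρ else 0) :=
      Finset.sum_nonneg (fun a _ => by split_ifs <;> simp [hn])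
    by_cases h1 : ∀ a, ¬ Long (l a) ρ (fun _ => none) s
    · by_cases h2 : ∀ i, ∃ j, ρ.1 (i, j) = true
      · obtain ⟨x, hx⟩ := hcon ρ h1 h2
        have : wR p ρ ≤ (∑ x : B, if (∀ i ∈ grp x, ρ.2 i = false) then wR p ρ else 0) := by
          refine le_trans ?_ (Finset.single_le_sum (fun a _ => by split_ifs <;> simp [hn])
            (Finset.mem_univ x))
          rw [if_pos]
          intro i hi
          simpa using hx i hi
        linarith
      · push Not at h2
        obtain ⟨i, hi⟩ := h2
        have : wR p ρ ≤ (∑ i : I, if (∀ v ∈ (Finset.univ : Finset J).image (fun j => (i, j)),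
            ρ.1 v = false) then wR p ρ else 0) := by
          refine le_trans ?_ (Finset.single_le_sum (fun a _ => by split_ifs <;> simp [hn])
            (Finset.mem_univ i))
          rw [if_pos]
          intro v hv
          obtain ⟨j, -, rfl⟩ := Finset.mem_image.mp hv
          simpa using hi j
        linarith
    · push Not at h1
      obtain ⟨a, ha⟩ := h1
      have : wR p ρ ≤ (∑ a : A, if Long (l a) ρ (fun _ => none) s then wR p ρ else 0) := by
        refine le_trans ?_ (Finset.single_le_sum (fun a _ => by split_ifs <;> simp [hn])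
          (Finset.mem_univ a))
        rw [if_pos ha]
      linarith
  have htot := Finset.sum_le_sum (fun ρ (_ : ρ ∈ (Finset.univ : Finset (Rho I J))) => hcover ρ)
  rw [wR_total, Finset.sum_add_distrib, Finset.sum_add_distrib, Finset.sum_comm,
    Finset.sum_comm (γ := Rho I J) (α := I), Finset.sum_comm (γ := Rho I J) (α := B)] at htot
  have b1 : ∑ a : A, ∑ ρ : Rho I J, (if Long (l a) ρ (fun _ => none) s then wR p ρ else 0) ≤
      Fintype.card A * κ ^ s := by
    calc _ ≤ ∑ a : A, κ ^ s := by
          apply Finset.sum_le_sum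
          intro a _
          rw [← Finset.sum_filter]
          have := switching (l a) (hl a) t (hlt a) p κ hp hp1 hκ hκ1 hb s
          convert this using 2
      _ = _ := by simp
  have b2 : ∑ i : I, ∑ ρ : Rho I J, (if (∀ v ∈ (Finset.univ : Finset J).image (fun j => (i, j)),
      ρ.1 v = false) then wR p ρ else 0) ≤ Fintype.card I * (1 - p) ^ c := by
    calc _ ≤ ∑ i : I, (1 - p) ^ c := by
          apply Finset.sum_le_sum
          intro i _
          rw [← Finset.sum_filter]
          have h1 := wR_act p ((Finset.univ : Finset J).image (fun j => ((i, j) : I × J)))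
          have h2 : ((Finset.univ : Finset J).image (fun j => ((i, j) : I × J))).card =
              Fintype.card J := by
            rw [Finset.card_image_of_injective]
            · rfl
            · intro a b hab
              exact (Prod.mk.inj hab).2
          rw [h2] at h1
          refine le_trans (le_of_eq ?_) (hle1 _ hJ)
          rw [← h1]
      _ = _ := by simp
  have b3 : ∑ x : B, ∑ ρ : Rho I J, (if (∀ i ∈ grp x, ρ.2 i = false) then wR p ρ else 0) ≤
      Fintype.card B * (1 - p) ^ c := by
    calc _ ≤ ∑ i : B, (1 - p) ^ c := by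
          apply Finset.sum_le_sum
          intro x _
          rw [← Finset.sum_filter]
          have h1 := wR_star (I := I) (J := J) p (grp x)
          refine le_trans (le_of_eq ?_) (hle1 _ (hgrp x))
          rw [← h1]
      _ = _ := by simp
  linarith

end

/-! ### The hierarchy theorem -/

/-- The Sipser tree with `k + 1` levels, top quantifier `b`, upper fan-ins `W`, bottom fan-in `J`. -/
def Tgt (W J : Type) (b : Bool) (k : ℕ) (α : Path W k × J → Bool) : Prop :=
  Alt W b k (fun l => quant (qty b k) (fun j => α (l, j) = true))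

theorem Tgt_not {W J : Type} (b : Bool) (k : ℕ) (α : Path W k × J → Bool) :
    ¬ Tgt W J b k α ↔ Tgt W J (!b) k (fun v => !(α v)) := by
  unfold Tgt
  rw [Alt_not]
  apply Alt_congr
  intro l
  rw [quant_not, qty_not]
  apply quant_congr
  intro j
  simp

/-- Statement of the hierarchy theorem at level `k`. -/
def Hard (U W J : Type) (t : ℕ) (b : Bool) (k : ℕ) : Prop :=
  ∀ G : Path U (k + 1) → (Path W k × J → Bool) → Prop, (∀ u, Loc t (G u)) →
    ∃ α, ¬ (Tgt W J b k α ↔ Alt U (!b) (k + 1) (fun u => G u α))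

theorem Hard.dual {U W J : Type} {t : ℕ} {b : Bool} {k : ℕ} (h : Hard U W J t (!b) k) :
    Hard U W J t b k := by
  classical
  intro G hG
  obtain ⟨α, hα⟩ := h (fun u β => ¬ G u (fun v => !(β v))) (fun u => by
    have := (hG u).comp (W := Path W k × J) (fun β v => !(β v)) (by
      intro v
      refine ⟨{v}, by simp, ?_⟩
      intro β β' hb
      rw [hb v (by simp)])
    exact this.not)
  refine ⟨fun v => !(α v), ?_⟩
  intro hiff
  apply hα
  have h1 : Tgt W J (!b) k α ↔ ¬ Tgt W J b k (fun v => !(α v)) := by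
    rw [Tgt_not]
    simp
  have h2 : Alt U (!!b) (k + 1) (fun u => ¬ G u (fun v => !(α v))) ↔
      ¬ Alt U (!b) (k + 1) (fun u => G u (fun v => !(α v))) := by
    rw [Alt_not]
  rw [h1, h2, hiff]

theorem hard_zero_false {U W J : Type} [Fintype J] [DecidableEq J] [DecidableEq W] {t : ℕ}
    (hJ : t < Fintype.card J) : Hard U W J t false 0 := by
  classical
  intro G hG
  by_cases h1 : Alt U (!false) 1 (fun u => G u (fun _ => true))
  · obtain ⟨x, hx⟩ : ∃ x : U, G (Path.nil.snoc x) (fun _ => true) := h1
    obtain ⟨Q, hQ, hQ2⟩ := hG (Path.nil.snoc x) (fun _ => true)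
    have hex : ∃ j : J, ((Path.nil, j) : Path W 0 × J) ∉ Q := by
      by_contra hcon
      push Not at hcon
      have : Fintype.card J ≤ Q.card := by
        have hsub : (Finset.univ : Finset J).image (fun j => ((Path.nil, j) : Path W 0 × J)) ⊆ Q := by
          intro v hv
          obtain ⟨j, -, rfl⟩ := Finset.mem_image.mp hv
          exact hcon j
        have hc := Finset.card_le_card hsub
        rw [Finset.card_image_of_injective] at hc
        · exact hc
        · intro a b hab
          exact (Prod.mk.inj hab).2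
      omega
    obtain ⟨j, hj⟩ := hex
    set α : Path W 0 × J → Bool := fun v => if v = (Path.nil, j) then false else true with hα
    refine ⟨α, ?_⟩
    intro hiff
    have hF : Alt U (!false) 1 (fun u => G u α) := by
      show ∃ x : U, G (Path.nil.snoc x) α
      refine ⟨x, ?_⟩
      rw [hQ2]
      · exact hx
      · intro v hv
        rw [hα]
        simp only
        rw [if_neg]
        rintro rfl
        exact hj hv
    have hT := hiff.mpr hF
    have hT' : ∀ j' : J, α (Path.nil, j') = true := hT
    have := hT' j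
    rw [hα] at this
    simp at this
  · refine ⟨fun _ => true, ?_⟩
    intro hiff
    apply h1
    apply hiff.mp
    show ∀ j : J, true = true
    intro _
    rfl

theorem hard_step {U M g J : Type} [Fintype U] [Fintype M] [Fintype g] [Fintype J]
    [DecidableEq M] [DecidableEq g] [DecidableEq J] {t c : ℕ}
    {p κ : ℝ} (hp : 0 < p) (hp1 : p < 1) (hκ : 0 < κ) (hκ1 : κ ≤ 1)
    (hb : (1 + p / (1 - p) / κ) ^ (2 * t) ≤ 2) {b : Bool} {k : ℕ} (hty : qty b (k + 1) = false)
    (hg : c ≤ Fintype.card g) (hJ : c ≤ Fintype.card J)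
    (hsum : (Fintype.card U : ℝ) ^ (k + 1) * κ ^ t +
      (Fintype.card (M × g) : ℝ) ^ (k + 1) * (1 - p) ^ c +
      ((Fintype.card (M × g) : ℝ) ^ k * Fintype.card M) * (1 - p) ^ c < 1)
    (ih : Hard U (M × g) M t b k) : Hard U (M × g) J t b (k + 1) := by
  classical
  intro G hG
  -- the bottom functions of the circuit
  have hty' : qty (!b) (k + 1) = true := by rw [qty_not, hty]; rfl
  have hcert : ∀ u : Path U (k + 1), Cert t (fun α => ∃ x, G (u.snoc x) α) :=
    fun u => Cert.exists (fun x => hG (u.snoc x))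
  choose l hl1 hl2 hl3 using fun u => terms_of_cert (hcert u)
  obtain ⟨ρ, hρ1, hρ2, hρ3⟩ := exists_good (I := Path (M × g) (k + 1)) (J := J)
    (A := Path U (k + 1)) (B := Path (M × g) k × M) l hl1 t hl2 p κ hp hp1 hκ hκ1 hb t c
    (fun x => (Finset.univ : Finset g).image (fun y => x.1.snoc (x.2, y)))
    (by
      intro x
      rw [Finset.card_image_of_injective]
      · exact hg
      · intro a b hab
        exact (Prod.mk.inj (Path.snoc_inj hab).2).2) hJ (by
      rw [Path.card, Path.card]
      have : Fintype.card (Path (M × g) k × M) = Fintype.card (M × g) ^ k * Fintype.card M := by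
        rw [Fintype.card_prod, Path.card]
      rw [this]
      push_cast
      exact_mod_cast hsum)
  have hρ3' : ∀ x : Path (M × g) k × M, ∃ y : g, ρ.2 (x.1.snoc (x.2, y)) = true := by
    intro x
    obtain ⟨i, hi, h⟩ := hρ3 x
    obtain ⟨y, -, rfl⟩ := Finset.mem_image.mp hi
    exact ⟨y, h⟩
  choose ch hch using hρ3'
  -- the substitution
  let Y : (Path (M × g) k × M → Bool) → (Path (M × g) (k + 1) → Bool) :=
    fun y' i => decide (i.last.2 = ch (i.init, i.last.1)) && y' (i.init, i.last.1)
  obtain ⟨y', hy'⟩ := ih (fun u β => ∃ x, G (u.snoc x) (app ρ (Y β))) (by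
    intro u
    have hdec : Loc t (fun y : Path (M × g) (k + 1) → Bool => ∃ x, G (u.snoc x) (app ρ y)) := by
      intro y
      obtain ⟨Q, hQ, hQ2⟩ := decision (l u) ρ t (fun _ => none) (hρ1 u) y
        (by intro i b h; exact absurd h (by simp))
      refine ⟨Q, hQ.le, ?_⟩
      intro y2 hy2
      have := hQ2 y2 (by intro i b h; exact absurd h (by simp)) hy2
      rw [← hl3 u, ← hl3 u] at this
      exact this
    exact hdec.comp Y (by
      intro i
      refine ⟨{(i.init, i.last.1)}, by simp, ?_⟩
      intro β β' hb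
      have := hb (i.init, i.last.1) (by simp)
      simp only [Y]
      rw [this]))
  refine ⟨app ρ (Y y'), ?_⟩
  intro hiff
  apply hy'
  -- the target after the projection
  have hblock : ∀ i : Path (M × g) (k + 1), (∀ j : J, app ρ (Y y') (i, j) = true) ↔
      (ρ.2 i = true ∧ Y y' i = true) := by
    intro i
    constructor
    · intro h
      obtain ⟨j, hj⟩ := hρ2 i
      have h1 := h j
      unfold app at h1
      rw [if_neg (by rw [hj]; decide)] at h1
      split_ifs at h1 with h2
      · exact ⟨by simpa using h2, h1⟩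
    · rintro ⟨h1, h2⟩ j
      unfold app
      split_ifs with h3 h4
      · rfl
      · simp only at h4
        rw [h1] at h4
        exact absurd h4 (by decide)
      · exact h2
  have hqk : qty b k = true := by
    have : qty b (k + 1) = !(qty b k) := rfl
    rw [this] at hty
    simpa using hty
  have hT : Tgt (M × g) J b (k + 1) (app ρ (Y y')) ↔ Tgt (M × g) M b k y' := by
    unfold Tgt
    rw [hty]
    show Alt (M × g) b k (fun l => quant (qty b k) (fun w =>
        quant false (fun j => app ρ (Y y') (l.snoc w, j) = true))) ↔ _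
    apply Alt_congr
    intro l
    rw [hqk]
    constructor
    · rintro ⟨w, hw⟩
      have h1 := (hblock (l.snoc w)).mp hw
      obtain ⟨-, h2⟩ := h1
      simp only [Y, Bool.and_eq_true, Path.init_snoc, Path.last_snoc] at h2
      exact ⟨w.1, h2.2⟩
    · rintro ⟨m, hm⟩
      refine ⟨(m, ch (l, m)), ?_⟩
      apply (hblock (l.snoc (m, ch (l, m)))).mpr
      refine ⟨hch (l, m), ?_⟩
      simp only [Y, Bool.and_eq_true, Path.init_snoc, Path.last_snoc]
      exact ⟨by simp, hm⟩
  have hF : Alt U (!b) (k + 1 + 1) (fun u => G u (app ρ (Y y'))) ↔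
      Alt U (!b) (k + 1) (fun u => ∃ x, G (u.snoc x) (app ρ (Y y'))) := by
    show Alt U (!b) (k + 1)
      (fun u => quant (qty (!b) (k + 1)) (fun x => G (u.snoc x) (app ρ (Y y')))) ↔ _
    rw [hty']
    rfl
  rw [← hT, ← hF]
  exact hiff

/-- **Depth hierarchy.**  Under the numerical conditions, no alternation of `k + 1` blocks over `U`
on top of functions with certificates of size `t` computes the Sipser tree with `k + 1` levels that
starts with the opposite quantifier. -/
theorem hierarchy {U M g J : Type} [Fintype U] [Fintype M] [Fintype g] [Fintype J]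
    [Nonempty U] [Nonempty M] [Nonempty g]
    [DecidableEq M] [DecidableEq g] [DecidableEq J] {t c K : ℕ} (htc : t < c)
    {p κ : ℝ} (hp : 0 < p) (hp1 : p < 1) (hκ : 0 < κ) (hκ1 : κ ≤ 1)
    (hb : (1 + p / (1 - p) / κ) ^ (2 * t) ≤ 2)
    (hg : c ≤ Fintype.card g) (hM : c ≤ Fintype.card M) (hJ : c ≤ Fintype.card J)
    (h1 : (Fintype.card U : ℝ) ^ K * κ ^ t ≤ 1 / 4)
    (h2 : (Fintype.card (M × g) : ℝ) ^ K * (1 - p) ^ c ≤ 1 / 4) (b : Bool) (k : ℕ) (hk : k ≤ K) :
    Hard U (M × g) J t b k := by
  induction k generalizing J b with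
  | zero =>
    have hJt : t < Fintype.card J := by omega
    cases b
    · exact hard_zero_false hJt
    · exact Hard.dual (hard_zero_false hJt)
  | succ k ih =>
    have hcU : (1 : ℝ) ≤ Fintype.card U := by
      exact_mod_cast Fintype.card_pos
    have hcW : (1 : ℝ) ≤ Fintype.card (M × g) := by
      exact_mod_cast Fintype.card_pos
    have hcg : (1 : ℝ) ≤ Fintype.card g := by
      exact_mod_cast Fintype.card_pos
    have hMW : (Fintype.card M : ℝ) ≤ Fintype.card (M × g) := by
      rw [Fintype.card_prod]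
      push_cast
      have : (0 : ℝ) ≤ Fintype.card M := by positivity
      nlinarith
    have e1 : (Fintype.card U : ℝ) ^ (k + 1) * κ ^ t ≤ 1 / 4 := by
      refine le_trans ?_ h1
      gcongr
    have e0 : (0 : ℝ) ≤ (1 - p) ^ c := by
      apply pow_nonneg
      linarith
    have e2 : (Fintype.card (M × g) : ℝ) ^ (k + 1) * (1 - p) ^ c ≤ 1 / 4 := by
      refine le_trans ?_ h2
      gcongr
    have e3 : ((Fintype.card (M × g) : ℝ) ^ k * Fintype.card M) * (1 - p) ^ c ≤ 1 / 4 := by
      refine le_trans ?_ e2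
      rw [pow_succ]
      gcongr
    have key : ∀ b, qty b (k + 1) = false → Hard U (M × g) J t b (k + 1) := by
      intro b hty
      exact hard_step hp hp1 hκ hκ1 hb hty hg hJ (by linarith) (ih hM b (by omega))
    cases hty : qty b (k + 1)
    · exact key b hty
    · apply Hard.dual
      apply key
      rw [qty_not, hty]
      rfl

theorem exp_half_le_two : Real.exp (1 / 2) ≤ 2 := by
  have h1 : Real.exp (1 / 2) * Real.exp (1 / 2) = Real.exp 1 := by
    rw [← Real.exp_add]; norm_num
  have h2 := Real.exp_one_lt_d9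
  have h3 := Real.exp_pos (1 / 2)
  nlinarith

theorem two_pow_le_exp (n : ℕ) : (2 : ℝ) ^ n ≤ Real.exp n := by
  have h : (2 : ℝ) ≤ Real.exp 1 := by
    have := Real.add_one_le_exp (1 : ℝ)
    linarith
  calc (2 : ℝ) ^ n ≤ (Real.exp 1) ^ n := by gcongr
    _ = Real.exp n := by rw [← Real.exp_nat_mul]; simp

/-- Numerical form of the depth hierarchy. -/
theorem hierarchy_bits {U M g J : Type} [Fintype U] [Fintype M] [Fintype g] [Fintype J]
    [Nonempty U] [DecidableEq M] [DecidableEq g] [DecidableEq J] {t q K e : ℕ}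
    (hU : Fintype.card U ≤ 2 ^ q) (hM : Fintype.card M = 2 ^ e) (hg : Fintype.card g = 2 ^ e)
    (hJ : 2 ^ e ≤ Fintype.card J) (ht : q * K + 2 ≤ t)
    (he : (8 * t + 1) * (2 * e * K + 2) ≤ 2 ^ e) (b : Bool) (k : ℕ) (hk : k ≤ K) :
    Hard U (M × g) J t b k := by
  have : Nonempty M := by
    rw [← Fintype.card_pos_iff, hM]; positivity
  have : Nonempty g := by
    rw [← Fintype.card_pos_iff, hg]; positivity
  have ht0 : 0 < t := by omega
  have htR : (0 : ℝ) < t := by exact_mod_cast ht0
  have htc : t < 2 ^ e := by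
    calc t < 8 * t + 1 := by omega
      _ ≤ (8 * t + 1) * (2 * e * K + 2) := Nat.le_mul_of_pos_right _ (by omega)
      _ ≤ 2 ^ e := he
  refine hierarchy (c := 2 ^ e) (K := K) (p := 1 / (8 * t + 1)) (κ := 1 / 2) htc
    (by positivity) ?_ (by norm_num) (by norm_num) ?_ hg.ge hM.ge hJ ?_ ?_ b k hk
  · rw [div_lt_one (by positivity)]
    linarith
  · have h1 : (1 : ℝ) / (8 * t + 1) / (1 - 1 / (8 * t + 1)) / (1 / 2) = 1 / (4 * t) := by
      field_simp
      ring
    rw [h1]
    calc (1 + 1 / (4 * (t : ℝ))) ^ (2 * t) ≤ (Real.exp (1 / (4 * (t : ℝ)))) ^ (2 * t) := by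
          gcongr
          have := Real.add_one_le_exp (1 / (4 * (t : ℝ)))
          linarith
      _ = Real.exp (1 / 2) := by
          rw [← Real.exp_nat_mul]
          congr 1
          push_cast
          field_simp
          norm_num
      _ ≤ 2 := exp_half_le_two
  · have h2 : (Fintype.card U : ℝ) ^ K ≤ 2 ^ (q * K) := by
      rw [pow_mul]
      gcongr
      exact_mod_cast hU
    calc (Fintype.card U : ℝ) ^ K * (1 / 2) ^ t ≤ 2 ^ (q * K) * (1 / 2) ^ t := by gcongr
      _ ≤ 2 ^ (q * K) * (1 / 2) ^ (q * K + 2) := by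
          apply mul_le_mul_of_nonneg_left _ (by positivity)
          exact pow_le_pow_of_le_one (by norm_num) (by norm_num) ht
      _ = 1 / 4 := by
          rw [pow_add, ← mul_assoc, ← mul_pow]
          norm_num
  · have hW : (Fintype.card (M × g) : ℝ) = 2 ^ (2 * e) := by
      rw [Fintype.card_prod, hM, hg]
      push_cast
      rw [← pow_add]
      congr 1
      ring
    have heR : ((8 * t + 1 : ℕ) : ℝ) * ((2 * e * K + 2 : ℕ) : ℝ) ≤ 2 ^ e := by
      exact_mod_cast he
    have h3 : (1 - 1 / (8 * (t : ℝ) + 1)) ^ (2 ^ e) ≤ Real.exp (-((2 * e * K + 2 : ℕ) : ℝ)) := by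
      calc (1 - 1 / (8 * (t : ℝ) + 1)) ^ (2 ^ e)
          ≤ (Real.exp (-(1 / (8 * (t : ℝ) + 1)))) ^ (2 ^ e) := by
            apply pow_le_pow_left₀
            · rw [sub_nonneg, div_le_one (by positivity)]
              linarith
            · have := Real.add_one_le_exp (-(1 / (8 * (t : ℝ) + 1)))
              linarith
        _ = Real.exp (-((2 ^ e : ℕ) : ℝ) / (8 * (t : ℝ) + 1)) := by
            rw [← Real.exp_nat_mul]
            congr 1
            push_cast
            ring
        _ ≤ Real.exp (-((2 * e * K + 2 : ℕ) : ℝ)) := by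
            apply Real.exp_le_exp.mpr
            rw [neg_div, neg_le_neg_iff, le_div_iff₀ (by positivity)]
            push_cast at heR ⊢
            linarith
    rw [hW, ← pow_mul]
    calc (2 : ℝ) ^ (2 * e * K) * (1 - 1 / (8 * (t : ℝ) + 1)) ^ (2 ^ e)
        ≤ 2 ^ (2 * e * K) * Real.exp (-((2 * e * K + 2 : ℕ) : ℝ)) := by gcongr
      _ ≤ 2 ^ (2 * e * K) * (1 / 2 ^ (2 * e * K + 2)) := by
          gcongr
          rw [Real.exp_neg, ← one_div]
          apply one_div_le_one_div_of_le (by positivity)
          exact two_pow_le_exp _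
      _ = 1 / 4 := by
          rw [pow_add]
          field_simp
          norm_num

end Pool.Agent.H8
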