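import Pool.Agent.H8.Step

set_option autoImplicit false
set_option linter.unusedSectionVars false

/-!
# The elimination step at all heights, and resampling
-/

namespace Pool.Agent.H8h

open Finset

section

variable {α B J : Type} [DecidableEq α] [DecidableEq B] [DecidableEq J] [Fintype B] [Fintype J]
  [Nonempty J]

theorem Elim2.mono {ch : α → Option (B × Option J)} {emb : B → α} {C : Finset B}
    {ok' : ℕ → α → Bool → Prop} {w' S' w'' S'' : ℕ} {ε ε' : ℝ} {h : ℕ} {f : (α → Bool) → Prop}
    (hE : Elim2 ch emb C ok' w' S' ε h f) (h1 : w' ≤ w'') (h2 : S' ≤ S'') (h3 : ε ≤ ε') :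
    Elim2 ch emb C ok' w'' S'' ε' h f := by
  obtain ⟨Tr, e1, e2, e3⟩ := hE
  exact ⟨Tr, fun Y => (e1 Y).mono (fun _ _ _ h => h) h1 h2, e2, fun ω => (e3 ω).trans h3⟩

/-- A formula without atoms of the eliminated kind. -/
theorem elim_trivial {ch : α → Option (B × Option J)} {emb : B → α} {C : Finset B}
    {ok ok' : ℕ → α → Bool → Prop} {w S h : ℕ} {f : (α → Bool) → Prop} (hf : Cl ok w S h f)
    (hno : ∀ h' a s, 1 ≤ h' → h' ≤ h → ok h' a s → ch a = none)
    (hok1 : ∀ h' a s, 1 ≤ h' → h' ≤ h → ok h' a s → ch a = none → ok' h' a s) :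
    Elim2 ch emb C ok' w S 0 h f := by
  refine ⟨fun _ => f, ?_, fun _ _ _ => rfl, ?_⟩
  · intro _
    have hsub : ∀ (h0 : ℕ) (f0 : (α → Bool) → Prop), h0 ≤ h → Cl ok w S h0 f0 →
        Cl ok' w S h0 f0 := by
      intro h0 f0 hh0 hf0
      induction hf0 with
      | bot => exact Cl.bot
      | @node h1 ι1 D1 as1 g1 hD1 has1 _ ih1 =>
        exact Cl.node D1 as1 g1 hD1 (fun i hi => ⟨(has1 i hi).1, fun l hl =>
          hok1 _ _ _ (by omega) (by omega) ((has1 i hi).2 l hl)
            (hno _ _ _ (by omega) (by omega) ((has1 i hi).2 l hl))⟩)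
          (fun i hi => ih1 i hi (by omega))
    exact hsub h f le_rfl hf
  · intro ω
    refine le_of_eq ?_
    rw [← pr_false (Ω := B → J)]
    apply pr_congr
    intro Y
    have := no_child (emb := emb) hf hno ω Y
    constructor
    · intro h
      exact h this
    · intro h
      exact h.elim

/-- error parameter -/
noncomputable def qq (J : Type) [Fintype J] (w r : ℕ) : ℝ :=
  (2 * ((w + 2 * w * r : ℕ) : ℝ)) ^ 2 / Fintype.card J

theorem qq_nonneg (w r : ℕ) : 0 ≤ qq J w r := by
  unfold qq
  positivity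

theorem qA_le (w r : ℕ) : (2 * w : ℝ) ^ 2 / Fintype.card J ≤ qq J w r := by
  unfold qq
  apply div_le_div_of_nonneg_right _ (by positivity)
  apply pow_le_pow_left₀ (by positivity)
  have : (w : ℝ) ≤ ((w + 2 * w * r : ℕ) : ℝ) := by
    exact_mod_cast Nat.le_add_right _ _
  linarith

/-- The hypotheses of the step number `i`. -/
structure StepHyp (ch : α → Option (B × Option J)) (emb : B → α) (C : Finset B)
    (ok ok' : ℕ → α → Bool → Prop) (i : ℕ) : Prop where
  hC : ∀ a b oj, ch a = some (b, oj) → b ∈ C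
  hht : ∀ h a s, 1 ≤ h → ok h a s → ch a ≠ none → h = i ∨ h = i + 1
  hsg : ∀ h a, 1 ≤ i → ok h a true → ch a = none
  hok1 : ∀ h a s, 1 ≤ h → ok h a s → ch a = none → ok' h a s
  hok2 : ∀ h b, b ∈ C → h = i + 1 ∨ h = i + 2 → ok' h (emb b) false

variable {ch : α → Option (B × Option J)} {emb : B → α} {C : Finset B}
  {ok ok' : ℕ → α → Bool → Prop} {i : ℕ}

/-- The nodes above the critical heights. -/
theorem step_high (H : StepHyp ch emb C ok ok' i) {w S : ℕ} (hw : 1 ≤ w) (r : ℕ) (d : ℕ)
    {f : (α → Bool) → Prop} (hf : Cl ok w S (i + 2 + d) f) :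
    Elim2 ch emb C ok' ((w + 2 * w * r) * (1 + 2 * r))
      (S * (Fintype.card B + 1) ^ (2 * (w + 2 * w * r) * r))
      ((S + 1 : ℝ) ^ (i + 2 + d) * (qq J w r) ^ r) (i + 2 + d) f := by
  have hq0 : 0 ≤ qq J w r := qq_nonneg w r
  have hqr : 0 ≤ (qq J w r) ^ r := by positivity
  have hqA : ((2 * w : ℝ) ^ 2 / Fintype.card J) ^ r ≤ (qq J w r) ^ r :=
    pow_le_pow_left₀ (by positivity) (qA_le w r) r
  have hS0 : (0 : ℝ) ≤ S := by positivity
  have hw1 : w ≤ (w + 2 * w * r) * (1 + 2 * r) := by nlinarith [Nat.zero_le (w * r)]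
  have hw2 : w + 2 * (w + 2 * w * r) * r ≤ (w + 2 * w * r) * (1 + 2 * r) := by
    nlinarith [Nat.zero_le (w * r)]
  have hw3 : w + 2 * w * r ≤ (w + 2 * w * r) * (1 + 2 * r) :=
    Nat.le_mul_of_pos_right _ (by omega)
  have hB : 1 ≤ Fintype.card B + 1 := by omega
  have hexp : 2 * w * r ≤ 2 * (w + 2 * w * r) * r := by
    apply Nat.mul_le_mul_right
    omega
  have hSB : S * (Fintype.card B + 1) ^ (2 * w * r) ≤
      S * (Fintype.card B + 1) ^ (2 * (w + 2 * w * r) * r) :=
    Nat.mul_le_mul_left _ (Nat.pow_le_pow_right hB hexp)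
  have hSS : S ≤ S * (Fintype.card B + 1) ^ (2 * (w + 2 * w * r) * r) :=
    Nat.le_mul_of_pos_right _ (Nat.pow_pos (by omega))
  induction d generalizing f with
  | zero =>
    rcases Nat.eq_zero_or_pos i with hi | hi
    · subst hi
      have h1 := nodeE1 (ch := ch) (emb := emb) (C := C) (ok := ok) (ok' := ok') (w := w) (S := S)
        (w' := w) (S' := S) (κ := 2 * w * r) (h := 1)
        (ε := ((2 * w : ℝ) ^ 2 / Fintype.card J) ^ r) (by positivity) hf
        (by
          intro a s h
          by_contra hcon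
          have := H.hht _ a s (by omega) h hcon
          omega)
        (by
          intro a s h
          refine H.hok1 _ a s (by omega) h ?_
          by_contra hcon
          have := H.hht _ a s (by omega) h hcon
          omega)
        (fun b hb => H.hok2 _ b hb (Or.inr rfl))
        (by
          intro g hg
          refine (stepA (emb := emb) H.hC hw r hg (by intro h' a s h1 h2; omega)
            (fun h' a s h1 _ h3 h4 => H.hok1 h' a s h1 h3 h4) ?_).elim1
          intro a b oj h1 h2
          exact H.hok2 _ b (H.hC a b oj h2) (Or.inl rfl))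
      refine h1.mono (max_le hw1 ?_) (max_le hSS hSB) ?_
      · refine le_trans ?_ hw3
        omega
      · calc (S : ℝ) * ((2 * w : ℝ) ^ 2 / Fintype.card J) ^ r ≤ (S + 1) ^ 2 * (qq J w r) ^ r := by
              apply mul_le_mul _ hqA (by positivity) (by positivity)
              nlinarith
          _ = _ := by norm_num
    · obtain ⟨h, rfl⟩ : ∃ h, i = h + 1 := ⟨i - 1, by omega⟩
      have h1 := nodeE1 (ch := ch) (emb := emb) (C := C) (ok := ok) (ok' := ok') (w := w) (S := S)
        (w' := w + 2 * w * r) (S' := S * (Fintype.card B + 1) ^ (2 * w * r))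
        (κ := 2 * (w + 2 * w * r) * r) (h := h + 2)
        (ε := S * ((2 * w : ℝ) ^ 2 / Fintype.card J) ^ r +
        ((2 * ((w + 2 * w * r : ℕ) : ℝ)) ^ 2 / Fintype.card J) ^ r) (by positivity)
        (f := f) (by
          have e : h + 1 + 2 + 0 = h + 2 + 1 := by omega
          rw [e] at hf
          exact hf)
        (by
          intro a s h
          by_contra hcon
          have := H.hht _ a s (by omega) h hcon
          omega)
        (by
          intro a s h
          refine H.hok1 _ a s (by omega) h ?_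
          by_contra hcon
          have := H.hht _ a s (by omega) h hcon
          omega)
        (fun b hb => H.hok2 _ b hb (Or.inr rfl))
        (by
          intro g hg
          refine (stepB (emb := emb) H.hC hw r hg ?_ ?_
            (fun h' a s h1 _ h3 h4 => H.hok1 h' a s h1 h3 h4)
            (fun b hb => H.hok2 _ b hb (Or.inl rfl))).1
          · intro h' a s h1 h2 h3
            by_contra hcon
            have := H.hht _ a s h1 h3 hcon
            omega
          · intro h' a h3
            exact H.hsg h' a (by omega) h3)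
      have e : h + 1 + 2 + 0 = h + 2 + 1 := by omega
      rw [e]
      refine h1.mono (max_le hw3 hw2) (max_le hSB le_rfl) ?_
      have e2 : ((2 * ((w + 2 * w * r : ℕ) : ℝ)) ^ 2 / Fintype.card J) ^ r = (qq J w r) ^ r := rfl
      rw [e2]
      have h2 : (S + 1 : ℝ) ^ 2 ≤ (S + 1 : ℝ) ^ (h + 2 + 1) :=
        pow_le_pow_right₀ (by linarith) (by omega)
      calc (S : ℝ) * (S * ((2 * w : ℝ) ^ 2 / Fintype.card J) ^ r + (qq J w r) ^ r)
          ≤ S * (S * (qq J w r) ^ r + (qq J w r) ^ r) := by
            apply mul_le_mul_of_nonneg_left _ hS0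
            have := mul_le_mul_of_nonneg_left hqA hS0
            linarith
        _ = (S * (S + 1)) * (qq J w r) ^ r := by ring
        _ ≤ (S + 1) ^ 2 * (qq J w r) ^ r := by
            apply mul_le_mul_of_nonneg_right _ hqr
            nlinarith
        _ ≤ _ := mul_le_mul_of_nonneg_right h2 hqr
  | succ d ih =>
    have h1 := nodeE2 (ch := ch) (emb := emb) (C := C) (ok := ok) (ok' := ok') (w := w) (S := S)
      (w' := (w + 2 * w * r) * (1 + 2 * r))
      (S' := S * (Fintype.card B + 1) ^ (2 * (w + 2 * w * r) * r)) (h := i + 2 + d)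
      (ε := (S + 1 : ℝ) ^ (i + 2 + d) * (qq J w r) ^ r) (by positivity) (f := f) hf
      (by
        intro a s h
        by_contra hcon
        have := H.hht _ a s (by omega) h hcon
        omega)
      (by
        intro a s h
        refine H.hok1 _ a s (by omega) h ?_
        by_contra hcon
        have := H.hht _ a s (by omega) h hcon
        omega) hw1 hSS (fun g hg => ih hg)
    refine h1.mono le_rfl le_rfl ?_
    calc (S : ℝ) * ((S + 1 : ℝ) ^ (i + 2 + d) * (qq J w r) ^ r)
        ≤ (S + 1) * ((S + 1 : ℝ) ^ (i + 2 + d) * (qq J w r) ^ r) := by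
          apply mul_le_mul_of_nonneg_right _ (by positivity)
          linarith
      _ = (S + 1 : ℝ) ^ (i + 2 + (d + 1)) * (qq J w r) ^ r := by
          rw [← mul_assoc, ← pow_succ']
          rfl

/-- **The elimination step at all heights.** -/
theorem step_all (H : StepHyp ch emb C ok ok' i) {w S : ℕ} (hw : 1 ≤ w) (r : ℕ) (k : ℕ)
    {f : (α → Bool) → Prop} (hf : Cl ok w S k f) :
    Elim2 ch emb C ok' ((w + 2 * w * r) * (1 + 2 * r))
      (S * (Fintype.card B + 1) ^ (2 * (w + 2 * w * r) * r))
      ((S + 1 : ℝ) ^ k * (qq J w r) ^ r + qq J w r) k f := by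
  have hq0 : 0 ≤ qq J w r := qq_nonneg w r
  have hqr : 0 ≤ (qq J w r) ^ r := by positivity
  have hqA : ((2 * w : ℝ) ^ 2 / Fintype.card J) ^ r ≤ (qq J w r) ^ r :=
    pow_le_pow_left₀ (by positivity) (qA_le w r) r
  have hS0 : (0 : ℝ) ≤ S := by positivity
  have hpos : 0 ≤ (S + 1 : ℝ) ^ k * (qq J w r) ^ r := by positivity
  have hw1 : w ≤ (w + 2 * w * r) * (1 + 2 * r) := by nlinarith [Nat.zero_le (w * r)]
  have hw3 : w + 2 * w * r ≤ (w + 2 * w * r) * (1 + 2 * r) :=
    Nat.le_mul_of_pos_right _ (by omega)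
  have hB : 1 ≤ Fintype.card B + 1 := by omega
  have hexp : 2 * w * r ≤ 2 * (w + 2 * w * r) * r := by
    apply Nat.mul_le_mul_right
    omega
  have hSB : S * (Fintype.card B + 1) ^ (2 * w * r) ≤
      S * (Fintype.card B + 1) ^ (2 * (w + 2 * w * r) * r) :=
    Nat.mul_le_mul_left _ (Nat.pow_le_pow_right hB hexp)
  have hSS : S ≤ S * (Fintype.card B + 1) ^ (2 * (w + 2 * w * r) * r) :=
    Nat.le_mul_of_pos_right _ (Nat.pow_pos (by omega))
  rcases Nat.lt_or_ge k (i + 2) with hk | hk
  · rcases Nat.lt_or_ge k i with hk1 | hk1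
    · refine (elim_trivial hf ?_ (fun h' a s h1 _ h3 h4 => H.hok1 h' a s h1 h3 h4)).mono hw1 hSS
        (by linarith)
      intro h' a s h1 h2 h3
      by_contra hcon
      have := H.hht _ a s h1 h3 hcon
      omega
    · rcases Nat.eq_zero_or_pos k with hk0 | hk0
      · subst hk0
        refine (elim_trivial hf ?_ (fun h' a s h1 _ h3 h4 => H.hok1 h' a s h1 h3 h4)).mono hw1 hSS
          (by linarith)
        intro h' a s h1 h2 h3
        omega
      · -- the critical heights
        obtain ⟨h, rfl⟩ : ∃ h, k = h + 1 := ⟨k - 1, by omega⟩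
        have hqA1 : (2 * w : ℝ) ^ 2 / Fintype.card J ≤
            (S + 1 : ℝ) ^ (h + 1) * (qq J w r) ^ r + qq J w r := by
          have := qA_le (J := J) w r
          linarith
        rcases Nat.eq_or_lt_of_le hk1 with hk2 | hk2
        · -- `k = i`
          refine ((stepA (emb := emb) H.hC hw r hf ?_
            (fun h' a s h1 _ h3 h4 => H.hok1 h' a s h1 h3 h4) ?_).elim2).mono hw1 hSS hqA1
          · intro h' a s h1 h2 h3
            by_contra hcon
            have := H.hht _ a s h1 h3 hcon
            omega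
          · intro a b oj h1 h2
            have := H.hsg _ a (by omega) h1
            rw [this] at h2
            simp at h2
        · -- `k = i + 1`
          have hik : i = h := by omega
          subst hik
          rcases Nat.eq_zero_or_pos i with hi | hi
          · subst hi
            refine ((stepA (emb := emb) H.hC hw r hf (by intro h' a s h1 h2; omega)
              (fun h' a s h1 _ h3 h4 => H.hok1 h' a s h1 h3 h4) ?_).elim2).mono hw1 hSS hqA1
            intro a b oj h1 h2
            exact H.hok2 _ b (H.hC a b oj h2) (Or.inl rfl)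
          · obtain ⟨h, rfl⟩ : ∃ h, i = h + 1 := ⟨i - 1, by omega⟩
            refine ((stepB (emb := emb) H.hC hw r hf ?_ ?_
              (fun h' a s h1 _ h3 h4 => H.hok1 h' a s h1 h3 h4)
              (fun b hb => H.hok2 _ b hb (Or.inl rfl))).2).mono hw3 hSB ?_
            · intro h' a s h1 h2 h3
              by_contra hcon
              have := H.hht _ a s h1 h3 hcon
              omega
            · intro h' a h3
              exact H.hsg h' a (by omega) h3
            · have e2 : (2 * ((w + 2 * w * r : ℕ) : ℝ)) ^ 2 / Fintype.card J = qq J w r := rfl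
              rw [e2]
              have h2 : (S : ℝ) ≤ (S + 1 : ℝ) ^ (h + 1 + 1) := by
                have h3 : (1 : ℝ) ≤ S + 1 := by linarith
                calc (S : ℝ) ≤ (S + 1) ^ 1 := by linarith
                  _ ≤ _ := pow_le_pow_right₀ h3 (by omega)
              have h3 := mul_le_mul h2 hqA (by positivity) (by positivity)
              linarith
  · obtain ⟨d, rfl⟩ := Nat.exists_eq_add_of_le hk
    exact (step_high H hw r d hf).mono le_rfl le_rfl (by linarith)

/-! ### Resampling -/

/-- One stage for a family of worlds which depend on the hidden positions. -/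
theorem stage {Dt : Type} (W : Dt → (B → J) → α → Bool) (Rv : Finset B)
    (hdisj : Disjoint Rv C) (H : StepHyp ch emb C ok ok' i)
    (hW1 : ∀ (D : Dt) (Y Y' : B → J), (∀ b, b ∉ C → Y b = Y' b) → ∀ h a s, 1 ≤ h → ok' h a s →
      W D Y a = W D Y' a)
    (hW2 : ∀ (D : Dt) (Y : B → J) (a : α) (b : B) (oj : Option J), ch a = some (b, oj) →
      (W D Y a = true ↔ oj = some (Y b) ∧ W D Y (emb b) = false))
    {w S : ℕ} (hw : 1 ≤ w) (r : ℕ) (k : ℕ) (f : (B → J) → (α → Bool) → Prop)
    (hf : ∀ Y, Cl ok w S k (f Y)) (hfd : ∀ Y Y', (∀ b ∈ Rv, Y b = Y' b) → f Y = f Y') :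
    ∃ f' : (B → J) → (α → Bool) → Prop,
      (∀ Y, Cl ok' ((w + 2 * w * r) * (1 + 2 * r))
        (S * (Fintype.card B + 1) ^ (2 * (w + 2 * w * r) * r)) k (f' Y)) ∧
      (∀ Y Y', (∀ b ∈ Rv ∪ C, Y b = Y' b) → f' Y = f' Y') ∧
      ∀ D, pr (fun Y => ¬ (f Y (W D Y) ↔ f' Y (W D Y))) ≤
        (S + 1 : ℝ) ^ k * (qq J w r) ^ r + qq J w r := by
  classical
  choose Tr h1 h2 h3 using fun Y => step_all (J := J) H hw r k (hf Y)
  obtain ⟨j0⟩ := (inferInstance : Nonempty J)
  refine ⟨fun Y => Tr (Rv.piecewise Y (fun _ => j0)) Y, fun Y => h1 _ _, ?_, ?_⟩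
  · intro Y Y' hY
    have e1 : Rv.piecewise Y (fun _ => j0) = Rv.piecewise Y' (fun _ => j0) := by
      funext b
      by_cases hb : b ∈ Rv
      · rw [Finset.piecewise_eq_of_mem _ _ _ hb, Finset.piecewise_eq_of_mem _ _ _ hb]
        exact hY b (Finset.mem_union_left _ hb)
      · rw [Finset.piecewise_eq_of_notMem _ _ _ hb, Finset.piecewise_eq_of_notMem _ _ _ hb]
    simp only [e1]
    exact h2 _ _ _ (fun b hb => hY b (Finset.mem_union_right _ hb))
  · intro D
    apply pr_piecewise C
    intro Y0
    refine le_trans (pr_mono ?_) (h3 (Rv.piecewise Y0 (fun _ => j0)) (W D Y0))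
    intro Y hY
    set Z := C.piecewise Y Y0 with hZ
    intro hiff
    apply hY
    have hZR : ∀ b ∈ Rv, Z b = Y0 b := by
      intro b hb
      rw [hZ, Finset.piecewise_eq_of_notMem _ _ _ (Finset.disjoint_left.1 hdisj hb)]
    have hZC : ∀ b ∈ C, Z b = Y b := by
      intro b hb
      rw [hZ, Finset.piecewise_eq_of_mem _ _ _ hb]
    have hZo : ∀ b, b ∉ C → Z b = Y0 b := by
      intro b hb
      rw [hZ, Finset.piecewise_eq_of_notMem _ _ _ hb]
    have e1 : Rv.piecewise Z (fun _ => j0) = Rv.piecewise Y0 (fun _ => j0) := by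
      funext b
      by_cases hb : b ∈ Rv
      · rw [Finset.piecewise_eq_of_mem _ _ _ hb, Finset.piecewise_eq_of_mem _ _ _ hb]
        exact hZR b hb
      · rw [Finset.piecewise_eq_of_notMem _ _ _ hb, Finset.piecewise_eq_of_notMem _ _ _ hb]
    have e2 : f Z = f (Rv.piecewise Y0 (fun _ => j0)) := by
      apply hfd
      intro b hb
      rw [Finset.piecewise_eq_of_mem _ _ _ hb]
      exact hZR b hb
    have e3 : Tr (Rv.piecewise Z (fun _ => j0)) Z = Tr (Rv.piecewise Y0 (fun _ => j0)) Y := by
      rw [e1]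
      exact h2 _ _ _ hZC
    have hnew : ∀ h a s, 1 ≤ h → ok' h a s → W D Z a = W D Y0 a :=
      hW1 D Z Y0 hZo
    show f Z (W D Z) ↔ Tr (Rv.piecewise Z (fun _ => j0)) Z (W D Z)
    rw [e2, e3]
    have e4 : Tr (Rv.piecewise Y0 (fun _ => j0)) Y (W D Z) ↔
        Tr (Rv.piecewise Y0 (fun _ => j0)) Y (W D Y0) :=
      (h1 _ _).depends (fun h' a s hh1 _ hh3 => hnew h' a s hh1 hh3)
    rw [e4, ← hiff]
    apply (hf _).depends
    intro h' a s hh1 _ hh3
    cases hc : ch a with
    | none =>
      rw [old_none hc]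
      exact hnew h' a s hh1 (H.hok1 h' a s hh1 hh3 hc)
    | some bo =>
      obtain ⟨b, oj⟩ := bo
      have hb := H.hC a b oj hc
      rw [Bool.eq_iff_iff, hW2 D Z a b oj hc, old_true hc, hZC b hb,
        hnew (i + 1) (emb b) false (by omega) (H.hok2 _ b hb (Or.inl rfl))]

end

end Pool.Agent.H8h
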