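import Mathlib

set_option autoImplicit false
set_option linter.unusedSectionVars false

/-!
# A block switching lemma (identification form)

Variables are indexed by `I × J` (blocks `I`, positions `J`).  A projection `ρ = (a, z)` has an
activity pattern `a : I × J → Bool` and a star pattern `z : I → Bool`.  Inactive variables are set
to `true`; active variables of a star block `i` are identified with a new variable `y i`; active
variables of a non-star block are set to `false`.
-/

namespace Pool.Agent.H8

open Finset

/-- Every input has a certificate of size at most `t` for the value of `F`. -/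
def Loc {V : Type*} (t : ℕ) (F : (V → Bool) → Prop) : Prop :=
  ∀ α : V → Bool, ∃ Q : Finset V, Q.card ≤ t ∧
    ∀ β : V → Bool, (∀ v ∈ Q, β v = α v) → (F β ↔ F α)

/-- Every accepted input has a certificate of size at most `t`. -/
def Cert {V : Type*} (t : ℕ) (F : (V → Bool) → Prop) : Prop :=
  ∀ α : V → Bool, F α → ∃ Q : Finset V, Q.card ≤ t ∧
    ∀ β : V → Bool, (∀ v ∈ Q, β v = α v) → F β

section Switching

variable {I J : Type} [DecidableEq I] [DecidableEq J]

/-- projections: activity pattern, star pattern -/
abbrev Rho (I J : Type) := (I × J → Bool) × (I → Bool)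

/-- the assignment obtained from an assignment of the block variables -/
def app (ρ : Rho I J) (y : I → Bool) : I × J → Bool :=
  fun v => if ρ.1 v = false then true else if ρ.2 v.1 = false then false else y v.1

/-- partial value -/
def pv (ρ : Rho I J) (π : I → Option Bool) (v : I × J) : Option Bool :=
  if ρ.1 v = false then some true else if ρ.2 v.1 = false then some false else π v.1

/-- terms: positive and negative variables -/
abbrev Trm (I J : Type) := Finset (I × J) × Finset (I × J)

def Sat (ρ : Rho I J) (π : I → Option Bool) (T : Trm I J) : Prop :=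
  (∀ v ∈ T.1, pv ρ π v = some true) ∧ (∀ v ∈ T.2, pv ρ π v = some false)

def Dead (ρ : Rho I J) (π : I → Option Bool) (T : Trm I J) : Prop :=
  (∃ v ∈ T.1, pv ρ π v = some false) ∨ (∃ v ∈ T.2, pv ρ π v = some true) ∨
    (∃ v ∈ T.1, ∃ w ∈ T.2, v.1 = w.1 ∧ pv ρ π v = none ∧ pv ρ π w = none)

def freeP (ρ : Rho I J) (π : I → Option Bool) (T : Trm I J) : Finset (I × J) :=
  T.1.filter (fun v => pv ρ π v = none)

def freeN (ρ : Rho I J) (π : I → Option Bool) (T : Trm I J) : Finset (I × J) :=
  T.2.filter (fun v => pv ρ π v = none)

def live (ρ : Rho I J) (π : I → Option Bool) (T : Trm I J) : Finset I :=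
  (freeP ρ π T ∪ freeN ρ π T).image Prod.fst

def upd (π : I → Option Bool) (L : Finset I) (τ : I → Bool) : I → Option Bool :=
  fun i => if i ∈ L then some (τ i) else π i

def updD (π : I → Option Bool) (D0 D1 : Finset (I × J)) : I → Option Bool :=
  fun i => if i ∈ D0.image Prod.fst then some false
    else if i ∈ D1.image Prod.fst then some true else π i

def undo (ρ' : Rho I J) (T : Trm I J) (D : Finset (I × J)) : Rho I J :=
  (fun v => if v ∈ T.1 ∧ v ∈ D then true else ρ'.1 v,
   fun i => if i ∈ (T.2 ∩ D).image Prod.fst then true else ρ'.2 i)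

/-- `Long l ρ π s`: from the partial assignment `π` the canonical decision process for the
disjunction of the terms `l` under `ρ` can ask at least `s` further blocks. -/
inductive Long (l : List (Trm I J)) (ρ : Rho I J) : (I → Option Bool) → ℕ → Prop
  | zero (π : I → Option Bool) : Long l ρ π 0
  | step (π : I → Option Bool) (s : ℕ) (l1 l2 : List (Trm I J)) (T : Trm I J) (τ : I → Bool)
      (h : l = l1 ++ T :: l2) (hd : ∀ T' ∈ l1, Dead ρ π T') (hT : ¬ Dead ρ π T)
      (hne : (live ρ π T).Nonempty)
      (hrec : Long l ρ (upd π (live ρ π T) τ) (s - (live ρ π T).card)) : Long l ρ π s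

inductive Enc (l : List (Trm I J)) (ρ : Rho I J) :
    ℕ → (I → Option Bool) → Rho I J → ℕ → Prop
  | zero (π : I → Option Bool) : Enc l ρ 0 π ρ 0
  | step (s : ℕ) (π : I → Option Bool) (ρ' : Rho I J) (l1 l2 : List (Trm I J)) (T : Trm I J)
      (D0 D1 : Finset (I × J)) (w : ℕ) (hs : 0 < s) (h : l = l1 ++ T :: l2)
      (hd : ∀ T' ∈ l1, ¬ Sat ρ' π T') (hT : Sat ρ' π T)
      (hD0 : D0 ⊆ T.1 ∪ T.2) (hD1 : D1 ⊆ T.1 ∪ T.2) (hdis : Disjoint D0 D1)
      (hne : (D0 ∪ D1).Nonempty)
      (hrec : Enc l ρ (s - ((D0 ∪ D1).image Prod.fst).card) (updD π D0 D1)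
        (undo ρ' T (D0 ∪ D1)) w) :
      Enc l ρ s π ρ' (w + (D0 ∪ D1).card)

/-- uniqueness of the first satisfied term -/
theorem first_unique {α : Type*} (P : α → Prop) {l l1 l2 m1 m2 : List α} {a b : α}
    (h : l = l1 ++ a :: l2) (h' : l = m1 ++ b :: m2)
    (hl : ∀ x ∈ l1, ¬ P x) (ha : P a) (hm : ∀ x ∈ m1, ¬ P x) (hb : P b) : a = b := by
  subst h
  induction l1 generalizing m1 with
  | nil =>
    cases m1 with
    | nil => simpa using (List.cons.inj h').1
    | cons c m1 =>
      exfalso
      have := (List.cons.inj h').1
      exact hm c (by simp) (this ▸ ha)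
  | cons c l1 ih =>
    cases m1 with
    | nil =>
      exfalso
      have := (List.cons.inj h').1
      exact hl c (by simp) (this ▸ hb)
    | cons d m1 =>
      have h2 := (List.cons.inj h').2
      exact ih (fun x hx => hl x (List.mem_cons_of_mem _ hx))
        (fun x hx => hm x (List.mem_cons_of_mem _ hx)) h2

/-- The counting half: the total code weight over one encoded projection. -/
theorem enc_count (l : List (Trm I J)) (t : ℕ) (hl : ∀ T ∈ l, (T.1 ∪ T.2).card ≤ t)
    (r κ : ℝ) (hr : 0 < r) (hκ : 0 < κ) (hκ1 : κ ≤ 1) (hb : (1 + r / κ) ^ (2 * t) ≤ 2) (s : ℕ) :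
    ∀ (π : I → Option Bool) (ρ' : Rho I J) (X : Finset (Rho I J × ℕ)),
      (∀ x ∈ X, Enc l x.1 s π ρ' x.2) → ∑ x ∈ X, r ^ x.2 ≤ κ ^ s := by
  classical
  induction s using Nat.strong_induction_on with
  | _ s ih =>
  intro π ρ' X hX
  by_cases hs : s = 0
  · subst hs
    have hsub : X ⊆ {(ρ', 0)} := by
      intro x hx
      have h := hX x hx
      rcases x with ⟨ρ, w⟩
      simp only at h
      cases h with
      | zero => simp
      | step _ _ _ _ _ _ _ _ _ hs => exact absurd hs (lt_irrefl 0)
    calc ∑ x ∈ X, r ^ x.2 ≤ ∑ x ∈ ({(ρ', 0)} : Finset (Rho I J × ℕ)), r ^ x.2 :=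
          Finset.sum_le_sum_of_subset_of_nonneg hsub (fun _ _ _ => by positivity)
      _ = κ ^ 0 := by simp
  · by_cases hXe : X = ∅
    · subst hXe
      simp only [Finset.sum_empty]
      positivity
    · obtain ⟨x0, hx0⟩ := Finset.nonempty_iff_ne_empty.mpr hXe
      -- every member comes from a step, with a common term
      have key : ∀ x ∈ X, ∃ (l1 l2 : List (Trm I J)) (T : Trm I J) (D0 D1 : Finset (I × J)) (w : ℕ),
          l = l1 ++ T :: l2 ∧ (∀ T' ∈ l1, ¬ Sat ρ' π T') ∧ Sat ρ' π T ∧ D0 ⊆ T.1 ∪ T.2 ∧
          D1 ⊆ T.1 ∪ T.2 ∧ Disjoint D0 D1 ∧ (D0 ∪ D1).Nonempty ∧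
          Enc l x.1 (s - ((D0 ∪ D1).image Prod.fst).card) (updD π D0 D1)
            (undo ρ' T (D0 ∪ D1)) w ∧ x.2 = w + (D0 ∪ D1).card := by
        intro x hx
        have h := hX x hx
        rcases x with ⟨ρ, w⟩
        simp only at h ⊢
        cases h with
        | zero => exact absurd rfl hs
        | step _ _ _ l1 l2 T D0 D1 w hs h hd hT hD0 hD1 hdis hne hrec =>
          exact ⟨l1, l2, T, D0, D1, w, h, hd, hT, hD0, hD1, hdis, hne, hrec, rfl⟩
      obtain ⟨m1, m2, T, -, -, -, hm, hmd, hmT, -⟩ := key x0 hx0
      have key2 : ∀ x ∈ X, ∃ (D : Finset (I × J) × Finset (I × J)),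
          D.1 ⊆ T.1 ∪ T.2 ∧
          D.2 ⊆ T.1 ∪ T.2 ∧ Disjoint D.1 D.2 ∧ (D.1 ∪ D.2).Nonempty ∧
          (D.1 ∪ D.2).card ≤ x.2 ∧
          Enc l x.1 (s - ((D.1 ∪ D.2).image Prod.fst).card) (updD π D.1 D.2)
            (undo ρ' T (D.1 ∪ D.2)) (x.2 - (D.1 ∪ D.2).card) := by
        intro x hx
        obtain ⟨l1, l2, T', D0, D1, w, h1, h2, h3, h4, h5, h6, h7, h8, h9⟩ := key x hx
        have hTT : T' = T := first_unique (fun T => Sat ρ' π T) h1 hm h2 h3 hmd hmT
        subst hTT
        refine ⟨(D0, D1), h4, h5, h6, h7, ?_, ?_⟩
        · simp only; omega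
        · simp only
          have : x.2 - (D0 ∪ D1).card = w := by omega
          rw [this]; exact h8
      choose! f hf1 hf2 hf3 hf4 hf5 hf6 using key2
      set P := (T.1 ∪ T.2).powerset ×ˢ (T.1 ∪ T.2).powerset with hP
      have hmaps : ∀ x ∈ X, f x ∈ P.erase (∅, ∅) := by
        intro x hx
        rw [Finset.mem_erase, hP, Finset.mem_product, Finset.mem_powerset, Finset.mem_powerset]
        refine ⟨?_, hf1 x hx, hf2 x hx⟩
        intro h
        have := hf4 x hx
        rw [h] at this
        simp at this
      rw [← Finset.sum_fiberwise_of_maps_to hmaps]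
      have hone : ∀ D ∈ P.erase (∅, ∅),
          ∑ x ∈ X.filter (fun x => f x = D), r ^ x.2 ≤
            κ ^ s * ((r / κ) ^ D.1.card * (r / κ) ^ D.2.card) := by
        intro D hD
        by_cases hne : (X.filter (fun x => f x = D)) = ∅
        · rw [hne, Finset.sum_empty]
          positivity
        obtain ⟨x1, hx1⟩ := Finset.nonempty_iff_ne_empty.mpr hne
        rw [Finset.mem_filter] at hx1
        have hdis : Disjoint D.1 D.2 := hx1.2 ▸ hf3 x1 hx1.1
        have hDne : (D.1 ∪ D.2).Nonempty := hx1.2 ▸ hf4 x1 hx1.1
        set n := (D.1 ∪ D.2).card with hn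
        set m := ((D.1 ∪ D.2).image Prod.fst).card with hmm
        have hmn : m ≤ n := Finset.card_image_le
        have hmpos : 0 < m := by
          rw [hmm, Finset.card_pos]
          exact hDne.image _
        let g : Rho I J × ℕ → Rho I J × ℕ := fun x => (x.1, x.2 - n)
        have hinj : Set.InjOn g (X.filter (fun x => f x = D) : Finset (Rho I J × ℕ)) := by
          intro x hx y hy hxy
          rw [Finset.mem_coe, Finset.mem_filter] at hx hy
          have hx5 := hf5 x hx.1
          have hy5 := hf5 y hy.1
          rw [hx.2] at hx5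
          rw [hy.2] at hy5
          have h1 := congrArg Prod.fst hxy
          have h2 := congrArg Prod.snd hxy
          simp only [g] at h1 h2
          ext1
          · exact h1
          · omega
        have hsum : ∑ x ∈ X.filter (fun x => f x = D), r ^ x.2 =
            r ^ n * ∑ x ∈ (X.filter (fun x => f x = D)).image g, r ^ x.2 := by
          rw [Finset.sum_image hinj, Finset.mul_sum]
          apply Finset.sum_congr rfl
          intro x hx
          rw [Finset.mem_filter] at hx
          have hx5 := hf5 x hx.1
          rw [hx.2] at hx5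
          simp only [g]
          rw [← pow_add]
          congr 1
          omega
        rw [hsum]
        have hih := ih (s - m) (by omega) (updD π D.1 D.2) (undo ρ' T (D.1 ∪ D.2))
          ((X.filter (fun x => f x = D)).image g) (by
            intro x hx
            rw [Finset.mem_image] at hx
            obtain ⟨y, hy, rfl⟩ := hx
            rw [Finset.mem_filter] at hy
            have := hf6 y hy.1
            rw [hy.2] at this
            exact this)
        have hn2 : n = D.1.card + D.2.card := Finset.card_union_of_disjoint hdis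
        have h3 : κ ^ (s - m) * κ ^ n ≤ κ ^ s := by
          rw [← pow_add]
          exact pow_le_pow_of_le_one hκ.le hκ1 (by omega)
        have h4 : κ ^ (s - m) ≤ κ ^ s / κ ^ n := by
          rw [le_div_iff₀ (by positivity)]
          exact h3
        calc r ^ n * ∑ x ∈ (X.filter (fun x => f x = D)).image g, r ^ x.2
            ≤ r ^ n * κ ^ (s - m) := by gcongr
          _ ≤ r ^ n * (κ ^ s / κ ^ n) := by gcongr
          _ = κ ^ s * ((r / κ) ^ D.1.card * (r / κ) ^ D.2.card) := by
              rw [← pow_add, ← hn2, div_pow]
              ring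
      calc ∑ D ∈ P.erase (∅, ∅), ∑ x ∈ X.filter (fun x => f x = D), r ^ x.2
          ≤ ∑ D ∈ P.erase (∅, ∅), κ ^ s * ((r / κ) ^ D.1.card * (r / κ) ^ D.2.card) :=
            Finset.sum_le_sum hone
        _ = κ ^ s * (∑ D ∈ P.erase (∅, ∅), ((r / κ) ^ D.1.card * (r / κ) ^ D.2.card)) := by
            rw [Finset.mul_sum]
        _ ≤ κ ^ s * 1 := by
            gcongr
            have hmem : ((∅, ∅) : Finset (I × J) × Finset (I × J)) ∈ P := by simp [hP]
            have htot : ∑ D ∈ P, ((r / κ) ^ D.1.card * (r / κ) ^ D.2.card) =
                (1 + r / κ) ^ (2 * (T.1 ∪ T.2).card) := by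
              rw [hP, Finset.sum_product]
              simp only
              have hone' : ∑ D ∈ (T.1 ∪ T.2).powerset, (r / κ) ^ D.card =
                  (1 + r / κ) ^ (T.1 ∪ T.2).card := by
                have := Finset.sum_pow_mul_eq_add_pow (r / κ) (1 : ℝ) (T.1 ∪ T.2)
                simp only [one_pow, mul_one] at this
                rw [this, add_comm]
              calc ∑ x ∈ (T.1 ∪ T.2).powerset, ∑ y ∈ (T.1 ∪ T.2).powerset,
                    (r / κ) ^ x.card * (r / κ) ^ y.card
                  = ∑ x ∈ (T.1 ∪ T.2).powerset, (r / κ) ^ x.card *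
                      ∑ y ∈ (T.1 ∪ T.2).powerset, (r / κ) ^ y.card := by
                    apply Finset.sum_congr rfl
                    intro x _
                    rw [Finset.mul_sum]
                _ = _ := by
                    rw [hone', ← Finset.sum_mul, hone', ← pow_add]
                    congr 1
                    ring
            have hTm : T ∈ l := by rw [hm]; simp
            have hle : (1 + r / κ) ^ (2 * (T.1 ∪ T.2).card) ≤ 2 := by
              refine le_trans ?_ hb
              apply pow_le_pow_right₀
              · have : 0 < r / κ := by positivity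
                linarith
              · have := hl T hTm
                omega
            rw [← Finset.add_sum_erase _ _ hmem] at htot
            simp only [Finset.card_empty, pow_zero, mul_one] at htot
            linarith
        _ = κ ^ s := mul_one _


/-! ### The decision half -/

/-- satisfaction of a term by a total assignment -/
def TSat (T : Trm I J) (x : I × J → Bool) : Prop :=
  (∀ v ∈ T.1, x v = true) ∧ (∀ v ∈ T.2, x v = false)

/-- `y` is compatible with `π` -/
def Compat (π : I → Option Bool) (y : I → Bool) : Prop := ∀ i b, π i = some b → y i = b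

theorem app_of_pv {ρ : Rho I J} {π : I → Option Bool} {y : I → Bool} (hy : Compat π y)
    {v : I × J} {b : Bool} (h : pv ρ π v = some b) : app ρ y v = b := by
  unfold pv at h
  unfold app
  split_ifs at h ⊢ with h1 h2
  · simpa using h
  · simpa using h
  · exact hy _ _ h

theorem app_of_pv_none {ρ : Rho I J} {π : I → Option Bool} {y : I → Bool}
    {v : I × J} (h : pv ρ π v = none) : app ρ y v = y v.1 := by
  unfold pv at h
  unfold app
  split_ifs at h ⊢ with h1 h2
  rfl

theorem not_sat_of_dead {ρ : Rho I J} {π : I → Option Bool} {y : I → Bool} (hy : Compat π y)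
    {T : Trm I J} (h : Dead ρ π T) : ¬ TSat T (app ρ y) := by
  rintro ⟨hp, hn⟩
  rcases h with ⟨v, hv, h⟩ | ⟨v, hv, h⟩ | ⟨v, hv, w, hw, hvw, h1, h2⟩
  · have := app_of_pv hy h
    rw [hp v hv] at this
    exact absurd this (by decide)
  · have := app_of_pv hy h
    rw [hn v hv] at this
    exact absurd this (by decide)
  · have e1 := app_of_pv_none (y := y) h1
    have e2 := app_of_pv_none (y := y) h2
    rw [hp v hv] at e1
    rw [hn w hw] at e2
    rw [← hvw, ← e1] at e2
    exact absurd e2 (by decide)

theorem first_nondead {α : Type*} (P : α → Prop) (l : List α) :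
    (∀ x ∈ l, P x) ∨ ∃ l1 l2 T, l = l1 ++ T :: l2 ∧ (∀ x ∈ l1, P x) ∧ ¬ P T := by
  classical
  induction l with
  | nil => left; simp
  | cons a l ih =>
    by_cases ha : P a
    · rcases ih with h | ⟨l1, l2, T, h1, h2, h3⟩
      · left
        intro x hx
        rcases List.mem_cons.mp hx with h' | h'
        · exact h' ▸ ha
        · exact h x h'
      · right
        refine ⟨a :: l1, l2, T, by rw [h1]; rfl, ?_, h3⟩
        intro x hx
        rcases List.mem_cons.mp hx with h' | h'
        · exact h' ▸ ha
        · exact h2 x h'
    · right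
      exact ⟨[], l, a, rfl, by simp, ha⟩

theorem compat_upd {π : I → Option Bool} {y : I → Bool} (hy : Compat π y) (L : Finset I) :
    Compat (upd π L y) y := by
  intro i b h
  unfold upd at h
  split_ifs at h with h1
  · simpa using h
  · exact hy i b h

theorem decision (l : List (Trm I J)) (ρ : Rho I J) (s : ℕ) :
    ∀ (π : I → Option Bool), ¬ Long l ρ π s → ∀ y : I → Bool, Compat π y →
      ∃ Q : Finset I, Q.card < s ∧ ∀ y' : I → Bool, Compat π y' → (∀ i ∈ Q, y' i = y i) →
        ((∃ T ∈ l, TSat T (app ρ y')) ↔ (∃ T ∈ l, TSat T (app ρ y))) := by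
  induction s using Nat.strong_induction_on with
  | _ s ih =>
  intro π hL y hy
  have hs : 0 < s := by
    rcases Nat.eq_zero_or_pos s with h | h
    · subst h; exact absurd (Long.zero π) hL
    · exact h
  rcases first_nondead (Dead ρ π) l with hall | ⟨l1, l2, T, hl, hd, hT⟩
  · refine ⟨∅, by simpa using hs, ?_⟩
    intro y' hy' _
    constructor
    · rintro ⟨T, hT, h⟩
      exact absurd h (not_sat_of_dead hy' (hall T hT))
    · rintro ⟨T, hT, h⟩
      exact absurd h (not_sat_of_dead hy (hall T hT))
  · by_cases hlive : (live ρ π T).Nonempty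
    · have hrec : ¬ Long l ρ (upd π (live ρ π T) y) (s - (live ρ π T).card) := by
        intro h
        exact hL (Long.step π s l1 l2 T y hl hd hT hlive h)
      have hpos : 0 < (live ρ π T).card := Finset.card_pos.mpr hlive
      obtain ⟨Q, hQ, hQ2⟩ := ih (s - (live ρ π T).card) (by omega) _ hrec y (compat_upd hy _)
      refine ⟨Q ∪ live ρ π T, ?_, ?_⟩
      · calc (Q ∪ live ρ π T).card ≤ Q.card + (live ρ π T).card := Finset.card_union_le _ _
          _ < s := by omega
      · intro y' hy' hag
        apply hQ2 y'
        · intro i b h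
          unfold upd at h
          split_ifs at h with h1
          · rw [hag i (Finset.mem_union_right _ h1)]
            simpa using h
          · exact hy' i b h
        · intro i hi
          exact hag i (Finset.mem_union_left _ hi)
    · -- T is satisfied outright
      rw [Finset.not_nonempty_iff_eq_empty] at hlive
      have hfree : ∀ v, (v ∈ T.1 ∨ v ∈ T.2) → pv ρ π v ≠ none := by
        intro v hv hnone
        have : v.1 ∈ live ρ π T := by
          unfold live freeP freeN
          rw [Finset.mem_image]
          refine ⟨v, ?_, rfl⟩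
          rw [Finset.mem_union, Finset.mem_filter, Finset.mem_filter]
          rcases hv with h | h
          · left; exact ⟨h, hnone⟩
          · right; exact ⟨h, hnone⟩
        rw [hlive] at this
        simp at this
      have hsat : ∀ y' : I → Bool, Compat π y' → TSat T (app ρ y') := by
        intro y' hy'
        constructor
        · intro v hv
          rcases hp : pv ρ π v with _ | b
          · exact absurd hp (hfree v (Or.inl hv))
          · cases b
            · exact absurd (Or.inl ⟨v, hv, hp⟩) hT
            · exact app_of_pv hy' hp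
        · intro v hv
          rcases hp : pv ρ π v with _ | b
          · exact absurd hp (hfree v (Or.inr hv))
          · cases b
            · exact app_of_pv hy' hp
            · exact absurd (Or.inr (Or.inl ⟨v, hv, hp⟩)) hT
      have hTl : T ∈ l := by rw [hl]; simp
      refine ⟨∅, by simpa using hs, ?_⟩
      intro y' hy' _
      exact ⟨fun _ => ⟨T, hTl, hsat y hy⟩, fun _ => ⟨T, hTl, hsat y' hy'⟩⟩

/-! ### The encoding half -/

/-- weight of a Boolean pattern -/
noncomputable def wt {A : Type} [Fintype A] (p : ℝ) (x : A → Bool) : ℝ :=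
  ∏ a, (if x a then p else 1 - p)

theorem wt_pos {A : Type} [Fintype A] {p : ℝ} (hp : 0 < p) (hp1 : p < 1) (x : A → Bool) :
    0 < wt p x := by
  unfold wt
  apply Finset.prod_pos
  intro a _
  split_ifs <;> linarith

theorem wt_total {A : Type} [Fintype A] [DecidableEq A] (p : ℝ) :
    ∑ x : A → Bool, wt p x = 1 := by
  unfold wt
  have h := Finset.prod_univ_sum (R := ℝ) (fun _ : A => (Finset.univ : Finset Bool))
    (fun _ b => if b then p else 1 - p)
  rw [Fintype.piFinset_univ] at h
  rw [← h]
  simp

theorem wt_false {A : Type} [Fintype A] [DecidableEq A] (p : ℝ) (S : Finset A) :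
    ∑ x ∈ (Finset.univ : Finset (A → Bool)).filter (fun x => ∀ a ∈ S, x a = false), wt p x =
      (1 - p) ^ S.card := by
  unfold wt
  have h := Finset.prod_univ_sum (R := ℝ)
    (fun a : A => if a ∈ S then ({false} : Finset Bool) else Finset.univ)
    (fun _ b => if b then p else 1 - p)
  have h2 : Fintype.piFinset (fun a : A => if a ∈ S then ({false} : Finset Bool) else Finset.univ)
      = (Finset.univ : Finset (A → Bool)).filter (fun x => ∀ a ∈ S, x a = false) := by
    ext x
    rw [Fintype.mem_piFinset, Finset.mem_filter]
    constructor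
    · intro h
      refine ⟨Finset.mem_univ _, ?_⟩
      intro a ha
      have := h a
      rw [if_pos ha] at this
      simpa using this
    · rintro ⟨-, h⟩ a
      by_cases ha : a ∈ S
      · rw [if_pos ha]
        simpa using h a ha
      · rw [if_neg ha]
        simp
  rw [← h2, ← h]
  have h3 : ∀ a : A, (∑ j ∈ (if a ∈ S then ({false} : Finset Bool) else Finset.univ),
      if j then p else 1 - p) = if a ∈ S then 1 - p else 1 := by
    intro a
    by_cases ha : a ∈ S
    · rw [if_pos ha, if_pos ha]; simp
    · rw [if_neg ha, if_neg ha]; simp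
  rw [Finset.prod_congr rfl (fun a _ => h3 a)]
  rw [Finset.prod_ite]
  simp

/-- turning off the entries of `S` -/
def off {A : Type} [DecidableEq A] (S : Finset A) (x : A → Bool) : A → Bool :=
  fun a => if a ∈ S then false else x a

theorem wt_off {A : Type} [Fintype A] [DecidableEq A] {p : ℝ} (hp1 : p < 1)
    (S : Finset A) (x : A → Bool) (hx : ∀ a ∈ S, x a = true) :
    wt p x = wt p (off S x) * (p / (1 - p)) ^ S.card := by
  have h1 : wt p x = (∏ a ∈ S, (if x a then p else 1 - p)) *
      ∏ a ∈ Sᶜ, (if x a then p else 1 - p) := by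
    unfold wt
    rw [Finset.prod_mul_prod_compl]
  have h2 : wt p (off S x) = (∏ a ∈ S, (if off S x a then p else 1 - p)) *
      ∏ a ∈ Sᶜ, (if off S x a then p else 1 - p) := by
    unfold wt
    rw [Finset.prod_mul_prod_compl]
  have h3 : ∏ a ∈ Sᶜ, (if off S x a then p else 1 - p) = ∏ a ∈ Sᶜ, (if x a then p else 1 - p) := by
    apply Finset.prod_congr rfl
    intro a ha
    rw [Finset.mem_compl] at ha
    unfold off
    rw [if_neg ha]
  have h4 : ∏ a ∈ S, (if x a then p else 1 - p) = p ^ S.card := by
    rw [Finset.prod_congr rfl (g := fun _ => p)]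
    · simp
    · intro a ha
      rw [hx a ha]; simp
  have h5 : ∏ a ∈ S, (if off S x a then p else 1 - p) = (1 - p) ^ S.card := by
    rw [Finset.prod_congr rfl (g := fun _ => 1 - p)]
    · simp
    · intro a ha
      unfold off
      rw [if_pos ha]; simp
  rw [h1, h2, h3, h4, h5, div_pow]
  have : (1 - p) ^ S.card ≠ 0 := by
    apply pow_ne_zero
    linarith
  field_simp

/-- weight of a projection -/
noncomputable def wR [Fintype I] [Fintype J] (p : ℝ) (ρ : Rho I J) : ℝ := wt p ρ.1 * wt p ρ.2

/-- the invariant relating `ρ` with its encoding `ρ'` -/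
structure Inv (ρ : Rho I J) (π : I → Option Bool) (ρ' : Rho I J) : Prop where
  mono : ∀ v, ρ.1 v = false → ρ'.1 v = false
  agr : ∀ i, (ρ.2 i = false ∨ π i ≠ none) → ρ'.2 i = ρ.2 i ∧ ∀ j, ρ'.1 (i, j) = ρ.1 (i, j)
  one : ∀ i, ρ'.2 i = ρ.2 i ∨ ∀ j, ρ'.1 (i, j) = ρ.1 (i, j)

theorem inv_refl (ρ : Rho I J) (π : I → Option Bool) : Inv ρ π ρ :=
  ⟨fun _ h => h, fun _ _ => ⟨rfl, fun _ => rfl⟩, fun _ => Or.inl rfl⟩


theorem pv_none_iff {ρ : Rho I J} {π : I → Option Bool} {v : I × J} :
    pv ρ π v = none ↔ ρ.1 v = true ∧ ρ.2 v.1 = true ∧ π v.1 = none := by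
  unfold pv
  split_ifs with h1 h2
  · simp [h1]
  · simp [h2]
  · simp only [Bool.not_eq_false] at h1 h2
    simp [h1, h2]

theorem mem_live {ρ : Rho I J} {π : I → Option Bool} {T : Trm I J} {i : I} :
    i ∈ live ρ π T ↔ ∃ v, (v ∈ T.1 ∨ v ∈ T.2) ∧ v.1 = i ∧ pv ρ π v = none := by
  unfold live freeP freeN
  rw [Finset.mem_image]
  constructor
  · rintro ⟨v, hv, rfl⟩
    rw [Finset.mem_union, Finset.mem_filter, Finset.mem_filter] at hv
    rcases hv with h | h
    · exact ⟨v, Or.inl h.1, rfl, h.2⟩
    · exact ⟨v, Or.inr h.1, rfl, h.2⟩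
  · rintro ⟨v, hv, rfl, h⟩
    refine ⟨v, ?_, rfl⟩
    rw [Finset.mem_union, Finset.mem_filter, Finset.mem_filter]
    rcases hv with h' | h'
    · exact Or.inl ⟨h', h⟩
    · exact Or.inr ⟨h', h⟩

/-- The value of `pv` on blocks that are not free is preserved. -/
theorem pv_agr {ρ ρ' : Rho I J} {π : I → Option Bool} (h : Inv ρ π ρ') {v : I × J}
    (hv : ρ.2 v.1 = false ∨ π v.1 ≠ none) : pv ρ' π v = pv ρ π v := by
  obtain ⟨h1, h2⟩ := h.agr v.1 hv
  have h3 : ρ'.1 v = ρ.1 v := h2 v.2
  unfold pv
  rw [h1, h3]

theorem encode [Fintype I] [Fintype J] (l : List (Trm I J)) (hl : ∀ T ∈ l, Disjoint T.1 T.2)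
    (ρ : Rho I J) {p : ℝ} (hp1 : p < 1) :
    ∀ (π : I → Option Bool) (s : ℕ), Long l ρ π s → (∀ i, π i ≠ none → ρ.2 i = true) →
      ∃ (ρ' : Rho I J) (w : ℕ), Enc l ρ s π ρ' w ∧
        wR p ρ = wR p ρ' * (p / (1 - p)) ^ w ∧ Inv ρ π ρ' := by
  intro π s hL
  induction hL with
  | zero π =>
    intro _
    exact ⟨ρ, 0, Enc.zero π, by simp, inv_refl ρ π⟩
  | step π s l1 l2 T τ h hd hT hne hrec ih =>
    intro hπ
    rcases Nat.eq_zero_or_pos s with hs | hs
    · subst hs
      exact ⟨ρ, 0, Enc.zero π, by simp, inv_refl ρ π⟩
    have hTl : T ∈ l := by rw [h]; simp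
    have hdis := hl T hTl
    set L := live ρ π T with hLdef
    have hπ1 : ∀ i, upd π L τ i ≠ none → ρ.2 i = true := by
      intro i hi
      by_cases hiL : i ∈ L
      · obtain ⟨v, -, rfl, hv⟩ := mem_live.mp hiL
        exact (pv_none_iff.mp hv).2.1
      · unfold upd at hi
        rw [if_neg hiL] at hi
        exact hπ i hi
    obtain ⟨ρ1, w1, hE, hw, hInv⟩ := ih hπ1
    -- on the blocks of L, ρ1 agrees with ρ
    have hagL : ∀ i ∈ L, ρ1.2 i = ρ.2 i ∧ ∀ j, ρ1.1 (i, j) = ρ.1 (i, j) := by
      intro i hi
      apply hInv.agr i
      right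
      unfold upd
      rw [if_pos hi]
      simp
    set FP := freeP ρ π T with hFP
    set FN := freeN ρ π T with hFN
    have hFPmem : ∀ v, v ∈ FP ↔ v ∈ T.1 ∧ pv ρ π v = none := by
      intro v; rw [hFP]; unfold freeP; rw [Finset.mem_filter]
    have hFNmem : ∀ v, v ∈ FN ↔ v ∈ T.2 ∧ pv ρ π v = none := by
      intro v; rw [hFN]; unfold freeN; rw [Finset.mem_filter]
    obtain ⟨R, hRsub, hRinj, hRim⟩ :=
      Finset.exists_subset_injOn_image_eq_of_surjOn (f := (Prod.fst : I × J → I)) (s := FN)
        (FN.image Prod.fst) (by
          intro i hi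
          rw [Finset.mem_coe, Finset.mem_image] at hi
          obtain ⟨v, hv, rfl⟩ := hi
          exact ⟨v, hv, rfl⟩)
    set D := FP ∪ R with hD
    have hRim' : R.image Prod.fst = FN.image Prod.fst := hRim
    have hRsub' : R ⊆ FN := hRsub
    have hDim : D.image Prod.fst = L := by
      rw [hD, Finset.image_union, hRim', hLdef]
      unfold live
      rw [Finset.image_union]
    have hFPL : ∀ v ∈ FP, v.1 ∈ L := by
      intro v hv
      rw [← hDim]
      exact Finset.mem_image_of_mem _ (Finset.mem_union_left _ hv)
    have hFNL : ∀ v ∈ FN, v.1 ∈ L := by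
      intro v hv
      rw [hLdef, mem_live]
      rw [hFNmem] at hv
      exact ⟨v, Or.inr hv.1, rfl, hv.2⟩
    set D0 := D.filter (fun v => τ v.1 = false) with hD0
    set D1 := D.filter (fun v => τ v.1 = true) with hD1
    have hDD : D0 ∪ D1 = D := by
      rw [hD0, hD1]
      ext v
      simp only [Finset.mem_union, Finset.mem_filter]
      constructor
      · rintro (h | h) <;> exact h.1
      · intro h
        cases hb : τ v.1
        · left; exact ⟨h, rfl⟩
        · right; exact ⟨h, rfl⟩
    have hDsub : D ⊆ T.1 ∪ T.2 := by
      intro v hv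
      rw [hD, Finset.mem_union] at hv
      rw [Finset.mem_union]
      rcases hv with h | h
      · left; exact ((hFPmem v).mp h).1
      · right; exact ((hFNmem v).mp (hRsub' h)).1
    have hupd : updD π D0 D1 = upd π L τ := by
      funext i
      unfold updD upd
      by_cases hiL : i ∈ L
      · rw [if_pos hiL]
        have hiD := hiL
        rw [← hDim, Finset.mem_image] at hiD
        obtain ⟨v, hv, rfl⟩ := hiD
        cases hb : τ v.1
        · rw [if_pos]
          rw [Finset.mem_image]
          exact ⟨v, by rw [hD0, Finset.mem_filter]; exact ⟨hv, hb⟩, rfl⟩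
        · rw [if_neg, if_pos]
          · rw [Finset.mem_image]
            exact ⟨v, by rw [hD1, Finset.mem_filter]; exact ⟨hv, hb⟩, rfl⟩
          · rw [Finset.mem_image]
            rintro ⟨u, hu, hu2⟩
            rw [hD0, Finset.mem_filter] at hu
            rw [← hu2, hu.2] at hb
            exact absurd hb (by decide)
      · rw [if_neg hiL, if_neg, if_neg]
        · intro hh
          apply hiL
          rw [← hDim]
          rw [Finset.mem_image] at hh ⊢
          obtain ⟨v, hv, hv2⟩ := hh
          exact ⟨v, (Finset.mem_filter.mp hv).1, hv2⟩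
        · intro hh
          apply hiL
          rw [← hDim]
          rw [Finset.mem_image] at hh ⊢
          obtain ⟨v, hv, hv2⟩ := hh
          exact ⟨v, (Finset.mem_filter.mp hv).1, hv2⟩
    -- the encoded projection
    set ρ' : Rho I J := (off FP ρ1.1, off (FN.image Prod.fst) ρ1.2) with hρ'
    have hundo : undo ρ' T D = ρ1 := by
      unfold undo
      apply Prod.ext
      · funext v
        simp only
        by_cases hv : v ∈ T.1 ∧ v ∈ D
        · rw [if_pos hv]
          have hvFP : v ∈ FP := by
            rcases Finset.mem_union.mp hv.2 with h' | h'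
            · exact h'
            · exfalso
              have := ((hFNmem v).mp (hRsub' h')).1
              exact (Finset.disjoint_left.mp hdis hv.1) this
          have h1 := (hagL v.1 (hFPL v hvFP)).2 v.2
          have h2 := (pv_none_iff.mp ((hFPmem v).mp hvFP).2).1
          rw [show (v.1, v.2) = v from rfl] at h1
          rw [h1, h2]
        · rw [if_neg hv]
          have hvFP : v ∉ FP := by
            intro h'
            exact hv ⟨((hFPmem v).mp h').1, Finset.mem_union_left _ h'⟩
          rw [hρ']
          unfold off
          simp only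
          rw [if_neg hvFP]
      · funext i
        simp only
        have hTD : (T.2 ∩ D).image Prod.fst = FN.image Prod.fst := by
          have : T.2 ∩ D = R := by
            ext v
            rw [Finset.mem_inter]
            constructor
            · rintro ⟨h1, h2⟩
              rcases Finset.mem_union.mp h2 with h' | h'
              · exfalso
                have := ((hFPmem v).mp h').1
                exact (Finset.disjoint_left.mp hdis this) h1
              · exact h'
            · intro h1
              exact ⟨((hFNmem v).mp (hRsub' h1)).1, Finset.mem_union_right _ h1⟩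
          rw [this, hRim']
        rw [hTD]
        by_cases hi : i ∈ FN.image Prod.fst
        · rw [if_pos hi]
          obtain ⟨v, hv, rfl⟩ := Finset.mem_image.mp hi
          have h1 := (hagL v.1 (hFNL v hv)).1
          have h2 := (pv_none_iff.mp ((hFNmem v).mp hv).2).2.1
          rw [h1, h2]
        · rw [if_neg hi, hρ']
          unfold off
          simp only
          rw [if_neg hi]
    have hcard : D.card = FP.card + (FN.image Prod.fst).card := by
      rw [hD, Finset.card_union_of_disjoint]
      · congr 1
        rw [← hRim', Finset.card_image_of_injOn hRinj]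
      · rw [Finset.disjoint_left]
        intro v h1 h2
        exact (Finset.disjoint_left.mp hdis ((hFPmem v).mp h1).1) ((hFNmem v).mp (hRsub' h2)).1
    have hwt : wR p ρ = wR p ρ' * (p / (1 - p)) ^ (w1 + D.card) := by
      rw [hw]
      unfold wR
      have e1 : wt p ρ1.1 = wt p (off FP ρ1.1) * (p / (1 - p)) ^ FP.card := by
        apply wt_off hp1
        intro v hv
        have h1 := (hagL v.1 (hFPL v hv)).2 v.2
        have h2 := (pv_none_iff.mp ((hFPmem v).mp hv).2).1
        rw [show (v.1, v.2) = v from rfl] at h1
        rw [h1, h2]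
      have e2 : wt p ρ1.2 = wt p (off (FN.image Prod.fst) ρ1.2) *
          (p / (1 - p)) ^ (FN.image Prod.fst).card := by
        apply wt_off hp1
        intro i hi
        obtain ⟨v, hv, rfl⟩ := Finset.mem_image.mp hi
        have h1 := (hagL v.1 (hFNL v hv)).1
        have h2 := (pv_none_iff.mp ((hFNmem v).mp hv).2).2.1
        rw [h1, h2]
      rw [e1, e2, hcard, hρ', pow_add, pow_add]
      ring
    -- facts on non-free blocks of (ρ, π)
    have hnotL : ∀ i, (ρ.2 i = false ∨ π i ≠ none) → i ∉ L := by
      intro i hi hiL
      obtain ⟨v, -, rfl, hv⟩ := mem_live.mp hiL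
      obtain ⟨-, h2, h3⟩ := pv_none_iff.mp hv
      rcases hi with h | h
      · rw [h2] at h; exact absurd h (by decide)
      · exact h h3
    have hInv' : Inv ρ π ρ' := by
      refine ⟨?_, ?_, ?_⟩
      · intro v hv
        rw [hρ']
        unfold off
        simp only
        split_ifs
        · rfl
        · exact hInv.mono v hv
      · intro i hi
        have hiL := hnotL i hi
        have hi1 : ρ.2 i = false ∨ upd π L τ i ≠ none := by
          rcases hi with h | h
          · left; exact h
          · right
            unfold upd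
            rw [if_neg hiL]
            exact h
        obtain ⟨h1, h2⟩ := hInv.agr i hi1
        constructor
        · rw [hρ']
          unfold off
          simp only
          rw [if_neg, h1]
          intro h'
          obtain ⟨v, hv, rfl⟩ := Finset.mem_image.mp h'
          exact hiL (hFNL v hv)
        · intro j
          rw [hρ']
          unfold off
          simp only
          rw [if_neg, h2 j]
          intro h'
          exact hiL (hFPL _ h')
      · intro i
        by_cases hiL : i ∈ L
        · by_cases hi : i ∈ FN.image Prod.fst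
          · right
            intro j
            have h1 := (hagL i hiL).2 j
            rw [hρ']
            unfold off
            simp only
            rw [if_neg, h1]
            intro h'
            obtain ⟨v, hv, hvi⟩ := Finset.mem_image.mp hi
            apply hT
            right; right
            exact ⟨(i, j), ((hFPmem _).mp h').1, v, ((hFNmem _).mp hv).1, hvi.symm,
              ((hFPmem _).mp h').2, ((hFNmem _).mp hv).2⟩
          · left
            rw [hρ']
            unfold off
            simp only
            rw [if_neg hi]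
            exact (hagL i hiL).1
        · rcases hInv.one i with h' | h'
          · left
            rw [hρ']
            unfold off
            simp only
            rw [if_neg, h']
            intro h''
            obtain ⟨v, hv, rfl⟩ := Finset.mem_image.mp h''
            exact hiL (hFNL v hv)
          · right
            intro j
            rw [hρ']
            unfold off
            simp only
            rw [if_neg, h' j]
            intro h''
            exact hiL (hFPL _ h'')
    -- non-free block test
    have hfree_or : ∀ i, (ρ.2 i = false ∨ π i ≠ none) ∨ (ρ.2 i = true ∧ π i = none) := by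
      intro i
      cases h2 : ρ.2 i
      · left; left; rfl
      · by_cases h3 : π i = none
        · right; exact ⟨rfl, h3⟩
        · left; right; exact h3
    have hSat : Sat ρ' π T := by
      constructor
      · intro v hv
        rcases hfree_or v.1 with hnf | hf
        · rw [pv_agr hInv' hnf]
          rcases hp : pv ρ π v with _ | b
          · exfalso
            obtain ⟨-, h2, h3⟩ := pv_none_iff.mp hp
            rcases hnf with h | h
            · rw [h2] at h; exact absurd h (by decide)
            · exact h h3
          · cases b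
            · exact absurd (Or.inl ⟨v, hv, hp⟩) hT
            · rfl
        · -- free block: either inactive in ρ, or free literal turned off
          have : ρ'.1 v = false := by
            cases ha : ρ.1 v
            · exact hInv'.mono v ha
            · have hvFP : v ∈ FP := by
                rw [hFPmem]
                exact ⟨hv, pv_none_iff.mpr ⟨ha, hf.1, hf.2⟩⟩
              rw [hρ']
              unfold off
              simp only
              rw [if_pos hvFP]
          unfold pv
          rw [if_pos this]
      · intro v hv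
        rcases hfree_or v.1 with hnf | hf
        · rw [pv_agr hInv' hnf]
          rcases hp : pv ρ π v with _ | b
          · exfalso
            obtain ⟨-, h2, h3⟩ := pv_none_iff.mp hp
            rcases hnf with h | h
            · rw [h2] at h; exact absurd h (by decide)
            · exact h h3
          · cases b
            · rfl
            · exact absurd (Or.inr (Or.inl ⟨v, hv, hp⟩)) hT
        · have ha : ρ.1 v = true := by
            cases ha : ρ.1 v
            · exfalso
              apply hT
              right; left
              refine ⟨v, hv, ?_⟩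
              unfold pv
              rw [if_pos ha]
            · rfl
          have hvFN : v ∈ FN := by
            rw [hFNmem]
            exact ⟨hv, pv_none_iff.mpr ⟨ha, hf.1, hf.2⟩⟩
          have hvL := hFNL v hvFN
          have h1 := (hagL v.1 hvL).2 v.2
          rw [show (v.1, v.2) = v from rfl] at h1
          have hvnFP : v ∉ FP := by
            intro h'
            exact (Finset.disjoint_left.mp hdis ((hFPmem v).mp h').1) hv
          have h2 : ρ'.1 v = true := by
            rw [hρ']
            unfold off
            simp only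
            rw [if_neg hvnFP, h1, ha]
          have h3 : ρ'.2 v.1 = false := by
            rw [hρ']
            unfold off
            simp only
            rw [if_pos (Finset.mem_image_of_mem _ hvFN)]
          unfold pv
          rw [h2, h3]
          simp
    have hNS : ∀ T' ∈ l1, ¬ Sat ρ' π T' := by
      intro T' hT' hsat
      rcases hd T' hT' with ⟨v, hv, hpv⟩ | ⟨v, hv, hpv⟩ | ⟨v, hv, u, hu, hvu, h1, h2⟩
      · -- positive literal false
        have hs' := hsat.1 v hv
        rcases hfree_or v.1 with hnf | hf
        · rw [pv_agr hInv' hnf, hpv] at hs'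
          exact absurd hs' (by decide)
        · unfold pv at hpv
          rw [hf.1, hf.2] at hpv
          split_ifs at hpv <;> simp_all
      · have hs' := hsat.2 v hv
        rcases hfree_or v.1 with hnf | hf
        · rw [pv_agr hInv' hnf, hpv] at hs'
          exact absurd hs' (by decide)
        · have ha : ρ.1 v = false := by
            unfold pv at hpv
            rw [hf.1, hf.2] at hpv
            split_ifs at hpv with h'
            · exact h'
            · simp_all
          have := hInv'.mono v ha
          unfold pv at hs'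
          rw [if_pos this] at hs'
          exact absurd hs' (by decide)
      · -- contradictory term
        obtain ⟨a1, a2, a3⟩ := pv_none_iff.mp h1
        obtain ⟨b1, b2, b3⟩ := pv_none_iff.mp h2
        have hs1 := hsat.1 v hv
        have hs2 := hsat.2 u hu
        have c1 : ρ'.1 v = false := by
          unfold pv at hs1
          rw [a3] at hs1
          by_contra h'
          rw [if_neg h'] at hs1
          split_ifs at hs1
          exact absurd hs1 (by decide)
        have c2 : ρ'.2 u.1 = false := by
          unfold pv at hs2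
          rw [b3] at hs2
          by_contra h'
          rw [if_neg h'] at hs2
          split_ifs at hs2
          exact absurd hs2 (by decide)
        rcases hInv'.one v.1 with h' | h'
        · rw [hvu, c2, b2] at h'
          exact absurd h' (by decide)
        · have := h' v.2
          rw [show (v.1, v.2) = v from rfl, c1, a1] at this
          exact absurd this (by decide)
    have hDne : (D0 ∪ D1).Nonempty := by
      rw [hDD]
      obtain ⟨i, hi⟩ := hne
      have hi' : i ∈ D.image Prod.fst := by rw [hDim]; exact hi
      obtain ⟨v, hv, -⟩ := Finset.mem_image.mp hi'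
      exact ⟨v, hv⟩
    have hdis01 : Disjoint D0 D1 := by
      rw [Finset.disjoint_left]
      intro v h1 h2
      rw [hD0, Finset.mem_filter] at h1
      rw [hD1, Finset.mem_filter] at h2
      rw [h1.2] at h2
      exact absurd h2.2 (by decide)
    refine ⟨ρ', w1 + D.card, ?_, hwt, hInv'⟩
    have hstep := Enc.step (l := l) (ρ := ρ) s π ρ' l1 l2 T D0 D1 w1 hs h hNS hSat
      ((Finset.filter_subset _ _).trans hDsub) ((Finset.filter_subset _ _).trans hDsub)
      hdis01 hDne (by
        rw [hDD, hDim, hupd, hundo]
        exact hE)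
    rw [hDD] at hstep
    exact hstep

open Classical in
/-- **Block switching lemma** (probability form). -/
theorem switching [Fintype I] [Fintype J] (l : List (Trm I J)) (hl : ∀ T ∈ l, Disjoint T.1 T.2)
    (t : ℕ) (hlt : ∀ T ∈ l, (T.1 ∪ T.2).card ≤ t)
    (p κ : ℝ) (hp : 0 < p) (hp1 : p < 1) (hκ : 0 < κ) (hκ1 : κ ≤ 1)
    (hb : (1 + p / (1 - p) / κ) ^ (2 * t) ≤ 2) (s : ℕ) :
    ∑ ρ ∈ (Finset.univ : Finset (Rho I J)).filter (fun ρ => Long l ρ (fun _ => none) s),
      wR p ρ ≤ κ ^ s := by
  set r := p / (1 - p) with hr
  have hr0 : 0 < r := by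
    rw [hr]
    apply div_pos hp
    linarith
  set B := (Finset.univ : Finset (Rho I J)).filter (fun ρ => Long l ρ (fun _ => none) s) with hB
  have hex : ∀ ρ ∈ B, ∃ x : Rho I J × ℕ, Enc l ρ s (fun _ => none) x.1 x.2 ∧
      wR p ρ = wR p x.1 * r ^ x.2 := by
    intro ρ hρ
    rw [hB, Finset.mem_filter] at hρ
    obtain ⟨ρ', w, h1, h2, -⟩ := encode l hl ρ hp1 _ s hρ.2 (by intro i hi; exact absurd rfl hi)
    exact ⟨(ρ', w), h1, h2⟩
  choose! f hf1 hf2 using hex
  have hmaps : ∀ ρ ∈ B, (f ρ).1 ∈ (Finset.univ : Finset (Rho I J)) := fun _ _ => Finset.mem_univ _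
  rw [← Finset.sum_fiberwise_of_maps_to hmaps]
  have hone : ∀ ρ' ∈ (Finset.univ : Finset (Rho I J)),
      ∑ ρ ∈ B.filter (fun ρ => (f ρ).1 = ρ'), wR p ρ ≤ wR p ρ' * κ ^ s := by
    intro ρ' _
    have hcnt := enc_count l t hlt r κ hr0 hκ hκ1 hb s (fun _ => none) ρ'
      ((B.filter (fun ρ => (f ρ).1 = ρ')).image (fun ρ => (ρ, (f ρ).2))) (by
        intro x hx
        obtain ⟨ρ, hρ, rfl⟩ := Finset.mem_image.mp hx
        rw [Finset.mem_filter] at hρ
        have := hf1 ρ hρ.1
        rw [hρ.2] at this
        exact this)
    rw [Finset.sum_image (by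
      intro x _ y _ hxy
      exact congrArg Prod.fst hxy)] at hcnt
    have hw' : 0 ≤ wR p ρ' := by
      unfold wR
      exact (mul_pos (wt_pos hp hp1 _) (wt_pos hp hp1 _)).le
    calc ∑ ρ ∈ B.filter (fun ρ => (f ρ).1 = ρ'), wR p ρ
        = wR p ρ' * ∑ ρ ∈ B.filter (fun ρ => (f ρ).1 = ρ'), r ^ (f ρ).2 := by
          rw [Finset.mul_sum]
          apply Finset.sum_congr rfl
          intro ρ hρ
          rw [Finset.mem_filter] at hρ
          rw [hf2 ρ hρ.1, hρ.2]
      _ ≤ wR p ρ' * κ ^ s := by gcongr
  calc ∑ ρ' : Rho I J, ∑ ρ ∈ B.filter (fun ρ => (f ρ).1 = ρ'), wR p ρ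
      ≤ ∑ ρ' : Rho I J, wR p ρ' * κ ^ s := Finset.sum_le_sum hone
    _ = κ ^ s := by
        rw [← Finset.sum_mul]
        have : ∑ ρ' : Rho I J, wR p ρ' = 1 := by
          unfold wR
          rw [Fintype.sum_prod_type]
          simp only
          have h1 : ∀ a : I × J → Bool, ∑ z : I → Bool, wt p a * wt p z = wt p a := by
            intro a
            rw [← Finset.mul_sum, wt_total, mul_one]
          rw [Finset.sum_congr rfl (fun a _ => h1 a), wt_total]
        rw [this, one_mul]

end Switching

end Pool.Agent.H8
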