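import Pool.Agent.H8.VLayer
import Pool.Agent.H8.Layers2

set_option autoImplicit false
set_option linter.unusedSectionVars false

/-!
# Elimination of all layers, and the remaining atoms (prescribed depths)
-/

namespace Pool.Agent.H8v

open Finset Classical
open Pool.Agent.H9 (Oracle Prog DTP AcceptsIn totalLength words mem_words card_words)
open Pool.Agent.H8u (Cd wrd hid hid_length bitv wrd_inj wrd_length bitv_cons
  totalLength_cons_of)
open Pool.Agent.H8h (pr pr_mono pr_or pr_congr pr_false Cl StepHyp step_all stage pr_trans EL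
  thr thr_zero thr_succ thr_mono le_thr dtp_of_depends)
open Pool.Agent.H8 (Str)

/-- the coordinates of the codes of size more than `M` -/
noncomputable def Vs (M R Λ : ℕ) : Finset (Bk R Λ) :=
  Finset.univ.filter (fun b => ∃ (c : Cd) (ys : List (List Bool)), b.1 = wrd c ys ∧ Prp c ys ∧
    M < c.2.2)

theorem Vs_subset (g : Enum) (R1 M R Λ i : ℕ) : Vs M R Λ ⊆ RvS g R1 M R Λ i := by
  intro b hb
  unfold Vs at hb
  unfold RvS
  rw [Finset.mem_filter] at hb ⊢
  obtain ⟨h0, c, ys, h1, h2, h3⟩ := hb
  exact ⟨h0, c, ys, h1, h2, Or.inl h3⟩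

theorem RvS_subset (g : Enum) {R1 R2 : ℕ} (h : R1 ≤ R2) (R Λ i : ℕ) :
    RvS g R1 R2 R Λ i ⊆ Vs R1 R Λ := by
  intro b hb
  unfold RvS at hb
  unfold Vs
  rw [Finset.mem_filter] at hb ⊢
  obtain ⟨h0, c, ys, h1, h2, h3⟩ := hb
  refine ⟨h0, c, ys, h1, h2, ?_⟩
  rcases h3 with h3 | ⟨h3, _⟩ <;> omega

section

variable {g : Enum} {Dt : Type} {S : Dt → Oracle} {Y0 : List Bool → List Bool}
  {R Λ lam : ℕ}

/-- **Elimination of all layers.** -/
theorem layersP {k : ℕ} (hd : ∀ c, 1 ≤ dp g c) (htd : ∀ c, dp g c ≤ k → tp g c ≤ dp g c)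
    (hR : 1 ≤ R) (hlam : lam ≤ R ^ 2) {L : ℕ} (hL1 : 1 ≤ L) (J : ℕ) :
    ∀ {P : ℕ}, 5 ≤ P → k + 1 ≤ P → L ≤ P → Λ + 2 ≤ P →
    ∀ (f : (Bk R Λ → Str lam) → (At → Bool) → Prop),
    (∀ Y, Cl (okW g (thr R J) Λ) P (2 ^ P) k (f Y)) →
    (∀ Y Y', (∀ b ∈ Vs (thr R J) R Λ, Y b = Y' b) → f Y = f Y') →
    (P ^ EL k ^ J) ^ 9 * 2 ^ L ≤ 2 ^ lam →
    ∃ f' : (Bk R Λ → Str lam) → (At → Bool) → Prop,
      (∀ Y, Cl (okW g (R ^ 2) Λ) (P ^ EL k ^ J) (2 ^ (P ^ EL k ^ J)) k (f' Y)) ∧
      ∀ D, pr (fun Y => ¬ (f Y (wld g (S D) (extY Y0 Y)) ↔ f' Y (wld g (S D) (extY Y0 Y)))) ≤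
        J * ((k + 1) * (2 * (1 / 2 : ℝ) ^ L)) := by
  induction J with
  | zero =>
    intro P _ _ _ _ f hf _ _
    refine ⟨f, ?_, ?_⟩
    · intro Y
      have := hf Y
      rw [thr_zero] at this
      simpa using this
    · intro D
      refine le_of_eq ?_
      push_cast
      rw [zero_mul, ← pr_false (Ω := Bk R Λ → Str lam)]
      apply pr_congr
      intro Y
      simp
  | succ J ih =>
    intro P hP hk hL hΛ f hf hfd hJ
    have hE1 : 1 ≤ EL k := by
      unfold EL
      exact Nat.mul_pos (by positivity) (by omega)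
    have hPE : P ≤ P ^ EL k := Nat.le_self_pow (by omega) P
    have hpow : (P ^ EL k) ^ EL k ^ J = P ^ EL k ^ (J + 1) := by
      rw [← pow_mul, pow_succ' (EL k) J]
    have hle : P ^ EL k ≤ P ^ EL k ^ (J + 1) :=
      Nat.pow_le_pow_right (by omega) (Nat.le_self_pow (by omega) _)
    have hRt : R ≤ R ^ 2 := Nat.le_self_pow (by norm_num) R
    obtain ⟨f1, a1, a2, a3⟩ := layerP (k := k) hd htd (S := S) (Y0 := Y0) (R := R) (R1 := thr R J)
      (R2 := thr R (J + 1)) (Λ := Λ) (lam := lam) (le_of_eq (thr_succ R J))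
      (hlam.trans (le_thr hR J)) (hRt.trans (le_thr hR J)) hP hk hL hL1 hΛ f hf
      (fun Y Y' hY => hfd Y Y' (fun b hb => hY b (Vs_subset g _ _ R Λ 0 hb)))
      ((Nat.mul_le_mul_right _ (Nat.pow_le_pow_left hle 9)).trans hJ)
    obtain ⟨f2, b1, b2⟩ := ih (P := P ^ EL k) (hP.trans hPE) (hk.trans hPE) (hL.trans hPE)
      (hΛ.trans hPE) f1 a1
      (fun Y Y' hY => a2 Y Y' (fun b hb => hY b (RvS_subset g (thr_mono hR J) R Λ _ hb)))
      (by rw [hpow]; exact hJ)
    refine ⟨f2, ?_, ?_⟩
    · intro Y
      have := b1 Y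
      rwa [hpow] at this
    · intro D
      refine pr_trans.trans ((add_le_add (a3 D) (b2 D)).trans (le_of_eq ?_))
      push_cast
      ring

end

/-! ### The remaining atoms -/

/-- Locality in both arguments. -/
theorem orU_local {g : Enum} {S S' : Oracle} {Y Y' : List Bool → List Bool} {n : ℕ}
    (hS : ∀ w : List Bool, w.length < n → S w = S' w)
    (hY : ∀ w : List Bool, w.length < n → Y w = Y' w) : ∀ (m : ℕ) (v : List Bool),
      v.length ≤ m → v.length ≤ n → orU g S Y v = orU g S' Y' v := by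
  intro m
  induction m with
  | zero =>
    intro v hv _
    have : v = [] := List.length_eq_zero_iff.1 (by omega)
    subst this
    rw [orU_nil, orU_nil]
  | succ m ih =>
    intro v hv hn
    match v with
    | [] => rw [orU_nil, orU_nil]
    | false :: w =>
      rw [orU_false, orU_false]
      exact hS w (by rw [List.length_cons] at hn; omega)
    | true :: w =>
      rw [Bool.eq_iff_iff, orU_true, orU_true]
      apply exists_congr; intro c
      apply exists_congr; intro ys
      apply and_congr_right; intro hw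
      apply and_congr_right; intro hl
      apply and_congr_right; intro hp
      have h1 := wrd_length_gt c ys
      rw [← hw] at h1
      rw [List.length_cons] at hv hn
      have hK : KP g (orU g S Y) c ↔ KP g (orU g S' Y') c := by
        apply kp_local
        intro u hu
        have h2 : u.length ≤ c.2.2 := by nlinarith
        exact ih u (by omega) (by omega)
      have hd : decide (KP g (orU g S Y) c) = decide (KP g (orU g S' Y') c) := by
        by_cases hA : KP g (orU g S Y) c
        · have hA' := hK.1 hA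
          simp [hA, hA']
        · have hA' : ¬ KP g (orU g S' Y') c := fun h => hA (hK.2 h)
          simp [hA, hA']
      rw [hd, bitv_congr (fun zs hz1 hz2 => ?_)]
      apply hY
      have h3 : (wrd c zs).length ≤ (wrd c ys).length := by
        obtain ⟨pre, rfl⟩ := hz1
        rw [wrd_length, wrd_length]
        simp only [List.length_append, List.reverse_append, List.flatten_append]
        omega
      rw [← hw] at h3
      omega

/-- The values at low words do not depend on the data. -/
theorem low_const {g : Enum} {S S' : Oracle} {Y : List Bool → List Bool} {R : ℕ}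
    (hS : ∀ w : List Bool, w.length < R → S w = S' w) {w : List Bool}
    (hlow : Low g (R ^ 2) (true :: w)) : orU g S Y (true :: w) = orU g S' Y (true :: w) := by
  rw [Bool.eq_iff_iff, orU_true, orU_true]
  apply exists_congr; intro c
  apply exists_congr; intro ys
  apply and_congr_right; intro hw
  apply and_congr_right; intro hl
  apply and_congr_right; intro hp
  have hN : c.2.2 ≤ R ^ 2 := hlow c ys (by rw [hw]) hl hp
  have hK : KP g (orU g S Y) c ↔ KP g (orU g S' Y) c := by
    apply kp_local
    intro u hu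
    have h1 : u.length + 2 ≤ R := by
      by_contra hcon
      have : R ^ 2 < (u.length + 2) ^ 2 := Nat.pow_lt_pow_left (by omega) (by norm_num)
      omega
    exact orU_local (n := R) hS (fun _ _ => rfl) _ u le_rfl (by omega)
  have hd : decide (KP g (orU g S Y) c) = decide (KP g (orU g S' Y) c) := by
    by_cases hA : KP g (orU g S Y) c
    · have hA' := hK.1 hA
      simp [hA, hA']
    · have hA' : ¬ KP g (orU g S' Y) c := fun h => hA (hK.2 h)
      simp [hA, hA']
  rw [hd]

end Pool.Agent.H8v
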