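import Pool.Agent.H8.VLayers2

set_option autoImplicit false
set_option linter.unusedSectionVars false

/-!
# Elimination of the hidden blocks from decision trees
-/

namespace Pool.Agent.H8v

open Finset Classical
open Pool.Agent.H9 (Oracle Prog DTP AcceptsIn totalLength words mem_words card_words)
open Pool.Agent.H8u (Cd wrd hid hid_length bitv wrd_inj wrd_length bitv_cons
  totalLength_cons_of)
open Pool.Agent.H8h (pr pr_eq pr_mono pr_or pr_congr pr_false pr_nonneg)
open Pool.Agent.H8 (Str)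

/-- one coordinate of a random function -/
theorem pr_coord {B J : Type} [Fintype B] [DecidableEq B] [Fintype J] [Nonempty J] (b : B)
    (j : J) :
    pr (fun Y : B → J => Y b = j) ≤ 1 / Fintype.card J := by
  have hJ : (0 : ℝ) < Fintype.card J := by exact_mod_cast Fintype.card_pos
  have hΩ : (0 : ℝ) < Fintype.card (B → J) := by exact_mod_cast Fintype.card_pos
  rw [pr_eq, div_le_div_iff₀ hΩ hJ, one_mul]
  have h : ((Finset.univ : Finset (B → J)).filter (fun Y => Y b = j)).card * Fintype.card J ≤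
      Fintype.card (B → J) := by
    rw [← Finset.card_univ (α := J), ← Finset.card_product, ← Finset.card_univ (α := B → J)]
    apply Finset.card_le_card_of_injOn (fun z => Function.update z.1 b z.2)
    · intro z _
      exact Finset.mem_coe.2 (Finset.mem_univ _)
    · rintro ⟨Y, x⟩ hz ⟨Y', x'⟩ hz' h
      rw [Finset.mem_coe, Finset.mem_product, Finset.mem_filter] at hz hz'
      simp only at hz hz' h
      have h1 : x = x' := by
        have := congrFun h b
        simpa using this
      refine Prod.ext ?_ h1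
      funext b'
      by_cases hb : b' = b
      · subst hb
        exact hz.1.2.trans hz'.1.2.symm
      · have := congrFun h b'
        simpa [hb] using this
  exact_mod_cast h

theorem yag_piecewise {R Λ lam : ℕ} {Y0 : List Bool → List Bool} {M : ℕ}
    (Y Y' Y1 : Bk R Λ → Str lam) :
    YAg M (extY Y0 ((Vs M R Λ).piecewise Y Y1)) (extY Y0 ((Vs M R Λ).piecewise Y' Y1)) := by
  intro c ys hc hp
  apply extY_congr
  intro hv
  have : (⟨wrd c ys, hv⟩ : Bk R Λ) ∉ Vs M R Λ := by
    unfold Vs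
    rw [Finset.mem_filter]
    rintro ⟨_, c', ys', h1, h2, h3⟩
    obtain ⟨rfl, rfl⟩ := wrd_inj hp h2 h1
    omega
  rw [Finset.piecewise_eq_of_notMem _ _ _ this, Finset.piecewise_eq_of_notMem _ _ _ this]

theorem wld_inl (g : Enum) (S : Oracle) (Y : List Bool → List Bool) (v : List Bool) :
    wld g S Y (Sum.inl v) = orU g S Y v := rfl

/-- the random world -/
noncomputable def wY (g : Enum) (S : Oracle) (Y0 : List Bool → List Bool) (M : ℕ) {R Λ lam : ℕ}
    (Y1 Y : Bk R Λ → Str lam) : At → Bool :=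
  wld g S (extY Y0 ((Vs M R Λ).piecewise Y Y1))

/-- the probability of a hit -/
theorem hit_prob {g : Enum} (hd : ∀ c, 1 ≤ dp g c) {R Λ lam : ℕ} (hR : 1 ≤ R)
    (hlam : lam ≤ R ^ 2) {v : List Bool} (hv : v.length ≤ Λ) (hlow : ¬ Low g (R ^ 2) v)
    (S : Oracle) (Y0 : List Bool → List Bool) (Y1 : Bk R Λ → Str lam) :
    pr (fun Y : Bk R Λ → Str lam => wY g S Y0 (R ^ 2) Y1 Y (Sum.inl v) = true) ≤
      (1 / Fintype.card (Str lam) : ℝ) := by
  have hJ : (0 : ℝ) < Fintype.card (Str lam) := by exact_mod_cast Fintype.card_pos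
  have hj0 : (0 : ℝ) ≤ 1 / Fintype.card (Str lam) := by positivity
  unfold Low at hlow
  push Not at hlow
  obtain ⟨c, ys, hvc, hl, hp, hN⟩ := hlow
  have hdc := hd c
  obtain ⟨y, zs, rfl⟩ : ∃ y zs, ys = y :: zs := by
    cases ys with
    | nil =>
      rw [List.length_nil] at hl
      omega
    | cons y zs => exact ⟨y, zs, rfl⟩
  have hpz : Prp c zs := hp.suffix (List.suffix_cons y zs)
  have hlen := wrd_length_gt c zs
  have hRR : R ≤ R ^ 2 := Nat.le_self_pow (by norm_num) R
  have hlen2 : (wrd c zs).length ≤ (wrd c (y :: zs)).length := by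
    rw [wrd_length, wrd_length]
    simp only [List.length_cons, List.reverse_cons, List.flatten_append, List.length_append]
    omega
  have hbk : R < (wrd c zs).length ∧ (wrd c zs).length ≤ Λ := by
    rw [hvc, List.length_cons] at hv
    omega
  have hmem : (⟨wrd c zs, hbk⟩ : Bk R Λ) ∈ Vs (R ^ 2) R Λ := by
    unfold Vs
    rw [Finset.mem_filter]
    exact ⟨Finset.mem_univ _, c, zs, rfl, hpz, hN⟩
  have hlamN : lam ≤ c.2.2 := by omega
  have key : ∀ Y : Bk R Λ → Str lam, wY g S Y0 (R ^ 2) Y1 Y (Sum.inl v) = true →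
      y = pad (Y ⟨wrd c zs, hbk⟩).1 c.2.2 := by
    intro Y hY
    unfold wY at hY
    rw [wld_inl, hvc, orU_wrd g S _ c (y :: zs) hl hp, bitv_cons] at hY
    have h2 := hY.1
    unfold hid at h2
    rw [extY_eq Y0 _ hbk, Finset.piecewise_eq_of_mem _ _ _ hmem] at h2
    exact h2
  by_cases hz : ∃ Z : Str lam, pad Z.1 c.2.2 = y
  · obtain ⟨Z, hZ⟩ := hz
    refine le_trans (pr_mono ?_) (pr_coord (⟨wrd c zs, hbk⟩ : Bk R Λ) Z)
    intro Y hY
    have h2 := key Y hY
    rw [← hZ] at h2
    exact (pad_inj hlamN h2).symm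
  · refine le_trans (pr_mono (Q := fun _ => False) ?_) (by rw [pr_false]; exact hj0)
    intro Y hY
    exact hz ⟨_, (key Y hY).symm⟩

/-- **Decision trees.** -/
theorem dtp_elim {g : Enum} (hd : ∀ c, 1 ≤ dp g c) {R Λ lam : ℕ} (hR : 1 ≤ R)
    (hlam : lam ≤ R ^ 2) {t : ℕ} {f : (At → Bool) → Prop}
    (hf : DTP {a : At | ∃ v : List Bool, a = Sum.inl v ∧ v.length ≤ Λ} t f) :
    ∃ f' : (At → Bool) → Prop,
      DTP {a : At | ∃ v : List Bool, a = Sum.inl v ∧ v.length ≤ Λ ∧ Low g (R ^ 2) v} t f' ∧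
      ∀ (S : Oracle) (Y0 : List Bool → List Bool) (Y1 : Bk R Λ → Str lam),
        pr (fun Y : Bk R Λ → Str lam =>
          ¬ (f (wY g S Y0 (R ^ 2) Y1 Y) ↔ f' (wY g S Y0 (R ^ 2) Y1 Y))) ≤
          t * (1 / Fintype.card (Str lam) : ℝ) := by
  have hJ : (0 : ℝ) < Fintype.card (Str lam) := by exact_mod_cast Fintype.card_pos
  have hj0 : (0 : ℝ) ≤ 1 / Fintype.card (Str lam) := by positivity
  induction hf with
  | const n P =>
    refine ⟨fun _ => P, DTP.const n P, ?_⟩
    intro S Y0 Y1
    refine le_trans (le_of_eq ?_) (mul_nonneg (Nat.cast_nonneg n) hj0)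
    rw [← pr_false (Ω := Bk R Λ → Str lam)]
    apply pr_congr
    intro Y
    simp
  | node n q hq f0 g0 _ _ ihf ihg =>
    obtain ⟨v, rfl, hv⟩ := hq
    obtain ⟨f1, hf1, hf2⟩ := ihf
    obtain ⟨g1, hg1, hg2⟩ := ihg
    have hn : (n : ℝ) * (1 / Fintype.card (Str lam)) ≤
        ((n + 1 : ℕ) : ℝ) * (1 / Fintype.card (Str lam)) := by
      apply mul_le_mul_of_nonneg_right _ hj0
      push_cast
      linarith
    by_cases hlow : Low g (R ^ 2) v
    · have hmemv : (Sum.inl v : At) ∈ {a : At | ∃ v : List Bool, a = Sum.inl v ∧ v.length ≤ Λ ∧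
          Low g (R ^ 2) v} := ⟨v, rfl, hv, hlow⟩
      refine ⟨_, DTP.node n (Sum.inl v) hmemv f1 g1 hf1 hg1, ?_⟩
      intro S Y0 Y1
      have hval : ∀ Y : Bk R Λ → Str lam, wY g S Y0 (R ^ 2) Y1 Y (Sum.inl v) =
          wY g S Y0 (R ^ 2) Y1 Y1 (Sum.inl v) := by
        intro Y
        unfold wY
        rw [wld_inl, wld_inl]
        exact orU_low (yag_piecewise Y Y1 Y1) _ v le_rfl hlow
      cases hb : wY g S Y0 (R ^ 2) Y1 Y1 (Sum.inl v)
      · refine le_trans (pr_mono ?_) ((hg2 S Y0 Y1).trans hn)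
        intro Y hY hiff
        have h1 := (hval Y).trans hb
        apply hY
        generalize wY g S Y0 (R ^ 2) Y1 Y = ω at h1 hiff
        simp only [h1]
        simpa using hiff
      · refine le_trans (pr_mono ?_) ((hf2 S Y0 Y1).trans hn)
        intro Y hY hiff
        have h1 := (hval Y).trans hb
        apply hY
        generalize wY g S Y0 (R ^ 2) Y1 Y = ω at h1 hiff
        simp only [h1]
        simpa using hiff
    · refine ⟨g1, hg1.mono (Nat.le_succ n), ?_⟩
      intro S Y0 Y1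
      have hhit := hit_prob hd hR hlam hv hlow S Y0 Y1
      have hsum := (pr_or _ _).trans (add_le_add hhit (hg2 S Y0 Y1))
      refine le_trans (pr_mono ?_) (hsum.trans (le_of_eq (by push_cast; ring)))
      intro Y hY
      by_contra hcon
      push Not at hcon
      obtain ⟨h1, h2⟩ := hcon
      apply hY
      generalize wY g S Y0 (R ^ 2) Y1 Y = ω at h1 h2
      have h3 : ω (Sum.inl v) = false := by simpa using h1
      simp only [h3]
      simpa using h2

end Pool.Agent.H8v
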